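import Pool.Agent.Y191.Om

/-!
Choice of the forms: the determinant does not vanish for a suitable family of forms which vanish at
the given points.
-/

set_option autoImplicit false

open MvPolynomial Matrix

namespace Pool.Agent.Y191

/-- The points impose independent conditions on the forms of degree `d`. -/
def IndT {ι : Type*} {κ : Type*} [Field κ] {q : ℕ} (d : ℕ) (ℓ : Fin q → ι → κ) : Prop :=
  ∀ i, ∃ P : MvPolynomial ι κ, P.IsHomogeneous d ∧ eval (ℓ i) P ≠ 0 ∧
    ∀ j, j ≠ i → eval (ℓ j) P = 0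

theorem IndT.ne {ι κ : Type*} [Field κ] {q d : ℕ} {ℓ : Fin q → ι → κ} (hd : 0 < d)
    (h : IndT d ℓ) (i : Fin q) : ℓ i ≠ 0 := by
  intro h0
  obtain ⟨P, hP, h1, _⟩ := h i
  apply h1
  rw [h0]
  have h3 : eval (0 : ι → κ) P = constantCoeff P := by
    simp
  rw [h3, constantCoeff_eq]
  by_contra hc
  have := hP hc
  simp at this
  omega

theorem IndT.succ {ι κ : Type*} [Field κ] {q d : ℕ} {ℓ : Fin q → ι → κ} (hd : 0 < d)
    (h : IndT d ℓ) : IndT (d + 1) ℓ := by
  intro i
  obtain ⟨P, hP, h1, h2⟩ := h i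
  obtain ⟨j, hj⟩ : ∃ j, ℓ i j ≠ 0 := by
    by_contra hc
    push Not at hc
    exact h.ne hd i (funext hc)
  refine ⟨P * X j, hP.mul (isHomogeneous_X κ j), ?_, fun j' hj' => ?_⟩
  · rw [map_mul, eval_X]
    exact mul_ne_zero h1 hj
  · rw [map_mul, h2 j' hj', zero_mul]

variable {k K : Type*} [Field k] [Field K] [Algebra k K]

theorem eval_mapK {ι : Type*} (x : ι → k) (P : MvPolynomial ι k) :
    eval (fun j => algebraMap k K (x j)) (map (algebraMap k K) P) = algebraMap k K (eval x P) := by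
  rw [eval_map]
  have h := MvPolynomial.eval₂_comp_left (algebraMap k K) (RingHom.id k) x P
  rw [RingHom.comp_id] at h
  exact h.symm

theorem hom_smul {ι κ : Type*} [Field κ] {P : MvPolynomial ι κ} {d : ℕ} (hP : P.IsHomogeneous d)
    (c : κ) : (c • P).IsHomogeneous d := by
  rw [smul_eq_C_mul]
  have h := (isHomogeneous_C ι c).mul hP
  rwa [zero_add] at h

/-- interpolation -/
theorem IndT.interp {ι : Type*} {q d : ℕ} {ℓ : Fin q → ι → k} (h : IndT d ℓ) (t : Fin q → K) :
    ∃ x : MvPolynomial ι K, x.IsHomogeneous d ∧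
      ∀ i, eval (fun j => algebraMap k K (ℓ i j)) x = t i := by
  choose P hP h1 h2 using h
  refine ⟨∑ i, (t i * (algebraMap k K (eval (ℓ i) (P i)))⁻¹) • map (algebraMap k K) (P i),
    IsHomogeneous.sum _ _ _ fun i _ => hom_smul ((hP i).map (algebraMap k K)) _, fun i => ?_⟩
  rw [map_sum, Finset.sum_eq_single i]
  · rw [smul_eval, eval_mapK, inv_mul_cancel_right₀]
    intro h0
    exact h1 i ((map_eq_zero _).mp h0)
  · intro j _ hj
    rw [smul_eval, eval_mapK, h2 j i hj.symm, map_zero, mul_zero]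
  · simp

/-- a form over the large field which vanishes at the points is a combination of forms over the
small field which vanish at the points -/
theorem form_descent {ι : Type*} [Fintype ι] [DecidableEq ι] {q r : ℕ} {ℓ : Fin q → ι → k}
    (h : IndT r ℓ) {U : MvPolynomial ι K} (hU : U.IsHomogeneous r)
    (h0 : ∀ i, eval (fun j => algebraMap k K (ℓ i j)) U = 0) :
    ∃ y : Mon ι r → MvPolynomial ι k, (∀ α, (y α).IsHomogeneous r) ∧
      (∀ α i, eval (ℓ i) (y α) = 0) ∧
      U = ∑ α, coeff α.1 U • map (algebraMap k K) (y α) := by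
  classical
  choose P hP h1 h2 using h
  refine ⟨fun α => monomial α.1 1 -
    ∑ i, (eval (ℓ i) (monomial α.1 1) / eval (ℓ i) (P i)) • P i, fun α => ?_, fun α i => ?_, ?_⟩
  · exact (isHomogeneous_monomial _ α.deg).sub (IsHomogeneous.sum _ _ _ fun i _ =>
      hom_smul (hP i) _)
  · rw [map_sub, map_sum, Finset.sum_eq_single i]
    · rw [smul_eval, div_mul_cancel₀ _ (h1 i), sub_self]
    · intro j _ hj
      rw [smul_eval, h2 j i hj.symm, mul_zero]
    · simp
  · have h3 : ∀ α : Mon ι r, map (algebraMap k K) (monomial α.1 1 -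
        ∑ i, (eval (ℓ i) (monomial α.1 1) / eval (ℓ i) (P i)) • P i) =
        monomial α.1 1 - ∑ i, (algebraMap k K (eval (ℓ i) (monomial α.1 1)) *
          (algebraMap k K (eval (ℓ i) (P i)))⁻¹) • map (algebraMap k K) (P i) := by
      intro α
      rw [map_sub, map_monomial, map_one, map_sum]
      congr 1
      refine Finset.sum_congr rfl fun i _ => ?_
      rw [smul_eq_C_mul, map_mul, map_C, smul_eq_C_mul, map_div₀, div_eq_mul_inv]
    simp only [h3, smul_sub, Finset.sum_sub_distrib]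
    rw [← hom_eq_sum hU]
    have h4 : ∑ α : Mon ι r, coeff α.1 U • ∑ i, (algebraMap k K (eval (ℓ i) (monomial α.1 1)) *
          (algebraMap k K (eval (ℓ i) (P i)))⁻¹) • map (algebraMap k K) (P i) = 0 := by
      simp only [Finset.smul_sum, smul_smul]
      rw [Finset.sum_comm]
      refine Finset.sum_eq_zero fun i _ => ?_
      rw [← Finset.sum_smul]
      have h5 : ∑ α : Mon ι r, coeff α.1 U * (algebraMap k K (eval (ℓ i) (monomial α.1 1)) *
          (algebraMap k K (eval (ℓ i) (P i)))⁻¹) = 0 := by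
        have h6 := h0 i
        rw [hom_eq_sum hU, map_sum] at h6
        have h7 : ∀ α : Mon ι r, coeff α.1 U * (algebraMap k K (eval (ℓ i) (monomial α.1 1)) *
            (algebraMap k K (eval (ℓ i) (P i)))⁻¹) =
            eval (fun j => algebraMap k K (ℓ i j)) (coeff α.1 U • monomial α.1 (1 : K)) *
            (algebraMap k K (eval (ℓ i) (P i)))⁻¹ := by
          intro α
          rw [smul_eval, ← eval_mapK, map_monomial, map_one]
          ring
        simp only [h7]
        rw [← Finset.sum_mul, h6, zero_mul]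
      rw [h5, zero_smul]
    rw [h4, sub_zero]

variable {A B : Type*} [Fintype A] [DecidableEq A] [Fintype B] [DecidableEq B]

theorem sb_C {ι : Type*} (F : Matrix B ι K) (c : K) : sb F (C c) = C c := by
  unfold sb
  rw [aeval_C]
  rfl

theorem sb_lin {ι : Type*} [Fintype ι] (F : Matrix B ι K) (x : ι → K) :
    sb F (∑ j, C (x j) * X j) = ∑ b, C (∑ j, F b j * x j) * X b := by
  rw [map_sum]
  have h : ∀ j, sb F (C (x j) * X j) = ∑ b, C (F b j * x j) * X b := by
    intro j
    rw [map_mul, sb_C, sb_X, Finset.mul_sum]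
    refine Finset.sum_congr rfl fun b _ => ?_
    rw [C_mul]
    ring
  rw [Finset.sum_congr rfl fun j _ => h j, Finset.sum_comm]
  refine Finset.sum_congr rfl fun b _ => ?_
  rw [← Finset.sum_mul, ← map_sum]

theorem pr_row {H : Matrix (A ⊕ B) (A ⊕ B) K} (hH : H.det ≠ 0) (a : A) (b : B) :
    ∑ j, pr H b j * H (Sum.inl a) j = 0 := by
  have h1 : (H * (pr H)ᵀ) (Sum.inl a) b = 0 := by
    rw [mul_pr hH, fromRows_apply_inl]
    rfl
  rw [Matrix.mul_apply] at h1
  rw [← h1]
  refine Finset.sum_congr rfl fun j _ => ?_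
  rw [mul_comm]
  rfl

theorem pr_col {H : Matrix (A ⊕ B) (A ⊕ B) K} (hH : H.det ≠ 0) :
    pr H * (Matrix.of fun j b => H (Sum.inr b) j : Matrix (A ⊕ B) B K) = 1 := by
  refine Matrix.ext fun b b' => ?_
  have h1 : (H * (pr H)ᵀ) (Sum.inr b') b = (1 : Matrix B B K) b' b := by
    rw [mul_pr hH, fromRows_apply_inr]
  rw [Matrix.mul_apply] at h1
  rw [Matrix.mul_apply, Matrix.one_apply]
  rw [Matrix.one_apply] at h1
  simp only [eq_comm (a := b) (b := b')]
  rw [← h1]
  refine Finset.sum_congr rfl fun j _ => ?_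
  rw [mul_comm]
  rfl

/-- Choice of the forms. -/
theorem exists_y {q d : ℕ} (hd : 0 < d) {ℓ : Fin q → (A ⊕ B) → k} (h : IndT d ℓ)
    {H : Matrix (A ⊕ B) (A ⊕ B) K} (hH : H.det ≠ 0) (a0 : A)
    (hb : ∀ i, ∑ j, algebraMap k K (ℓ i j) * H (Sum.inl a0) j ≠ 0) :
    ∃ y : Mon B (d + 1) → MvPolynomial (A ⊕ B) k, (∀ β, (y β).IsHomogeneous (d + 1)) ∧
      (∀ β i, eval (ℓ i) (y β) = 0) ∧
      Om (fun β => map (algebraMap k K) (y β)) H ≠ 0 := by
  classical
  set s : Set (Mon B (d + 1) → K) := {x | ∃ y : MvPolynomial (A ⊕ B) k, y.IsHomogeneous (d + 1) ∧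
    (∀ i, eval (ℓ i) y = 0) ∧ x = fun β => coeff β.1 (sb (pr H) (map (algebraMap k K) y))} with hs
  have hspan : Submodule.span K s = ⊤ := by
    rw [eq_top_iff]
    intro z _
    set Z : MvPolynomial B K := ∑ β : Mon B (d + 1), z β • monomial β.1 1 with hZ
    have hZh : Z.IsHomogeneous (d + 1) := IsHomogeneous.sum _ _ _ fun β _ =>
      hom_smul (isHomogeneous_monomial (1 : K) β.deg) _
    have hZc : ∀ β : Mon B (d + 1), coeff β.1 Z = z β := by
      intro β
      rw [hZ, coeff_sum, Finset.sum_eq_single β]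
      · simp
      · intro β' _ hβ'
        rw [coeff_smul, coeff_monomial, if_neg fun h => hβ' (Subtype.ext h)]
        simp
      · simp
    set N : Matrix (A ⊕ B) B K := Matrix.of fun j b => H (Sum.inr b) j with hN
    set S := sb N Z with hS
    have hSh : S.IsHomogeneous (d + 1) := sb_hom _ hZh
    have hprN : pr H * N = 1 := pr_col hH
    have hSZ : sb (pr H) S = Z := by
      rw [hS, ← sb_mul, hprN, sb_one]
    obtain ⟨x, hx, hxe⟩ := h.interp (K := K) fun i =>
      eval (fun j => algebraMap k K (ℓ i j)) S / ∑ j, algebraMap k K (ℓ i j) * H (Sum.inl a0) j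
    set L : MvPolynomial (A ⊕ B) K := ∑ j, C (H (Sum.inl a0) j) * X j with hL
    have hLh : L.IsHomogeneous 1 := IsHomogeneous.sum _ _ _ fun j _ => by
      simpa using (isHomogeneous_C _ _).mul (isHomogeneous_X K j)
    have hL0 : sb (pr H) L = 0 := by
      rw [hL, sb_lin]
      refine Finset.sum_eq_zero fun b _ => ?_
      rw [pr_row hH, C_0, zero_mul]
    have hLe : ∀ i, eval (fun j => algebraMap k K (ℓ i j)) L =
        ∑ j, algebraMap k K (ℓ i j) * H (Sum.inl a0) j := by
      intro i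
      rw [hL, map_sum]
      refine Finset.sum_congr rfl fun j _ => ?_
      rw [map_mul, eval_C, eval_X, mul_comm]
    have hU : (S - L * x).IsHomogeneous (d + 1) := by
      refine hSh.sub ?_
      have := hLh.mul hx
      rwa [Nat.add_comm 1 d] at this
    have hU0 : ∀ i, eval (fun j => algebraMap k K (ℓ i j)) (S - L * x) = 0 := by
      intro i
      rw [map_sub, map_mul, hLe, hxe, mul_div_cancel₀ _ (hb i), sub_self]
    have hUZ : sb (pr H) (S - L * x) = Z := by
      rw [map_sub, map_mul, hL0, zero_mul, sub_zero, hSZ]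
    obtain ⟨y, hy, hy0, hyU⟩ := form_descent (h.succ hd) hU hU0
    have hz : z = ∑ α : Mon (A ⊕ B) (d + 1), coeff α.1 (S - L * x) •
        fun β : Mon B (d + 1) => coeff β.1 (sb (pr H) (map (algebraMap k K) (y α))) := by
      funext β
      rw [← hZc β, ← hUZ]
      conv_lhs => rw [hyU, map_sum, coeff_sum]
      rw [Finset.sum_apply]
      refine Finset.sum_congr rfl fun α _ => ?_
      rw [map_smul, coeff_smul]
      rfl
    rw [hz]
    exact Submodule.sum_mem _ fun α _ => Submodule.smul_mem _ _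
      (Submodule.subset_span ⟨y α, hy α, hy0 α, rfl⟩)
  obtain ⟨m, hm, hdet⟩ := exists_det s hspan
  choose y hy hy0 hym using hm
  refine ⟨y, hy, hy0, mul_ne_zero (pow_ne_zero _ hH) ?_⟩
  intro h0
  apply hdet
  rw [← Matrix.det_transpose, ← h0]
  congr 1
  refine Matrix.ext fun β β' => ?_
  change m β' β = coeff β.1 (sb (pr H) (map (algebraMap k K) (y β')))
  rw [hym β']

end Pool.Agent.Y191
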