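import Pool.Agent.Y191.Sym
import Pool.Agent.Y191.Span
import Pool.Agent.W601.VF.Gen

/-!
Numerical estimates.
-/

set_option autoImplicit false

open MvPolynomial Module

namespace Pool.Agent.Y191

theorem gam_step {n d w : ℕ} (hw : w + 1 ≤ n) (hd : n ≤ d) :
    (w + 2) * gam (n - (w + 1)) (d + 1) ≤ (w + 1) * gam (n - w) (d + 1) := by
  obtain ⟨a, ha⟩ : ∃ a, n = w + 1 + a := ⟨n - (w + 1), by omega⟩
  have e1 : n - (w + 1) = a := by omega
  have e2 : n - w = a + 1 := by omega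
  rw [e1, e2]
  unfold gam
  have e3 : a + (d + 1) - 1 = a + d := by omega
  have e4 : a + 1 + (d + 1) - 1 = a + d + 1 := by omega
  rw [e3, e4]
  have h1 := Nat.add_one_mul_choose_eq (a + d) a
  have hpos : 0 < (a + d).choose a := Nat.choose_pos (by omega)
  have h2 : (w + 2) * (a + 1) ≤ (w + 1) * (a + d + 1) := by nlinarith
  have h3 : (a + 1) * ((w + 2) * (a + d).choose a) ≤
      (a + 1) * ((w + 1) * (a + d + 1).choose (a + 1)) := by
    calc (a + 1) * ((w + 2) * (a + d).choose a) = ((w + 2) * (a + 1)) * (a + d).choose a := by ring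
      _ ≤ ((w + 1) * (a + d + 1)) * (a + d).choose a := Nat.mul_le_mul_right _ h2
      _ = (w + 1) * ((a + d + 1) * (a + d).choose a) := by ring
      _ = (w + 1) * ((a + d + 1).choose (a + 1) * (a + 1)) := by rw [h1]
      _ = _ := by ring
  exact Nat.le_of_mul_le_mul_left h3 (by omega)

theorem gam_le {n d : ℕ} (hd : n ≤ d) : ∀ w, 1 ≤ w → w ≤ n →
    (w + 1) * gam (n - w) (d + 1) ≤ 2 * (n + d - 1).choose (n - 1) := by
  intro w hw
  induction w, hw using Nat.le_induction with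
  | base =>
    intro h
    unfold gam
    have e : n - 1 + (d + 1) - 1 = n + d - 1 := by omega
    rw [e]
  | succ w hw ih =>
    intro h
    exact (gam_step h hd).trans (ih (by omega))

theorem le_of_ind {κ : Type*} [Field κ] {n d q : ℕ} {ℓ : Fin q → Fin (n + 1) → κ}
    (h : IndT d ℓ) : q ≤ (n + d).choose n := by
  set T : Pool.Agent.W601.VF.Rn κ n d →ₗ[κ] (Fin q → κ) :=
    LinearMap.pi fun i => Pool.Agent.W601.VF.ev d (ℓ i) with hT
  have hTs : LinearMap.range T = ⊤ := by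
    rw [LinearMap.range_eq_top]
    intro t
    obtain ⟨v, hv⟩ := Pool.Agent.W601.VF.Ind.surj (k := d) h t
    exact ⟨v, funext hv⟩
  have h1 := LinearMap.finrank_range_le T
  rw [hTs, finrank_top, Module.finrank_fin_fun, Pool.Agent.W601.VF.finrank_Rn] at h1
  exact h1

theorem deg_lt {n d : ℕ} (hn : 1 ≤ n) (h : 2 * (n + d - 1).choose (n - 1) < (n + d).choose n) :
    n < d := by
  obtain ⟨m, rfl⟩ : ∃ m, n = m + 1 := ⟨n - 1, by omega⟩
  have e1 : m + 1 + d - 1 = m + d := by omega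
  have e2 : m + 1 - 1 = m := by omega
  have e3 : m + 1 + d = m + d + 1 := by omega
  rw [e1, e2, e3] at h
  have h1 := Nat.add_one_mul_choose_eq (m + d) m
  have hpos : 0 < (m + d).choose m := Nat.choose_pos (by omega)
  have h2 : (m + d).choose m * (2 * (m + 1)) < (m + d).choose m * (m + d + 1) := by
    calc (m + d).choose m * (2 * (m + 1)) = (2 * (m + d).choose m) * (m + 1) := by ring
      _ < (m + d + 1).choose (m + 1) * (m + 1) := Nat.mul_lt_mul_of_pos_right h (by omega)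
      _ = (m + d + 1) * (m + d).choose m := h1.symm
      _ = _ := by ring
  have h3 := Nat.lt_of_mul_lt_mul_left h2
  omega

/-- the uniform exponent -/
theorem exists_R {n d q : ℕ} (hd : n ≤ d) {wt : Fin q → ℝ} (h0 : ∀ i, 0 ≤ wt i)
    (h1 : (2 * (n + d - 1).choose (n - 1) : ℕ) < ∑ i, wt i) :
    ∃ R : ℕ, 0 < R ∧ ∀ w, 1 ≤ w → w ≤ n → ∃ (N : ℕ) (m : Fin q → ℕ),
      0 < N ∧ R = N * gam (n - w) (d + 1) ∧ (∀ i, (m i : ℝ) ≤ N * wt i) ∧
      N * ((w + 1) * gam (n - w) (d + 1)) < ∑ i, m i := by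
  classical
  obtain ⟨δ, hδ⟩ : ∃ δ, δ = ∑ i, wt i - (2 * (n + d - 1).choose (n - 1) : ℕ) := ⟨_, rfl⟩
  have hδ0 : 0 < δ := by rw [hδ]; linarith
  obtain ⟨N0, hN0⟩ := exists_nat_gt ((q + 1 : ℝ) / δ)
  have hN0' : (q + 1 : ℝ) < N0 * δ := (div_lt_iff₀ hδ0).mp hN0
  have hN0pos : 0 < N0 := by
    by_contra h
    have : N0 = 0 := by omega
    rw [this] at hN0'
    simp at hN0'
    have : (0 : ℝ) ≤ q := by positivity
    linarith
  have hg : ∀ w, 0 < gam (n - w) (d + 1) := fun w => gam_pos _ (by omega)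
  refine ⟨N0 * ∏ w ∈ Finset.range (n + 1), gam (n - w) (d + 1),
    Nat.mul_pos hN0pos (Finset.prod_pos fun w _ => hg w), fun w hw1 hwn => ?_⟩
  obtain ⟨N, hN⟩ : ∃ N, N = N0 * ∏ w' ∈ (Finset.range (n + 1)).erase w, gam (n - w') (d + 1) :=
    ⟨_, rfl⟩
  have hprod : 0 < ∏ w' ∈ (Finset.range (n + 1)).erase w, gam (n - w') (d + 1) :=
    Finset.prod_pos fun w _ => hg w
  have hNN0 : N0 ≤ N := by
    rw [hN]
    exact Nat.le_mul_of_pos_right _ hprod
  refine ⟨N, fun i => ⌊(N : ℝ) * wt i⌋₊, by omega, ?_, fun i => Nat.floor_le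
    (mul_nonneg (by positivity) (h0 i)), ?_⟩
  · rw [hN, mul_assoc, Finset.prod_erase_mul _ _ (Finset.mem_range.mpr (by omega))]
  · have h2 := gam_le hd w hw1 hwn
    have h3 : (N : ℝ) * ∑ i, wt i - q ≤ ((∑ i, ⌊(N : ℝ) * wt i⌋₊ : ℕ) : ℝ) := by
      push_cast
      have h4 : ∀ i, (N : ℝ) * wt i - 1 ≤ (⌊(N : ℝ) * wt i⌋₊ : ℝ) := fun i =>
        (Nat.sub_one_lt_floor _).le
      have h5 := Finset.sum_le_sum fun i (_ : i ∈ Finset.univ) => h4 i
      rw [Finset.sum_sub_distrib, ← Finset.mul_sum] at h5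
      simpa using h5
    have h4 : (q + 1 : ℝ) < N * δ := hN0'.trans_le
      (mul_le_mul_of_nonneg_right (by exact_mod_cast hNN0) hδ0.le)
    have h5 : ((N * ((w + 1) * gam (n - w) (d + 1)) : ℕ) : ℝ) ≤
        N * (2 * (n + d - 1).choose (n - 1) : ℕ) := by
      exact_mod_cast Nat.mul_le_mul_left N h2
    have h6 : (N : ℝ) * ∑ i, wt i = N * (2 * (n + d - 1).choose (n - 1) : ℕ) + N * δ := by
      rw [hδ]; ring
    have h7 : ((N * ((w + 1) * gam (n - w) (d + 1)) : ℕ) : ℝ) <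
        ((∑ i, ⌊(N : ℝ) * wt i⌋₊ : ℕ) : ℝ) := by
      linarith
    exact_mod_cast h7

end Pool.Agent.Y191
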