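import Pool.Agent.Y191.Flat
import Pool.Agent.Y191.Num
import Pool.Agent.W601.VF.Cov3

/-!
General arrangements: all restrictions to flats are in general position and impose independent
conditions on forms of a suitable degree.
-/

set_option autoImplicit false

open MvPolynomial Matrix

namespace Pool.Agent.Y191

variable {k : Type} [Field k] {n q : ℕ}

/-- a property of arrangements holds for general arrangements -/
def Generic (P : (Fin q → Fin (n + 1) → k) → Prop) : Prop :=
  ∃ Ψ : MvPolynomial (Fin q × Fin (n + 1)) k, Ψ ≠ 0 ∧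
    ∀ ℓ : Fin q → Fin (n + 1) → k, eval (fun x => ℓ x.1 x.2) Ψ ≠ 0 → P ℓ

theorem Generic.mono {P Q : (Fin q → Fin (n + 1) → k) → Prop} (hP : Generic P)
    (h : ∀ ℓ, P ℓ → Q ℓ) : Generic Q := by
  obtain ⟨Ψ, h1, h2⟩ := hP
  exact ⟨Ψ, h1, fun ℓ hℓ => h ℓ (h2 ℓ hℓ)⟩

theorem Generic.and {P Q : (Fin q → Fin (n + 1) → k) → Prop} (hP : Generic P) (hQ : Generic Q) :
    Generic fun ℓ => P ℓ ∧ Q ℓ := by
  obtain ⟨Ψ, h1, h2⟩ := hP
  obtain ⟨Φ, h3, h4⟩ := hQ
  refine ⟨Ψ * Φ, mul_ne_zero h1 h3, fun ℓ hℓ => ?_⟩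
  rw [map_mul] at hℓ
  exact ⟨h2 ℓ (left_ne_zero_of_mul hℓ), h4 ℓ (right_ne_zero_of_mul hℓ)⟩

theorem Generic.all {ι : Type*} [Finite ι] {P : ι → (Fin q → Fin (n + 1) → k) → Prop}
    (hP : ∀ i, Generic (P i)) : Generic fun ℓ => ∀ i, P i ℓ := by
  classical
  have := Fintype.ofFinite ι
  choose Ψ h1 h2 using hP
  refine ⟨∏ i, Ψ i, Finset.prod_ne_zero_iff.mpr fun i _ => h1 i, fun ℓ hℓ i => h2 i ℓ ?_⟩
  rw [map_prod] at hℓ
  exact Finset.prod_ne_zero_iff.mp hℓ i (Finset.mem_univ i)

theorem Generic.imp {p : Prop} {P : (Fin q → Fin (n + 1) → k) → Prop} (h : p → Generic P) :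
    Generic fun ℓ => p → P ℓ := by
  by_cases hp : p
  · exact (h hp).mono fun ℓ hℓ _ => hℓ
  · exact ⟨1, one_ne_zero, fun ℓ _ h => absurd h hp⟩

/-- general position is a generic property -/
theorem generic_gp : Generic (n := n) (q := q) (k := k) fun ℓ => GenPos ℓ := by
  refine Generic.all fun σ => Generic.imp fun hσ => ?_
  refine ⟨(Matrix.of fun i j => X (σ i, j) :
    Matrix (Fin (n + 1)) (Fin (n + 1)) (MvPolynomial (Fin q × Fin (n + 1)) k)).det, ?_,
    fun ℓ hℓ => ?_⟩
  · intro h0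
    have h1 := congrArg (eval fun x : Fin q × Fin (n + 1) => if x.1 = σ x.2 then (1 : k) else 0) h0
    rw [RingHom.map_det, map_zero] at h1
    have h2 : (eval fun x : Fin q × Fin (n + 1) => if x.1 = σ x.2 then (1 : k) else 0).mapMatrix
        (Matrix.of fun i j => X (σ i, j) :
          Matrix (Fin (n + 1)) (Fin (n + 1)) (MvPolynomial (Fin q × Fin (n + 1)) k)) = 1 := by
      refine Matrix.ext fun i j => ?_
      rw [RingHom.mapMatrix_apply, Matrix.map_apply, Matrix.of_apply, eval_X, Matrix.one_apply]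
      simp only [hσ.eq_iff]
    rw [h2, det_one] at h1
    exact one_ne_zero h1
  · rw [RingHom.map_det] at hℓ
    have h2 : (eval fun x : Fin q × Fin (n + 1) => ℓ x.1 x.2).mapMatrix
        (Matrix.of fun i j => X (σ i, j) :
          Matrix (Fin (n + 1)) (Fin (n + 1)) (MvPolynomial (Fin q × Fin (n + 1)) k)) =
        Matrix.of fun j => ℓ (σ j) := by
      refine Matrix.ext fun i j => ?_
      rw [RingHom.mapMatrix_apply, Matrix.map_apply, Matrix.of_apply, eval_X]
      rfl
    rwa [h2] at hℓ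

/-- the splitting of the coordinates -/
def eqv (s p n : ℕ) (h : s + (p + 1) = n + 1) : Fin s ⊕ Fin (p + 1) ≃ Fin (n + 1) :=
  finSumFinEquiv.trans (finCongr h)

/-- The arrangement is general enough for all its restrictions to flats. -/
def Good (m : ℕ) (ℓ : Fin q → Fin (n + 1) → k) : Prop :=
  ∀ (s p : ℕ) (h : s + (p + 1) = n + 1) (σ : Fin s → Fin q), Function.Injective σ →
    (fA (eqv s p n h) σ ℓ).det ≠ 0 ∧
    (0 < p → ∀ τ : Fin (q - s) → Fin q, Function.Injective τ → (∀ a b, σ a ≠ τ b) →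
      ∃ d, IndT d (fun i => rho (eqv s p n h) σ ℓ (τ i)) ∧
        GenPos (fun i => rho (eqv s p n h) σ ℓ (τ i)) ∧
        (2 * (p + d - 1).choose (p - 1) : ℕ) < ((q - s : ℕ) : ℝ) * (1 - 1 / m))

theorem generic_det {s p : ℕ} (e : Fin s ⊕ Fin (p + 1) ≃ Fin (n + 1)) {σ : Fin s → Fin q}
    (hσ : Function.Injective σ) : Generic (k := k) fun ℓ => (fA e σ ℓ).det ≠ 0 := by
  refine ⟨(fA e σ fun i j => X (i, j)).det, ?_, fun ℓ hℓ => ?_⟩
  · intro h0
    set f : MvPolynomial (Fin q × Fin (n + 1)) k →+* k :=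
      eval fun x => if ∃ a, x.1 = σ a ∧ x.2 = e (Sum.inl a) then 1 else 0 with hf
    have h1 := congrArg f h0
    rw [RingHom.map_det, ← fA_map, map_zero] at h1
    have h2 : fA e σ (fun i j => f (X (i, j))) = 1 := by
      refine Matrix.ext fun a b => ?_
      change f (X (σ a, e (Sum.inl b))) = _
      rw [hf, eval_X, Matrix.one_apply]
      by_cases hab : a = b
      · rw [if_pos hab, if_pos ⟨a, rfl, by rw [hab]⟩]
      · rw [if_neg hab, if_neg]
        rintro ⟨c, hc1, hc2⟩
        apply hab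
        rw [hσ hc1]
        exact (Sum.inl_injective (e.injective hc2)).symm
    rw [h2, det_one] at h1
    exact one_ne_zero h1
  · rw [RingHom.map_det, ← fA_map] at hℓ
    simpa using hℓ

/-- a generic property of the restrictions is generic -/
theorem generic_rho [Infinite k] {s p q' : ℕ} (e : Fin s ⊕ Fin (p + 1) ≃ Fin (n + 1))
    {σ : Fin s → Fin q} (hσ : Function.Injective σ) {τ : Fin q' → Fin q}
    (hτ : Function.Injective τ) (hστ : ∀ a b, σ a ≠ τ b)
    {P : (Fin q' → Fin (p + 1) → k) → Prop} (hP : Generic P) :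
    Generic fun ℓ : Fin q → Fin (n + 1) → k => P fun i => rho e σ ℓ (τ i) := by
  classical
  obtain ⟨Ψ, h1, h2⟩ := hP
  have hev : ∀ f : MvPolynomial (Fin q × Fin (n + 1)) k →ₐ[k] k,
      f (aeval (fun x => rho e σ (fun i j => X (i, j)) (τ x.1) x.2) Ψ) =
      eval (fun x => rho e σ (fun i j => f (X (i, j))) (τ x.1) x.2) Ψ := by
    intro f
    rw [← AlgHom.comp_apply, comp_aeval, ← coe_aeval_eq_eval]
    have h3 : (fun x : Fin q' × Fin (p + 1) => f (rho e σ (fun i j => X (i, j)) (τ x.1) x.2)) =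
        fun x => rho e σ (fun i j => f (X (i, j))) (τ x.1) x.2 :=
      funext fun x => (rho_map f.toRingHom e σ _ _ _).symm
    rw [h3]
    rfl
  refine ⟨aeval (fun x => rho e σ (fun i j => X (i, j)) (τ x.1) x.2) Ψ, ?_, fun ℓ hℓ => h2 _ ?_⟩
  · intro h0
    obtain ⟨ρ, hρ⟩ : ∃ ρ : Fin q' × Fin (p + 1) → k, eval ρ Ψ ≠ 0 := by
      by_contra hcon
      push Not at hcon
      exact h1 (MvPolynomial.funext fun x => by rw [hcon x, map_zero])
    -- the arrangement which restricts to `ρ`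
    let ℓ : Fin q → Fin (n + 1) → k := fun i l =>
      if h : ∃ b, τ b = i then
        Sum.elim (fun _ => 0) (fun j => ρ (h.choose, j)) (e.symm l)
      else if ∃ a, σ a = i ∧ l = e (Sum.inl a) then 1 else 0
    have hℓτ : ∀ b x, ℓ (τ b) (e x) = Sum.elim (fun _ => 0) (fun j => ρ (b, j)) x := by
      intro b x
      have hb : ∃ b', τ b' = τ b := ⟨b, rfl⟩
      have hb' : hb.choose = b := hτ hb.choose_spec
      simp only [ℓ]
      rw [dif_pos hb, hb', e.symm_apply_apply]
    have hℓσ : ∀ a x, ℓ (σ a) (e x) = if x = Sum.inl a then 1 else 0 := by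
      intro a x
      have hb : ¬ ∃ b, τ b = σ a := by
        rintro ⟨b, hb⟩
        exact hστ a b hb.symm
      simp only [ℓ]
      rw [dif_neg hb]
      by_cases hx : x = Sum.inl a
      · rw [if_pos hx, if_pos ⟨a, rfl, by rw [hx]⟩]
      · rw [if_neg hx, if_neg]
        rintro ⟨c, hc, hc'⟩
        apply hx
        rw [← hσ hc]
        exact e.injective hc'
    have h3 := congrArg (aeval (R := k) fun x : Fin q × Fin (n + 1) => ℓ x.1 x.2) h0
    rw [hev, map_zero] at h3
    apply hρ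
    rw [← h3]
    congr 2
    funext x
    have h4 : (fun i j => (aeval (R := k) fun x : Fin q × Fin (n + 1) => ℓ x.1 x.2)
        (X (i, j) : MvPolynomial (Fin q × Fin (n + 1)) k)) = ℓ := by
      funext i j
      rw [aeval_X]
    rw [h4]
    have h5 : fA e σ ℓ = 1 := by
      refine Matrix.ext fun a b => ?_
      change ℓ (σ a) (e (Sum.inl b)) = _
      rw [hℓσ, Matrix.one_apply]
      by_cases hab : a = b
      · rw [if_pos hab, if_pos (by rw [hab])]
      · rw [if_neg hab, if_neg]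
        intro h
        exact hab (Sum.inl_injective h).symm
    unfold rho
    rw [h5, det_one, one_mul, hℓτ]
    simp only [hℓτ, Sum.elim_inl, zero_mul, Finset.sum_const_zero, sub_zero, Sum.elim_inr]
  · have h3 := hev (aeval fun x => ℓ x.1 x.2)
    have h4 : (fun i j => (aeval (R := k) fun x : Fin q × Fin (n + 1) => ℓ x.1 x.2)
        (X (i, j) : MvPolynomial (Fin q × Fin (n + 1)) k)) = ℓ := by
      funext i j
      rw [aeval_X]
    rw [h4] at h3
    rw [← h3]
    exact hℓ

theorem choose_flat {K p j : ℕ} (hK : 1 ≤ K) :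
    (p + K).choose p + j ≤ (p + j + K).choose (p + j) := by
  induction j with
  | zero => simp
  | succ j ih =>
    have e : p + (j + 1) + K = (p + j + K) + 1 := by omega
    have e2 : p + (j + 1) = (p + j) + 1 := by omega
    rw [e, e2, Nat.choose_succ_succ']
    have : 0 < (p + j + K).choose (p + j + 1) := Nat.choose_pos (by omega)
    omega

/-- General arrangements are good. -/
theorem generic_good [Infinite k] {m K : ℕ} (hm : 2 ≤ m) (hn : 1 ≤ n)
    (hK : 2 * n * m ≤ K * (m - 1)) (hq : (n + K).choose n < q) :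
    Generic (n := n) (q := q) (k := k) fun ℓ => Good m ℓ := by
  have hK1 : 1 ≤ K := by
    by_contra h
    have h0 : K = 0 := by omega
    rw [h0, zero_mul] at hK
    have : 0 < 2 * n * m := by positivity
    omega
  have hm1 : (0 : ℝ) < m := by
    have : 0 < m := by omega
    exact_mod_cast this
  have hs : (0 : ℝ) < 1 - 1 / m := by
    have h2 : (2 : ℝ) ≤ m := by exact_mod_cast hm
    rw [sub_pos, div_lt_one hm1]
    linarith
  have hKr : (2 * n : ℝ) ≤ K * (1 - 1 / m) := by
    have h1 : ((2 * n * m : ℕ) : ℝ) ≤ ((K * (m - 1) : ℕ) : ℝ) := by exact_mod_cast hK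
    rw [Nat.cast_mul, Nat.cast_mul K, Nat.cast_sub (by omega : 1 ≤ m)] at h1
    push_cast at h1
    have h2 : (K : ℝ) * (1 - 1 / m) = K * (m - 1) / m := by field_simp
    rw [h2, le_div_iff₀ hm1]
    exact h1
  have key : ∀ s : Fin (n + 1), Generic (n := n) (q := q) (k := k) fun ℓ =>
      ∀ (p : ℕ) (h : (s : ℕ) + (p + 1) = n + 1) (σ : Fin s → Fin q), Function.Injective σ →
      (fA (eqv s p n h) σ ℓ).det ≠ 0 ∧
      (0 < p → ∀ τ : Fin (q - s) → Fin q, Function.Injective τ → (∀ a b, σ a ≠ τ b) →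
        ∃ d, IndT d (fun i => rho (eqv s p n h) σ ℓ (τ i)) ∧
          GenPos (fun i => rho (eqv s p n h) σ ℓ (τ i)) ∧
          (2 * (p + d - 1).choose (p - 1) : ℕ) < ((q - s : ℕ) : ℝ) * (1 - 1 / m)) := by
    intro s
    have hs' := s.2
    have h0 : (s : ℕ) + ((n - s) + 1) = n + 1 := by omega
    have h1 : Generic (n := n) (q := q) (k := k) fun ℓ =>
        ∀ (σ : Fin s → Fin q), Function.Injective σ →
        ((fA (eqv s (n - s) n h0) σ ℓ).det ≠ 0 ∧
        (0 < n - s → ∀ τ : Fin (q - s) → Fin q, Function.Injective τ → (∀ a b, σ a ≠ τ b) →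
          ∃ d, IndT d (fun i => rho (eqv s (n - s) n h0) σ ℓ (τ i)) ∧
            GenPos (fun i => rho (eqv s (n - s) n h0) σ ℓ (τ i)) ∧
            (2 * ((n - s) + d - 1).choose ((n - s) - 1) : ℕ) <
              ((q - s : ℕ) : ℝ) * (1 - 1 / m))) := by
      refine Generic.all fun σ => Generic.imp fun hσ => Generic.and (generic_det _ hσ)
        (Generic.imp fun hp => Generic.all fun τ => Generic.imp fun hτ => Generic.imp fun hστ => ?_)
      have h3 : ((n - s) + K).choose (n - s) < q - s := by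
        have h4 := choose_flat (K := K) (p := n - s) (j := s) hK1
        have e : n - (s : ℕ) + s = n := by omega
        rw [e] at h4
        omega
      have h4 : (2 * ((n - s : ℕ) : ℝ)) ≤ K * (1 - 1 / m) := by
        refine le_trans ?_ hKr
        have : ((n - s : ℕ) : ℝ) ≤ n := by exact_mod_cast Nat.sub_le n s
        linarith
      obtain ⟨d, hd1, hd2⟩ := Pool.Agent.W601.VF.numbers2 (n - s) (by omega) (1 - 1 / m) hs K
        (q - s) h4 h3
      have h5 : Generic (n := n - s) (q := q - s) (k := k) fun ρ => IndT d ρ := by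
        obtain ⟨Ψ, h6, h7⟩ := Pool.Agent.W601.VF.generic (κ := k) hd1
        exact ⟨Ψ, h6, fun ρ hρ => h7 ρ hρ⟩
      have h6 := generic_rho (eqv s (n - s) n h0) hσ hτ hστ (h5.and generic_gp)
      refine h6.mono fun ℓ hℓ => ⟨d, hℓ.1, hℓ.2, ?_⟩
      push_cast at hd2 ⊢
      exact hd2
    refine h1.mono fun ℓ hℓ p h => ?_
    obtain rfl : p = n - s := by omega
    exact hℓ
  refine (Generic.all key).mono fun ℓ hℓ s p h σ hσ => ?_
  exact hℓ ⟨s, by omega⟩ p h σ hσ

end Pool.Agent.Y191
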