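import Pool.Agent.Y191.Quasi
import Pool.Agent.Y191.Gen

/-!
General arrangements satisfy the hypotheses of the main theorem.
-/

set_option autoImplicit false

open MvPolynomial

namespace Pool.Agent.Y191

theorem general_arrangements {n q K : ℕ} (hn : 1 ≤ n) {s : ℝ} (hs : 0 < s) (hK : 2 * n ≤ K * s)
    (hq : (n + K).choose n < q) :
    ∃ d : ℕ, (2 * (n + d - 1).choose (n - 1) : ℕ) < q * s ∧
      ∃ Ψ : MvPolynomial (Fin q × Fin (n + 1)) ℂ, Ψ ≠ 0 ∧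
        ∀ ℓ : Fin q → Fin (n + 1) → ℂ, eval (fun x => ℓ x.1 x.2) Ψ ≠ 0 →
          Independent d ℓ ∧ GeneralPosition ℓ := by
  obtain ⟨d, hd1, hd2⟩ := Pool.Agent.W601.VF.numbers2 n hn s hs K q hK hq
  obtain ⟨Ψ, h1, h2⟩ := Pool.Agent.W601.VF.generic (κ := ℂ) hd1
  obtain ⟨Φ, h3, h4⟩ := generic_gp (k := ℂ) (n := n) (q := q)
  refine ⟨d, by push_cast; push_cast at hd2; linarith, Ψ * Φ, mul_ne_zero h1 h3, fun ℓ hℓ => ?_⟩
  rw [map_mul] at hℓ
  refine ⟨h2 ℓ (left_ne_zero_of_mul hℓ), fun σ hσ => ?_⟩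
  have h5 := h4 ℓ (right_ne_zero_of_mul hℓ) σ hσ
  have h6 : LinearIndependent ℂ (Matrix.of fun j => ℓ (σ j)).row := by
    rw [Matrix.linearIndependent_rows_iff_isUnit, Matrix.isUnit_iff_isUnit_det]
    exact isUnit_iff_ne_zero.mpr h5
  exact h6

end Pool.Agent.Y191
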