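import Pool.Agent.Y191.CorCP

/-!
The Campana-Peternell inequality for pairs with a correspondence to a relative product of projective
spaces with a moving arrangement of hyperplanes.
-/

set_option autoImplicit false
set_option linter.overlappingInstances false
set_option linter.unusedSectionVars false

open FF MvPolynomial Pool.Agent.W602.GT Pool.Agent.W603.LV Pool.Agent.W619.PQ
open Pool.Agent.Y172 Pool.Agent.TH585.SV

namespace Pool.Agent.Y191

section

variable {K K' : Type} [Field K] [Field K'] [Algebra ℂ K] [Algebra ℂ K'] [Algebra K K']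
  [IsScalarTower ℂ K K'] [FiniteDimensional K K'] {c : ℕ} {r q : Fin c → ℕ} {N n : ℕ}
variable {A : ∀ j, Fin (q j) → Fin (r j + 1) → K'} {u : (Σ j, Fin (r j)) → K'}
variable {L : IntermediateField ℂ K'} {y : Fin (N + 1) → K} {Δ : Place ℂ K → ℚ}
  {w : ∀ j, Fin (q j) → ℚ}

/-- Bounds for the number of sections of `m (K_X + Δ) + A'`. -/
theorem cor_sec (hy : NormalModel y) (hn : Algebra.trdeg ℂ K = n) (hΔ : Effective y Δ)
    (hA : MovArr L A) (hne : ∀ j i, ∃ k, A j i k ≠ 0) (hu : IsTranscendenceBasis L u)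
    (hr : ∀ j, 1 ≤ r j) (hw0 : ∀ j i, 0 ≤ w j i) (hw1 : ∀ j i, w j i ≤ 1)
    (hC : Cor y n Δ L A u w) :
    ((∃ j, ∑ i, w j i < r j + 1) → ∀ A', Effective y A' → ∃ m0 : ℕ, ∀ m : ℕ, m0 ≤ m →
      ∀ ω : (Fin n → Derivation ℂ K K) → K, IsSection y n m (m • Δ + A') ω → ω = 0) ∧
    ∃ E : Fin n → Derivation ℂ K K, IsFrame E ∧
    ∀ a : ℕ, (∀ j, (r j + 1 : ℚ) ≤ ∑ i, w j i) →
      n = a + ∑ j, (if ∑ i, w j i = r j + 1 then r j else 0) →
      ∀ A', Effective y A' → ∃ C : ℕ, ∀ m : ℕ, 1 ≤ m → ∀ (r : ℕ) (f : Fin r → K),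
        LinearIndependent ℂ f →
        (∀ i, ∃ ω, IsSection y n m (m • Δ + A') ω ∧ ω E = f i) → r ≤ C * m ^ a := by
  classical
  have hess := hy.ess
  have hess' : Algebra.EssFiniteType ℂ K' := ess_up (K := K) hess
  have hn' : Algebra.trdeg ℂ K' = n := trdeg_up (K := K) hn
  obtain ⟨x, E, hx, hE⟩ := exists_crd hn
  have hfr := crd_frame' hx hE
  have hl := lmv_ne' hA hne hu
  obtain ⟨p, z, e, D, hF⟩ := exists_FrF hn' (acl_closed (L : Set K')) (basis_acl hu)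
  obtain ⟨Sφ, hSφ⟩ := phi_reg (A := A) (u := u) (w := w)
  constructor
  · rintro ⟨j0, hj0⟩ A' hA'
    have hmem : (⟨j0, ⟨0, hr j0⟩⟩ : Σ j, Fin (r j)) ∈ blk r j0 := by
      unfold blk
      rw [Finset.mem_filter]
      exact ⟨Finset.mem_univ _, rfl⟩
    exact cor_zero (A := A') hy hA' hn hx hE hfr hF (phi_ne (w := w) hl)
        (fun P g hg hPg => cor_fin hA hl hC hg hPg) hmem
        (fun P => (∑ j, q j) * ∑ s, (P.ord (u s)).natAbs)
        (τ := (((r j0 + 1 : ℚ) - ∑ i, w j0 i : ℚ) : ℝ)) (by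
          have : (0 : ℚ) < (r j0 + 1 : ℚ) - ∑ i, w j0 i := by linarith
          exact_mod_cast this)
        (fun P ρ hρ hP => cor_inf hA hl hw0 hC (hr j0) hρ hP)
  · refine ⟨E, hfr, fun a hws hna => ?_⟩
    let ι := {j : Fin c // ∑ i, w j i = r j + 1}
    let T : Finset (Σ j, Fin (r j)) := Finset.univ.filter fun s => ∑ i, w s.1 i = r s.1 + 1
    have hT : T.card = ∑ j, (if ∑ i, w j i = r j + 1 then r j else 0) := by
      rw [Finset.card_filter, Fintype.sum_sigma]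
      refine Finset.sum_congr rfl fun j _ => ?_
      change ∑ _k : Fin (r j), (if ∑ i, w j i = r j + 1 then 1 else 0) = _
      rw [Finset.sum_const, Finset.card_univ, Fintype.card_fin, smul_eq_mul, mul_ite, mul_one,
        mul_zero]
    rw [← hT] at hna
    intro A' hA'
    refine cor_up (ι := ι) (J := fun j => blk r j.1)
      (l := fun j => ⟨j.1, ⟨0, hr j.1⟩⟩) (T := T) hy hΔ hA' hn hx hE hfr hF
      (phi_ne (w := w) hl)
      (phi_lin hl hw1) hSφ (fun P g hg hPg => cor_fin hA hl hC hg hPg)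
      (fun j => by
        unfold blk
        rw [Finset.mem_filter]
        exact ⟨Finset.mem_univ _, rfl⟩)
      (fun P => (∑ j, q j) * ∑ s, (P.ord (u s)).natAbs) (fun j P ρ hρ hP => ?_)
      (fun s hs => ?_) hna
    · obtain ⟨α, hα, h7⟩ := cor_inf hA hl hw0 hC (hr j.1) hρ hP
      refine ⟨α, hα, ?_⟩
      intro m hm
      have h8 := h7 m hm
      have h9 : ((r j.1 + 1 : ℚ) - ∑ i, w j.1 i) = 0 := by
        rw [j.2]
        ring
      rw [h9, Rat.cast_zero, zero_mul, mul_zero, add_zero] at h8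
      exact h8
    · rw [Finset.mem_filter] at hs
      refine ⟨⟨s.1, hs.2⟩, ?_⟩
      unfold blk
      rw [Finset.mem_filter]
      exact ⟨Finset.mem_univ _, rfl⟩

/-- **The Campana-Peternell inequality.** -/
theorem cor_cp (hy : NormalModel y) (hn : Algebra.trdeg ℂ K = n) (hΔ : Effective y Δ)
    (hA : MovArr L A) (hne : ∀ j i, ∃ k, A j i k ≠ 0) (hu : IsTranscendenceBasis L u)
    (hr : ∀ j, 1 ≤ r j) (hw0 : ∀ j i, 0 ≤ w j i) (hw1 : ∀ j i, w j i ≤ 1)
    (hC : Cor y n Δ L A u w) {D : Place ℂ K → ℚ} (hD : Effective y D) (hps : PsefSub y n Δ D) :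
    (∀ j, (r j + 1 : ℚ) ≤ ∑ i, w j i) ∧ ∀ a h : ℕ,
      n = a + ∑ j, (if ∑ i, w j i = r j + 1 then r j else 0) → IitakaGe y D h → h ≤ a := by
  obtain ⟨h1, E, hE, h2⟩ := cor_sec hy hn hΔ hA hne hu hr hw0 hw1 hC
  obtain ⟨H, hH, m1, hm1, hω⟩ := hps
  have h3 : ∀ j, (r j + 1 : ℚ) ≤ ∑ i, w j i := by
    by_contra hcon
    push Not at hcon
    obtain ⟨m0, hm0⟩ := h1 hcon H hH
    obtain ⟨ω, hω0, hω⟩ := hω (m0 + 1) (by omega)
    refine hω0 (hm0 ((m0 + 1) * m1) ?_ ω ⟨hω.1, fun P hP E hE => ?_⟩)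
    · calc m0 ≤ (m0 + 1) * 1 := by omega
        _ ≤ (m0 + 1) * m1 := Nat.mul_le_mul_left _ hm1
    · rcases hω.2 P hP E hE with h4 | h4
      · exact Or.inl h4
      · right
        refine le_trans ?_ h4
        have h5 := hD.1 P hP
        rw [Pi.add_apply, Pi.add_apply, Pi.smul_apply, Pi.smul_apply, Pi.sub_apply, nsmul_eq_mul,
          nsmul_eq_mul]
        have h6 : (0 : ℚ) ≤ (((m0 + 1) * m1 : ℕ) : ℚ) := Nat.cast_nonneg _
        nlinarith [mul_nonneg h6 h5]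
  refine ⟨h3, fun a h hna hκ => ?_⟩
  obtain ⟨C, hC⟩ := h2 a h3 hna H hH
  exact cp_bound hE hC hm1 hω hκ

end

end Pool.Agent.Y191
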