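import Pool.Agent.Y191.LcLow
import Pool.Agent.Y191.CorSec

/-!
Abundance and the Campana-Peternell inequality for pairs with a correspondence to a relative product
of projective spaces with an arrangement of hyperplanes with any intersections.
-/

set_option autoImplicit false
set_option linter.overlappingInstances false
set_option linter.unusedSectionVars false

open FF MvPolynomial Pool.Agent.W602.GT Pool.Agent.W603.LV Pool.Agent.W619.PQ
open Pool.Agent.Y172 Pool.Agent.TH585.SV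

namespace Pool.Agent.Y191

section

variable {K K' : Type} [Field K] [Field K'] [Algebra ℂ K] [Algebra ℂ K'] [Algebra K K']
  [IsScalarTower ℂ K K'] [FiniteDimensional K K'] {c : ℕ} {r q : Fin c → ℕ} {N n : ℕ}
variable {A : ∀ j, Fin (q j) → Fin (r j + 1) → K'} {u : (Σ j, Fin (r j)) → K'}
variable {L : IntermediateField ℂ K'} {y : Fin (N + 1) → K} {Δ : Place ℂ K → ℚ}
  {w : ∀ j, Fin (q j) → ℚ}

/-- nonzero linear forms with coefficients algebraic over `L` -/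
def AlgArr (L : IntermediateField ℂ K') (A : ∀ j, Fin (q j) → Fin (r j + 1) → K') : Prop :=
  ∀ j i, (∃ k, A j i k ≠ 0) ∧ ∀ k, IsAlgebraic L (A j i k)

theorem exists_mords_lc (hA : AlgArr L A) (hl : ∀ j i, lmv A u j i ≠ 0) {P : Place ℂ K'}
    (hP : ∀ f ∈ acl ℂ (L : Set K'), f ≠ 0 → P.ord f = 0) :
    ∃ (c' : Fin c → ℤ) (ε : ∀ j, Fin (q j) → ℕ), ∀ j, MOrd P (A j) (hcd u j) (c' j) (ε j) := by
  have h1 : ∀ j, ∃ (c' : ℤ) (ε : Fin (q j) → ℕ), MOrd P (A j) (hcd u j) c' ε := by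
    intro j
    refine exists_mord (fun i k => ?_) ⟨0, by rw [hcd_zero]; exact one_ne_zero⟩ (hl j)
    exact triv_ge (fun f hf => hP f (subset_acl _ hf)) ((hA j i).2 k)
  choose c' ε h using h1
  exact ⟨c', ε, h⟩

/-- the places over the divisors of the affine chart -/
theorem lc_fin (hA : AlgArr L A) (hl : ∀ j i, lmv A u j i ≠ 0) (hC : Cor y n Δ L A u w)
    {P : Place ℂ K'} {g : MvPolynomial (Σ j, Fin (r j)) (acl ℂ (L : Set K'))} (hg : Irreducible g)
    (hP : AdicF P u g) :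
    ∃ α : ℚ, LogDisc y n Δ (bel K P) α ∧
      ∀ m : ℕ, 1 ≤ m → (m : ℝ) * ((P.ord (aeval u g) - ram K P * α)) ≤ P.ord (phi A u w m) := by
  obtain ⟨α, hα, h2⟩ := hC (fun _ => none) P g hg hP
  refine ⟨α, hα, ?_⟩
  intro m _
  obtain ⟨c', ε, h⟩ := exists_mords_lc hA hl (hP.triv hg.not_isUnit)
  have h3 := h2 c' ε h
  rw [chrt_none] at h3
  have hc : ∀ j, c' j = 0 := fun j => mord_zero (h j) fun k => by
    have h4 := (hP (X ⟨j, k⟩) (X_ne_zero _)).1
    rw [aeval_X] at h4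
    exact Or.inr h4
  have h5 : ∀ j i, P.ord (lmv A u j i) = ε j i := fun j i => by
    have h6 := (h j).2.2 i
    rw [hc j, zero_add] at h6
    exact h6
  rw [ord_phi hl]
  have h6 : (m : ℚ) * ((P.ord (aeval u g) - ram K P * α)) ≤
      ((∑ j, ∑ i, (⌈(m : ℚ) * w j i⌉₊ : ℤ) * P.ord (lmv A u j i) : ℤ) : ℚ) := by
    have h7 : (m : ℚ) * (∑ j, ∑ i, w j i * ε j i) ≤
        ∑ j, ∑ i, ((⌈(m : ℚ) * w j i⌉₊ : ℕ) : ℚ) * ε j i := by
      rw [Finset.mul_sum]
      refine Finset.sum_le_sum fun j _ => ?_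
      rw [Finset.mul_sum]
      refine Finset.sum_le_sum fun i _ => ?_
      rw [← mul_assoc]
      exact mul_le_mul_of_nonneg_right (Nat.le_ceil _) (Nat.cast_nonneg _)
    have h8 := mul_le_mul_of_nonneg_left h3 (Nat.cast_nonneg (α := ℚ) m)
    refine h8.trans (h7.trans (le_of_eq ?_))
    push_cast
    refine Finset.sum_congr rfl fun j _ => Finset.sum_congr rfl fun i _ => ?_
    rw [h5 j i]
    push_cast
    rfl
  exact_mod_cast h6

/-- the places over the hyperplane at infinity of a factor -/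
theorem lc_inf (hA : AlgArr L A) (hl : ∀ j i, lmv A u j i ≠ 0)
    (hw0 : ∀ j i, 0 ≤ w j i) (hC : Cor y n Δ L A u w) {j0 : Fin c} (hr : 1 ≤ r j0)
    {P : Place ℂ K'} {ρ : ℕ} (hρ : 1 ≤ ρ) (hP : DegF (acl ℂ (L : Set K')) P u (blk r j0) ρ) :
    ∃ α : ℚ, LogDisc y n Δ (bel K P) α ∧
      ∀ m : ℕ, 1 ≤ m → (m : ℝ) * (ρ - ram K P * α) +
        m * (((r j0 + 1 : ℚ) - ∑ i, w j0 i : ℚ) * ρ) ≤
        P.ord (phi A u w m) + m * (ρ * ((blk r j0).card + 1)) +
          ((∑ j, q j) * ∑ s, (P.ord (u s)).natAbs : ℕ) := by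
  have hmem : (⟨j0, ⟨0, hr⟩⟩ : Σ j, Fin (r j)) ∈ blk r j0 := by
    unfold blk
    rw [Finset.mem_filter]
    exact ⟨Finset.mem_univ _, rfl⟩
  obtain ⟨ha1, ha2⟩ := hP.adic hρ hmem
  have ha3 := chrt_some u j0 ⟨0, hr⟩
  obtain ⟨α, hα, h2⟩ := hC (Function.update (fun _ => none) j0 (some ⟨0, hr⟩)) P
    (X ⟨j0, ⟨0, hr⟩⟩) X_prime.irreducible (by rw [ha3]; exact ha2)
  refine ⟨α, hα, ?_⟩
  intro m _
  rw [ha3, aeval_X, ha1] at h2
  obtain ⟨c', ε, h⟩ := exists_mords_lc hA hl (ha2.triv X_prime.irreducible.not_isUnit)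
  have h3 := h2 c' ε h
  have hord : ∀ s : Σ j, Fin (r j), s ∉ blk r j0 → P.ord (u s) = 0 := by
    intro s hs
    have h4 := hP (X s) (X_ne_zero _)
    rw [aeval_X] at h4
    have h5 : bd (blk r j0) (X s : MvPolynomial (Σ j, Fin (r j)) (acl ℂ (L : Set K'))) = 0 := by
      rw [bd, bdeg, aeval_X, if_neg hs, Polynomial.natDegree_C]
    rw [h4, h5]
    simp
  have hc0 : c' j0 = -(ρ : ℤ) := mord_inf (h j0) hρ hr fun k => hP.ord_U (by
    unfold blk
    rw [Finset.mem_filter]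
    exact ⟨Finset.mem_univ _, rfl⟩)
  have hc : ∀ j, j ≠ j0 → c' j = 0 := fun j hj => mord_zero (h j) fun k => by
    right
    rw [hord]
    intro hs
    unfold blk at hs
    rw [Finset.mem_filter] at hs
    exact hj hs.2
  have h5 : ∀ j i, P.ord (lmv A u j i) = ε j i - (if j = j0 then (ρ : ℤ) else 0) := fun j i => by
    have h6 := (h j).2.2 i
    change P.ord (lmv A u j i) = _ at h6
    rw [h6]
    by_cases hj : j = j0
    · have h7 : c' j = -(ρ : ℤ) := by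
        rw [hj]
        exact hc0
      rw [if_pos hj, h7]
      ring
    · rw [if_neg hj, hc j hj]
      ring
  rw [ord_phi hl, card_blk]
  have hB : (q j0 : ℚ) * ρ ≤ (((∑ j, q j) * ∑ s, (P.ord (u s)).natAbs : ℕ) : ℚ) := by
    have h7 : q j0 ≤ ∑ j, q j := Finset.single_le_sum (fun _ _ => Nat.zero_le _)
      (Finset.mem_univ j0)
    have h8 : ρ ≤ ∑ s, (P.ord (u s)).natAbs := by
      refine le_trans ?_ (Finset.single_le_sum (f := fun s => (P.ord (u s)).natAbs)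
        (fun _ _ => Nat.zero_le _) (Finset.mem_univ (⟨j0, ⟨0, hr⟩⟩ : Σ j, Fin (r j))))
      have h9 := hP.ord_U hmem
      omega
    exact_mod_cast Nat.mul_le_mul h7 h8
  have h6 : (m : ℚ) * (ρ - ram K P * α) + m * (((r j0 + 1 : ℚ) - ∑ i, w j0 i) * ρ) ≤
      ((∑ j, ∑ i, (⌈(m : ℚ) * w j i⌉₊ : ℤ) * P.ord (lmv A u j i) : ℤ) : ℚ) +
        m * (ρ * (r j0 + 1)) + (((∑ j, q j) * ∑ s, (P.ord (u s)).natAbs : ℕ) : ℚ) := by
    have h7 : (m : ℚ) * (∑ j, ∑ i, w j i * ε j i) ≤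
        ∑ j, ∑ i, ((⌈(m : ℚ) * w j i⌉₊ : ℕ) : ℚ) * ε j i := by
      rw [Finset.mul_sum]
      refine Finset.sum_le_sum fun j _ => ?_
      rw [Finset.mul_sum]
      refine Finset.sum_le_sum fun i _ => ?_
      rw [← mul_assoc]
      exact mul_le_mul_of_nonneg_right (Nat.le_ceil _) (Nat.cast_nonneg _)
    have h8 : ((∑ j, ∑ i, (⌈(m : ℚ) * w j i⌉₊ : ℤ) * P.ord (lmv A u j i) : ℤ) : ℚ) =
        ∑ j, ∑ i, ((⌈(m : ℚ) * w j i⌉₊ : ℕ) : ℚ) * ε j i -
          (∑ i, ((⌈(m : ℚ) * w j0 i⌉₊ : ℕ) : ℚ)) * ρ := by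
      push_cast
      have h9 : ∀ j, ∑ i, ((⌈(m : ℚ) * w j i⌉₊ : ℕ) : ℚ) * (P.ord (lmv A u j i) : ℚ) =
          ∑ i, ((⌈(m : ℚ) * w j i⌉₊ : ℕ) : ℚ) * ε j i -
            (if j = j0 then (∑ i, ((⌈(m : ℚ) * w j i⌉₊ : ℕ) : ℚ)) * ρ else 0) := by
        intro j
        have h10 : ∀ i, ((⌈(m : ℚ) * w j i⌉₊ : ℕ) : ℚ) * (P.ord (lmv A u j i) : ℚ) =
            ((⌈(m : ℚ) * w j i⌉₊ : ℕ) : ℚ) * ε j i -
              (if j = j0 then ((⌈(m : ℚ) * w j i⌉₊ : ℕ) : ℚ) * ρ else 0) := by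
          intro i
          rw [h5 j i]
          split_ifs
          · push_cast
            ring
          · push_cast
            ring
        rw [Finset.sum_congr rfl fun i _ => h10 i, Finset.sum_sub_distrib]
        split_ifs
        · rw [Finset.sum_mul]
        · rw [Finset.sum_const_zero]
      rw [Finset.sum_congr rfl fun j _ => h9 j, Finset.sum_sub_distrib, Finset.sum_ite_eq',
        if_pos (Finset.mem_univ _)]
    have h9 : (∑ i, ((⌈(m : ℚ) * w j0 i⌉₊ : ℕ) : ℚ)) ≤ m * ∑ i, w j0 i + q j0 := by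
      have h10 : ∀ i, ((⌈(m : ℚ) * w j0 i⌉₊ : ℕ) : ℚ) ≤ m * w j0 i + 1 := fun i =>
        (Nat.ceil_lt_add_one (mul_nonneg (Nat.cast_nonneg _) (hw0 j0 i))).le
      refine (Finset.sum_le_sum fun i _ => h10 i).trans (le_of_eq ?_)
      rw [Finset.sum_add_distrib, Finset.mul_sum, Finset.sum_const, Finset.card_univ,
        Fintype.card_fin, nsmul_eq_mul, mul_one]
    have h10 := mul_le_mul_of_nonneg_right h9 (Nat.cast_nonneg (α := ℚ) ρ)
    have h11 := mul_le_mul_of_nonneg_left h3 (Nat.cast_nonneg (α := ℚ) m)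
    rw [h8]
    push_cast at h11 ⊢
    push_cast at hB
    nlinarith
  have h7 := (Rat.cast_le (K := ℝ)).2 h6
  push_cast at h7 ⊢
  exact h7


/-- **Abundance**, abstract form. -/
theorem lc_ab (hy : NormalModel y) (hn : Algebra.trdeg ℂ K = n) (hΔ : Effective y Δ)
    (hA : AlgArr L A) (hu : IsTranscendenceBasis L u)
    (hr : ∀ j, 1 ≤ r j) (hw0 : ∀ j i, 0 ≤ w j i) (hw1 : ∀ j i, w j i ≤ 1)
    (hC : Cor y n Δ L A u w) :
    ((∃ j, ∑ i, w j i < r j + 1) → kodairaDim y n Δ = ⊥ ∧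
      ∀ A, Effective y A → numericalDim y n Δ A = ⊥) ∧
    ∀ a : ℕ, (∀ j, (r j + 1 : ℚ) ≤ ∑ i, w j i) →
      n = a + ∑ j, (if ∑ i, w j i = r j + 1 then r j else 0) →
      KodairaGe n {P | IsPrimeDivisor y P} (fun P => (Δ P : ℝ)) a →
      kodairaDim y n Δ = (a : WithBot ℕ) ∧
        ∀ A, Effective y A → Integral y A → numericalDim y n Δ A = (a : EReal) := by
  classical
  have hess := hy.ess
  have hess' : Algebra.EssFiniteType ℂ K' := ess_up (K := K) hess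
  have hn' : Algebra.trdeg ℂ K' = n := trdeg_up (K := K) hn
  obtain ⟨x, E, hx, hE⟩ := exists_crd hn
  have hfr := crd_frame' hx hE
  have hl := lmv_lc hA hu
  have h00 : Effective y (0 : Place ℂ K → ℚ) := ⟨fun _ _ => le_rfl, by simp⟩
  obtain ⟨p, z, e, D, hF⟩ := exists_FrF hn' (acl_closed (L : Set K')) (basis_acl hu)
  obtain ⟨Sφ, hSφ⟩ := phi_reg (A := A) (u := u) (w := w)
  constructor
  · rintro ⟨j0, hj0⟩
    have hmem : (⟨j0, ⟨0, hr j0⟩⟩ : Σ j, Fin (r j)) ∈ blk r j0 := by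
      unfold blk
      rw [Finset.mem_filter]
      exact ⟨Finset.mem_univ _, rfl⟩
    have hz : ∀ A', Effective y A' → kodairaDim y n Δ = ⊥ ∧ numericalDim y n Δ A' = ⊥ := by
      intro A' hA'
      refine not_psef hA' fun h => ?_
      obtain ⟨m0, hm0⟩ := cor_zero (A := A') hy hA' hn hx hE hfr hF (phi_ne (w := w) hl)
        (fun P g hg hPg => lc_fin hA hl hC hg hPg) hmem
        (fun P => (∑ j, q j) * ∑ s, (P.ord (u s)).natAbs)
        (τ := (((r j0 + 1 : ℚ) - ∑ i, w j0 i : ℚ) : ℝ)) (by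
          have : (0 : ℚ) < (r j0 + 1 : ℚ) - ∑ i, w j0 i := by linarith
          exact_mod_cast this)
        (fun P ρ hρ hP => lc_inf hA hl hw0 hC (hr j0) hρ hP)
      obtain ⟨m', hm', s', hs', hs'0⟩ := h m0
      exact hs'0 (hm0 m' hm' s' hs')
    exact ⟨(hz 0 h00).1, fun A' hA' => (hz A' hA').2⟩
  · intro a hws hna hK
    obtain ⟨m0, hm0, ω, hω, E', h4, h5⟩ := hK
    let ι := {j : Fin c // ∑ i, w j i = r j + 1}
    let T : Finset (Σ j, Fin (r j)) := Finset.univ.filter fun s => ∑ i, w s.1 i = r s.1 + 1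
    have hT : T.card = ∑ j, (if ∑ i, w j i = r j + 1 then r j else 0) := by
      rw [Finset.card_filter, Fintype.sum_sigma]
      refine Finset.sum_congr rfl fun j _ => ?_
      change ∑ _k : Fin (r j), (if ∑ i, w j i = r j + 1 then 1 else 0) = _
      rw [Finset.sum_const, Finset.card_univ, Fintype.card_fin, smul_eq_mul, mul_ite, mul_one,
        mul_zero]
    rw [← hT] at hna
    have hup : ∀ A, Effective y A → ∃ C : ℕ, ∀ m : ℕ, 1 ≤ m → ∀ (r : ℕ) (f : Fin r → K),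
        LinearIndependent ℂ f →
        (∀ i, ∃ ω, Pool.Agent.Y172.IsSection y n m (m • Δ + A) ω ∧
          ω E = f i) →
        r ≤ C * m ^ a := by
      intro A' hA'
      refine cor_up (ι := ι) (J := fun j => blk r j.1)
        (l := fun j => ⟨j.1, ⟨0, hr j.1⟩⟩) (T := T) hy hΔ hA' hn hx hE hfr hF
        (phi_ne (w := w) hl)
        (phi_lin hl hw1) hSφ (fun P g hg hPg => lc_fin hA hl hC hg hPg)
        (fun j => by
          unfold blk
          rw [Finset.mem_filter]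
          exact ⟨Finset.mem_univ _, rfl⟩)
        (fun P => (∑ j, q j) * ∑ s, (P.ord (u s)).natAbs) (fun j P ρ hρ hP => ?_)
        (fun s hs => ?_) hna
      · obtain ⟨α, hα, h7⟩ := lc_inf hA hl hw0 hC (hr j.1) hρ hP
        refine ⟨α, hα, ?_⟩
        intro m hm
        have h8 := h7 m hm
        have h9 : ((r j.1 + 1 : ℚ) - ∑ i, w j.1 i) = 0 := by
          rw [j.2]
          ring
        rw [h9, Rat.cast_zero, zero_mul, mul_zero, add_zero] at h8
        exact h8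
      · rw [Finset.mem_filter] at hs
        refine ⟨⟨s.1, hs.2⟩, ?_⟩
        unfold blk
        rw [Finset.mem_filter]
        exact ⟨Finset.mem_univ _, rfl⟩
    refine dims hΔ hfr hup hm0 (ω := ω) (fun j => ⟨(hω j).1, fun P hP G hG => ?_⟩) h4 h5
    rcases (hω j).2 P hP (hP.divisorial hy hn) G hG with h6 | h6
    · exact Or.inl h6
    · right
      rw [Pi.smul_apply, nsmul_eq_mul]
      have h7 : ((-(m0 * Δ P) : ℚ) : ℝ) ≤ (((P.ord (ω j G) : ℤ) : ℚ) : ℝ) := by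
        push_cast
        exact h6
      exact_mod_cast h7

/-- Bounds for the number of sections of `m (K_X + Δ) + A'`. -/
theorem lc_sec (hy : NormalModel y) (hn : Algebra.trdeg ℂ K = n) (hΔ : Effective y Δ)
    (hA : AlgArr L A) (hu : IsTranscendenceBasis L u)
    (hr : ∀ j, 1 ≤ r j) (hw0 : ∀ j i, 0 ≤ w j i) (hw1 : ∀ j i, w j i ≤ 1)
    (hC : Cor y n Δ L A u w) :
    ((∃ j, ∑ i, w j i < r j + 1) → ∀ A', Effective y A' → ∃ m0 : ℕ, ∀ m : ℕ, m0 ≤ m →
      ∀ ω : (Fin n → Derivation ℂ K K) → K, IsSection y n m (m • Δ + A') ω → ω = 0) ∧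
    ∃ E : Fin n → Derivation ℂ K K, IsFrame E ∧
    ∀ a : ℕ, (∀ j, (r j + 1 : ℚ) ≤ ∑ i, w j i) →
      n = a + ∑ j, (if ∑ i, w j i = r j + 1 then r j else 0) →
      ∀ A', Effective y A' → ∃ C : ℕ, ∀ m : ℕ, 1 ≤ m → ∀ (r : ℕ) (f : Fin r → K),
        LinearIndependent ℂ f →
        (∀ i, ∃ ω, IsSection y n m (m • Δ + A') ω ∧ ω E = f i) → r ≤ C * m ^ a := by
  classical
  have hess := hy.ess
  have hess' : Algebra.EssFiniteType ℂ K' := ess_up (K := K) hess
  have hn' : Algebra.trdeg ℂ K' = n := trdeg_up (K := K) hn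
  obtain ⟨x, E, hx, hE⟩ := exists_crd hn
  have hfr := crd_frame' hx hE
  have hl := lmv_lc hA hu
  obtain ⟨p, z, e, D, hF⟩ := exists_FrF hn' (acl_closed (L : Set K')) (basis_acl hu)
  obtain ⟨Sφ, hSφ⟩ := phi_reg (A := A) (u := u) (w := w)
  constructor
  · rintro ⟨j0, hj0⟩ A' hA'
    have hmem : (⟨j0, ⟨0, hr j0⟩⟩ : Σ j, Fin (r j)) ∈ blk r j0 := by
      unfold blk
      rw [Finset.mem_filter]
      exact ⟨Finset.mem_univ _, rfl⟩
    exact cor_zero (A := A') hy hA' hn hx hE hfr hF (phi_ne (w := w) hl)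
        (fun P g hg hPg => lc_fin hA hl hC hg hPg) hmem
        (fun P => (∑ j, q j) * ∑ s, (P.ord (u s)).natAbs)
        (τ := (((r j0 + 1 : ℚ) - ∑ i, w j0 i : ℚ) : ℝ)) (by
          have : (0 : ℚ) < (r j0 + 1 : ℚ) - ∑ i, w j0 i := by linarith
          exact_mod_cast this)
        (fun P ρ hρ hP => lc_inf hA hl hw0 hC (hr j0) hρ hP)
  · refine ⟨E, hfr, fun a hws hna => ?_⟩
    let ι := {j : Fin c // ∑ i, w j i = r j + 1}
    let T : Finset (Σ j, Fin (r j)) := Finset.univ.filter fun s => ∑ i, w s.1 i = r s.1 + 1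
    have hT : T.card = ∑ j, (if ∑ i, w j i = r j + 1 then r j else 0) := by
      rw [Finset.card_filter, Fintype.sum_sigma]
      refine Finset.sum_congr rfl fun j _ => ?_
      change ∑ _k : Fin (r j), (if ∑ i, w j i = r j + 1 then 1 else 0) = _
      rw [Finset.sum_const, Finset.card_univ, Fintype.card_fin, smul_eq_mul, mul_ite, mul_one,
        mul_zero]
    rw [← hT] at hna
    intro A' hA'
    refine cor_up (ι := ι) (J := fun j => blk r j.1)
      (l := fun j => ⟨j.1, ⟨0, hr j.1⟩⟩) (T := T) hy hΔ hA' hn hx hE hfr hF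
      (phi_ne (w := w) hl)
      (phi_lin hl hw1) hSφ (fun P g hg hPg => lc_fin hA hl hC hg hPg)
      (fun j => by
        unfold blk
        rw [Finset.mem_filter]
        exact ⟨Finset.mem_univ _, rfl⟩)
      (fun P => (∑ j, q j) * ∑ s, (P.ord (u s)).natAbs) (fun j P ρ hρ hP => ?_)
      (fun s hs => ?_) hna
    · obtain ⟨α, hα, h7⟩ := lc_inf hA hl hw0 hC (hr j.1) hρ hP
      refine ⟨α, hα, ?_⟩
      intro m hm
      have h8 := h7 m hm
      have h9 : ((r j.1 + 1 : ℚ) - ∑ i, w j.1 i) = 0 := by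
        rw [j.2]
        ring
      rw [h9, Rat.cast_zero, zero_mul, mul_zero, add_zero] at h8
      exact h8
    · rw [Finset.mem_filter] at hs
      refine ⟨⟨s.1, hs.2⟩, ?_⟩
      unfold blk
      rw [Finset.mem_filter]
      exact ⟨Finset.mem_univ _, rfl⟩

/-- **The Campana-Peternell inequality.** -/
theorem lc_cp (hy : NormalModel y) (hn : Algebra.trdeg ℂ K = n) (hΔ : Effective y Δ)
    (hA : AlgArr L A) (hu : IsTranscendenceBasis L u)
    (hr : ∀ j, 1 ≤ r j) (hw0 : ∀ j i, 0 ≤ w j i) (hw1 : ∀ j i, w j i ≤ 1)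
    (hC : Cor y n Δ L A u w) {D : Place ℂ K → ℚ} (hD : Effective y D) (hps : PsefSub y n Δ D) :
    (∀ j, (r j + 1 : ℚ) ≤ ∑ i, w j i) ∧ ∀ a h : ℕ,
      n = a + ∑ j, (if ∑ i, w j i = r j + 1 then r j else 0) → IitakaGe y D h → h ≤ a := by
  obtain ⟨h1, E, hE, h2⟩ := lc_sec hy hn hΔ hA hu hr hw0 hw1 hC
  obtain ⟨H, hH, m1, hm1, hω⟩ := hps
  have h3 : ∀ j, (r j + 1 : ℚ) ≤ ∑ i, w j i := by
    by_contra hcon
    push Not at hcon
    obtain ⟨m0, hm0⟩ := h1 hcon H hH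
    obtain ⟨ω, hω0, hω⟩ := hω (m0 + 1) (by omega)
    refine hω0 (hm0 ((m0 + 1) * m1) ?_ ω ⟨hω.1, fun P hP E hE => ?_⟩)
    · calc m0 ≤ (m0 + 1) * 1 := by omega
        _ ≤ (m0 + 1) * m1 := Nat.mul_le_mul_left _ hm1
    · rcases hω.2 P hP E hE with h4 | h4
      · exact Or.inl h4
      · right
        refine le_trans ?_ h4
        have h5 := hD.1 P hP
        rw [Pi.add_apply, Pi.add_apply, Pi.smul_apply, Pi.smul_apply, Pi.sub_apply, nsmul_eq_mul,
          nsmul_eq_mul]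
        have h6 : (0 : ℚ) ≤ (((m0 + 1) * m1 : ℕ) : ℚ) := Nat.cast_nonneg _
        nlinarith [mul_nonneg h6 h5]
  refine ⟨h3, fun a h hna hκ => ?_⟩
  obtain ⟨C, hC⟩ := h2 a h3 hna H hH
  exact cp_bound hE hC hm1 hω hκ

end

end Pool.Agent.Y191
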