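import Pool.Agent.TH152.HY.QMain

/-!
Holomorphic maps from the complement of a set of codimension at least two in `ℂ ^ g` to a
quasi-projective variety, for instance the rational maps from semi-abelian varieties which are
defined outside a closed subset of codimension at least two, composed with the universal covering.
-/

set_option autoImplicit false

open MvPolynomial Metric Filter Topology Set

namespace Pool.Agent.Y191

open Pool.Agent.W602.Cov Pool.Agent.W602.Cov.R Pool.Agent.TH152.HY

variable {N n : ℕ}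

/-- A nonconstant meromorphic map from `ℂ ^ g` to the compactification of `X - D`, given by entire
functions `u`, `v` of `g` variables as homogeneous coordinates, which is a holomorphic map to
`X - D` outside a set `S` of (complex) codimension at least two: `S` is empty or its Hausdorff
dimension is less than `2 g - 2`. -/
structure QMero (X D : BiSet N n) (g : ℕ) (S : Set (Fin g → ℂ)) (u : (Fin g → ℂ) → Fin (N + 1) → ℂ)
    (v : (Fin g → ℂ) → Fin (n + 1) → ℂ) : Prop where
  diffu : Differentiable ℂ u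
  diffv : Differentiable ℂ v
  codim : S = ∅ ∨ dimH S < ((2 * (g - 1) : ℕ) : ENNReal)
  mem : ∀ z ∉ S, QMem X D (u z) (v z)
  nonconst : ∃ z z', z ∉ S ∧ z' ∉ S ∧ ((∀ t : ℂ, u z' ≠ t • u z) ∨ ∀ t : ℂ, v z' ≠ t • v z)

/-- The images of the nonconstant meromorphic maps from the spaces `ℂ ^ g` which are holomorphic
maps to `X - D` outside a set of codimension at least two lie in `G = 0`. -/
def SemiAbelianOff (X D : BiSet N n) (G : BiPoly N n) : Prop :=
  ∀ (g : ℕ) (S : Set (Fin g → ℂ)) (u : (Fin g → ℂ) → Fin (N + 1) → ℂ)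
    (v : (Fin g → ℂ) → Fin (n + 1) → ℂ), QMero X D g S u v →
    ∀ z, eval (Sum.elim (u z) (v z)) G = 0

/-- the direction of the line through `z0` and `s` -/
noncomputable def dirn {m : ℕ} (z0 s : Fin (m + 1) → ℂ) : Fin m → ℂ :=
  fun j => (s j.succ - z0 j.succ) / (s 0 - z0 0)

theorem dirn_dim {m : ℕ} (z0 : Fin (m + 1) → ℂ) (S : Set (Fin (m + 1) → ℂ)) :
    dimH (dirn z0 '' (S ∩ {s | s 0 ≠ z0 0})) ≤ dimH S := by
  refine (dimH_image_le_of_locally_lipschitzOn ?_).trans (dimH_mono inter_subset_left)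
  rintro s ⟨_, hs⟩
  have h1 : ContDiffAt ℂ 1 (dirn z0) s := by
    rw [contDiffAt_pi]
    intro j
    unfold dirn
    refine ContDiffAt.fun_div ?_ ?_ (sub_ne_zero.mpr hs)
    · fun_prop
    · fun_prop
  obtain ⟨C, t, ht, hC⟩ := h1.exists_lipschitzOnWith
  exact ⟨C, t, mem_nhdsWithin_of_mem_nhds ht, hC⟩

/-- the line through `z0` with direction `(1, w)` -/
noncomputable def lineTo {m : ℕ} (z0 : Fin (m + 1) → ℂ) (w : Fin m → ℂ) (t : ℂ) : Fin (m + 1) → ℂ :=
  fun j => z0 j + t * (Fin.cons (1 : ℂ) w : Fin (m + 1) → ℂ) j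

theorem lineTo_diff {m : ℕ} (z0 : Fin (m + 1) → ℂ) (w : Fin m → ℂ) :
    Differentiable ℂ (lineTo z0 w) := by
  rw [differentiable_pi]
  intro j
  unfold lineTo
  fun_prop

theorem lineTo_zero {m : ℕ} (z0 : Fin (m + 1) → ℂ) (w : Fin m → ℂ) : lineTo z0 w 0 = z0 := by
  funext j
  simp [lineTo]

theorem dirn_lineTo {m : ℕ} (z0 : Fin (m + 1) → ℂ) (w : Fin m → ℂ) {t : ℂ} (ht : t ≠ 0) :
    dirn z0 (lineTo z0 w t) = w := by
  funext j
  simp only [dirn, lineTo, Fin.cons_succ, Fin.cons_zero, add_sub_cancel_left, mul_one]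
  rw [mul_div_cancel_left₀ _ ht]

theorem lineTo_dirn {m : ℕ} (z0 s : Fin (m + 1) → ℂ) (h : s 0 ≠ z0 0) :
    lineTo z0 (dirn z0 s) (s 0 - z0 0) = s := by
  have h1 := sub_ne_zero.mpr h
  funext j
  refine Fin.cases ?_ (fun i => ?_) j
  · simp [lineTo]
  · simp only [lineTo, Fin.cons_succ, dirn]
    rw [mul_div_cancel₀ _ h1]
    ring

theorem finrank_pi_complex (m : ℕ) : Module.finrank ℝ (Fin m → ℂ) = 2 * m := by
  rw [Module.finrank_pi_fintype]
  simp [Complex.finrank_real_complex, mul_comm]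

/-- the lines through a point outside `S` which do not meet `S` are dense -/
theorem dense_dirs {m : ℕ} {S : Set (Fin (m + 1) → ℂ)} (z0 : Fin (m + 1) → ℂ)
    (hS : S = ∅ ∨ dimH S < ((2 * (m + 1 - 1) : ℕ) : ENNReal)) :
    Dense (dirn z0 '' (S ∩ {s | s 0 ≠ z0 0}))ᶜ := by
  rcases hS with hS | hS
  · rw [hS, empty_inter, image_empty, compl_empty]
    exact dense_univ
  · refine dense_compl_of_dimH_lt_finrank ((dirn_dim z0 S).trans_lt ?_)
    rw [finrank_pi_complex]
    simpa using hS

theorem dense_compl {m : ℕ} {S : Set (Fin (m + 1) → ℂ)}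
    (hS : S = ∅ ∨ dimH S < ((2 * (m + 1 - 1) : ℕ) : ENNReal)) : Dense Sᶜ := by
  rcases hS with hS | hS
  · rw [hS, compl_empty]
    exact dense_univ
  · refine dense_compl_of_dimH_lt_finrank (hS.trans_le ?_)
    rw [finrank_pi_complex]
    exact_mod_cast (by omega : 2 * (m + 1 - 1) ≤ 2 * (m + 1))

theorem dense_ne {m : ℕ} (c : ℂ) : Dense {s : Fin (m + 1) → ℂ | s 0 ≠ c} := by
  have h1 : Dense ({c}ᶜ : Set ℂ) := dense_compl_singleton c
  have h2 : IsOpenMap fun s : Fin (m + 1) → ℂ => s 0 := isOpenMap_eval 0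
  have h3 := h1.preimage h2
  exact h3

theorem exists_smul_of_rel {k : ℕ} {a b : Fin k → ℂ} (ha : a ≠ 0)
    (h : ∀ i j, b i * a j = b j * a i) : ∃ t : ℂ, b = t • a := by
  obtain ⟨j, hj⟩ := Function.ne_iff.mp ha
  refine ⟨b j / a j, funext fun i => ?_⟩
  rw [Pi.smul_apply, smul_eq_mul]
  have hj' : a j ≠ 0 := hj
  field_simp
  have := h i j
  linear_combination this

/-- Brody hyperbolicity modulo `G = 0` implies the statement on maps from `ℂ ^ g`. -/
theorem semi_of_brody {X D : BiSet N n} {G : BiPoly N n} (h : BrodyOff X D G) :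
    SemiAbelianOff X D G := by
  rintro g S u v huv z1
  rcases g with _ | m
  · obtain ⟨z, z', hz, _, h1⟩ := huv.nonconst
    have hzz : z' = z := Subsingleton.elim _ _
    rcases h1 with h1 | h1
    · exact absurd (by rw [hzz, one_smul]) (h1 1)
    · exact absurd (by rw [hzz, one_smul]) (h1 1)
  by_contra hz1
  have hcu : Continuous u := huv.diffu.continuous
  have hcv : Continuous v := huv.diffv.continuous
  have hcG : Continuous fun z => eval (Sum.elim (u z) (v z)) G := by
    have h1 : Continuous fun z => (Sum.elim (u z) (v z) : Fin (N + 1) ⊕ Fin (n + 1) → ℂ) := by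
      rw [continuous_pi_iff]
      rintro (j | j)
      · exact (continuous_apply j).comp hcu
      · exact (continuous_apply j).comp hcv
    exact (MvPolynomial.continuous_eval G).comp h1
  obtain ⟨z0, hz0G, hz0S⟩ : ∃ z0, eval (Sum.elim (u z0) (v z0)) G ≠ 0 ∧ z0 ∉ S := by
    have h1 : IsOpen {z | eval (Sum.elim (u z) (v z)) G ≠ 0} := isOpen_ne_fun hcG continuous_const
    obtain ⟨z0, h2, h3⟩ := (dense_compl huv.codim).inter_open_nonempty _ h1 ⟨z1, hz1⟩
    exact ⟨z0, h2, h3⟩
  obtain ⟨hu0, hv0, _⟩ := (huv.mem z0 hz0S).1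
  -- the maps are constant on the lines through `z0` which do not meet `S`
  have hline : ∀ w ∈ (dirn z0 '' (S ∩ {s | s 0 ≠ z0 0}))ᶜ, ∀ t : ℂ,
      (∀ i j, u (lineTo z0 w t) i * u z0 j = u (lineTo z0 w t) j * u z0 i) ∧
      ∀ i j, v (lineTo z0 w t) i * v z0 j = v (lineTo z0 w t) j * v z0 i := by
    intro w hw t
    by_contra hcon
    have hnot : ∀ t, lineTo z0 w t ∉ S := by
      intro t ht
      by_cases ht0 : t = 0
      · rw [ht0, lineTo_zero] at ht
        exact hz0S ht
      · refine hw ⟨lineTo z0 w t, ⟨ht, ?_⟩, dirn_lineTo z0 w ht0⟩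
        show lineTo z0 w t 0 ≠ z0 0
        simp [lineTo, ht0]
    have hent : QEntire X D (fun t => u (lineTo z0 w t)) (fun t => v (lineTo z0 w t)) := by
      refine ⟨huv.diffu.comp (lineTo_diff z0 w), huv.diffv.comp (lineTo_diff z0 w),
        fun t => huv.mem _ (hnot t), 0, t, ?_⟩
      by_contra hc
      push Not at hc
      obtain ⟨⟨c, hc1⟩, c', hc2⟩ := hc
      simp only [lineTo_zero] at hc1 hc2
      apply hcon
      constructor
      · intro i j
        rw [hc1, Pi.smul_apply, Pi.smul_apply, smul_eq_mul, smul_eq_mul]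
        ring
      · intro i j
        rw [hc2, Pi.smul_apply, Pi.smul_apply, smul_eq_mul, smul_eq_mul]
        ring
    have h1 := h _ _ hent 0
    simp only [lineTo_zero] at h1
    exact hz0G h1
  -- hence everywhere
  have hcl : ∀ w t, (∀ i j, u (lineTo z0 w t) i * u z0 j = u (lineTo z0 w t) j * u z0 i) ∧
      ∀ i j, v (lineTo z0 w t) i * v z0 j = v (lineTo z0 w t) j * v z0 i := by
    intro w t
    have hcw : Continuous fun w : Fin m → ℂ => lineTo z0 w t := by
      rw [continuous_pi_iff]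
      intro j
      unfold lineTo
      refine Fin.cases ?_ (fun i => ?_) j
      · simp only [Fin.cons_zero]
        fun_prop
      · simp only [Fin.cons_succ]
        fun_prop
    have hcuj : ∀ i, Continuous fun w : Fin m → ℂ => u (lineTo z0 w t) i := fun i =>
      (continuous_apply i).comp (hcu.comp hcw)
    have hcvj : ∀ i, Continuous fun w : Fin m → ℂ => v (lineTo z0 w t) i := fun i =>
      (continuous_apply i).comp (hcv.comp hcw)
    have hD := dense_dirs z0 huv.codim
    constructor
    · intro i j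
      have h1 : IsClosed {w : Fin m → ℂ | u (lineTo z0 w t) i * u z0 j = u (lineTo z0 w t) j * u z0 i} :=
        isClosed_eq ((hcuj i).mul continuous_const) ((hcuj j).mul continuous_const)
      have h2 := h1.closure_subset_iff.mpr (fun w hw => (hline w hw t).1 i j)
      exact h2 (hD w)
    · intro i j
      have h1 : IsClosed {w : Fin m → ℂ | v (lineTo z0 w t) i * v z0 j = v (lineTo z0 w t) j * v z0 i} :=
        isClosed_eq ((hcvj i).mul continuous_const) ((hcvj j).mul continuous_const)
      have h2 := h1.closure_subset_iff.mpr (fun w hw => (hline w hw t).2 i j)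
      exact h2 (hD w)
  have hall : ∀ z, (∀ i j, u z i * u z0 j = u z j * u z0 i) ∧
      ∀ i j, v z i * v z0 j = v z j * v z0 i := by
    intro z
    have hne : ∀ s : Fin (m + 1) → ℂ, s 0 ≠ z0 0 → (∀ i j, u s i * u z0 j = u s j * u z0 i) ∧
        ∀ i j, v s i * v z0 j = v s j * v z0 i := by
      intro s hs
      have h1 := hcl (dirn z0 s) (s 0 - z0 0)
      rw [lineTo_dirn z0 s hs] at h1
      exact h1
    have hcuj : ∀ i, Continuous fun z => u z i := fun i => (continuous_apply i).comp hcu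
    have hcvj : ∀ i, Continuous fun z => v z i := fun i => (continuous_apply i).comp hcv
    constructor
    · intro i j
      have h1 : IsClosed {z | u z i * u z0 j = u z j * u z0 i} :=
        isClosed_eq ((hcuj i).mul continuous_const) ((hcuj j).mul continuous_const)
      have h2 := h1.closure_subset_iff.mpr (fun s (hs : s ∈ {s : Fin (m + 1) → ℂ | s 0 ≠ z0 0}) => (hne s hs).1 i j)
      exact h2 (dense_ne (z0 0) z)
    · intro i j
      have h1 : IsClosed {z | v z i * v z0 j = v z j * v z0 i} :=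
        isClosed_eq ((hcvj i).mul continuous_const) ((hcvj j).mul continuous_const)
      have h2 := h1.closure_subset_iff.mpr (fun s (hs : s ∈ {s : Fin (m + 1) → ℂ | s 0 ≠ z0 0}) => (hne s hs).2 i j)
      exact h2 (dense_ne (z0 0) z)
  obtain ⟨z, z', hz, hz', h1⟩ := huv.nonconst
  have key : ∀ {k : ℕ} {x y x0 : Fin k → ℂ}, x ≠ 0 → x0 ≠ 0 → (∀ i j, x i * x0 j = x j * x0 i) →
      (∀ i j, y i * x0 j = y j * x0 i) → ∃ t : ℂ, y = t • x := by
    intro k x y x0 hx hx0 hx1 hy1
    obtain ⟨s, hs⟩ := exists_smul_of_rel hx0 hx1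
    obtain ⟨s', hs'⟩ := exists_smul_of_rel hx0 hy1
    have hs0 : s ≠ 0 := by
      rintro rfl
      exact hx (by rw [hs, zero_smul])
    exact ⟨s' / s, by rw [hs', hs, smul_smul, div_mul_cancel₀ _ hs0]⟩
  rcases h1 with h1 | h1
  · obtain ⟨t, ht⟩ := key (huv.mem z hz).1.1 hu0 (hall z).1 (hall z').1
    exact h1 t ht
  · obtain ⟨t, ht⟩ := key (huv.mem z hz).1.2.1 hv0 (hall z).2 (hall z').2
    exact h1 t ht

end Pool.Agent.Y191
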