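import Pool.Agent.Y191.Quasi
import Pool.Agent.Y191.Semi
import Pool.Agent.W601.PH.Quasi

/-!
The five conditions of the generalized Green-Griffiths-Lang conjecture for quasi-projective
varieties over projective space which are ramified, possibly with small multiplicities, over many
hyperplanes in general position.
-/

set_option autoImplicit false

open MvPolynomial Metric Filter Topology

namespace Pool.Agent.Y191

open Pool.Agent.W602.Cov Pool.Agent.W602.Cov.Cover Pool.Agent.W602.Cov.R Pool.Agent.W603.BP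
open Pool.Agent.W601.PH Pool.Agent.W602.GT
open Pool.Agent.TH152.HY hiding aeval_inr main
open Pool.Agent.TH152.DS

variable {N n q : ℕ}

/-- the multiplicities of holomorphic maps from the punctured disc -/
theorem disc_wt {X D : BiSet N n} {ℓ : Fin q → Fin (n + 1) → ℂ} {wt : Fin q → ℝ}
    (hram : RamifiedWt X D ℓ wt)
    {u : ℂ → Fin (N + 1) → ℂ} {v : ℂ → Fin (n + 1) → ℂ} (huv : TH152.HY.QDisc X D u v) {z0 : ℂ}
    (hz0 : z0 ∈ PB 1) (w : Fin q → ℕ)
    (hw : ∀ i, analyticOrderAt (fun z => ∑ j, ℓ i j * v z j) z0 = w i) :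
    ((Finset.univ.filter fun i => w i ≠ 0).card : ℝ) ≤ ∑ i, (1 - wt i) * w i := by
  have hopen : IsOpen (PB 1) := PB_open 1
  have hu := fun j => an_of_diffOn huv.diffu j
  have hv := fun j => an_of_diffOn huv.diffv j
  have hmemz : ∀ z ∈ PB 1, TH152.HY.QMem X D (u z) (v z) := fun z hz => huv.mem z (mem_disc.mpr hz)
  obtain ⟨L, _, _, P, T, hT, hord⟩ := point_place hopen (PB_preconn one_pos) hz0
  have hTne : ∀ f : Aly (PB 1), f ≠ 0 → T f ≠ 0 := by
    intro f hf h0
    apply hf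
    apply hT
    rw [h0, map_zero]
  have hℓan : ∀ i, AnalyticOnNhd ℂ (fun z => ∑ j, ℓ i j * v z j) (PB 1) := fun i z hz =>
    Finset.analyticAt_fun_sum _ fun j _ => analyticAt_const.fun_mul (hv j z hz)
  let U : Fin (N + 1) → Aly (PB 1) := fun j => mk (fun z => u z j) (hu j)
  let W : Fin (n + 1) → Aly (PB 1) := fun j => mk (fun z => v z j) (hv j)
  let F : Fin q → Aly (PB 1) := fun i => mk (fun z => ∑ j, ℓ i j * v z j) (hℓan i)
  have hext : ∀ f g : Aly (PB 1), (∀ z : PB 1, evs z f = evs z g) → f = g :=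
    fun f g h => Subtype.ext (funext h)
  have hrep : ∀ (f : ℂ → ℂ) (hf : AnalyticOnNhd ℂ f (PB 1)),
      analyticOrderAt (rep (PB 1) (mk f hf)) z0 = analyticOrderAt f z0 := by
    intro f hf
    refine analyticOrderAt_congr ?_
    filter_upwards [hopen.mem_nhds hz0] with z hz
    exact rep_mk f hf z hz
  have hF : ∀ i, lf (ℓ i) (fun j => T (W j)) = T (F i) := by
    intro i
    have h4 : F i = ∑ j, algebraMap ℂ (Aly (PB 1)) (ℓ i j) * W j := by
      apply hext
      intro z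
      rw [map_sum]
      simp only [map_mul, AlgHom.commutes]
      rfl
    rw [h4, map_sum]
    unfold lf
    refine Finset.sum_congr rfl fun j _ => ?_
    rw [map_mul, AlgHom.commutes]
  have hFne : ∀ i, F i ≠ 0 := by
    intro i h0
    have h1 := hw i
    rw [← hrep _ (hℓan i)] at h1
    have h2 : rep (PB 1) (F i) =ᶠ[𝓝 z0] fun _ => 0 := by
      filter_upwards [hopen.mem_nhds hz0] with z hz
      rw [← rep_eq (F i) ⟨z, hz⟩, h0]
      rfl
    have h3 : analyticOrderAt (rep (PB 1) (F i)) z0 = ⊤ := by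
      rw [analyticOrderAt_congr h2, analyticOrderAt_eq_top]
      simp
    rw [show mk _ (hℓan i) = F i from rfl, h3] at h1
    exact absurd h1.symm (ENat.natCast_ne_top _)
  -- polynomials
  have hpoly : ∀ G : BiPoly N n, ∀ z : PB 1,
      evs z (aeval (Sum.elim U W) G) = eval (Sum.elim (u z) (v z)) G := by
    intro G z
    have h7 : evs z (aeval (Sum.elim U W) G) = aeval (fun s => evs z (Sum.elim U W s)) G := by
      rw [← AlgHom.comp_apply, comp_aeval]
    rw [h7]
    have h8 : (fun s => evs z (Sum.elim U W s)) = Sum.elim (u z) (v z) := by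
      funext s
      rcases s with s | s <;> rfl
    rw [h8]
    rfl
  have hTpoly : ∀ G : BiPoly N n, aeval (Sum.elim (fun j => T (U j)) (fun j => T (W j))) G
      = T (aeval (Sum.elim U W) G) := by
    intro G
    rw [← AlgHom.comp_apply, comp_aeval]
    congr 2
    funext s
    rcases s with s | s <;> rfl
  have hmem : X.Mem (fun j => T (U j)) (fun j => T (W j)) := by
    obtain ⟨⟨ha, hb, _⟩, _⟩ := hmemz z0 hz0
    refine ⟨?_, ?_, ?_⟩
    · intro h0
      apply ha
      funext j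
      by_contra hj
      exact hTne (U j) (mk_ne (hu j) hz0 hj) (congrFun h0 j)
    · intro h0
      apply hb
      funext j
      by_contra hj
      exact hTne (W j) (mk_ne (hv j) hz0 hj) (congrFun h0 j)
    · intro G hG
      have h5 : aeval (Sum.elim U W) G = (0 : Aly (PB 1)) := by
        apply hext
        intro z
        rw [map_zero, hpoly]
        exact (hmemz z z.2).1.2.2 G hG
      rw [hTpoly, h5, map_zero]
  have horder0 : ∀ (f : ℂ → ℂ) (hf : AnalyticOnNhd ℂ f (PB 1)), f z0 ≠ 0 → P.ord (T (mk f hf)) = 0 := by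
    intro f hf hne
    rw [(hord _ (mk_ne hf hz0 hne)).2, hrep f hf, (hf z0 hz0).analyticOrderAt_eq_zero.mpr hne]
    rfl
  have hnonneg : ∀ f : Aly (PB 1), f ≠ 0 → 0 ≤ P.ord (T f) := by
    intro f hf
    rw [(hord _ hf).2]
    exact Int.natCast_nonneg _
  have hn0 : ∀ {k : ℕ} (x : ℂ → Fin k → ℂ) (hx : ∀ j, AnalyticOnNhd ℂ (fun z => x z j) (PB 1)),
      x z0 ≠ 0 → Norm P (fun j => T (mk (fun z => x z j) (hx j))) 0 := by
    intro k x hx h0
    refine ⟨fun j hj => hnonneg _ fun h1 => hj (by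
      show T (mk (fun z => x z j) (hx j)) = 0
      rw [h1, map_zero]), ?_⟩
    obtain ⟨j, hj⟩ := Function.ne_iff.mp h0
    exact ⟨j, hTne _ (mk_ne (hx j) hz0 hj), horder0 _ (hx j) hj⟩
  have hNa : Norm P (fun j => T (U j)) 0 := hn0 u hu (hmemz z0 hz0).1.1
  have hNb : Norm P (fun j => T (W j)) 0 := hn0 v hv (hmemz z0 hz0).1.2.1
  refine hram L (fun j => T (U j)) (fun j => T (W j)) hmem
    (fun i => by rw [hF]; exact hTne _ (hFne i)) P ?_ 0 w hNb ?_
  · intro hcen
    apply (hmemz z0 hz0).2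
    refine ⟨(hmemz z0 hz0).1.1, (hmemz z0 hz0).1.2.1, fun G hG => ?_⟩
    obtain ⟨E, E', hE⟩ := D.hom G hG
    by_contra hne
    have hne' : evs ⟨z0, hz0⟩ (aeval (Sum.elim U W) G) ≠ 0 := by
      rw [hpoly]
      exact hne
    have hG0 : aeval (Sum.elim U W) G ≠ 0 := by
      intro h0
      rw [h0, map_zero] at hne'
      exact hne' rfl
    rcases hcen 0 0 hNa hNb G hG E E' hE with h1 | h1
    · rw [hTpoly] at h1
      exact hTne _ hG0 h1
    · rw [hTpoly, (hord _ hG0).2] at h1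
      have h2 : analyticOrderAt (rep (PB 1) (aeval (Sum.elim U W) G)) z0 = 0 := by
        rw [(rep_an _ z0 hz0).analyticOrderAt_eq_zero, ← rep_eq _ ⟨z0, hz0⟩]
        exact hne'
      rw [h2] at h1
      simp at h1
  · intro i
    rw [hF, (hord _ (hFne i)).2, zero_add]
    have h1 : analyticOrderAt (rep (PB 1) (F i)) z0 = w i := by
      rw [← hw i]
      exact hrep _ (hℓan i)
    rw [h1]
    simp

/-- **The main theorem.** -/
theorem main_five {d : ℕ} (hn : 1 ≤ n) {ℓ : Fin q → Fin (n + 1) → ℂ} (hI : Independent d ℓ)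
    (hg : GeneralPosition ℓ) {wt : Fin q → ℝ} (hwt0 : ∀ i, 0 ≤ wt i) (hwt1 : ∀ i, wt i ≤ 1)
    (hlt : (2 * (n + d - 1).choose (n - 1) : ℕ) < ∑ i, wt i) :
    ∃ R : ℕ, 0 < R ∧ ∀ (N : ℕ) (X D : BiSet N n), RamifiedWt X D ℓ wt →
      ∀ (K : Type) [Field K] [Algebra ℂ K] (a : Fin (N + 1) → K) (b : Fin (n + 1) → K) (t : ℕ),
      X.FunctionField K a b → ¬ D.Mem a b → (∀ i, lf (ℓ i) b ≠ 0) →
      Algebra.IsAlgebraic
        (IntermediateField.adjoin ℂ {f : K | ∃ i j, b j ≠ 0 ∧ f = b i / b j}) K →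
      Algebra.trdeg ℂ K = t → 0 < t →
      LogGeneralType ℂ K t (CentreIn D a b) ∧
      ∃ (G : BiPoly N n) (E : ℕ), BiHom G 0 E ∧
        (∃ u v, TH152.HY.QMem X D u v ∧ eval (Sum.elim u v) G ≠ 0) ∧
        LangOff X D G ∧ UniformOverPn X D G R ∧ PicardOff X D G ∧ BrodyOff X D G ∧
        SemiAbelianOff X D G := by
  classical
  obtain ⟨R, hR, hmain⟩ := eff_uniform (k := ℂ) hn hI (genPos_of hg) hwt0 hwt1 hlt
  refine ⟨R, hR, fun N X D hram K _ _ a b t hK hD hlb halg htr ht => ?_⟩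
  choose Dg mm c hrel using fun i j => exists_rel hK halg i j
  let Q0 : MvPolynomial (Fin (n + 1)) ℂ :=
    ∏ i : Fin (N + 1), ∏ j : Fin (N + 1), c i j (mm i j)
  let Q : MvPolynomial (Fin (n + 1)) ℂ := Q0 * ∏ i, lp (ℓ i)
  obtain ⟨E, hQh⟩ : ∃ E, Q.IsHomogeneous E :=
    ⟨_, (IsHomogeneous.prod _ _ _ fun i _ => IsHomogeneous.prod _ _ _ fun j _ =>
      (hrel i j).1.hom _ le_rfl).mul (IsHomogeneous.prod _ _ _ fun i _ => lp_hom _)⟩
  have hsplit : ∀ {L : Type} [Field L] [Algebra ℂ L] (y : Fin (n + 1) → L), aeval y Q ≠ 0 →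
      (∀ i j, aeval y (c i j (mm i j)) ≠ 0) ∧ ∀ i, lf (ℓ i) y ≠ 0 := by
    intro L _ _ y hy
    simp only [Q, Q0, map_mul, map_prod, aeval_lp] at hy
    refine ⟨fun i j h0 => hy ?_, fun i h0 => hy ?_⟩
    · rw [Finset.prod_eq_zero (Finset.mem_univ i) (Finset.prod_eq_zero (Finset.mem_univ j) h0),
        zero_mul]
    · rw [Finset.prod_eq_zero (f := fun i => lf (ℓ i) y) (Finset.mem_univ i) h0, mul_zero]
  have hbQ : aeval b Q ≠ 0 := by
    simp only [Q, Q0, map_mul, map_prod, aeval_lp]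
    exact mul_ne_zero (Finset.prod_ne_zero_iff.mpr fun i _ =>
      Finset.prod_ne_zero_iff.mpr fun j _ => (hrel i j).2)
      (Finset.prod_ne_zero_iff.mpr fun i _ => hlb i)
  have hboth : ∀ (L : Type) [Field L] [Algebra ℂ L] (a' : Fin (N + 1) → L) (b' : Fin (n + 1) → L)
      (d' : ℕ), X.Mem a' b' → aeval (Sum.elim a' b') (rename Sum.inr Q : BiPoly N n) ≠ 0 →
      IntermediateField.adjoin ℂ
        ({f : L | ∃ i j, a' j ≠ 0 ∧ f = a' i / a' j} ∪
          {f : L | ∃ i j, b' j ≠ 0 ∧ f = b' i / b' j}) = ⊤ →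
      Algebra.trdeg ℂ L = d' → 0 < d' →
      Effective L R d' (CentreIn D a' b') b' ∧ LogGeneralType ℂ L d' (CentreIn D a' b') := by
    intro L _ _ a' b' d' hmem hne hgen htr' hd'
    rw [aeval_inr] at hne
    obtain ⟨h1, h2⟩ := hsplit b' hne
    refine hmain L d' b' hd' htr' (alg_sub (fun i j => (hrel i j).1) hmem h1 hgen)
      (Function.ne_iff.mp hmem.2.1) h2 (CentreIn D a' b') fun P _ hPB c0 e hc1 hc2 hord => ?_
    exact hram L a' b' hmem h2 P hPB c0 e ⟨hc1, hc2⟩ hord
  -- Picard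
  have hPic : PicardOff X D (rename Sum.inr Q) := by
    rintro u v huv ⟨z0, hz0, hne⟩
    have hv := fun j => an_of_diffOn huv.diffv j
    have hu := fun j => an_of_diffOn huv.diffu j
    have hmem : ∀ z ∈ PB 1, TH152.HY.QMem X D (u z) (v z) := fun z hz => huv.mem z (mem_disc.mpr hz)
    have hne' : aeval (v z0) Q ≠ 0 := by
      rw [← aeval_inr (N := N) Q (u z0) (v z0)]
      exact hne
    obtain ⟨h1, h2⟩ := hsplit (v z0) hne'
    have hE : Extends v := by
      rcases curve_picard hn (ℓ := ℓ) hI hwt0 hwt1 (by push_cast at hlt ⊢; exact hlt) hv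
        (fun z hz => (hmem z hz).1.2.1)
        (fun z hz w hw => disc_wt hram huv hz w hw) with ⟨i, hi⟩ | ⟨h, _, _, hrr⟩
      · exfalso
        apply h2 i
        exact hi z0 (mem_disc.mp hz0)
      · exact extends_mrel hv (fun z hz => (hmem z hz).1.2.1) hrr
    exact ⟨extends_lift (X := conv X) hu (fun z hz => (hmem z hz).1) hE (mem_disc.mp hz0)
      (fib_finite (fun i j => (hrel i j).1) h1), hE⟩
  refine ⟨(hboth K a b t hK.mem (by rw [aeval_inr]; exact hbQ) hK.gen htr ht).2,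
    rename Sum.inr Q, E, biHom_rename hQh, ?_, ?_, ?_, hPic, brody_of_picard hPic,
    semi_of_brody (brody_of_picard hPic)⟩
  · have h1 : ∃ F ∈ D.eqs, aeval (Sum.elim a b) F ≠ 0 := by
      by_contra hcon
      push Not at hcon
      exact hD ⟨hK.mem.1, hK.mem.2.1, hcon⟩
    obtain ⟨F, hF, hFab⟩ := h1
    obtain ⟨e, e', he⟩ := D.hom F hF
    have h2 : BiHom (F * rename Sum.inr Q : BiPoly N n) (e + 0) (e' + E) := by
      have := IsWeightedHomogeneous.mul he (biHom_rename (N := N) hQh)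
      exact this
    by_contra hcon
    push Not at hcon
    have h3 := (hK.van _ _ _ h2).2 (fun u v huv => by
      rw [map_mul]
      by_cases hFv : eval (Sum.elim u v) F = 0
      · rw [hFv, zero_mul]
      · rw [hcon u v ⟨huv, fun hd => hFv (hd.2.2 F hF)⟩, mul_zero])
    rw [map_mul, aeval_inr] at h3
    exact mul_ne_zero hFab hbQ h3
  · intro L _ _ a' b' d' hmem _ hne hgen htr' hd'
    exact (hboth L a' b' d' hmem hne hgen htr' hd').2
  · intro L _ _ a' b' d' hmem _ hne hgen htr' hd'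
    exact (hboth L a' b' d' hmem hne hgen htr' hd').1

end Pool.Agent.Y191
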