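import Mathlib

/-!
Values of linear forms.
-/

set_option autoImplicit false

namespace Pool.Agent.Y191

/-- the value of the linear form with coefficients `ℓ` at the point with coordinates `b` -/
def lf {k K : Type} [Field k] [Field K] [Algebra k K] {ι : Type} [Fintype ι] (ℓ : ι → k)
    (b : ι → K) : K := ∑ j, algebraMap k K (ℓ j) * b j

end Pool.Agent.Y191
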