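import Pool.Agent.Y191.Field

/-!
The form of the base: function fields with a map to projective space whose image has smaller
dimension.
-/

set_option autoImplicit false

open MvPolynomial Matrix FF Pool.Agent.W603.LV Pool.Agent.W602.GT

namespace Pool.Agent.Y191

section der

variable {k K : Type} [Field k] [Field K] [Algebra k K] [CharZero k]

/-- a derivation vanishes on the functions which are algebraic over its constants -/
theorem der_alg0 (D : Derivation k K K) {S : Set K} (h : ∀ s ∈ S, D s = 0) {f : K}
    (hf : IsAlgebraic (IntermediateField.adjoin k S) f) : D f = 0 := by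
  have hle : IntermediateField.adjoin k S ≤ consts D := by
    rw [IntermediateField.adjoin_le_iff]
    exact h
  let _ : Algebra (IntermediateField.adjoin k S) (consts D) :=
    (IntermediateField.inclusion hle).toRingHom.toAlgebra
  have : IsScalarTower (IntermediateField.adjoin k S) (consts D) K :=
    IsScalarTower.of_algebraMap_eq fun x => rfl
  have hf' : IsAlgebraic (consts D) f := hf.extendScalars
    (IntermediateField.inclusion hle).toRingHom.injective
  have hint : IsIntegral (consts D) f := hf'.isIntegral
  have hchar : CharZero (consts D) := charZero_of_injective_algebraMap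
    (algebraMap k (consts D)).injective
  have h1 : overConsts D (Polynomial.aeval f (minpoly (consts D) f)) = 0 := by
    rw [minpoly.aeval, map_zero]
  rw [Derivation.map_aeval] at h1
  have h2 : Polynomial.aeval f (Polynomial.derivative (minpoly (consts D) f)) ≠ 0 :=
    (minpoly.irreducible hint).separable.aeval_derivative_ne_zero (minpoly.aeval _ _)
  rw [smul_eq_mul, overConsts_apply] at h1
  exact (mul_eq_zero.mp h1).resolve_left h2

/-- dual derivations -/
theorem exists_dual {p : ℕ} {x : Fin p → K} (hx : AlgebraicIndependent k x) :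
    ∃ D : Fin p → Derivation k K K, ∀ i j, D i (x j) = if i = j then 1 else 0 := by
  classical
  obtain ⟨t, hst, ht⟩ := exists_isTranscendenceBasis_superset (R := k) (s := Set.range x)
    hx.coe_range
  have hD : ∀ i : Fin p, ∃ D : Derivation k K K, ∀ a : t, D (a : K) = if (a : K) = x i then 1 else 0 :=
    fun i => exists_der (fun a : t => (a : K)) ht fun a => if (a : K) = x i then 1 else 0
  choose D hD using hD
  refine ⟨D, fun i j => ?_⟩
  have h1 := hD i ⟨x j, hst ⟨j, rfl⟩⟩
  rw [show D i (x j) = D i ((⟨x j, hst ⟨j, rfl⟩⟩ : t) : K) from rfl, h1]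
  by_cases hij : i = j
  · subst hij
    simp
  · rw [if_neg hij, if_neg]
    exact fun h => hij (hx.injective h.symm)

end der

section places

variable {k K : Type} [Field k] [Field K] [Algebra k K]

theorem log_of_reg {P : Place k K} {D : Derivation k K K} (hD : DerReg P D) {t : K} (ht0 : t ≠ 0)
    (ht : P.ord t = 1) (h : Ge P 1 (D t)) : DerLog P D := by
  intro f
  by_cases hf : f = 0
  · rw [hf, map_zero, zero_div]
    exact Or.inl rfl
  obtain ⟨n, hn⟩ : ∃ n, n = P.ord f := ⟨_, rfl⟩
  have hz : ∀ n : ℤ, t ^ n ≠ 0 := fun n => zpow_ne_zero _ ht0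
  have hzpow : ∀ n : ℤ, D (t ^ n) / t ^ n = n * (D t / t) := by
    have hnat : ∀ n : ℕ, D (t ^ n) / t ^ n = n * (D t / t) := by
      intro n
      rw [D.leibniz_pow]
      cases n with
      | zero => simp
      | succ n =>
        have := pow_ne_zero n ht0
        simp only [nsmul_eq_mul, smul_eq_mul, Nat.add_sub_cancel]
        field_simp
        ring
    intro n
    rcases Int.eq_nat_or_neg n with ⟨m, rfl | rfl⟩
    · rw [zpow_natCast, Int.cast_natCast]
      exact hnat m
    · rw [_root_.zpow_neg, zpow_natCast, D.leibniz_inv]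
      have := pow_ne_zero m ht0
      have h1 := hnat m
      push_cast
      rw [neg_mul, ← h1]
      simp only [smul_eq_mul]
      field_simp
  have hu : P.Reg (f / t ^ n) := by
    rw [reg_iff_ge]
    have h1 := ge_div (hz n) (Or.inr (le_refl (P.ord f)) : Ge P (P.ord f) f)
    rw [P.ord_zpow, ht, mul_one, hn, sub_self] at h1
    rw [hn]
    exact h1
  have hun : f / t ^ n ≠ 0 := div_ne_zero hf (hz n)
  have huo : P.ord (f / t ^ n) = 0 := by
    rw [P.ord_div hf (hz n), P.ord_zpow, ht, mul_one, hn, sub_self]
  have h1 : D f / f = n * (D t / t) + D (f / t ^ n) / (f / t ^ n) := by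
    have h2 : f = t ^ n * (f / t ^ n) := (mul_div_cancel₀ _ (hz n)).symm
    have h3 : D f = t ^ n * D (f / t ^ n) + f / t ^ n * D (t ^ n) := by
      conv_lhs => rw [h2]
      rw [D.leibniz]
      rfl
    rw [← hzpow n, h3]
    have h4 := hz n
    field_simp
    ring
  rw [reg_iff_ge, h1]
  refine Ge.add ?_ ?_
  · have h2 : Ge P 0 (D t / t) := by
      have := ge_div ht0 h
      rwa [ht, sub_self] at this
    have h3 : Ge P 0 ((n : ℤ) : K) := by
      have := Ge.const (P := P) ((n : ℤ) : k)
      rwa [map_intCast] at this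
    have := h3.mul h2
    rwa [add_zero] at this
  · have := ge_div hun (hD _ hu)
    rwa [huo, sub_zero] at this

theorem derReg_sub {P : Place k K} {D E : Derivation k K K} (hD : DerReg P D) (hE : DerReg P E) :
    DerReg P (D - E) := by
  intro f hf
  rw [Derivation.sub_apply, sub_eq_add_neg]
  exact P.reg_add (hD f hf) (P.reg_neg (hE f hf))

theorem derReg_smul {P : Place k K} {D : Derivation k K K} (hD : DerReg P D) {c : K}
    (hc : P.Reg c) : DerReg P (c • D) := by
  intro f hf
  rw [Derivation.smul_apply, smul_eq_mul]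
  exact P.reg_mul hc (hD f hf)

/-- regular vector fields in terms of logarithmic ones -/
theorem reg_to_log {w : ℕ} {P : Place k K} {D : Fin w → Derivation k K K}
    (hD : ∀ i, DerReg P (D i)) : ∃ (M : Matrix (Fin w) (Fin w) K) (E : Fin w → Derivation k K K),
      (∀ i, DerLog P (E i)) ∧ (∀ i, D i = ∑ j, M i j • E j) ∧ Ge P (-1) M.det := by
  classical
  obtain ⟨t, ht0, ht⟩ := P.surj
  have htr : P.Reg t := Or.inr (by rw [ht]; norm_num)
  by_cases hall : ∀ i, Ge P 1 (D i t)
  · refine ⟨1, D, fun i => log_of_reg (hD i) ht0 ht (hall i), fun i => ?_, ?_⟩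
    · rw [Finset.sum_eq_single i]
      · rw [Matrix.one_apply_eq, one_smul]
      · intro j _ hj
        rw [Matrix.one_apply_ne hj.symm, zero_smul]
      · simp
    · rw [det_one]
      right
      rw [P.ord_one]
      norm_num
  · push Not at hall
    obtain ⟨i0, hi0⟩ := hall
    have hne : D i0 t ≠ 0 := fun h => hi0 (Or.inl h)
    have ho : P.ord (D i0 t) = 0 := by
      have h1 := (hD i0 t htr).resolve_left hne
      have h2 : ¬ 1 ≤ P.ord (D i0 t) := fun h => hi0 (Or.inr h)
      omega
    obtain ⟨c, hc⟩ : ∃ c : Fin w → K, ∀ i, c i = D i t / D i0 t := ⟨_, fun _ => rfl⟩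
    have hcr : ∀ i, P.Reg (c i) := by
      intro i
      rw [hc, reg_iff_ge]
      have := ge_div hne (hD i t htr)
      rwa [ho, sub_zero] at this
    have hc0 : c i0 = 1 := by rw [hc, div_self hne]
    obtain ⟨E, hE⟩ : ∃ E : Fin w → Derivation k K K,
      E = Function.update (fun i => D i - c i • D i0) i0 (t • D i0) := ⟨_, rfl⟩
    have hE0 : E i0 = t • D i0 := by rw [hE, Function.update_self]
    have hEi : ∀ i, i ≠ i0 → E i = D i - c i • D i0 := fun i hi => by
      rw [hE, Function.update_of_ne hi]
    obtain ⟨M, hM⟩ : ∃ M : Matrix (Fin w) (Fin w) K,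
      M = (1 : Matrix (Fin w) (Fin w) K).updateCol i0 fun i => c i * t⁻¹ := ⟨_, rfl⟩
    refine ⟨M, E, fun i => ?_, fun i => ?_, ?_⟩
    · by_cases hi : i = i0
      · subst hi
        rw [hE0]
        refine log_of_reg (derReg_smul (hD i) htr) ht0 ht ?_
        rw [Derivation.smul_apply, smul_eq_mul]
        right
        rw [P.ord_mul ht0 hne, ht, ho]
        norm_num
      · rw [hEi i hi]
        refine log_of_reg (derReg_sub (hD i) (derReg_smul (hD i0) (hcr i))) ht0 ht (Or.inl ?_)
        rw [Derivation.sub_apply, Derivation.smul_apply, smul_eq_mul, hc, div_mul_cancel₀ _ hne,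
          sub_self]
    · rw [← Finset.add_sum_erase _ _ (Finset.mem_univ i0), hM, Matrix.updateCol_self, hE0]
      have h1 : ∀ j ∈ Finset.univ.erase i0,
          (1 : Matrix (Fin w) (Fin w) K).updateCol i0 (fun i => c i * t⁻¹) i j • E j =
            if i = j then D j - c j • D i0 else 0 := by
        intro j hj
        have hj' := Finset.ne_of_mem_erase hj
        rw [Matrix.updateCol_ne hj', hEi j hj', Matrix.one_apply]
        split_ifs
        · rw [one_smul]
        · rw [zero_smul]
      rw [Finset.sum_congr rfl h1, smul_smul, mul_assoc, inv_mul_cancel₀ ht0, mul_one,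
        Finset.sum_ite_eq]
      by_cases hi : i = i0
      · rw [if_neg (by rw [hi]; exact Finset.notMem_erase _ _), hi, hc0, one_smul, add_zero]
      · rw [if_pos (Finset.mem_erase.mpr ⟨hi, Finset.mem_univ _⟩)]
        abel
    · have hdet : M.det = t⁻¹ := by
        rw [hM, ← Matrix.cramer_apply, Matrix.cramer_one]
        change c i0 * t⁻¹ = t⁻¹
        rw [hc0, one_mul]
      rw [hdet]
      right
      rw [P.ord_inv, ht]

end places

end Pool.Agent.Y191
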