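import Pool.Agent.Y191.BaseForm

/-!
The form of the base: arbitrary coordinates.
-/

set_option autoImplicit false

open MvPolynomial Matrix FF Pool.Agent.W603.LV Pool.Agent.W602.GT

namespace Pool.Agent.Y191

variable {k K : Type} [Field k] [Field K] [Algebra k K]

/-- the field of the quotients of the coordinates: the function field of the image -/
def RF (k : Type) {K : Type} [Field k] [Field K] [Algebra k K] {n : ℕ} (b : Fin (n + 1) → K) :
    IntermediateField k K :=
  IntermediateField.adjoin k {f : K | ∃ i j, b j ≠ 0 ∧ f = b i / b j}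

/-- transcendence bases of the function field of the image -/
theorem exists_base [CharZero k] {n p : ℕ} {b : Fin (n + 1) → K} (hb : ∃ j, b j ≠ 0)
    (htr : Algebra.trdeg k (RF k b) = p) :
    ∃ σ : Fin (p + 1) → Fin (n + 1), b (σ 0) ≠ 0 ∧
      AlgebraicIndependent k (fun j : Fin p => b (σ j.succ) / b (σ 0)) ∧
      ∀ f ∈ RF k b, IsAlgebraic (IntermediateField.adjoin k
        (Set.range fun j : Fin p => b (σ j.succ) / b (σ 0))) f := by
  obtain ⟨k0, hk0⟩ := hb
  have hmem : ∀ j, b j / b k0 ∈ RF k b := fun j =>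
    IntermediateField.subset_adjoin k _ ⟨j, k0, hk0, rfl⟩
  obtain ⟨y, hy⟩ : ∃ y : Fin (n + 1) → RF k b, ∀ j, (y j : K) = b j / b k0 :=
    ⟨fun j => ⟨b j / b k0, hmem j⟩, fun _ => rfl⟩
  have hyk : y k0 ≠ 0 := by
    intro h
    have h1 := hy k0
    rw [h, div_self hk0] at h1
    exact zero_ne_one h1
  have htop : IntermediateField.adjoin k {f : RF k b | ∃ i j, y j ≠ 0 ∧ f = y i / y j} = ⊤ := by
    rw [eq_top_iff]
    rintro z -
    have h1 : (IntermediateField.adjoin k {f : RF k b | ∃ i j, y j ≠ 0 ∧ f = y i / y j}).map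
        (RF k b).val = RF k b := by
      rw [IntermediateField.adjoin_map]
      have h2 : (RF k b).val '' {f : RF k b | ∃ i j, y j ≠ 0 ∧ f = y i / y j} =
          {f : K | ∃ i j, b j ≠ 0 ∧ f = b i / b j} := by
        ext f
        constructor
        · rintro ⟨_, ⟨i, j, hj, rfl⟩, rfl⟩
          have hbj : b j ≠ 0 := by
            intro h0
            apply hj
            apply Subtype.ext
            rw [hy, h0, zero_div]
            rfl
          refine ⟨i, j, hbj, ?_⟩
          change ((y i / y j : RF k b) : K) = _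
          rw [IntermediateField.coe_div, hy, hy]
          field_simp
        · rintro ⟨i, j, hj, rfl⟩
          refine ⟨y i / y j, ⟨i, j, ?_, rfl⟩, ?_⟩
          · intro h0
            have h1 := hy j
            rw [h0] at h1
            exact div_ne_zero hj hk0 h1.symm
          · change ((y i / y j : RF k b) : K) = _
            rw [IntermediateField.coe_div, hy, hy]
            field_simp
      rw [h2]
      rfl
    have h2 : (z : K) ∈ (IntermediateField.adjoin k
        {f : RF k b | ∃ i j, y j ≠ 0 ∧ f = y i / y j}).map (RF k b).val := by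
      rw [h1]
      exact z.2
    obtain ⟨z', hz', hzz⟩ := h2
    have h3 : z' = z := Subtype.ext hzz
    rw [← h3]
    exact hz'
  have halg : Algebra.IsAlgebraic
      (IntermediateField.adjoin k {f : RF k b | ∃ i j, y j ≠ 0 ∧ f = y i / y j}) (RF k b) := by
    constructor
    intro z
    have hz : z ∈ IntermediateField.adjoin k
        {f : RF k b | ∃ i j, y j ≠ 0 ∧ f = y i / y j} := by
      rw [htop]
      trivial
    exact isAlgebraic_algebraMap (R := IntermediateField.adjoin k
      {f : RF k b | ∃ i j, y j ≠ 0 ∧ f = y i / y j})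
      (⟨z, hz⟩ : IntermediateField.adjoin k {f : RF k b | ∃ i j, y j ≠ 0 ∧ f = y i / y j})
  obtain ⟨σ, hσ, hbas⟩ := exists_sigma hyk halg htr
  have hbσ : b (σ 0) ≠ 0 := by
    intro h0
    apply hσ
    apply Subtype.ext
    rw [hy, h0, zero_div]
    rfl
  have hx : ∀ j : Fin p, ((y (σ j.succ) / y (σ 0) : RF k b) : K) = b (σ j.succ) / b (σ 0) := by
    intro j
    rw [IntermediateField.coe_div, hy, hy]
    field_simp
  refine ⟨σ, hbσ, ?_, ?_⟩
  · have h1 := hbas.1.map' (f := (RF k b).val) Subtype.val_injective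
    have h2 : ((RF k b).val ∘ fun j : Fin p => y (σ j.succ) / y (σ 0)) =
        fun j : Fin p => b (σ j.succ) / b (σ 0) := funext hx
    rwa [h2] at h1
  · intro f hf
    have h1 := hbas.isAlgebraic_field.isAlgebraic (⟨f, hf⟩ : RF k b)
    have h3 : (IntermediateField.adjoin k (Set.range fun j : Fin p => y (σ j.succ) / y (σ 0))).map
        (RF k b).val =
        IntermediateField.adjoin k (Set.range fun j : Fin p => b (σ j.succ) / b (σ 0)) := by
      rw [IntermediateField.adjoin_map, ← Set.range_comp]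
      congr 2
      exact funext hx
    have h4 : ∀ z : IntermediateField.adjoin k (Set.range fun j : Fin p => y (σ j.succ) / y (σ 0)),
        ((z : RF k b) : K) ∈
          IntermediateField.adjoin k (Set.range fun j : Fin p => b (σ j.succ) / b (σ 0)) := by
      intro z
      rw [← h3]
      exact ⟨z, z.2, rfl⟩
    let φ : IntermediateField.adjoin k (Set.range fun j : Fin p => y (σ j.succ) / y (σ 0)) →+*
        IntermediateField.adjoin k (Set.range fun j : Fin p => b (σ j.succ) / b (σ 0)) :=
      { toFun := fun z => ⟨_, h4 z⟩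
        map_one' := rfl
        map_mul' := fun _ _ => rfl
        map_zero' := rfl
        map_add' := fun _ _ => rfl }
    exact h1.ringHom_of_comp_eq φ (algebraMap (RF k b) K) φ.injective rfl

variable [CharZero k]

/-- **The form of the base.** -/
theorem base_fin {n d q p : ℕ} (hd : 0 < d) {ℓ : Fin q → Fin (n + 1) → k} (hI : IndT d ℓ)
    (hg : GenPos ℓ) (hq : n + 1 ≤ q) {b : Fin (n + 1) → K} (hl : ∀ i, lf (ℓ i) b ≠ 0)
    (hb : ∃ j, b j ≠ 0) (htr : Algebra.trdeg k (RF k b) = p) :
    ∃ (σ : Fin (p + 1) → Fin (n + 1)) (x : Fin p → K) (D0 : Fin p → Derivation k K K)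
      (G : (Fin p → Derivation k K K) → K),
      p ≤ n ∧ b (σ 0) ≠ 0 ∧ (∀ j, x j = b (σ j.succ) / b (σ 0)) ∧ AlgebraicIndependent k x ∧
      (∀ f ∈ RF k b, IsAlgebraic (IntermediateField.adjoin k (Set.range x)) f) ∧
      (∀ i j, D0 i (x j) = if i = j then 1 else 0) ∧ G D0 ≠ 0 ∧
      (∀ D, G D = (jac x D).det ^ gam (n - p) (d + 1) * G D0) ∧
      (∀ (P : Place k K) (c : ℤ) (e : Fin q → ℕ), OrdData P ℓ b c e →
        ∀ D : Fin p → Derivation k K K, (∀ i, DerLog P (D i)) →
        Ge P (c * ((p + 1) * gam (n - p) (d + 1) : ℕ) + ∑ i, (e i : ℤ)) (G D)) ∧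
      ∀ (P : Place k K) (c : ℤ) (e : Fin q → ℕ), OrdData P ℓ b c e →
        ∀ D : Fin p → Derivation k K K, (∀ i, DerReg P (D i)) →
        Ge P (c * ((p + 1) * gam (n - p) (d + 1) : ℕ) + ∑ i, (e i : ℤ) -
          (min (Finset.univ.filter fun i => e i ≠ 0).card (gam (n - p) (d + 1)) : ℕ)) (G D) := by
  classical
  obtain ⟨σ, hb0, hind, halg⟩ := exists_base hb htr
  let f : Unit ⊕ Fin p → Fin (n + 1) := Sum.elim (fun _ => σ 0) fun j => σ j.succ
  have hf : Function.Injective f := by
    have h1 : ∀ j : Fin p, σ j.succ ≠ σ 0 := by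
      intro j h0
      have h2 := hind.transcendental j
      apply h2
      change IsAlgebraic k (b (σ j.succ) / b (σ 0))
      rw [h0, div_self hb0]
      exact isAlgebraic_one
    have h2 : ∀ j j' : Fin p, σ j.succ = σ j'.succ → j = j' := by
      intro j j' h
      apply hind.injective
      change b (σ j.succ) / b (σ 0) = b (σ j'.succ) / b (σ 0)
      rw [h]
    rintro (x | j) (x' | j') h
    · rfl
    · exact absurd h.symm (h1 j')
    · exact absurd h (h1 j)
    · exact congrArg Sum.inr (h2 j j' h)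
  have hpn : p ≤ n := by
    have := Fintype.card_le_of_injective f hf
    simp only [Fintype.card_sum, Fintype.card_unit, Fintype.card_fin] at this
    omega
  have hcard : Fintype.card ((Set.range f)ᶜ : Set (Fin (n + 1))) = n - p := by
    rw [Fintype.card_compl_set, Fintype.card_fin, Set.card_range_of_injective hf,
      Fintype.card_sum, Fintype.card_unit, Fintype.card_fin]
    omega
  let e1 : (Unit ⊕ Fin p) ≃ Set.range f := Equiv.ofInjective f hf
  let e2 : Fin (n - p) ≃ ((Set.range f)ᶜ : Set (Fin (n + 1))) := (Fintype.equivFinOfCardEq hcard).symm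
  obtain ⟨e, he'⟩ : ∃ e : (Unit ⊕ Fin p) ⊕ Fin (n - p) ≃ Fin (n + 1),
    ∀ x, e (Sum.inl x) = f x :=
    ⟨(Equiv.sumCongr e1 e2).trans (Equiv.Set.sumCompl (Set.range f)), fun x => by simp [e1]⟩
  have he0 : e (Sum.inl (Sum.inl ())) = σ 0 := he' _
  have hej : ∀ j, e (Sum.inl (Sum.inr j)) = σ j.succ := fun j => he' _
  have hcB : Fintype.card (Fin (n - p)) = n - p := Fintype.card_fin _
  have hcA : Fintype.card ((Unit ⊕ Fin p) ⊕ Fin (n - p)) ≤ q := by
    rw [Fintype.card_congr e, Fintype.card_fin]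
    exact hq
  have hxx : xx (fun j => b (e j)) = fun j : Fin p => b (σ j.succ) / b (σ 0) := by
    funext j
    change b (e (Sum.inl (Sum.inr j))) / b (e (Sum.inl (Sum.inl ()))) = _
    rw [he0, hej]
  obtain ⟨D0, hD0⟩ := exists_dual hind
  obtain ⟨G, h1, h2, h3, h4⟩ := base_form (B := Fin (n - p)) hd (hI.reindex e) (hg.reindex e) hcA
    (b := fun j => b (e j)) (fun i => by rw [lf_reindex]; exact hl i)
    (by change b (e (Sum.inl (Sum.inl ()))) ≠ 0
        rw [he0]; exact hb0)
    (fun j => by
      rw [hxx]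
      change IsAlgebraic _ (b (e j) / b (e (Sum.inl (Sum.inl ()))))
      rw [he0]
      exact halg _ (IntermediateField.subset_adjoin k _ ⟨e j, σ 0, hb0, rfl⟩))
    (D0 := D0) (fun i j => by rw [hxx]; exact hD0 i j)
  have hOrd : ∀ (P : Place k K) (c : ℤ) (ee : Fin q → ℕ), OrdData P ℓ b c ee →
      OrdData P (fun i j => ℓ i (e j)) (fun j => b (e j)) c ee := by
    rintro P c ee ⟨o1, ⟨j, hj, hjc⟩, o3⟩
    refine ⟨fun j hj => o1 _ hj, ⟨e.symm j, ?_, ?_⟩, fun i => ?_⟩
    · change b (e (e.symm j)) ≠ 0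
      rw [e.apply_symm_apply]
      exact hj
    · change P.ord (b (e (e.symm j))) = c
      rw [e.apply_symm_apply]
      exact hjc
    · rw [lf_reindex]
      exact o3 i
  rw [hcB] at h2 h3 h4
  refine ⟨σ, fun j => b (σ j.succ) / b (σ 0), D0, G, hpn, hb0, fun _ => rfl, hind, halg, hD0, h1,
    fun D => ?_, fun P c ee ho D hD => h3 P c ee (hOrd P c ee ho) D hD,
    fun P c ee ho D hD => h4 P c ee (hOrd P c ee ho) D hD⟩
  rw [h2 D, hxx]

end Pool.Agent.Y191
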