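import Pool.Agent.Y191.Base

/-!
The form of the base: the tensor given by the coordinates.
-/

set_option autoImplicit false

open MvPolynomial Matrix FF Pool.Agent.W603.LV Pool.Agent.W602.GT

namespace Pool.Agent.Y191

variable {k K : Type} [Field k] [Field K] [Algebra k K]

/-- the orders of the coordinates and of the hyperplanes -/
def OrdData {ι : Type} [Fintype ι] {q : ℕ} (P : Place k K) (ℓ : Fin q → ι → k) (b : ι → K)
    (c : ℤ) (e : Fin q → ℕ) : Prop :=
  (∀ j, b j ≠ 0 → c ≤ P.ord (b j)) ∧ (∃ j, b j ≠ 0 ∧ P.ord (b j) = c) ∧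
    ∀ i, P.ord (lf (ℓ i) b) = c + e i

theorem exists_ordData [CharZero k] {ι : Type} [Fintype ι] {q : ℕ} (P : Place k K) {ℓ : Fin q → ι → k}
    {b : ι → K} {s0 : ι} (hb0 : b s0 ≠ 0) (hl : ∀ i, lf (ℓ i) b ≠ 0) :
    ∃ (c : ℤ) (e : Fin q → ℕ), OrdData P ℓ b c e := by
  classical
  obtain ⟨j, hj, hjmin⟩ := Finset.exists_min_image (Finset.univ.filter fun j => b j ≠ 0)
    (fun j => P.ord (b j)) ⟨s0, by simpa using hb0⟩
  have h1 : ∀ j', b j' ≠ 0 → P.ord (b j) ≤ P.ord (b j') := fun j' hj' =>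
    hjmin j' (by simpa using hj')
  have h2 : ∀ i, P.ord (b j) ≤ P.ord (lf (ℓ i) b) := fun i =>
    (lf_ge P (ℓ i) (b := b) (c := P.ord (b j)) fun j' => by
      by_cases hj' : b j' = 0
      · exact Or.inl hj'
      · exact Or.inr (h1 j' hj')).resolve_left (hl i)
  refine ⟨P.ord (b j), fun i => (P.ord (lf (ℓ i) b) - P.ord (b j)).toNat, h1,
    ⟨j, by simpa using hj, rfl⟩, fun i => ?_⟩
  rw [Int.toNat_of_nonneg (by linarith [h2 i])]
  ring

variable [CharZero k] {p : ℕ} {B : Type} [Fintype B] [DecidableEq B]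

/-- the affine coordinates -/
noncomputable def xx (b : (Unit ⊕ Fin p) ⊕ B → K) (j : Fin p) : K :=
  b (Sum.inl (Sum.inr j)) / b (Sum.inl (Sum.inl ()))

/-- the Jacobian -/
noncomputable def jac (x : Fin p → K) (D : Fin p → Derivation k K K) : Matrix (Fin p) (Fin p) K :=
  Matrix.of fun i j => D i (x j)

theorem om_change {r : ℕ} {y : Mon B r → MvPolynomial ((Unit ⊕ Fin p) ⊕ B) k} (hr : 0 < r)
    (hy : ∀ β, (y β).IsHomogeneous r) (c : Matrix B ((Unit ⊕ Fin p) ⊕ B) K)
    {b : (Unit ⊕ Fin p) ⊕ B → K} (hb0 : b (Sum.inl (Sum.inl ())) ≠ 0)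
    (halg : ∀ j, IsAlgebraic (IntermediateField.adjoin k (Set.range (xx b)))
      (b j / b (Sum.inl (Sum.inl ()))))
    {D0 : Fin p → Derivation k K K} (hD0 : ∀ i j, D0 i (xx b j) = if i = j then 1 else 0)
    (D : Fin p → Derivation k K K) :
    om y c b D = (jac (xx b) D).det ^ gam (Fintype.card B) r * om y c b D0 := by
  classical
  have hch := charZeroK k K
  obtain ⟨b', hb'⟩ : ∃ b' : (Unit ⊕ Fin p) ⊕ B → K,
    b' = fun j => b j / b (Sum.inl (Sum.inl ())) := ⟨_, rfl⟩
  have hbb' : b = fun j => b (Sum.inl (Sum.inl ())) * b' j := by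
    rw [hb']
    funext j
    exact (mul_div_cancel₀ _ hb0).symm
  have h1 : ∀ E : Fin p → Derivation k K K, om y c b E =
      b (Sum.inl (Sum.inl ())) ^ ((p + 1) * gam (Fintype.card B) r) * om y c b' E := by
    intro E
    have h := om_scale hr hy c b' (b (Sum.inl (Sum.inl ()))) E
    rw [← hbb'] at h
    exact h
  have h2 : vw D b' = bm (jac (xx b) D) * vw D0 b' := by
    unfold vw bm
    rw [fromBlocks_mul_fromRows, Matrix.zero_mul, Matrix.zero_mul, Matrix.one_mul, add_zero,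
      zero_add]
    congr 1
    refine Matrix.ext fun i j => ?_
    rw [Matrix.mul_apply]
    have h3 : (D i - ∑ l, D i (xx b l) • D0 l) (b' j) = 0 := by
      refine der_alg0 _ (S := Set.range (xx b)) ?_ (by rw [hb']; exact halg j)
      rintro _ ⟨l', rfl⟩
      rw [Derivation.sub_apply, der_sum]
      simp only [hD0, mul_ite, mul_one, mul_zero]
      rw [Finset.sum_ite_eq' Finset.univ l' fun l => D i (xx b l), if_pos (Finset.mem_univ _),
        sub_self]
    rw [Derivation.sub_apply, der_sum, sub_eq_zero] at h3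
    exact h3
  have h3 : om y c b' D = (jac (xx b) D).det ^ gam (Fintype.card B) r * om y c b' D0 := by
    unfold om
    rw [h2, Om_T hr (fun β => (hy β).map _), bm, det_fromBlocks_zero₁₂, det_one, one_mul]
  rw [h1 D, h1 D0, h3]
  ring

/-- **The form of the base.** -/
theorem base_form {d q : ℕ} (hd : 0 < d) {ℓ : Fin q → (Unit ⊕ Fin p) ⊕ B → k} (hI : IndT d ℓ)
    (hg : GenPos ℓ) (hq : Fintype.card ((Unit ⊕ Fin p) ⊕ B) ≤ q)
    {b : (Unit ⊕ Fin p) ⊕ B → K} (hl : ∀ i, lf (ℓ i) b ≠ 0)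
    (hb0 : b (Sum.inl (Sum.inl ())) ≠ 0)
    (halg : ∀ j, IsAlgebraic (IntermediateField.adjoin k (Set.range (xx b)))
      (b j / b (Sum.inl (Sum.inl ()))))
    {D0 : Fin p → Derivation k K K} (hD0 : ∀ i j, D0 i (xx b j) = if i = j then 1 else 0) :
    ∃ G : (Fin p → Derivation k K K) → K, G D0 ≠ 0 ∧
      (∀ D, G D = (jac (xx b) D).det ^ gam (Fintype.card B) (d + 1) * G D0) ∧
      (∀ (P : Place k K) (c : ℤ) (e : Fin q → ℕ), OrdData P ℓ b c e →
        ∀ D : Fin p → Derivation k K K, (∀ i, DerLog P (D i)) →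
        Ge P (c * ((p + 1) * gam (Fintype.card B) (d + 1) : ℕ) + ∑ i, (e i : ℤ)) (G D)) ∧
      ∀ (P : Place k K) (c : ℤ) (e : Fin q → ℕ), OrdData P ℓ b c e →
        ∀ D : Fin p → Derivation k K K, (∀ i, DerReg P (D i)) →
        Ge P (c * ((p + 1) * gam (Fintype.card B) (d + 1) : ℕ) + ∑ i, (e i : ℤ) -
          (min (Finset.univ.filter fun i => e i ≠ 0).card (gam (Fintype.card B) (d + 1)) : ℕ))
          (G D) := by
  classical
  have hch := charZeroK k K
  obtain ⟨s0, hs0⟩ : ∃ s0 : (Unit ⊕ Fin p) ⊕ B, s0 = Sum.inl (Sum.inl ()) := ⟨_, rfl⟩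
  have hxx : ∀ j, b (Sum.inl (Sum.inr j)) / b s0 = xx b j := fun j => by rw [hs0]; rfl
  obtain ⟨c0, hc0⟩ : ∃ c0 : Matrix B ((Unit ⊕ Fin p) ⊕ B) K, c0 = fromCols 0 1 := ⟨_, rfl⟩
  have hdet : (fromRows (vw D0 b) c0).det ≠ 0 := by
    rw [← hs0] at hb0
    have h1 : b = fun j => b s0 * (b j / b s0) := funext fun j => (mul_div_cancel₀ _ hb0).symm
    have h2 : vw D0 b = sc (b s0) D0 * vw D0 fun j => b j / b s0 := by
      conv_lhs => rw [h1]
      exact vw_scale (b s0) D0 fun j => b j / b s0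
    have h3 : fromRows (vw D0 b) c0 = fromBlocks (sc (b s0) D0) 0 0 1 *
        fromRows (vw D0 fun j => b j / b s0) c0 := by
      rw [fromBlocks_mul_fromRows, Matrix.zero_mul, Matrix.zero_mul, Matrix.one_mul, add_zero,
        zero_add, ← h2]
    have h4 : (fromRows (vw D0 fun j => b j / b s0) c0).det = 1 := by
      obtain ⟨V, hV⟩ : ∃ V : Matrix (Unit ⊕ Fin p) ((Unit ⊕ Fin p) ⊕ B) K,
        V = vw D0 fun j => b j / b s0 := ⟨_, rfl⟩
      have h5 : fromRows V c0 = fromBlocks V.toCols₁ V.toCols₂ 0 1 := by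
        rw [hc0, ← fromRows_fromCols_eq_fromBlocks, fromCols_toCols]
      have h6 : V.toCols₁ = fromBlocks (1 : Matrix Unit Unit K)
          (Matrix.of fun _ j => b (Sum.inl (Sum.inr j)) / b s0) (0 : Matrix (Fin p) Unit K)
          (1 : Matrix (Fin p) (Fin p) K) := by
        refine Matrix.ext fun i j => ?_
        rw [hV]
        rcases i with i | i <;> rcases j with j | j
        · change b (Sum.inl (Sum.inl j)) / b s0 = (1 : Matrix Unit Unit K) i j
          rw [Matrix.one_apply, if_pos rfl, hs0]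
          rw [hs0] at hb0
          exact div_self hb0
        · rfl
        · change D0 i (b (Sum.inl (Sum.inl j)) / b s0) = 0
          have h7 : b (Sum.inl (Sum.inl j)) / b s0 = 1 := by
            rw [hs0]
            rw [hs0] at hb0
            exact div_self hb0
          rw [h7]
          exact (D0 i).map_one_eq_zero
        · change D0 i (b (Sum.inl (Sum.inr j)) / b s0) = (1 : Matrix (Fin p) (Fin p) K) i j
          rw [hxx, hD0, Matrix.one_apply]
      rw [← hV, h5, det_fromBlocks_zero₂₁, h6, det_fromBlocks_zero₂₁, det_one, det_one, det_one,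
        one_mul, one_mul]
    rw [h3, det_mul, h4, det_fromBlocks_zero₁₂, sc_det, det_one, mul_one, mul_one]
    exact pow_ne_zero _ hb0
  obtain ⟨y, hy, hyl, hyne⟩ := exists_y hd hI hdet (Sum.inl ()) fun i => hl i
  have hr : 0 < d + 1 := by omega
  have hom0 : om y c0 b D0 ≠ 0 := hyne
  have hlog : ∀ (P : Place k K) (c : ℤ) (e : Fin q → ℕ), OrdData P ℓ b c e →
      ∀ D : Fin p → Derivation k K K, (∀ i, DerLog P (D i)) →
      Ge P (c * ((p + 1) * gam (Fintype.card B) (d + 1) : ℕ) + ∑ i, (e i : ℤ))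
        (om y c0 b D) := fun P c e h D hD =>
    om_ge hr hy hyl hg hq c0 P h.2.1 (fun i => Or.inr (h.2.2 i).ge) D (fun _ => le_rfl)
      fun i j f hf => log_der (hD j) hf
  refine ⟨om y c0 b, hom0, fun D => om_change hr hy c0 hb0 halg hD0 D, hlog, ?_⟩
  intro P c e h D hD
  rcases le_total (Finset.univ.filter fun i => e i ≠ 0).card (gam (Fintype.card B) (d + 1)) with
    hle | hle
  · rw [min_eq_left hle]
    have h1 := om_ge hr hy hyl hg hq c0 P h.2.1 (fun i => Or.inr (h.2.2 i).ge) D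
      (a := fun i => e i - 1) (fun _ => Nat.sub_le _ _) fun i j f hf => reg_der (hD j) hf
    have h5 : ∑ i, ((e i - 1 : ℕ) : ℤ) = ∑ i, (e i : ℤ) -
        ((Finset.univ.filter fun i => e i ≠ 0).card : ℤ) := by
      rw [Finset.card_filter]
      push_cast
      rw [← Finset.sum_sub_distrib]
      refine Finset.sum_congr rfl fun i _ => ?_
      by_cases h : e i = 0
      · rw [h]; simp
      · rw [if_pos h, Nat.cast_sub (Nat.one_le_iff_ne_zero.mpr h), Nat.cast_one]
    rw [h5] at h1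
    exact h1.mono (by linarith)
  · rw [min_eq_right hle]
    obtain ⟨M, E, hE, hDE, hM⟩ := reg_to_log hD
    have h1 : D = fun i => ∑ j, M i j • E j := funext hDE
    have h2 := om_pluri hr hy c0 b M E
    rw [← h1] at h2
    rw [h2]
    have h3 := (hM.pow (gam (Fintype.card B) (d + 1))).mul (hlog P c e h E hE)
    exact h3.mono (by linarith)

end Pool.Agent.Y191
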