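import Pool.Agent.Y191.USec
import Pool.Agent.Y172.UpB

/-!
Varieties with canonical singularities: the order of a section at the places over the variety, and
the places over the prime divisors of an affine space.
-/

set_option autoImplicit false
set_option linter.overlappingInstances false
set_option linter.unusedSectionVars false

open FF MvPolynomial Pool.Agent.W602.GT Pool.Agent.W603.LV Pool.Agent.W619.PQ
open Pool.Agent.Y172

namespace Pool.Agent.Y191

section

variable {K : Type} [Field K] [Algebra ℂ K] {n N : ℕ} {y : Fin (N + 1) → K}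

/-- The variety `X` with generic point `y`, of dimension `n`, has canonical singularities: for every
prime divisor `Q` over `X` there is an `r`-canonical form `η` which generates `r K_X` at the centre
of `Q` on `X` (its order is `0` along all prime divisors `P` of `X` through this centre), with order
at least `0` along `Q`. -/
def Canonical (y : Fin (N + 1) → K) (n : ℕ) : Prop :=
  ∀ Q : Place ℂ K, Divisorial n Q → ∃ r : ℕ, 0 < r ∧ ∃ η : (Fin n → Derivation ℂ K K) → K,
    IsPluri r η ∧ (∀ P, IsPrimeDivisor y P → Through y P Q → OrdEq P η 0) ∧ OrdGe Q η 0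

/-- a tuple on which a form does not vanish is a frame -/
theorem frame_of_ne {D E : Fin n → Derivation ℂ K K} (hD : IsFrame D) {m : ℕ} (hm : 1 ≤ m)
    {ω : (Fin n → Derivation ℂ K K) → K} (hω : IsPluri m ω) (hE : ω E ≠ 0) : IsFrame E := by
  choose C hC using fun i => hD (E i)
  have e1 : E = fun i => ∑ j, Matrix.of C i j • D j := funext hC
  have h1 : ω E = (Matrix.of C).det ^ m * ω D := by
    conv_lhs => rw [e1]
    exact hω _ _
  have hdet : (Matrix.of C).det ≠ 0 := by
    intro h0
    rw [h1, h0, zero_pow (by omega), zero_mul] at hE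
    exact hE rfl
  have hinv : (Matrix.of C)⁻¹ * Matrix.of C = 1 :=
    Matrix.nonsing_inv_mul _ (isUnit_iff_ne_zero.2 hdet)
  intro G
  obtain ⟨a, ha⟩ := hD G
  refine ⟨fun i => ∑ l, a l * (Matrix.of C)⁻¹ l i, ?_⟩
  have h2 : ∀ l, D l = ∑ i, (Matrix.of C)⁻¹ l i • E i := by
    intro l
    have h3 : ∀ i, E i = ∑ j, Matrix.of C i j • D j := fun i => hC i
    simp only [h3, Finset.smul_sum, smul_smul]
    rw [Finset.sum_comm]
    have h4 : ∀ j, ∑ i, ((Matrix.of C)⁻¹ l i * Matrix.of C i j) • D j =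
        (if l = j then (1 : K) else 0) • D j := by
      intro j
      rw [← Finset.sum_smul]
      congr 1
      have h5 := congrFun (congrFun hinv l) j
      rw [Matrix.mul_apply, Matrix.one_apply] at h5
      exact h5
    simp only [h4]
    simp
  rw [ha]
  conv_lhs =>
    enter [2, l]
    rw [h2 l, Finset.smul_sum]
  rw [Finset.sum_comm]
  refine Finset.sum_congr rfl fun i _ => ?_
  rw [Finset.sum_smul]
  exact Finset.sum_congr rfl fun l _ => smul_smul _ _ _

/-- **The order of a section at a place over a variety with canonical singularities.** -/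
theorem can_bound (hy : NormalModel y) {A : Place ℂ K → ℚ}
    (hcan : Canonical y n) (hA : Effective y A) {D : Fin n → Derivation ℂ K K} (hD : IsFrame D)
    (j : Fin (N + 1)) :
    ∃ s ∈ chart y j, s ≠ 0 ∧ ∀ Q : Place ℂ K, Divisorial n Q → Centred y j Q → ∀ m : ℕ, 1 ≤ m →
      ∀ ω, IsSection y n m A ω → OrdGe Q ω (-(Q.ord s : ℤ)) := by
  classical
  obtain ⟨s, hs, hs0, hsP⟩ := exists_high (y := y) (j := j)
    (S := {P | IsPrimeDivisor y P ∧ Centred y j P ∧ A P ≠ 0})
    (hA.2.subset (by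
      rintro P ⟨h1, -, h2⟩
      exact ⟨h1, h2⟩)) (fun P hP => hP.2.1) (fun P hP => hP.1) (fun P => ⌈A P⌉₊)
  refine ⟨s, hs, hs0, fun Q hQ hj m hm ω hω E' hE' => ?_⟩
  by_cases hωD : ω E' = 0
  · exact Or.inl hωD
  right
  have hfr := frame_of_ne hD hm hω.1 hωD
  obtain ⟨r, hr, η, hη, hηP, hηQ⟩ := hcan Q hQ
  have hηD : η E' ≠ 0 := by
    intro h
    obtain ⟨P, hP, hPQ⟩ := exists_through hy Q
    obtain ⟨-, E, -, hE0, -⟩ := hηP P hP hPQ
    have h1 := pluri_zero hfr hη h
    rw [h1] at hE0
    exact hE0 rfl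
  have hηo : (0 : ℤ) ≤ Q.ord (η E') := by
    have h1 := (hηQ E' hE').resolve_left hηD
    exact_mod_cast h1
  obtain ⟨F, hF⟩ : ∃ F, F = ω E' ^ r * s ^ r / η E' ^ m := ⟨_, rfl⟩
  have h1 : ω E' ^ r ≠ 0 := pow_ne_zero _ hωD
  have h2 : s ^ r ≠ 0 := pow_ne_zero _ hs0
  have h3 : η E' ^ m ≠ 0 := pow_ne_zero _ hηD
  have hF0 : F ≠ 0 := by
    rw [hF]
    exact div_ne_zero (mul_ne_zero h1 h2) h3
  have hFreg : F ∈ localRing y Q := by
    refine mem_localRing_of_reg hy fun P hP hPQ => ?_
    have hPc := hPQ.centred hj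
    obtain ⟨-, E, hE, hE0, hEo⟩ := hηP P hP hPQ
    choose C hC using fun i => hfr (E i)
    have e1 : E = fun i => ∑ j, Matrix.of C i j • E' j := funext hC
    have hE1 : η E = (Matrix.of C).det ^ r * η E' := by
      conv_lhs => rw [e1]
      exact hη _ _
    have hE2 : ω E = (Matrix.of C).det ^ m * ω E' := by
      conv_lhs => rw [e1]
      exact hω.1 _ _
    obtain ⟨c, hc⟩ : ∃ c, c = (Matrix.of C).det := ⟨_, rfl⟩
    rw [← hc] at hE1 hE2
    have hc0 : c ≠ 0 := by
      rintro rfl
      rw [zero_pow hr.ne', zero_mul] at hE1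
      exact hE0 hE1
    have hωE : ω E ≠ 0 := by
      rw [hE2]
      exact mul_ne_zero (pow_ne_zero _ hc0) hωD
    have hF' : F = ω E ^ r * s ^ r / η E ^ m := by
      rw [hF, hE1, hE2, mul_pow, mul_pow, ← pow_mul, ← pow_mul, mul_comm r m]
      have h4 : c ^ (m * r) ≠ 0 := pow_ne_zero _ hc0
      field_simp
    have h4 : -(A P) ≤ (P.ord (ω E) : ℚ) := (hω.2 P hP E hE).resolve_left hωE
    have h5 : A P ≤ (P.ord s : ℚ) := by
      by_cases hAP : A P = 0
      · rw [hAP]
        have := (P.reg_iff hs0).1 (hPc.reg s hs)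
        exact_mod_cast this
      · have h6 := hsP P ⟨hP, hPc, hAP⟩
        have h7 : A P ≤ (⌈A P⌉₊ : ℚ) := Nat.le_ceil _
        exact h7.trans (by exact_mod_cast h6)
    rw [P.reg_iff hF0, hF', P.ord_div (mul_ne_zero (pow_ne_zero _ hωE) h2) (pow_ne_zero _ hE0),
      P.ord_mul (pow_ne_zero _ hωE) h2, P.ord_pow, P.ord_pow, P.ord_pow]
    have h6 : (0 : ℚ) ≤ (r * P.ord (ω E) + r * P.ord s - m * P.ord (η E) : ℚ) := by
      rw [hEo]
      have hr' : (0 : ℚ) < r := by exact_mod_cast hr
      nlinarith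
    exact_mod_cast h6
  have h4 := (Q.reg_iff hF0).1 (localRing_reg hFreg)
  rw [hF, Q.ord_div (mul_ne_zero h1 h2) h3, Q.ord_mul h1 h2, Q.ord_pow, Q.ord_pow,
    Q.ord_pow] at h4
  have h5 : 0 ≤ (r : ℤ) * (Q.ord (ω E') + Q.ord s) := by
    have h6 : 0 ≤ (m : ℤ) * Q.ord (η E') := mul_nonneg (Int.natCast_nonneg m) hηo
    linarith
  have h6 : 0 ≤ Q.ord (ω E') + Q.ord s := by
    by_contra hcon
    push Not at hcon
    have hr' : (0 : ℤ) < r := by exact_mod_cast hr
    nlinarith
  have h7 : -(Q.ord s) ≤ Q.ord (ω E') := by linarith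
  exact_mod_cast h7

end

section

variable {k K : Type} [Field k] [CharZero k] [Field K] [Algebra k K] {σ : Type} [Fintype σ]
  [DecidableEq σ]

/-- a polynomial whose order bounds the orders of finitely many functions -/
theorem dom_poly {F : IntermediateField k K} {U : σ → K} (hU : IsTranscendenceBasis F U)
    (S : Finset K) : ∃ h : MvPolynomial σ F, h ≠ 0 ∧ ∀ P : Place k K,
      (∀ Q : MvPolynomial σ F, P.Reg (aeval U Q)) → ∀ s ∈ S, s ≠ 0 →
        P.ord s ≤ P.ord (aeval U h) := by
  classical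
  induction S using Finset.induction_on with
  | empty => exact ⟨1, one_ne_zero, fun P _ s hs => absurd hs (Finset.notMem_empty s)⟩
  | insert s S _ ih =>
    obtain ⟨h, hh, hS⟩ := ih
    obtain ⟨Q, hQ, hint⟩ := exists_multS (k := F) hU s⁻¹
    have hne : ∀ R : MvPolynomial σ F, R ≠ 0 → aeval U R ≠ 0 := fun R hR h0 =>
      hR ((injective_iff_map_eq_zero _).1 hU.1 R h0)
    refine ⟨h * Q, mul_ne_zero hh hQ, fun P hP t ht ht0 => ?_⟩
    rw [map_mul, P.ord_mul (hne h hh) (hne Q hQ)]
    have h1 := (P.reg_iff (hne h hh)).1 (hP h)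
    have h2 := (P.reg_iff (hne Q hQ)).1 (hP Q)
    rcases Finset.mem_insert.1 ht with rfl | ht
    · have h3 : P.Reg (aeval U Q * t⁻¹) := by
        refine P.reg_of_isIntegral (A := Algebra.adjoin F (Set.range U)) (fun a => ?_) hint
        have ha : (a : K) ∈ (aeval U : MvPolynomial σ F →ₐ[F] K).range := by
          rw [← Algebra.adjoin_range_eq_range_aeval]
          exact a.2
        obtain ⟨R, hR⟩ := ha
        have h1 : algebraMap (Algebra.adjoin F (Set.range U)) K a = aeval U R := hR.symm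
        rw [h1]
        exact hP R
      have h4 := (P.reg_iff (mul_ne_zero (hne Q hQ) (inv_ne_zero ht0))).1 h3
      rw [P.ord_mul (hne Q hQ) (inv_ne_zero ht0), P.ord_inv] at h4
      linarith
    · have h3 := hS P hP t ht ht0
      linarith

end

end Pool.Agent.Y191
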