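import Pool.Agent.Y191.CanA

/-!
Places over prime divisors of a relative affine space are divisorial; upper bounds for sections of
multiples of the canonical divisor on varieties with canonical singularities.
-/

set_option autoImplicit false
set_option linter.overlappingInstances false
set_option linter.unusedSectionVars false

open FF MvPolynomial Pool.Agent.W602.GT Pool.Agent.W603.LV Pool.Agent.W619.PQ
open Pool.Agent.Y172

namespace Pool.Agent.Y191

section

variable {K : Type} [Field K] [Algebra ℂ K] {σ : Type} [Fintype σ] [DecidableEq σ] {n p N : ℕ}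
variable {F : IntermediateField ℂ K} {z : Fin p → K} {e : Fin n ≃ Fin p ⊕ σ} {U : σ → K}
  {D : Fin n → Derivation ℂ K K} {y : Fin (N + 1) → K} {A : Place ℂ K → ℚ}

theorem exists_bd {F : Type} [Field F] [CharZero F] {g : MvPolynomial σ F} (hg : Irreducible g) :
    ∃ s : σ, 1 ≤ bd {s} g := by
  by_contra hcon
  push Not at hcon
  have h1 : g = C (coeff 0 g) := by
    ext m
    rw [coeff_C]
    split_ifs with hm
    · rw [hm]
    · by_contra h0
      apply hm
      symm
      ext s
      have h2 := le_bd {s} (mem_support_iff.2 h0)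
      rw [Finset.sum_singleton] at h2
      have h3 := hcon s
      have h4 : m s = 0 := by omega
      rw [h4]
      rfl
  have h2 : coeff 0 g ≠ 0 := by
    intro h0
    rw [h0, C_0] at h1
    exact hg.ne_zero h1
  apply hg.not_isUnit
  rw [h1]
  exact (isUnit_iff_ne_zero.2 h2).map C

/-- **Places over prime divisors of the affine space are divisorial.** -/
theorem AdicF.divisorial (h : FrF F z e U D) {P : Place ℂ K} {g : MvPolynomial σ F}
    (hg : Irreducible g) (hP : AdicF P U g) : Divisorial n P := by
  classical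
  have : CharZero F := charZero_of_injective_algebraMap (algebraMap ℂ F).injective
  obtain ⟨s, hs⟩ := exists_bd hg
  let i0 : Fin n := e.symm (Sum.inr s)
  have hcard : Fintype.card {i : Fin n // i ≠ i0} = n - 1 := by
    rw [Fintype.card_subtype_compl]
    simp
  let ε : Fin (n - 1) ≃ {i : Fin n // i ≠ i0} := (Fintype.equivFinOfCardEq hcard).symm
  have hzF : ∀ a, z a ∈ F := fun a => by
    rw [h.Fz]
    exact Pool.Agent.Y172.subset_acl (Set.range z) ⟨a, rfl⟩
  let T : Fin n → MvPolynomial σ F := fun i =>
    match e i with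
    | Sum.inl a => C (⟨z a, hzF a⟩ : F)
    | Sum.inr t => X t
  have hT : ∀ i, aeval U (T i) = Sum.elim z U (e i) := by
    intro i
    change aeval U (match e i with
      | Sum.inl a => C (⟨z a, hzF a⟩ : F)
      | Sum.inr t => X t) = _
    rcases e i with a | t
    · simp only [aeval_C, Sum.elim_inl]
      rfl
    · simp only [aeval_X, Sum.elim_inr]
  refine ⟨fun i => Sum.elim z U (e (ε i).1), fun Φ hΦ => ?_⟩
  have hind : AlgebraicIndependent ℂ fun i : Fin (n - 1) => Sum.elim z U (e (ε i).1) :=
    h.bas0.1.comp (fun i => (ε i).1) (Subtype.val_injective.comp ε.injective)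
  have hne : aeval (fun i : Fin (n - 1) => Sum.elim z U (e (ε i).1)) Φ ≠ 0 := fun h0 =>
    hΦ ((injective_iff_map_eq_zero _).1 hind Φ h0)
  refine ⟨hne, ?_⟩
  let Q : MvPolynomial σ F := aeval (fun i : Fin (n - 1) => T (ε i).1) Φ
  have hQ : aeval U Q = aeval (fun i : Fin (n - 1) => Sum.elim z U (e (ε i).1)) Φ := by
    have h1 : ((aeval U : MvPolynomial σ F →ₐ[F] K).restrictScalars ℂ).comp
        (aeval (fun i : Fin (n - 1) => T (ε i).1)) =
        (aeval (fun i : Fin (n - 1) => Sum.elim z U (e (ε i).1)) :
          MvPolynomial (Fin (n - 1)) ℂ →ₐ[ℂ] K) := by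
      apply MvPolynomial.algHom_ext
      intro i
      simp only [AlgHom.comp_apply, aeval_X, AlgHom.restrictScalars_apply]
      exact hT _
    exact DFunLike.congr_fun h1 Φ
  have hQ0 : Q ≠ 0 := by
    intro h0
    rw [h0, map_zero] at hQ
    exact hne hQ.symm
  rw [← hQ]
  refine ((hP Q hQ0).2).2 fun hd => ?_
  obtain ⟨R, hR⟩ := hd
  have hR0 : R ≠ 0 := by
    rintro rfl
    rw [mul_zero] at hR
    exact hQ0 hR
  have h3 : bd {s} Q = bd {s} g + bd {s} R := by
    rw [hR]
    exact bd_mul hg.ne_zero hR0
  have h4 : bd {s} Q ≤ 0 := by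
    refine bd_le _ fun m hm => ?_
    rw [Finset.sum_singleton]
    have h5 : Q ∈ supported F ({s}ᶜ : Set σ) := by
      change aeval (fun i : Fin (n - 1) => T (ε i).1) Φ ∈ _
      have h6 : ∀ i : Fin (n - 1), T (ε i).1 ∈ supported F ({s}ᶜ : Set σ) := by
        intro i
        have h7 : (ε i).1 ≠ i0 := (ε i).2
        have h8 : e (ε i).1 ≠ Sum.inr s := fun h9 => h7 (by
          change _ = e.symm (Sum.inr s)
          rw [← h9, Equiv.symm_apply_apply])
        change (match e (ε i).1 with
          | Sum.inl a => C (⟨z a, hzF a⟩ : F)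
          | Sum.inr t => X t) ∈ _
        revert h8
        rcases e (ε i).1 with a | t
        · intro _
          exact (supported F ({s}ᶜ : Set σ)).algebraMap_mem _
        · intro h8
          exact X_mem_supported.2 fun h9 => h8 (by rw [h9])
      have h7 : (supported F ({s}ᶜ : Set σ)).restrictScalars ℂ =
          (supported F ({s}ᶜ : Set σ)).restrictScalars ℂ := rfl
      let S' : Subalgebra ℂ (MvPolynomial σ F) := (supported F ({s}ᶜ : Set σ)).restrictScalars ℂ
      have h8 : aeval (fun i : Fin (n - 1) => T (ε i).1) Φ =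
          ((aeval (fun i : Fin (n - 1) => (⟨T (ε i).1, h6 i⟩ : S')) Φ : S') :
            MvPolynomial σ F) := by
        have h9 : S'.val.comp (aeval (fun i : Fin (n - 1) => (⟨T (ε i).1, h6 i⟩ : S'))) =
            (aeval (fun i : Fin (n - 1) => T (ε i).1) :
              MvPolynomial (Fin (n - 1)) ℂ →ₐ[ℂ] MvPolynomial σ F) := by
          apply MvPolynomial.algHom_ext
          intro i
          simp
        exact (DFunLike.congr_fun h9 Φ).symm
      rw [h8]
      exact (aeval (fun i : Fin (n - 1) => (⟨T (ε i).1, h6 i⟩ : S')) Φ : S').2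
    by_contra hcon
    have h6 : s ∈ Q.vars := by
      rw [mem_vars_iff_mem_support]
      exact ⟨m, hm, Finsupp.mem_support_iff.2 fun h0 => hcon (by omega)⟩
    exact (mem_supported.1 h5 h6) rfl
  omega

theorem DegF.divisorial (h : FrF F z e U D) {P : Place ℂ K} {J : Finset σ} {l : σ} (hl : l ∈ J)
    {ρ : ℕ} (hρ : 1 ≤ ρ) (hP : DegF F P U J ρ) : Divisorial n P := by
  obtain ⟨D', hD'⟩ := h.chg (flp_basis h.bas J l)
  exact (hP.adic hρ hl).2.divisorial hD' X_prime.irreducible

end

end Pool.Agent.Y191
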