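import Pool.Agent.Y191.CanB

/-!
Upper bounds for the number of sections of multiples of the canonical divisor on a variety with
canonical singularities which is generically finite over a relative product of projective spaces.
-/

set_option autoImplicit false
set_option linter.overlappingInstances false
set_option linter.unusedSectionVars false

open FF MvPolynomial Pool.Agent.W602.GT Pool.Agent.W603.LV Pool.Agent.W619.PQ
open Pool.Agent.Y172

namespace Pool.Agent.Y191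

section

variable {K : Type} [Field K] [Algebra ℂ K] {σ : Type} [Fintype σ] [DecidableEq σ] {n p N : ℕ}
variable {F : IntermediateField ℂ K} {z : Fin p → K} {e : Fin n ≃ Fin p ⊕ σ} {U : σ → K}
  {D : Fin n → Derivation ℂ K K} {y : Fin (N + 1) → K} {A : Place ℂ K → ℚ}

/-- the orders of the sections at the divisorial places -/
theorem can_data (hy : NormalModel y) (hcan : Canonical y n) (hA : Effective y A)
    (h : FrF F z e U D) : ∃ h0 : MvPolynomial σ F, h0 ≠ 0 ∧ ∃ B0 : Place ℂ K → ℕ,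
      ∀ P : Place ℂ K, Divisorial n P → ∀ m : ℕ, 1 ≤ m → ∀ ω, IsSection y n m A ω →
        OrdGe P ω (-(B0 P : ℤ)) ∧ ((∀ Q : MvPolynomial σ F, P.Reg (aeval U Q)) →
          OrdGe P ω (-(P.ord (aeval U h0) : ℤ))) := by
  classical
  choose s hs hs0 hb using fun j => can_bound (n := n) hy hcan hA h.frame j
  obtain ⟨h0, hh0, hdom⟩ := dom_poly h.bas (Finset.univ.image s)
  refine ⟨h0, hh0, fun P => ∑ j, (P.ord (s j)).natAbs, fun P hP m hm ω hω => ?_⟩
  obtain ⟨j, hj⟩ := exists_centred hy P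
  have h1 := hb j P hP hj m hm ω hω
  constructor
  · intro E hE
    refine (h1 E hE).imp_right fun h2 => le_trans ?_ h2
    have h3 : (P.ord (s j)).natAbs ≤ ∑ j, (P.ord (s j)).natAbs :=
      Finset.single_le_sum (f := fun j => (P.ord (s j)).natAbs) (fun _ _ => Nat.zero_le _)
        (Finset.mem_univ j)
    have h4 : P.ord (s j) ≤ ((∑ j, (P.ord (s j)).natAbs : ℕ) : ℤ) := by omega
    have h5 : (P.ord (s j) : ℚ) ≤ (((∑ j, (P.ord (s j)).natAbs : ℕ) : ℤ) : ℚ) := by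
      exact_mod_cast h4
    push_cast at h5 ⊢
    linarith
  · intro hreg E hE
    refine (h1 E hE).imp_right fun h2 => le_trans ?_ h2
    have h3 := hdom P hreg (s j) (Finset.mem_image_of_mem _ (Finset.mem_univ j)) (hs0 j)
    have h5 : (P.ord (s j) : ℚ) ≤ (P.ord (aeval U h0) : ℚ) := by exact_mod_cast h3
    linarith

theorem AdicF.reg {P : Place ℂ K} {g : MvPolynomial σ F} (hP : AdicF P U g)
    (Q : MvPolynomial σ F) : P.Reg (aeval U Q) := by
  by_cases hQ : Q = 0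
  · rw [hQ, map_zero]
    exact P.reg_zero
  · exact Or.inr (hP Q hQ).1

theorem can_adic (hn : Algebra.trdeg ℂ K = n) [Algebra.EssFiniteType ℂ K] (h : FrF F z e U D)
    {P : Place ℂ K} {g : MvPolynomial σ F} (hg : Irreducible g)
    (hPg : AdicF P U g) {m : ℕ} {ω : (Fin n → Derivation ℂ K K) → K} (hω : IsPluri m ω) {c : ℤ}
    (hc : OrdGe P ω (-(c : ℤ))) :
    ω D = 0 ∨ -(c : ℝ) - m * (P.ord (aeval U g) - 1) ≤ P.ord (ω D) := by
  refine h.adic_ge hn (hPg.divisorial h hg) hg hPg hω fun E hE => ?_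
  refine (hc E hE).imp_right fun h1 => ?_
  exact_mod_cast h1

theorem can_deg (hn : Algebra.trdeg ℂ K = n) [Algebra.EssFiniteType ℂ K] (h : FrF F z e U D)
    {P : Place ℂ K} {J : Finset σ} {l : σ} (hl : l ∈ J) {ρ : ℕ}
    (hρ : 1 ≤ ρ) (hPJ : DegF F P U J ρ) {m : ℕ} {ω : (Fin n → Derivation ℂ K K) → K}
    (hω : IsPluri m ω) {c : ℤ} (hc : OrdGe P ω (-(c : ℤ))) :
    ω D = 0 ∨ -(c : ℝ) - m * (ρ - 1) + m * (ρ * (J.card + 1)) ≤ P.ord (ω D) := by
  refine h.deg_ge hn (hPJ.divisorial h hl hρ) hl hρ hPJ hω fun E hE => ?_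
  refine (hc E hE).imp_right fun h1 => ?_
  exact_mod_cast h1

/-- **The upper bound for sections.** -/
theorem up_can (hy : NormalModel y) (hcan : Canonical y n) (hA : Effective y A)
    (hn : Algebra.trdeg ℂ K = n) (h : FrF F z e U D) {φ : ℕ → K} (hφ0 : ∀ m, φ m ≠ 0)
    (hφlin : ∀ P : Place ℂ K, ∃ C : ℕ, ∀ m, 1 ≤ m → Ge P (-((C * m : ℕ) : ℤ)) (φ m))
    {Sφ : Finset K} (hφS : ∀ P : Place ℂ K, (∀ s ∈ Sφ, P.Reg s) → ∀ m, 1 ≤ m → P.Reg (φ m))
    (hfin : ∀ P (g : MvPolynomial σ F), Irreducible g → AdicF P U g →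
      ∀ m : ℕ, 1 ≤ m → (m : ℝ) * (P.ord (aeval U g) - 1) ≤ P.ord (φ m))
    {ι : Type} [Fintype ι] {J : ι → Finset σ} {l : ι → σ} (hl : ∀ i, l i ∈ J i)
    (B : Place ℂ K → ℕ)
    (hinf : ∀ i P (ρ : ℕ), 1 ≤ ρ → DegF F P U (J i) ρ →
      ∀ m : ℕ, 1 ≤ m → (m : ℝ) * (ρ - 1) ≤
        P.ord (φ m) + m * (ρ * ((J i).card + 1)) + B P)
    {T : Finset σ} (hT : ∀ j ∈ T, ∃ i, j ∈ J i) {a : ℕ} (hna : n = a + T.card) :
    ∃ C : ℕ, ∀ m : ℕ, 1 ≤ m → ∀ (r : ℕ) (f : Fin r → K), LinearIndependent ℂ f →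
      (∀ i, ∃ ω, IsSection y n m A ω ∧ ω D = f i) → r ≤ C * m ^ a := by
  classical
  have hess := hy.ess
  obtain ⟨h0, hh0, B0, hcd⟩ := can_data hy hcan hA h
  have hk : aeval U h0 ≠ 0 := fun h1 => hh0 ((injective_iff_map_eq_zero _).1 h.bas.1 h0 h1)
  obtain ⟨B1, hB1⟩ : ∃ B1 : Place ℂ K → ℕ, ∀ P,
      (B0 P : ℝ) + B P - P.ord (aeval U h0) ≤ B1 P := by
    refine ⟨fun P => B0 P + B P + (P.ord (aeval U h0)).natAbs, fun P => ?_⟩
    obtain ⟨c, hc⟩ : ∃ c : ℕ, c = (P.ord (aeval U h0)).natAbs := ⟨_, rfl⟩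
    have h4 : (B0 P : ℤ) + B P - P.ord (aeval U h0) ≤ ((B0 P + B P + c : ℕ) : ℤ) := by omega
    change _ ≤ ((B0 P + B P + (P.ord (aeval U h0)).natAbs : ℕ) : ℝ)
    rw [← hc]
    exact_mod_cast h4
  have hΔ : Effective y (0 : Place ℂ K → ℚ) := ⟨fun _ _ => le_rfl, by simp⟩
  have e0 : ∀ m : ℕ, m • (0 : Place ℂ K → ℚ) + A = A := fun m => by simp
  obtain ⟨S0, hS0⟩ := sec_fin (n := n) hy hΔ hA D
  simp only [e0] at hS0
  let 𝓕 : ℕ → Set K := fun m => {g | ∃ ω, IsSection y n m A ω ∧ g = ω D * φ m * aeval U h0}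
  obtain ⟨C, hC⟩ := fam_bound (F := F) (U := U) hn h.bas (insert (aeval U h0) (S0 ∪ Sφ)) 𝓕 (by
      intro P
      obtain ⟨C1, hC1⟩ := sec_all (n := n) hy hΔ hA D P
      simp only [e0] at hC1
      obtain ⟨C2, hC2⟩ := hφlin P
      refine ⟨C1 + C2 + (P.ord (aeval U h0)).natAbs, ?_⟩
      rintro m hm _ ⟨ω, hω, rfl⟩
      refine (((hC1 m hm ω hω).mul (hC2 m hm)).mul
        (Or.inr (le_refl (P.ord (aeval U h0))))).mono ?_
      push_cast
      have h1 : -(P.ord (aeval U h0)) ≤ |P.ord (aeval U h0)| * m := by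
        have h2 := neg_le_abs (P.ord (aeval U h0))
        have h3 : |P.ord (aeval U h0)| * 1 ≤ |P.ord (aeval U h0)| * m :=
          mul_le_mul_of_nonneg_left (by exact_mod_cast hm) (abs_nonneg _)
        linarith
      linarith)
    (by
      rintro P hP m hm _ ⟨ω, hω, rfl⟩
      refine P.reg_mul (P.reg_mul (hS0 P (fun s hs => hP s ?_) m hm ω hω)
        (hφS P (fun s hs => hP s ?_) m hm)) (hP _ (Finset.mem_insert_self _ _))
      · exact Finset.mem_insert_of_mem (Finset.mem_union_left _ hs)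
      · exact Finset.mem_insert_of_mem (Finset.mem_union_right _ hs))
    (fun _ => 0) B1 (by simp)
    (by
      rintro P g hg hPg m hm _ ⟨ω, hω, rfl⟩
      by_cases h1 : ω D = 0
      · left
        rw [h1, zero_mul, zero_mul]
      right
      have h2 := (can_adic hn h hg hPg hω.1
        ((hcd P (hPg.divisorial h hg) m hm ω hω).2 hPg.reg)).resolve_left h1
      rw [P.ord_mul (mul_ne_zero h1 (hφ0 m)) hk, P.ord_mul h1 (hφ0 m)]
      refine int_ge_of_real (c := -(P.ord (aeval U h0) : ℝ) - m * (P.ord (aeval U g) - 1) +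
        P.ord (φ m) + P.ord (aeval U h0)) ?_ ?_
      · push_cast
        linarith
      · have h2 := hfin P g hg hPg m hm
        push_cast
        linarith)
    J (fun i => ⟨l i, hl i⟩)
    (by
      rintro i P ρ hρ hPJ m hm _ ⟨ω, hω, rfl⟩
      by_cases h1 : ω D = 0
      · left
        rw [h1, zero_mul, zero_mul]
      right
      have h2 := (can_deg hn h (hl i) hρ hPJ hω.1
        ((hcd P (hPJ.divisorial h (hl i) hρ) m hm ω hω).1)).resolve_left h1
      rw [P.ord_mul (mul_ne_zero h1 (hφ0 m)) hk, P.ord_mul h1 (hφ0 m)]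
      refine int_ge_of_real (c := -(B0 P : ℝ) - m * (ρ - 1) +
        m * (ρ * ((J i).card + 1)) + P.ord (φ m) + P.ord (aeval U h0)) ?_ ?_
      · push_cast at h2 ⊢
        linarith
      · have h3 := hinf i P ρ hρ hPJ m hm
        have h4 := hB1 P
        push_cast
        linarith)
    hT hna
  refine ⟨C, fun m hm r f hf hω => ?_⟩
  have hne : φ m * aeval U h0 ≠ 0 := mul_ne_zero (hφ0 m) hk
  refine hC m hm r (fun i => f i * (φ m * aeval U h0)) ?_ fun i => ?_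
  · have h1 : LinearIndependent ℂ ((LinearMap.mulRight ℂ (φ m * aeval U h0)) ∘ f) :=
      hf.map' _ (LinearMap.ker_eq_bot.2 fun a b hab => mul_right_cancel₀ hne hab)
    exact h1
  · obtain ⟨ω, h1, h2⟩ := hω i
    exact ⟨ω, h1, by rw [h2]; ring⟩

/-- **Vanishing of sections.** -/
theorem zero_can (hy : NormalModel y) (hcan : Canonical y n) (hA : Effective y A)
    (hn : Algebra.trdeg ℂ K = n) (h : FrF F z e U D) {φ : ℕ → K} (hφ0 : ∀ m, φ m ≠ 0)
    (hfin : ∀ P (g : MvPolynomial σ F), Irreducible g → AdicF P U g →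
      ∀ m : ℕ, 1 ≤ m → (m : ℝ) * (P.ord (aeval U g) - 1) ≤ P.ord (φ m))
    {J : Finset σ} {l : σ} (hl : l ∈ J) (B : Place ℂ K → ℕ) {τ : ℝ} (hτ : 0 < τ)
    (hinf : ∀ P (ρ : ℕ), 1 ≤ ρ → DegF F P U J ρ →
      ∀ m : ℕ, 1 ≤ m → (m : ℝ) * (ρ - 1) + m * (τ * ρ) ≤
        P.ord (φ m) + m * (ρ * (J.card + 1)) + B P) :
    ∃ m0 : ℕ, ∀ m : ℕ, m0 ≤ m → ∀ ω, IsSection y n m A ω → ω = 0 := by
  classical
  have hess := hy.ess
  obtain ⟨h0, hh0, B0, hcd⟩ := can_data hy hcan hA h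
  have hk : aeval U h0 ≠ 0 := fun h1 => hh0 ((injective_iff_map_eq_zero _).1 h.bas.1 h0 h1)
  obtain ⟨B1, hB1⟩ : ∃ B1 : Place ℂ K → ℕ, ∀ P,
      (B0 P : ℝ) + B P - P.ord (aeval U h0) ≤ B1 P := by
    refine ⟨fun P => B0 P + B P + (P.ord (aeval U h0)).natAbs, fun P => ?_⟩
    obtain ⟨c, hc⟩ : ∃ c : ℕ, c = (P.ord (aeval U h0)).natAbs := ⟨_, rfl⟩
    have h4 : (B0 P : ℤ) + B P - P.ord (aeval U h0) ≤ ((B0 P + B P + c : ℕ) : ℤ) := by omega
    change _ ≤ ((B0 P + B P + (P.ord (aeval U h0)).natAbs : ℕ) : ℝ)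
    rw [← hc]
    exact_mod_cast h4
  obtain ⟨C, hC⟩ := fam_zero (F := F) (U := U) h.bas (fun _ => 0)
    B1 (by simp) J ⟨l, hl⟩
  refine ⟨⌈((C : ℝ) + 2) / τ⌉₊ + 1, fun m hm ω hω => ?_⟩
  have hm1 : 1 ≤ m := by omega
  have hm2 : ((C : ℝ) + 2) ≤ m * τ := by
    have h1 := Nat.le_ceil (((C : ℝ) + 2) / τ)
    have h2 : ((⌈((C : ℝ) + 2) / τ⌉₊ : ℕ) : ℝ) ≤ m := by
      have : ⌈((C : ℝ) + 2) / τ⌉₊ ≤ m := by omega
      exact_mod_cast this
    have h3 := h1.trans h2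
    rwa [div_le_iff₀ hτ] at h3
  have ht : (C : ℤ) < ⌊(m : ℝ) * τ⌋ := by
    have h1 : ((C + 1 : ℤ)) ≤ ⌊(m : ℝ) * τ⌋ := by
      rw [Int.le_floor]
      push_cast
      linarith
    omega
  refine pluri_zero h.frame hω.1 ?_
  have h1 := hC ⌊(m : ℝ) * τ⌋ (ω D * φ m * aeval U h0) ht
    (by
      intro P g hg hPg
      by_cases h1 : ω D = 0
      · left
        rw [h1, zero_mul, zero_mul]
      right
      have h2 := (can_adic hn h hg hPg hω.1
        ((hcd P (hPg.divisorial h hg) m hm1 ω hω).2 hPg.reg)).resolve_left h1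
      rw [P.ord_mul (mul_ne_zero h1 (hφ0 m)) hk, P.ord_mul h1 (hφ0 m)]
      refine int_ge_of_real (c := -(P.ord (aeval U h0) : ℝ) - m * (P.ord (aeval U g) - 1) +
        P.ord (φ m) + P.ord (aeval U h0)) ?_ ?_
      · push_cast
        linarith
      · have h2 := hfin P g hg hPg m hm1
        push_cast
        linarith)
    (by
      intro P ρ hρ hPJ
      by_cases h1 : ω D = 0
      · left
        rw [h1, zero_mul, zero_mul]
      right
      have h2 := (can_deg hn h hl hρ hPJ hω.1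
        ((hcd P (hPJ.divisorial h hl hρ) m hm1 ω hω).1)).resolve_left h1
      rw [P.ord_mul (mul_ne_zero h1 (hφ0 m)) hk, P.ord_mul h1 (hφ0 m)]
      refine int_ge_of_real (c := -(B0 P : ℝ) - m * (ρ - 1) +
        m * (ρ * (J.card + 1)) + P.ord (φ m) + P.ord (aeval U h0)) ?_ ?_
      · push_cast at h2 ⊢
        linarith
      · have h3 := hinf P ρ hρ hPJ m hm1
        have h4 := hB1 P
        have h5 := Int.floor_le ((m : ℝ) * τ)
        have h6 : ((⌊(m : ℝ) * τ⌋ : ℤ) : ℝ) * ρ ≤ (m * τ) * ρ :=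
          mul_le_mul_of_nonneg_right h5 (Nat.cast_nonneg _)
        push_cast
        linarith)
  exact ((mul_eq_zero.1 ((mul_eq_zero.1 h1).resolve_right hk))).resolve_right (hφ0 m)

end

end Pool.Agent.Y191
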