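import Pool.Agent.Y191.CanA

/-!
Log discrepancies, and the order of the sections at the places over a variety.
-/

set_option autoImplicit false
set_option linter.overlappingInstances false
set_option linter.unusedSectionVars false

open FF MvPolynomial Pool.Agent.W602.GT Pool.Agent.W603.LV Pool.Agent.W619.PQ
open Pool.Agent.Y172

namespace Pool.Agent.Y191

section

variable {K : Type} [Field K] [Algebra ℂ K] {n N : ℕ} {y : Fin (N + 1) → K}

/-- The log discrepancy of the pair `(X, Δ)` along `Q` is at least `α`: either `Q` is a prime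
divisor of `X` and `α ≤ 1 - Δ Q`, or there is an `r`-canonical form `η` which generates
`r (K_X + Δ)` at the centre of `Q` on `X` (its order is `- r Δ P` along all prime divisors `P` of `X`
through this centre), with order at least `r (α - 1)` along `Q`. -/
def LogDisc (y : Fin (N + 1) → K) (n : ℕ) (Δ : Place ℂ K → ℚ) (Q : Place ℂ K) (α : ℚ) : Prop :=
  (IsPrimeDivisor y Q ∧ α ≤ 1 - Δ Q) ∨
    ∃ r : ℕ, 0 < r ∧ ∃ η : (Fin n → Derivation ℂ K K) → K, IsPluri r η ∧
      (∀ P, IsPrimeDivisor y P → Through y P Q → OrdEq P η (-(r * Δ P))) ∧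
      OrdGe Q η (r * (α - 1))

/-- **The order of a section at a place over a variety.** -/
theorem disc_bound (hy : NormalModel y) {Δ A : Place ℂ K → ℚ} (hA : Effective y A)
    {D : Fin n → Derivation ℂ K K} (hD : IsFrame D) (j : Fin (N + 1)) :
    ∃ s ∈ chart y j, s ≠ 0 ∧ ∀ Q : Place ℂ K, Centred y j Q → ∀ α : ℚ,
      LogDisc y n Δ Q α → ∀ m : ℕ, 1 ≤ m →
      ∀ ω, IsSection y n m (m • Δ + A) ω → OrdGe Q ω (m * (α - 1) - (Q.ord s : ℤ)) := by
  classical
  obtain ⟨s, hs, hs0, hsP⟩ := exists_high (y := y) (j := j)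
    (S := {P | IsPrimeDivisor y P ∧ Centred y j P ∧ A P ≠ 0})
    (hA.2.subset (by
      rintro P ⟨h1, -, h2⟩
      exact ⟨h1, h2⟩)) (fun P hP => hP.2.1) (fun P hP => hP.1) (fun P => ⌈A P⌉₊)
  have hsA : ∀ P, IsPrimeDivisor y P → Centred y j P → A P ≤ (P.ord s : ℚ) := by
    intro P hP hPc
    by_cases hAP : A P = 0
    · rw [hAP]
      have := (P.reg_iff hs0).1 (hPc.reg s hs)
      exact_mod_cast this
    · have h6 := hsP P ⟨hP, hPc, hAP⟩
      have h7 : A P ≤ (⌈A P⌉₊ : ℚ) := Nat.le_ceil _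
      exact h7.trans (by exact_mod_cast h6)
  refine ⟨s, hs, hs0, fun Q hj α hα m hm ω hω E' hE' => ?_⟩
  have hm' : (0 : ℚ) < m := by exact_mod_cast hm
  rcases hα with ⟨hQ, hα⟩ | ⟨r, hr, η, hη, hηP, hηQ⟩
  · refine (hω.2 Q hQ E' hE').imp_right fun h1 => le_trans ?_ h1
    have h2 := hsA Q hQ hj
    rw [Pi.add_apply, Pi.smul_apply, nsmul_eq_mul]
    nlinarith
  by_cases hωD : ω E' = 0
  · exact Or.inl hωD
  right
  have hfr := frame_of_ne hD hm hω.1 hωD
  have hηD : η E' ≠ 0 := by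
    intro h
    obtain ⟨P, hP, hPQ⟩ := exists_through hy Q
    obtain ⟨-, E, -, hE0, -⟩ := hηP P hP hPQ
    have h1 := pluri_zero hfr hη h
    rw [h1] at hE0
    exact hE0 rfl
  have hηo : (r : ℚ) * (α - 1) ≤ Q.ord (η E') := (hηQ E' hE').resolve_left hηD
  obtain ⟨F, hF⟩ : ∃ F, F = ω E' ^ r * s ^ r / η E' ^ m := ⟨_, rfl⟩
  have h1 : ω E' ^ r ≠ 0 := pow_ne_zero _ hωD
  have h2 : s ^ r ≠ 0 := pow_ne_zero _ hs0
  have h3 : η E' ^ m ≠ 0 := pow_ne_zero _ hηD
  have hF0 : F ≠ 0 := by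
    rw [hF]
    exact div_ne_zero (mul_ne_zero h1 h2) h3
  have hr' : (0 : ℚ) < r := by exact_mod_cast hr
  have hFreg : F ∈ localRing y Q := by
    refine mem_localRing_of_reg hy fun P hP hPQ => ?_
    have hPc := hPQ.centred hj
    obtain ⟨-, E, hE, hE0, hEo⟩ := hηP P hP hPQ
    choose C hC using fun i => hfr (E i)
    have e1 : E = fun i => ∑ j, Matrix.of C i j • E' j := funext hC
    have hE1 : η E = (Matrix.of C).det ^ r * η E' := by
      conv_lhs => rw [e1]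
      exact hη _ _
    have hE2 : ω E = (Matrix.of C).det ^ m * ω E' := by
      conv_lhs => rw [e1]
      exact hω.1 _ _
    obtain ⟨c, hc⟩ : ∃ c, c = (Matrix.of C).det := ⟨_, rfl⟩
    rw [← hc] at hE1 hE2
    have hc0 : c ≠ 0 := by
      rintro rfl
      rw [zero_pow hr.ne', zero_mul] at hE1
      exact hE0 hE1
    have hωE : ω E ≠ 0 := by
      rw [hE2]
      exact mul_ne_zero (pow_ne_zero _ hc0) hωD
    have hF' : F = ω E ^ r * s ^ r / η E ^ m := by
      rw [hF, hE1, hE2, mul_pow, mul_pow, ← pow_mul, ← pow_mul, mul_comm r m]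
      have h4 : c ^ (m * r) ≠ 0 := pow_ne_zero _ hc0
      field_simp
    have h4 : -(m * Δ P + A P) ≤ (P.ord (ω E) : ℚ) := by
      have := (hω.2 P hP E hE).resolve_left hωE
      rwa [Pi.add_apply, Pi.smul_apply, nsmul_eq_mul] at this
    have h5 := hsA P hP hPc
    rw [P.reg_iff hF0, hF', P.ord_div (mul_ne_zero (pow_ne_zero _ hωE) h2) (pow_ne_zero _ hE0),
      P.ord_mul (pow_ne_zero _ hωE) h2, P.ord_pow, P.ord_pow, P.ord_pow]
    have h6 : (0 : ℚ) ≤ (r * P.ord (ω E) + r * P.ord s - m * P.ord (η E) : ℚ) := by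
      rw [hEo]
      nlinarith
    exact_mod_cast h6
  have h4 := (Q.reg_iff hF0).1 (localRing_reg hFreg)
  rw [hF, Q.ord_div (mul_ne_zero h1 h2) h3, Q.ord_mul h1 h2, Q.ord_pow, Q.ord_pow,
    Q.ord_pow] at h4
  have h4' : (0 : ℚ) ≤ r * Q.ord (ω E') + r * Q.ord s - m * Q.ord (η E') := by exact_mod_cast h4
  have h6 := mul_le_mul_of_nonneg_left hηo hm'.le
  have h5 : (r : ℚ) * (m * (α - 1)) ≤ r * (Q.ord (ω E') + Q.ord s) := by
    nlinarith
  have h7 := le_of_mul_le_mul_left h5 hr'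
  linarith

theorem Canonical.disc {Δ : Place ℂ K → ℚ} (h : Canonical y n) (hΔ : ∀ P, Δ P = 0) {Q : Place ℂ K}
    (hQ : Divisorial n Q) : LogDisc y n Δ Q 1 := by
  obtain ⟨r, hr, η, hη, hηP, hηQ⟩ := h Q hQ
  refine Or.inr ⟨r, hr, η, hη, fun P hP hPQ => ?_, ?_⟩
  · rw [hΔ, mul_zero, neg_zero]
    exact hηP P hP hPQ
  · rwa [sub_self, mul_zero]

end

end Pool.Agent.Y191
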