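import Pool.Agent.Y191.GeoA
import Pool.Agent.Y191.Disc

/-!
The orders of the pull backs of the sections to a finite extension.
-/

set_option autoImplicit false
set_option linter.overlappingInstances false
set_option linter.unusedSectionVars false

open FF MvPolynomial Pool.Agent.W602.GT Pool.Agent.W603.LV Pool.Agent.W619.PQ
open Pool.Agent.Y172

namespace Pool.Agent.Y191

section

variable {K : Type} {K' : Type} [Field K] [Field K'] [Algebra ℂ K] [Algebra ℂ K'] [Algebra K K']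
  [IsScalarTower ℂ K K'] [FiniteDimensional K K'] {n : ℕ}
variable {N : ℕ} {y : Fin (N + 1) → K} {Δ A : Place ℂ K → ℚ} {σ : Type} [Fintype σ]
  [DecidableEq σ] {F : IntermediateField ℂ K'} {U : σ → K'}

/-- the orders of the pull backs of the sections at the divisorial places -/
theorem cor_data (hy : NormalModel y) (hn : Algebra.trdeg ℂ K = n)
    (hA : Effective y A) (hU : IsTranscendenceBasis F U) {x : Fin n → K}
    {E : Fin n → Derivation ℂ K K} (hx : IsTranscendenceBasis ℂ x)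
    (hE : ∀ i j, E i (x j) = if i = j then 1 else 0) (hfr : IsFrame E) :
    ∃ h0 : MvPolynomial σ F, h0 ≠ 0 ∧ ∃ B0 : Place ℂ K' → ℕ,
      ∀ Q : Place ℂ K', Divisorial n Q → ∀ α : ℚ, LogDisc y n Δ (bel K Q) α →
        ∀ m : ℕ, 1 ≤ m → ∀ ω, IsSection y n m (m • Δ + A) ω →
        OrdGe Q (pull K' x E m ω) (m * (ram K Q * α - 1) - B0 Q) ∧
        ((∀ R : MvPolynomial σ F, Q.Reg (aeval U R)) →
          OrdGe Q (pull K' x E m ω) (m * (ram K Q * α - 1) - Q.ord (aeval U h0))) := by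
  classical
  have hess := hy.ess
  choose s hs hs0 hb using fun j => disc_bound (n := n) (Δ := Δ) hy hA hfr j
  obtain ⟨h0, hh0, hdom⟩ := dom_poly hU (Finset.univ.image fun j => algebraMap K K' (s j))
  refine ⟨h0, hh0, fun Q => ∑ j, (Q.ord (algebraMap K K' (s j))).natAbs,
    fun Q hQ α hα m hm ω hω => ?_⟩
  have hov := over_bel K Q
  have hPd : Divisorial n (bel K Q) := divisorial_down hov hQ
  obtain ⟨j, hj⟩ := exists_centred hy (bel K Q)
  have h1 := hb j (bel K Q) hj α hα m hm ω hω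
  have hkey : OrdGe Q (pull K' x E m ω)
      (m * (ram K Q * α - 1) - Q.ord (algebraMap K K' (s j))) := by
    intro D hD
    have h2 := pull_ord hn hx hE hov hPd hω.1 (c := ⌈(m : ℚ) * (α - 1)⌉ - ((bel K Q).ord (s j)))
      (by
      intro E' hE'
      refine (h1 E' hE').imp_right fun h => ?_
      have h3 : ⌈(m : ℚ) * (α - 1)⌉ ≤ (bel K Q).ord (ω E') + (bel K Q).ord (s j) := by
        rw [Int.ceil_le]
        push_cast at h ⊢
        linarith
      have h4 : ⌈(m : ℚ) * (α - 1)⌉ - ((bel K Q).ord (s j)) ≤ (bel K Q).ord (ω E') := by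
        linarith
      exact_mod_cast h4) hD
    rcases h2 with h2 | h2
    · exact Or.inl h2
    · right
      have h3 : (1 : ℚ) ≤ ram K Q := by exact_mod_cast hov.1
      have h5 := Int.le_ceil ((m : ℚ) * (α - 1))
      have h6 : (((m : ℤ) * (ram K Q - 1) + ram K Q * (⌈(m : ℚ) * (α - 1)⌉ -
          ((bel K Q).ord (s j))) : ℤ) : ℚ) ≤ Q.ord (pull K' x E m ω D) := by exact_mod_cast h2
      rw [hov.2]
      push_cast at h6 ⊢
      nlinarith
  constructor
  · intro D hD
    refine (hkey D hD).imp_right fun h2 => le_trans ?_ h2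
    have h3 : (Q.ord (algebraMap K K' (s j))).natAbs ≤
        ∑ j, (Q.ord (algebraMap K K' (s j))).natAbs :=
      Finset.single_le_sum (f := fun j => (Q.ord (algebraMap K K' (s j))).natAbs)
        (fun _ _ => Nat.zero_le _) (Finset.mem_univ j)
    have h4 : Q.ord (algebraMap K K' (s j)) ≤
        ((∑ j, (Q.ord (algebraMap K K' (s j))).natAbs : ℕ) : ℤ) := by omega
    obtain ⟨b, hb'⟩ : ∃ b, b = ∑ j, (Q.ord (algebraMap K K' (s j))).natAbs := ⟨_, rfl⟩
    rw [← hb'] at h4
    have h5 : (Q.ord (algebraMap K K' (s j)) : ℚ) ≤ (b : ℚ) := by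
      exact_mod_cast h4
    change _ - ((∑ j, (Q.ord (algebraMap K K' (s j))).natAbs : ℕ) : ℚ) ≤ _
    rw [← hb']
    linarith
  · intro hreg D hD
    refine (hkey D hD).imp_right fun h2 => le_trans ?_ h2
    have h3 := hdom Q hreg (algebraMap K K' (s j))
      (Finset.mem_image_of_mem _ (Finset.mem_univ j)) (by
        rw [Ne, map_eq_zero]
        exact hs0 j)
    have h5 : (Q.ord (algebraMap K K' (s j)) : ℚ) ≤ (Q.ord (aeval U h0) : ℚ) := by
      exact_mod_cast h3
    linarith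

end

section

variable {K : Type} [Field K] [Algebra ℂ K] {σ : Type} [Fintype σ] [DecidableEq σ] {n p : ℕ}
variable {F : IntermediateField ℂ K} {z : Fin p → K} {e : Fin n ≃ Fin p ⊕ σ} {U : σ → K}
  {D : Fin n → Derivation ℂ K K}

theorem cor_adic (hn : Algebra.trdeg ℂ K = n) [Algebra.EssFiniteType ℂ K] (h : FrF F z e U D)
    {P : Place ℂ K} {g : MvPolynomial σ F} (hg : Irreducible g)
    (hPg : AdicF P U g) {m : ℕ} {ω : (Fin n → Derivation ℂ K K) → K} (hω : IsPluri m ω) {c : ℚ}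
    (hc : OrdGe P ω c) :
    ω D = 0 ∨ (c : ℝ) - m * (P.ord (aeval U g) - 1) ≤ P.ord (ω D) := by
  refine h.adic_ge hn (hPg.divisorial h hg) hg hPg hω fun E hE => ?_
  refine (hc E hE).imp_right fun h1 => ?_
  exact_mod_cast h1

theorem cor_deg (hn : Algebra.trdeg ℂ K = n) [Algebra.EssFiniteType ℂ K] (h : FrF F z e U D)
    {P : Place ℂ K} {J : Finset σ} {l : σ} (hl : l ∈ J) {ρ : ℕ}
    (hρ : 1 ≤ ρ) (hPJ : DegF F P U J ρ) {m : ℕ} {ω : (Fin n → Derivation ℂ K K) → K}
    (hω : IsPluri m ω) {c : ℚ} (hc : OrdGe P ω c) :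
    ω D = 0 ∨ (c : ℝ) - m * (ρ - 1) + m * (ρ * (J.card + 1)) ≤ P.ord (ω D) := by
  refine h.deg_ge hn (hPJ.divisorial h hl hρ) hl hρ hPJ hω fun E hE => ?_
  refine (hc E hE).imp_right fun h1 => ?_
  exact_mod_cast h1

end

end Pool.Agent.Y191
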