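import Pool.Agent.Y191.CorA

/-!
Upper bounds for the number of sections of `m (K_X + Δ) + A`, by means of coordinates on a finite
extension and of discrepancies.
-/

set_option autoImplicit false
set_option linter.overlappingInstances false
set_option linter.unusedSectionVars false

open FF MvPolynomial Pool.Agent.W602.GT Pool.Agent.W603.LV Pool.Agent.W619.PQ
open Pool.Agent.Y172

namespace Pool.Agent.Y191

section

variable {K K' : Type} [Field K] [Field K'] [Algebra ℂ K] [Algebra ℂ K'] [Algebra K K']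
  [IsScalarTower ℂ K K'] [FiniteDimensional K K'] {n p N : ℕ}
variable {y : Fin (N + 1) → K} {Δ A : Place ℂ K → ℚ} {σ : Type} [Fintype σ]
  [DecidableEq σ] {F : IntermediateField ℂ K'} {U : σ → K'} {z : Fin p → K'}
  {e : Fin n ≃ Fin p ⊕ σ} {D : Fin n → Derivation ℂ K' K'}
variable {x : Fin n → K} {E : Fin n → Derivation ℂ K K}

/-- **The upper bound for sections.** -/
theorem cor_up (hy : NormalModel y) (hΔ : Effective y Δ) (hA : Effective y A)
    (hn : Algebra.trdeg ℂ K = n) (hx : IsTranscendenceBasis ℂ x)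
    (hE : ∀ i j, E i (x j) = if i = j then 1 else 0) (hfr : IsFrame E)
    (h : FrF F z e U D) {φ : ℕ → K'} (hφ0 : ∀ m, φ m ≠ 0)
    (hφlin : ∀ P : Place ℂ K', ∃ C : ℕ, ∀ m, 1 ≤ m → Ge P (-((C * m : ℕ) : ℤ)) (φ m))
    {Sφ : Finset K'} (hφS : ∀ P : Place ℂ K', (∀ s ∈ Sφ, P.Reg s) → ∀ m, 1 ≤ m → P.Reg (φ m))
    (hfin : ∀ P (g : MvPolynomial σ F), Irreducible g → AdicF P U g →
      ∃ α : ℚ, LogDisc y n Δ (bel K P) α ∧
        ∀ m : ℕ, 1 ≤ m → (m : ℝ) * (P.ord (aeval U g) - ram K P * α) ≤ P.ord (φ m))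
    {ι : Type} [Fintype ι] {J : ι → Finset σ} {l : ι → σ} (hl : ∀ i, l i ∈ J i)
    (B : Place ℂ K' → ℕ)
    (hinf : ∀ i P (ρ : ℕ), 1 ≤ ρ → DegF F P U (J i) ρ →
      ∃ α : ℚ, LogDisc y n Δ (bel K P) α ∧
        ∀ m : ℕ, 1 ≤ m → (m : ℝ) * (ρ - ram K P * α) ≤
          P.ord (φ m) + m * (ρ * ((J i).card + 1)) + B P)
    {T : Finset σ} (hT : ∀ j ∈ T, ∃ i, j ∈ J i) {a : ℕ} (hna : n = a + T.card) :
    ∃ C : ℕ, ∀ m : ℕ, 1 ≤ m → ∀ (r : ℕ) (f : Fin r → K), LinearIndependent ℂ f →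
      (∀ i, ∃ ω, IsSection y n m (m • Δ + A) ω ∧ ω E = f i) → r ≤ C * m ^ a := by
  classical
  have hess := hy.ess
  have hess' : Algebra.EssFiniteType ℂ K' := ess_up (K := K) hess
  have hn' : Algebra.trdeg ℂ K' = n := trdeg_up (K := K) hn
  obtain ⟨h0, hh0, B0, hcd⟩ := cor_data (Δ := Δ) hy hn hA h.bas hx hE hfr
  have hk : aeval U h0 ≠ 0 := fun h1 => hh0 ((injective_iff_map_eq_zero _).1 h.bas.1 h0 h1)
  obtain ⟨B1, hB1⟩ : ∃ B1 : Place ℂ K' → ℕ, ∀ P,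
      (B0 P : ℝ) + B P - P.ord (aeval U h0) ≤ B1 P := by
    refine ⟨fun P => B0 P + B P + (P.ord (aeval U h0)).natAbs, fun P => ?_⟩
    obtain ⟨c, hc⟩ : ∃ c : ℕ, c = (P.ord (aeval U h0)).natAbs := ⟨_, rfl⟩
    have h4 : (B0 P : ℤ) + B P - P.ord (aeval U h0) ≤ ((B0 P + B P + c : ℕ) : ℤ) := by omega
    change _ ≤ ((B0 P + B P + (P.ord (aeval U h0)).natAbs : ℕ) : ℝ)
    rw [← hc]
    exact_mod_cast h4
  obtain ⟨S0, hS0⟩ := geo_fin (n := n) hy hΔ hA x E D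
  let 𝓕 : ℕ → Set K' := fun m =>
    {g | ∃ ω, IsSection y n m (m • Δ + A) ω ∧ g = pull K' x E m ω D * φ m * aeval U h0}
  obtain ⟨C, hC⟩ := fam_bound (F := F) (U := U) hn' h.bas (insert (aeval U h0) (S0 ∪ Sφ)) 𝓕 (by
      intro P
      obtain ⟨C1, hC1⟩ := geo_lin (n := n) hy hΔ hA x E D P
      obtain ⟨C2, hC2⟩ := hφlin P
      refine ⟨C1 + C2 + (P.ord (aeval U h0)).natAbs, ?_⟩
      rintro m hm _ ⟨ω, hω, rfl⟩
      refine (((hC1 m hm ω hω).mul (hC2 m hm)).mul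
        (Or.inr (le_refl (P.ord (aeval U h0))))).mono ?_
      push_cast
      have h1 : -(P.ord (aeval U h0)) ≤ |P.ord (aeval U h0)| * m := by
        have h2 := neg_le_abs (P.ord (aeval U h0))
        have h3 : |P.ord (aeval U h0)| * 1 ≤ |P.ord (aeval U h0)| * m :=
          mul_le_mul_of_nonneg_left (by exact_mod_cast hm) (abs_nonneg _)
        linarith
      linarith)
    (by
      rintro P hP m hm _ ⟨ω, hω, rfl⟩
      refine P.reg_mul (P.reg_mul (hS0 P (fun s hs => hP s ?_) m hm ω hω)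
        (hφS P (fun s hs => hP s ?_) m hm)) (hP _ (Finset.mem_insert_self _ _))
      · exact Finset.mem_insert_of_mem (Finset.mem_union_left _ hs)
      · exact Finset.mem_insert_of_mem (Finset.mem_union_right _ hs))
    (fun _ => 0) B1 (by simp)
    (by
      rintro P g hg hPg m hm _ ⟨ω, hω, rfl⟩
      by_cases h1 : pull K' x E m ω D = 0
      · left
        rw [h1, zero_mul, zero_mul]
      right
      obtain ⟨α, hα, hφg⟩ := hfin P g hg hPg
      have h2 := (cor_adic hn' h hg hPg (pull_pluri x E m ω)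
        ((hcd P (hPg.divisorial h hg) α hα m hm ω hω).2 hPg.reg)).resolve_left h1
      rw [P.ord_mul (mul_ne_zero h1 (hφ0 m)) hk, P.ord_mul h1 (hφ0 m)]
      have h3 := hφg m hm
      refine int_ge_of_real (c := 0) ?_ (by simp)
      push_cast at h2 ⊢
      linarith)
    J (fun i => ⟨l i, hl i⟩)
    (by
      rintro i P ρ hρ hPJ m hm _ ⟨ω, hω, rfl⟩
      by_cases h1 : pull K' x E m ω D = 0
      · left
        rw [h1, zero_mul, zero_mul]
      right
      obtain ⟨α, hα, hφg⟩ := hinf i P ρ hρ hPJ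
      have h2 := (cor_deg hn' h (hl i) hρ hPJ (pull_pluri x E m ω)
        ((hcd P (hPJ.divisorial h (hl i) hρ) α hα m hm ω hω).1)).resolve_left h1
      rw [P.ord_mul (mul_ne_zero h1 (hφ0 m)) hk, P.ord_mul h1 (hφ0 m)]
      have h3 := hφg m hm
      have h4 := hB1 P
      refine int_ge_of_real (c := -(B1 P : ℝ)) ?_ ?_
      · push_cast at h2 ⊢
        linarith
      · push_cast
        linarith)
    hT hna
  refine ⟨C, fun m hm r f hf hω => ?_⟩
  obtain ⟨q, hq⟩ : ∃ q, q = (Matrix.of fun i j => D i (algebraMap K K' (x j))).det ^ m :=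
    ⟨_, rfl⟩
  have hq0 : q ≠ 0 := by
    rw [hq]
    exact pow_ne_zero _ (pull_ne hn hE h.frame)
  have hne : q * (φ m * aeval U h0) ≠ 0 := mul_ne_zero hq0 (mul_ne_zero (hφ0 m) hk)
  refine hC m hm r (fun i => algebraMap K K' (f i) * (q * (φ m * aeval U h0))) ?_ fun i => ?_
  · have h1 : LinearIndependent ℂ fun i => algebraMap K K' (f i) :=
      hf.map' (IsScalarTower.toAlgHom ℂ K K').toLinearMap (LinearMap.ker_eq_bot.2
        (IsScalarTower.toAlgHom ℂ K K').injective)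
    have h2 : LinearIndependent ℂ ((LinearMap.mulRight ℂ (q * (φ m * aeval U h0))) ∘
        fun i => algebraMap K K' (f i)) :=
      h1.map' _ (LinearMap.ker_eq_bot.2 fun a b hab => mul_right_cancel₀ hne hab)
    exact h2
  · obtain ⟨ω, h1, h2⟩ := hω i
    refine ⟨ω, h1, ?_⟩
    unfold pull
    rw [← hq, ← h2]
    ring

/-- **Vanishing of sections.** -/
theorem cor_zero (hy : NormalModel y) (hA : Effective y A)
    (hn : Algebra.trdeg ℂ K = n) (hx : IsTranscendenceBasis ℂ x)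
    (hE : ∀ i j, E i (x j) = if i = j then 1 else 0) (hfr : IsFrame E)
    (h : FrF F z e U D) {φ : ℕ → K'} (hφ0 : ∀ m, φ m ≠ 0)
    (hfin : ∀ P (g : MvPolynomial σ F), Irreducible g → AdicF P U g →
      ∃ α : ℚ, LogDisc y n Δ (bel K P) α ∧
        ∀ m : ℕ, 1 ≤ m → (m : ℝ) * (P.ord (aeval U g) - ram K P * α) ≤ P.ord (φ m))
    {J : Finset σ} {l : σ} (hl : l ∈ J) (B : Place ℂ K' → ℕ) {τ : ℝ} (hτ : 0 < τ)
    (hinf : ∀ P (ρ : ℕ), 1 ≤ ρ → DegF F P U J ρ →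
      ∃ α : ℚ, LogDisc y n Δ (bel K P) α ∧
        ∀ m : ℕ, 1 ≤ m → (m : ℝ) * (ρ - ram K P * α) + m * (τ * ρ) ≤
          P.ord (φ m) + m * (ρ * (J.card + 1)) + B P) :
    ∃ m0 : ℕ, ∀ m : ℕ, m0 ≤ m → ∀ ω, IsSection y n m (m • Δ + A) ω → ω = 0 := by
  classical
  have hess := hy.ess
  have hess' : Algebra.EssFiniteType ℂ K' := ess_up (K := K) hess
  have hn' : Algebra.trdeg ℂ K' = n := trdeg_up (K := K) hn
  obtain ⟨h0, hh0, B0, hcd⟩ := cor_data (Δ := Δ) hy hn hA h.bas hx hE hfr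
  have hk : aeval U h0 ≠ 0 := fun h1 => hh0 ((injective_iff_map_eq_zero _).1 h.bas.1 h0 h1)
  obtain ⟨B1, hB1⟩ : ∃ B1 : Place ℂ K' → ℕ, ∀ P,
      (B0 P : ℝ) + B P - P.ord (aeval U h0) ≤ B1 P := by
    refine ⟨fun P => B0 P + B P + (P.ord (aeval U h0)).natAbs, fun P => ?_⟩
    obtain ⟨c, hc⟩ : ∃ c : ℕ, c = (P.ord (aeval U h0)).natAbs := ⟨_, rfl⟩
    have h4 : (B0 P : ℤ) + B P - P.ord (aeval U h0) ≤ ((B0 P + B P + c : ℕ) : ℤ) := by omega
    change _ ≤ ((B0 P + B P + (P.ord (aeval U h0)).natAbs : ℕ) : ℝ)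
    rw [← hc]
    exact_mod_cast h4
  obtain ⟨C, hC⟩ := fam_zero (F := F) (U := U) h.bas (fun _ => 0)
    B1 (by simp) J ⟨l, hl⟩
  refine ⟨⌈((C : ℝ) + 2) / τ⌉₊ + 1, fun m hm ω hω => ?_⟩
  have hm1 : 1 ≤ m := by omega
  have hm2 : ((C : ℝ) + 2) ≤ m * τ := by
    have h1 := Nat.le_ceil (((C : ℝ) + 2) / τ)
    have h2 : ((⌈((C : ℝ) + 2) / τ⌉₊ : ℕ) : ℝ) ≤ m := by
      have : ⌈((C : ℝ) + 2) / τ⌉₊ ≤ m := by omega
      exact_mod_cast this
    have h3 := h1.trans h2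
    rwa [div_le_iff₀ hτ] at h3
  have ht : (C : ℤ) < ⌊(m : ℝ) * τ⌋ := by
    have h1 : ((C + 1 : ℤ)) ≤ ⌊(m : ℝ) * τ⌋ := by
      rw [Int.le_floor]
      push_cast
      linarith
    omega
  refine pluri_zero hfr hω.1 ?_
  have h1 := hC ⌊(m : ℝ) * τ⌋ (pull K' x E m ω D * φ m * aeval U h0) ht
    (by
      intro P g hg hPg
      by_cases h1 : pull K' x E m ω D = 0
      · left
        rw [h1, zero_mul, zero_mul]
      right
      obtain ⟨α, hα, hφg⟩ := hfin P g hg hPg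
      have h2 := (cor_adic hn' h hg hPg (pull_pluri x E m ω)
        ((hcd P (hPg.divisorial h hg) α hα m hm1 ω hω).2 hPg.reg)).resolve_left h1
      rw [P.ord_mul (mul_ne_zero h1 (hφ0 m)) hk, P.ord_mul h1 (hφ0 m)]
      have h3 := hφg m hm1
      refine int_ge_of_real (c := 0) ?_ (by simp)
      push_cast at h2 ⊢
      linarith)
    (by
      intro P ρ hρ hPJ
      by_cases h1 : pull K' x E m ω D = 0
      · left
        rw [h1, zero_mul, zero_mul]
      right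
      obtain ⟨α, hα, hφg⟩ := hinf P ρ hρ hPJ
      have h2 := (cor_deg hn' h hl hρ hPJ (pull_pluri x E m ω)
        ((hcd P (hPJ.divisorial h hl hρ) α hα m hm1 ω hω).1)).resolve_left h1
      rw [P.ord_mul (mul_ne_zero h1 (hφ0 m)) hk, P.ord_mul h1 (hφ0 m)]
      have h3 := hφg m hm1
      have h4 := hB1 P
      have h5 := Int.floor_le ((m : ℝ) * τ)
      have h6 : ((⌊(m : ℝ) * τ⌋ : ℤ) : ℝ) * ρ ≤ (m * τ) * ρ :=
        mul_le_mul_of_nonneg_right h5 (Nat.cast_nonneg _)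
      refine int_ge_of_real (c := ((⌊(m : ℝ) * τ⌋ : ℤ) : ℝ) * ρ - B1 P) ?_ ?_
      · push_cast at h2 ⊢
        linarith
      · push_cast
        linarith)
  have h2 := ((mul_eq_zero.1 ((mul_eq_zero.1 h1).resolve_right hk))).resolve_right (hφ0 m)
  unfold pull at h2
  have h3 := (mul_eq_zero.1 h2).resolve_left (pow_ne_zero _ (pull_ne hn hE h.frame))
  rwa [map_eq_zero] at h3

end

end Pool.Agent.Y191
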