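import Pool.Agent.Y191.CorMain

/-!
Bounds for the Iitaka dimension of a divisor `D` such that `K_X + Δ - D` is pseudo-effective.
-/

set_option autoImplicit false
set_option linter.overlappingInstances false
set_option linter.unusedSectionVars false

open FF MvPolynomial Pool.Agent.W602.GT Pool.Agent.W603.LV Pool.Agent.W619.PQ
open Pool.Agent.Y172 Pool.Agent.TH585.SV

namespace Pool.Agent.Y191

section

variable {K : Type} [Field K] [Algebra ℂ K] {N n : ℕ}

/-- `K_X + Δ - D` is pseudo-effective: for some effective divisor `H` and some `m1 ≥ 1`, all the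
divisors `t m1 (K_X + Δ - D) + H`, `t ≥ 1`, have a nonzero section. -/
def PsefSub (y : Fin (N + 1) → K) (n : ℕ) (Δ D : Place ℂ K → ℚ) : Prop :=
  ∃ H : Place ℂ K → ℚ, Effective y H ∧ ∃ m1 : ℕ, 1 ≤ m1 ∧ ∀ t : ℕ, 1 ≤ t →
    ∃ ω : (Fin n → Derivation ℂ K K) → K, ω ≠ 0 ∧
      IsSection y n (t * m1) ((t * m1) • (Δ - D) + H) ω

/-- The Iitaka dimension of the `ℚ`-divisor `D` on `X` is at least `h`: for some `m ≥ 1` there are
sections `f b` of `m D` whose ratios contain `h` algebraically independent functions. -/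
def IitakaGe (y : Fin (N + 1) → K) (D : Place ℂ K → ℚ) (h : ℕ) : Prop :=
  ∃ m : ℕ, 1 ≤ m ∧ ∃ f : Fin (h + 1) → K, f 0 ≠ 0 ∧
    (∀ b P, IsPrimeDivisor y P → f b = 0 ∨ -(m * D P) ≤ (P.ord (f b) : ℚ)) ∧
    AlgebraicIndependent ℂ fun b : Fin h => f b.succ / f 0

theorem growth {h a C c : ℕ} (hb : ∀ t : ℕ, 1 ≤ t → (t + 1) ^ h ≤ C * (c * t) ^ a) : h ≤ a := by
  by_contra hcon
  push Not at hcon
  have h1 := hb (C * c ^ a + 1) (by omega)
  obtain ⟨T, hT⟩ : ∃ T, T = C * c ^ a + 1 := ⟨_, rfl⟩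
  rw [← hT] at h1
  have h2 : (T + 1) ^ (a + 1) ≤ (T + 1) ^ h := Nat.pow_le_pow_right (by omega) hcon
  have h3 : C * (c * T) ^ a ≤ (C * c ^ a) * (T + 1) ^ a := by
    rw [mul_pow, ← mul_assoc]
    exact Nat.mul_le_mul_left _ (Nat.pow_le_pow_left (by omega) _)
  have h4 : (C * c ^ a) * (T + 1) ^ a < (T + 1) ^ (a + 1) := by
    rw [pow_succ, mul_comm]
    refine Nat.mul_lt_mul_of_pos_left ?_ (Nat.pow_pos (by omega))
    omega
  omega

theorem mul_function {y : Fin (N + 1) → K} {m : ℕ} {D D' : Place ℂ K → ℚ}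
    {ω : (Fin n → Derivation ℂ K K) → K} (hω : IsSection y n m D ω) {f : K}
    (hf : ∀ P, IsPrimeDivisor y P → f = 0 ∨ -(D' P) ≤ (P.ord f : ℚ)) :
    IsSection y n m (D + D') (fun E => ω E * f) := by
  refine ⟨fun A E => ?_, fun P hP E hE => ?_⟩
  · change ω _ * f = _
    rw [hω.1 A E]
    ring
  · change ω E * f = 0 ∨ _ ≤ ((P.ord (ω E * f) : ℤ) : ℚ)
    by_cases h1 : ω E = 0
    · exact Or.inl (by rw [h1, zero_mul])
    by_cases h2 : f = 0
    · exact Or.inl (by rw [h2, mul_zero])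
    right
    rw [P.ord_mul h1 h2]
    have h3 := (hω.2 P hP E hE).resolve_left h1
    have h4 := (hf P hP).resolve_left h2
    push_cast
    simp only [Pi.add_apply]
    linarith

/-- **The Campana-Peternell inequality**, from a bound for the number of sections. -/
theorem cp_bound {y : Fin (N + 1) → K} {Δ D H : Place ℂ K → ℚ} {E : Fin n → Derivation ℂ K K}
    (hE : IsFrame E) {a C : ℕ}
    (hup : ∀ m : ℕ, 1 ≤ m → ∀ (r : ℕ) (f : Fin r → K), LinearIndependent ℂ f →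
      (∀ i, ∃ ω, IsSection y n m (m • Δ + H) ω ∧ ω E = f i) → r ≤ C * m ^ a)
    {m1 : ℕ} (hm1 : 1 ≤ m1) (hps : ∀ t : ℕ, 1 ≤ t → ∃ ω : (Fin n → Derivation ℂ K K) → K,
      ω ≠ 0 ∧ IsSection y n (t * m1) ((t * m1) • (Δ - D) + H) ω)
    {h : ℕ} (hκ : IitakaGe y D h) : h ≤ a := by
  classical
  obtain ⟨m2, hm2, f, hf0, hf, hind⟩ := hκ
  refine growth (C := C) (c := (h + 1) * m1 * m2) fun t ht => ?_
  obtain ⟨s, hs⟩ : ∃ s, s = (h + 1) * t := ⟨_, rfl⟩
  have hs1 : 1 ≤ s := by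
    rw [hs]
    exact Nat.mul_pos (Nat.succ_pos h) ht
  obtain ⟨ω, hω0, hω⟩ := hps (s * m2) (Nat.mul_pos hs1 hm2)
  have hωE : ω E ≠ 0 := fun h0 => hω0 (pluri_zero hE hω.1 h0)
  obtain ⟨T, hT⟩ : ∃ T, T = s * m1 := ⟨_, rfl⟩
  let b : (Fin h → Fin (t + 1)) → Fin (h + 1) → ℕ := fun a =>
    Fin.cons (T - ∑ i, (a i : ℕ)) fun i => (a i : ℕ)
  have hle : ∀ a : Fin h → Fin (t + 1), ∑ i, (a i : ℕ) ≤ T := by
    intro a
    have h1 : ∑ i, (a i : ℕ) ≤ ∑ _i : Fin h, t :=
      Finset.sum_le_sum fun i _ => Nat.lt_succ_iff.1 (a i).2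
    rw [Finset.sum_const, Finset.card_univ, Fintype.card_fin, smul_eq_mul] at h1
    have h2 : h * t ≤ s := by
      rw [hs]
      exact Nat.mul_le_mul_right _ (Nat.le_succ h)
    have h3 : s ≤ T := by
      rw [hT]
      exact Nat.le_mul_of_pos_right _ hm1
    omega
  have hsum : ∀ a, ∑ i, b a i = T := by
    intro a
    rw [Fin.sum_univ_succ]
    simp only [b, Fin.cons_zero, Fin.cons_succ]
    exact Nat.sub_add_cancel (hle a)
  let g : (Fin h → Fin (t + 1)) → K := fun a => ∏ i, f i ^ b a i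
  have hg : ∀ a P, IsPrimeDivisor y P → g a = 0 ∨
      -(((T * m2 : ℕ) • D) P) ≤ (P.ord (g a) : ℚ) := by
    intro a P hP
    by_cases h0 : g a = 0
    · exact Or.inl h0
    right
    have hne : ∀ i, f i ^ b a i ≠ 0 := fun i => (Finset.prod_ne_zero_iff.1 h0) i
      (Finset.mem_univ i)
    have h1 : P.ord (g a) = ∑ i, P.ord (f i ^ b a i) :=
      ord_prod P _ _ hne
    rw [h1, Pi.smul_apply, nsmul_eq_mul]
    push_cast
    have h2 : ∀ i, -((b a i : ℚ) * (m2 * D P)) ≤ (P.ord (f i ^ b a i) : ℚ) := by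
      intro i
      by_cases hb : b a i = 0
      · rw [hb, pow_zero, P.ord_one]
        simp
      have hfi : f i ≠ 0 := fun h3 => hne i (by rw [h3, zero_pow hb])
      have h3 := (hf i P hP).resolve_left hfi
      rw [P.ord_pow]
      push_cast
      have h4 := mul_le_mul_of_nonneg_left h3 (Nat.cast_nonneg (α := ℚ) (b a i))
      linarith
    calc -((T : ℚ) * m2 * D P) = ∑ i, -((b a i : ℚ) * (m2 * D P)) := by
          rw [Finset.sum_neg_distrib, ← Finset.sum_mul]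
          have h5 : ∑ i, (b a i : ℚ) = T := by exact_mod_cast hsum a
          rw [h5]
          ring
      _ ≤ ∑ i, (P.ord (f i ^ b a i) : ℚ) := Finset.sum_le_sum fun i _ => h2 i
  obtain ⟨m, hm⟩ : ∃ m, m = s * m2 * m1 := ⟨_, rfl⟩
  have hTm : T * m2 = m := by
    rw [hT, hm]
    ring
  have hsec : ∀ a, IsSection y n m (m • Δ + H) (fun F => ω F * g a) := by
    intro a
    have h1 := mul_function hω (hg a)
    rw [← hm, hTm] at h1
    have h2 : m • (Δ - D) + H + m • D = m • Δ + H := by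
      rw [smul_sub]
      abel
    rwa [h2] at h1
  have hgv : ∀ a, g a = f 0 ^ T * ∏ i : Fin h, (f i.succ / f 0) ^ (a i : ℕ) := by
    intro a
    change ∏ i, f i ^ b a i = _
    rw [Fin.prod_univ_succ]
    simp only [b, Fin.cons_zero, Fin.cons_succ, div_pow, Finset.prod_div_distrib]
    have h1 : f 0 ^ T = f 0 ^ (T - ∑ i, (a i : ℕ)) * ∏ i, f 0 ^ (a i : ℕ) := by
      rw [Finset.prod_pow_eq_pow_sum, ← pow_add, Nat.sub_add_cancel (hle a)]
    rw [h1]
    have h2 : ∏ i, f 0 ^ (a i : ℕ) ≠ 0 := Finset.prod_ne_zero_iff.2 fun i _ => pow_ne_zero _ hf0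
    field_simp
  have hlin : LinearIndependent ℂ fun a => ω E * g a := by
    have h1 : LinearIndependent ℂ fun a : Fin h → Fin (t + 1) =>
        ∏ i : Fin h, (f i.succ / f 0) ^ (a i : ℕ) :=
      (mono_indep hind).comp (fun (a : Fin h → Fin (t + 1)) i => (a i : ℕ)) (by
        intro a a' h
        funext i
        exact Fin.ext (congrFun h i))
    have hne : ω E * f 0 ^ T ≠ 0 := mul_ne_zero hωE (pow_ne_zero _ hf0)
    have h3 := h1.map' (LinearMap.mulLeft ℂ (ω E * f 0 ^ T)) (by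
      rw [LinearMap.ker_eq_bot]
      exact fun a b hab => mul_left_cancel₀ hne hab)
    have h4 : (fun a => ω E * g a) = (LinearMap.mulLeft ℂ (ω E * f 0 ^ T)) ∘
        fun a : Fin h → Fin (t + 1) => ∏ i : Fin h, (f i.succ / f 0) ^ (a i : ℕ) := by
      funext a
      change ω E * g a = ω E * f 0 ^ T * _
      rw [hgv a]
      ring
    rw [h4]
    exact h3
  have hm1' : 1 ≤ m := by
    rw [hm]
    exact Nat.mul_pos (Nat.mul_pos hs1 hm2) hm1
  let φ := Fintype.equivFin (Fin h → Fin (t + 1))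
  have h5 := hup m hm1' _ _ (hlin.comp φ.symm φ.symm.injective) fun i =>
    ⟨_, hsec (φ.symm i), rfl⟩
  rw [Fintype.card_fun, Fintype.card_fin, Fintype.card_fin] at h5
  have h6 : m = (h + 1) * m1 * m2 * t := by
    rw [hm, hs]
    ring
  rwa [h6] at h5

end

end Pool.Agent.Y191
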