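import Pool.Agent.Y191.MovAb2
import Pool.Agent.Y191.CanC

/-!
Abundance for varieties with canonical singularities which are generically finite over a relative
product of projective spaces with a moving arrangement of hyperplanes.
-/

set_option autoImplicit false
set_option linter.overlappingInstances false
set_option linter.unusedSectionVars false

open FF MvPolynomial Pool.Agent.W602.GT Pool.Agent.W603.LV Pool.Agent.W619.PQ
open Pool.Agent.Y172

namespace Pool.Agent.Y191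

section

variable {K : Type} [Field K] [Algebra ℂ K] {c : ℕ} {r q : Fin c → ℕ} {N n : ℕ}
variable {A : ∀ j, Fin (q j) → Fin (r j + 1) → K} {u : (Σ j, Fin (r j)) → K}
variable {L : IntermediateField ℂ K} {y : Fin (N + 1) → K} {w : ∀ j, Fin (q j) → ℚ}

/-- The ramification over the relative product of projective spaces: let `P` be a place over the
prime divisor `g = 0` of an affine chart over the algebraic closure `F` of `L`; if `e j i` is the
multiplicity of the `i`-th hyperplane of the `j`-th factor at `P`, then the ramification index of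
`P` is at most `1 + ∑ w j i * e j i`. -/
def Ram (L : IntermediateField ℂ K) (A : ∀ j, Fin (q j) → Fin (r j + 1) → K)
    (u : (Σ j, Fin (r j)) → K) (w : ∀ j, Fin (q j) → ℚ) : Prop :=
  ∀ (a : ∀ j, Option (Fin (r j))) (P : Place ℂ K)
    (g : MvPolynomial (Σ j, Fin (r j)) (acl ℂ (L : Set K))), Irreducible g →
    AdicF P (chrt a u) g → ∀ (c' : Fin c → ℤ) (e : ∀ j, Fin (q j) → ℕ),
      (∀ j, MOrd P (A j) (hcd u j) (c' j) (e j)) →
        (P.ord (aeval (chrt a u) g) - 1) ≤ ∑ j, ∑ i, w j i * e j i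

/-- the places over the divisors of the affine chart -/
theorem ram_fin (hA : MovArr L A) (hl : ∀ j i, lmv A u j i ≠ 0) (hC : Ram L A u w)
    {P : Place ℂ K} {g : MvPolynomial (Σ j, Fin (r j)) (acl ℂ (L : Set K))} (hg : Irreducible g)
    (hP : AdicF P u g) :
      ∀ m : ℕ, 1 ≤ m → (m : ℝ) * ((P.ord (aeval u g) - 1)) ≤ P.ord (phi A u w m) := by
  have h2 := hC (fun _ => none) P g hg hP
  intro m _
  obtain ⟨c', ε, h⟩ := exists_mords hA hl (hP.triv hg.not_isUnit)
  have h3 := h2 c' ε h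
  rw [chrt_none] at h3
  have hc : ∀ j, c' j = 0 := fun j => mord_zero (h j) fun k => by
    have h4 := (hP (X ⟨j, k⟩) (X_ne_zero _)).1
    rw [aeval_X] at h4
    exact Or.inr h4
  have h5 : ∀ j i, P.ord (lmv A u j i) = ε j i := fun j i => by
    have h6 := (h j).2.2 i
    rw [hc j, zero_add] at h6
    exact h6
  rw [ord_phi hl]
  have h6 : (m : ℚ) * ((P.ord (aeval u g) - 1)) ≤
      ((∑ j, ∑ i, (⌈(m : ℚ) * w j i⌉₊ : ℤ) * P.ord (lmv A u j i) : ℤ) : ℚ) := by
    have h7 : (m : ℚ) * (∑ j, ∑ i, w j i * ε j i) ≤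
        ∑ j, ∑ i, ((⌈(m : ℚ) * w j i⌉₊ : ℕ) : ℚ) * ε j i := by
      rw [Finset.mul_sum]
      refine Finset.sum_le_sum fun j _ => ?_
      rw [Finset.mul_sum]
      refine Finset.sum_le_sum fun i _ => ?_
      rw [← mul_assoc]
      exact mul_le_mul_of_nonneg_right (Nat.le_ceil _) (Nat.cast_nonneg _)
    have h8 := mul_le_mul_of_nonneg_left h3 (Nat.cast_nonneg (α := ℚ) m)
    refine h8.trans (h7.trans (le_of_eq ?_))
    push_cast
    refine Finset.sum_congr rfl fun j _ => Finset.sum_congr rfl fun i _ => ?_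
    rw [h5 j i]
    push_cast
    rfl
  exact_mod_cast h6

/-- the places over the hyperplane at infinity of a factor -/
theorem ram_inf (hA : MovArr L A) (hl : ∀ j i, lmv A u j i ≠ 0)
    (hw0 : ∀ j i, 0 ≤ w j i) (hC : Ram L A u w) {j0 : Fin c} (hr : 1 ≤ r j0) {P : Place ℂ K}
    {ρ : ℕ} (hρ : 1 ≤ ρ) (hP : DegF (acl ℂ (L : Set K)) P u (blk r j0) ρ) :
      ∀ m : ℕ, 1 ≤ m → (m : ℝ) * (ρ - 1) +
        m * (((r j0 + 1 : ℚ) - ∑ i, w j0 i : ℚ) * ρ) ≤
        P.ord (phi A u w m) + m * (ρ * ((blk r j0).card + 1)) +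
          ((∑ j, q j) * ∑ s, (P.ord (u s)).natAbs : ℕ) := by
  have hmem : (⟨j0, ⟨0, hr⟩⟩ : Σ j, Fin (r j)) ∈ blk r j0 := by
    unfold blk
    rw [Finset.mem_filter]
    exact ⟨Finset.mem_univ _, rfl⟩
  obtain ⟨ha1, ha2⟩ := hP.adic hρ hmem
  have ha3 := chrt_some u j0 ⟨0, hr⟩
  have h2 := hC (Function.update (fun _ => none) j0 (some ⟨0, hr⟩)) P (X ⟨j0, ⟨0, hr⟩⟩)
    X_prime.irreducible (by rw [ha3]; exact ha2)
  intro m _
  rw [ha3, aeval_X, ha1] at h2
  obtain ⟨c', ε, h⟩ := exists_mords hA hl (ha2.triv X_prime.irreducible.not_isUnit)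
  have h3 := h2 c' ε h
  have hord : ∀ s : Σ j, Fin (r j), s ∉ blk r j0 → P.ord (u s) = 0 := by
    intro s hs
    have h4 := hP (X s) (X_ne_zero _)
    rw [aeval_X] at h4
    have h5 : bd (blk r j0) (X s : MvPolynomial (Σ j, Fin (r j)) (acl ℂ (L : Set K))) = 0 := by
      rw [bd, bdeg, aeval_X, if_neg hs, Polynomial.natDegree_C]
    rw [h4, h5]
    simp
  have hc0 : c' j0 = -(ρ : ℤ) := mord_inf (h j0) hρ hr fun k => hP.ord_U (by
    unfold blk
    rw [Finset.mem_filter]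
    exact ⟨Finset.mem_univ _, rfl⟩)
  have hc : ∀ j, j ≠ j0 → c' j = 0 := fun j hj => mord_zero (h j) fun k => by
    right
    rw [hord]
    intro hs
    unfold blk at hs
    rw [Finset.mem_filter] at hs
    exact hj hs.2
  have h5 : ∀ j i, P.ord (lmv A u j i) = ε j i - (if j = j0 then (ρ : ℤ) else 0) := fun j i => by
    have h6 := (h j).2.2 i
    change P.ord (lmv A u j i) = _ at h6
    rw [h6]
    by_cases hj : j = j0
    · have h7 : c' j = -(ρ : ℤ) := by
        rw [hj]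
        exact hc0
      rw [if_pos hj, h7]
      ring
    · rw [if_neg hj, hc j hj]
      ring
  rw [ord_phi hl, card_blk]
  have hB : (q j0 : ℚ) * ρ ≤ (((∑ j, q j) * ∑ s, (P.ord (u s)).natAbs : ℕ) : ℚ) := by
    have h7 : q j0 ≤ ∑ j, q j := Finset.single_le_sum (fun _ _ => Nat.zero_le _)
      (Finset.mem_univ j0)
    have h8 : ρ ≤ ∑ s, (P.ord (u s)).natAbs := by
      refine le_trans ?_ (Finset.single_le_sum (f := fun s => (P.ord (u s)).natAbs)
        (fun _ _ => Nat.zero_le _) (Finset.mem_univ (⟨j0, ⟨0, hr⟩⟩ : Σ j, Fin (r j))))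
      have h9 := hP.ord_U hmem
      omega
    exact_mod_cast Nat.mul_le_mul h7 h8
  have h6 : (m : ℚ) * (ρ - 1) + m * (((r j0 + 1 : ℚ) - ∑ i, w j0 i) * ρ) ≤
      ((∑ j, ∑ i, (⌈(m : ℚ) * w j i⌉₊ : ℤ) * P.ord (lmv A u j i) : ℤ) : ℚ) +
        m * (ρ * (r j0 + 1)) + (((∑ j, q j) * ∑ s, (P.ord (u s)).natAbs : ℕ) : ℚ) := by
    have h7 : (m : ℚ) * (∑ j, ∑ i, w j i * ε j i) ≤
        ∑ j, ∑ i, ((⌈(m : ℚ) * w j i⌉₊ : ℕ) : ℚ) * ε j i := by
      rw [Finset.mul_sum]
      refine Finset.sum_le_sum fun j _ => ?_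
      rw [Finset.mul_sum]
      refine Finset.sum_le_sum fun i _ => ?_
      rw [← mul_assoc]
      exact mul_le_mul_of_nonneg_right (Nat.le_ceil _) (Nat.cast_nonneg _)
    have h8 : ((∑ j, ∑ i, (⌈(m : ℚ) * w j i⌉₊ : ℤ) * P.ord (lmv A u j i) : ℤ) : ℚ) =
        ∑ j, ∑ i, ((⌈(m : ℚ) * w j i⌉₊ : ℕ) : ℚ) * ε j i -
          (∑ i, ((⌈(m : ℚ) * w j0 i⌉₊ : ℕ) : ℚ)) * ρ := by
      push_cast
      have h9 : ∀ j, ∑ i, ((⌈(m : ℚ) * w j i⌉₊ : ℕ) : ℚ) * (P.ord (lmv A u j i) : ℚ) =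
          ∑ i, ((⌈(m : ℚ) * w j i⌉₊ : ℕ) : ℚ) * ε j i -
            (if j = j0 then (∑ i, ((⌈(m : ℚ) * w j i⌉₊ : ℕ) : ℚ)) * ρ else 0) := by
        intro j
        have h10 : ∀ i, ((⌈(m : ℚ) * w j i⌉₊ : ℕ) : ℚ) * (P.ord (lmv A u j i) : ℚ) =
            ((⌈(m : ℚ) * w j i⌉₊ : ℕ) : ℚ) * ε j i -
              (if j = j0 then ((⌈(m : ℚ) * w j i⌉₊ : ℕ) : ℚ) * ρ else 0) := by
          intro i
          rw [h5 j i]
          split_ifs
          · push_cast
            ring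
          · push_cast
            ring
        rw [Finset.sum_congr rfl fun i _ => h10 i, Finset.sum_sub_distrib]
        split_ifs
        · rw [Finset.sum_mul]
        · rw [Finset.sum_const_zero]
      rw [Finset.sum_congr rfl fun j _ => h9 j, Finset.sum_sub_distrib, Finset.sum_ite_eq',
        if_pos (Finset.mem_univ _)]
    have h9 : (∑ i, ((⌈(m : ℚ) * w j0 i⌉₊ : ℕ) : ℚ)) ≤ m * ∑ i, w j0 i + q j0 := by
      have h10 : ∀ i, ((⌈(m : ℚ) * w j0 i⌉₊ : ℕ) : ℚ) ≤ m * w j0 i + 1 := fun i =>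
        (Nat.ceil_lt_add_one (mul_nonneg (Nat.cast_nonneg _) (hw0 j0 i))).le
      refine (Finset.sum_le_sum fun i _ => h10 i).trans (le_of_eq ?_)
      rw [Finset.sum_add_distrib, Finset.mul_sum, Finset.sum_const, Finset.card_univ,
        Fintype.card_fin, nsmul_eq_mul, mul_one]
    have h10 := mul_le_mul_of_nonneg_right h9 (Nat.cast_nonneg (α := ℚ) ρ)
    have h11 := mul_le_mul_of_nonneg_left h3 (Nat.cast_nonneg (α := ℚ) m)
    rw [h8]
    push_cast at h11 ⊢
    push_cast at hB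
    nlinarith
  have h7 := (Rat.cast_le (K := ℝ)).2 h6
  push_cast at h7 ⊢
  exact h7

/-- **Abundance**, abstract form. -/
theorem mov_can (hy : NormalModel y) (hn : Algebra.trdeg ℂ K = n) (hcan : Canonical y n)
    (hA : MovArr L A) (hne : ∀ j i, ∃ k, A j i k ≠ 0) (hu : IsTranscendenceBasis L u)
    (hr : ∀ j, 1 ≤ r j) (hw0 : ∀ j i, 0 ≤ w j i) (hw1 : ∀ j i, w j i ≤ 1)
    (hC : Ram L A u w) :
    ((∃ j, ∑ i, w j i < r j + 1) → kodairaDim y n 0 = ⊥ ∧
      ∀ A, Effective y A → numericalDim y n 0 A = ⊥) ∧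
    ∀ a : ℕ, (∀ j, (r j + 1 : ℚ) ≤ ∑ i, w j i) →
      n = a + ∑ j, (if ∑ i, w j i = r j + 1 then r j else 0) →
      KodairaGe n {P | IsPrimeDivisor y P} (fun _ => 0) a →
      kodairaDim y n 0 = (a : WithBot ℕ) ∧
        ∀ A, Effective y A → Integral y A → numericalDim y n 0 A = (a : EReal) := by
  classical
  have hess := hy.ess
  have hl := lmv_ne' hA hne hu
  have hΔ : Effective y (0 : Place ℂ K → ℚ) := ⟨fun _ _ => le_rfl, by simp⟩
  have e0 : ∀ (m : ℕ) (B : Place ℂ K → ℚ), m • (0 : Place ℂ K → ℚ) + B = B := fun m B => by simp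
  obtain ⟨p, z, e, D, hF⟩ := exists_FrF hn (acl_closed (L : Set K)) (basis_acl hu)
  obtain ⟨Sφ, hSφ⟩ := phi_reg (A := A) (u := u) (w := w)
  constructor
  · rintro ⟨j0, hj0⟩
    have hmem : (⟨j0, ⟨0, hr j0⟩⟩ : Σ j, Fin (r j)) ∈ blk r j0 := by
      unfold blk
      rw [Finset.mem_filter]
      exact ⟨Finset.mem_univ _, rfl⟩
    have hz : ∀ A', Effective y A' → kodairaDim y n 0 = ⊥ ∧ numericalDim y n 0 A' = ⊥ := by
      intro A' hA'
      refine not_psef hA' fun h => ?_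
      obtain ⟨m0, hm0⟩ := zero_can (A := A') hy hcan hA' hn hF (phi_ne (w := w) hl)
        (fun P g hg hPg => ram_fin hA hl hC hg hPg) hmem
        (fun P => (∑ j, q j) * ∑ s, (P.ord (u s)).natAbs)
        (τ := (((r j0 + 1 : ℚ) - ∑ i, w j0 i : ℚ) : ℝ)) (by
          have : (0 : ℚ) < (r j0 + 1 : ℚ) - ∑ i, w j0 i := by linarith
          exact_mod_cast this)
        (fun P ρ hρ hP => ram_inf hA hl hw0 hC (hr j0) hρ hP)
      obtain ⟨m', hm', s', hs', hs'0⟩ := h m0
      rw [e0] at hs'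
      exact hs'0 (hm0 m' hm' s' hs')
    exact ⟨(hz 0 hΔ).1, fun A' hA' => (hz A' hA').2⟩
  · intro a hws hna hK
    obtain ⟨m0, hm0, ω, hω, E', h4, h5⟩ := hK
    let ι := {j : Fin c // ∑ i, w j i = r j + 1}
    let T : Finset (Σ j, Fin (r j)) := Finset.univ.filter fun s => ∑ i, w s.1 i = r s.1 + 1
    have hT : T.card = ∑ j, (if ∑ i, w j i = r j + 1 then r j else 0) := by
      rw [Finset.card_filter, Fintype.sum_sigma]
      refine Finset.sum_congr rfl fun j _ => ?_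
      change ∑ _k : Fin (r j), (if ∑ i, w j i = r j + 1 then 1 else 0) = _
      rw [Finset.sum_const, Finset.card_univ, Fintype.card_fin, smul_eq_mul, mul_ite, mul_one,
        mul_zero]
    rw [← hT] at hna
    have hup : ∀ A, Effective y A → ∃ C : ℕ, ∀ m : ℕ, 1 ≤ m → ∀ (r : ℕ) (f : Fin r → K),
        LinearIndependent ℂ f →
        (∀ i, ∃ ω, Pool.Agent.Y172.IsSection y n m (m • (0 : Place ℂ K → ℚ) + A) ω ∧
          ω D = f i) →
        r ≤ C * m ^ a := by
      intro A' hA'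
      simp only [e0]
      refine up_can (ι := ι) (J := fun j => blk r j.1)
        (l := fun j => ⟨j.1, ⟨0, hr j.1⟩⟩) (T := T) hy hcan hA' hn hF (phi_ne (w := w) hl)
        (phi_lin hl hw1) hSφ (fun P g hg hPg => ram_fin hA hl hC hg hPg)
        (fun j => by
          unfold blk
          rw [Finset.mem_filter]
          exact ⟨Finset.mem_univ _, rfl⟩)
        (fun P => (∑ j, q j) * ∑ s, (P.ord (u s)).natAbs) (fun j P ρ hρ hP => ?_)
        (fun s hs => ?_) hna
      · have h7 := ram_inf hA hl hw0 hC (hr j.1) hρ hP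
        intro m hm
        have h8 := h7 m hm
        have h9 : ((r j.1 + 1 : ℚ) - ∑ i, w j.1 i) = 0 := by
          rw [j.2]
          ring
        rw [h9, Rat.cast_zero, zero_mul, mul_zero, add_zero] at h8
        exact h8
      · rw [Finset.mem_filter] at hs
        refine ⟨⟨s.1, hs.2⟩, ?_⟩
        unfold blk
        rw [Finset.mem_filter]
        exact ⟨Finset.mem_univ _, rfl⟩
    refine dims hΔ hF.frame hup hm0 (ω := ω) (fun j => ⟨(hω j).1, fun P hP G hG => ?_⟩) h4 h5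
    rcases (hω j).2 P hP (hP.divisorial hy hn) G hG with h6 | h6
    · exact Or.inl h6
    · right
      have e1 : -((m0 • (0 : Place ℂ K → ℚ)) P) = 0 := by simp
      rw [e1]
      rw [mul_zero, neg_zero] at h6
      have h7 : (0 : ℤ) ≤ P.ord (ω j G) := by exact_mod_cast h6
      exact_mod_cast h7

end

end Pool.Agent.Y191
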