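import Pool.Agent.Y191.LiftDet
import Pool.Agent.Y191.MovKod

/-!
The forms along the fibres of an arrangement on a finite extension.
-/

set_option autoImplicit false
set_option linter.overlappingInstances false
set_option linter.unusedSectionVars false

open FF Pool.Agent.W602.GT Pool.Agent.W603.LV Pool.Agent.TH585.SV Pool.Agent.W619.PQ
open Pool.Agent.Y172

namespace Pool.Agent.Y191

section

variable {K : Type} [Field K] [Algebra ℂ K] {c : ℕ} {r q : Fin c → ℕ}
variable {A : ∀ j, Fin (q j) → Fin (r j + 1) → K} {u : (Σ j, Fin (r j)) → K}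
variable {L : IntermediateField ℂ K}

/-- **The estimate at places which are trivial on the coefficients.** -/
theorem movf_gen {e M : ℕ} {P : Place ℂ K} (σ : (Σ j, Fin (r j)) ≃ Fin e)
    {s : ∀ j, Fin (q j) → ℕ} (hs : ∀ j, ∑ i, s j i = (r j + 1) * M)
    (hq : ∀ j, r j + 1 ≤ q j) {C : K} (hC : Ge P 0 C)
    (hA : ∀ j i k, Ge P 0 (A j i k))
    (hdet : ∀ j (I : Fin (r j + 1) → Fin (q j)), Function.Injective I →
      (Matrix.of fun k a => A j (I k) a).det ≠ 0 ∧
      P.ord (Matrix.of fun k a => A j (I k) a).det = 0)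
    (hl : ∀ j i, lmv A u j i ≠ 0) {G : Fin e → Derivation ℂ K K}
    (hG : ∀ l j i k, G l (A j i k) = 0) {ν : ℤ}
    (hN : ∀ I : ∀ j, Fin (r j + 1) → Fin (q j), (∀ j, Function.Injective (I j)) →
      Ge P (-ν) (Matrix.of fun i l => G i (quo A u I (σ.symm l)) / quo A u I (σ.symm l)).det)
    {c' : Fin c → ℤ} {ε : ∀ j, Fin (q j) → ℕ} (ho : ∀ j, MOrd P (A j) (hcd u j) (c' j) (ε j)) :
    Ge P (∑ j, ∑ i, ((M : ℤ) - s j i) * ε j i - M * ν)
      (movf σ A u M s C G) := by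
  classical
  have hb : ∀ j, ∃ I : Fin (r j + 1) → Fin (q j), Function.Injective I ∧ ε j (I 0) = 0 ∧
      ∀ i, ε j i ≠ 0 → ∃ k, I k = i := fun j =>
    exists_basis (hq j) fun I hI => gen_pos (hA j) (ho j) (hdet j I hI).1 (hdet j I hI).2
  choose I hIi hI0 hIe using hb
  have hlo : ∀ j i, P.ord (lmv A u j i) = c' j + ε j i := fun j i => (ho j).2.2 i
  have hcd0 : cdet A I ≠ 0 := Finset.prod_ne_zero_iff.2 fun j _ => (hdet j (I j) (hIi j)).1
  have hcdo : P.ord (cdet A I) = 0 := by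
    unfold cdet
    rw [ord_prod P _ _ fun j => (hdet j (I j) (hIi j)).1]
    exact Finset.sum_eq_zero fun j _ => (hdet j (I j) (hIi j)).2
  obtain ⟨Λ, hΛ⟩ : ∃ Λ, Λ = ∏ j, ∏ k, lmv A u j (I j k) := ⟨_, rfl⟩
  have hΛ0 : Λ ≠ 0 := by
    rw [hΛ]
    exact Finset.prod_ne_zero_iff.2 fun j _ => Finset.prod_ne_zero_iff.2 fun i _ => hl _ _
  obtain ⟨den, hden⟩ : ∃ den, den = ∏ j, ∏ i, lmv A u j i ^ s j i := ⟨_, rfl⟩
  have hden0 : den ≠ 0 := by
    rw [hden]
    exact Finset.prod_ne_zero_iff.2 fun j _ => Finset.prod_ne_zero_iff.2 fun i _ =>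
      pow_ne_zero _ (hl j i)
  have hΛo : P.ord Λ = ∑ j, ((r j + 1 : ℕ) * c' j + ∑ i, (ε j i : ℤ)) := by
    rw [hΛ, ord_prod P _ _ fun j => Finset.prod_ne_zero_iff.2 fun i _ => hl _ _]
    refine Finset.sum_congr rfl fun j _ => ?_
    rw [ord_prod P _ _ fun k => hl _ _]
    simp only [hlo]
    rw [Finset.sum_add_distrib, Finset.sum_const, Finset.card_univ, Fintype.card_fin, nsmul_eq_mul]
    congr 1
    have h1 : ∑ i, (ε j i : ℤ) = ∑ i ∈ Finset.univ.image (I j), (ε j i : ℤ) := by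
      symm
      refine Finset.sum_subset (Finset.subset_univ _) fun i _ hi => ?_
      by_contra h0
      obtain ⟨k, hk⟩ := hIe j i (by exact_mod_cast h0)
      exact hi (Finset.mem_image.2 ⟨k, Finset.mem_univ _, hk⟩)
    rw [h1, Finset.sum_image fun a _ b _ hab => hIi j hab]
  have hdo : P.ord den = ∑ j, ((M : ℤ) * ((r j + 1 : ℕ) * c' j) + ∑ i, (s j i : ℤ) * ε j i) := by
    rw [hden, ord_prod P _ _ fun j => Finset.prod_ne_zero_iff.2 fun i _ =>
      pow_ne_zero _ (hl j i)]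
    refine Finset.sum_congr rfl fun j _ => ?_
    rw [ord_prod P _ _ fun i => pow_ne_zero _ (hl j i)]
    have h1 : ∀ i, P.ord (lmv A u j i ^ s j i) = s j i * c' j + s j i * ε j i := by
      intro i
      rw [P.ord_pow, hlo]
      ring
    simp only [h1]
    rw [Finset.sum_add_distrib, ← Finset.sum_mul]
    congr 1
    have h2 : ∑ i, (s j i : ℤ) = (r j + 1 : ℕ) * M := by exact_mod_cast hs j
    rw [h2]
    ring
  obtain ⟨N, hNe⟩ : ∃ N, N = (Matrix.of fun i l => G i (quo A u I (σ.symm l)) /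
    quo A u I (σ.symm l)).det := ⟨_, rfl⟩
  have hNge : Ge P (-ν) N := by
    rw [hNe]
    exact hN I hIi
  have hmain := det_quo σ hG hl I
  rw [← hNe, ← hΛ] at hmain
  obtain ⟨Dt, hDt⟩ : ∃ Dt, Dt = (Matrix.of fun i l => G i (u (σ.symm l))).det := ⟨_, rfl⟩
  rw [← hDt] at hmain
  have hD : Dt = N * Λ / cdet A I := by
    rw [hmain, mul_div_cancel_right₀ _ hcd0]
  have h1 : movf σ A u M s C G = C * (N ^ M * (Λ ^ M / (cdet A I ^ M * den))) := by
    unfold movf
    rw [← hDt, ← hden, hD, div_pow, mul_pow]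
    field_simp
  rw [h1]
  have h2 := hC.mul ((hNge.pow M).mul (Pool.Agent.W602.GT.ge_ord P (Λ ^ M / (cdet A I ^ M * den))))
  refine h2.mono (le_of_eq ?_)
  rw [P.ord_div (pow_ne_zero _ hΛ0) (mul_ne_zero (pow_ne_zero _ hcd0) hden0),
    P.ord_mul (pow_ne_zero _ hcd0) hden0, P.ord_pow, P.ord_pow, hcdo, hΛo, hdo, Finset.mul_sum]
  have h3 : ∑ j, ∑ i, ((M : ℤ) - s j i) * ε j i =
      ∑ j, ((M : ℤ) * ((r j + 1 : ℕ) * c' j + ∑ i, (ε j i : ℤ))) -
      ∑ j, ((M : ℤ) * ((r j + 1 : ℕ) * c' j) + ∑ i, (s j i : ℤ) * ε j i) := by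
    rw [← Finset.sum_sub_distrib]
    refine Finset.sum_congr rfl fun j _ => ?_
    rw [mul_add, Finset.mul_sum, add_sub_add_left_eq_sub, ← Finset.sum_sub_distrib]
    refine Finset.sum_congr rfl fun i _ => ?_
    ring
  rw [h3]
  ring

/-- **The forms along the fibres.** -/
theorem mov_forms {e lam : ℕ} (hA : MovArr L A) (σ : (Σ j, Fin (r j)) ≃ Fin e)
    (hu : IsTranscendenceBasis L u) {w : ∀ j, Fin (q j) → ℚ} (hw0 : ∀ j i, 0 ≤ w j i)
    (hw1 : ∀ j i, w j i ≤ 1) (hws : ∀ j, (r j + 1 : ℚ) ≤ ∑ i, w j i)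
    {κ : Fin lam → Σ j, Fin (r j)} (hκ : Function.Injective κ)
    (hκs : ∀ i, (r (κ i).1 + 1 : ℚ) < ∑ i', w (κ i).1 i')
    :
    ∃ M : ℕ, 0 < M ∧ (∀ j, r j + 1 ≤ q j) ∧ (∀ j i, lmv A u j i ≠ 0) ∧
      ∃ (v : Fin (lam + 1) → ∀ j, Fin (q j) → ℕ)
      (J : Fin (lam + 1) → Fin M → ∀ j, Fin (r j + 1) → Fin (q j)),
      (∀ b, Adm r q w M (v b)) ∧
      (∀ b j (f : Fin (q j) → K), ∏ t, ∏ k, f (J b t j k) = ∏ i, f i ^ v b j i) ∧
      ∃ G : Fin e → Derivation L K K,
        movf σ A u M (v 0) (∏ t, cdet A (J 0 t)) (fun i => (G i).restrictScalars ℂ) ≠ 0 ∧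
        AlgebraicIndependent L (fun i : Fin lam =>
          movf σ A u M (v i.succ) (∏ t, cdet A (J i.succ t)) (fun i => (G i).restrictScalars ℂ) /
          movf σ A u M (v 0) (∏ t, cdet A (J 0 t)) (fun i => (G i).restrictScalars ℂ)) := by
  classical
  have hcL : CharZero L := charZero_of_injective_algebraMap (algebraMap ℂ L).injective
  choose I hI hIw using fun j => exists_pos_basis (hw0 j) (hw1 j) (hws j)
  have hq : ∀ j, r j + 1 ≤ q j := by
    intro j
    have := Fintype.card_le_of_injective (I j) (hI j)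
    simpa using this
  have hl := lmv_ne hA hu hq
  obtain ⟨τ, hτ⟩ : ∃ τ : Fin c → ℚ, ∀ j, τ j = (r j + 1) / ∑ i, w j i := ⟨_, fun _ => rfl⟩
  have hsum : ∀ j, 0 < ∑ i, w j i := fun j => lt_of_lt_of_le (by positivity) (hws j)
  have hτ0 : ∀ j, 0 < τ j := fun j => by
    rw [hτ]
    exact div_pos (by positivity) (hsum j)
  have hτ1 : ∀ j, τ j ≤ 1 := fun j => by
    rw [hτ, div_le_one (hsum j)]
    exact hws j
  have hτs : ∀ j, τ j * ∑ i, w j i = r j + 1 := fun j => by
    rw [hτ, div_mul_cancel₀ _ (hsum j).ne']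
  obtain ⟨M, hM, hMf⟩ := exists_cden (ι := (Σ j, Fin (q j)) ⊕ (Σ j, Fin (q j)))
    (Sum.elim (fun x => τ x.1 * w x.1 x.2) fun x => w x.1 x.2) (by
      rintro (x | x)
      · exact mul_nonneg (hτ0 _).le (hw0 _ _)
      · exact hw0 _ _)
  have hM' : (0 : ℚ) < M := by exact_mod_cast hM
  choose s hs using fun j i => hMf (Sum.inl ⟨j, i⟩)
  choose sw hsw using fun j i => hMf (Sum.inr ⟨j, i⟩)
  change ∀ j i, (s j i : ℚ) = M * (τ j * w j i) at hs
  change ∀ j i, (sw j i : ℚ) = M * w j i at hsw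
  have hadm : Adm r q w M s := by
    constructor
    · intro j
      have h1 : ((∑ i, s j i : ℕ) : ℚ) = (((r j + 1) * M : ℕ) : ℚ) := by
        push_cast
        simp only [hs]
        rw [← Finset.mul_sum, ← Finset.mul_sum, hτs]
        ring
      exact_mod_cast h1
    · intro j i
      rw [hs]
      exact mul_le_mul_of_nonneg_left (mul_le_of_le_one_left (hw0 j i) (hτ1 j)) hM'.le
  have hpos : ∀ j k, 1 ≤ s j (I j k) := by
    intro j k
    have h1 : (0 : ℚ) < s j (I j k) := by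
      rw [hs]
      exact mul_pos hM' (mul_pos (hτ0 j) (hIw j k))
    exact_mod_cast h1
  have hgap : ∀ j k, (r j + 1 : ℚ) < ∑ i, w j i → (s j (I j k) + 1 : ℚ) ≤ M * w j (I j k) := by
    intro j k hj
    have h1 : τ j < 1 := by
      rw [hτ, div_lt_one (hsum j)]
      exact hj
    have h2 : (s j (I j k) : ℚ) < sw j (I j k) := by
      rw [hs, hsw]
      refine mul_lt_mul_of_pos_left ?_ hM'
      have := hIw j k
      nlinarith
    have h3 : s j (I j k) + 1 ≤ sw j (I j k) := by exact_mod_cast h2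
    rw [← hsw]
    exact_mod_cast h3
  -- the exponents
  obtain ⟨v, hv⟩ : ∃ v : Fin (lam + 1) → ∀ j, Fin (q j) → ℕ,
      v = Fin.cons s fun i => chg s I (κ i) := ⟨_, rfl⟩
  have hv0 : v 0 = s := by rw [hv]; rfl
  have hvs : ∀ i : Fin lam, v i.succ = chg s I (κ i) := fun i => by rw [hv]; rfl
  have hvadm : ∀ b, Adm r q w M (v b) := by
    intro b
    refine Fin.cases ?_ (fun i => ?_) b
    · rw [hv0]
      exact hadm
    · rw [hvs]
      exact hadm.chg hI (hpos _ _) (hgap _ _ (hκs i))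
  choose J hJ1 hJ2 using fun b => (hvadm b).seq (K := K) hw1
  obtain ⟨C, hC⟩ : ∃ C : Fin (lam + 1) → K, ∀ b, C b = ∏ t, cdet A (J b t) := ⟨_, fun _ => rfl⟩
  have hC0 : ∀ b, C b ≠ 0 := fun b => by
    rw [hC]
    exact Finset.prod_ne_zero_iff.2 fun t _ => hA.cdet_ne (hJ1 b t)
  have hCa : ∀ b, IsAlgebraic L (C b) := fun b => by
    rw [hC]
    have h1 : (∏ t, cdet A (J b t)) ∈ algebraicClosure L K :=
      prod_mem fun t _ => mem_algebraicClosure_iff.2 (hA.alg_cdet _)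
    exact mem_algebraicClosure_iff.1 h1
  refine ⟨M, hM, hq, hl, v, J, hvadm, hJ2, ?_⟩
  have hG : ∀ l : Fin e, ∃ D : Derivation L K K, ∀ x, D (u x) = if σ x = l then 1 else 0 :=
    fun l => exists_der (L := L) u hu _
  choose G hG using hG
  have hval : ∀ b, movf σ A u M (v b) (∏ t, cdet A (J b t)) (fun i =>
      (G i).restrictScalars ℂ) = C b / ∏ j, ∏ i, lmv A u j i ^ v b j i := by
    intro b
    unfold movf
    have h1 : (Matrix.of fun i l => ((G i).restrictScalars ℂ) (u (σ.symm l))) = 1 := by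
      ext i l
      rw [Matrix.of_apply, Matrix.one_apply]
      have h2 := hG i (σ.symm l)
      rw [Equiv.apply_symm_apply] at h2
      change (G i) (u (σ.symm l)) = _
      rw [h2]
      by_cases h : i = l
      · rw [if_pos h, if_pos h.symm]
      · rw [if_neg h, if_neg (Ne.symm h)]
    rw [h1, Matrix.det_one, one_pow, mul_one, ← hC]
  have hden : ∀ b, ∏ j, ∏ i, lmv A u j i ^ v b j i ≠ 0 := fun b =>
    Finset.prod_ne_zero_iff.2 fun j _ => Finset.prod_ne_zero_iff.2 fun i _ => pow_ne_zero _ (hl j i)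
  refine ⟨G, ?_, ?_⟩
  · change movf σ A u M (v 0) (∏ t, cdet A (J 0 t)) (fun i => (G i).restrictScalars ℂ) ≠ 0
    rw [hval]
    exact div_ne_zero (hC0 0) (hden 0)
  · simp only [hval]
    have h1 : ∀ i : Fin lam, C i.succ / (∏ j, ∏ i', lmv A u j i' ^ v i.succ j i') /
        (C 0 / ∏ j, ∏ i', lmv A u j i' ^ v 0 j i') = (C i.succ / C 0) * quo A u I (κ i) := by
      intro i
      have h2 := chg_prod (s := s) hI (x := κ i) (hpos _ _) (lmv A u)
      rw [← hvs, ← hv0] at h2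
      have h3 := hden i.succ
      have h4 := hden 0
      have h5 := hC0 0
      have h6 := hl (κ i).1 (I (κ i).1 0)
      change _ = (C i.succ / C 0) * (lmv A u (κ i).1 (I (κ i).1 (κ i).2.succ) /
        lmv A u (κ i).1 (I (κ i).1 0))
      rw [div_div_div_eq, div_mul_div_comm, div_eq_div_iff (mul_ne_zero h3 h5)
        (mul_ne_zero h5 h6)]
      linear_combination (-(C i.succ * C 0)) * h2
    rw [funext h1]
    obtain ⟨κ', hκ'⟩ : ∃ κ' : (Σ j, Fin (r j)) → K, ∀ x, κ' x =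
        if h : ∃ i, κ i = x then C h.choose.succ / C 0 else 1 := ⟨_, fun _ => rfl⟩
    have h2 : ∀ i, κ' (κ i) = C i.succ / C 0 := by
      intro i
      have h3 : ∃ i', κ i' = κ i := ⟨i, rfl⟩
      rw [hκ', dif_pos h3, hκ h3.choose_spec]
    have h3 := quo_basis hA hu hl hI (κ := κ') (fun x => by
        rw [hκ']
        split_ifs with h
        · exact mem_algebraicClosure_iff.1 (div_mem (mem_algebraicClosure_iff.2 (hCa _))
            (mem_algebraicClosure_iff.2 (hCa 0)))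
        · exact isAlgebraic_one)
      (fun x => by
        rw [hκ']
        split_ifs with h
        · exact div_ne_zero (hC0 _) (hC0 0)
        · exact one_ne_zero)
    have h4 := h3.1.comp κ hκ
    have h5 : (fun i => (C i.succ / C 0) * quo A u I (κ i)) =
        (fun x => κ' x * quo A u I x) ∘ κ := by
      funext i
      change _ = κ' (κ i) * quo A u I (κ i)
      rw [h2]
    rw [h5]
    exact h4

end

end Pool.Agent.Y191
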