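import Pool.Agent.Y191.CorForm

/-!
Sections along the fibres from an arrangement on a finite extension.
-/

set_option autoImplicit false
set_option linter.overlappingInstances false
set_option linter.unusedSectionVars false

open FF Pool.Agent.W602.GT Pool.Agent.W603.LV Pool.Agent.TH585.SV Pool.Agent.W619.PQ
open Pool.Agent.Y172

namespace Pool.Agent.Y191

theorem movf_pluri {K : Type} [Field K] [Algebra ℂ K] {c : ℕ} {r q : Fin c → ℕ}
    {A : ∀ j, Fin (q j) → Fin (r j + 1) → K} {u : (Σ j, Fin (r j)) → K}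
    {L : IntermediateField ℂ K} {e M : ℕ} (σ : (Σ j, Fin (r j)) ≃ Fin e)
    (s : ∀ j, Fin (q j) → ℕ) (C : K) : IsPluri M (fun G : Fin e → Derivation L K K =>
      movf σ A u M s C fun i => (G i).restrictScalars ℂ) := by
  intro B G
  have h1 : (Matrix.of fun i l => ((∑ l', B i l' • G l' : Derivation L K K).restrictScalars ℂ)
      (u (σ.symm l))) = B * Matrix.of fun i l => ((G i).restrictScalars ℂ) (u (σ.symm l)) := by
    ext i l
    rw [Matrix.mul_apply, Matrix.of_apply]
    have h2 : (∑ l', B i l' • G l') (u (σ.symm l)) = ∑ l', B i l' * G l' (u (σ.symm l)) := by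
      rw [← Derivation.coeFnAddMonoidHom_apply, map_sum, Finset.sum_apply]
      rfl
    exact h2
  change C * (Matrix.of fun i l =>
    ((∑ l', B i l' • G l' : Derivation L K K).restrictScalars ℂ) (u (σ.symm l))).det ^ M / _ =
    B.det ^ M * (C * (Matrix.of fun i l =>
      ((G i).restrictScalars ℂ) (u (σ.symm l))).det ^ M / _)
  rw [h1, Matrix.det_mul, mul_pow]
  ring

section

variable {K K' : Type} [Field K] [Field K'] [Algebra ℂ K] [Algebra ℂ K'] [Algebra K K']
  [IsScalarTower ℂ K K'] [FiniteDimensional K K'] {c : ℕ} {r q : Fin c → ℕ}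
variable {A : ∀ j, Fin (q j) → Fin (r j + 1) → K'} {u : (Σ j, Fin (r j)) → K'}
variable {L : IntermediateField ℂ K} {w : ∀ j, Fin (q j) → ℚ}

open Classical in
/-- The multiplicities at the places of the extension over the prime divisors which are trivial on
`L`: if `ε` is the ramification index, and `e j i` are the multiplicities of the hyperplanes, then
`ε (1 - δ) ≤ ∑ (1 - w j i) e j i`, or `ε (1 - δ) ≤ 1` if all `e j i` are zero. -/
def CorHor (L : IntermediateField ℂ K) (A : ∀ j, Fin (q j) → Fin (r j + 1) → K')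
    (u : (Σ j, Fin (r j)) → K') (w : ∀ j, Fin (q j) → ℚ) (X : Set (Place ℂ K))
    (δ : Place ℂ K → ℝ) : Prop :=
  ∀ P ∈ X, (∀ f ∈ L, f ≠ 0 → P.ord f = 0) → ∀ (Q : Place ℂ K') (ε : ℕ), Over Q P ε →
    ∀ (c' : Fin c → ℤ) (e : ∀ j, Fin (q j) → ℕ),
      (∀ j, MOrd Q (A j) (hcd u j) (c' j) (e j)) → (ε : ℝ) * (1 - δ P) ≤
        if ∃ j i, e j i ≠ 0 then ∑ j, ∑ i, (1 - (w j i : ℝ)) * e j i else 1

/-- **The forms along the fibres.** -/
theorem cor_low {N e lam : ℕ} (hL : Algebra.trdeg L K = e)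
    (hA : MovArr (upF K' L) A) (σ : (Σ j, Fin (r j)) ≃ Fin e)
    (hu : IsTranscendenceBasis (upF K' L) u) (hw0 : ∀ j i, 0 ≤ w j i)
    (hw1 : ∀ j i, w j i ≤ 1) (hws : ∀ j, (r j + 1 : ℚ) ≤ ∑ i, w j i)
    {κ : Fin lam → Σ j, Fin (r j)} (hκ : Function.Injective κ)
    (hκs : ∀ i, (r (κ i).1 + 1 : ℚ) < ∑ i', w (κ i).1 i') {X : Set (Place ℂ K)}
    {δ : Place ℂ K → ℝ} (hδ : ∀ P ∈ X, 0 ≤ δ P) (hH : CorHor L A u w X δ) :
    ∃ M : ℕ, 0 < M ∧ ∃ θ : Fin (lam + 1) → (Fin e → Derivation L K K) → K,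
      (∀ b, FibSec N M X δ L (θ b)) ∧ ∃ G, θ 0 G ≠ 0 ∧
        AlgebraicIndependent L (fun i : Fin lam => θ i.succ G / θ 0 G) := by
  classical
  obtain ⟨M, hM, hq, hl, v, J, hadm, hJ, G0, hG0, hind⟩ := mov_forms hA σ hu hw0 hw1 hws hκ hκs
  refine push_gen (M := M) hM hL
    (θ' := fun b G => movf σ A u M (v b) (∏ t, cdet A (J b t)) fun i => (G i).restrictScalars ℂ)
    (fun b => movf_pluri σ _ _) ?_ ⟨G0, hG0, hind⟩
  intro P hP hPd G G' hG hG' Q ε hQ b
  change movf σ A u M (v b) (∏ t, cdet A (J b t)) (fun i => (G' i).restrictScalars ℂ) = 0 ∨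
    -((M : ℝ) * (ε * δ P)) ≤ (Q.ord (movf σ A u M (v b) (∏ t, cdet A (J b t))
      fun i => (G' i).restrictScalars ℂ) : ℝ)
  have hkA : ∀ l j i k, ((G' l).restrictScalars ℂ) (A j i k) = 0 := fun l j i k =>
    der_alg (G' l) (hA.1 j i k)
  have hM0 : (0 : ℝ) ≤ M := Nat.cast_nonneg _
  have hε0 : (0 : ℝ) ≤ ε := Nat.cast_nonneg _
  by_cases htr : ∀ f ∈ L, f ≠ 0 → P.ord f = 0
  · have hup : ∀ f ∈ upF K' L, f ≠ 0 → Q.ord f = 0 := by
      rintro f hf hf0
      obtain ⟨a, ha, rfl⟩ := mem_upF.1 hf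
      have ha0 : a ≠ 0 := fun h => hf0 (by rw [h, map_zero])
      rw [hQ.2, htr a ha ha0, mul_zero]
    have hAge : ∀ j i k, Ge Q 0 (A j i k) := fun j i k => triv_ge hup (hA.1 j i k)
    have hd : ∀ j (I : Fin (r j + 1) → Fin (q j)), Function.Injective I →
        (Matrix.of fun k a => A j (I k) a).det ≠ 0 ∧
        Q.ord (Matrix.of fun k a => A j (I k) a).det = 0 := fun j I hI =>
      ⟨hA.2 j I hI, triv_ord0 hup (alg_det fun k a => hA.1 _ _ _) (hA.2 j I hI)⟩
    have hC : Ge Q 0 (∏ t, cdet A (J b t)) := by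
      have := Ge.prod (P := Q) Finset.univ (fun t => cdet A (J b t)) (fun _ => 0)
        (fun t _ => triv_ge hup (hA.alg_cdet (J b t)))
      simpa using this
    have ho : ∀ j, ∃ c' ε, MOrd Q (A j) (hcd u j) c' ε := fun j =>
      exists_mord (hAge j) ⟨0, by rw [hcd_zero]; exact one_ne_zero⟩ (hl j)
    choose c' e' ho using ho
    have hlo : ∀ j i, Q.ord (lmv A u j i) = c' j + e' j i := fun j i => (ho j).2.2 i
    have hH' := hH P hP htr Q ε hQ c' e' ho
    by_cases he : ∃ j i, e' j i ≠ 0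
    · rw [if_pos he] at hH'
      have h1 := movf_gen σ (hadm b).1 hq hC hAge hd hl hkA (ν := ε) (fun I _ =>
        (lift_det (f := fun l => quo A u I (σ.symm l)) hL hQ hG hG').1) ho
      rcases h1 with h1 | h1
      · exact Or.inl h1
      right
      have h3 : ((∑ j, ∑ i, ((M : ℤ) - v b j i) * e' j i - M * (ε : ℤ) : ℤ) : ℝ) ≤
          (Q.ord (movf σ A u M (v b) (∏ t, cdet A (J b t))
            fun i => (G' i).restrictScalars ℂ) : ℝ) := by exact_mod_cast h1
      refine le_trans ?_ h3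
      push_cast
      have h4 : (M : ℝ) * ∑ j, ∑ i, (1 - (w j i : ℝ)) * e' j i ≤
          ∑ j, ∑ i, ((M : ℝ) - v b j i) * e' j i := by
        rw [Finset.mul_sum]
        refine Finset.sum_le_sum fun j _ => ?_
        rw [Finset.mul_sum]
        refine Finset.sum_le_sum fun i _ => ?_
        have h5 : (v b j i : ℝ) ≤ M * w j i := by exact_mod_cast (hadm b).2 j i
        have h6 : (0 : ℝ) ≤ e' j i := Nat.cast_nonneg _
        nlinarith
      have h5 := mul_le_mul_of_nonneg_left hH' hM0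
      nlinarith
    · rw [if_neg he] at hH'
      push Not at he
      have h1 := movf_gen σ (hadm b).1 hq hC hAge hd hl hkA (ν := ε - 1) (fun I _ => by
        have h2 := (lift_det (f := fun l => quo A u I (σ.symm l)) hL hQ hG hG').2 htr
          (fun l => by
            change Q.ord (lmv A u _ _ / lmv A u _ _) = 0
            rw [Q.ord_div (hl _ _) (hl _ _), hlo, hlo, he, he, sub_self])
        rw [neg_sub]
        exact h2) ho
      rcases h1 with h1 | h1
      · exact Or.inl h1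
      right
      have h2 : ∑ j, ∑ i, ((M : ℤ) - v b j i) * e' j i = 0 :=
        Finset.sum_eq_zero fun j _ => Finset.sum_eq_zero fun i _ => by rw [he j i]; simp
      rw [h2, zero_sub] at h1
      have h3 : ((-(M * ((ε : ℤ) - 1)) : ℤ) : ℝ) ≤
          (Q.ord (movf σ A u M (v b) (∏ t, cdet A (J b t))
            fun i => (G' i).restrictScalars ℂ) : ℝ) := by exact_mod_cast h1
      refine le_trans ?_ h3
      push_cast
      have h5 := mul_le_mul_of_nonneg_left hH' hM0
      nlinarith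
  · push Not at htr
    obtain ⟨a, haL, ha0, hao⟩ := htr
    have h1 : ∀ l, DerLog Q ((G' l).restrictScalars ℂ) := by
      intro l
      have h2 : DerLog P ((G l).restrictScalars ℂ) := by
        intro f
        by_cases hf : f = 0
        · left
          rw [hf, div_zero]
        · exact log_of_const (a := a) (fun f hf => hG l f hf)
            ((G l).map_algebraMap (⟨a, haL⟩ : L)) hao hf
      exact lift_log hQ h2 (fun f => hG' l f)
    have h2 := movf_log σ (hJ b) hl hkA (P := Q) fun l f hf => (reg_iff_ge _ _).1 (h1 l f)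
    rcases h2 with h2 | h2
    · exact Or.inl h2
    · right
      have h3 : (0 : ℝ) ≤ (Q.ord (movf σ A u M (v b) (∏ t, cdet A (J b t))
          fun i => (G' i).restrictScalars ℂ) : ℝ) := by exact_mod_cast h2
      have h4 := mul_nonneg hM0 (mul_nonneg hε0 (hδ P hP))
      linarith

end

end Pool.Agent.Y191
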