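import Pool.Agent.Y191.CorLow
import Pool.Agent.Y191.CorCan

/-!
The Kodaira dimension of pairs with a finite extension which is generically finite over a relative
product of projective spaces with an arrangement of hyperplanes, over a base with many hyperplane
sections of small multiplicity.
-/

set_option autoImplicit false
set_option linter.overlappingInstances false
set_option linter.unusedSectionVars false

open FF Pool.Agent.W602.GT Pool.Agent.W603.LV Pool.Agent.TH585.SV Pool.Agent.W619.PQ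
open Pool.Agent.Y172

namespace Pool.Agent.Y191

theorem trdeg_RF {K : Type} [Field K] [Algebra ℂ K] {n p e : ℕ} {b : Fin (n + 1) → K}
    (hK : Algebra.trdeg ℂ K = (p + e : ℕ)) (htr : Algebra.trdeg ℂ (RF ℂ b) = p) :
    Algebra.trdeg (RF ℂ b) K = e := by
  have h1 := trdeg_add_eq ℂ (RF ℂ b) (A := K)
  rw [htr, hK] at h1
  push_cast at h1
  rw [add_comm, add_comm (p : Cardinal)] at h1
  exact (Cardinal.add_right_inj_of_lt_aleph0 (Cardinal.natCast_lt_aleph0 (n := p))).mp h1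

section

variable {K K' : Type} [Field K] [Field K'] [Algebra ℂ K] [Algebra ℂ K'] [Algebra K K']
  [IsScalarTower ℂ K K'] [FiniteDimensional K K'] {c : ℕ} {r q : Fin c → ℕ}
variable {A : ∀ j, Fin (q j) → Fin (r j + 1) → K'} {u : (Σ j, Fin (r j)) → K'}

/-- **Small multiplicities over the base.** -/
theorem cor_small {n q' d p e lam : ℕ} (hd : 0 < d) {ℓ : Fin q' → Fin (n + 1) → ℂ}
    (hI : Independent d ℓ) (hg : GeneralPosition ℓ) (hq : n + 1 ≤ q') {b : Fin (n + 1) → K}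
    (hl : ∀ i, lf (ℓ i) b ≠ 0) (hb : ∃ j, b j ≠ 0) (htr : Algebra.trdeg ℂ (RF ℂ b) = p)
    (hK : Algebra.trdeg ℂ K = (p + e : ℕ)) {wt : Fin q' → ℚ} (hwt0 : ∀ i, 0 ≤ wt i)
    (hlt : (((p + 1) * gam (n - p) (d + 1) : ℕ) : ℚ) ≤ ∑ i, wt i)
    {X : Set (Place ℂ K)} {δ : Place ℂ K → ℝ} (hδ : ∀ P ∈ X, 0 ≤ δ P)
    (hmult : ∀ P ∈ X, Divisorial (p + e) P → ∀ (c : ℤ) (e : Fin q' → ℕ), OrdData P ℓ b c e →
      ((min (Finset.univ.filter fun i => e i ≠ 0).card (gam (n - p) (d + 1)) : ℕ) : ℝ) ≤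
        gam (n - p) (d + 1) * δ P + ∑ i, (1 - (wt i : ℝ)) * e i)
    (hA : MovArr (upF K' (RF ℂ b)) A) (σ : (Σ j, Fin (r j)) ≃ Fin e)
    (hu : IsTranscendenceBasis (upF K' (RF ℂ b)) u) {w : ∀ j, Fin (q j) → ℚ}
    (hw0 : ∀ j i, 0 ≤ w j i) (hw1 : ∀ j i, w j i ≤ 1) (hws : ∀ j, (r j + 1 : ℚ) ≤ ∑ i, w j i)
    {κ : Fin lam → Σ j, Fin (r j)} (hκ : Function.Injective κ)
    (hκs : ∀ i, (r (κ i).1 + 1 : ℚ) < ∑ i', w (κ i).1 i') (hH : CorHor (RF ℂ b) A u w X δ) :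
    KodairaGe (p + e) X δ lam ∧
      ((((p + 1) * gam (n - p) (d + 1) : ℕ) : ℚ) < ∑ i, wt i →
        KodairaGe (p + e) X δ (p + lam)) := by
  classical
  obtain ⟨δ₁, δ₂, h1, h2, h3, h4, h5⟩ := split_bd (RF ℂ b) hδ
  obtain ⟨M, hM, θ, hθ, hne⟩ := cor_low (N := p + e) (trdeg_RF hK htr) hA σ hu hw0 hw1 hws hκ hκs
    (X := X) (δ := δ₂) h3 (fun P hP htr' Q ε hQ c' e' ho => by
      rw [h4 P htr']
      exact hH P hP htr' Q ε hQ c' e' ho)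
  refine small_fib hd hI hg hq hl hb htr hK hwt0 hlt h1 (fun P hP hPd c e' ho => ?_) hM hθ hne
  by_cases htriv : ∀ f ∈ RF ℂ b, f ≠ 0 → P.ord f = 0
  · have h6 := triv_ord hl ho htriv
    have h7 : (Finset.univ.filter fun i => e' i ≠ 0).card = 0 := by
      rw [Finset.card_eq_zero, Finset.filter_eq_empty_iff]
      intro i _
      simp [h6 i]
    rw [h7, Nat.zero_min, Nat.cast_zero]
    have h8 : ∑ i, (1 - (wt i : ℝ)) * (e' i : ℝ) = 0 :=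
      Finset.sum_eq_zero fun i _ => by rw [h6 i]; simp
    rw [h8, add_zero]
    exact mul_nonneg (Nat.cast_nonneg _) (h2 P hP)
  · rw [h5 P htriv]
    exact hmult P hP hPd c e' ho

end

/-- **General hyperplanes over the base.** -/
theorem cor_general {n q' m Q : ℕ} (hn : 1 ≤ n) (hm : 2 ≤ m) (hQ : 2 * n * m ≤ Q * (m - 1))
    (hq : (n + Q).choose n < q') :
    ∃ Ψ : MvPolynomial (Fin q' × Fin (n + 1)) ℂ, Ψ ≠ 0 ∧
      ∀ ℓ : Fin q' → Fin (n + 1) → ℂ, MvPolynomial.eval (fun x => ℓ x.1 x.2) Ψ ≠ 0 →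
      ∀ (K : Type) [Field K] [Algebra ℂ K] (p e lam : ℕ), 1 ≤ p →
      Algebra.trdeg ℂ K = (p + e : ℕ) →
      ∀ b : Fin (n + 1) → K, (∀ i, lf (ℓ i) b ≠ 0) → (∃ j, b j ≠ 0) →
      Algebra.trdeg ℂ (RF ℂ b) = p →
      ∀ (X : Set (Place ℂ K)) (δ : Place ℂ K → ℝ), (∀ P ∈ X, 0 ≤ δ P) →
      (∀ P ∈ X, Divisorial (p + e) P → ∀ (c : ℤ) (e : Fin q' → ℕ), OrdData P ℓ b c e →
        ∀ i, e i = 0 ∨ m * (1 - δ P) ≤ e i) →
      ∀ (K' : Type) [Field K'] [Algebra ℂ K'] [Algebra K K'] [IsScalarTower ℂ K K']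
        [FiniteDimensional K K'] (c : ℕ) (r q : Fin c → ℕ)
        (A : ∀ j, Fin (q j) → Fin (r j + 1) → K')
        (u : (Σ j, Fin (r j)) → K'), MovArr (upF K' (RF ℂ b)) A → ((Σ j, Fin (r j)) ≃ Fin e) →
      IsTranscendenceBasis (upF K' (RF ℂ b)) u → ∀ w : ∀ j, Fin (q j) → ℚ, (∀ j i, 0 ≤ w j i) →
      (∀ j i, w j i ≤ 1) → (∀ j, (r j + 1 : ℚ) ≤ ∑ i, w j i) →
      ∀ κ : Fin lam → Σ j, Fin (r j), Function.Injective κ →
      (∀ i, (r (κ i).1 + 1 : ℚ) < ∑ i', w (κ i).1 i') → CorHor (RF ℂ b) A u w X δ →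
      KodairaGe (p + e) X δ (p + lam) := by
  obtain ⟨Ψ, hΨ, h⟩ := general_fib (n := n) (q := q') hn hm hQ hq
  refine ⟨Ψ, hΨ, ?_⟩
  intro ℓ hℓ K _ _ p e lam hp hK b hl hb htr X δ hδ hmult K' _ _ _ _ _ c r q A u hA σ hu w hw0
    hw1 hws κ hκ hκs hH
  obtain ⟨δ₁, δ₂, h1, h2, h3, h4, h5⟩ := split_bd (RF ℂ b) hδ
  obtain ⟨M, hM, θ, hθ, hne⟩ := cor_low (N := p + e) (trdeg_RF hK htr) hA σ hu hw0 hw1 hws hκ hκs
    (X := X) (δ := δ₂) h3 (fun P hP htr' Q ε hQ c' e' ho => by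
      rw [h4 P htr']
      exact hH P hP htr' Q ε hQ c' e' ho)
  refine h ℓ hℓ K p e lam hp hK b hl hb htr X δ₁ δ₂ δ h2 h1 (fun P hP hPd c e' ho i => ?_) M hM θ
    hθ hne
  by_cases htriv : ∀ f ∈ RF ℂ b, f ≠ 0 → P.ord f = 0
  · exact Or.inl (triv_ord hl ho htriv i)
  · rw [h5 P htriv]
    exact hmult P hP hPd c e' ho i

end Pool.Agent.Y191
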