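import Pool.Agent.Y191.Push2

/-!
The descent of forms along the fibres from arbitrary finite extensions.
-/

set_option autoImplicit false
set_option linter.overlappingInstances false
set_option linter.unusedSectionVars false

open FF Pool.Agent.W602.GT Pool.Agent.W603.LV Pool.Agent.W619.PQ Pool.Agent.W619.Y
open Pool.Agent.TH585.SV Pool.Agent.Y172

namespace Pool.Agent.Y191

section desc

variable {k K L : Type} [Field k] [CharZero k] [Field K] [Field L] [Algebra k K] [Algebra k L]
  [Algebra K L] [IsScalarTower k K L] [FiniteDimensional K L]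

/-- the descent of functions with ratios which are independent over a subfield -/
theorem desc_real (M : IntermediateField k K) {h : ℕ} {f : Fin (h + 1) → L} (hf : ∀ l, f l ≠ 0)
    (hind : AlgebraicIndependent M (fun l : Fin h => f l.succ / f 0)) :
    ∃ (R : ℕ) (s : Fin (h + 1) → K), 1 ≤ R ∧ (∀ j, s j ≠ 0) ∧
      AlgebraicIndependent M (fun j : Fin h => s j.succ / s 0) ∧
      ∀ (P : Place k K) (c : ℝ),
        (∀ (Q : Place k L) (e : ℕ), Over Q P e → ∀ l, (e : ℝ) * c ≤ Q.ord (f l)) →
          ∀ j, (R : ℝ) * c ≤ P.ord (s j) := by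
  classical
  have hcK : CharZero K := charZero_of_injective_algebraMap (algebraMap k K).injective
  have hcM : CharZero M := charZero_of_injective_algebraMap (algebraMap k M).injective
  let Ω := IntermediateField.normalClosure K L (AlgebraicClosure L)
  let ik : Algebra k Ω := ((algebraMap K Ω).comp (algebraMap k K)).toAlgebra
  have htow : IsScalarTower k K Ω := IsScalarTower.of_algebraMap_eq fun _ => rfl
  have hfin : FiniteDimensional K Ω := inferInstance
  have hnorm : Normal K Ω := inferInstance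
  have hgal : IsGalois K Ω := IsGalois.mk
  obtain ⟨i0⟩ : Nonempty (L →ₐ[K] Ω) := ⟨IsScalarTower.toAlgHom K L Ω⟩
  have hι : Fintype (L →ₐ[K] Ω) := Fintype.ofFinite _
  have htM : IsScalarTower M K Ω := inferInstance
  have htML : IsScalarTower M K L := inferInstance
  obtain ⟨R, t, r, q, hR, hrq, hne, hai⟩ := Pool.Agent.W513.PG.main M Ω (L →ₐ[K] Ω) i0 h
    (fun σ l => σ (f l)) (fun l => by
      rw [Ne, map_eq_zero]
      exact hf l) (by
      have h1 : AlgebraicIndependent M (fun l : Fin h => (i0.restrictScalars M)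
          (f l.succ / f 0)) := hind.map' (f := i0.restrictScalars M) i0.injective
      convert h1 using 1
      funext l
      rw [AlgHom.restrictScalars_apply, map_div₀])
  -- the elements are invariant
  have hfix : ∀ l r, ∃ z : K, algebraMap K Ω z = esy (fun σ : L →ₐ[K] Ω => σ (f l)) r := by
    intro l r
    refine (IsGalois.mem_range_algebraMap_iff_fixed _).2 fun g => ?_
    have h1 : g (esy (fun σ : L →ₐ[K] Ω => σ (f l)) r) =
        esy (fun σ : L →ₐ[K] Ω => g (σ (f l))) r := by
      unfold esy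
      rw [map_sum]
      exact Finset.sum_congr rfl fun T _ => map_prod _ _ _
    let s : (L →ₐ[K] Ω) ≃ (L →ₐ[K] Ω) :=
      { toFun := fun σ => (g : Ω →ₐ[K] Ω).comp σ
        invFun := fun σ => (g.symm : Ω →ₐ[K] Ω).comp σ
        left_inv := fun σ => by
          ext x
          simp
        right_inv := fun σ => by
          ext x
          simp }
    rw [h1]
    exact esy_equiv (L := Ω) s (fun σ => σ (f l)) r
  choose z hz using hfix
  have hz0 : ∀ j, z (t j) (r j) ≠ 0 := fun j h0 => hne j (by
    have h1 := hz (t j) (r j)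
    rw [h0, map_zero] at h1
    exact h1.symm)
  refine ⟨R, fun j => z (t j) (r j) ^ q j, hR, fun j => pow_ne_zero _ (hz0 j), ?_,
    fun P c hc j => ?_⟩
  · have h1 : AlgebraicIndependent M (fun j : Fin h => (IsScalarTower.toAlgHom M K Ω)
        (z (t j.succ) (r j.succ) ^ q j.succ / z (t 0) (r 0) ^ q 0)) := by
      convert hai using 1
      funext j
      change algebraMap K Ω _ = _
      rw [map_div₀, map_pow, map_pow, hz, hz]
    exact AlgebraicIndependent.of_comp (IsScalarTower.toAlgHom M K Ω) h1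
  · obtain ⟨Q', e', hQ'⟩ := exists_above (k := k) (L := Ω) P
    have h1 : ∀ σ : L →ₐ[K] Ω, Ge Q' ⌈(e' : ℝ) * c⌉ (σ (f (t j))) := by
      intro σ
      obtain ⟨Q, e, e1, hQ, he1, hee, hord⟩ := below_emb σ hQ'
      have h2 := hc Q e hQ (t j)
      right
      rw [Int.ceil_le, hord, hee]
      push_cast
      have : (0 : ℝ) ≤ e1 := Nat.cast_nonneg _
      calc (e1 : ℝ) * e * c = e1 * (e * c) := by ring
        _ ≤ e1 * (Q.ord (f (t j)) : ℝ) := mul_le_mul_of_nonneg_left h2 this
    have h2 := ge_esy (L := Ω) h1 (r j)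
    rw [← hz] at h2
    have h3 := h2.resolve_left (by
      rw [map_eq_zero]
      exact hz0 j)
    rw [hQ'.2] at h3
    have h4 : ((r j * ⌈(e' : ℝ) * c⌉ : ℤ) : ℝ) ≤ ((e' * P.ord (z (t j) (r j)) : ℤ) : ℝ) := by
      exact_mod_cast h3
    push_cast at h4
    have h5 := Int.le_ceil ((e' : ℝ) * c)
    have he' : (0 : ℝ) < e' := by exact_mod_cast hQ'.1
    have h6 : (r j : ℝ) * c ≤ P.ord (z (t j) (r j)) := by
      have h7 := mul_le_mul_of_nonneg_left h5 (Nat.cast_nonneg (α := ℝ) (r j))
      have h8 : (e' : ℝ) * (r j * c) ≤ e' * P.ord (z (t j) (r j)) := by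
        calc (e' : ℝ) * (r j * c) = r j * (e' * c) := by ring
          _ ≤ _ := h7.trans h4
      exact le_of_mul_le_mul_left h8 he'
    change (R : ℝ) * c ≤ P.ord (z (t j) (r j) ^ q j)
    rw [P.ord_pow, ← hrq j]
    push_cast
    have h7 := mul_le_mul_of_nonneg_left h6 (Nat.cast_nonneg (α := ℝ) (q j))
    nlinarith

end desc

section

variable {K K' : Type} [Field K] [Field K'] [Algebra ℂ K] [Algebra ℂ K'] [Algebra K K']
  [IsScalarTower ℂ K K'] {L : IntermediateField ℂ K} [FiniteDimensional K K']

/-- **The descent of the forms along the fibres.** -/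
theorem push_gen {N e lam M : ℕ} (hM : 0 < M)
    (hL : Algebra.trdeg L K = e)
    {X : Set (Place ℂ K)} {δ : Place ℂ K → ℝ}
    {θ' : Fin (lam + 1) → (Fin e → Derivation (upF K' L) K' K') → K'}
    (hpl : ∀ b, IsPluri M (θ' b))
    (hreg : ∀ P ∈ X, Divisorial N P → ∀ (G : Fin e → Derivation L K K)
      (G' : Fin e → Derivation (upF K' L) K' K'), (∀ i f, P.Reg f → P.Reg (G i f)) →
      (∀ i f, G' i (algebraMap K K' f) = algebraMap K K' (G i f)) →
      ∀ (Q : Place ℂ K') (ε : ℕ), Over Q P ε → ∀ b,
        θ' b G' = 0 ∨ -(M * (ε * δ P)) ≤ (Q.ord (θ' b G') : ℝ))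
    (hne : ∃ G', θ' 0 G' ≠ 0 ∧
      AlgebraicIndependent (upF K' L) (fun i : Fin lam => θ' i.succ G' / θ' 0 G')) :
    ∃ M' : ℕ, 0 < M' ∧ ∃ θ : Fin (lam + 1) → (Fin e → Derivation L K K) → K,
      (∀ b, FibSec N M' X δ L (θ b)) ∧ ∃ G, θ 0 G ≠ 0 ∧
        AlgebraicIndependent L (fun i : Fin lam => θ i.succ G / θ 0 G) := by
  classical
  have hcL : CharZero L := charZero_of_injective_algebraMap (algebraMap ℂ L).injective
  have hcU : CharZero (upF K' L) :=
    charZero_of_injective_algebraMap (algebraMap ℂ (upF K' L)).injective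
  obtain ⟨G0, hG0, hind⟩ := hne
  obtain ⟨y, E, hy, hE⟩ := exists_crd hL
  have hcK : CharZero K := charZero_of_injective_algebraMap (algebraMap ℂ K).injective
  choose E' hE' using fun i => exists_liftF (K' := K') hL (E i)
  have hyL : IsTranscendenceBasis (upF K' L) (fun j => algebraMap K K' (y j)) :=
    tb_up (hy.algebraMap_comp (A := K'))
  have hEL : ∀ i j, E' i (algebraMap K K' (y j)) = if i = j then 1 else 0 := by
    intro i j
    rw [hE', hE, apply_ite (algebraMap K K'), map_one, map_zero]
  -- the values on the lifted frame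
  have hval : ∀ j (G : Fin e → Derivation (upF K' L) K' K'), θ' j G =
      (Matrix.of fun i j => G i (algebraMap K K' (y j))).det ^ M * θ' j E' :=
    fun j G => pluri_coord hyL hEL (hpl j) G
  have hd0 : (Matrix.of fun i j => G0 i (algebraMap K K' (y j))).det ^ M ≠ 0 := by
    intro h0
    apply hG0
    rw [hval, h0, zero_mul]
  have hW0 : θ' 0 E' ≠ 0 := by
    intro h0
    apply hG0
    rw [hval, h0, mul_zero]
  have hind' : AlgebraicIndependent L (fun i : Fin lam => θ' i.succ E' / θ' 0 E') := by
    have e1 : (fun i : Fin lam => θ' i.succ G0 / θ' 0 G0) =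
        fun i : Fin lam => θ' i.succ E' / θ' 0 E' := by
      funext i
      rw [hval i.succ G0, hval 0 G0, mul_div_mul_left _ _ hd0]
    rw [e1] at hind
    exact ai_up.1 hind
  have hne : ∀ j, θ' j E' ≠ 0 := by
    intro j
    refine Fin.cases hW0 (fun i => ?_) j
    intro h0
    have := hind'.ne_zero i
    rw [h0, zero_div] at this
    exact this rfl
  obtain ⟨R, s, hR, hs0, hsi, hs⟩ := desc_real (K := K) L (f := fun j => θ' j E') hne hind'
  have hEv : (Matrix.of fun i j => E i (y j) : Matrix (Fin e) (Fin e) K).det = 1 := by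
    have : (Matrix.of fun i j => E i (y j) : Matrix (Fin e) (Fin e) K) = 1 := by
      ext i j
      rw [Matrix.of_apply, hE, Matrix.one_apply]
    rw [this, Matrix.det_one]
  refine ⟨M * R, Nat.mul_pos hM (by omega), fun j G => (Matrix.of fun i j => G i (y j) :
    Matrix (Fin e) (Fin e) K).det ^ (M * R) * s j, fun j => ⟨?_, ?_⟩, E, ?_, ?_⟩
  · intro A D
    have e1 : (Matrix.of fun a b => (∑ j, A a j • D j) (y b)) =
        A * Matrix.of fun a b => D a (y b) := by
      ext a b
      rw [Matrix.of_apply, Matrix.mul_apply, sum_smul_apply]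
      rfl
    change (Matrix.of fun a b => (∑ j, A a j • D j) (y b)).det ^ (M * R) * s j = _
    rw [e1, Matrix.det_mul, mul_pow, mul_assoc]
  · -- the estimate
    intro P hP hPd G hG
    obtain ⟨d, hd⟩ : ∃ d, d = (Matrix.of fun i j => G i (y j) : Matrix (Fin e) (Fin e) K).det :=
      ⟨_, rfl⟩
    change (Matrix.of fun i j => G i (y j) : Matrix (Fin e) (Fin e) K).det ^ (M * R) * s j = 0 ∨
      -(((M * R : ℕ) : ℝ) * δ P) ≤ ((P.ord ((Matrix.of fun i j => G i (y j) :
        Matrix (Fin e) (Fin e) K).det ^ (M * R) * s j) : ℤ) : ℝ)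
    rw [← hd]
    by_cases hd00 : d = 0
    · left
      rw [hd00, zero_pow (Nat.mul_pos hM (by omega)).ne', zero_mul]
    right
    choose G' hG' using fun i => exists_liftF (K' := K') hL (G i)
    have hkey : ∀ (Q : Place ℂ K') (ε : ℕ), Over Q P ε → ∀ l,
        (ε : ℝ) * (-(M * δ P) - M * P.ord d) ≤ Q.ord (θ' l E') := by
      intro Q ε hQ l
      have h2 := hreg P hP hPd G G' hG hG' Q ε hQ l
      have h3 : (Matrix.of fun i j => G' i (algebraMap K K' (y j))).det = algebraMap K K' d := by
        rw [hd, RingHom.map_det]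
        congr 1
        ext i j
        rw [Matrix.of_apply, RingHom.mapMatrix_apply, Matrix.map_apply, Matrix.of_apply, hG']
      rw [hval l G', h3] at h2
      have hd0' : algebraMap K K' d ≠ 0 := by
        rw [Ne, map_eq_zero]
        exact hd00
      have h4 := h2.resolve_left (mul_ne_zero (pow_ne_zero _ hd0') (hne l))
      rw [Q.ord_mul (pow_ne_zero _ hd0') (hne l), Q.ord_pow, hQ.2] at h4
      push_cast at h4
      linarith
    have h5 := hs P _ hkey j
    rw [P.ord_mul (pow_ne_zero _ hd00) (hs0 j), P.ord_pow]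
    push_cast
    linarith
  · change (Matrix.of fun i j => E i (y j) : Matrix (Fin e) (Fin e) K).det ^ (M * R) * s 0 ≠ 0
    rw [hEv, one_pow, one_mul]
    exact hs0 0
  · change AlgebraicIndependent L (fun i : Fin lam => (Matrix.of fun i j => E i (y j) :
      Matrix (Fin e) (Fin e) K).det ^ (M * R) * s i.succ / ((Matrix.of fun i j => E i (y j) :
      Matrix (Fin e) (Fin e) K).det ^ (M * R) * s 0))
    simp only [hEv, one_pow, one_mul]
    exact hsi

end

end Pool.Agent.Y191
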