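import Pool.Agent.Y191.Kum3

/-!
Fibre products of cyclic covers of the line: the ramification over the relative affine space.
-/

set_option autoImplicit false
set_option linter.overlappingInstances false
set_option linter.unusedSectionVars false

open FF MvPolynomial Pool.Agent.W603.LV Pool.Agent.TH585.SV

namespace Pool.Agent.Y191

section hat

variable {F : Type} [Field F] [CharZero F] {e : ℕ}

/-- a polynomial in the `j`-th variable -/
noncomputable def hat (j : Fin e) (p : Polynomial F) : MvPolynomial (Fin e) F :=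
  Polynomial.aeval (X j) p

theorem hat_mul (j : Fin e) (p q : Polynomial F) : hat j (p * q) = hat j p * hat j q := map_mul _ _ _

theorem aeval_hat {K : Type} [Field K] [Algebra F K] (x : Fin e → K) (j : Fin e)
    (p : Polynomial F) : aeval x (hat j p) = Polynomial.aeval (x j) p := by
  unfold hat
  rw [← Polynomial.aeval_algHom_apply, aeval_X]

theorem hat_inj {j : Fin e} {p : Polynomial F} (h : hat j p = 0) : p = 0 := by
  have h1 : aeval (fun _ => (Polynomial.X : Polynomial F)) (hat j p) = p := by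
    unfold hat
    rw [← Polynomial.aeval_algHom_apply, aeval_X, Polynomial.aeval_X_left_apply]
  rw [← h1, h, map_zero]

theorem hat_supp (j : Fin e) (p : Polynomial F) : hat j p ∈ supported F ({j} : Set (Fin e)) := by
  have h1 : (X j : MvPolynomial (Fin e) F) ∈ supported F ({j} : Set (Fin e)) :=
    X_mem_supported.2 rfl
  unfold hat
  have h2 : Polynomial.aeval (X j : MvPolynomial (Fin e) F) p =
      (supported F ({j} : Set (Fin e))).val (Polynomial.aeval (⟨X j, h1⟩ :
        supported F ({j} : Set (Fin e))) p) := by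
    rw [← Polynomial.aeval_algHom_apply]
    rfl
  rw [h2]
  exact Subtype.coe_prop _

theorem bd_hat_ne {i j : Fin e} (h : i ≠ j) (p : Polynomial F) : bd {i} (hat j p) = 0 := by
  classical
  have h1 : bd {i} (hat j p) ≤ 0 := by
    refine bd_le _ fun m hm => ?_
    rw [Finset.sum_singleton]
    by_contra hcon
    have h6 : i ∈ (hat j p).vars := by
      rw [mem_vars_iff_mem_support]
      exact ⟨m, hm, Finsupp.mem_support_iff.2 fun h0 => hcon (by omega)⟩
    exact h (mem_supported.1 (hat_supp j p) h6)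
  omega

theorem bd_hat (j : Fin e) (p : Polynomial F) : bd {j} (hat j p) = p.natDegree := by
  classical
  unfold bd hat bdeg
  rw [← Polynomial.aeval_algHom_apply, aeval_X, if_pos (Finset.mem_singleton_self j)]
  have h1 : Polynomial.aeval (Polynomial.X * Polynomial.C (X j : MvPolynomial (Fin e) F)) p =
      (p.map (algebraMap F (MvPolynomial (Fin e) F))).comp
        (Polynomial.X * Polynomial.C (X j : MvPolynomial (Fin e) F)) := by
    rw [Polynomial.comp, Polynomial.eval₂_map, Polynomial.aeval_def]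
    rfl
  rw [h1, Polynomial.natDegree_comp, Polynomial.natDegree_mul_C (X_ne_zero j),
    Polynomial.natDegree_X, mul_one,
    Polynomial.natDegree_map_eq_of_injective (algebraMap F (MvPolynomial (Fin e) F)).injective]

theorem pderiv_hat (j : Fin e) (p : Polynomial F) :
    pderiv j (hat j p) = hat j (Polynomial.derivative p) := by
  unfold hat
  rw [Derivation.map_aeval, pderiv_X_self, smul_eq_mul, mul_one]

/-- the separable polynomials are square free -/
theorem hat_sq {j : Fin e} {p : Polynomial F} (hp : p.Separable) {G : MvPolynomial (Fin e) F}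
    (hG : Irreducible G) : ¬ G * G ∣ hat j p := by
  rintro ⟨R, hR⟩
  obtain ⟨a, b, hab⟩ := hp
  have h1 : G ∣ hat j (Polynomial.derivative p) := by
    rw [← pderiv_hat, hR]
    refine ⟨pderiv j G * R + pderiv j G * R + G * pderiv j R, ?_⟩
    simp only [Derivation.leibniz, smul_eq_mul]
    ring
  have h2 : G ∣ hat j p := ⟨G * R, by rw [hR, mul_assoc]⟩
  have h3 : G ∣ 1 := by
    have h4 : hat j (a * p + b * Polynomial.derivative p) = 1 := by
      rw [hab]
      exact map_one _
    rw [← h4]
    have h5 : hat j (a * p + b * Polynomial.derivative p) =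
        hat j a * hat j p + hat j b * hat j (Polynomial.derivative p) := by
      unfold hat
      rw [map_add, map_mul, map_mul]
    rw [h5]
    exact dvd_add (h2.mul_left _) (h1.mul_left _)
  exact hG.not_isUnit (isUnit_of_dvd_one h3)

/-- polynomials in different variables have no common factor -/
theorem hat_excl {i j : Fin e} {p q : Polynomial F} (hp : p ≠ 0) (hq : q ≠ 0)
    {G : MvPolynomial (Fin e) F} (hG : Irreducible G) (h1 : G ∣ hat i p) (h2 : G ∣ hat j q) :
    i = j := by
  classical
  by_contra hij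
  obtain ⟨s, hs⟩ := exists_bd hG
  have key : ∀ {l : Fin e} {r : Polynomial F}, r ≠ 0 → G ∣ hat l r → s = l := by
    intro l r hr hd
    by_contra hsl
    obtain ⟨R, hR⟩ := hd
    have hR0 : R ≠ 0 := by
      rintro rfl
      rw [mul_zero] at hR
      exact hr (hat_inj hR)
    have h3 : bd {s} (hat l r) = bd {s} G + bd {s} R := by
      rw [hR]
      exact bd_mul hG.ne_zero hR0
    rw [bd_hat_ne hsl] at h3
    omega
  exact hij ((key hp h1).symm.trans (key hq h2))

end hat

section cyc

variable {K : Type} [Field K] [Algebra ℂ K] {F : IntermediateField ℂ K} {e : ℕ}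
variable {x y : Fin e → K} {m s : Fin e → ℕ} {g : ∀ j, Fin (s j) → Polynomial F}
  {a : ∀ j, Fin (s j) → ℕ} {c : Fin e → K} {P : Place ℂ K}

/-- The field `K` is generated over `F` by `x j` and `y j` with
`y j ^ m j = c j * ∏ k, g j k (x j) ^ a j k`; the `x j` are algebraically independent over `F`, and
the polynomials `g j k`, `k` variable, are square free and pairwise without common roots. -/
structure CycData (F : IntermediateField ℂ K) (x y : Fin e → K) (m s : Fin e → ℕ)
    (g : ∀ j, Fin (s j) → Polynomial F) (a : ∀ j, Fin (s j) → ℕ) (c : Fin e → K) : Prop where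
  bas : IsTranscendenceBasis F x
  pos : ∀ j, 1 ≤ m j
  sep : ∀ j, (∏ k, g j k).Separable
  cst : ∀ j, c j ∈ F ∧ c j ≠ 0
  eq : ∀ j, y j ^ m j = c j * ∏ k, Polynomial.aeval (x j) (g j k) ^ a j k
  top : IntermediateField.adjoin ℂ ((F : Set K) ∪ Set.range x ∪ Set.range y) = ⊤

/-- the weight `1 - 1 / M`, where `M = m / gcd (m, a)` is the ramification index of the `m`-th root
of a function of order `a` -/
def wtc (m a : ℕ) : ℚ := 1 - (m.gcd a : ℚ) / m

theorem wtc_nonneg {m : ℕ} (hm : 1 ≤ m) (a : ℕ) : 0 ≤ wtc m a := by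
  unfold wtc
  have h1 : (m.gcd a : ℚ) ≤ m := by exact_mod_cast Nat.gcd_le_left a hm
  have h2 : (m.gcd a : ℚ) / m ≤ 1 := by
    rw [div_le_one (by exact_mod_cast hm)]
    exact h1
  linarith

theorem wtc_le {m : ℕ} (a : ℕ) : wtc m a ≤ 1 := by
  unfold wtc
  have : (0 : ℚ) ≤ (m.gcd a : ℚ) / m := by positivity
  linarith

theorem wtc_bound {m a : ℕ} (hm : 1 ≤ m) {t : ℤ} (h : t ∣ ((m / m.gcd a : ℕ) : ℤ)) :
    (t : ℚ) - 1 ≤ wtc m a * t := by
  have hg : 0 < m.gcd a := Nat.gcd_pos_of_pos_left a hm
  have h1 : 0 < m / m.gcd a := Nat.div_pos (Nat.gcd_le_left a hm) hg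
  have h2 : t ≤ ((m / m.gcd a : ℕ) : ℤ) := Int.le_of_dvd (by exact_mod_cast h1) h
  have h3 : ((m / m.gcd a : ℕ) : ℤ) * (m.gcd a : ℤ) = m := by
    exact_mod_cast Nat.div_mul_cancel (Nat.gcd_dvd_left m a)
  have h4 : t * (m.gcd a : ℤ) ≤ m := by
    rw [← h3]
    exact mul_le_mul_of_nonneg_right h2 (Int.natCast_nonneg _)
  have h5 : (t : ℚ) * (m.gcd a : ℚ) ≤ m := by exact_mod_cast h4
  have h6 : (0 : ℚ) < m := by exact_mod_cast hm
  have h7 : (t : ℚ) * (m.gcd a : ℚ) / m ≤ 1 := (div_le_one h6).2 h5
  unfold wtc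
  have h8 : (1 - (m.gcd a : ℚ) / m) * t = t - (t : ℚ) * (m.gcd a : ℚ) / m := by ring
  rw [h8]
  linarith

/-- the sum of the weights of the points of the line, `2 g - 2 = n (wsum - 2)` for a curve of genus
`g` of degree `n` over the line -/
noncomputable def wsum (m s : Fin e → ℕ) (g : ∀ j, Fin (s j) → Polynomial F) (a : ∀ j, Fin (s j) → ℕ)
    (j : Fin e) : ℚ :=
  ∑ k, (g j k).natDegree * wtc (m j) (a j k) + wtc (m j) (∑ k, a j k * (g j k).natDegree)

/-- the multiplier -/
noncomputable def phic (x : Fin e → K) (m s : Fin e → ℕ) (g : ∀ j, Fin (s j) → Polynomial F)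
    (a : ∀ j, Fin (s j) → ℕ) (n : ℕ) : K :=
  ∏ j, ∏ k, Polynomial.aeval (x j) (g j k) ^ ⌈(n : ℚ) * wtc (m j) (a j k)⌉₊

namespace CycData

variable [CharZero F] (h : CycData F x y m s g a c)
include h

theorem g_ne (j : Fin e) (k : Fin (s j)) : g j k ≠ 0 := by
  intro h0
  have h1 := (h.sep j).ne_zero
  exact h1 (Finset.prod_eq_zero (Finset.mem_univ k) h0)

theorem aeval_ne' {j : Fin e} {p : Polynomial F} (hp : p ≠ 0) :
    Polynomial.aeval (x j) p ≠ 0 := by
  rw [← aeval_hat x j p]
  intro h0
  have h1 : hat j p = 0 := (injective_iff_map_eq_zero (aeval x : MvPolynomial (Fin e) F →ₐ[F]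
    K)).1 h.bas.1 _ h0
  exact hp (hat_inj h1)

theorem u_ne (j : Fin e) : c j * ∏ k, Polynomial.aeval (x j) (g j k) ^ a j k ≠ 0 :=
  mul_ne_zero (h.cst j).2 (Finset.prod_ne_zero_iff.2 fun k _ => pow_ne_zero _
    (h.aeval_ne' (h.g_ne j k)))

theorem u_mem (j : Fin e) : (c j * ∏ k, Polynomial.aeval (x j) (g j k) ^ a j k) ∈
    IntermediateField.adjoin ℂ ((F : Set K) ∪ Set.range x) := by
  have h1 : ∀ z ∈ F, z ∈ IntermediateField.adjoin ℂ ((F : Set K) ∪ Set.range x) := fun z hz =>
    IntermediateField.subset_adjoin ℂ _ (Or.inl hz)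
  have h2 : ∀ p : Polynomial F, Polynomial.aeval (x j) p ∈
      IntermediateField.adjoin ℂ ((F : Set K) ∪ Set.range x) := by
    intro p
    rw [Polynomial.aeval_eq_sum_range]
    refine sum_mem fun i _ => ?_
    rw [Algebra.smul_def]
    have hx : x j ∈ IntermediateField.adjoin ℂ ((F : Set K) ∪ Set.range x) :=
      IntermediateField.subset_adjoin ℂ _ (Or.inr ⟨j, rfl⟩)
    exact mul_mem (h1 _ (p.coeff i).2) (pow_mem hx _)
  exact mul_mem (h1 _ (h.cst j).1) (prod_mem fun k _ => pow_mem (h2 _) _)

theorem ET_top : ET (IntermediateField.adjoin ℂ ((F : Set K) ∪ Set.range x)) y Set.univ = ⊤ := by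
  rw [eq_top_iff, ← h.top]
  refine IntermediateField.adjoin_le_iff.2 ?_
  rintro z ((hz | hz) | ⟨i, rfl⟩)
  · exact le_ET _ (IntermediateField.subset_adjoin ℂ _ (Or.inl hz))
  · exact le_ET _ (IntermediateField.subset_adjoin ℂ _ (Or.inr hz))
  · exact IntermediateField.subset_adjoin ℂ _ (Or.inr ⟨i, Set.mem_univ _, rfl⟩)

theorem ord_u (htr : ∀ z ∈ F, z ≠ 0 → P.ord z = 0) (j : Fin e) :
    P.ord (c j * ∏ k, Polynomial.aeval (x j) (g j k) ^ a j k) =
      ∑ k, (a j k : ℤ) * P.ord (Polynomial.aeval (x j) (g j k)) := by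
  rw [P.ord_mul (h.cst j).2 (Finset.prod_ne_zero_iff.2 fun k _ => pow_ne_zero _
    (h.aeval_ne' (h.g_ne j k))), htr _ (h.cst j).1 (h.cst j).2, zero_add]
  have key : ∀ S : Finset (Fin (s j)), P.ord (∏ k ∈ S, Polynomial.aeval (x j) (g j k) ^ a j k) =
      ∑ k ∈ S, (a j k : ℤ) * P.ord (Polynomial.aeval (x j) (g j k)) := by
    classical
    intro S
    induction S using Finset.induction_on with
    | empty => rw [Finset.prod_empty, Finset.sum_empty, P.ord_one]
    | insert k S hk ih =>
      rw [Finset.prod_insert hk, Finset.sum_insert hk,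
        P.ord_mul (pow_ne_zero _ (h.aeval_ne' (h.g_ne j k)))
          (Finset.prod_ne_zero_iff.2 fun k _ => pow_ne_zero _ (h.aeval_ne' (h.g_ne j k))),
        P.ord_pow, ih]
  exact key Finset.univ

open Classical in
/-- the order of a polynomial at a place over a prime divisor -/
theorem ord_hat {G : MvPolynomial (Fin e) F} (hG : Irreducible G) (hP : AdicF P x G) (j : Fin e)
    {p : Polynomial F} (hp : p.Separable) :
    P.ord (Polynomial.aeval (x j) p) = if G ∣ hat j p then P.ord (aeval x G) else 0 := by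
  have hp0 : hat j p ≠ 0 := fun h0 => hp.ne_zero (hat_inj h0)
  rw [← aeval_hat x j p]
  split_ifs with hd
  · obtain ⟨R, hR⟩ := hd
    have hR1 : ¬ G ∣ R := by
      rintro ⟨R', hR'⟩
      exact hat_sq hp hG ⟨R', by rw [hR, hR', mul_assoc]⟩
    have hR0 : R ≠ 0 := by
      rintro rfl
      exact hR1 (dvd_zero _)
    have hne : ∀ Q : MvPolynomial (Fin e) F, Q ≠ 0 → aeval x Q ≠ 0 := fun Q hQ h0 =>
      hQ ((injective_iff_map_eq_zero (aeval x : MvPolynomial (Fin e) F →ₐ[F] K)).1 h.bas.1 _ h0)
    rw [hR, map_mul, P.ord_mul (hne G hG.ne_zero) (hne R hR0), ((hP R hR0).2).2 hR1, add_zero]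
  · exact ((hP _ hp0).2).2 hd

theorem gsep (j : Fin e) (k : Fin (s j)) : (g j k).Separable :=
  (h.sep j).of_dvd (Finset.dvd_prod_of_mem _ (Finset.mem_univ k))

/-- the place is over at most one of the divisors `g j k = 0` -/
theorem excl {G : MvPolynomial (Fin e) F} (hG : Irreducible G) {i j : Fin e} {k : Fin (s i)}
    {l : Fin (s j)} (h1 : G ∣ hat i (g i k)) (h2 : G ∣ hat j (g j l)) :
    (⟨i, k⟩ : Σ j, Fin (s j)) = ⟨j, l⟩ := by
  classical
  obtain rfl : i = j := hat_excl (h.g_ne i k) (h.g_ne j l) hG h1 h2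
  congr 1
  by_contra hkl
  refine hat_sq (j := i) (h.sep i) hG ?_
  have h3 : (∏ k, g i k) = g i k * (g i l * ∏ k ∈ (Finset.univ.erase k).erase l, g i k) := by
    rw [Finset.mul_prod_erase _ _ (Finset.mem_erase.2 ⟨fun h => hkl h.symm, Finset.mem_univ l⟩),
      Finset.mul_prod_erase _ _ (Finset.mem_univ k)]
  rw [h3, hat_mul, hat_mul]
  exact mul_dvd_mul h1 (h2.mul_right _)

/-- **The ramification over the prime divisors of the affine space.** -/
theorem ram {G : MvPolynomial (Fin e) F} (hG : Irreducible G) (hP : AdicF P x G) :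
    (P.ord (aeval x G) : ℚ) - 1 ≤
      ∑ j, ∑ k, wtc (m j) (a j k) * P.ord (Polynomial.aeval (x j) (g j k)) := by
  classical
  have ht : 0 < P.ord (aeval x G) := by
    have h1 := hP G hG.ne_zero
    rcases lt_or_eq_of_le h1.1 with h2 | h2
    · exact h2
    · exact absurd dvd_rfl (h1.2.1 h2.symm)
  have hE := adic_vg hG hP
  have hπ : aeval x G ∈ IntermediateField.adjoin ℂ ((F : Set K) ∪ Set.range x) := by
    have h1 : ∀ Q : MvPolynomial (Fin e) F,
        aeval x Q ∈ IntermediateField.adjoin ℂ ((F : Set K) ∪ Set.range x) := by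
      intro Q
      induction Q using MvPolynomial.induction_on with
      | C r =>
        rw [aeval_C]
        exact IntermediateField.subset_adjoin ℂ _ (Or.inl r.2)
      | add p q hp hq =>
        rw [map_add]
        exact add_mem hp hq
      | mul_X p i hp =>
        rw [map_mul, aeval_X]
        exact mul_mem hp (IntermediateField.subset_adjoin ℂ _ (Or.inr ⟨i, rfl⟩))
    exact h1 G
  have htr := hP.triv hG.not_isUnit
  have hnn : ∀ j k, 0 ≤ wtc (m j) (a j k) * P.ord (Polynomial.aeval (x j) (g j k)) := by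
    intro j k
    refine mul_nonneg (wtc_nonneg (h.pos j) _) ?_
    rw [h.ord_hat hG hP j (h.gsep j k)]
    split_ifs
    · exact_mod_cast ht.le
    · exact_mod_cast le_rfl
  by_cases hcase : ∃ j k, G ∣ hat j (g j k)
  · obtain ⟨j, k, hjk⟩ := hcase
    have hother : ∀ i l, (⟨i, l⟩ : Σ j, Fin (s j)) ≠ ⟨j, k⟩ →
        P.ord (Polynomial.aeval (x i) (g i l)) = 0 := by
      intro i l hil
      rw [h.ord_hat hG hP i (h.gsep i l), if_neg]
      exact fun h1 => hil (h.excl hG h1 hjk)
    have hthis : P.ord (Polynomial.aeval (x j) (g j k)) = P.ord (aeval x G) := by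
      rw [h.ord_hat hG hP j (h.gsep j k), if_pos hjk]
    have hu : ∀ i, P.ord (c i * ∏ k, Polynomial.aeval (x i) (g i k) ^ a i k) =
        ∑ k, (a i k : ℤ) * P.ord (Polynomial.aeval (x i) (g i k)) := h.ord_u htr
    have h1 := tower_dvd (y := y) (m := m) ht hE hπ rfl h.pos h.u_mem h.u_ne h.eq h.ET_top j
      (a := (a j k : ℤ)) (by
        rw [hu j, Finset.sum_eq_single k, hthis]
        · intro l _ hl
          rw [hother j l fun h1 => hl (by
            have := Sigma.mk.inj_iff.1 h1
            exact eq_of_heq this.2), mul_zero]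
        · intro h1
          exact absurd (Finset.mem_univ k) h1)
      (fun i hi => by
        rw [hu i]
        exact Finset.sum_eq_zero fun l _ => by
          rw [hother i l fun h1 => hi (congrArg Sigma.fst h1), mul_zero])
    rw [Int.natAbs_natCast] at h1
    have h2 := wtc_bound (h.pos j) h1
    refine h2.trans ?_
    have h3 : wtc (m j) (a j k) * P.ord (aeval x G) =
        wtc (m j) (a j k) * P.ord (Polynomial.aeval (x j) (g j k)) := by rw [hthis]
    rw [h3]
    refine le_trans (Finset.single_le_sum (f := fun k => wtc (m j) (a j k) *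
      (P.ord (Polynomial.aeval (x j) (g j k)) : ℚ)) (fun k _ => hnn j k) (Finset.mem_univ k)) ?_
    exact Finset.single_le_sum (f := fun j => ∑ k, wtc (m j) (a j k) *
      (P.ord (Polynomial.aeval (x j) (g j k)) : ℚ))
      (fun j _ => Finset.sum_nonneg fun k _ => hnn j k) (Finset.mem_univ j)
  · push Not at hcase
    have h1 := tower_one (y := y) (m := m) ht hE hπ rfl h.pos h.u_mem h.u_ne h.eq h.ET_top (by
      intro i
      rw [h.ord_u htr i]
      refine Finset.sum_eq_zero fun l _ => ?_
      rw [h.ord_hat hG hP i (h.gsep i l), if_neg (hcase i l), mul_zero])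
    rw [h1]
    have h2 : (0 : ℚ) ≤ ∑ j, ∑ k, wtc (m j) (a j k) *
        (P.ord (Polynomial.aeval (x j) (g j k)) : ℚ) :=
      Finset.sum_nonneg fun j _ => Finset.sum_nonneg fun k _ => hnn j k
    push_cast
    linarith

end CycData

end cyc

end Pool.Agent.Y191
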