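import Pool.Agent.Y191.USec
import Pool.Agent.Y191.MovKod
import Pool.Agent.Y172.Dim

/-!
Kodaira dimension and numerical dimension of pairs which are generically finite and crepant over a
relative product of projective spaces with a moving arrangement of hyperplanes.
-/

set_option autoImplicit false
set_option linter.overlappingInstances false
set_option linter.unusedSectionVars false

open FF MvPolynomial Pool.Agent.W602.GT Pool.Agent.W603.LV Pool.Agent.W619.PQ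
open Pool.Agent.Y172

namespace Pool.Agent.Y191

section

variable {K : Type} [Field K] [Algebra ℂ K]

/-- a transcendence basis over a field is one over its algebraic closure -/
theorem basis_acl {L : IntermediateField ℂ K} {ι : Type} {u : ι → K}
    (hu : IsTranscendenceBasis L u) : IsTranscendenceBasis (acl ℂ (L : Set K)) u := by
  have hLF : L ≤ acl ℂ (L : Set K) := fun x hx => subset_acl _ hx
  let _ : Algebra L (acl ℂ (L : Set K)) := (IntermediateField.inclusion hLF).toAlgebra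
  have : IsScalarTower L (acl ℂ (L : Set K)) K := IsScalarTower.of_algebraMap_eq fun x => rfl
  have : Algebra.IsAlgebraic L (acl ℂ (L : Set K)) := by
    refine ⟨fun x => ?_⟩
    have h1 : IsAlgebraic (IntermediateField.adjoin ℂ (L : Set K)) (x : K) := mem_acl.1 x.2
    rw [IntermediateField.adjoin_self] at h1
    exact (isAlgebraic_algebraMap_iff (R := L) (A := K)
      (FaithfulSMul.algebraMap_injective (acl ℂ (L : Set K)) K)).1 h1
  have h2 : AlgebraicIndependent (acl ℂ (L : Set K)) u :=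
    hu.1.extendScalars (acl ℂ (L : Set K))
  refine basis_of_kill h2 fun D hD h => ?_
  refine ext_over hu (fun x hx => hD x (hLF hx)) (fun x _ => rfl) fun i => ?_
  rw [h i]
  rfl

variable {σ : Type} [Fintype σ] [DecidableEq σ] {n : ℕ}

theorem exists_FrF (hn : Algebra.trdeg ℂ K = n) {F : IntermediateField ℂ K} (hF : Closed F)
    {U : σ → K} (hU : IsTranscendenceBasis F U) :
    ∃ (p : ℕ) (z : Fin p → K) (e : Fin n ≃ Fin p ⊕ σ) (D : Fin n → Derivation ℂ K K),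
      FrF F z e U D := by
  obtain ⟨p, z, hFz, -, -, hext⟩ := exists_zF hn hF
  have h1 := hext U hU
  have h2 := h1.cardinalMk_eq_trdeg
  rw [hn, Cardinal.mk_fintype] at h2
  have h3 : Fintype.card (Fin p ⊕ σ) = n := by exact_mod_cast h2
  let e : Fin n ≃ Fin p ⊕ σ := (Fintype.equivFinOfCardEq h3).symm
  have h4 : IsTranscendenceBasis ℂ fun i => Sum.elim z U (e i) := h1.comp_equiv e
  choose D hD using fun i : Fin n => Pool.Agent.W602.GT.exists_der _ h4
    fun j => if i = j then 1 else 0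
  exact ⟨p, z, e, D, hFz, hU, h4, hD, fun V hV => hext V hV⟩

end

section

variable {K : Type} [Field K] {c : ℕ} {r : Fin c → ℕ}

/-- the coordinates of the affine chart of the product of projective spaces where the `a j`-th
coordinate (the coordinate at infinity, if `a j = none`) is not zero -/
def chrt (a : ∀ j, Option (Fin (r j))) (u : (Σ j, Fin (r j)) → K) : (Σ j, Fin (r j)) → K :=
  fun s => match a s.1 with
    | none => u s
    | some l => if s.2 = l then (u ⟨s.1, l⟩)⁻¹ else u s / u ⟨s.1, l⟩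

/-- the block of the coordinates of a factor -/
def blk (r : Fin c → ℕ) (j : Fin c) : Finset (Σ j, Fin (r j)) := Finset.univ.filter fun s => s.1 = j

theorem card_blk (j : Fin c) : (blk r j).card = r j := by
  have h1 : blk r j = (Finset.univ : Finset (Fin (r j))).map
      ⟨fun k => ⟨j, k⟩, fun a b hab => by simpa using hab⟩ := by
    ext ⟨j', k⟩
    simp only [blk, Finset.mem_filter, Finset.mem_univ, true_and, Finset.mem_map]
    constructor
    · rintro rfl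
      exact ⟨k, rfl⟩
    · rintro ⟨a, ha⟩
      exact (congrArg Sigma.fst ha).symm
  rw [h1, Finset.card_map, Finset.card_univ, Fintype.card_fin]

theorem chrt_none (u : (Σ j, Fin (r j)) → K) : chrt (fun _ => none) u = u := rfl

theorem chrt_some (u : (Σ j, Fin (r j)) → K) (j : Fin c) (l : Fin (r j)) :
    chrt (Function.update (fun _ => none) j (some l)) u = flp u (blk r j) ⟨j, l⟩ := by
  funext ⟨j', k⟩
  by_cases h : j' = j
  · subst h
    simp only [chrt, flp, blk, Function.update_self, Finset.mem_filter, Finset.mem_univ, true_and,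
      if_true]
    by_cases h2 : k = l
    · subst h2
      simp
    · have h3 : ¬ (⟨j', k⟩ : Σ j, Fin (r j)) = ⟨j', l⟩ := fun h => h2 (by simpa using h)
      rw [if_neg h2, if_neg h3]
  · have h3 : ¬ (⟨j', k⟩ : Σ j, Fin (r j)) = ⟨j, l⟩ := fun h' => h (congrArg Sigma.fst h')
    simp only [chrt, flp, blk, Function.update_of_ne h, Finset.mem_filter, Finset.mem_univ, true_and,
      if_neg h3, if_neg h]

end

section

variable {K : Type} [Field K] [Algebra ℂ K] {c : ℕ} {r q : Fin c → ℕ} {N n : ℕ}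
variable {A : ∀ j, Fin (q j) → Fin (r j + 1) → K} {u : (Σ j, Fin (r j)) → K}
variable {L : IntermediateField ℂ K} {y : Fin (N + 1) → K} {Δ : Place ℂ K → ℚ}
  {w : ∀ j, Fin (q j) → ℚ}

/-- For each affine chart of the product of projective spaces and each place `P` over a prime divisor
`g = 0` of it, with ramification index `ρ = P.ord (g)`: `P` is a prime divisor of the variety and
`Δ_P + ρ - 1` is at most the multiplicity of the weighted arrangement at `P`. -/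
def Crep (L : IntermediateField ℂ K) (A : ∀ j, Fin (q j) → Fin (r j + 1) → K)
    (u : (Σ j, Fin (r j)) → K) (w : ∀ j, Fin (q j) → ℚ) (y : Fin (N + 1) → K)
    (Δ : Place ℂ K → ℚ) : Prop :=
  ∀ (a : ∀ j, Option (Fin (r j))) (P : Place ℂ K)
    (g : MvPolynomial (Σ j, Fin (r j)) (acl ℂ (L : Set K))), Irreducible g →
    AdicF P (chrt a u) g → IsPrimeDivisor y P ∧ ∀ (c' : Fin c → ℤ) (ε : ∀ j, Fin (q j) → ℕ),
      (∀ j, MOrd P (A j) (hcd u j) (c' j) (ε j)) →
        Δ P + (P.ord (aeval (chrt a u) g) - 1) ≤ ∑ j, ∑ i, w j i * ε j i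

/-- the product of the forms of the arrangement with the exponents `m w`, rounded up -/
noncomputable def phi (A : ∀ j, Fin (q j) → Fin (r j + 1) → K) (u : (Σ j, Fin (r j)) → K)
    (w : ∀ j, Fin (q j) → ℚ) (m : ℕ) : K :=
  ∏ j, ∏ i, lmv A u j i ^ ⌈(m : ℚ) * w j i⌉₊

theorem ord_phi (hl : ∀ j i, lmv A u j i ≠ 0) (P : Place ℂ K) (m : ℕ) :
    P.ord (phi A u w m) = ∑ j, ∑ i, (⌈(m : ℚ) * w j i⌉₊ : ℤ) * P.ord (lmv A u j i) := by
  unfold phi
  rw [Pool.Agent.W619.PQ.ord_prod _ P _ fun j _ => Finset.prod_ne_zero_iff.2 fun i _ =>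
    pow_ne_zero _ (hl j i)]
  refine Finset.sum_congr rfl fun j _ => ?_
  rw [Pool.Agent.W619.PQ.ord_prod _ P _ fun i _ => pow_ne_zero _ (hl j i)]
  exact Finset.sum_congr rfl fun i _ => P.ord_pow _ _

theorem phi_ne (hl : ∀ j i, lmv A u j i ≠ 0) (m : ℕ) : phi A u w m ≠ 0 :=
  Finset.prod_ne_zero_iff.2 fun j _ => Finset.prod_ne_zero_iff.2 fun i _ => pow_ne_zero _ (hl j i)

theorem ceil_lin {w : ℚ} (hw : w ≤ 1) (m : ℕ) : ⌈(m : ℚ) * w⌉₊ ≤ m := by
  rw [Nat.ceil_le]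
  calc (m : ℚ) * w ≤ m * 1 := mul_le_mul_of_nonneg_left hw (Nat.cast_nonneg _)
    _ = m := mul_one _

theorem phi_lin (hl : ∀ j i, lmv A u j i ≠ 0) (hw1 : ∀ j i, w j i ≤ 1) (P : Place ℂ K) :
    ∃ C : ℕ, ∀ m : ℕ, 1 ≤ m → Ge P (-((C * m : ℕ) : ℤ)) (phi A u w m) := by
  refine ⟨∑ j, ∑ i, (P.ord (lmv A u j i)).natAbs, fun m _ => Or.inr ?_⟩
  rw [ord_phi hl]
  have h1 : ∀ j i, -(((P.ord (lmv A u j i)).natAbs * m : ℕ) : ℤ) ≤
      (⌈(m : ℚ) * w j i⌉₊ : ℤ) * P.ord (lmv A u j i) := by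
    intro j i
    have h2 := ceil_lin (hw1 j i) m
    obtain ⟨b, hb⟩ : ∃ b : ℕ, b = (P.ord (lmv A u j i)).natAbs := ⟨_, rfl⟩
    obtain ⟨a, ha⟩ : ∃ a : ℕ, a = ⌈(m : ℚ) * w j i⌉₊ := ⟨_, rfl⟩
    rw [← ha] at h2
    rw [← hb, ← ha]
    have h3 : (a : ℤ) ≤ m := by exact_mod_cast h2
    have h4 : -(b : ℤ) ≤ P.ord (lmv A u j i) := by omega
    have h5 : (0 : ℤ) ≤ (a : ℤ) := Int.natCast_nonneg _
    have h6 : (0 : ℤ) ≤ (b : ℤ) := Int.natCast_nonneg _
    push_cast
    nlinarith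
  calc -(((∑ j, ∑ i, (P.ord (lmv A u j i)).natAbs) * m : ℕ) : ℤ)
      = ∑ j, ∑ i, -(((P.ord (lmv A u j i)).natAbs * m : ℕ) : ℤ) := by
        push_cast
        simp only [Finset.sum_neg_distrib, Finset.sum_mul]
    _ ≤ _ := Finset.sum_le_sum fun j _ => Finset.sum_le_sum fun i _ => h1 j i

theorem phi_reg : ∃ S : Finset K, ∀ P : Place ℂ K, (∀ s ∈ S, P.Reg s) →
    ∀ m : ℕ, 1 ≤ m → P.Reg (phi A u w m) := by
  classical
  refine ⟨Finset.univ.image fun s : Σ j, Fin (q j) => lmv A u s.1 s.2, fun P hP m _ => ?_⟩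
  unfold phi
  refine Finset.prod_induction _ (fun x => P.Reg x) (fun a b ha hb => P.reg_mul ha hb)
    P.reg_one fun j _ => ?_
  refine Finset.prod_induction _ (fun x => P.Reg x) (fun a b ha hb => P.reg_mul ha hb)
    P.reg_one fun i _ => ?_
  have h1 : P.Reg (lmv A u j i) := hP _ (Finset.mem_image.2
    ⟨⟨j, i⟩, Finset.mem_univ _, rfl⟩)
  have h2 := Ge.pow (P := P) (N := 0) h1 ⌈(m : ℚ) * w j i⌉₊
  rw [mul_zero] at h2
  exact h2

/-- the multiplicities at a place where all coordinates are regular -/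
theorem mord_zero {P : Place ℂ K} {j : Fin c} {c' : ℤ} {ε : Fin (q j) → ℕ}
    (h : MOrd P (A j) (hcd u j) c' ε) (hu : ∀ k, Ge P 0 (u ⟨j, k⟩)) : c' = 0 := by
  obtain ⟨h1, ⟨k, hk0, hk⟩, -⟩ := h
  have h2 := h1 0
  rw [hcd_zero] at h2
  have h3 := h2.resolve_left one_ne_zero
  rw [P.ord_one] at h3
  revert hk0 hk
  refine Fin.cases (fun _ hk => ?_) (fun k hk0 hk => ?_) k
  · rw [hcd_zero, P.ord_one] at hk
    exact hk.symm
  · rw [hcd_succ] at hk0 hk
    have h4 := (hu k).resolve_left hk0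
    omega

theorem mord_inf {P : Place ℂ K} {j : Fin c} {c' : ℤ} {ε : Fin (q j) → ℕ}
    (h : MOrd P (A j) (hcd u j) c' ε) {ρ : ℕ} (hρ : 1 ≤ ρ) (hr : 1 ≤ r j)
    (hu : ∀ k, P.ord (u ⟨j, k⟩) = -(ρ : ℤ)) : c' = -(ρ : ℤ) := by
  obtain ⟨h1, ⟨k, hk0, hk⟩, -⟩ := h
  have h2 := h1 (Fin.succ ⟨0, hr⟩)
  rw [hcd_succ] at h2
  have h4 := hu ⟨0, hr⟩
  have h3 := h2.resolve_left (by
    intro h0
    rw [h0, P.ord_zero] at h4
    omega)
  rw [h4] at h3
  revert hk0 hk
  refine Fin.cases (fun _ hk => ?_) (fun k hk0 hk => ?_) k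
  · rw [hcd_zero, P.ord_one] at hk
    omega
  · rw [hcd_succ] at hk0 hk
    rw [hu k] at hk
    omega

theorem exists_mords (hA : MovArr L A) (hl : ∀ j i, lmv A u j i ≠ 0) {P : Place ℂ K}
    (hP : ∀ f ∈ acl ℂ (L : Set K), f ≠ 0 → P.ord f = 0) :
    ∃ (c' : Fin c → ℤ) (ε : ∀ j, Fin (q j) → ℕ), ∀ j, MOrd P (A j) (hcd u j) (c' j) (ε j) := by
  have h1 : ∀ j, ∃ (c' : ℤ) (ε : Fin (q j) → ℕ), MOrd P (A j) (hcd u j) c' ε := by
    intro j
    refine exists_mord (fun i k => ?_) ⟨0, by rw [hcd_zero]; exact one_ne_zero⟩ (hl j)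
    exact triv_ge (fun f hf => hP f (subset_acl _ hf)) (hA.1 j i k)
  choose c' ε h using h1
  exact ⟨c', ε, h⟩

/-- the places over the divisors of the affine chart -/
theorem crep_fin (hA : MovArr L A) (hl : ∀ j i, lmv A u j i ≠ 0) (hC : Crep L A u w y Δ)
    {P : Place ℂ K} {g : MvPolynomial (Σ j, Fin (r j)) (acl ℂ (L : Set K))} (hg : Irreducible g)
    (hP : AdicF P u g) : IsPrimeDivisor y P ∧
      ∀ m : ℕ, 1 ≤ m → (m : ℝ) * (Δ P + (P.ord (aeval u g) - 1)) ≤ P.ord (phi A u w m) := by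
  obtain ⟨h1, h2⟩ := hC (fun _ => none) P g hg hP
  refine ⟨h1, fun m _ => ?_⟩
  obtain ⟨c', ε, h⟩ := exists_mords hA hl (hP.triv hg.not_isUnit)
  have h3 := h2 c' ε h
  rw [chrt_none] at h3
  have hc : ∀ j, c' j = 0 := fun j => mord_zero (h j) fun k => by
    have h4 := (hP (X ⟨j, k⟩) (X_ne_zero _)).1
    rw [aeval_X] at h4
    exact Or.inr h4
  have h5 : ∀ j i, P.ord (lmv A u j i) = ε j i := fun j i => by
    have h6 := (h j).2.2 i
    rw [hc j, zero_add] at h6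
    exact h6
  rw [ord_phi hl]
  have h6 : (m : ℚ) * (Δ P + (P.ord (aeval u g) - 1)) ≤
      ((∑ j, ∑ i, (⌈(m : ℚ) * w j i⌉₊ : ℤ) * P.ord (lmv A u j i) : ℤ) : ℚ) := by
    have h7 : (m : ℚ) * (∑ j, ∑ i, w j i * ε j i) ≤
        ∑ j, ∑ i, ((⌈(m : ℚ) * w j i⌉₊ : ℕ) : ℚ) * ε j i := by
      rw [Finset.mul_sum]
      refine Finset.sum_le_sum fun j _ => ?_
      rw [Finset.mul_sum]
      refine Finset.sum_le_sum fun i _ => ?_
      rw [← mul_assoc]
      exact mul_le_mul_of_nonneg_right (Nat.le_ceil _) (Nat.cast_nonneg _)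
    have h8 := mul_le_mul_of_nonneg_left h3 (Nat.cast_nonneg (α := ℚ) m)
    refine h8.trans (h7.trans (le_of_eq ?_))
    push_cast
    refine Finset.sum_congr rfl fun j _ => Finset.sum_congr rfl fun i _ => ?_
    rw [h5 j i]
    push_cast
    rfl
  exact_mod_cast h6

/-- the places over the hyperplane at infinity of a factor -/
theorem crep_inf (hA : MovArr L A) (hl : ∀ j i, lmv A u j i ≠ 0)
    (hw0 : ∀ j i, 0 ≤ w j i) (hC : Crep L A u w y Δ) {j0 : Fin c} (hr : 1 ≤ r j0) {P : Place ℂ K}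
    {ρ : ℕ} (hρ : 1 ≤ ρ) (hP : DegF (acl ℂ (L : Set K)) P u (blk r j0) ρ) : IsPrimeDivisor y P ∧
      ∀ m : ℕ, 1 ≤ m → (m : ℝ) * (Δ P + (ρ - 1)) +
        m * (((r j0 + 1 : ℚ) - ∑ i, w j0 i : ℚ) * ρ) ≤
        P.ord (phi A u w m) + m * (ρ * ((blk r j0).card + 1)) +
          ((∑ j, q j) * ∑ s, (P.ord (u s)).natAbs : ℕ) := by
  have hmem : (⟨j0, ⟨0, hr⟩⟩ : Σ j, Fin (r j)) ∈ blk r j0 := by
    unfold blk
    rw [Finset.mem_filter]
    exact ⟨Finset.mem_univ _, rfl⟩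
  obtain ⟨ha1, ha2⟩ := hP.adic hρ hmem
  have ha3 := chrt_some u j0 ⟨0, hr⟩
  obtain ⟨h1, h2⟩ := hC (Function.update (fun _ => none) j0 (some ⟨0, hr⟩)) P (X ⟨j0, ⟨0, hr⟩⟩)
    X_prime.irreducible (by rw [ha3]; exact ha2)
  refine ⟨h1, fun m _ => ?_⟩
  rw [ha3, aeval_X, ha1] at h2
  obtain ⟨c', ε, h⟩ := exists_mords hA hl (ha2.triv X_prime.irreducible.not_isUnit)
  have h3 := h2 c' ε h
  have hord : ∀ s : Σ j, Fin (r j), s ∉ blk r j0 → P.ord (u s) = 0 := by
    intro s hs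
    have h4 := hP (X s) (X_ne_zero _)
    rw [aeval_X] at h4
    have h5 : bd (blk r j0) (X s : MvPolynomial (Σ j, Fin (r j)) (acl ℂ (L : Set K))) = 0 := by
      rw [bd, bdeg, aeval_X, if_neg hs, Polynomial.natDegree_C]
    rw [h4, h5]
    simp
  have hc0 : c' j0 = -(ρ : ℤ) := mord_inf (h j0) hρ hr fun k => hP.ord_U (by
    unfold blk
    rw [Finset.mem_filter]
    exact ⟨Finset.mem_univ _, rfl⟩)
  have hc : ∀ j, j ≠ j0 → c' j = 0 := fun j hj => mord_zero (h j) fun k => by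
    right
    rw [hord]
    intro hs
    unfold blk at hs
    rw [Finset.mem_filter] at hs
    exact hj hs.2
  have h5 : ∀ j i, P.ord (lmv A u j i) = ε j i - (if j = j0 then (ρ : ℤ) else 0) := fun j i => by
    have h6 := (h j).2.2 i
    change P.ord (lmv A u j i) = _ at h6
    rw [h6]
    by_cases hj : j = j0
    · have h7 : c' j = -(ρ : ℤ) := by
        rw [hj]
        exact hc0
      rw [if_pos hj, h7]
      ring
    · rw [if_neg hj, hc j hj]
      ring
  rw [ord_phi hl, card_blk]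
  have hB : (q j0 : ℚ) * ρ ≤ (((∑ j, q j) * ∑ s, (P.ord (u s)).natAbs : ℕ) : ℚ) := by
    have h7 : q j0 ≤ ∑ j, q j := Finset.single_le_sum (fun _ _ => Nat.zero_le _)
      (Finset.mem_univ j0)
    have h8 : ρ ≤ ∑ s, (P.ord (u s)).natAbs := by
      refine le_trans ?_ (Finset.single_le_sum (f := fun s => (P.ord (u s)).natAbs)
        (fun _ _ => Nat.zero_le _) (Finset.mem_univ (⟨j0, ⟨0, hr⟩⟩ : Σ j, Fin (r j))))
      have h9 := hP.ord_U hmem
      omega
    exact_mod_cast Nat.mul_le_mul h7 h8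
  have h6 : (m : ℚ) * (Δ P + (ρ - 1)) + m * (((r j0 + 1 : ℚ) - ∑ i, w j0 i) * ρ) ≤
      ((∑ j, ∑ i, (⌈(m : ℚ) * w j i⌉₊ : ℤ) * P.ord (lmv A u j i) : ℤ) : ℚ) +
        m * (ρ * (r j0 + 1)) + (((∑ j, q j) * ∑ s, (P.ord (u s)).natAbs : ℕ) : ℚ) := by
    have h7 : (m : ℚ) * (∑ j, ∑ i, w j i * ε j i) ≤
        ∑ j, ∑ i, ((⌈(m : ℚ) * w j i⌉₊ : ℕ) : ℚ) * ε j i := by
      rw [Finset.mul_sum]
      refine Finset.sum_le_sum fun j _ => ?_
      rw [Finset.mul_sum]
      refine Finset.sum_le_sum fun i _ => ?_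
      rw [← mul_assoc]
      exact mul_le_mul_of_nonneg_right (Nat.le_ceil _) (Nat.cast_nonneg _)
    have h8 : ((∑ j, ∑ i, (⌈(m : ℚ) * w j i⌉₊ : ℤ) * P.ord (lmv A u j i) : ℤ) : ℚ) =
        ∑ j, ∑ i, ((⌈(m : ℚ) * w j i⌉₊ : ℕ) : ℚ) * ε j i -
          (∑ i, ((⌈(m : ℚ) * w j0 i⌉₊ : ℕ) : ℚ)) * ρ := by
      push_cast
      have h9 : ∀ j, ∑ i, ((⌈(m : ℚ) * w j i⌉₊ : ℕ) : ℚ) * (P.ord (lmv A u j i) : ℚ) =
          ∑ i, ((⌈(m : ℚ) * w j i⌉₊ : ℕ) : ℚ) * ε j i -
            (if j = j0 then (∑ i, ((⌈(m : ℚ) * w j i⌉₊ : ℕ) : ℚ)) * ρ else 0) := by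
        intro j
        have h10 : ∀ i, ((⌈(m : ℚ) * w j i⌉₊ : ℕ) : ℚ) * (P.ord (lmv A u j i) : ℚ) =
            ((⌈(m : ℚ) * w j i⌉₊ : ℕ) : ℚ) * ε j i -
              (if j = j0 then ((⌈(m : ℚ) * w j i⌉₊ : ℕ) : ℚ) * ρ else 0) := by
          intro i
          rw [h5 j i]
          split_ifs
          · push_cast
            ring
          · push_cast
            ring
        rw [Finset.sum_congr rfl fun i _ => h10 i, Finset.sum_sub_distrib]
        split_ifs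
        · rw [Finset.sum_mul]
        · rw [Finset.sum_const_zero]
      rw [Finset.sum_congr rfl fun j _ => h9 j, Finset.sum_sub_distrib, Finset.sum_ite_eq',
        if_pos (Finset.mem_univ _)]
    have h9 : (∑ i, ((⌈(m : ℚ) * w j0 i⌉₊ : ℕ) : ℚ)) ≤ m * ∑ i, w j0 i + q j0 := by
      have h10 : ∀ i, ((⌈(m : ℚ) * w j0 i⌉₊ : ℕ) : ℚ) ≤ m * w j0 i + 1 := fun i =>
        (Nat.ceil_lt_add_one (mul_nonneg (Nat.cast_nonneg _) (hw0 j0 i))).le
      refine (Finset.sum_le_sum fun i _ => h10 i).trans (le_of_eq ?_)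
      rw [Finset.sum_add_distrib, Finset.mul_sum, Finset.sum_const, Finset.card_univ,
        Fintype.card_fin, nsmul_eq_mul, mul_one]
    have h10 := mul_le_mul_of_nonneg_right h9 (Nat.cast_nonneg (α := ℚ) ρ)
    have h11 := mul_le_mul_of_nonneg_left h3 (Nat.cast_nonneg (α := ℚ) m)
    rw [h8]
    push_cast at h11 ⊢
    push_cast at hB
    nlinarith
  have h7 := (Rat.cast_le (K := ℝ)).2 h6
  push_cast at h7 ⊢
  exact h7

end

end Pool.Agent.Y191
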