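import Pool.Agent.Y191.Cyc
import Pool.Agent.Y191.MovAb

/-!
Fibre products of cyclic covers of the line: the bounds for the multiplier.
-/

set_option autoImplicit false
set_option linter.overlappingInstances false
set_option linter.unusedSectionVars false

open FF MvPolynomial Pool.Agent.W603.LV Pool.Agent.TH585.SV

namespace Pool.Agent.Y191

section cyc

variable {K : Type} [Field K] [Algebra ℂ K] {F : IntermediateField ℂ K} {e : ℕ}
variable {x y : Fin e → K} {m s : Fin e → ℕ} {g : ∀ j, Fin (s j) → Polynomial F}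
  {a : ∀ j, Fin (s j) → ℕ} {c : Fin e → K} {P : Place ℂ K}

theorem ord_pp {s : Fin e → ℕ} {v : ∀ j, Fin (s j) → K} (hv : ∀ j k, v j k ≠ 0)
    (E : ∀ j, Fin (s j) → ℕ) :
    P.ord (∏ j, ∏ k, v j k ^ E j k) = ∑ j, ∑ k, (E j k : ℤ) * P.ord (v j k) := by
  rw [Pool.Agent.W619.PQ.ord_prod _ P _ fun j _ => Finset.prod_ne_zero_iff.2 fun i _ =>
    pow_ne_zero _ (hv j i)]
  refine Finset.sum_congr rfl fun j _ => ?_
  rw [Pool.Agent.W619.PQ.ord_prod _ P _ fun i _ => pow_ne_zero _ (hv j i)]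
  exact Finset.sum_congr rfl fun i _ => P.ord_pow _ _

theorem phic_reg : ∃ S : Finset K, ∀ P : Place ℂ K, (∀ s ∈ S, P.Reg s) →
    ∀ n : ℕ, 1 ≤ n → P.Reg (phic x m s g a n) := by
  classical
  refine ⟨Finset.univ.image fun z : Σ j, Fin (s j) => Polynomial.aeval (x z.1) (g z.1 z.2),
    fun P hP n _ => ?_⟩
  unfold phic
  refine Finset.prod_induction _ (fun x => P.Reg x) (fun a b ha hb => P.reg_mul ha hb)
    P.reg_one fun j _ => ?_
  refine Finset.prod_induction _ (fun x => P.Reg x) (fun a b ha hb => P.reg_mul ha hb)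
    P.reg_one fun i _ => ?_
  have h1 : P.Reg (Polynomial.aeval (x j) (g j i)) := hP _ (Finset.mem_image.2
    ⟨⟨j, i⟩, Finset.mem_univ _, rfl⟩)
  have h2 := Ge.pow (P := P) (N := 0) h1 ⌈(n : ℚ) * wtc (m j) (a j i)⌉₊
  rw [mul_zero] at h2
  exact h2

namespace CycData

variable [CharZero F] (h : CycData F x y m s g a c)
include h

theorem phic_ne (n : ℕ) : phic x m s g a n ≠ 0 :=
  Finset.prod_ne_zero_iff.2 fun j _ => Finset.prod_ne_zero_iff.2 fun k _ =>
    pow_ne_zero _ (h.aeval_ne' (h.g_ne j k))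

theorem ord_phic (n : ℕ) : P.ord (phic x m s g a n) = ∑ j, ∑ k,
    ((⌈(n : ℚ) * wtc (m j) (a j k)⌉₊ : ℕ) : ℤ) * P.ord (Polynomial.aeval (x j) (g j k)) :=
  ord_pp (fun j k => h.aeval_ne' (h.g_ne j k)) _

theorem phic_lin (P : Place ℂ K) :
    ∃ C : ℕ, ∀ n : ℕ, 1 ≤ n → Ge P (-((C * n : ℕ) : ℤ)) (phic x m s g a n) := by
  refine ⟨∑ j, ∑ i, (P.ord (Polynomial.aeval (x j) (g j i))).natAbs, fun n _ => Or.inr ?_⟩
  rw [h.ord_phic]
  have h1 : ∀ j i, -(((P.ord (Polynomial.aeval (x j) (g j i))).natAbs * n : ℕ) : ℤ) ≤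
      ((⌈(n : ℚ) * wtc (m j) (a j i)⌉₊ : ℕ) : ℤ) * P.ord (Polynomial.aeval (x j) (g j i)) := by
    intro j i
    have h2 := ceil_lin (wtc_le (m := m j) (a j i)) n
    obtain ⟨b, hb⟩ : ∃ b : ℕ, b = (P.ord (Polynomial.aeval (x j) (g j i))).natAbs := ⟨_, rfl⟩
    obtain ⟨a', ha⟩ : ∃ a' : ℕ, a' = ⌈(n : ℚ) * wtc (m j) (a j i)⌉₊ := ⟨_, rfl⟩
    rw [← ha] at h2
    rw [← hb, ← ha]
    have h3 : (a' : ℤ) ≤ n := by exact_mod_cast h2
    have h4 : -(b : ℤ) ≤ P.ord (Polynomial.aeval (x j) (g j i)) := by omega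
    have h5 : (0 : ℤ) ≤ (a' : ℤ) := Int.natCast_nonneg _
    have h6 : (0 : ℤ) ≤ (b : ℤ) := Int.natCast_nonneg _
    push_cast
    nlinarith
  calc -(((∑ j, ∑ i, (P.ord (Polynomial.aeval (x j) (g j i))).natAbs) * n : ℕ) : ℤ)
      = ∑ j, ∑ i, -(((P.ord (Polynomial.aeval (x j) (g j i))).natAbs * n : ℕ) : ℤ) := by
        push_cast
        simp only [Finset.sum_neg_distrib, Finset.sum_mul]
    _ ≤ _ := Finset.sum_le_sum fun j _ => Finset.sum_le_sum fun i _ => h1 j i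

/-- the multiplier at the prime divisors of the affine space -/
theorem cyc_fin {G : MvPolynomial (Fin e) F} (hG : Irreducible G) (hP : AdicF P x G) (n : ℕ) :
    (n : ℝ) * (P.ord (aeval x G) - 1) ≤ P.ord (phic x m s g a n) := by
  have h1 := h.ram hG hP
  have hnn : ∀ j k, 0 ≤ P.ord (Polynomial.aeval (x j) (g j k)) := by
    intro j k
    have h2 := (hP (hat j (g j k)) fun h0 => h.g_ne j k (hat_inj h0)).1
    rwa [aeval_hat] at h2
  have h2 : (n : ℚ) * (P.ord (aeval x G) - 1) ≤ ((P.ord (phic x m s g a n) : ℤ) : ℚ) := by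
    rw [h.ord_phic]
    refine (mul_le_mul_of_nonneg_left h1 (Nat.cast_nonneg (α := ℚ) n)).trans ?_
    rw [Finset.mul_sum]
    push_cast
    refine Finset.sum_le_sum fun j _ => ?_
    rw [Finset.mul_sum]
    refine Finset.sum_le_sum fun k _ => ?_
    rw [← mul_assoc]
    exact mul_le_mul_of_nonneg_right (Nat.le_ceil _) (by exact_mod_cast hnn j k)
  exact_mod_cast h2

/-- the order of a polynomial at a place over infinity -/
theorem ord_inf {j0 : Fin e} {ρ : ℕ} (hP : DegF F P x {j0} ρ) (j : Fin e) {p : Polynomial F}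
    (hp : p ≠ 0) : P.ord (Polynomial.aeval (x j) p) = if j = j0 then -((ρ : ℤ) * p.natDegree)
      else 0 := by
  have h1 := hP (hat j p) fun h0 => hp (hat_inj h0)
  rw [aeval_hat] at h1
  rw [h1]
  split_ifs with hj
  · rw [hj, bd_hat]
  · rw [bd_hat_ne (fun h => hj h.symm)]
    simp

/-- **The ramification at infinity.** -/
theorem ram_inf {j0 : Fin e} {ρ : ℕ} (hρ : 1 ≤ ρ) (hP : DegF F P x {j0} ρ) :
    (ρ : ℚ) - 1 ≤ wtc (m j0) (∑ k, a j0 k * (g j0 k).natDegree) * ρ := by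
  classical
  obtain ⟨ha1, ha2⟩ := hP.adic hρ (Finset.mem_singleton_self j0)
  have hE := adic_vg (X_prime.irreducible) ha2
  rw [aeval_X, ha1] at hE
  have hE0 : VG P ρ (IntermediateField.adjoin ℂ ((F : Set K) ∪ Set.range x)) := by
    refine hE.mono (IntermediateField.adjoin_le_iff.2 ?_)
    rintro z (hz | ⟨i, rfl⟩)
    · exact IntermediateField.subset_adjoin ℂ _ (Or.inl hz)
    · have h1 : flp x {j0} j0 i ∈
          IntermediateField.adjoin ℂ ((F : Set K) ∪ Set.range (flp x {j0} j0)) :=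
        IntermediateField.subset_adjoin ℂ _ (Or.inr ⟨i, rfl⟩)
      by_cases hi : i = j0
      · have h2 : flp x {j0} j0 i = (x i)⁻¹ := by
          unfold flp
          rw [if_pos hi, hi]
        rw [h2] at h1
        rw [← inv_inv (x i)]
        exact inv_mem h1
      · have h2 : flp x {j0} j0 i = x i := by
          unfold flp
          rw [if_neg hi, if_neg (fun h => hi (Finset.mem_singleton.1 h))]
        rwa [h2] at h1
  have htr : ∀ z ∈ F, z ≠ 0 → P.ord z = 0 := ha2.triv X_prime.irreducible.not_isUnit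
  have hπ : (x j0)⁻¹ ∈ IntermediateField.adjoin ℂ ((F : Set K) ∪ Set.range x) :=
    inv_mem (IntermediateField.subset_adjoin ℂ _ (Or.inr ⟨j0, rfl⟩))
  have hπt : P.ord (x j0)⁻¹ = (ρ : ℤ) := by
    have h2 : flp x {j0} j0 j0 = (x j0)⁻¹ := by
      unfold flp
      rw [if_pos rfl]
    rw [← h2, ha1]
  have h1 := tower_dvd (y := y) (m := m) (by exact_mod_cast hρ) hE0 hπ hπt h.pos h.u_mem h.u_ne
    h.eq h.ET_top j0 (a := -((∑ k, a j0 k * (g j0 k).natDegree : ℕ) : ℤ)) (by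
      rw [h.ord_u htr j0]
      push_cast
      rw [neg_mul, Finset.sum_mul, ← Finset.sum_neg_distrib]
      refine Finset.sum_congr rfl fun k _ => ?_
      rw [h.ord_inf hP j0 (h.g_ne j0 k), if_pos rfl]
      ring)
    (fun i hi => by
      rw [h.ord_u htr i]
      refine Finset.sum_eq_zero fun k _ => ?_
      rw [h.ord_inf hP i (h.g_ne i k), if_neg hi, mul_zero])
  rw [Int.natAbs_neg, Int.natAbs_natCast] at h1
  exact_mod_cast wtc_bound (h.pos j0) h1

/-- the multiplier at infinity -/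
theorem cyc_inf {j0 : Fin e} {ρ : ℕ} (hρ : 1 ≤ ρ) (hP : DegF F P x {j0} ρ) (n : ℕ) :
    (n : ℝ) * (ρ - 1) + n * ((2 - wsum m s g a j0 : ℚ) * ρ) ≤
      P.ord (phic x m s g a n) + n * (ρ * (({j0} : Finset (Fin e)).card + 1)) +
        ((∑ j, ∑ k, (g j k).natDegree) * ∑ i, (P.ord (x i)).natAbs : ℕ) := by
  classical
  have h1 := h.ram_inf hρ hP
  rw [Finset.card_singleton]
  have hx : P.ord (x j0) = -(ρ : ℤ) := hP.ord_U (Finset.mem_singleton_self j0)
  have hB : ((∑ k, (g j0 k).natDegree : ℕ) : ℚ) * ρ ≤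
      (((∑ j, ∑ k, (g j k).natDegree) * ∑ i, (P.ord (x i)).natAbs : ℕ) : ℚ) := by
    have h7 : ∑ k, (g j0 k).natDegree ≤ ∑ j, ∑ k, (g j k).natDegree :=
      Finset.single_le_sum (f := fun j => ∑ k, (g j k).natDegree) (fun _ _ => Nat.zero_le _)
        (Finset.mem_univ j0)
    have h8 : ρ ≤ ∑ i, (P.ord (x i)).natAbs := by
      refine le_trans ?_ (Finset.single_le_sum (f := fun i => (P.ord (x i)).natAbs)
        (fun _ _ => Nat.zero_le _) (Finset.mem_univ j0))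
      omega
    exact_mod_cast Nat.mul_le_mul h7 h8
  have h3 : ((P.ord (phic x m s g a n) : ℤ) : ℚ) =
      -((∑ k, ((⌈(n : ℚ) * wtc (m j0) (a j0 k)⌉₊ : ℕ) : ℚ) * (g j0 k).natDegree) * ρ) := by
    rw [h.ord_phic, Finset.sum_eq_single j0]
    · push_cast
      rw [Finset.sum_mul, ← Finset.sum_neg_distrib]
      refine Finset.sum_congr rfl fun k _ => ?_
      rw [h.ord_inf hP j0 (h.g_ne j0 k), if_pos rfl]
      push_cast
      ring
    · intro j _ hj
      refine Finset.sum_eq_zero fun k _ => ?_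
      rw [h.ord_inf hP j (h.g_ne j k), if_neg hj, mul_zero]
    · intro h0
      exact absurd (Finset.mem_univ _) h0
  have h4 : ∑ k, ((⌈(n : ℚ) * wtc (m j0) (a j0 k)⌉₊ : ℕ) : ℚ) * (g j0 k).natDegree ≤
      n * ∑ k, (g j0 k).natDegree * wtc (m j0) (a j0 k) + ((∑ k, (g j0 k).natDegree : ℕ) : ℚ) := by
    rw [Finset.mul_sum]
    push_cast
    rw [← Finset.sum_add_distrib]
    refine Finset.sum_le_sum fun k _ => ?_
    have h5 : ((⌈(n : ℚ) * wtc (m j0) (a j0 k)⌉₊ : ℕ) : ℚ) ≤ n * wtc (m j0) (a j0 k) + 1 :=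
      (Nat.ceil_lt_add_one (mul_nonneg (Nat.cast_nonneg _) (wtc_nonneg (h.pos j0) _))).le
    have h6 := mul_le_mul_of_nonneg_right h5 (Nat.cast_nonneg (α := ℚ) (g j0 k).natDegree)
    linarith
  have h5 : (n : ℚ) * (ρ - 1) + n * ((2 - wsum m s g a j0 : ℚ) * ρ) ≤
      ((P.ord (phic x m s g a n) : ℤ) : ℚ) + n * (ρ * (1 + 1)) +
        (((∑ j, ∑ k, (g j k).natDegree) * ∑ i, (P.ord (x i)).natAbs : ℕ) : ℚ) := by
    rw [h3]
    unfold wsum
    have h6 := mul_le_mul_of_nonneg_right h4 (Nat.cast_nonneg (α := ℚ) ρ)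
    have h7 := mul_le_mul_of_nonneg_left h1 (Nat.cast_nonneg (α := ℚ) n)
    nlinarith
  have h6 := (Rat.cast_le (K := ℝ)).2 h5
  push_cast at h6 ⊢
  exact h6

end CycData

end cyc

end Pool.Agent.Y191
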