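import Pool.Agent.Y191.Cyc2
import Pool.Agent.Y191.MovCan

/-!
Abundance for fibre products of cyclic covers of the line: the upper bound.
-/

set_option autoImplicit false
set_option linter.overlappingInstances false
set_option linter.unusedSectionVars false

open FF MvPolynomial Pool.Agent.W602.GT Pool.Agent.W603.LV Pool.Agent.W619.PQ
open Pool.Agent.Y172 Pool.Agent.TH585.SV

namespace Pool.Agent.Y191

section cyc

variable {K : Type} [Field K] [Algebra ℂ K] {F : IntermediateField ℂ K} {e N n : ℕ}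
variable {x y : Fin e → K} {m s : Fin e → ℕ} {g : ∀ j, Fin (s j) → Polynomial F}
  {a : ∀ j, Fin (s j) → ℕ} {c : Fin e → K} {z : Fin (N + 1) → K}

/-- **Abundance**, abstract form. -/
theorem cyc_can (hz : NormalModel z) (hn : Algebra.trdeg ℂ K = n) (hcan : Canonical z n)
    (hF : Closed F) (h : CycData F x y m s g a c) :
    ((∃ j, wsum m s g a j < 2) → kodairaDim z n 0 = ⊥ ∧
      ∀ A, Effective z A → numericalDim z n 0 A = ⊥) ∧
    ∀ b : ℕ, (∀ j, 2 ≤ wsum m s g a j) →
      n = b + (Finset.univ.filter fun j => wsum m s g a j = 2).card →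
      KodairaGe n {P | IsPrimeDivisor z P} (fun _ => 0) b →
      kodairaDim z n 0 = (b : WithBot ℕ) ∧
        ∀ A, Effective z A → Integral z A → numericalDim z n 0 A = (b : EReal) := by
  classical
  have hess := hz.ess
  have hch : CharZero F := charZero_of_injective_algebraMap (algebraMap ℂ F).injective
  have hΔ : Effective z (0 : Place ℂ K → ℚ) := ⟨fun _ _ => le_rfl, by simp⟩
  have e0 : ∀ (m : ℕ) (B : Place ℂ K → ℚ), m • (0 : Place ℂ K → ℚ) + B = B := fun m B => by simp
  obtain ⟨p, z', e', D, hFr⟩ := exists_FrF hn hF h.bas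
  obtain ⟨Sφ, hSφ⟩ := phic_reg (x := x) (m := m) (s := s) (g := g) (a := a)
  constructor
  · rintro ⟨j0, hj0⟩
    have hz' : ∀ A', Effective z A' → kodairaDim z n 0 = ⊥ ∧ numericalDim z n 0 A' = ⊥ := by
      intro A' hA'
      refine not_psef hA' fun h' => ?_
      obtain ⟨m0, hm0⟩ := zero_can (A := A') hz hcan hA' hn hFr h.phic_ne
        (fun P G hG hP n _ => h.cyc_fin hG hP n) (Finset.mem_singleton_self j0)
        (fun P => (∑ j, ∑ k, (g j k).natDegree) * ∑ i, (P.ord (x i)).natAbs)
        (τ := ((2 - wsum m s g a j0 : ℚ) : ℝ)) (by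
          have : (0 : ℚ) < 2 - wsum m s g a j0 := by linarith
          exact_mod_cast this)
        (fun P ρ hρ hP n _ => h.cyc_inf hρ hP n)
      obtain ⟨m', hm', s', hs', hs'0⟩ := h' m0
      rw [e0] at hs'
      exact hs'0 (hm0 m' hm' s' hs')
    exact ⟨(hz' 0 hΔ).1, fun A' hA' => (hz' A' hA').2⟩
  · intro b hws hna hK
    obtain ⟨m0, hm0, ω, hω, E', h4, h5⟩ := hK
    let ι := {j : Fin e // wsum m s g a j = 2}
    have hup : ∀ A, Effective z A → ∃ C : ℕ, ∀ m : ℕ, 1 ≤ m → ∀ (r : ℕ) (f : Fin r → K),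
        LinearIndependent ℂ f →
        (∀ i, ∃ ω, Pool.Agent.Y172.IsSection z n m (m • (0 : Place ℂ K → ℚ) + A) ω ∧
          ω D = f i) →
        r ≤ C * m ^ b := by
      intro A' hA'
      simp only [e0]
      refine up_can (ι := ι) (J := fun j => {j.1}) (l := fun j => j.1)
        (T := Finset.univ.filter fun j => wsum m s g a j = 2) hz hcan hA' hn hFr h.phic_ne
        h.phic_lin hSφ (fun P G hG hP n _ => h.cyc_fin hG hP n)
        (fun j => Finset.mem_singleton_self _)
        (fun P => (∑ j, ∑ k, (g j k).natDegree) * ∑ i, (P.ord (x i)).natAbs)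
        (fun j P ρ hρ hP n _ => ?_) (fun j hj => ?_) hna
      · have h8 := h.cyc_inf hρ hP n
        have h9 : (2 - wsum m s g a j.1 : ℚ) = 0 := by
          rw [j.2]
          ring
        rw [h9, Rat.cast_zero, zero_mul, mul_zero, add_zero] at h8
        exact h8
      · exact ⟨⟨j, (Finset.mem_filter.1 hj).2⟩, Finset.mem_singleton_self _⟩
    refine dims hΔ hFr.frame hup hm0 (ω := ω) (fun j => ⟨(hω j).1, fun P hP G hG => ?_⟩) h4 h5
    rcases (hω j).2 P hP (hP.divisorial hz hn) G hG with h6 | h6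
    · exact Or.inl h6
    · right
      have e1 : -((m0 • (0 : Place ℂ K → ℚ)) P) = 0 := by simp
      rw [e1]
      rw [mul_zero, neg_zero] at h6
      have h7 : (0 : ℤ) ≤ P.ord (ω j G) := by exact_mod_cast h6
      exact_mod_cast h7

end cyc

end Pool.Agent.Y191
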