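import Pool.Agent.Y191.Push2

/-!
Fibre products of cyclic covers of the line: the extension which contains the branch points.
-/

set_option autoImplicit false
set_option linter.overlappingInstances false
set_option linter.unusedSectionVars false

open FF Pool.Agent.W602.GT Pool.Agent.W603.LV
open Pool.Agent.TH585.SV Pool.Agent.Y172

namespace Pool.Agent.Y191

theorem basis_down {K : Type} [Field K] [Algebra ℂ K] {L : IntermediateField ℂ K} {ι : Type}
    {u : ι → K} (hu : IsTranscendenceBasis (acl ℂ (L : Set K)) u) : IsTranscendenceBasis L u := by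
  have hLF : L ≤ acl ℂ (L : Set K) := fun x hx => subset_acl _ hx
  let _ : Algebra L (acl ℂ (L : Set K)) := (IntermediateField.inclusion hLF).toAlgebra
  have : IsScalarTower L (acl ℂ (L : Set K)) K := IsScalarTower.of_algebraMap_eq fun x => rfl
  have : Algebra.IsAlgebraic L (acl ℂ (L : Set K)) := by
    refine ⟨fun x => ?_⟩
    have h1 : IsAlgebraic (IntermediateField.adjoin ℂ (L : Set K)) (x : K) := mem_acl.1 x.2
    rw [IntermediateField.adjoin_self] at h1
    exact (isAlgebraic_algebraMap_iff (R := L) (A := K)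
      (FaithfulSMul.algebraMap_injective (acl ℂ (L : Set K)) K)).1 h1
  exact ⟨hu.1.restrictScalars (algebraMap L (acl ℂ (L : Set K))).injective,
    fun s hs hr => hu.2 s (hs.extendScalars (acl ℂ (L : Set K))) hr⟩

theorem one_le_wt {m a ε : ℕ} (hm : 1 ≤ m) (hε : ε ≠ 0) (h : (m : ℤ) ∣ a * ε) :
    (1 : ℚ) ≤ (1 - wtc m a) * ε := by
  have h1 : m ∣ a * ε := by exact_mod_cast h
  have h2 : m ∣ m.gcd a * ε := by
    rw [← Nat.gcd_mul_right]
    exact Nat.dvd_gcd (dvd_mul_right _ _) h1
  have h3 : m ≤ m.gcd a * ε := Nat.le_of_dvd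
    (Nat.mul_pos (Nat.gcd_pos_of_pos_left a hm) (Nat.pos_of_ne_zero hε)) h2
  have h4 : (m : ℚ) ≤ (m.gcd a : ℚ) * ε := by exact_mod_cast h3
  have h5 : (0 : ℚ) < m := by exact_mod_cast hm
  unfold wtc
  have h6 : (1 - (1 - (m.gcd a : ℚ) / m)) * ε = (m.gcd a : ℚ) * ε / m := by ring
  rw [h6, le_div_iff₀ h5, one_mul]
  exact h4

section ext

variable {K : Type} [Field K] [Algebra ℂ K]

/-- the extension which contains the roots of a polynomial -/
theorem exists_ext {L : IntermediateField ℂ K} (p : Polynomial (acl ℂ (L : Set K))) (hp : p ≠ 0) :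
    ∃ (K' : Type) (_ : Field K') (_ : Algebra ℂ K') (_ : Algebra K K')
      (_ : IsScalarTower ℂ K K') (_ : FiniteDimensional K K'),
      ((p.map (algebraMap _ K)).map (algebraMap K K')).Splits ∧
      ∃ α : K', IsAlgebraic (upF K' L) α ∧ ∀ z : K', ∃ p : Polynomial K,
        z = Polynomial.aeval α p := by
  classical
  obtain ⟨P, hP⟩ : ∃ P : Polynomial K, P = p.map (algebraMap _ K) := ⟨_, rfl⟩
  have hP0 : P ≠ 0 := by
    rw [hP]
    exact (Polynomial.map_ne_zero_iff (algebraMap (acl ℂ (L : Set K)) K).injective).2 hp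
  have hcL : CharZero L := charZero_of_injective_algebraMap (algebraMap ℂ L).injective
  let K' := P.SplittingField
  refine ⟨K', inferInstance, inferInstance, inferInstance, inferInstance, inferInstance, ?_, ?_⟩
  · rw [← hP]
    exact Polynomial.SplittingField.splits P
  -- the roots are algebraic
  have hroot : ∀ b ∈ P.rootSet K', IsAlgebraic L b := by
    intro b hb
    have h1 : Polynomial.aeval b P = 0 := (Polynomial.mem_rootSet.1 hb).2
    have h2 : IsAlgebraic (acl ℂ (L : Set K)) b := by
      refine ⟨p, hp, ?_⟩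
      have h3 : Polynomial.aeval b P =
          Polynomial.aeval b (p.map (algebraMap (acl ℂ (L : Set K)) K)) := congrArg _ hP
      rw [h3, Polynomial.aeval_map_algebraMap] at h1
      exact h1
    have hLF : L ≤ acl ℂ (L : Set K) := fun x hx => subset_acl _ hx
    let _ : Algebra L (acl ℂ (L : Set K)) := (IntermediateField.inclusion hLF).toAlgebra
    have : IsScalarTower L (acl ℂ (L : Set K)) K := IsScalarTower.of_algebraMap_eq fun x => rfl
    have : IsScalarTower L (acl ℂ (L : Set K)) K' := IsScalarTower.of_algebraMap_eq fun x => rfl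
    have : Algebra.IsAlgebraic L (acl ℂ (L : Set K)) := by
      refine ⟨fun x => ?_⟩
      have h1 : IsAlgebraic (IntermediateField.adjoin ℂ (L : Set K)) (x : K) := mem_acl.1 x.2
      rw [IntermediateField.adjoin_self] at h1
      exact (isAlgebraic_algebraMap_iff (R := L) (A := K)
        (FaithfulSMul.algebraMap_injective (acl ℂ (L : Set K)) K)).1 h1
    exact h2.restrictScalars L
  -- a primitive element
  obtain ⟨E, hE⟩ : ∃ E : IntermediateField L K', E = IntermediateField.adjoin L (P.rootSet K') :=
    ⟨_, rfl⟩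
  have hfin : FiniteDimensional L E := by
    rw [hE]
    have : Finite (P.rootSet K') := (P.rootSet_finite K').to_subtype
    exact IntermediateField.finiteDimensional_adjoin fun b hb => (hroot b hb).isIntegral
  obtain ⟨α, hα⟩ := Field.exists_primitive_element L E
  have hαa : IsAlgebraic L (α : K') := by
    have h1 : IsAlgebraic L α := Algebra.IsAlgebraic.isAlgebraic α
    exact h1.algebraMap (A := K')
  refine ⟨(α : K'), alg_up hαa, ?_⟩
  have hmem : ∀ b ∈ P.rootSet K', b ∈ Algebra.adjoin K {(α : K')} := by
    intro b hb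
    have h1 : b ∈ E := by
      rw [hE]
      exact IntermediateField.subset_adjoin L _ hb
    have h2 : (⟨b, h1⟩ : E) ∈ IntermediateField.adjoin L {α} := by
      rw [hα]
      trivial
    have h3 : IsAlgebraic L α := Algebra.IsAlgebraic.isAlgebraic α
    rw [← IntermediateField.mem_toSubalgebra,
      IntermediateField.adjoin_simple_toSubalgebra_of_isAlgebraic h3,
      Algebra.adjoin_singleton_eq_range_aeval] at h2
    obtain ⟨q, hq⟩ := h2
    have h4 : b = Polynomial.aeval (α : K') (q.map (algebraMap L K)) := by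
      rw [Polynomial.aeval_map_algebraMap]
      have h5 := congrArg (fun z : E => (z : K')) hq
      change ((Polynomial.aeval α q : E) : K') = b at h5
      rw [← h5]
      exact (Polynomial.aeval_algebraMap_apply K' α q).symm
    rw [h4]
    exact Polynomial.aeval_mem_adjoin_singleton _ _
  have htop : Algebra.adjoin K {(α : K')} = ⊤ := by
    rw [eq_top_iff, ← Polynomial.SplittingField.adjoin_rootSet P]
    exact Algebra.adjoin_le hmem
  intro z
  have h1 : z ∈ Algebra.adjoin K {(α : K')} := by
    rw [htop]
    trivial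
  rw [Algebra.adjoin_singleton_eq_range_aeval] at h1
  obtain ⟨q, hq⟩ := h1
  exact ⟨q, hq.symm⟩

end ext

end Pool.Agent.Y191
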