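import Pool.Agent.Y191.CycLow

/-!
Fibre products of cyclic covers of the line: the arrangement of the branch points.
-/

set_option autoImplicit false
set_option linter.overlappingInstances false
set_option linter.unusedSectionVars false

open FF Pool.Agent.W602.GT Pool.Agent.W603.LV
open Pool.Agent.TH585.SV Pool.Agent.Y172

namespace Pool.Agent.Y191

/-- the enumeration of the roots -/
theorem split_enum {K' : Type} [Field K'] {G : Polynomial K'} (hs : G.Separable) (hG : G.Splits)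
    {d : ℕ} (hd : G.natDegree = d) : ∃ β : Fin d → K', Function.Injective β ∧
      G = Polynomial.C G.leadingCoeff * ∏ t, (Polynomial.X - Polynomial.C (β t)) := by
  classical
  have h1 : G.roots.toFinset.card = d := by
    rw [Multiset.toFinset_card_of_nodup (Polynomial.nodup_roots hs),
      ← hG.natDegree_eq_card_roots, hd]
  let e : Fin d ≃ G.roots.toFinset := (Finset.equivFinOfCardEq h1).symm
  refine ⟨fun t => (e t : K'), fun t t' h => e.injective (Subtype.ext h), ?_⟩
  conv_lhs => rw [hG.eq_prod_roots]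
  congr 1
  rw [Equiv.prod_comp e fun b : G.roots.toFinset => (Polynomial.X - Polynomial.C (b : K')),
    Finset.prod_coe_sort G.roots.toFinset fun b => (Polynomial.X - Polynomial.C b)]
  unfold Finset.prod
  rw [Multiset.toFinset_val, (Polynomial.nodup_roots hs).dedup]

section arr

variable {K' : Type} [Field K'] {e : ℕ} {s : Fin e → ℕ}

/-- the numbers of points -/
abbrev cq {s : Fin e → ℕ} (d : ∀ j, Fin (s j) → ℕ) (j : Fin e) : ℕ := (∑ k, d j k) + 1

/-- the arrangement of points: infinity and the `β j k t` -/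
def cA {d : ∀ j, Fin (s j) → ℕ} (β : ∀ j (k : Fin (s j)), Fin (d j k) → K') (j : Fin e) :
    Fin (cq d j) → Fin (1 + 1) → K' :=
  Fin.cases (![1, 0] : Fin 2 → K') fun t =>
    (![-β j (finSigmaFinEquiv.symm t).1 (finSigmaFinEquiv.symm t).2, 1] : Fin 2 → K')

/-- the weights of the points -/
def cw (m : Fin e → ℕ) (a : ∀ j, Fin (s j) → ℕ) (d : ∀ j, Fin (s j) → ℕ) (j : Fin e) :
    Fin (cq d j) → ℚ :=
  Fin.cases (wtc (m j) (∑ k, a j k * d j k)) fun t => wtc (m j) (a j (finSigmaFinEquiv.symm t).1)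

theorem cw_nonneg {m : Fin e → ℕ} (hm : ∀ j, 1 ≤ m j) (a : ∀ j, Fin (s j) → ℕ)
    (d : ∀ j, Fin (s j) → ℕ) (j : Fin e) (i : Fin (cq d j)) : 0 ≤ cw m a d j i := by
  refine Fin.cases ?_ (fun t => ?_) i
  · exact wtc_nonneg (hm j) _
  · exact wtc_nonneg (hm j) _

theorem cw_le (m : Fin e → ℕ) (a : ∀ j, Fin (s j) → ℕ)
    (d : ∀ j, Fin (s j) → ℕ) (j : Fin e) (i : Fin (cq d j)) : cw m a d j i ≤ 1 := by
  refine Fin.cases ?_ (fun t => ?_) i
  · exact wtc_le _
  · exact wtc_le _

theorem cw_sum (m : Fin e → ℕ) (a : ∀ j, Fin (s j) → ℕ) (d : ∀ j, Fin (s j) → ℕ) (j : Fin e) :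
    ∑ i, cw m a d j i = ∑ k, d j k * wtc (m j) (a j k) + wtc (m j) (∑ k, a j k * d j k) := by
  have h1 : ∑ i, cw m a d j i = cw m a d j 0 + ∑ t : Fin (∑ k, d j k), cw m a d j t.succ :=
    Fin.sum_univ_succ _
  have h2 : ∑ t : Fin (∑ k, d j k), cw m a d j t.succ =
      ∑ k, (d j k : ℚ) * wtc (m j) (a j k) := by
    change ∑ t : Fin (∑ k, d j k), wtc (m j) (a j (finSigmaFinEquiv.symm t).1) = _
    rw [Equiv.sum_comp finSigmaFinEquiv.symm fun x : (Σ k, Fin (d j k)) => wtc (m j) (a j x.1),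
      Fintype.sum_sigma]
    refine Finset.sum_congr rfl fun k _ => ?_
    change ∑ _t : Fin (d j k), wtc (m j) (a j k) = _
    rw [Finset.sum_const, Finset.card_univ, Fintype.card_fin, nsmul_eq_mul]
  rw [h1, h2, add_comm]
  rfl

theorem cA_zero {d : ∀ j, Fin (s j) → ℕ} (β : ∀ j (k : Fin (s j)), Fin (d j k) → K') (j : Fin e) :
    cA β j 0 = (![1, 0] : Fin 2 → K') := rfl

theorem cA_succ {d : ∀ j, Fin (s j) → ℕ} (β : ∀ j (k : Fin (s j)), Fin (d j k) → K') (j : Fin e)
    (t : Fin (∑ k, d j k)) : cA β j t.succ =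
      (![-β j (finSigmaFinEquiv.symm t).1 (finSigmaFinEquiv.symm t).2, 1] : Fin 2 → K') := rfl

theorem cA_det {d : ∀ j, Fin (s j) → ℕ} {β : ∀ j (k : Fin (s j)), Fin (d j k) → K'}
    (hβ : ∀ j, Function.Injective fun x : (Σ k, Fin (d j k)) => β j x.1 x.2) (j : Fin e)
    (I : Fin (1 + 1) → Fin (cq d j)) (hI : Function.Injective I) :
    (Matrix.of fun k a => cA β j (I k) a).det ≠ 0 := by
  have h1 : (Matrix.of fun k a => cA β j (I k) a).det =
      cA β j (I 0) 0 * cA β j (I 1) 1 - cA β j (I 0) 1 * cA β j (I 1) 0 :=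
    Matrix.det_fin_two _
  rw [h1]
  have hne : I 0 ≠ I 1 := fun h => absurd (hI h) (by decide)
  obtain ⟨a, ha⟩ : ∃ a, a = I 0 := ⟨_, rfl⟩
  obtain ⟨b, hb⟩ : ∃ b, b = I 1 := ⟨_, rfl⟩
  rw [← ha, ← hb] at hne ⊢
  clear ha hb h1
  revert hne
  refine Fin.cases ?_ (fun t => ?_) a
  · refine Fin.cases ?_ (fun t' => ?_) b
    · exact fun h => absurd rfl h
    · intro _
      rw [cA_zero, cA_succ]
      simp
  · refine Fin.cases ?_ (fun t' => ?_) b
    · intro _
      rw [cA_zero, cA_succ]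
      simp
    · intro hne
      rw [cA_succ, cA_succ]
      simp only [Matrix.cons_val_zero, Matrix.cons_val_one, mul_one, one_mul]
      intro h0
      have h2 : β j (finSigmaFinEquiv.symm t).1 (finSigmaFinEquiv.symm t).2 =
          β j (finSigmaFinEquiv.symm t').1 (finSigmaFinEquiv.symm t').2 := by
        linear_combination -h0
      have h3 := finSigmaFinEquiv.symm.injective (hβ j h2)
      exact hne (by rw [h3])

end arr

end Pool.Agent.Y191
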