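import Pool.Agent.Y191.CycLow2

/-!
Fibre products of cyclic covers of the line: the multiplicities of the branch points.
-/

set_option autoImplicit false
set_option linter.overlappingInstances false
set_option linter.unusedSectionVars false

open FF Pool.Agent.W602.GT Pool.Agent.W603.LV
open Pool.Agent.TH585.SV Pool.Agent.Y172

namespace Pool.Agent.Y191

section mult

variable {K' : Type} [Field K'] [Algebra ℂ K'] {e : ℕ} {s : Fin e → ℕ} {m : Fin e → ℕ}
  {a : ∀ j, Fin (s j) → ℕ} {d : ∀ j, Fin (s j) → ℕ}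
  {β : ∀ j (k : Fin (s j)), Fin (d j k) → K'}

/-- the affine coordinates -/
def cu (U : Fin e → K') (x : Σ j : Fin e, Fin ((fun _ : Fin e => 1) j)) : K' := U x.1

theorem cyc_mult {Q : Place ℂ K'} {U : Fin e → K'} (hm : ∀ j, 1 ≤ m j)
    (hb : ∀ j k t, Ge Q 0 (β j k t))
    (hbb : ∀ j (x x' : Σ k, Fin (d j k)), x ≠ x' → β j x.1 x.2 - β j x'.1 x'.2 ≠ 0 ∧
      Q.ord (β j x.1 x.2 - β j x'.1 x'.2) = 0)
    (hne : ∀ j k t, U j - β j k t ≠ 0)
    (hy : ∀ j, ∃ z : ℤ, (m j : ℤ) * z =
      ∑ x : (Σ k, Fin (d j k)), (a j x.1 : ℤ) * Q.ord (U j - β j x.1 x.2))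
    {c' : Fin e → ℤ} {ε : ∀ j, Fin (cq d j) → ℕ}
    (ho : ∀ j, MOrd Q (cA β j) (hcd (cu U) j) (c' j) (ε j)) (hε : ∃ j i, ε j i ≠ 0) :
    (1 : ℝ) ≤ ∑ j, ∑ i, (1 - (cw m a d j i : ℝ)) * ε j i := by
  classical
  obtain ⟨j, i, hi⟩ := hε
  have hcd0 : hcd (r := fun _ : Fin e => 1) (cu U) j 0 = 1 := rfl
  have hcd1 : hcd (r := fun _ : Fin e => 1) (cu U) j 1 = U j := rfl
  have h0 : 0 = c' j + ε j 0 := by
    have h1 := (ho j).2.2 0
    have h2 : ∑ k, cA β j 0 k * hcd (r := fun _ : Fin e => 1) (cu U) j k = 1 := by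
      rw [Fin.sum_univ_two, hcd0, hcd1, cA_zero]
      simp
    rw [h2, Q.ord_one] at h1
    exact h1
  have ht : ∀ t : Fin (∑ k, d j k), Q.ord (U j - β j (finSigmaFinEquiv.symm t).1
      (finSigmaFinEquiv.symm t).2) = c' j + ε j t.succ := by
    intro t
    have h1 := (ho j).2.2 t.succ
    have h2 : ∑ k, cA β j t.succ k * hcd (r := fun _ : Fin e => 1) (cu U) j k =
        U j - β j (finSigmaFinEquiv.symm t).1 (finSigmaFinEquiv.symm t).2 := by
      rw [Fin.sum_univ_two, hcd0, hcd1, cA_succ]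
      simp only [Matrix.cons_val_zero, Matrix.cons_val_one, mul_one, one_mul]
      ring
    rw [h2] at h1
    exact h1
  have hc1 : c' j ≤ 0 := by omega
  have hc2 : c' j < 0 → ∀ x : (Σ k, Fin (d j k)), Q.ord (U j - β j x.1 x.2) = c' j := by
    intro hneg x
    obtain ⟨k, hk0, hk⟩ := (ho j).2.1
    have hU : U j ≠ 0 ∧ Q.ord (U j) = c' j := by
      revert hk0 hk
      refine Fin.cases (fun _ hk => ?_) (fun k => ?_) k
      · rw [hcd0, Q.ord_one] at hk
        omega
      · intro hk0 hk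
        have h1 : hcd (r := fun _ : Fin e => 1) (cu U) j k.succ = U j := rfl
        rw [h1] at hk0 hk
        exact ⟨hk0, hk⟩
    by_cases hβ : β j x.1 x.2 = 0
    · rw [hβ, sub_zero, hU.2]
    · have h1 := (hb j x.1 x.2).resolve_left hβ
      rw [sub_eq_add_neg, ← hU.2]
      refine (Q.ord_add_eq hU.1 (neg_ne_zero.2 hβ) ?_).2
      rw [Q.ord_neg, hU.2]
      omega
  obtain ⟨z, hz⟩ := hy j
  have hkey : (1 : ℚ) ≤ (1 - cw m a d j i) * ε j i := by
    revert hi
    refine Fin.cases (fun hi => ?_) (fun t hi => ?_) i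
    · -- infinity
      change (1 : ℚ) ≤ (1 - wtc (m j) (∑ k, a j k * d j k)) * ε j 0
      refine one_le_wt (hm j) hi ?_
      have hneg : c' j < 0 := by omega
      have h1 : ∑ x : (Σ k, Fin (d j k)), (a j x.1 : ℤ) * Q.ord (U j - β j x.1 x.2) =
          -(((∑ k, a j k * d j k : ℕ) : ℤ) * ε j 0) := by
        rw [Finset.sum_congr rfl fun x _ => by rw [hc2 hneg x], ← Finset.sum_mul,
          Fintype.sum_sigma]
        have h2 : ∀ k, ∑ _t : Fin (d j k), (a j k : ℤ) = (a j k : ℤ) * d j k := by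
          intro k
          rw [Finset.sum_const, Finset.card_univ, Fintype.card_fin, nsmul_eq_mul, mul_comm]
        have h3 : ∑ k, ∑ _t : Fin (d j k), (a j k : ℤ) = ((∑ k, a j k * d j k : ℕ) : ℤ) := by
          rw [Finset.sum_congr rfl fun k _ => h2 k]
          push_cast
          rfl
        change (∑ k, ∑ _t : Fin (d j k), (a j k : ℤ)) * c' j = _
        rw [h3]
        have h4 : c' j = -(ε j 0 : ℤ) := by omega
        rw [h4]
        ring
      rw [h1] at hz
      exact ⟨-z, by linear_combination hz⟩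
    · -- a root
      change (1 : ℚ) ≤ (1 - wtc (m j) (a j (finSigmaFinEquiv.symm t).1)) * ε j t.succ
      refine one_le_wt (hm j) hi ?_
      have hc : c' j = 0 := by
        by_contra hcon
        have h1 := hc2 (by omega) (finSigmaFinEquiv.symm t)
        rw [ht t] at h1
        apply hi
        omega
      have h1 : ∑ x : (Σ k, Fin (d j k)), (a j x.1 : ℤ) * Q.ord (U j - β j x.1 x.2) =
          (a j (finSigmaFinEquiv.symm t).1 : ℤ) * ε j t.succ := by
        rw [Finset.sum_eq_single (finSigmaFinEquiv.symm t)]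
        · rw [ht t, hc, zero_add]
        · intro x _ hx
          obtain ⟨h2, h3⟩ := hbb j (finSigmaFinEquiv.symm t) x (Ne.symm hx)
          have h4 : U j - β j x.1 x.2 = (β j (finSigmaFinEquiv.symm t).1
              (finSigmaFinEquiv.symm t).2 - β j x.1 x.2) + (U j -
                β j (finSigmaFinEquiv.symm t).1 (finSigmaFinEquiv.symm t).2) := by ring
          have h5 : Q.ord (U j - β j x.1 x.2) = 0 := by
            rw [h4]
            have h6 := (Q.ord_add_eq h2 (hne j _ _) (by
              rw [h3, ht t, hc]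
              have : (0 : ℤ) < ε j t.succ := by
                have := Nat.pos_of_ne_zero hi
                exact_mod_cast this
              omega)).2
            rw [h6, h3]
          rw [h5, mul_zero]
        · intro h
          exact absurd (Finset.mem_univ _) h
      rw [h1] at hz
      exact ⟨z, hz.symm⟩
  have hkey' : (1 : ℝ) ≤ (1 - (cw m a d j i : ℝ)) * ε j i := by
    have := (Rat.cast_le (K := ℝ)).2 hkey
    push_cast at this
    exact this
  have hnn : ∀ j i, 0 ≤ (1 - (cw m a d j i : ℝ)) * (ε j i : ℝ) := by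
    intro j i
    have h1 : (cw m a d j i : ℝ) ≤ 1 := by exact_mod_cast cw_le m a d j i
    exact mul_nonneg (by linarith) (Nat.cast_nonneg _)
  refine hkey'.trans ?_
  refine le_trans ?_ (Finset.single_le_sum (f := fun j => ∑ i, (1 - (cw m a d j i : ℝ)) * ε j i)
    (fun j _ => Finset.sum_nonneg fun i _ => hnn j i) (Finset.mem_univ j))
  exact Finset.single_le_sum (f := fun i => (1 - (cw m a d j i : ℝ)) * (ε j i : ℝ))
    (fun i _ => hnn j i) (Finset.mem_univ i)

end mult

end Pool.Agent.Y191
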