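import Pool.Agent.Y191.CycLow3

/-!
Fibre products of cyclic covers of the line: the forms along the fibres.
-/

set_option autoImplicit false
set_option linter.overlappingInstances false
set_option linter.unusedSectionVars false

open FF Pool.Agent.W602.GT Pool.Agent.W603.LV
open Pool.Agent.TH585.SV Pool.Agent.Y172

namespace Pool.Agent.Y191

section

variable {K K' : Type} [Field K] [Field K'] [Algebra ℂ K] [Algebra ℂ K'] [Algebra K K']
  [IsScalarTower ℂ K K'] {L : IntermediateField ℂ K}

/-- elements which are algebraic over the algebraic closure -/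
theorem alg_of_acl {b : K'} (h2 : IsAlgebraic (acl ℂ (L : Set K)) b) :
    IsAlgebraic (upF K' L) b := by
  have hLF : L ≤ acl ℂ (L : Set K) := fun x hx => subset_acl _ hx
  let _ : Algebra L (acl ℂ (L : Set K)) := (IntermediateField.inclusion hLF).toAlgebra
  have : IsScalarTower L (acl ℂ (L : Set K)) K := IsScalarTower.of_algebraMap_eq fun x => rfl
  have : IsScalarTower L (acl ℂ (L : Set K)) K' := IsScalarTower.of_algebraMap_eq fun x => rfl
  have : Algebra.IsAlgebraic L (acl ℂ (L : Set K)) := by
    refine ⟨fun x => ?_⟩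
    have h1 : IsAlgebraic (IntermediateField.adjoin ℂ (L : Set K)) (x : K) := mem_acl.1 x.2
    rw [IntermediateField.adjoin_self] at h1
    exact (isAlgebraic_algebraMap_iff (R := L) (A := K)
      (FaithfulSMul.algebraMap_injective (acl ℂ (L : Set K)) K)).1 h1
  exact alg_up (h2.restrictScalars L)

theorem alg_coe {z : K} (hz : z ∈ acl ℂ (L : Set K)) :
    IsAlgebraic (upF K' L) (algebraMap K K' z) :=
  alg_of_acl (isAlgebraic_algebraMap (⟨z, hz⟩ : acl ℂ (L : Set K)))

end

section low

variable {K : Type} [Field K] [Algebra ℂ K] {L : IntermediateField ℂ K} {e : ℕ}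
variable {x y : Fin e → K} {m s : Fin e → ℕ}
  {g : ∀ j, Fin (s j) → Polynomial (acl ℂ (L : Set K))}
  {a : ∀ j, Fin (s j) → ℕ} {c : Fin e → K}

/-- **The forms along the fibres.** -/
theorem cyc_low {N lam : ℕ} (h : CycData (acl ℂ (L : Set K)) x y m s g a c)
    (hw : ∀ j, 2 ≤ wsum m s g a j) {κ : Fin lam → Fin e} (hκ : Function.Injective κ)
    (hκs : ∀ i, 2 < wsum m s g a (κ i)) (X : Set (Place ℂ K)) :
    ∃ M : ℕ, 0 < M ∧ ∃ θ : Fin (lam + 1) → (Fin e → Derivation L K K) → K,
      (∀ b, FibSec N M X (fun _ => 0) L (θ b)) ∧ ∃ G, θ 0 G ≠ 0 ∧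
        AlgebraicIndependent L (fun i : Fin lam => θ i.succ G / θ 0 G) := by
  classical
  have hcF : CharZero (acl ℂ (L : Set K)) :=
    charZero_of_injective_algebraMap (algebraMap ℂ (acl ℂ (L : Set K))).injective
  obtain ⟨p, hp⟩ : ∃ p : Polynomial (acl ℂ (L : Set K)), p = ∏ j, ∏ k, g j k := ⟨_, rfl⟩
  have hp0 : p ≠ 0 := by
    rw [hp]
    exact Finset.prod_ne_zero_iff.2 fun j _ => Finset.prod_ne_zero_iff.2 fun k _ => h.g_ne j k
  obtain ⟨K', iF, iC, iK, iT, iD, hsp, α, hα, htop⟩ := exists_ext p hp0
  obtain ⟨ψ, hψ⟩ : ∃ ψ : acl ℂ (L : Set K) →+* K',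
      ψ = (algebraMap K K').comp (algebraMap (acl ℂ (L : Set K)) K) := ⟨_, rfl⟩
  have hψa : ψ = algebraMap (acl ℂ (L : Set K)) K' := by
    rw [hψ]
    rfl
  have hψinj : Function.Injective ψ := ψ.injective
  have hspl : (p.map ψ).Splits := by
    rw [hψ, ← Polynomial.map_map]
    exact hsp
  have hGs : ∀ j k, ((g j k).map ψ).Splits := by
    intro j k
    refine hspl.of_dvd ((Polynomial.map_ne_zero_iff hψinj).2 hp0) (Polynomial.map_dvd ψ ?_)
    rw [hp]
    exact (Finset.dvd_prod_of_mem _ (Finset.mem_univ k)).trans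
      (Finset.dvd_prod_of_mem (fun j => ∏ k, g j k) (Finset.mem_univ j))
  have hGsep : ∀ j k, ((g j k).map ψ).Separable := fun j k => (h.gsep j k).map
  have hGd : ∀ j k, ((g j k).map ψ).natDegree = (g j k).natDegree := fun j k =>
    Polynomial.natDegree_map_eq_of_injective hψinj _
  choose β hβi hβ using fun j k => split_enum (hGsep j k) (hGs j k) (hGd j k)
  have hroot : ∀ j k t, Polynomial.eval (β j k t) ((g j k).map ψ) = 0 := by
    intro j k t
    rw [hβ j k, Polynomial.eval_mul, Polynomial.eval_prod]
    rw [Finset.prod_eq_zero (Finset.mem_univ t), mul_zero]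
    rw [Polynomial.eval_sub, Polynomial.eval_X, Polynomial.eval_C, sub_self]
  have hβa : ∀ j k t, IsAlgebraic (upF K' L) (β j k t) := by
    intro j k t
    refine alg_of_acl ⟨g j k, h.g_ne j k, ?_⟩
    rw [Polynomial.aeval_def, ← hψa, ← Polynomial.eval_map]
    exact hroot j k t
  have hβne : ∀ j (x x' : Σ k, Fin (g j k).natDegree), x ≠ x' →
      β j x.1 x.2 - β j x'.1 x'.2 ≠ 0 := by
    rintro j ⟨k, t⟩ ⟨k', t'⟩ hne h0
    change β j k t - β j k' t' = 0 at h0
    rw [sub_eq_zero] at h0
    by_cases hk : k = k'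
    · subst hk
      apply hne
      rw [hβi j k h0]
    · have h1 : (g j k * g j k').Separable := by
        refine (h.sep j).of_dvd ?_
        rw [← Finset.mul_prod_erase Finset.univ _ (Finset.mem_univ k)]
        exact mul_dvd_mul_left _ (Finset.dvd_prod_of_mem _
          (Finset.mem_erase.2 ⟨Ne.symm hk, Finset.mem_univ k'⟩))
      obtain ⟨A, B, hAB⟩ := h1.isCoprime
      have h2 := congrArg (fun q => Polynomial.eval (β j k t) (q.map ψ)) hAB
      simp only [Polynomial.map_add, Polynomial.map_mul, Polynomial.eval_add,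
        Polynomial.eval_mul, Polynomial.map_one, Polynomial.eval_one] at h2
      rw [hroot j k t, h0, hroot j k' t', mul_zero, mul_zero, add_zero] at h2
      exact zero_ne_one h2
  obtain ⟨U, hU⟩ : ∃ U : Fin e → K', U = fun j => algebraMap K K' (x j) := ⟨_, rfl⟩
  have hev : ∀ j (q : Polynomial (acl ℂ (L : Set K))), Polynomial.eval (U j) (q.map ψ) =
      algebraMap K K' (Polynomial.aeval (x j) q) := by
    intro j q
    rw [hU, hψ, Polynomial.eval_map, Polynomial.aeval_def, Polynomial.hom_eval₂]
  have hprod : ∀ j k, algebraMap K K' (Polynomial.aeval (x j) (g j k)) =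
      ψ (g j k).leadingCoeff * ∏ t, (U j - β j k t) := by
    intro j k
    rw [← hev j, hβ j k, Polynomial.eval_mul, Polynomial.eval_prod, Polynomial.eval_C,
      Polynomial.leadingCoeff_map_of_injective hψinj]
    congr 1
    refine Finset.prod_congr rfl fun t _ => ?_
    rw [Polynomial.eval_sub, Polynomial.eval_X, Polynomial.eval_C]
  have hne : ∀ j k t, U j - β j k t ≠ 0 := by
    intro j k t h0
    have h1 : algebraMap K K' (Polynomial.aeval (x j) (g j k)) ≠ 0 := by
      rw [Ne, map_eq_zero]
      exact h.aeval_ne' (h.g_ne j k)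
    apply h1
    rw [hprod, Finset.prod_eq_zero (Finset.mem_univ t) h0, mul_zero]
  -- the basis
  have hbas : IsTranscendenceBasis (upF K' L) (cu U) := by
    have h1 : IsTranscendenceBasis L x := basis_down h.bas
    have h2 : IsTranscendenceBasis (upF K' L) U := by
      rw [hU]
      exact tb_up (h1.algebraMap_comp (A := K'))
    exact (isTranscendenceBasis_equiv (Equiv.sigmaUnique (Fin e) fun _ => Fin 1)).2 h2
  have hLe : Algebra.trdeg L K = e := by
    have h1 : IsTranscendenceBasis L x := basis_down h.bas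
    rw [← h1.cardinalMk_eq_trdeg]
    simp
  have hA : MovArr (upF K' L) (cA β) := by
    refine ⟨fun j i k => ?_, fun j I hI => ?_⟩
    · revert k
      refine Fin.cases (fun k => ?_) (fun t k => ?_) i
      · rw [cA_zero]
        fin_cases k
        · exact isAlgebraic_one
        · exact isAlgebraic_zero
      · rw [cA_succ]
        fin_cases k
        · exact (hβa j _ _).neg
        · exact isAlgebraic_one
    · refine cA_det (fun j x x' hxx => ?_) j I hI
      by_contra hcon
      exact hβne j x x' hcon (sub_eq_zero.2 hxx)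
  obtain ⟨M, hM, θ', hθ', hne'⟩ := mov_low (N := N) (δ := fun _ => 0)
    (X := {Q | ∃ P ∈ X, ∃ ε, Over Q P ε}) hA
    (Equiv.sigmaUnique (Fin e) fun _ => Fin 1) hbas (w := cw m a fun j k => (g j k).natDegree)
    (cw_nonneg h.pos a _) (cw_le m a _) (fun j => by
      rw [cw_sum]
      have := hw j
      unfold wsum at this
      push_cast
      linarith) (κ := fun i => ⟨κ i, 0⟩) (fun i i' hii => hκ (by
        have := congrArg Sigma.fst hii
        exact this)) (fun i => by
      rw [cw_sum]
      have := hκs i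
      unfold wsum at this
      push_cast
      linarith) (fun _ _ => le_rfl) (by
      intro Q _ htr c' ε ho hε
      rw [zero_add]
      refine cyc_mult (U := U) h.pos (fun j k t => triv_ge htr (hβa j k t))
        (fun j x x' hxx => ⟨hβne j x x' hxx, triv_ord0 htr ?_ (hβne j x x' hxx)⟩) hne
        (fun j => ⟨Q.ord (algebraMap K K' (y j)), ?_⟩) ho hε
      · exact (hβa j _ _).sub (hβa j _ _)
      · have h1 : ∀ k, Q.ord (algebraMap K K' (Polynomial.aeval (x j) (g j k))) =
            ∑ t, Q.ord (U j - β j k t) := by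
          intro k
          have hlc : (g j k).leadingCoeff ≠ 0 := Polynomial.leadingCoeff_ne_zero.2 (h.g_ne j k)
          have hlc' : ψ (g j k).leadingCoeff ≠ 0 := by
            rw [Ne, map_eq_zero]
            exact hlc
          have hlo : Q.ord (ψ (g j k).leadingCoeff) = 0 := by
            refine triv_ord0 htr ?_ hlc'
            rw [hψ]
            exact alg_coe (g j k).leadingCoeff.2
          rw [hprod, Q.ord_mul hlc' (Finset.prod_ne_zero_iff.2 fun t _ => hne j k t), hlo,
            zero_add, Pool.Agent.W619.PQ.ord_prod _ Q _ fun t _ => hne j k t]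
        have hcj : algebraMap K K' (c j) ≠ 0 := by
          rw [Ne, map_eq_zero]
          exact (h.cst j).2
        have hco : Q.ord (algebraMap K K' (c j)) = 0 :=
          triv_ord0 htr (alg_coe (h.cst j).1) hcj
        have h2 : (m j : ℤ) * Q.ord (algebraMap K K' (y j)) =
            Q.ord (algebraMap K K' (y j ^ m j)) := by
          rw [map_pow, Q.ord_pow]
        have hgk : ∀ k, algebraMap K K' (Polynomial.aeval (x j) (g j k)) ≠ 0 := fun k => by
          rw [Ne, map_eq_zero]
          exact h.aeval_ne' (h.g_ne j k)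
        rw [h2, h.eq, map_mul, map_prod, Q.ord_mul hcj (Finset.prod_ne_zero_iff.2 fun k _ => by
            rw [map_pow]
            exact pow_ne_zero _ (hgk k)), hco, zero_add,
          Pool.Agent.W619.PQ.ord_prod _ Q _ fun k _ => by
            rw [map_pow]
            exact pow_ne_zero _ (hgk k), Fintype.sum_sigma]
        refine Finset.sum_congr rfl fun k _ => ?_
        rw [map_pow, Q.ord_pow, h1 k, Finset.mul_sum])
  exact push hM hLe hα htop hθ' hne'

end low

end Pool.Agent.Y191
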