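import Pool.Agent.Y191.DimGe
import Pool.Agent.Y191.Cyc3
import Pool.Agent.Y191.CycLow4

/-!
Nonvanishing for fibre products of cyclic covers of the line.
-/

set_option autoImplicit false
set_option linter.overlappingInstances false
set_option linter.unusedSectionVars false

open FF MvPolynomial Pool.Agent.W602.GT Pool.Agent.W603.LV Pool.Agent.W619.PQ
open Pool.Agent.Y172 Pool.Agent.TH585.SV

namespace Pool.Agent.Y191

section cyc

variable {K : Type} [Field K] [Algebra ℂ K] {F : IntermediateField ℂ K} {e N n : ℕ}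
variable {x y : Fin e → K} {m s : Fin e → ℕ} {g : ∀ j, Fin (s j) → Polynomial F}
  {a : ∀ j, Fin (s j) → ℕ} {c : Fin e → K} {z : Fin (N + 1) → K}

/-- **Nonvanishing**, abstract form. -/
theorem cyc_nv (hz : NormalModel z) (hn : Algebra.trdeg ℂ K = n) (hcan : Canonical z n)
    (hF : Closed F) (h : CycData F x y m s g a c) (hle : e ≤ n)
    {lam : ℕ} (hK : KodairaGe n {P | IsPrimeDivisor z P} (fun _ => 0) lam) :
    (lam : WithBot ℕ) ≤ kodairaDim z n 0 := by
  classical
  have hess := hz.ess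
  have hch : CharZero F := charZero_of_injective_algebraMap (algebraMap ℂ F).injective
  have hΔ : Effective z (0 : Place ℂ K → ℚ) := ⟨fun _ _ => le_rfl, by simp⟩
  have e0 : ∀ (m : ℕ) (B : Place ℂ K → ℚ), m • (0 : Place ℂ K → ℚ) + B = B := fun m B => by simp
  obtain ⟨p, z', e', D, hFr⟩ := exists_FrF hn hF h.bas
  obtain ⟨Sφ, hSφ⟩ := phic_reg (x := x) (m := m) (s := s) (g := g) (a := a)
  obtain ⟨m0, hm0, ω, hω, E', h4, h5⟩ := hK
  let ι := {j : Fin e // wsum m s g a j = 2}
  have hcard : (Finset.univ.filter fun j => wsum m s g a j = 2).card ≤ n := by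
    refine (Finset.card_le_univ _).trans ?_
    rw [Fintype.card_fin]
    exact hle
  have hup : ∀ A, Effective z A → ∃ C : ℕ, ∀ m' : ℕ, 1 ≤ m' → ∀ (r : ℕ) (f : Fin r → K),
      LinearIndependent ℂ f →
      (∀ i, ∃ ω, Pool.Agent.Y172.IsSection z n m' (m' • (0 : Place ℂ K → ℚ) + A) ω ∧
        ω D = f i) →
      r ≤ C * m' ^ (n - (Finset.univ.filter fun j => wsum m s g a j = 2).card) := by
    intro A' hA'
    simp only [e0]
    refine up_can (ι := ι) (J := fun j => {j.1}) (l := fun j => j.1)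
      (T := Finset.univ.filter fun j => wsum m s g a j = 2) hz hcan hA' hn hFr h.phic_ne
      h.phic_lin hSφ (fun P G hG hP n _ => h.cyc_fin hG hP n)
      (fun j => Finset.mem_singleton_self _)
      (fun P => (∑ j, ∑ k, (g j k).natDegree) * ∑ i, (P.ord (x i)).natAbs)
      (fun j P ρ hρ hP n _ => ?_) (fun j hj => ?_) (by omega)
    · have h8 := h.cyc_inf hρ hP n
      have h9 : (2 - wsum m s g a j.1 : ℚ) = 0 := by
        rw [j.2]
        ring
      rw [h9, Rat.cast_zero, zero_mul, mul_zero, add_zero] at h8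
      exact h8
    · exact ⟨⟨j, (Finset.mem_filter.1 hj).2⟩, Finset.mem_singleton_self _⟩
  refine dims_ge hΔ hFr.frame hup hm0 (ω := ω) (fun j => ⟨(hω j).1, fun P hP G hG => ?_⟩) h4 h5
  rcases (hω j).2 P hP (hP.divisorial hz hn) G hG with h6 | h6
  · exact Or.inl h6
  · right
    have e1 : -((m0 • (0 : Place ℂ K → ℚ)) P) = 0 := by simp
    rw [e1]
    rw [mul_zero, neg_zero] at h6
    have h7 : (0 : ℤ) ≤ P.ord (ω j G) := by exact_mod_cast h6
    exact_mod_cast h7

end cyc

end Pool.Agent.Y191
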