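import Pool.Agent.Y191.LcRam
import Pool.Agent.Y172.Dim

/-!
Lower bounds for the Kodaira dimension.
-/

set_option autoImplicit false
set_option linter.overlappingInstances false
set_option linter.unusedSectionVars false

open Filter Topology

namespace Pool.Agent.Y191

section

open Pool.Agent.Y172

variable {h : ℕ → ℕ} {k a C M : ℕ} {I : Set ℕ}

theorem kappa_ge (hM : 1 ≤ M) (hI : ∀ t, 1 ≤ t → t * M ∈ I)
    (hlow : ∀ t, 1 ≤ t → t ^ k ≤ h (t * M)) (hup : ∀ m ∈ I, 1 ≤ m → h m ≤ C * m ^ a) :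
    k ≤ sSup {k' : ℕ | 0 < limsup (fun m : ℕ => (h m : ENNReal) / (m : ENNReal) ^ k')
      (atTop ⊓ 𝓟 I)} := by
  have hub : ∀ k' ∈ {k' : ℕ | 0 < limsup (fun m : ℕ => (h m : ENNReal) / (m : ENNReal) ^ k')
      (atTop ⊓ 𝓟 I)}, k' ≤ a := by
    intro k' hk'
    by_contra hlt
    push Not at hlt
    have h1 : limsup (fun m : ℕ => (h m : ENNReal) / (m : ENNReal) ^ k') (atTop ⊓ 𝓟 I) ≤ 0 := by
      have h2 : Tendsto (fun m : ℕ => (C : ENNReal) / (m : ENNReal)) atTop (𝓝 0) := by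
        have := ENNReal.Tendsto.const_mul (a := (C : ENNReal)) ENNReal.tendsto_inv_nat_nhds_zero
          (Or.inr (ENNReal.natCast_ne_top C))
        simpa [div_eq_mul_inv] using this
      have h3 : limsup (fun m : ℕ => (C : ENNReal) / (m : ENNReal)) (atTop ⊓ 𝓟 I) ≤ 0 := by
        refine (limsup_le_limsup_of_le inf_le_left).trans ?_
        rw [h2.limsup_eq]
      refine le_trans (limsup_le_limsup ?_) h3
      rw [EventuallyLE, eventually_inf_principal]
      filter_upwards [eventually_ge_atTop 1] with m hm hmI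
      have h4 := hup m hmI hm
      have hm0 : (m : ENNReal) ≠ 0 := by
        have : m ≠ 0 := by omega
        exact_mod_cast this
      have hmt : (m : ENNReal) ≠ ⊤ := ENNReal.natCast_ne_top m
      rw [ENNReal.div_le_iff (pow_ne_zero _ hm0) (ENNReal.pow_ne_top hmt)]
      have h5 : (C : ENNReal) / m * (m : ENNReal) ^ k' = C * (m : ENNReal) ^ (k' - 1) := by
        have e : k' = k' - 1 + 1 := by omega
        conv_lhs => rw [e, pow_succ']
        rw [← mul_assoc, ENNReal.div_mul_cancel hm0 hmt]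
      rw [h5]
      have h6 : h m ≤ C * m ^ (k' - 1) :=
        h4.trans (Nat.mul_le_mul_left _ (Nat.pow_le_pow_right hm (by omega)))
      exact_mod_cast h6
    exact absurd hk' (not_lt.2 h1)
  have hmem : k ∈ {k' : ℕ | 0 < limsup (fun m : ℕ => (h m : ENNReal) / (m : ENNReal) ^ k')
      (atTop ⊓ 𝓟 I)} := by
    have hM0 : (M : ENNReal) ≠ 0 := by
      have : M ≠ 0 := by omega
      exact_mod_cast this
    have h1 : (((M : ENNReal) ^ k)⁻¹) ≤ limsup (fun m : ℕ => (h m : ENNReal) / (m : ENNReal) ^ k)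
        (atTop ⊓ 𝓟 I) := by
      refine le_limsup_of_frequently_le (freq hM hI 1 fun t _ ht => ?_)
      have hm0 : ((t * M : ℕ) : ENNReal) ≠ 0 := by
        have : t * M ≠ 0 := by positivity
        exact_mod_cast this
      rw [ENNReal.le_div_iff_mul_le (Or.inl (pow_ne_zero _ hm0))
        (Or.inl (ENNReal.pow_ne_top (ENNReal.natCast_ne_top _)))]
      have h2 : ((M : ENNReal) ^ k)⁻¹ * ((t * M : ℕ) : ENNReal) ^ k = (t : ENNReal) ^ k := by
        rw [Nat.cast_mul, mul_pow, mul_comm ((t : ENNReal) ^ k), ← mul_assoc,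
          ENNReal.inv_mul_cancel (pow_ne_zero _ hM0)
            (ENNReal.pow_ne_top (ENNReal.natCast_ne_top _)), one_mul]
      rw [h2]
      exact_mod_cast hlow t ht
    refine lt_of_lt_of_le ?_ h1
    rw [ENNReal.inv_pos]
    exact ENNReal.pow_ne_top (ENNReal.natCast_ne_top _)
  exact le_csSup ⟨a, hub⟩ hmem

end

end Pool.Agent.Y191

open FF Pool.Agent.W602.GT Pool.Agent.W603.LV
open Pool.Agent.Y172

namespace Pool.Agent.Y191

section

variable {K : Type} [Field K] [Algebra ℂ K] {N : ℕ} {y : Fin (N + 1) → K} {n : ℕ}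

/-- **A lower bound for the Kodaira dimension.** -/
theorem dims_ge {k a : ℕ} {Δ : Place ℂ K → ℚ} (hΔ : Effective y Δ)
    {D : Fin n → Derivation ℂ K K} (hD : IsFrame D)
    (hup : ∀ A, Effective y A → ∃ C : ℕ, ∀ m : ℕ, 1 ≤ m → ∀ (r : ℕ) (f : Fin r → K),
      LinearIndependent ℂ f → (∀ i, ∃ ω, IsSection y n m (m • Δ + A) ω ∧ ω D = f i) →
      r ≤ C * m ^ a)
    {m0 : ℕ} (hm0 : 1 ≤ m0) {ω : Fin (k + 1) → (Fin n → Derivation ℂ K K) → K}
    (hω : ∀ j, IsSection y n m0 (m0 • Δ) (ω j)) {E : Fin n → Derivation ℂ K K}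
    (hE : ω 0 E ≠ 0) (hind : AlgebraicIndependent ℂ (fun i : Fin k => ω i.succ E / ω 0 E)) :
    (k : WithBot ℕ) ≤ kodairaDim y n Δ := by
  classical
  -- a common denominator
  obtain ⟨d0, hd0, hint⟩ : ∃ d0 : ℕ, 1 ≤ d0 ∧ ∀ t : ℕ, Integral y ((t * d0) • Δ) := by
    let S := hΔ.2.toFinset
    refine ⟨∏ P ∈ S, (Δ P).den, Nat.pos_of_ne_zero (Finset.prod_ne_zero_iff.2 fun P _ =>
      (Δ P).den_ne_zero), fun t P hP => ?_⟩
    by_cases h0 : Δ P = 0
    · exact ⟨0, by simp [h0]⟩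
    have hPS : P ∈ S := by
      rw [Set.Finite.mem_toFinset]
      exact ⟨hP, h0⟩
    refine ⟨t * (∏ Q ∈ S.erase P, (Δ Q).den : ℕ) * (Δ P).num, ?_⟩
    rw [← Finset.prod_erase_mul _ _ hPS]
    have h1 : ((Δ P).den : ℚ) * Δ P = (Δ P).num := by
      rw [mul_comm]
      exact Rat.mul_den_eq_num (Δ P)
    simp only [Pi.smul_apply, nsmul_eq_mul]
    push_cast
    rw [← h1]
    ring
  have hzero : Effective y (0 : Place ℂ K → ℚ) :=
    ⟨fun _ _ => le_rfl, Set.finite_empty.subset (by rintro P ⟨-, h⟩; exact h rfl)⟩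
  -- the lower bound
  obtain ⟨M, hM⟩ : ∃ M : ℕ, M = (k + 1) * d0 * m0 := ⟨_, rfl⟩
  have hM1 : 1 ≤ M := by
    rw [hM]
    exact Nat.mul_pos (Nat.mul_pos (Nat.succ_pos k) hd0) hm0
  have hlow : ∀ A, Effective y A → ∀ t : ℕ, 1 ≤ t →
      t ^ k ≤ h0 y n (t * M) ((t * M) • Δ + A) := by
    intro A hA t ht
    obtain ⟨C, hC⟩ := hup A hA
    have htM : 1 ≤ t * M := Nat.mul_pos ht hM1
    obtain ⟨hfin, -⟩ := finite_h0 hD (hC (t * M) htM)
    let T := (k + 1) * d0 * t
    let b : (Fin k → Fin (t + 1)) → Fin (k + 1) → ℕ := fun a =>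
      Fin.cons (T - ∑ i, (a i : ℕ)) fun i => (a i : ℕ)
    have hle : ∀ a : Fin k → Fin (t + 1), ∑ i, (a i : ℕ) ≤ T := by
      intro a
      have h1 : ∑ i, (a i : ℕ) ≤ ∑ _i : Fin k, t :=
        Finset.sum_le_sum fun i _ => Nat.lt_succ_iff.1 (a i).2
      rw [Finset.sum_const, Finset.card_univ, Fintype.card_fin, smul_eq_mul] at h1
      refine h1.trans ?_
      have h2 : k * t ≤ (k + 1) * d0 * t :=
        Nat.mul_le_mul_right _ ((Nat.le_succ k).trans (Nat.le_mul_of_pos_right _ hd0))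
      exact h2
    have hsum : ∀ a, ∑ i, b a i = T := by
      intro a
      rw [Fin.sum_univ_succ]
      simp only [b, Fin.cons_zero, Fin.cons_succ]
      exact Nat.sub_add_cancel (hle a)
    let v : (Fin k → Fin (t + 1)) → (Fin n → Derivation ℂ K K) → K := fun a E =>
      ∏ i, ω i E ^ b a i
    have hv : ∀ a, IsSection y n (t * M) ((t * M) • Δ + A) (v a) := by
      intro a
      have h1 := isSection_prod hω (b a)
      rw [hsum] at h1
      have e1 : T * m0 = t * M := by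
        rw [hM]
        ring
      rw [e1, smul_smul, e1] at h1
      refine ⟨h1.1, fun P hP => (h1.2 P hP).mono ?_⟩
      have := hA.1 P hP
      simp only [Pi.add_apply]
      linarith
    have hvE : ∀ a, v a E = ω 0 E ^ T * ∏ i : Fin k, (ω i.succ E / ω 0 E) ^ (a i : ℕ) := by
      intro a
      change ∏ i, ω i E ^ b a i = _
      rw [Fin.prod_univ_succ]
      simp only [b, Fin.cons_zero, Fin.cons_succ, div_pow, Finset.prod_div_distrib]
      have h1 : ω 0 E ^ T = ω 0 E ^ (T - ∑ i, (a i : ℕ)) * ∏ i, ω 0 E ^ (a i : ℕ) := by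
        rw [Finset.prod_pow_eq_pow_sum, ← pow_add, Nat.sub_add_cancel (hle a)]
      rw [h1]
      have h2 : ∏ i, ω 0 E ^ (a i : ℕ) ≠ 0 := Finset.prod_ne_zero_iff.2 fun i _ => pow_ne_zero _ hE
      field_simp
    have hvind : LinearIndependent ℂ v := by
      have h1 : LinearIndependent ℂ fun a : Fin k → Fin (t + 1) =>
          ∏ i : Fin k, (ω i.succ E / ω 0 E) ^ (a i : ℕ) :=
        (mono_indep hind).comp (fun (a : Fin k → Fin (t + 1)) i => (a i : ℕ)) (by
          intro a a' h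
          funext i
          exact Fin.ext (congrFun h i))
      have h2 : LinearIndependent ℂ fun a => v a E := by
        have h3 := h1.map' (LinearMap.mulLeft ℂ (ω 0 E ^ T)) (by
          rw [LinearMap.ker_eq_bot]
          exact fun a b hab => mul_left_cancel₀ (pow_ne_zero _ hE) hab)
        have h4 : (fun a => v a E) = (LinearMap.mulLeft ℂ (ω 0 E ^ T)) ∘
            fun a : Fin k → Fin (t + 1) => ∏ i : Fin k, (ω i.succ E / ω 0 E) ^ (a i : ℕ) := by
          funext a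
          exact hvE a
        rw [h4]
        exact h3
      exact LinearIndependent.of_comp (LinearMap.proj E) h2
    have h1 := le_h0 hfin hvind hv
    rw [Fintype.card_fun, Fintype.card_fin, Fintype.card_fin] at h1
    exact (Nat.pow_le_pow_left (Nat.le_succ t) k).trans h1
  have hint' : ∀ A, Integral y A → ∀ t : ℕ, Integral y ((t * M) • Δ + A) := by
    intro A hA t P hP
    obtain ⟨z, hz⟩ := hint (t * (k + 1) * m0) P hP
    obtain ⟨z', hz'⟩ := hA P hP
    refine ⟨z + z', ?_⟩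
    have e1 : t * M = t * (k + 1) * m0 * d0 := by
      rw [hM]
      ring
    rw [Pi.add_apply, hz', e1, hz]
    push_cast
    ring
  have hzint : Integral y (0 : Place ℂ K → ℚ) := fun P _ => ⟨0, by simp⟩
  obtain ⟨C, hC⟩ := hup 0 hzero
  have hlow0 := hlow 0 hzero
  have hint0 := hint' 0 hzint
  simp only [add_zero] at hlow0 hint0 hC
  unfold kodairaDim
  rw [if_neg]
  · refine WithBot.coe_le_coe.2 ?_
    exact kappa_ge (I := {m : ℕ | 1 ≤ m ∧ Integral y (m • Δ)})
      (h := fun m => h0 y n m (m • Δ)) (C := C) hM1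
      (fun t ht => ⟨Nat.mul_pos ht hM1, hint0 t⟩) hlow0
      fun m _ hm => (finite_h0 hD (hC m hm)).2
  · intro hcon
    have h1 := hcon (1 * M) (by omega) (hint0 1)
    have h2 := hlow0 1 le_rfl
    rw [h1, one_pow] at h2
    omega

end

section

variable {K K' : Type} [Field K] [Field K'] [Algebra ℂ K] [Algebra ℂ K'] [Algebra K K']
  [IsScalarTower ℂ K K'] [FiniteDimensional K K'] {c : ℕ} {r q : Fin c → ℕ} {N n : ℕ}
variable {A : ∀ j, Fin (q j) → Fin (r j + 1) → K'} {u : (Σ j, Fin (r j)) → K'}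
variable {L : IntermediateField ℂ K'} {y : Fin (N + 1) → K} {Δ : Place ℂ K → ℚ}
  {w : ∀ j, Fin (q j) → ℚ}

/-- **Nonvanishing**, abstract form. -/
theorem lc_nv (hy : NormalModel y) (hn : Algebra.trdeg ℂ K = n) (hΔ : Effective y Δ)
    (hA : AlgArr L A) (hu : IsTranscendenceBasis L u)
    (hr : ∀ j, 1 ≤ r j) (hw0 : ∀ j i, 0 ≤ w j i) (hw1 : ∀ j i, w j i ≤ 1)
    (hC : Cor y n Δ L A u w) (hws : ∀ j, (r j + 1 : ℚ) ≤ ∑ i, w j i)
    (hle : ∑ j, r j ≤ n) {lam : ℕ}
    (hK : KodairaGe n {P | IsPrimeDivisor y P} (fun P => (Δ P : ℝ)) lam) :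
    (lam : WithBot ℕ) ≤ kodairaDim y n Δ := by
  obtain ⟨-, E, hE, h2⟩ := lc_sec hy hn hΔ hA hu hr hw0 hw1 hC
  obtain ⟨m0, hm0, ω, hω, E', h4, h5⟩ := hK
  have h6 : ∑ j, (if ∑ i, w j i = r j + 1 then r j else 0) ≤ n :=
    (Finset.sum_le_sum fun j _ => by split_ifs <;> omega).trans hle
  refine dims_ge hΔ hE (h2 (n - ∑ j, (if ∑ i, w j i = r j + 1 then r j else 0)) hws (by omega))
    hm0 (ω := ω) (fun j => ⟨(hω j).1, fun P hP G hG => ?_⟩) h4 h5
  rcases (hω j).2 P hP (hP.divisorial hy hn) G hG with h6 | h6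
  · exact Or.inl h6
  · right
    rw [Pi.smul_apply, nsmul_eq_mul]
    have h7 : ((-(m0 * Δ P) : ℚ) : ℝ) ≤ (((P.ord (ω j G) : ℤ) : ℚ) : ℝ) := by
      push_cast
      exact h6
    exact_mod_cast h7

end

end Pool.Agent.Y191
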