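import Pool.Agent.Y191.Form
import Pool.Agent.W602.GT.Der

/-!
Effective positivity of the canonical bundle, in special coordinates.
-/

set_option autoImplicit false

open MvPolynomial Matrix FF Pool.Agent.W603.LV Pool.Agent.W602.GT

namespace Pool.Agent.Y191

variable {k K : Type} [Field k] [Field K] [Algebra k K]

theorem reg_der {P : Place k K} {D : Derivation k K K} (hD : DerReg P D) {f : K} {n : ℕ}
    (hf : Ge P (n : ℤ) f) : Ge P ((n - 1 : ℕ) : ℤ) (D f) := by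
  obtain ⟨t, ht0, ht⟩ := P.surj
  have htn : ∀ n : ℕ, t ^ n ≠ 0 := fun n => pow_ne_zero _ ht0
  cases n with
  | zero => exact hD f hf
  | succ n =>
    have h1 : Ge P 0 (f / t ^ (n + 1)) := by
      have := ge_div (htn (n + 1)) hf
      rw [P.ord_pow, ht, mul_one, sub_self] at this
      exact this
    have h2 : Ge P 0 (D (f / t ^ (n + 1))) := hD _ h1
    have h3 : Ge P 0 (D t) := hD t (Or.inr (by rw [ht]; norm_num))
    have e : D f = ((n + 1 : ℕ) : K) * t ^ n * D t * (f / t ^ (n + 1)) +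
        t ^ (n + 1) * D (f / t ^ (n + 1)) := by
      have e1 : f = t ^ (n + 1) * (f / t ^ (n + 1)) := (mul_div_cancel₀ _ (htn _)).symm
      conv_lhs => rw [e1]
      rw [D.leibniz, D.leibniz_pow]
      simp only [smul_eq_mul, nsmul_eq_mul, Nat.add_sub_cancel]
      ring
    have htg : ∀ m : ℕ, Ge P (m : ℤ) (t ^ m) := fun m => Or.inr (by
      rw [P.ord_pow, ht, mul_one])
    rw [e, Nat.add_sub_cancel]
    refine Ge.add ?_ ?_
    · have := (((Ge.natCast (P := P) (n + 1)).mul (htg n)).mul h3).mul h1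
      simpa using this
    · have := (htg (n + 1)).mul h2
      exact this.mono (by push_cast; linarith)

theorem log_der {P : Place k K} {D : Derivation k K K} (hD : DerLog P D) {f : K} {n : ℤ}
    (hf : Ge P n f) : Ge P n (D f) := by
  by_cases h0 : f = 0
  · rw [h0, map_zero]
    exact Ge.zero
  have h1 : Ge P 0 (D f / f) := hD f
  have h2 := h1.mul hf
  rwa [zero_add, div_mul_cancel₀ _ h0] at h2

variable [CharZero k] {w : ℕ} {B : Type} [Fintype B] [DecidableEq B]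

/-- Effective positivity. -/
theorem eff_sum {d q : ℕ} (hd : 0 < d) {ℓ : Fin q → (Unit ⊕ Fin w) ⊕ B → k} (hI : IndT d ℓ)
    (hg : GenPos ℓ) (hq : Fintype.card ((Unit ⊕ Fin w) ⊕ B) ≤ q) {wt : Fin q → ℝ}
    (hwt0 : ∀ i, 0 ≤ wt i) (hwt1 : ∀ i, wt i ≤ 1) {N : ℕ} {m : Fin q → ℕ}
    (hm : ∀ i, (m i : ℝ) ≤ N * wt i)
    (hN : N * ((w + 1) * gam (Fintype.card B) (d + 1)) < ∑ i, m i)
    {b : (Unit ⊕ Fin w) ⊕ B → K} (hl : ∀ i, lf (ℓ i) b ≠ 0)
    (hb0 : b (Sum.inl (Sum.inl ())) ≠ 0)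
    (hbas : IsTranscendenceBasis k fun j : Fin w => b (Sum.inl (Sum.inr j)) /
      b (Sum.inl (Sum.inl ())))
    (Bd : Place k K → Prop)
    (hP : ∀ P : Place k K, Divisorial w P → ¬ Bd P → ∀ (c : ℤ) (e : Fin q → ℕ),
      (∀ j, b j ≠ 0 → c ≤ P.ord (b j)) → (∃ j, b j ≠ 0 ∧ P.ord (b j) = c) →
      (∀ i, P.ord (lf (ℓ i) b) = c + e i) →
      ((Finset.univ.filter fun i => e i ≠ 0).card : ℝ) ≤ ∑ i, (1 - wt i) * e i) :
    ∃ ω : (Fin w → Derivation k K K) → K,
      IsPluri (N * gam (Fintype.card B) (d + 1)) ω ∧ (∃ D, ω D ≠ 0) ∧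
      (∀ P : Place k K, Divisorial w P → ∀ j, LogAt P fun D => ω D * b j) ∧
      ∀ P : Place k K, Divisorial w P → ¬ Bd P → ∀ j, RegAt P fun D => ω D * b j := by
  classical
  have hch := charZeroK k K
  obtain ⟨γ, hγ⟩ : ∃ γ, γ = gam (Fintype.card B) (d + 1) := ⟨_, rfl⟩
  rw [← hγ] at hN ⊢
  obtain ⟨s0, hs0⟩ : ∃ s0 : (Unit ⊕ Fin w) ⊕ B, s0 = Sum.inl (Sum.inl ()) := ⟨_, rfl⟩
  rw [← hs0] at hb0 hbas
  -- derivations
  have hDer : ∀ i : Fin w, ∃ D : Derivation k K K, ∀ j : Fin w,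
      D (b (Sum.inl (Sum.inr j)) / b s0) = if i = j then 1 else 0 := fun i =>
    exists_der _ hbas fun j => if i = j then 1 else 0
  choose D0 hD0 using hDer
  obtain ⟨c0, hc0⟩ : ∃ c0 : Matrix B ((Unit ⊕ Fin w) ⊕ B) K, c0 = fromCols 0 1 := ⟨_, rfl⟩
  have hdet : (fromRows (vw D0 b) c0).det ≠ 0 := by
    have h1 : b = fun j => b s0 * (b j / b s0) := funext fun j => (mul_div_cancel₀ _ hb0).symm
    have h2 : vw D0 b = sc (b s0) D0 * vw D0 fun j => b j / b s0 := by
      conv_lhs => rw [h1]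
      exact vw_scale (b s0) D0 fun j => b j / b s0
    have h3 : fromRows (vw D0 b) c0 = fromBlocks (sc (b s0) D0) 0 0 1 *
        fromRows (vw D0 fun j => b j / b s0) c0 := by
      rw [fromBlocks_mul_fromRows, Matrix.zero_mul, Matrix.zero_mul, Matrix.one_mul, add_zero,
        zero_add, ← h2]
    have h4 : (fromRows (vw D0 fun j => b j / b s0) c0).det = 1 := by
      obtain ⟨V, hV⟩ : ∃ V : Matrix (Unit ⊕ Fin w) ((Unit ⊕ Fin w) ⊕ B) K,
        V = vw D0 fun j => b j / b s0 := ⟨_, rfl⟩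
      have h5 : fromRows V c0 = fromBlocks V.toCols₁ V.toCols₂ 0 1 := by
        rw [hc0, ← fromRows_fromCols_eq_fromBlocks, fromCols_toCols]
      have h6 : V.toCols₁ = fromBlocks (1 : Matrix Unit Unit K)
          (Matrix.of fun _ j => b (Sum.inl (Sum.inr j)) / b s0) (0 : Matrix (Fin w) Unit K)
          (1 : Matrix (Fin w) (Fin w) K) := by
        refine Matrix.ext fun i j => ?_
        rw [hV]
        rcases i with i | i <;> rcases j with j | j
        · change b (Sum.inl (Sum.inl j)) / b s0 = (1 : Matrix Unit Unit K) i j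
          rw [Matrix.one_apply, if_pos rfl, hs0]
          rw [hs0] at hb0
          exact div_self hb0
        · rfl
        · change D0 i (b (Sum.inl (Sum.inl j)) / b s0) = 0
          have h7 : b (Sum.inl (Sum.inl j)) / b s0 = 1 := by
            rw [hs0]
            rw [hs0] at hb0
            exact div_self hb0
          rw [h7]
          exact (D0 i).map_one_eq_zero
        · change D0 i (b (Sum.inl (Sum.inr j)) / b s0) = (1 : Matrix (Fin w) (Fin w) K) i j
          rw [hD0, Matrix.one_apply]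
      rw [← hV, h5, det_fromBlocks_zero₂₁, h6, det_fromBlocks_zero₂₁, det_one, det_one, det_one,
        one_mul, one_mul]
    rw [h3, det_mul, h4, det_fromBlocks_zero₁₂, sc_det, det_one, mul_one, mul_one]
    exact pow_ne_zero _ hb0
  obtain ⟨y, hy, hyl, hyne⟩ := exists_y hd hI hdet (Sum.inl ()) fun i => hl i
  have hr : 0 < d + 1 := by omega
  have hom0 : om y c0 b D0 ≠ 0 := hyne
  -- exponents
  obtain ⟨T, hT⟩ : ∃ T, ∑ i, m i = N * ((w + 1) * γ) + T + 1 :=
    ⟨∑ i, m i - N * ((w + 1) * γ) - 1, by omega⟩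
  have hden : ∏ i, lf (ℓ i) b ^ m i ≠ 0 :=
    Finset.prod_ne_zero_iff.mpr fun i _ => pow_ne_zero _ (hl i)
  obtain ⟨F, hF⟩ : ∃ F : K, F = b s0 ^ T / ∏ i, lf (ℓ i) b ^ m i := ⟨_, rfl⟩
  have hF0 : F ≠ 0 := by rw [hF]; exact div_ne_zero (pow_ne_zero _ hb0) hden
  -- the orders
  have hord : ∀ (P : Place k K) (D : Fin w → Derivation k K K) (c : ℤ) (e a : Fin q → ℕ),
      (∀ j, b j ≠ 0 → c ≤ P.ord (b j)) → (∃ j, b j ≠ 0 ∧ P.ord (b j) = c) →
      (∀ i, P.ord (lf (ℓ i) b) = c + e i) → (∀ i, a i ≤ e i) →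
      (∀ (i : Fin q) (j : Fin w) (f : K), Ge P (e i) f → Ge P (a i) (D j f)) →
      ((∑ i, (m i : ℝ) * e i) ≤ N * ∑ i, (a i : ℝ)) → ∀ j,
      P.Reg (om y c0 b D ^ N * F * b j) := by
    intro P D c e a h1 h2 h3 h4 h5 h6 j
    have h7 := om_ge hr hy hyl hg hq c0 P h2 (fun i => Or.inr (h3 i).ge) D h4 h5
    rw [← hγ] at h7
    have h8 : Ge P ((T : ℤ) * c - ∑ i, (m i : ℤ) * (c + e i)) F := by
      rw [hF]
      have h9 : Ge P ((T : ℤ) * c) (b s0 ^ T) :=
        Ge.pow (Or.inr (h1 s0 hb0)) T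
      have h10 := ge_div hden h9
      have h11 : P.ord (∏ i, lf (ℓ i) b ^ m i) = ∑ i, (m i : ℤ) * (c + e i) := by
        rw [ord_prod P _ _ fun i => pow_ne_zero _ (hl i)]
        refine Finset.sum_congr rfl fun i _ => ?_
        rw [P.ord_pow, h3 i]
      rwa [h11] at h10
    have h9 : Ge P c (b j) := by
      by_cases hj : b j = 0
      · exact Or.inl hj
      · exact Or.inr (h1 j hj)
    have h10 := ((h7.pow N).mul h8).mul h9
    refine h10.mono ?_
    have h11 : ∑ i, (m i : ℤ) * (c + e i) = (∑ i, (m i : ℤ)) * c + ∑ i, (m i : ℤ) * e i := by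
      rw [Finset.sum_mul, ← Finset.sum_add_distrib]
      exact Finset.sum_congr rfl fun i _ => by ring
    have h12 : (∑ i, (m i : ℤ)) = (N * ((w + 1) * γ) : ℕ) + T + 1 := by exact_mod_cast hT
    have h13 : ∑ i, (m i : ℤ) * e i ≤ N * ∑ i, (a i : ℤ) := by exact_mod_cast h6
    rw [h11, h12]
    push_cast
    linarith [h13]
  have hex : ∀ P : Place k K, ∃ (c : ℤ) (e : Fin q → ℕ),
      (∀ j, b j ≠ 0 → c ≤ P.ord (b j)) ∧ (∃ j, b j ≠ 0 ∧ P.ord (b j) = c) ∧
      ∀ i, P.ord (lf (ℓ i) b) = c + e i := by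
    intro P
    obtain ⟨j, hj, hjmin⟩ := Finset.exists_min_image (Finset.univ.filter fun j => b j ≠ 0)
      (fun j => P.ord (b j)) ⟨s0, by simpa using hb0⟩
    have h1 : ∀ j', b j' ≠ 0 → P.ord (b j) ≤ P.ord (b j') := fun j' hj' =>
      hjmin j' (by simpa using hj')
    have h2 : ∀ i, P.ord (b j) ≤ P.ord (lf (ℓ i) b) := fun i =>
      (lf_ge P (ℓ i) (b := b) (c := P.ord (b j)) fun j' => by
        by_cases hj' : b j' = 0
        · exact Or.inl hj'
        · exact Or.inr (h1 j' hj')).resolve_left (hl i)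
    refine ⟨P.ord (b j), fun i => (P.ord (lf (ℓ i) b) - P.ord (b j)).toNat, h1,
      ⟨j, by simpa using hj, rfl⟩, fun i => ?_⟩
    rw [Int.toNat_of_nonneg (by linarith [h2 i])]
    ring
  refine ⟨fun D => om y c0 b D ^ N * F, ?_, ⟨D0, mul_ne_zero (pow_ne_zero _ hom0) hF0⟩, ?_, ?_⟩
  · intro M D
    change om y c0 b _ ^ N * F = _
    rw [om_pluri hr hy c0 b M D, ← hγ, mul_pow, ← pow_mul, mul_comm γ N]
    ring
  · intro P _ j D hD
    obtain ⟨c, e, h1, h2, h3⟩ := hex P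
    refine hord P D c e e h1 h2 h3 (fun _ => le_rfl) (fun i j f hf => log_der (hD j) hf) ?_ j
    rw [Finset.mul_sum]
    refine Finset.sum_le_sum fun i _ => mul_le_mul_of_nonneg_right ?_ (by positivity)
    calc (m i : ℝ) ≤ N * wt i := hm i
      _ ≤ N * 1 := mul_le_mul_of_nonneg_left (hwt1 i) (by positivity)
      _ = N := mul_one _
  · intro P hPd hPB j D hD
    obtain ⟨c, e, h1, h2, h3⟩ := hex P
    refine hord P D c e (fun i => e i - 1) h1 h2 h3 (fun _ => Nat.sub_le _ _)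
      (fun i j f hf => reg_der (hD j) hf) ?_ j
    have h4 := hP P hPd hPB c e h1 h2 h3
    have h5 : ∑ i, ((e i - 1 : ℕ) : ℝ) = ∑ i, (e i : ℝ) -
        ((Finset.univ.filter fun i => e i ≠ 0).card : ℝ) := by
      rw [Finset.card_filter]
      push_cast
      rw [← Finset.sum_sub_distrib]
      refine Finset.sum_congr rfl fun i _ => ?_
      by_cases h : e i = 0
      · rw [h]; simp
      · rw [if_pos h, Nat.cast_sub (Nat.one_le_iff_ne_zero.mpr h), Nat.cast_one]
    have h6 : ∑ i, (1 - wt i) * (e i : ℝ) = ∑ i, (e i : ℝ) - ∑ i, wt i * e i := by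
      rw [← Finset.sum_sub_distrib]
      exact Finset.sum_congr rfl fun i _ => by ring
    have h7 : ∑ i, wt i * (e i : ℝ) ≤ ∑ i, ((e i - 1 : ℕ) : ℝ) := by
      rw [h5]
      linarith
    calc ∑ i, (m i : ℝ) * e i ≤ ∑ i, N * wt i * e i :=
          Finset.sum_le_sum fun i _ => mul_le_mul_of_nonneg_right (hm i) (by positivity)
      _ = N * ∑ i, wt i * e i := by
          rw [Finset.mul_sum]
          exact Finset.sum_congr rfl fun i _ => by ring
      _ ≤ N * ∑ i, ((e i - 1 : ℕ) : ℝ) := mul_le_mul_of_nonneg_left h7 (by positivity)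

end Pool.Agent.Y191
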