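import Pool.Agent.Y191.Sec
import Pool.Agent.Y191.Five

/-!
Varieties with arbitrary fibres over images in projective space with small multiplicities: they are
neither special nor Brody special.
-/

set_option autoImplicit false

open MvPolynomial Metric Filter Topology

namespace Pool.Agent.Y191

open Pool.Agent.W602.Cov Pool.Agent.W602.Cov.Cover Pool.Agent.W602.Cov.R Pool.Agent.W603.BP
open Pool.Agent.W601.PH Pool.Agent.W602.GT
open Pool.Agent.TH152.HY hiding aeval_inr main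
open Pool.Agent.TH152.DS

variable {N n q : ℕ}

/-- There is an entire curve in `X - D` whose image is Zariski dense in `X`. -/
def BrodySp (X D : BiSet N n) : Prop :=
  ∃ (u : ℂ → Fin (N + 1) → ℂ) (v : ℂ → Fin (n + 1) → ℂ), Differentiable ℂ u ∧
    Differentiable ℂ v ∧ (∀ z, TH152.HY.QMem X D (u z) (v z)) ∧
    ∀ (G : BiPoly N n) (E E' : ℕ), BiHom G E E' → (∀ z, eval (Sum.elim (u z) (v z)) G = 0) →
      ∀ u' v', X.Mem u' v' → eval (Sum.elim u' v') G = 0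

theorem eval_inr' (P : MvPolynomial (Fin (n + 1)) ℂ) (u : Fin (N + 1) → ℂ) (v : Fin (n + 1) → ℂ) :
    eval (Sum.elim u v) (rename Sum.inr P : BiPoly N n) = eval v P := by
  rw [eval_rename]
  rfl

theorem eval_lp (ℓ v : Fin (n + 1) → ℂ) : eval v (lp ℓ) = ∑ j, ℓ j * v j := by
  unfold lp
  rw [map_sum]
  refine Finset.sum_congr rfl fun j _ => ?_
  rw [map_mul, eval_C, eval_X]

/-- **Entire curves** lie over a point or over one of the hyperplanes. -/
theorem entire_wt {d : ℕ} (hn : 1 ≤ n) {ℓ : Fin q → Fin (n + 1) → ℂ} (hI : Independent d ℓ)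
    {wt : Fin q → ℝ} (hwt0 : ∀ i, 0 ≤ wt i) (hwt1 : ∀ i, wt i ≤ 1)
    (hlt : (2 * (n + d - 1).choose (n - 1) : ℕ) < ∑ i, wt i) {X D : BiSet N n}
    (hram : RamifiedWt X D ℓ wt) {u : ℂ → Fin (N + 1) → ℂ} {v : ℂ → Fin (n + 1) → ℂ}
    (hu : Differentiable ℂ u) (hv : Differentiable ℂ v)
    (hmem : ∀ z, TH152.HY.QMem X D (u z) (v z)) :
    (∀ z z', ∃ t : ℂ, v z' = t • v z) ∨ ∃ i, ∀ z, ∑ j, ℓ i j * v z j = 0 := by
  by_contra hcon
  push Not at hcon
  obtain ⟨⟨z1, z2, h12⟩, hne⟩ := hcon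
  have hQ : TH152.HY.QDisc X D (fun w => u (Complex.sin w⁻¹)) (fun w => v (Complex.sin w⁻¹)) :=
    ⟨sin_diff hu, sin_diff hv, fun z _ => hmem _⟩
  have hv' := fun j => an_of_diffOn hQ.diffv j
  have hmem' : ∀ z ∈ PB 1, TH152.HY.QMem X D (u (Complex.sin z⁻¹)) (v (Complex.sin z⁻¹)) :=
    fun z _ => hmem _
  refine sin_not hv (fun z => (hmem z).1.2.1) ⟨z2, z1, h12⟩ ?_
  rcases curve_picard hn (ℓ := ℓ) hI hwt0 hwt1 (by push_cast at hlt ⊢; exact hlt) hv'
    (fun z hz => (hmem' z hz).1.2.1)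
    (fun z hz w hw => disc_wt hram hQ hz w hw) with ⟨i, hi⟩ | ⟨h, _, _, hrr⟩
  · exfalso
    obtain ⟨z, hz⟩ := hne i
    apply hz
    obtain ⟨w, hw, hwz⟩ := sin_point z
    have h1 := hi w (mem_disc.mp hw)
    rw [← hwz]
    exact h1
  · exact extends_mrel hv' (fun z hz => (hmem' z hz).1.2.1) hrr

/-- no Zariski dense entire curves -/
theorem not_brody_of {X D : BiSet N n} {ℓ : Fin q → Fin (n + 1) → ℂ}
    (h : ∀ (u : ℂ → Fin (N + 1) → ℂ) (v : ℂ → Fin (n + 1) → ℂ), Differentiable ℂ u →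
      Differentiable ℂ v → (∀ z, TH152.HY.QMem X D (u z) (v z)) →
      (∀ z z', ∃ t : ℂ, v z' = t • v z) ∨ ∃ i, ∀ z, ∑ j, ℓ i j * v z j = 0)
    {K : Type} [Field K] [Algebra ℂ K] {a : Fin (N + 1) → K}
    {b : Fin (n + 1) → K} (hK : X.FunctionField K a b)
    (hpos : ∃ i j, b j ≠ 0 ∧ ∀ t : ℂ, b i ≠ t • b j) (hl : ∀ i, lf (ℓ i) b ≠ 0) :
    ¬ BrodySp X D := by
  rintro ⟨u, v, hu, hv, hmem, hdense⟩
  have hlin : ∀ φ : Fin (n + 1) → ℂ, (∀ z, ∑ j, φ j * v z j = 0) → lf φ b = 0 := by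
    intro φ hφ
    have h1 := (hK.van (rename Sum.inr (lp φ)) 0 1 (biHom_rename (lp_hom φ))).2
      (hdense _ 0 1 (biHom_rename (lp_hom φ)) fun z => by
        rw [eval_inr', eval_lp]
        exact hφ z)
    rwa [aeval_inr, aeval_lp] at h1
  rcases h u v hu hv hmem with hconst | ⟨i, hi⟩
  · -- the projection is constant
    obtain ⟨i, j, hj, hij⟩ := hpos
    have hp : v 0 ≠ 0 := (hmem 0).1.2.1
    have hrel : ∀ i j, algebraMap ℂ K (v 0 j) * b i = algebraMap ℂ K (v 0 i) * b j := by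
      intro i j
      have h1 := hlin (Pi.single i (v 0 j) - Pi.single j (v 0 i)) fun z => by
        obtain ⟨t, ht⟩ := hconst 0 z
        simp only [Pi.sub_apply, sub_mul, Finset.sum_sub_distrib, Pi.single_apply, ite_mul,
          zero_mul, Finset.sum_ite_eq', Finset.mem_univ, if_true]
        rw [ht, Pi.smul_apply, Pi.smul_apply, smul_eq_mul, smul_eq_mul]
        ring
      unfold lf at h1
      simp only [Pi.sub_apply, map_sub, sub_mul, Finset.sum_sub_distrib, Pi.single_apply,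
        apply_ite (algebraMap ℂ K), map_zero, ite_mul, zero_mul, Finset.sum_ite_eq',
        Finset.mem_univ, if_true] at h1
      linear_combination h1
    obtain ⟨k, hk⟩ := Function.ne_iff.mp hp
    have hk' : algebraMap ℂ K (v 0 k) ≠ 0 := by
      rw [Ne, map_eq_zero]
      exact hk
    have hj0 : v 0 j ≠ 0 := by
      intro h0
      apply hj
      have h2 := hrel j k
      rw [h0, map_zero, zero_mul] at h2
      exact (mul_eq_zero.1 h2).resolve_left hk'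
    have hj0' : algebraMap ℂ K (v 0 j) ≠ 0 := by
      rw [Ne, map_eq_zero]
      exact hj0
    apply hij (v 0 i / v 0 j)
    rw [Algebra.smul_def, map_div₀, div_mul_eq_mul_div, eq_div_iff hj0', ← hrel i j, mul_comm]
  · exact hl i (hlin (ℓ i) hi)

/-- the dimension of the image -/
theorem pos_dim {K : Type} [Field K] [Algebra ℂ K] {t : ℕ} (ht : Algebra.trdeg ℂ K = t)
    {b : Fin (n + 1) → K} (hpos : ∃ i j, b j ≠ 0 ∧ ∀ t : ℂ, b i ≠ t • b j) :
    ∃ p : ℕ, Algebra.trdeg ℂ (RF ℂ b) = p ∧ 1 ≤ p ∧ p ≤ t := by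
  have hle : Algebra.trdeg ℂ (RF ℂ b) ≤ t := by
    rw [← ht]
    exact trdeg_le_of_injective (RF ℂ b).val Subtype.val_injective
  obtain ⟨p, hp⟩ := Cardinal.lt_aleph0.1 (lt_of_le_of_lt hle Cardinal.natCast_lt_aleph0)
  refine ⟨p, hp, ?_, by rw [hp] at hle; exact_mod_cast hle⟩
  by_contra h0
  obtain rfl : p = 0 := by omega
  rw [Nat.cast_zero, trdeg_eq_zero_iff] at hp
  obtain ⟨i, j, hj, hij⟩ := hpos
  have h1 := hp.isAlgebraic (⟨b i / b j, IntermediateField.subset_adjoin ℂ _ ⟨i, j, hj, rfl⟩⟩ :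
    RF ℂ b)
  have h2 : IsAlgebraic ℂ (b i / b j) := h1.algHom (RF ℂ b).val
  obtain ⟨c, hc⟩ := const_of_algebraic h2
  apply hij c
  rw [Algebra.smul_def, ← hc, div_mul_cancel₀ _ hj]

/-- **The theorem.** -/
theorem fib_main {d : ℕ} (hn : 1 ≤ n) {ℓ : Fin q → Fin (n + 1) → ℂ} (hI : Independent d ℓ)
    (hg : GeneralPosition ℓ) {wt : Fin q → ℝ} (hwt0 : ∀ i, 0 ≤ wt i) (hwt1 : ∀ i, wt i ≤ 1)
    (hlt : (2 * (n + d - 1).choose (n - 1) : ℕ) < ∑ i, wt i) {X D : BiSet N n}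
    (hram : RamifiedWt X D ℓ wt) {K : Type} [Field K] [Algebra ℂ K] {a : Fin (N + 1) → K}
    {b : Fin (n + 1) → K} {t : ℕ} (hK : X.FunctionField K a b) (htr : Algebra.trdeg ℂ K = t)
    (hpos : ∃ i j, b j ≠ 0 ∧ ∀ t : ℂ, b i ≠ t • b j) (hl : ∀ i, lf (ℓ i) b ≠ 0) :
    ¬ Special ℂ K t (CentreIn D a b) ∧ ¬ BrodySp X D := by
  refine ⟨fun hsp => ?_, not_brody_of (fun u v hu hv hmem =>
    entire_wt hn hI hwt0 hwt1 hlt hram hu hv hmem) hK hpos hl⟩
  obtain ⟨p, hp, hp1, hpt⟩ := pos_dim htr hpos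
  have hq1 : ∑ i, wt i ≤ q := by
    have := Finset.sum_le_sum fun i (_ : i ∈ Finset.univ) => hwt1 i
    simpa using this
  have hqd := le_of_ind (κ := ℂ) (ℓ := ℓ) hI
  have hlt' : 2 * (n + d - 1).choose (n - 1) < q := by
    have : ((2 * (n + d - 1).choose (n - 1) : ℕ) : ℝ) < q := hlt.trans_le hq1
    exact_mod_cast this
  have hnd : n < d := deg_lt hn (hlt'.trans_le hqd)
  have hq : n + 1 ≤ q := by
    have h1 : n.choose (n - 1) ≤ (n + d - 1).choose (n - 1) :=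
      Nat.choose_le_choose (n - 1) (by omega)
    have h2 : n.choose (n - 1) = n := by
      obtain ⟨m, rfl⟩ : ∃ m, n = m + 1 := ⟨n - 1, by omega⟩
      simp
    omega
  have hb : ∃ j, b j ≠ 0 := by
    obtain ⟨_, j, hj, _⟩ := hpos
    exact ⟨j, hj⟩
  have hpn : p ≤ n := by
    obtain ⟨_, _, _, _, h, _⟩ := base_fin (k := ℂ) (by omega) hI (genPos_of hg) hq hl hb hp
    exact h
  refine hsp p hp1 (bog (by omega) hI (genPos_of hg) hq hl hb hp hwt0 hwt1
    (lt_of_le_of_lt (by exact_mod_cast gam_le hnd.le p hp1 hpn) hlt) _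
    fun P _ hPB c e ho => ?_)
  refine le_trans ?_ (hram K a b hK.mem hl P hPB c e ⟨ho.1, ho.2.1⟩ ho.2.2)
  exact_mod_cast min_le_left _ _

end Pool.Agent.Y191
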