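import Pool.Agent.Y191.Eff
import Pool.Agent.Y191.Num

/-!
Function fields over projective space: effective positivity and log general type.
-/

set_option autoImplicit false

open MvPolynomial Matrix FF Pool.Agent.W603.LV Pool.Agent.W602.GT

namespace Pool.Agent.Y191

theorem IndT.reindex {ι ι' κ : Type*} [Field κ] {q d : ℕ} {ℓ : Fin q → ι' → κ} (e : ι ≃ ι')
    (h : IndT d ℓ) : IndT d fun i j => ℓ i (e j) := by
  intro i
  obtain ⟨P, hP, h1, h2⟩ := h i
  have hev : ∀ i', eval (fun j => ℓ i' (e j)) (rename e.symm P) = eval (ℓ i') P := by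
    intro i'
    rw [eval_rename]
    congr 2
    funext j
    simp
  refine ⟨rename e.symm P, hP.rename_isHomogeneous, ?_, fun j hj => ?_⟩
  · rw [hev]
    exact h1
  · rw [hev]
    exact h2 j hj

variable {k : Type} [Field k]

theorem GenPos.reindex {ι ι' : Type} [Fintype ι] [DecidableEq ι] [Fintype ι'] [DecidableEq ι']
    {q : ℕ} {ℓ : Fin q → ι' → k} (e : ι ≃ ι') (h : GenPos ℓ) : GenPos fun i j => ℓ i (e j) := by
  intro σ hσ
  have h1 := h (fun j => σ (e.symm j)) (hσ.comp e.symm.injective)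
  have h2 : (Matrix.of fun j => (fun l => ℓ (σ j) (e l)) : Matrix ι ι k) =
      (Matrix.of fun j : ι' => ℓ (σ (e.symm j))).submatrix e e := by
    refine Matrix.ext fun i j => ?_
    rw [Matrix.submatrix_apply, Matrix.of_apply, Matrix.of_apply, e.symm_apply_apply]
  rw [h2, Matrix.det_submatrix_equiv_self]
  exact h1

variable {K : Type} [Field K] [Algebra k K] [CharZero k]

theorem lf_reindex {ι ι' : Type} [Fintype ι] [Fintype ι'] (e : ι ≃ ι') (ℓ : ι' → k)
    (b : ι' → K) : lf (fun j => ℓ (e j)) (fun j => b (e j)) = lf ℓ b := by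
  unfold lf
  exact Equiv.sum_comp e fun j => algebraMap k K (ℓ j) * b j

/-- the ramification condition at the places which do not lie over the boundary -/
def Orb {n q : ℕ} (wt : Fin q → ℝ) (ℓ : Fin q → Fin (n + 1) → k) (b : Fin (n + 1) → K)
    (P : Place k K) : Prop :=
  ∀ (c : ℤ) (e : Fin q → ℕ), (∀ j, b j ≠ 0 → c ≤ P.ord (b j)) →
    (∃ j, b j ≠ 0 ∧ P.ord (b j) = c) → (∀ i, P.ord (lf (ℓ i) b) = c + e i) →
    ((Finset.univ.filter fun i => e i ≠ 0).card : ℝ) ≤ ∑ i, (1 - wt i) * e i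

/-- Effective positivity. -/
theorem eff_fin {n d q w : ℕ} (hd : 0 < d) {ℓ : Fin q → Fin (n + 1) → k} (hI : IndT d ℓ)
    (hg : GenPos ℓ) (hq : n + 1 ≤ q) (hw : w ≤ n) {wt : Fin q → ℝ}
    (hwt0 : ∀ i, 0 ≤ wt i) (hwt1 : ∀ i, wt i ≤ 1) {N : ℕ} {m : Fin q → ℕ}
    (hm : ∀ i, (m i : ℝ) ≤ N * wt i)
    (hN : N * ((w + 1) * gam (n - w) (d + 1)) < ∑ i, m i)
    {b : Fin (n + 1) → K} (hl : ∀ i, lf (ℓ i) b ≠ 0)
    (σ : Fin (w + 1) → Fin (n + 1)) (hb0 : b (σ 0) ≠ 0)
    (hbas : IsTranscendenceBasis k fun j : Fin w => b (σ j.succ) / b (σ 0))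
    (Bd : Place k K → Prop)
    (hP : ∀ P : Place k K, Divisorial w P → ¬ Bd P → Orb wt ℓ b P) :
    ∃ ω : (Fin w → Derivation k K K) → K,
      IsPluri (N * gam (n - w) (d + 1)) ω ∧ (∃ D, ω D ≠ 0) ∧
      (∀ P : Place k K, Divisorial w P → ∀ j, LogAt P fun D => ω D * b j) ∧
      ∀ P : Place k K, Divisorial w P → ¬ Bd P → ∀ j, RegAt P fun D => ω D * b j := by
  classical
  -- the coordinates of the basis
  let f : Unit ⊕ Fin w → Fin (n + 1) := Sum.elim (fun _ => σ 0) fun j => σ j.succ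
  have hf : Function.Injective f := by
    have h1 : ∀ j : Fin w, σ j.succ ≠ σ 0 := by
      intro j h0
      have h2 := hbas.1.transcendental j
      apply h2
      change IsAlgebraic k (b (σ j.succ) / b (σ 0))
      rw [h0, div_self hb0]
      exact isAlgebraic_one
    have h2 : ∀ j j' : Fin w, σ j.succ = σ j'.succ → j = j' := by
      intro j j' h
      apply hbas.1.injective
      change b (σ j.succ) / b (σ 0) = b (σ j'.succ) / b (σ 0)
      rw [h]
    rintro (x | j) (x' | j') h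
    · rfl
    · exact absurd h.symm (h1 j')
    · exact absurd h (h1 j)
    · exact congrArg Sum.inr (h2 j j' h)
  have hcard : Fintype.card ((Set.range f)ᶜ : Set (Fin (n + 1))) = n - w := by
    rw [Fintype.card_compl_set, Fintype.card_fin, Set.card_range_of_injective hf,
      Fintype.card_sum, Fintype.card_unit, Fintype.card_fin]
    omega
  let e1 : (Unit ⊕ Fin w) ≃ Set.range f := Equiv.ofInjective f hf
  let e2 : Fin (n - w) ≃ ((Set.range f)ᶜ : Set (Fin (n + 1))) := (Fintype.equivFinOfCardEq hcard).symm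
  let e : (Unit ⊕ Fin w) ⊕ Fin (n - w) ≃ Fin (n + 1) :=
    (Equiv.sumCongr e1 e2).trans (Equiv.Set.sumCompl (Set.range f))
  have he : ∀ x, e (Sum.inl x) = f x := fun x => by
    simp [e, e1]
  have hcB : Fintype.card (Fin (n - w)) = n - w := Fintype.card_fin _
  have hcA : Fintype.card ((Unit ⊕ Fin w) ⊕ Fin (n - w)) ≤ q := by
    rw [Fintype.card_congr e, Fintype.card_fin]
    exact hq
  have h := eff_sum (B := Fin (n - w)) hd (hI.reindex e) (hg.reindex e) hcA hwt0 hwt1 hm
    (by rw [hcB]; exact hN) (b := fun j => b (e j)) (fun i => by rw [lf_reindex]; exact hl i)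
    (by change b (e (Sum.inl (Sum.inl ()))) ≠ 0
        rw [he]; exact hb0)
    (by
      have h1 : (fun j : Fin w => b (e (Sum.inl (Sum.inr j))) / b (e (Sum.inl (Sum.inl ())))) =
          fun j : Fin w => b (σ j.succ) / b (σ 0) := by
        funext j
        rw [he, he]
        rfl
      change IsTranscendenceBasis k fun j : Fin w => b (e (Sum.inl (Sum.inr j))) /
        b (e (Sum.inl (Sum.inl ())))
      rw [h1]
      exact hbas) Bd
    (fun P hPd hPB c ee h1 h2 h3 => by
      refine hP P hPd hPB c ee (fun j hj => ?_) ?_ fun i => ?_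
      · have := h1 (e.symm j) (by rw [e.apply_symm_apply]; exact hj)
        rwa [e.apply_symm_apply] at this
      · obtain ⟨j, hj, hjc⟩ := h2
        exact ⟨e j, hj, hjc⟩
      · rw [← lf_reindex e (ℓ i) b]
        exact h3 i)
  rw [hcB] at h
  obtain ⟨ω, h1, h2, h3, h4⟩ := h
  refine ⟨ω, h1, h2, fun P hPd j => ?_, fun P hPd hPB j => ?_⟩
  · have := h3 P hPd (e.symm j)
    rwa [e.apply_symm_apply] at this
  · have := h4 P hPd hPB (e.symm j)
    rwa [e.apply_symm_apply] at this

/-- a transcendence basis of quotients of coordinates -/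
theorem exists_sigma {n w : ℕ} {y : Fin (n + 1) → K} {k0 : Fin (n + 1)} (hk : y k0 ≠ 0)
    (halg : Algebra.IsAlgebraic
      (IntermediateField.adjoin k {f : K | ∃ i j, y j ≠ 0 ∧ f = y i / y j}) K)
    (htr : Algebra.trdeg k K = w) :
    ∃ σ : Fin (w + 1) → Fin (n + 1), y (σ 0) ≠ 0 ∧
      IsTranscendenceBasis k (fun j : Fin w => y (σ j.succ) / y (σ 0)) := by
  have halg1 : Algebra.IsAlgebraic
      (IntermediateField.adjoin k (Set.range fun j => y j / y k0)) K := by
    have hle : IntermediateField.adjoin k {f : K | ∃ i j, y j ≠ 0 ∧ f = y i / y j} ≤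
        IntermediateField.adjoin k (Set.range fun j => y j / y k0) := by
      rw [IntermediateField.adjoin_le_iff]
      rintro _ ⟨i, j, hj, rfl⟩
      have e : y i / y j = (y i / y k0) / (y j / y k0) := by
        field_simp
      rw [e]
      exact div_mem (IntermediateField.subset_adjoin k _ ⟨i, rfl⟩)
        (IntermediateField.subset_adjoin k _ ⟨j, rfl⟩)
    let _ : Algebra (IntermediateField.adjoin k {f : K | ∃ i j, y j ≠ 0 ∧ f = y i / y j})
        (IntermediateField.adjoin k (Set.range fun j => y j / y k0)) :=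
      (IntermediateField.inclusion hle).toRingHom.toAlgebra
    have : IsScalarTower (IntermediateField.adjoin k {f : K | ∃ i j, y j ≠ 0 ∧ f = y i / y j})
        (IntermediateField.adjoin k (Set.range fun j => y j / y k0)) K :=
      IsScalarTower.of_algebraMap_eq fun x => rfl
    exact Algebra.IsAlgebraic.extendScalars
      (R := IntermediateField.adjoin k {f : K | ∃ i j, y j ≠ 0 ∧ f = y i / y j})
      (IntermediateField.inclusion hle).toRingHom.injective
  rw [IntermediateField.isAlgebraic_adjoin_iff_top] at halg1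
  obtain ⟨t, hts, ht⟩ := exists_isTranscendenceBasis_subset (R := k)
    (Set.range fun j => y j / y k0)
  have h1 := ht.cardinalMk_eq_trdeg
  rw [htr] at h1
  obtain ⟨φ⟩ : Nonempty (Fin w ≃ t) := by
    rw [← Cardinal.eq, Cardinal.mk_fin]
    exact h1.symm
  have h2 : ∀ j : Fin w, ∃ i, y i / y k0 = φ j := fun j => hts (φ j).2
  choose s hs using h2
  refine ⟨Fin.cons k0 s, hk, ?_⟩
  have e : (fun j : Fin w => y ((Fin.cons k0 s : Fin (w + 1) → Fin (n + 1)) j.succ) /
      y ((Fin.cons k0 s : Fin (w + 1) → Fin (n + 1)) 0)) = fun j => ((φ j : t) : K) := by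
    funext j
    rw [Fin.cons_succ, Fin.cons_zero]
    exact hs j
  rw [e]
  exact ht.comp_equiv φ

theorem w_le {n w : ℕ} {y : Fin (n + 1) → K} (σ : Fin (w + 1) → Fin (n + 1)) (hy : y (σ 0) ≠ 0)
    (hbas : IsTranscendenceBasis k (fun j : Fin w => y (σ j.succ) / y (σ 0))) : w ≤ n := by
  have hinj : Function.Injective σ := by
    have h1 : ∀ j : Fin w, σ j.succ ≠ σ 0 := by
      intro j h0
      have h2 := hbas.1.transcendental j
      apply h2
      change IsAlgebraic k (y (σ j.succ) / y (σ 0))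
      rw [h0, div_self hy]
      exact isAlgebraic_one
    intro a b h
    refine Fin.cases (fun h => ?_) (fun j h => ?_) a h
    · refine Fin.cases (fun _ => rfl) (fun j h => absurd h.symm (h1 j)) b h
    · refine Fin.cases (fun h => absurd h (h1 j)) (fun j' h => ?_) b h
      congr 1
      apply hbas.1.injective
      change y (σ j.succ) / y (σ 0) = y (σ j'.succ) / y (σ 0)
      rw [h]
  have := Fintype.card_le_of_injective σ hinj
  simp only [Fintype.card_fin] at this
  omega

/-- Uniform positivity: the exponent depends only on the arrangement. -/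
theorem eff_uniform {n d q : ℕ} (hn : 1 ≤ n) {ℓ : Fin q → Fin (n + 1) → k}
    (hI : IndT d ℓ) (hg : GenPos ℓ) {wt : Fin q → ℝ} (hwt0 : ∀ i, 0 ≤ wt i)
    (hwt1 : ∀ i, wt i ≤ 1) (hlt : (2 * (n + d - 1).choose (n - 1) : ℕ) < ∑ i, wt i) :
    ∃ R : ℕ, 0 < R ∧ ∀ (K : Type) [Field K] [Algebra k K] (w : ℕ) (b : Fin (n + 1) → K),
      0 < w → Algebra.trdeg k K = w →
      Algebra.IsAlgebraic (IntermediateField.adjoin k {f : K | ∃ i j, b j ≠ 0 ∧ f = b i / b j}) K →
      (∃ j, b j ≠ 0) → (∀ i, lf (ℓ i) b ≠ 0) → ∀ Bd : Place k K → Prop,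
      (∀ P : Place k K, Divisorial w P → ¬ Bd P → Orb wt ℓ b P) →
      (∃ ω : (Fin w → Derivation k K K) → K, IsPluri R ω ∧ (∃ D, ω D ≠ 0) ∧
        (∀ P : Place k K, Divisorial w P → ∀ j, LogAt P fun D => ω D * b j) ∧
        ∀ P : Place k K, Divisorial w P → ¬ Bd P → ∀ j, RegAt P fun D => ω D * b j) ∧
      LogGeneralType k K w Bd := by
  classical
  have hq1 : ∑ i, wt i ≤ q := by
    have := Finset.sum_le_sum fun i (_ : i ∈ Finset.univ) => hwt1 i
    simpa using this
  have hqd := le_of_ind hI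
  have hlt' : 2 * (n + d - 1).choose (n - 1) < q := by
    have : ((2 * (n + d - 1).choose (n - 1) : ℕ) : ℝ) < q := hlt.trans_le hq1
    exact_mod_cast this
  have hnd : n < d := deg_lt hn (hlt'.trans_le hqd)
  have hq : n + 1 ≤ q := by
    have h1 : n.choose (n - 1) ≤ (n + d - 1).choose (n - 1) :=
      Nat.choose_le_choose (n - 1) (by omega)
    have h2 : n.choose (n - 1) = n := by
      obtain ⟨m, rfl⟩ : ∃ m, n = m + 1 := ⟨n - 1, by omega⟩
      simp
    omega
  obtain ⟨R, hR, hR'⟩ := exists_R hnd.le hwt0 hlt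
  refine ⟨R, hR, fun K _ _ w b hw htr halg hb hl Bd hP => ?_⟩
  obtain ⟨k0, hk0⟩ := hb
  obtain ⟨σ, hσ, hbas⟩ := exists_sigma hk0 halg htr
  have hwn := w_le σ hσ hbas
  obtain ⟨N, m, hN0, hRN, hm, hN⟩ := hR' w hw hwn
  obtain ⟨ω, h1, ⟨D, hD⟩, h3, h4⟩ := eff_fin (by omega) hI hg hq hwn hwt0 hwt1 hm hN hl σ hσ hbas
    Bd hP
  rw [← hRN] at h1
  refine ⟨⟨ω, h1, ⟨D, hD⟩, h3, h4⟩, htr, R, hR, fun j D => ω D * b (σ j), fun j M D => ?_,
    fun P hPd j => h3 P hPd (σ j), fun P hPd hPB j => h4 P hPd hPB (σ j), D,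
    mul_ne_zero hD hσ, ?_⟩
  · change ω _ * b (σ j) = _
    rw [h1 M D]
    ring
  · have e : (fun i : Fin w => ω D * b (σ i.succ) / (ω D * b (σ 0))) =
        fun i : Fin w => b (σ i.succ) / b (σ 0) := by
      funext i
      field_simp
    change AlgebraicIndependent k (fun i : Fin w => ω D * b (σ i.succ) / (ω D * b (σ 0)))
    rw [e]
    exact hbas.1

end Pool.Agent.Y191
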