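import Pool.Agent.Y191.Form

/-!
The restriction of an arrangement to a flat.
-/

set_option autoImplicit false

open MvPolynomial Matrix

namespace Pool.Agent.Y191

section ring

variable {R : Type*} [CommRing R] {n q s p : ℕ}

/-- the square block of the forms of a flat -/
def fA (e : Fin s ⊕ Fin (p + 1) ≃ Fin (n + 1)) (σ : Fin s → Fin q)
    (ℓ : Fin q → Fin (n + 1) → R) : Matrix (Fin s) (Fin s) R :=
  Matrix.of fun a b => ℓ (σ a) (e (Sum.inl b))

/-- the forms restricted to a flat -/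
def rho (e : Fin s ⊕ Fin (p + 1) ≃ Fin (n + 1)) (σ : Fin s → Fin q)
    (ℓ : Fin q → Fin (n + 1) → R) (i : Fin q) (j : Fin (p + 1)) : R :=
  (fA e σ ℓ).det * ℓ i (e (Sum.inr j)) -
    ∑ a, ∑ b, ℓ i (e (Sum.inl a)) * (fA e σ ℓ).adjugate a b * ℓ (σ b) (e (Sum.inr j))

theorem fA_map {R' : Type*} [CommRing R'] (f : R →+* R') (e : Fin s ⊕ Fin (p + 1) ≃ Fin (n + 1))
    (σ : Fin s → Fin q) (ℓ : Fin q → Fin (n + 1) → R) :
    fA e σ (fun i j => f (ℓ i j)) = f.mapMatrix (fA e σ ℓ) := rfl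

theorem rho_map {R' : Type*} [CommRing R'] (f : R →+* R')
    (e : Fin s ⊕ Fin (p + 1) ≃ Fin (n + 1)) (σ : Fin s → Fin q)
    (ℓ : Fin q → Fin (n + 1) → R) (i : Fin q) (j : Fin (p + 1)) :
    rho e σ (fun i j => f (ℓ i j)) i j = f (rho e σ ℓ i j) := by
  unfold rho
  rw [fA_map, ← RingHom.map_det, ← RingHom.map_adjugate, map_sub, map_mul, map_sum]
  congr 1
  refine Finset.sum_congr rfl fun a _ => ?_
  rw [map_sum]
  refine Finset.sum_congr rfl fun b _ => ?_
  rw [map_mul, map_mul]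
  rfl

end ring

variable {k K : Type} [Field k] [Field K] [Algebra k K] {n q s p : ℕ}

theorem lf_split (e : Fin s ⊕ Fin (p + 1) ≃ Fin (n + 1)) (ℓ : Fin (n + 1) → k)
    (v : Fin (n + 1) → K) :
    lf ℓ v = ∑ a, algebraMap k K (ℓ (e (Sum.inl a))) * v (e (Sum.inl a)) +
      ∑ j, algebraMap k K (ℓ (e (Sum.inr j))) * v (e (Sum.inr j)) := by
  unfold lf
  rw [← Equiv.sum_comp e, Fintype.sum_sum_type]

/-- the coordinates of a point of a flat -/
theorem flat_solve (e : Fin s ⊕ Fin (p + 1) ≃ Fin (n + 1)) (σ : Fin s → Fin q)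
    (ℓ : Fin q → Fin (n + 1) → k) {v : Fin (n + 1) → K} (hv : ∀ a, lf (ℓ (σ a)) v = 0)
    (a : Fin s) :
    algebraMap k K (fA e σ ℓ).det * v (e (Sum.inl a)) =
      - ∑ b, algebraMap k K ((fA e σ ℓ).adjugate a b) *
        ∑ j, algebraMap k K (ℓ (σ b) (e (Sum.inr j))) * v (e (Sum.inr j)) := by
  have h1 : ∀ b, ∑ j, algebraMap k K (ℓ (σ b) (e (Sum.inr j))) * v (e (Sum.inr j)) =
      - ∑ c, algebraMap k K (ℓ (σ b) (e (Sum.inl c))) * v (e (Sum.inl c)) := by
    intro b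
    have h2 := hv b
    rw [lf_split e] at h2
    linear_combination h2
  simp only [h1, mul_neg, Finset.sum_neg_distrib, neg_neg]
  have h2 : ∀ c, ∑ b, (fA e σ ℓ).adjugate a b * ℓ (σ b) (e (Sum.inl c)) =
      if a = c then (fA e σ ℓ).det else 0 := by
    intro c
    have h3 : ((fA e σ ℓ).adjugate * fA e σ ℓ) a c = ((fA e σ ℓ).det • (1 : Matrix (Fin s) (Fin s) k)) a c := by
      rw [Matrix.adjugate_mul]
    rw [Matrix.mul_apply, Matrix.smul_apply, Matrix.one_apply] at h3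
    refine Eq.trans ?_ (h3.trans ?_)
    · rfl
    · split_ifs <;> simp
  simp only [Finset.mul_sum]
  rw [Finset.sum_comm]
  have h4 : ∀ c, ∑ b, algebraMap k K ((fA e σ ℓ).adjugate a b) *
      (algebraMap k K (ℓ (σ b) (e (Sum.inl c))) * v (e (Sum.inl c))) =
      (if a = c then algebraMap k K (fA e σ ℓ).det else 0) * v (e (Sum.inl c)) := by
    intro c
    have h5 := congrArg (algebraMap k K) (h2 c)
    rw [map_sum] at h5
    simp only [map_mul] at h5
    rw [apply_ite (algebraMap k K), map_zero] at h5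
    rw [← h5, Finset.sum_mul]
    refine Finset.sum_congr rfl fun b _ => ?_
    ring
  simp only [h4, ite_mul, zero_mul]
  rw [Finset.sum_ite_eq Finset.univ a]
  simp

/-- the restricted forms -/
theorem lf_rho (e : Fin s ⊕ Fin (p + 1) ≃ Fin (n + 1)) (σ : Fin s → Fin q)
    (ℓ : Fin q → Fin (n + 1) → k) {v : Fin (n + 1) → K} (hv : ∀ a, lf (ℓ (σ a)) v = 0)
    (i : Fin q) :
    lf (rho e σ ℓ i) (fun j => v (e (Sum.inr j))) = algebraMap k K (fA e σ ℓ).det * lf (ℓ i) v := by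
  rw [lf_split e (ℓ i), mul_add, Finset.mul_sum]
  have h1 : ∀ a, algebraMap k K (fA e σ ℓ).det *
      (algebraMap k K (ℓ i (e (Sum.inl a))) * v (e (Sum.inl a))) =
      - ∑ b, ∑ j, algebraMap k K (ℓ i (e (Sum.inl a)) * (fA e σ ℓ).adjugate a b *
        ℓ (σ b) (e (Sum.inr j))) * v (e (Sum.inr j)) := by
    intro a
    have h2 := flat_solve e σ ℓ hv a
    have h3 : algebraMap k K (fA e σ ℓ).det *
        (algebraMap k K (ℓ i (e (Sum.inl a))) * v (e (Sum.inl a))) =
        algebraMap k K (ℓ i (e (Sum.inl a))) *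
        (algebraMap k K (fA e σ ℓ).det * v (e (Sum.inl a))) := by ring
    rw [h3, h2, mul_neg, Finset.mul_sum]
    congr 1
    refine Finset.sum_congr rfl fun b _ => ?_
    rw [Finset.mul_sum, Finset.mul_sum]
    refine Finset.sum_congr rfl fun j _ => ?_
    rw [map_mul, map_mul]
    ring
  simp only [h1]
  rw [Finset.sum_neg_distrib, Finset.mul_sum, neg_add_eq_sub]
  unfold lf rho
  have h4 : ∑ a, ∑ b, ∑ j, algebraMap k K (ℓ i (e (Sum.inl a)) * (fA e σ ℓ).adjugate a b *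
      ℓ (σ b) (e (Sum.inr j))) * v (e (Sum.inr j)) =
      ∑ j, algebraMap k K (∑ a, ∑ b, ℓ i (e (Sum.inl a)) * (fA e σ ℓ).adjugate a b *
      ℓ (σ b) (e (Sum.inr j))) * v (e (Sum.inr j)) := by
    simp only [map_sum, Finset.sum_mul]
    rw [Finset.sum_comm]
    conv_rhs => rw [Finset.sum_comm]
    rw [Finset.sum_comm]
    refine Finset.sum_congr rfl fun a _ => ?_
    rw [Finset.sum_comm]
  rw [h4, ← Finset.sum_sub_distrib]
  refine Finset.sum_congr rfl fun j _ => ?_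
  rw [map_sub, map_mul]
  ring

/-- a point of the flat is determined by the last coordinates -/
theorem flat_ne (e : Fin s ⊕ Fin (p + 1) ≃ Fin (n + 1)) (σ : Fin s → Fin q)
    (ℓ : Fin q → Fin (n + 1) → k) (hA : (fA e σ ℓ).det ≠ 0) {v : Fin (n + 1) → K}
    (hv : ∀ a, lf (ℓ (σ a)) v = 0) (hv0 : v ≠ 0) : ∃ j, v (e (Sum.inr j)) ≠ 0 := by
  by_contra hcon
  push Not at hcon
  apply hv0
  funext i
  obtain ⟨x, rfl⟩ := e.surjective i
  rcases x with a | j
  · have h1 := flat_solve e σ ℓ hv a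
    simp only [hcon, mul_zero, Finset.sum_const_zero, neg_zero] at h1
    exact (mul_eq_zero.mp h1).resolve_left (by simpa using hA)
  · exact hcon j

end Pool.Agent.Y191
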