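import Pool.Agent.Y191.Loc
import Pool.Agent.Y191.Span
import Pool.Agent.Y191.Lf

/-!
The pluricanonical form attached to the coordinates of a point over a function field.
-/

set_option autoImplicit false

open MvPolynomial Matrix FF Pool.Agent.W603.LV Pool.Agent.W602.GT

namespace Pool.Agent.Y191

variable {k K : Type} [Field k] [Field K] [Algebra k K]

theorem lf_smul {ι : Type} [Fintype ι] (ℓ : ι → k) (t : K) (b : ι → K) :
    lf ℓ (fun j => t * b j) = t * lf ℓ b := by
  unfold lf
  rw [Finset.mul_sum]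
  exact Finset.sum_congr rfl fun j _ => by ring

theorem lf_der {ι : Type} [Fintype ι] (ℓ : ι → k) (D : Derivation k K K) (b : ι → K) :
    lf ℓ (fun j => D (b j)) = D (lf ℓ b) := by
  unfold lf
  rw [map_sum]
  refine Finset.sum_congr rfl fun j _ => ?_
  rw [D.leibniz, Derivation.map_algebraMap, smul_zero, add_zero, smul_eq_mul]

variable {w : ℕ} {B : Type} [Fintype B] [DecidableEq B]

/-- the coordinates and their derivatives -/
def vw {ι : Type} (D : Fin w → Derivation k K K) (b : ι → K) : Matrix (Unit ⊕ Fin w) ι K :=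
  fromRows (Matrix.of fun _ j => b j) (Matrix.of fun i j => D i (b j))

theorem der_sum {τ : Type*} (s : Finset τ) (c : τ → K) (D : τ → Derivation k K K) (f : K) :
    (∑ i ∈ s, c i • D i) f = ∑ i ∈ s, c i * D i f := by
  classical
  induction s using Finset.induction_on with
  | empty => simp
  | insert i s hi ih =>
    rw [Finset.sum_insert hi, Finset.sum_insert hi, Derivation.add_apply, ih]
    rfl

/-- the matrix of a linear substitution of the derivations -/
def bm (M : Matrix (Fin w) (Fin w) K) : Matrix (Unit ⊕ Fin w) (Unit ⊕ Fin w) K :=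
  fromBlocks (1 : Matrix Unit Unit K) (0 : Matrix Unit (Fin w) K) (0 : Matrix (Fin w) Unit K) M

theorem vw_lin {ι : Type} (M : Matrix (Fin w) (Fin w) K) (D : Fin w → Derivation k K K)
    (b : ι → K) : vw (fun i => ∑ j, M i j • D j) b = bm M * vw D b := by
  unfold vw bm
  rw [fromBlocks_mul_fromRows, Matrix.zero_mul, Matrix.zero_mul, Matrix.one_mul, add_zero,
    zero_add]
  congr 1
  refine Matrix.ext fun i j => ?_
  rw [Matrix.mul_apply]
  exact der_sum _ _ _ _

/-- the matrix of a scaling of the coordinates -/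
def sc (t : K) (D : Fin w → Derivation k K K) : Matrix (Unit ⊕ Fin w) (Unit ⊕ Fin w) K :=
  fromBlocks (diagonal fun _ : Unit => t) (0 : Matrix Unit (Fin w) K)
    (Matrix.of fun i _ => D i t) (diagonal fun _ : Fin w => t)

theorem sc_det (t : K) (D : Fin w → Derivation k K K) : (sc t D).det = t ^ (w + 1) := by
  unfold sc
  rw [det_fromBlocks_zero₁₂, det_diagonal, det_diagonal]
  simp only [Finset.prod_const, Finset.card_univ, Fintype.card_fin, Fintype.card_unit, pow_one]
  rw [← pow_succ']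

theorem vw_scale {ι : Type} (t : K) (D : Fin w → Derivation k K K) (b : ι → K) :
    vw D (fun j => t * b j) = sc t D * vw D b := by
  unfold vw sc
  rw [fromBlocks_mul_fromRows, Matrix.zero_mul, add_zero]
  congr 1
  · refine Matrix.ext fun i j => ?_
    rw [Matrix.diagonal_mul]
    rfl
  · refine Matrix.ext fun i j => ?_
    rw [Matrix.add_apply, Matrix.diagonal_mul, Matrix.mul_apply]
    simp only [Finset.univ_unique, Finset.sum_singleton, Matrix.of_apply]
    rw [(D i).leibniz]
    simp only [smul_eq_mul]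
    ring

theorem vw_coord {ι : Type} [Fintype ι] (D : Fin w → Derivation k K K) (b : ι → K)
    (Λ : Matrix ι ι k) :
    vw D b * (Λ.map (algebraMap k K))ᵀ = vw D fun j => lf (Λ j) b := by
  refine Matrix.ext fun i j => ?_
  rw [Matrix.mul_apply]
  rcases i with i | i
  · change ∑ l, b l * algebraMap k K (Λ j l) = ∑ l, algebraMap k K (Λ j l) * b l
    exact Finset.sum_congr rfl fun l _ => mul_comm _ _
  · change ∑ l, D i (b l) * algebraMap k K (Λ j l) = D i (lf (Λ j) b)
    rw [← lf_der]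
    exact Finset.sum_congr rfl fun l _ => mul_comm _ _

/-- the form -/
noncomputable def om {r : ℕ} (y : Mon B r → MvPolynomial ((Unit ⊕ Fin w) ⊕ B) k)
    (c : Matrix B ((Unit ⊕ Fin w) ⊕ B) K) (b : (Unit ⊕ Fin w) ⊕ B → K)
    (D : Fin w → Derivation k K K) : K :=
  Om (fun β => map (algebraMap k K) (y β)) (fromRows (vw D b) c)

variable [CharZero k] {r : ℕ} {y : Mon B r → MvPolynomial ((Unit ⊕ Fin w) ⊕ B) k}

theorem Om_T {A : Type} [Fintype A] [DecidableEq A] [CharZero K] (hr : 0 < r)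
    {y : Mon B r → MvPolynomial (A ⊕ B) K}
    (hy : ∀ β, (y β).IsHomogeneous r) (T : Matrix A A K) (v : Matrix A (A ⊕ B) K)
    (c : Matrix B (A ⊕ B) K) :
    Om y (fromRows (T * v) c) = T.det ^ gam (Fintype.card B) r * Om y (fromRows v c) := by
  have h := Om_block hr hy T 0 1 (by rw [det_one]; exact one_ne_zero) (fromRows v c)
  rw [fromBlocks_mul_fromRows, Matrix.zero_mul, Matrix.zero_mul, Matrix.one_mul, add_zero,
    zero_add] at h
  exact h

theorem charZeroK (k K : Type) [Field k] [Field K] [Algebra k K] [CharZero k] : CharZero K :=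
  charZero_of_injective_algebraMap (algebraMap k K).injective

theorem om_pluri (hr : 0 < r) (hy : ∀ β, (y β).IsHomogeneous r)
    (c : Matrix B ((Unit ⊕ Fin w) ⊕ B) K) (b : (Unit ⊕ Fin w) ⊕ B → K) :
    IsPluri (gam (Fintype.card B) r) (om y c b) := by
  have := charZeroK k K
  intro M D
  unfold om
  rw [vw_lin, Om_T hr (fun β => (hy β).map _), bm, det_fromBlocks_zero₁₂, det_one, one_mul]

theorem om_scale (hr : 0 < r) (hy : ∀ β, (y β).IsHomogeneous r)
    (c : Matrix B ((Unit ⊕ Fin w) ⊕ B) K) (b : (Unit ⊕ Fin w) ⊕ B → K) (t : K)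
    (D : Fin w → Derivation k K K) :
    om y c (fun j => t * b j) D = t ^ ((w + 1) * gam (Fintype.card B) r) * om y c b D := by
  have := charZeroK k K
  unfold om
  rw [vw_scale, Om_T hr (fun β => (hy β).map _), sc_det, ← pow_mul]

/-- Constant forms have constant coefficients. -/
theorem gep_map {ι : Type} (P : Place k K) (f : MvPolynomial ι k) :
    GeP P (map (algebraMap k K) f) := by
  intro m
  rw [coeff_map]
  exact Ge.const _

theorem lf_ge {ι : Type} [Fintype ι] (P : Place k K) (ℓ : ι → k) {b : ι → K} {c : ℤ}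
    (hb : ∀ j, Ge P c (b j)) : Ge P c (lf ℓ b) := by
  refine Ge.sum _ _ fun j _ => ?_
  have := (Ge.const (P := P) (ℓ j)).mul (hb j)
  rwa [zero_add] at this

theorem coord_ge {ι : Type} [Fintype ι] [DecidableEq ι] (P : Place k K) (Λ : Matrix ι ι k)
    (hΛ : Λ.det ≠ 0) {b : ι → K} {c : ℤ} (h : ∀ j, Ge P c (lf (Λ j) b)) (j : ι) :
    Ge P c (b j) := by
  have h1 : b j = ∑ i, algebraMap k K (Λ⁻¹ j i) * lf (Λ i) b := by
    have h2 : ∑ i, algebraMap k K (Λ⁻¹ j i) * lf (Λ i) b =
        ∑ l, (∑ i, algebraMap k K (Λ⁻¹ j i * Λ i l)) * b l := by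
      simp only [lf, Finset.mul_sum, Finset.sum_mul]
      rw [Finset.sum_comm]
      refine Finset.sum_congr rfl fun l _ => Finset.sum_congr rfl fun i _ => ?_
      rw [map_mul]
      ring
    rw [h2]
    have h3 : ∀ l, ∑ i, algebraMap k K (Λ⁻¹ j i * Λ i l) = if j = l then 1 else 0 := by
      intro l
      rw [← map_sum, ← Matrix.mul_apply, Matrix.nonsing_inv_mul Λ (isUnit_iff_ne_zero.mpr hΛ),
        Matrix.one_apply]
      split_ifs <;> simp
    simp only [h3, ite_mul, one_mul, zero_mul]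
    simp
  rw [h1]
  refine Ge.sum _ _ fun i _ => ?_
  have := (Ge.const (P := P) (Λ⁻¹ j i)).mul (h i)
  rwa [zero_add] at this

/-- general position -/
def GenPos {ι : Type} [Fintype ι] [DecidableEq ι] {q : ℕ} (ℓ : Fin q → ι → k) : Prop :=
  ∀ σ : ι → Fin q, Function.Injective σ → (Matrix.of fun j => ℓ (σ j)).det ≠ 0

/-- choice of the coordinates -/
theorem exists_sel {ι : Type} [Fintype ι] [DecidableEq ι] {q : ℕ} {ℓ : Fin q → ι → k}
    (hg : GenPos ℓ) (hq : Fintype.card ι ≤ q) (P : Place k K) {b : ι → K} {c : ℤ}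
    (hb : ∃ j, b j ≠ 0 ∧ P.ord (b j) = c) {e : Fin q → ℕ}
    (hl : ∀ i, Ge P (c + e i) (lf (ℓ i) b)) :
    ∃ σ : ι → Fin q, Function.Injective σ ∧ ∀ i, e i ≠ 0 → i ∈ Set.range σ := by
  classical
  set I : Finset (Fin q) := Finset.univ.filter fun i => e i ≠ 0 with hI
  have hsub : ∀ J : Finset (Fin q), J.card = Fintype.card ι →
      ∃ σ : ι → Fin q, Function.Injective σ ∧ ∀ i, i ∈ Set.range σ ↔ i ∈ J := by
    intro J hJ
    have h1 : Fintype.card ι = Fintype.card J := by rw [Fintype.card_coe, hJ]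
    let φ := Fintype.equivOfCardEq h1
    refine ⟨fun j => (φ j).1, fun j j' h => φ.injective (Subtype.ext h), fun i => ⟨?_, fun hi => ?_⟩⟩
    · rintro ⟨j, rfl⟩
      exact (φ j).2
    · exact ⟨φ.symm ⟨i, hi⟩, by simp⟩
  have hcard : I.card ≤ Fintype.card ι := by
    by_contra hcon
    push Not at hcon
    obtain ⟨J, hJI, hJ⟩ := Finset.exists_subset_card_eq hcon.le
    obtain ⟨σ, hσ, hσJ⟩ := hsub J hJ
    obtain ⟨j, hj, hjc⟩ := hb
    have h2 := coord_ge P (Matrix.of fun j => ℓ (σ j)) (hg σ hσ) (b := b) (c := c + 1)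
      (fun j => by
        have h3 : σ j ∈ I := hJI ((hσJ _).mp ⟨j, rfl⟩)
        rw [hI, Finset.mem_filter] at h3
        refine (hl (σ j)).mono ?_
        have : 1 ≤ e (σ j) := Nat.one_le_iff_ne_zero.mpr h3.2
        omega) j
    have h3 := h2.resolve_left hj
    omega
  obtain ⟨J, hIJ, -, hJ⟩ := Finset.exists_subsuperset_card_eq (Finset.subset_univ I) hcard
    (by rw [Finset.card_univ, Fintype.card_fin]; exact hq)
  obtain ⟨σ, hσ, hσJ⟩ := hsub J hJ
  exact ⟨σ, hσ, fun i hi => (hσJ i).mpr (hIJ (by rw [hI]; simpa using hi))⟩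

/-- The order of the form at a place. -/
theorem om_ge (hr : 0 < r) (hy : ∀ β, (y β).IsHomogeneous r) {q : ℕ}
    {ℓ : Fin q → (Unit ⊕ Fin w) ⊕ B → k} (hyl : ∀ β i, eval (ℓ i) (y β) = 0) (hg : GenPos ℓ)
    (hq : Fintype.card ((Unit ⊕ Fin w) ⊕ B) ≤ q)
    (cm : Matrix B ((Unit ⊕ Fin w) ⊕ B) K) (P : Place k K) {b : (Unit ⊕ Fin w) ⊕ B → K} {c : ℤ}
    (hb : ∃ j, b j ≠ 0 ∧ P.ord (b j) = c) {e a : Fin q → ℕ}
    (hl : ∀ i, Ge P (c + e i) (lf (ℓ i) b)) (D : Fin w → Derivation k K K)
    (hae : ∀ i, a i ≤ e i) (hD : ∀ (i : Fin q) (j : Fin w) (f : K), Ge P (e i) f →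
      Ge P (a i) (D j f)) :
    Ge P (c * ((w + 1) * gam (Fintype.card B) r : ℕ) + ∑ i, (a i : ℤ)) (om y cm b D) := by
  classical
  have := charZeroK k K
  obtain ⟨σ, hσ, hσe⟩ := exists_sel hg hq P hb hl
  obtain ⟨t, ht0, ht⟩ := P.surj
  have htc : t ^ c ≠ 0 := zpow_ne_zero _ ht0
  have htco : P.ord (t ^ c) = c := by rw [P.ord_zpow, ht, mul_one]
  obtain ⟨b', hb'⟩ : ∃ b' : (Unit ⊕ Fin w) ⊕ B → K, b' = fun j => b j / t ^ c := ⟨_, rfl⟩
  have hbb' : b = fun j => t ^ c * b' j := by
    rw [hb']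
    funext j
    exact (mul_div_cancel₀ _ htc).symm
  have hl' : ∀ i, Ge P (e i) (lf (ℓ i) b') := by
    intro i
    have h1 := hl i
    rw [hbb', lf_smul] at h1
    exact Ge.of_mul' htc htco (by rwa [add_comm] at h1)
  obtain ⟨Λ, hΛ⟩ : ∃ Λ : Matrix ((Unit ⊕ Fin w) ⊕ B) ((Unit ⊕ Fin w) ⊕ B) k,
    Λ = Matrix.of fun j => ℓ (σ j) := ⟨_, rfl⟩
  have hΛdet : Λ.det ≠ 0 := by rw [hΛ]; exact hg σ hσ
  obtain ⟨Λ', hΛ'⟩ : ∃ Λ' : Matrix ((Unit ⊕ Fin w) ⊕ B) ((Unit ⊕ Fin w) ⊕ B) K,
    Λ' = Λ.map (algebraMap k K) := ⟨_, rfl⟩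
  have hΛ'det : Λ'.det = algebraMap k K Λ.det := by
    rw [hΛ']
    exact (RingHom.map_det (algebraMap k K) Λ).symm
  have hΛ'ne : (Λ'ᵀ).det ≠ 0 := by
    rw [det_transpose, hΛ'det]
    simpa using hΛdet
  have hinv : (Λ'ᵀ)⁻¹ * Λ'ᵀ = 1 := Matrix.nonsing_inv_mul _ (isUnit_iff_ne_zero.mpr hΛ'ne)
  have hinv' : Λ'ᵀ * (Λ'ᵀ)⁻¹ = 1 := Matrix.mul_nonsing_inv _ (isUnit_iff_ne_zero.mpr hΛ'ne)
  have hidet : ((Λ'ᵀ)⁻¹).det ≠ 0 := by
    intro h0
    have h1 := congrArg Matrix.det hinv
    rw [det_mul, h0, zero_mul, det_one] at h1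
    exact zero_ne_one h1
  -- the form in the new coordinates
  have hom1 : om y cm b' D = ((Λ'ᵀ)⁻¹).det ^ gam (Fintype.card B) r *
      Om (fun β => sb Λ' (map (algebraMap k K) (y β)))
        (fromRows (vw D fun j => lf (ℓ (σ j)) b') (cm * Λ'ᵀ)) := by
    have h1 : fromRows (vw D b') cm = fromRows (vw D b' * Λ'ᵀ) (cm * Λ'ᵀ) * (Λ'ᵀ)⁻¹ := by
      rw [fromRows_mul, Matrix.mul_assoc, Matrix.mul_assoc, hinv', Matrix.mul_one, Matrix.mul_one]
    unfold om
    rw [h1, Om_right hr _ _ _ hidet, Matrix.nonsing_inv_nonsing_inv _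
      (isUnit_iff_ne_zero.mpr hΛ'ne), transpose_transpose]
    have h2 : vw D b' * Λ'ᵀ = vw D fun j => lf (ℓ (σ j)) b' := by
      rw [hΛ', vw_coord, hΛ]
      rfl
    rw [h2]
  have hgey : ∀ β, GeP P (sb Λ' (map (algebraMap k K) (y β))) := by
    intro β
    have h1 : sb Λ' (map (algebraMap k K) (y β)) = map (algebraMap k K) (sb Λ (y β)) := by
      have h2 : (sb Λ').toRingHom.comp
          (map (algebraMap k K)) = (map (algebraMap k K)).comp (sb Λ).toRingHom := by
        apply MvPolynomial.ringHom_ext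
        · intro x
          rw [RingHom.comp_apply, RingHom.comp_apply, map_C]
          change sb Λ' (C _) = MvPolynomial.map (algebraMap k K) (sb Λ (C x))
          rw [sb_C, sb_C, map_C]
        · intro i
          rw [RingHom.comp_apply, RingHom.comp_apply, map_X]
          change sb Λ' (X i) = MvPolynomial.map (algebraMap k K) (sb Λ (X i))
          rw [sb_X, sb_X, map_sum]
          refine Finset.sum_congr rfl fun j _ => ?_
          rw [map_mul, map_C, map_X, hΛ']
          rfl
      exact RingHom.congr_fun h2 (y β)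
    rw [h1]
    exact gep_map P _
  have hzero : ∀ β j, coeff (Finsupp.single j r) (sb Λ' (map (algebraMap k K) (y β))) = 0 := by
    intro β j
    have h1 : eval (Pi.single j 1) (sb Λ' (map (algebraMap k K) (y β))) =
        coeff (Finsupp.single j r) (sb Λ' (map (algebraMap k K) (y β))) := by
      rw [eval_eq', Finset.sum_eq_single (Finsupp.single j r)]
      · rw [Finset.prod_eq_one, mul_one]
        intro i _
        by_cases hi : i = j
        · subst hi
          rw [Pi.single_eq_same, one_pow]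
        · rw [Finsupp.single_eq_of_ne hi, pow_zero]
      · intro α hα hαj
        have h2 : α.degree = r := by
          by_contra h3
          exact (mem_support_iff.mp hα) ((sb_hom Λ' ((hy β).map _)).coeff_eq_zero h3)
        obtain ⟨i, hij, hi⟩ : ∃ i, i ≠ j ∧ α i ≠ 0 := by
          by_contra hcon
          push Not at hcon
          apply hαj
          ext i
          by_cases hi : i = j
          · subst hi
            rw [Finsupp.single_eq_same, ← h2, Finsupp.degree_eq_sum,
              Finset.sum_eq_single i (fun i' _ h => hcon i' h) (by simp)]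
          · rw [Finsupp.single_eq_of_ne hi]
            exact hcon i hi
        rw [Finset.prod_eq_zero (Finset.mem_univ i), mul_zero]
        rw [Pi.single_eq_of_ne hij, zero_pow hi]
      · intro h2
        rw [notMem_support_iff.mp h2, zero_mul]
    rw [← h1]
    have h2 : eval (Pi.single j 1) (sb Λ' (map (algebraMap k K) (y β))) =
        eval (fun i => algebraMap k K (ℓ (σ j) i)) (map (algebraMap k K) (y β)) := by
      have h3 : (eval (Pi.single j 1)).comp (sb Λ').toRingHom =
          eval fun i => algebraMap k K (ℓ (σ j) i) := by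
        apply MvPolynomial.ringHom_ext
        · intro x
          rw [RingHom.comp_apply]
          change eval _ (sb Λ' (C x)) = _
          rw [sb_C, eval_C, eval_C]
        · intro i
          rw [RingHom.comp_apply]
          change eval _ (sb Λ' (X i)) = _
          rw [sb_X, map_sum, Finset.sum_eq_single j]
          · rw [map_mul, eval_C, eval_X, eval_X, Pi.single_eq_same, mul_one, hΛ', hΛ]
            rfl
          · intro j' _ hj'
            rw [map_mul, eval_X, Pi.single_eq_of_ne hj', mul_zero]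
          · simp
      exact RingHom.congr_fun h3 _
    rw [h2, eval_mapK, hyl, map_zero]
  have hmain : Ge P (∑ j, (a (σ j) : ℤ)) (Om (fun β => sb Λ' (map (algebraMap k K) (y β)))
      (fromRows (vw D fun j => lf (ℓ (σ j)) b') (cm * Λ'ᵀ))) := by
    refine Om_ge P hr (fun β => sb_hom Λ' ((hy β).map _)) hgey (fun j => a (σ j))
      (fun β j _ => hzero β j) (fun i j => ?_) _
    rcases i with i | i
    · exact (hl' (σ j)).mono (by exact_mod_cast hae (σ j))
    · exact hD (σ j) i _ (hl' (σ j))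
  have hsum : ∑ j, (a (σ j) : ℤ) = ∑ i, (a i : ℤ) := by
    rw [← Finset.sum_image (s := Finset.univ) (g := σ) (f := fun i => (a i : ℤ))
      (fun x _ y _ h => hσ h)]
    refine Finset.sum_subset (Finset.subset_univ _) fun i _ hi => ?_
    have h1 : e i = 0 := by
      by_contra h0
      obtain ⟨j, hj⟩ := hσe i h0
      exact hi (Finset.mem_image.mpr ⟨j, Finset.mem_univ _, hj⟩)
    have h2 := hae i
    have h3 : a i = 0 := by omega
    rw [h3]
    rfl
  have h1 : om y cm b D = (t ^ c) ^ ((w + 1) * gam (Fintype.card B) r) * om y cm b' D := by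
    conv_lhs => rw [hbb']
    exact om_scale hr hy cm b' (t ^ c) D
  rw [h1, hom1]
  have h2 : Ge P (c * ((w + 1) * gam (Fintype.card B) r : ℕ))
      ((t ^ c) ^ ((w + 1) * gam (Fintype.card B) r)) := by
    right
    rw [P.ord_pow, htco, mul_comm]
  have h3 : Ge P 0 (((Λ'ᵀ)⁻¹).det ^ gam (Fintype.card B) r) := by
    right
    rw [P.ord_pow]
    have h4 : P.ord ((Λ'ᵀ)⁻¹).det = 0 := by
      have h5 := congrArg Matrix.det hinv
      rw [det_mul, det_one, det_transpose, hΛ'det] at h5
      have h6 := P.ord_const (c := Λ.det) hΛdet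
      have h7 := P.ord_mul hidet (g := algebraMap k K Λ.det) (by simpa using hΛdet)
      rw [h5, P.ord_one, h6] at h7
      linarith
    rw [h4, mul_zero]
  have h4 := h2.mul (h3.mul hmain)
  rwa [zero_add, hsum] at h4

end Pool.Agent.Y191
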