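import Pool.Agent.Y191.Final1
import Pool.Agent.Y191.Num

/-!
General arrangements with equal weights.
-/

set_option autoImplicit false

open MvPolynomial

namespace Pool.Agent.Y191

theorem general_nums {n q m Q : ℕ} (hn : 1 ≤ n) (hm : 2 ≤ m) (hQ : 2 * n * m ≤ Q * (m - 1))
    (hq : (n + Q).choose n < q) :
    ∃ Ψ : MvPolynomial (Fin q × Fin (n + 1)) ℂ, Ψ ≠ 0 ∧
      ∀ ℓ : Fin q → Fin (n + 1) → ℂ, eval (fun x => ℓ x.1 x.2) Ψ ≠ 0 →
      ∃ d : ℕ, n < d ∧ Independent d ℓ ∧ GeneralPosition ℓ ∧ n + 1 ≤ q ∧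
        ∀ p, 1 ≤ p → p ≤ n → (((p + 1) * gam (n - p) (d + 1) : ℕ) : ℚ) <
          ∑ _i : Fin q, (1 - 1 / (m : ℚ)) := by
  obtain ⟨s, hs⟩ : ∃ s : ℝ, s = 1 - 1 / m := ⟨_, rfl⟩
  have hm0 : (0 : ℝ) < m := by positivity
  have hm2 : (2 : ℝ) ≤ m := by exact_mod_cast hm
  have hs' : s * m = m - 1 := by
    rw [hs]
    field_simp
  have hs0 : 0 < s := by
    by_contra h
    push Not at h
    nlinarith
  have hs1 : s ≤ 1 := by
    rw [hs]
    have : (0 : ℝ) < 1 / m := by positivity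
    linarith
  have hQ' : (2 * n : ℝ) ≤ Q * s := by
    have h1 : ((2 * n * m : ℕ) : ℝ) ≤ ((Q * (m - 1) : ℕ) : ℝ) := by exact_mod_cast hQ
    rw [Nat.cast_mul Q, Nat.cast_sub (by omega), Nat.cast_one] at h1
    push_cast at h1
    have h2 : (2 * n : ℝ) * m ≤ (Q * s) * m := by
      calc (2 * n : ℝ) * m ≤ Q * (m - 1) := h1
        _ = (Q * s) * m := by rw [mul_assoc, hs']
    exact le_of_mul_le_mul_right h2 hm0
  obtain ⟨d, hd, Ψ, hΨ, hgen⟩ := general_arrangements (n := n) (q := q) hn hs0 hQ' hq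
  refine ⟨Ψ, hΨ, fun ℓ hℓ => ?_⟩
  obtain ⟨hI, hg⟩ := hgen ℓ hℓ
  have hqd := le_of_ind (κ := ℂ) (ℓ := ℓ) hI
  have hlt' : 2 * (n + d - 1).choose (n - 1) < q := by
    have : ((2 * (n + d - 1).choose (n - 1) : ℕ) : ℝ) < q := lt_of_lt_of_le hd (by nlinarith)
    exact_mod_cast this
  have hnd : n < d := deg_lt hn (hlt'.trans_le hqd)
  have hq' : n + 1 ≤ q := by
    have h1 : n.choose (n - 1) ≤ (n + d - 1).choose (n - 1) :=
      Nat.choose_le_choose (n - 1) (by omega)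
    have h2 : n.choose (n - 1) = n := by
      obtain ⟨m, rfl⟩ : ∃ m, n = m + 1 := ⟨n - 1, by omega⟩
      simp
    omega
  refine ⟨d, hnd, hI, hg, hq', fun p hp1 hpn => ?_⟩
  have hsum : ((∑ _i : Fin q, (1 - 1 / (m : ℚ)) : ℚ) : ℝ) = q * s := by
    rw [hs]
    push_cast
    simp
    ring
  have h1 := gam_le hnd.le p hp1 hpn
  have h2 : (((p + 1) * gam (n - p) (d + 1) : ℕ) : ℝ) <
      ((∑ _i : Fin q, (1 - 1 / (m : ℚ)) : ℚ) : ℝ) := by
    rw [hsum]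
    exact lt_of_le_of_lt (by exact_mod_cast h1) hd
  exact_mod_cast h2

end Pool.Agent.Y191
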