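import Pool.Agent.Y191.SmallFib
import Pool.Agent.Y191.GenNum

/-!
General hyperplanes: small multiplicities and forms along the fibres.
-/

set_option autoImplicit false

open MvPolynomial Matrix FF Pool.Agent.W603.LV Pool.Agent.W602.GT Pool.Agent.TH585.SV

namespace Pool.Agent.Y191

/-- the multiplicity condition for equal weights -/
theorem mult_cond {q m γ : ℕ} (hm : 2 ≤ m) {δ : ℝ} (hδ : 0 ≤ δ) {e : Fin q → ℕ}
    (he : ∀ i, e i = 0 ∨ m * (1 - δ) ≤ e i) :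
    ((min (Finset.univ.filter fun i => e i ≠ 0).card γ : ℕ) : ℝ) ≤
      γ * δ + ∑ i, (1 - (((1 - 1 / (m : ℚ)) : ℚ) : ℝ)) * e i := by
  have hm0 : (0 : ℝ) < m := by positivity
  have hw : ∀ i, (1 - (((1 - 1 / (m : ℚ)) : ℚ) : ℝ)) * (e i : ℝ) = (1 / m : ℝ) * e i := by
    intro i
    push_cast
    ring
  simp only [hw]
  have hsum : ((Finset.univ.filter fun i => e i ≠ 0).card : ℝ) * (1 - δ) ≤
      ∑ i, (1 / m : ℝ) * e i := by
    rw [Finset.card_filter]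
    push_cast
    rw [Finset.sum_mul]
    refine Finset.sum_le_sum fun i _ => ?_
    by_cases h0 : e i = 0
    · rw [h0]
      simp
    · rw [if_pos h0, one_mul]
      have h1 := (he i).resolve_left h0
      rw [one_div, inv_mul_eq_div, le_div_iff₀ hm0]
      linarith
  have hnn : 0 ≤ ∑ i, (1 / m : ℝ) * (e i : ℝ) := Finset.sum_nonneg fun i _ => by positivity
  have hγ0 : (0 : ℝ) ≤ γ := by positivity
  rcases le_or_gt δ 1 with h1 | h1
  · rcases le_total γ (Finset.univ.filter fun i => e i ≠ 0).card with h2 | h2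
    · rw [min_eq_right h2]
      have h3 : (γ : ℝ) ≤ (Finset.univ.filter fun i => e i ≠ 0).card := by exact_mod_cast h2
      have h4 := mul_le_mul_of_nonneg_right h3 (sub_nonneg.mpr h1)
      linarith
    · rw [min_eq_left h2]
      have h3 : ((Finset.univ.filter fun i => e i ≠ 0).card : ℝ) ≤ γ := by exact_mod_cast h2
      have h4 := mul_le_mul_of_nonneg_right h3 hδ
      linarith
  · have h3 : ((min (Finset.univ.filter fun i => e i ≠ 0).card γ : ℕ) : ℝ) ≤ γ := by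
      exact_mod_cast min_le_right _ _
    nlinarith

theorem general_fib {n q m Q : ℕ} (hn : 1 ≤ n) (hm : 2 ≤ m) (hQ : 2 * n * m ≤ Q * (m - 1))
    (hq : (n + Q).choose n < q) :
    ∃ Ψ : MvPolynomial (Fin q × Fin (n + 1)) ℂ, Ψ ≠ 0 ∧
      ∀ ℓ : Fin q → Fin (n + 1) → ℂ, eval (fun x => ℓ x.1 x.2) Ψ ≠ 0 →
      ∀ (K : Type) [Field K] [Algebra ℂ K] (p s lam : ℕ), 1 ≤ p →
      Algebra.trdeg ℂ K = (p + s : ℕ) →
      ∀ b : Fin (n + 1) → K, (∀ i, lf (ℓ i) b ≠ 0) → (∃ j, b j ≠ 0) →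
      Algebra.trdeg ℂ (RF ℂ b) = p →
      ∀ (X : Set (Place ℂ K)) (δ₁ δ₂ δ : Place ℂ K → ℝ), (∀ P ∈ X, 0 ≤ δ₁ P) →
      (∀ P ∈ X, δ₁ P + δ₂ P ≤ δ P) →
      (∀ P ∈ X, Divisorial (p + s) P → ∀ (c : ℤ) (e : Fin q → ℕ), OrdData P ℓ b c e →
        ∀ i, e i = 0 ∨ m * (1 - δ₁ P) ≤ e i) →
      ∀ M : ℕ, 0 < M → ∀ θ : Fin (lam + 1) → (Fin s → Derivation (RF ℂ b) K K) → K,
      (∀ j, FibSec (p + s) M X δ₂ (RF ℂ b) (θ j)) →
      (∃ G, θ 0 G ≠ 0 ∧
        AlgebraicIndependent (RF ℂ b) (fun i : Fin lam => θ i.succ G / θ 0 G)) →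
      KodairaGe (p + s) X δ (p + lam) := by
  obtain ⟨Ψ, hΨ, h⟩ := general_nums (n := n) (q := q) hn hm hQ hq
  refine ⟨Ψ, hΨ, fun ℓ hℓ K _ _ p s lam hp1 hK b hl hb htr X δ₁ δ₂ δ hδ₁ hδ hmult M hM θ hθ
    hne => ?_⟩
  obtain ⟨d, hnd, hI, hg, hq', hlt⟩ := h ℓ hℓ
  have hpn : p ≤ n := by
    obtain ⟨_, _, _, _, h, _⟩ := base_fin (k := ℂ) (by omega) hI (genPos_of hg) hq' hl hb htr
    exact h
  refine (small_fib (by omega) hI hg hq' hl hb htr hK (wt := fun _ => 1 - 1 / (m : ℚ))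
    (fun _ => ?_) (hlt p hp1 hpn).le hδ (fun P hP hPd c e ho =>
      mult_cond hm (hδ₁ P hP) (hmult P hP hPd c e ho)) hM hθ hne).2 (hlt p hp1 hpn)
  have : (1 : ℚ) / m ≤ 1 := by
    rw [div_le_one (by positivity)]
    exact_mod_cast (by omega : 1 ≤ m)
  linarith

end Pool.Agent.Y191
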