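import Pool.Agent.Y191.Push2
import Pool.Agent.Y191.MovCan
import Pool.Agent.Y172.Cov5

/-!
The pull back of pluricanonical forms to a finite extension, and the orders of the pull backs of the
sections on a variety with canonical singularities.
-/

set_option autoImplicit false
set_option linter.overlappingInstances false
set_option linter.unusedSectionVars false

open FF MvPolynomial Pool.Agent.W602.GT Pool.Agent.W603.LV Pool.Agent.W619.PQ
open Pool.Agent.Y172

namespace Pool.Agent.Y191

section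

variable {K : Type} (K' : Type) [Field K] [Field K'] [Algebra ℂ K] [Algebra ℂ K'] [Algebra K K']
  [IsScalarTower ℂ K K'] {n : ℕ}

/-- the pull back of a pluricanonical form to an extension of the field, by means of coordinates
`x` with dual derivations `E` -/
noncomputable def pull (x : Fin n → K) (E : Fin n → Derivation ℂ K K) (m : ℕ)
    (ω : (Fin n → Derivation ℂ K K) → K) (D : Fin n → Derivation ℂ K' K') : K' :=
  (Matrix.of fun i j => D i (algebraMap K K' (x j))).det ^ m * algebraMap K K' (ω E)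

variable {K'}

theorem pull_pluri (x : Fin n → K) (E : Fin n → Derivation ℂ K K) (m : ℕ)
    (ω : (Fin n → Derivation ℂ K K) → K) : IsPluri m (pull K' x E m ω) := by
  intro A D
  have e1 : (Matrix.of fun a b => (∑ j, A a j • D j) (algebraMap K K' (x b))) =
      A * Matrix.of fun a b => D a (algebraMap K K' (x b)) := by
    ext a b
    rw [Matrix.of_apply, Matrix.mul_apply, sum_smul_apply]
    rfl
  change (Matrix.of fun a b => (∑ j, A a j • D j) (algebraMap K K' (x b))).det ^ m *
    algebraMap K K' (ω E) = _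
  rw [e1, Matrix.det_mul, mul_pow, mul_assoc]
  rfl

variable [FiniteDimensional K K']

/-- the pull back does not depend on the coordinates -/
theorem pull_change (hn : Algebra.trdeg ℂ K = n) {x x2 : Fin n → K}
    {E E2 : Fin n → Derivation ℂ K K} (hx : IsTranscendenceBasis ℂ x)
    (hE : ∀ i j, E i (x j) = if i = j then 1 else 0) (hx2 : IsTranscendenceBasis ℂ x2)
    (hE2 : ∀ i j, E2 i (x2 j) = if i = j then 1 else 0) {m : ℕ}
    {ω : (Fin n → Derivation ℂ K K) → K} (hω : IsPluri m ω) (D : Fin n → Derivation ℂ K' K') :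
    pull K' x E m ω D = pull K' x2 E2 m ω D := by
  choose E2' hE2' using fun i => exists_lift (L := K') hn (E2 i)
  have h1 := pluri_coord (hx2.algebraMap_comp (A := K')) (lift_dual hE2 hE2')
    (pull_pluri (K' := K') x E m ω) D
  rw [h1]
  have h2 : pull K' x E m ω E2' = algebraMap K K' (ω E2) := by
    rw [pluri_coord hx hE hω E2, map_mul, map_pow, RingHom.map_det]
    unfold pull
    congr 3
    ext i j
    rw [Matrix.of_apply, RingHom.mapMatrix_apply, Matrix.map_apply, Matrix.of_apply]
    exact hE2' i (x j)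
  rw [h2]
  rfl

/-- the order of the pull back -/
theorem pull_ord [Algebra.EssFiniteType ℂ K] (hn : Algebra.trdeg ℂ K = n) {x : Fin n → K}
    {E : Fin n → Derivation ℂ K K} (hx : IsTranscendenceBasis ℂ x)
    (hE : ∀ i j, E i (x j) = if i = j then 1 else 0) {Q : Place ℂ K'} {P : Place ℂ K} {ε : ℕ}
    (h : Over Q P ε) (hP : Divisorial n P) {m : ℕ} {ω : (Fin n → Derivation ℂ K K) → K}
    (hω : IsPluri m ω) {c : ℤ} (hc : OrdGe P ω c) {D : Fin n → Derivation ℂ K' K'}
    (hD : ∀ i, DerReg Q (D i)) : Ge Q (m * (ε - 1) + ε * c) (pull K' x E m ω D) := by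
  obtain ⟨xP, EP, i0, hl⟩ := exists_loc hn hP
  rw [pull_change hn hx hE hl.bas hl.dual hω D]
  refine pull_reg h hl hD ?_
  refine (hc EP fun i => hl.pres i).imp_right fun h1 => ?_
  exact_mod_cast h1

theorem pull_ne (hn : Algebra.trdeg ℂ K = n) {x : Fin n → K} {E : Fin n → Derivation ℂ K K}
    (hE : ∀ i j, E i (x j) = if i = j then 1 else 0) {D : Fin n → Derivation ℂ K' K'}
    (hD : IsFrame D) : (Matrix.of fun i j => D i (algebraMap K K' (x j))).det ≠ 0 := by
  choose E' hE' using fun i => exists_lift (L := K') hn (E i)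
  choose a ha using fun i => hD (E' i)
  have h1 : Matrix.of a * (Matrix.of fun i j => D i (algebraMap K K' (x j))) = 1 := by
    ext i j
    rw [Matrix.mul_apply, Matrix.one_apply]
    have h2 := lift_dual hE hE' i j
    rw [ha i, sum_smul_apply] at h2
    exact h2
  intro h0
  have h2 := congrArg Matrix.det h1
  rw [Matrix.det_mul, h0, mul_zero, Matrix.det_one] at h2
  exact zero_ne_one h2

variable {N : ℕ} {y : Fin (N + 1) → K} {A : Place ℂ K → ℚ} {σ : Type} [Fintype σ]
  [DecidableEq σ] {F : IntermediateField ℂ K'} {U : σ → K'}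

/-- the orders of the pull backs of the sections at the divisorial places -/
theorem geo_data (hy : NormalModel y) (hn : Algebra.trdeg ℂ K = n) (hcan : Canonical y n)
    (hA : Effective y A) (hU : IsTranscendenceBasis F U) {x : Fin n → K}
    {E : Fin n → Derivation ℂ K K} (hx : IsTranscendenceBasis ℂ x)
    (hE : ∀ i j, E i (x j) = if i = j then 1 else 0) (hfr : IsFrame E) :
    ∃ h0 : MvPolynomial σ F, h0 ≠ 0 ∧ ∃ B0 : Place ℂ K' → ℕ,
      ∀ Q : Place ℂ K', Divisorial n Q → ∀ m : ℕ, 1 ≤ m → ∀ ω, IsSection y n m A ω →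
        OrdGe Q (pull K' x E m ω) (-(B0 Q : ℤ)) ∧
        ((∀ R : MvPolynomial σ F, Q.Reg (aeval U R)) →
          OrdGe Q (pull K' x E m ω) (-(Q.ord (aeval U h0) : ℤ))) := by
  classical
  have hess := hy.ess
  choose s hs hs0 hb using fun j => can_bound (n := n) hy hcan hA hfr j
  obtain ⟨h0, hh0, hdom⟩ := dom_poly hU (Finset.univ.image fun j => algebraMap K K' (s j))
  refine ⟨h0, hh0, fun Q => ∑ j, (Q.ord (algebraMap K K' (s j))).natAbs,
    fun Q hQ m hm ω hω => ?_⟩
  have hov := over_bel K Q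
  have hPd : Divisorial n (bel K Q) := divisorial_down hov hQ
  obtain ⟨j, hj⟩ := exists_centred hy (bel K Q)
  have h1 := hb j (bel K Q) hPd hj m hm ω hω
  have hkey : OrdGe Q (pull K' x E m ω) (-(Q.ord (algebraMap K K' (s j)) : ℤ)) := by
    intro D hD
    have h2 := pull_ord hn hx hE hov hPd hω.1 (c := -((bel K Q).ord (s j))) (by
      intro E' hE'
      refine (h1 E' hE').imp_right fun h => le_trans (le_of_eq ?_) h
      push_cast
      rfl) hD
    rcases h2 with h2 | h2
    · exact Or.inl h2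
    · right
      have h3 : (1 : ℤ) ≤ ram K Q := by exact_mod_cast hov.1
      have h4 : (0 : ℤ) ≤ m := Int.natCast_nonneg _
      have h5 : -(Q.ord (algebraMap K K' (s j))) ≤ Q.ord (pull K' x E m ω D) := by
        rw [hov.2]
        nlinarith
      exact_mod_cast h5
  constructor
  · intro D hD
    refine (hkey D hD).imp_right fun h2 => le_trans ?_ h2
    have h3 : (Q.ord (algebraMap K K' (s j))).natAbs ≤
        ∑ j, (Q.ord (algebraMap K K' (s j))).natAbs :=
      Finset.single_le_sum (f := fun j => (Q.ord (algebraMap K K' (s j))).natAbs)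
        (fun _ _ => Nat.zero_le _) (Finset.mem_univ j)
    have h4 : Q.ord (algebraMap K K' (s j)) ≤
        ((∑ j, (Q.ord (algebraMap K K' (s j))).natAbs : ℕ) : ℤ) := by omega
    have h5 : (Q.ord (algebraMap K K' (s j)) : ℚ) ≤
        (((∑ j, (Q.ord (algebraMap K K' (s j))).natAbs : ℕ) : ℤ) : ℚ) := by
      exact_mod_cast h4
    push_cast at h5 ⊢
    linarith
  · intro hreg D hD
    refine (hkey D hD).imp_right fun h2 => le_trans ?_ h2
    have h3 := hdom Q hreg (algebraMap K K' (s j))
      (Finset.mem_image_of_mem _ (Finset.mem_univ j)) (by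
        rw [Ne, map_eq_zero]
        exact hs0 j)
    have h5 : (Q.ord (algebraMap K K' (s j)) : ℚ) ≤ (Q.ord (aeval U h0) : ℚ) := by
      exact_mod_cast h3
    push_cast
    linarith

/-- the pull backs have linear bounds -/
theorem geo_lin (hy : NormalModel y) {Δ : Place ℂ K → ℚ} (hΔ : Effective y Δ)
    (hA : Effective y A) (x : Fin n → K) (E : Fin n → Derivation ℂ K K)
    (D : Fin n → Derivation ℂ K' K') (Q : Place ℂ K') :
    ∃ C : ℕ, ∀ m : ℕ, 1 ≤ m → ∀ ω, IsSection y n m (m • Δ + A) ω →
      Ge Q (-((C * m : ℕ) : ℤ)) (pull K' x E m ω D) := by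
  obtain ⟨C1, hC1⟩ := sec_all (n := n) hy hΔ hA E (bel K Q)
  obtain ⟨d, hd⟩ : ∃ d, d = (Matrix.of fun i j => D i (algebraMap K K' (x j))).det := ⟨_, rfl⟩
  refine ⟨(Q.ord d).natAbs + ram K Q * C1, fun m hm ω hω => ?_⟩
  have h1 := (over_ge (over_bel K Q)).2 (hC1 m hm ω hω)
  have h2 := ((ge_ord Q d).pow m).mul h1
  unfold pull
  rw [← hd]
  refine h2.mono ?_
  obtain ⟨c, hc⟩ : ∃ c : ℕ, c = (Q.ord d).natAbs := ⟨_, rfl⟩
  rw [← hc]
  push_cast
  have h3 : -(c : ℤ) ≤ Q.ord d := by omega
  have h4 : (0 : ℤ) ≤ m := Int.natCast_nonneg _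
  nlinarith

/-- the pull backs are regular outside finitely many poles -/
theorem geo_fin (hy : NormalModel y) {Δ : Place ℂ K → ℚ} (hΔ : Effective y Δ)
    (hA : Effective y A) (x : Fin n → K) (E : Fin n → Derivation ℂ K K)
    (D : Fin n → Derivation ℂ K' K') :
    ∃ S : Finset K', ∀ Q : Place ℂ K', (∀ s ∈ S, Q.Reg s) → ∀ m : ℕ, 1 ≤ m → ∀ ω,
      IsSection y n m (m • Δ + A) ω → Q.Reg (pull K' x E m ω D) := by
  classical
  obtain ⟨S, hS⟩ := sec_fin (n := n) hy hΔ hA E
  refine ⟨insert (Matrix.of fun i j => D i (algebraMap K K' (x j))).det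
    (S.image (algebraMap K K')), fun Q hQ m hm ω hω => ?_⟩
  have h1 : Q.Reg (algebraMap K K' (ω E)) := (over_bel K Q).reg.2 (hS (bel K Q) (fun s hs =>
    (over_bel K Q).reg.1 (hQ _ (Finset.mem_insert_of_mem (Finset.mem_image_of_mem _ hs)))) m hm
      ω hω)
  have h2 : Ge Q 0 ((Matrix.of fun i j => D i (algebraMap K K' (x j))).det ^ m) := by
    have h3 := Ge.pow (P := Q) (N := 0) (hQ _ (Finset.mem_insert_self _ _)) m
    rwa [mul_zero] at h3
  exact Q.reg_mul h2 h1

end

end Pool.Agent.Y191
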