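import Pool.Agent.Y191.CanC
import Pool.Agent.TH585.SV.Hyp

/-!
Ramification: extensions generated by a root of a polynomial whose derivative is a unit are
unramified, and the ramification index in extensions generated by radicals.
-/

set_option autoImplicit false
set_option linter.overlappingInstances false
set_option linter.unusedSectionVars false

open FF Polynomial Pool.Agent.W603.LV Pool.Agent.TH585.SV

namespace Pool.Agent.Y191

section

variable {k K : Type} [Field k] [Field K] [Algebra k K] {P : Place k K}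

theorem ge_one_or {z : K} (h : Ge P 0 z) (h1 : ¬ Ge P 1 z) : z ≠ 0 ∧ P.ord z = 0 := by
  have h0 : z ≠ 0 := fun h0 => h1 (Or.inl h0)
  refine ⟨h0, ?_⟩
  have h2 := h.resolve_left h0
  by_contra hcon
  exact h1 (Or.inr (by omega))

theorem not_ge_one {z : K} (h0 : z ≠ 0) (h : P.ord z = 0) : ¬ Ge P 1 z := by
  rintro (h1 | h1)
  · exact h0 h1
  · omega

variable {R : Subring K} {π y : K}

theorem aeval_ge {n : ℤ} (hy : Ge P 0 y) {A : R[X]}
    (h : ∀ i, Ge P n (A.coeff i : K)) : Ge P n (aeval y A) := by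
  rw [aeval_eq_sum_range]
  refine Ge.sum _ _ fun i _ => ?_
  rw [Algebra.smul_def]
  have h1 := (h i).mul (hy.pow i)
  rw [mul_zero, add_zero] at h1
  exact h1

/-- **Unramified extensions**, the local ring. -/
theorem unr_core (hR : ∀ a ∈ R, Ge P 0 a) (hinv : ∀ a ∈ R, a ≠ 0 → P.ord a = 0 → a⁻¹ ∈ R)
    (hπ : π ∈ R) (hdiv : ∀ a ∈ R, Ge P 1 a → ∃ s ∈ R, a = π * s) (hπ1 : Ge P 1 π)
    (hy : Ge P 0 y) {H : R[X]} (hH : H.Monic) (hH0 : aeval y H = 0)
    (hH' : ¬ Ge P 1 (aeval y (derivative H))) :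
    ∃ q : R[X], aeval y q ≠ 0 ∧ P.ord (aeval y q) = 0 ∧ ∀ A : R[X], Ge P 1 (aeval y A) →
      ∃ C : R[X], aeval y A * aeval y q = π * aeval y C := by
  classical
  have hreg : ∀ A : R[X], Ge P 0 (aeval y A) := fun A =>
    aeval_ge hy fun i => hR _ (A.coeff i).2
  have hex : ∃ n : ℕ, ∃ g : R[X], g.Monic ∧ g.natDegree = n ∧ Ge P 1 (aeval y g) :=
    ⟨H.natDegree, H, hH, rfl, Or.inl hH0⟩
  obtain ⟨g, hg, hgn, hg1⟩ := Nat.find_spec hex
  have hmin : ∀ B : R[X], B.Monic → Ge P 1 (aeval y B) → g.natDegree ≤ B.natDegree := by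
    intro B hB hB1
    rw [hgn]
    exact Nat.find_min' hex ⟨B, hB, rfl, hB1⟩
  have hlow : ∀ (s : ℕ) (B : R[X]), B.support.card = s → B.natDegree < g.natDegree →
      Ge P 1 (aeval y B) → ∀ i, Ge P 1 (B.coeff i : K) := by
    intro s
    induction s using Nat.strong_induction_on with
    | _ s ih =>
      intro B hBs hBd hB1 i
      by_cases hB0 : B = 0
      · left
        rw [hB0]
        rfl
      by_cases hlead : Ge P 1 (B.leadingCoeff : K)
      · have h1 : aeval y B.eraseLead = aeval y B - aeval y (monomial B.natDegree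
            B.leadingCoeff) := by
          conv_rhs => rw [← eraseLead_add_monomial_natDegree_leadingCoeff B]
          rw [map_add]
          have h2 : (monomial B.natDegree B.leadingCoeff : R[X]) =
              monomial (B.eraseLead + monomial B.natDegree B.leadingCoeff).natDegree
                (B.eraseLead + monomial B.natDegree B.leadingCoeff).leadingCoeff := by
            rw [eraseLead_add_monomial_natDegree_leadingCoeff]
          rw [← h2]
          ring
        have h2 : Ge P 1 (aeval y (monomial B.natDegree B.leadingCoeff)) := by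
          rw [aeval_monomial]
          have h3 := hlead.mul (hy.pow B.natDegree)
          rw [mul_zero, add_zero] at h3
          exact h3
        have h3 : Ge P 1 (aeval y B.eraseLead) := by
          rw [h1, sub_eq_add_neg]
          exact hB1.add h2.neg
        have h4 := ih _ (hBs ▸ eraseLead_support_card_lt hB0) B.eraseLead rfl
          (lt_of_le_of_lt (eraseLead_natDegree_le_aux) hBd) h3 i
        by_cases hi : i = B.natDegree
        · rw [hi]
          exact hlead
        · rwa [eraseLead_coeff_of_ne i hi] at h4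
      · exfalso
        obtain ⟨h1, h2⟩ := ge_one_or (hR _ B.leadingCoeff.2) hlead
        let c : R := ⟨(B.leadingCoeff : K)⁻¹, hinv _ B.leadingCoeff.2 h1 h2⟩
        have hc : c * B.leadingCoeff = 1 := Subtype.ext (inv_mul_cancel₀ h1)
        have hm : (C c * B).Monic := by
          refine monic_C_mul_of_mul_leadingCoeff_eq_one hc
        have h3 : Ge P 1 (aeval y (C c * B)) := by
          rw [map_mul, aeval_C]
          have h4 := (hR _ c.2).mul hB1
          rw [zero_add] at h4
          exact h4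
        have h4 := hmin _ hm h3
        have h5 : (C c * B).natDegree ≤ B.natDegree := natDegree_C_mul_le c B
        omega
  have hcπ : ∀ B : R[X], (∀ i, Ge P 1 (B.coeff i : K)) →
      ∃ B' : R[X], B = C (⟨π, hπ⟩ : R) * B' := by
    intro B hB
    have h1 : C (⟨π, hπ⟩ : R) ∣ B := by
      rw [C_dvd_iff_dvd_coeff]
      intro i
      obtain ⟨s, hs, h2⟩ := hdiv _ (B.coeff i).2 (hB i)
      exact ⟨⟨s, hs⟩, Subtype.ext h2⟩
    exact h1
  have hdm : ∀ A : R[X], Ge P 1 (aeval y A) → ∃ B' : R[X],
      aeval y A = aeval y g * aeval y (A /ₘ g) + π * aeval y B' ∧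
        A = g * (A /ₘ g) + C (⟨π, hπ⟩ : R) * B' := by
    intro A hA
    have h1 := modByMonic_add_div A g
    have h2 : Ge P 1 (aeval y (A %ₘ g)) := by
      have h3 : aeval y (A %ₘ g) = aeval y A - aeval y g * aeval y (A /ₘ g) := by
        conv_rhs => rw [← h1]
        rw [map_add, map_mul, h1]
        ring
      rw [h3, sub_eq_add_neg]
      refine hA.add (Ge.neg ?_)
      have h4 := hg1.mul (hreg (A /ₘ g))
      rwa [add_zero] at h4
    have hg0 : 0 < g.natDegree := by
      by_contra hcon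
      have h3 : g = 1 := by
        rw [← hg.natDegree_eq_zero]
        omega
      rw [h3, map_one] at hg1
      exact not_ge_one one_ne_zero P.ord_one hg1
    have h3 : (A %ₘ g).natDegree < g.natDegree :=
      natDegree_modByMonic_lt A hg fun h => by
        rw [h, natDegree_one] at hg0
        omega
    obtain ⟨B', hB'⟩ := hcπ _ (hlow _ _ rfl h3 h2)
    refine ⟨B', ?_, ?_⟩
    · conv_lhs => rw [← h1, hB']
      rw [map_add, map_mul, map_mul, aeval_C]
      rw [add_comm]
      rfl
    · conv_lhs => rw [← h1, hB']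
      rw [add_comm]
  obtain ⟨h, hh1, hh2⟩ := hdm H (Or.inl hH0)
  refine ⟨H /ₘ g, ?_⟩
  have hq : ¬ Ge P 1 (aeval y (H /ₘ g)) := by
    intro hq
    apply hH'
    rw [hh2, derivative_add, derivative_mul, derivative_C_mul, map_add, map_add, map_mul, map_mul,
      map_mul, aeval_C]
    refine ((?_ : Ge P 1 _).add ?_).add ?_
    · have h1 := (hreg (derivative g)).mul hq
      rwa [zero_add] at h1
    · have h1 := hg1.mul (hreg (derivative (H /ₘ g)))
      rwa [add_zero] at h1
    · have h1 := hπ1.mul (hreg (derivative h))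
      rw [add_zero] at h1
      exact h1
  obtain ⟨hq0, hqo⟩ := ge_one_or (hreg _) hq
  refine ⟨hq0, hqo, fun A hA => ?_⟩
  obtain ⟨B', hB', -⟩ := hdm A hA
  refine ⟨B' * (H /ₘ g) - h * (A /ₘ g), ?_⟩
  rw [hH0] at hh1
  rw [map_sub, map_mul, map_mul, hB']
  linear_combination (-aeval y (A /ₘ g)) * hh1

/-- the orders of the polynomials in `y` -/
theorem unr_dvd (hR : ∀ a ∈ R, Ge P 0 a) (hinv : ∀ a ∈ R, a ≠ 0 → P.ord a = 0 → a⁻¹ ∈ R)
    (hπ : π ∈ R) (hdiv : ∀ a ∈ R, Ge P 1 a → ∃ s ∈ R, a = π * s) (hπ0 : π ≠ 0)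
    (hπ1 : 1 ≤ P.ord π) (hy : Ge P 0 y) {H : R[X]} (hH : H.Monic) (hH0 : aeval y H = 0)
    (hH' : ¬ Ge P 1 (aeval y (derivative H))) (A : R[X]) (hA : aeval y A ≠ 0) :
    P.ord π ∣ P.ord (aeval y A) := by
  obtain ⟨q, hq0, hqo, hq⟩ := unr_core hR hinv hπ hdiv (Or.inr hπ1) hy hH hH0 hH'
  have hreg : ∀ A : R[X], Ge P 0 (aeval y A) := fun A =>
    aeval_ge hy fun i => hR _ (A.coeff i).2
  have key : ∀ (n : ℕ) (A : R[X]), aeval y A ≠ 0 → P.ord (aeval y A) = n →
      P.ord π ∣ P.ord (aeval y A) := by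
    intro n
    induction n using Nat.strong_induction_on with
    | _ n ih =>
      intro A hA hn
      rcases Nat.eq_zero_or_pos n with rfl | hpos
      · rw [hn]
        exact dvd_zero _
      · obtain ⟨C, hC⟩ := hq A (Or.inr (by omega))
        have hC0 : aeval y C ≠ 0 := by
          intro h0
          rw [h0, mul_zero] at hC
          exact mul_ne_zero hA hq0 hC
        have h1 := congrArg P.ord hC
        rw [P.ord_mul hA hq0, P.ord_mul hπ0 hC0, hqo, add_zero] at h1
        have h2 := (hreg C).resolve_left hC0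
        have h3 := ih (P.ord (aeval y C)).toNat (by omega) C hC0 (by omega)
        rw [h1]
        exact dvd_add dvd_rfl h3
  have h0 := (hreg A).resolve_left hA
  exact key (P.ord (aeval y A)).toNat A hA (by omega)

/-- the local ring -/
theorem unr_str (hR : ∀ a ∈ R, Ge P 0 a) (hinv : ∀ a ∈ R, a ≠ 0 → P.ord a = 0 → a⁻¹ ∈ R)
    (hπ : π ∈ R) (hdiv : ∀ a ∈ R, Ge P 1 a → ∃ s ∈ R, a = π * s) (hπ0 : π ≠ 0)
    (hπ1 : 1 ≤ P.ord π) (hy : Ge P 0 y) {H : R[X]} (hH : H.Monic) (hH0 : aeval y H = 0)
    (hH' : ¬ Ge P 1 (aeval y (derivative H))) : ∃ q : R[X], aeval y q ≠ 0 ∧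
      P.ord (aeval y q) = 0 ∧ ∀ (n : ℕ) (A : R[X]), Ge P (n * P.ord π) (aeval y A) →
        ∃ C : R[X], aeval y A * aeval y q ^ n = π ^ n * aeval y C := by
  obtain ⟨q, hq0, hqo, hq⟩ := unr_core hR hinv hπ hdiv (Or.inr hπ1) hy hH hH0 hH'
  refine ⟨q, hq0, hqo, fun n => ?_⟩
  induction n with
  | zero => exact fun A _ => ⟨A, by rw [pow_zero, pow_zero, mul_one, one_mul]⟩
  | succ n ih =>
    intro A hA
    have h1 : Ge P 1 (aeval y A) := by
      refine hA.mono ?_
      push_cast
      nlinarith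
    obtain ⟨C, hC⟩ := hq A h1
    have h2 : Ge P (n * P.ord π) (aeval y C) := by
      by_cases hC0 : aeval y C = 0
      · exact Or.inl hC0
      right
      have hA0 : aeval y A ≠ 0 := by
        intro h0
        rw [h0, zero_mul] at hC
        exact mul_ne_zero hπ0 hC0 hC.symm
      have h3 := congrArg P.ord hC
      rw [P.ord_mul hA0 hq0, P.ord_mul hπ0 hC0, hqo, add_zero] at h3
      have h4 := hA.resolve_left hA0
      push_cast at h4
      linarith
    obtain ⟨C', hC'⟩ := ih C h2
    refine ⟨C', ?_⟩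
    rw [pow_succ, ← mul_assoc, mul_right_comm, hC, mul_assoc, mul_comm (aeval y C) _]
    rw [mul_comm (aeval y q ^ n) (aeval y C), hC', pow_succ]
    ring

/-- sums of elements with distinct orders -/
theorem ord_sum_dist {ι : Type} [DecidableEq ι] (s : Finset ι) (f : ι → K)
    (hf : ∀ i ∈ s, f i ≠ 0) (hd : ∀ i ∈ s, ∀ j ∈ s, i ≠ j → P.ord (f i) ≠ P.ord (f j))
    (hs : s.Nonempty) : ∑ i ∈ s, f i ≠ 0 ∧ ∃ i ∈ s, P.ord (∑ i ∈ s, f i) = P.ord (f i) := by
  induction s using Finset.induction_on with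
  | empty => exact absurd hs Finset.not_nonempty_empty
  | insert a s ha ih =>
    rcases s.eq_empty_or_nonempty with rfl | hs'
    · rw [Finset.sum_insert ha, Finset.sum_empty, add_zero]
      exact ⟨hf a (Finset.mem_insert_self _ _), a, Finset.mem_insert_self _ _, rfl⟩
    · obtain ⟨h1, i, hi, h2⟩ := ih (fun i hi => hf i (Finset.mem_insert_of_mem hi))
        (fun i hi j hj => hd i (Finset.mem_insert_of_mem hi) j (Finset.mem_insert_of_mem hj)) hs'
      have ha0 := hf a (Finset.mem_insert_self _ _)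
      rw [Finset.sum_insert ha]
      have hne : P.ord (f a) ≠ P.ord (f i) := hd a (Finset.mem_insert_self _ _) i
        (Finset.mem_insert_of_mem hi) (fun h => ha (h ▸ hi))
      rcases lt_or_gt_of_ne hne with h3 | h3
      · have h4 := P.ord_add_eq ha0 h1 (by rw [h2]; exact h3)
        exact ⟨h4.1, a, Finset.mem_insert_self _ _, h4.2⟩
      · have h4 := P.ord_add_eq h1 ha0 (by rw [h2]; exact h3)
        rw [add_comm]
        exact ⟨h4.1, i, Finset.mem_insert_of_mem hi, h4.2.trans h2⟩

end

end Pool.Agent.Y191
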