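import Pool.Agent.Y191.Kum

/-!
The value groups of the fields generated by radicals.
-/

set_option autoImplicit false
set_option linter.overlappingInstances false
set_option linter.unusedSectionVars false

open FF Polynomial Pool.Agent.W603.LV Pool.Agent.TH585.SV

namespace Pool.Agent.Y191

section

variable {K : Type} [Field K] [Algebra ℂ K] {P : Place ℂ K}

/-- `t` divides the orders of the elements of `E` -/
def VG (P : Place ℂ K) (t : ℤ) (E : IntermediateField ℂ K) : Prop := ∀ a ∈ E, a ≠ 0 → t ∣ P.ord a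

/-- the regular elements of `E` -/
def rE (P : Place ℂ K) (E : IntermediateField ℂ K) : Subring K := E.toSubring ⊓ vring P

variable {E : IntermediateField ℂ K} {t : ℤ} {π : K}

theorem rE_reg : ∀ a ∈ rE P E, Ge P 0 a := fun _ ha => ha.2

theorem rE_inv : ∀ a ∈ rE P E, a ≠ 0 → P.ord a = 0 → a⁻¹ ∈ rE P E := fun a ha _ h1 =>
  ⟨E.inv_mem ha.1, Or.inr (by rw [P.ord_inv, h1, neg_zero])⟩

theorem rE_div (ht : 0 < t) (hE : VG P t E) (hπ : π ∈ E) (hπt : P.ord π = t) :
    ∀ a ∈ rE P E, Ge P 1 a → ∃ s ∈ rE P E, a = π * s := by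
  have hπ0 : π ≠ 0 := by
    rintro rfl
    rw [P.ord_zero] at hπt
    omega
  rintro a ⟨ha, -⟩ h1
  refine ⟨a / π, ⟨E.div_mem ha hπ, ?_⟩, by field_simp⟩
  by_cases ha0 : a = 0
  · left
    rw [ha0, zero_div]
  right
  have h2 := h1.resolve_left ha0
  have h3 := Int.le_of_dvd (by omega) (hE a ha ha0)
  rw [P.ord_div ha0 hπ0, hπt]
  omega

theorem mem_adjoin_poly {y : K} (hy : IsIntegral E y) {f : K}
    (hf : f ∈ IntermediateField.adjoin E {y}) : ∃ p : Polynomial E, aeval y p = f := by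
  have h1 : f ∈ (IntermediateField.adjoin E {y}).toSubalgebra := hf
  rw [IntermediateField.adjoin_simple_toSubalgebra_of_isAlgebraic hy.isAlgebraic,
    Algebra.adjoin_singleton_eq_range_aeval] at h1
  exact h1

/-- **Unramified radicals.** -/
theorem VG.adjoin (ht : 0 < t) (hE : VG P t E) (hπ : π ∈ E) (hπt : P.ord π = t) {y u : K}
    {m : ℕ} (hm : 0 < m) (hu : u ∈ E) (hu0 : u ≠ 0) (huo : P.ord u = 0) (hy : y ^ m = u) :
    VG P t ((IntermediateField.adjoin E {y}).restrictScalars ℂ) := by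
  classical
  have hy0 : y ≠ 0 := by
    rintro rfl
    rw [zero_pow hm.ne'] at hy
    exact hu0 hy.symm
  have hyo : P.ord y = 0 := by
    have h1 := congrArg P.ord hy
    rw [P.ord_pow, huo] at h1
    rcases mul_eq_zero.1 h1 with h2 | h2
    · exact absurd h2 (by exact_mod_cast hm.ne')
    · exact h2
  have hπ0 : π ≠ 0 := by
    rintro rfl
    rw [P.ord_zero] at hπt
    omega
  have hint : IsIntegral E y := by
    refine IsIntegral.of_pow hm ?_
    rw [hy]
    exact isIntegral_algebraMap (x := (⟨u, hu⟩ : E))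
  have hmem : u ∈ rE P E := ⟨hu, Or.inr huo.ge⟩
  have hπR : π ∈ rE P E := ⟨hπ, Or.inr (by omega)⟩
  let H : (rE P E)[X] := X ^ m - C ⟨u, hmem⟩
  have hH : H.Monic := monic_X_pow_sub_C _ hm.ne'
  have hH0 : aeval y H = 0 := by
    change aeval y (X ^ m - C (⟨u, hmem⟩ : rE P E)) = 0
    rw [map_sub, map_pow, aeval_X, aeval_C, hy]
    exact sub_self _
  have hchar : CharZero K := charZero_of_injective_algebraMap (algebraMap ℂ K).injective
  have hH' : ¬ Ge P 1 (aeval y (derivative H)) := by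
    have h1 : aeval y (derivative H) = (m : K) * y ^ (m - 1) := by
      change aeval y (derivative (X ^ m - C (⟨u, hmem⟩ : rE P E))) = _
      rw [derivative_sub, derivative_C, sub_zero, derivative_X_pow, map_mul, map_pow, aeval_X]
      simp
    rw [h1]
    have h2 : (m : K) ≠ 0 := by exact_mod_cast hm.ne'
    refine not_ge_one (mul_ne_zero h2 (pow_ne_zero _ hy0)) ?_
    have h3 : P.ord (m : K) = 0 := by
      have h4 := P.ord_const (c := (m : ℂ)) (by exact_mod_cast hm.ne')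
      rwa [map_natCast] at h4
    rw [P.ord_mul h2 (pow_ne_zero _ hy0), h3, P.ord_pow, hyo]
    ring
  intro f hf hf0
  obtain ⟨p, hp⟩ := mem_adjoin_poly hint hf
  obtain ⟨N, hN⟩ : ∃ N : ℕ, ∀ i ∈ Finset.range (p.natDegree + 1),
      π ^ N * (p.coeff i : K) ∈ rE P E := by
    refine ⟨∑ i ∈ Finset.range (p.natDegree + 1), (P.ord (p.coeff i : K)).natAbs,
      fun i hi => ⟨E.mul_mem (pow_mem hπ _) (p.coeff i).2, ?_⟩⟩
    by_cases h0 : (p.coeff i : K) = 0
    · left
      rw [h0, mul_zero]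
    right
    rw [P.ord_mul (pow_ne_zero _ hπ0) h0, P.ord_pow, hπt]
    have h1 := Finset.single_le_sum (f := fun i => (P.ord (p.coeff i : K)).natAbs)
      (fun _ _ => Nat.zero_le _) hi
    change (P.ord (p.coeff i : K)).natAbs ≤ _ at h1
    have h2 : -(P.ord (p.coeff i : K)) ≤
        ((∑ i ∈ Finset.range (p.natDegree + 1), (P.ord (p.coeff i : K)).natAbs : ℕ) : ℤ) := by
      omega
    have h3 : (((∑ i ∈ Finset.range (p.natDegree + 1), (P.ord (p.coeff i : K)).natAbs : ℕ)) : ℤ) ≤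
        ((∑ i ∈ Finset.range (p.natDegree + 1), (P.ord (p.coeff i : K)).natAbs : ℕ) : ℤ) * t := by
      have h4 : (0 : ℤ) ≤
        ((∑ i ∈ Finset.range (p.natDegree + 1), (P.ord (p.coeff i : K)).natAbs : ℕ) : ℤ) :=
        Int.natCast_nonneg _
      nlinarith
    linarith
  let A : (rE P E)[X] := ∑ i : {i // i ∈ Finset.range (p.natDegree + 1)},
    C (⟨π ^ N * (p.coeff i.1 : K), hN i.1 i.2⟩ : rE P E) * X ^ (i.1)
  have hA : aeval y A = π ^ N * f := by
    change aeval y (∑ i : {i // i ∈ Finset.range (p.natDegree + 1)},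
      C (⟨π ^ N * (p.coeff i.1 : K), hN i.1 i.2⟩ : rE P E) * X ^ (i.1)) = _
    rw [map_sum, ← hp, aeval_eq_sum_range, Finset.mul_sum,
      ← Finset.sum_coe_sort (Finset.range (p.natDegree + 1))]
    refine Finset.sum_congr rfl fun i _ => ?_
    rw [map_mul, map_pow, aeval_X, aeval_C, Algebra.smul_def, ← mul_assoc]
    rfl
  have hA0 : aeval y A ≠ 0 := by
    rw [hA]
    exact mul_ne_zero (pow_ne_zero _ hπ0) hf0
  have h1 := unr_dvd rE_reg rE_inv hπR (rE_div ht hE hπ hπt) hπ0 (by omega) (Or.inr hyo.ge) hH hH0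
    hH' A hA0
  rw [hA, P.ord_mul (pow_ne_zero _ hπ0) hf0, P.ord_pow, hπt] at h1
  exact (dvd_add_right (dvd_mul_left t N)).1 h1

/-- **Radicals**: a bound for the ramification index. -/
theorem VG.radical (ht : 0 < t) (hE : VG P t E) (hπ : π ∈ E) (hπt : P.ord π = t) {y u : K}
    {m : ℕ} (hm : 0 < m) (hu : u ∈ E) (hu0 : u ≠ 0) {a : ℤ} (huo : P.ord u = a * t)
    (hy : y ^ m = u) {f : K} (hf : f ∈ IntermediateField.adjoin E {y}) (hf0 : f ≠ 0) :
    t ∣ ((m / m.gcd a.natAbs : ℕ) : ℤ) * P.ord f := by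
  classical
  have hπ0 : π ≠ 0 := by
    rintro rfl
    rw [P.ord_zero] at hπt
    omega
  have hy0 : y ≠ 0 := by
    rintro rfl
    rw [zero_pow hm.ne'] at hy
    exact hu0 hy.symm
  obtain ⟨d, hd⟩ : ∃ d, d = m.gcd a.natAbs := ⟨_, rfl⟩
  have hd0 : 0 < d := hd ▸ Nat.gcd_pos_of_pos_left _ hm
  obtain ⟨M, hM⟩ : d ∣ m := hd ▸ Nat.gcd_dvd_left _ _
  obtain ⟨a', ha'⟩ : (d : ℤ) ∣ a := by
    rw [hd]
    exact Int.natCast_dvd.2 (Nat.gcd_dvd_right _ _)
  have hMd : m / m.gcd a.natAbs = M := by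
    rw [← hd, hM, Nat.mul_div_cancel_left _ hd0]
  have hM0 : 0 < M := Nat.pos_of_ne_zero (by rintro rfl; omega)
  have hcop : IsCoprime (M : ℤ) a' := by
    rw [Int.isCoprime_iff_gcd_eq_one]
    have h1 : m.gcd a.natAbs = d * M.gcd a'.natAbs := by
      rw [hM, ha', Int.natAbs_mul, Int.natAbs_natCast, Nat.gcd_mul_left]
    rw [← hd] at h1
    have h2 : d * 1 = d * M.gcd a'.natAbs := by rw [mul_one]; exact h1
    have h3 := Nat.eq_of_mul_eq_mul_left hd0 h2
    rw [Int.gcd, Int.natAbs_natCast]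
    exact h3.symm
  rw [hMd]
  obtain ⟨u1, hu1⟩ : ∃ u1, u1 = y ^ M / π ^ a' := ⟨_, rfl⟩
  have hπa : π ^ a' ≠ 0 := zpow_ne_zero _ hπ0
  have hu1d : u1 ^ d = u / π ^ a := by
    rw [hu1, div_pow, ← pow_mul, mul_comm M d, ← hM, hy, ha', ← zpow_natCast, ← zpow_mul,
      mul_comm a' (d : ℤ)]
  have hE2 : VG P t ((IntermediateField.adjoin E {u1}).restrictScalars ℂ) := by
    refine hE.adjoin ht hπ hπt hd0 (E.div_mem hu (zpow_mem hπ a))
      (div_ne_zero hu0 (zpow_ne_zero _ hπ0)) ?_ hu1d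
    rw [P.ord_div hu0 (zpow_ne_zero _ hπ0), P.ord_zpow, hπt, huo, sub_self]
  obtain ⟨E2, hE2e⟩ : ∃ E2 : IntermediateField ℂ K,
    E2 = (IntermediateField.adjoin E {u1}).restrictScalars ℂ := ⟨_, rfl⟩
  rw [← hE2e] at hE2
  have hEE2 : E ≤ E2 := by
    rw [hE2e]
    intro x hx
    exact (IntermediateField.adjoin E {u1}).algebraMap_mem ⟨x, hx⟩
  have hu1E : u1 ∈ E2 := by
    rw [hE2e]
    exact IntermediateField.mem_adjoin_simple_self E u1
  have hyM : y ^ M ∈ E2 := by
    have h1 : y ^ M = u1 * π ^ a' := by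
      rw [hu1, div_mul_cancel₀ _ hπa]
    rw [h1]
    exact E2.mul_mem hu1E (zpow_mem (hEE2 hπ) _)
  have hintE : IsIntegral E y := by
    refine IsIntegral.of_pow hm ?_
    rw [hy]
    exact isIntegral_algebraMap (x := (⟨u, hu⟩ : E))
  obtain ⟨p, hp⟩ : ∃ p : Polynomial E2, aeval y p = f := by
    obtain ⟨p, hp⟩ := mem_adjoin_poly hintE hf
    refine ⟨p.map (IntermediateField.inclusion hEE2 : E →+* E2), ?_⟩
    rw [← hp, aeval_def, eval₂_map, aeval_def]
    rfl
  let g : Polynomial E2 := X ^ M - C ⟨y ^ M, hyM⟩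
  have hg : g.Monic := monic_X_pow_sub_C _ hM0.ne'
  have hgd : g.natDegree = M := natDegree_X_pow_sub_C
  have hg0 : aeval y g = 0 := by
    change aeval y (X ^ M - C (⟨y ^ M, hyM⟩ : E2)) = 0
    rw [map_sub, map_pow, aeval_X, aeval_C]
    exact sub_self _
  have hr : aeval y (p %ₘ g) = f := by
    have h1 := modByMonic_add_div p g
    rw [← hp]
    conv_rhs => rw [← h1]
    rw [map_add, map_mul, hg0, zero_mul, add_zero]
  have hrd : (p %ₘ g).natDegree < M := by
    have h1 : g ≠ 1 := by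
      intro h
      rw [h, natDegree_one] at hgd
      omega
    have := natDegree_modByMonic_lt p hg h1
    rwa [hgd] at this
  have hMy : (M : ℤ) * P.ord y = a' * t := by
    have h1 := congrArg P.ord hy
    rw [P.ord_pow, huo, ha', hM] at h1
    have h2 : (d : ℤ) * ((M : ℤ) * P.ord y) = d * (a' * t) := by
      push_cast at h1
      linarith
    exact mul_left_cancel₀ (by exact_mod_cast hd0.ne') h2
  let s : Finset ℕ := (Finset.range M).filter fun i => ((p %ₘ g).coeff i : K) ≠ 0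
  have hsum : ∑ i ∈ s, ((p %ₘ g).coeff i : K) * y ^ i = f := by
    rw [← hr, aeval_eq_sum_range' hrd, Finset.sum_filter]
    refine Finset.sum_congr rfl fun i _ => ?_
    split_ifs with h0
    · rw [Algebra.smul_def]
      rfl
    · push Not at h0
      rw [Algebra.smul_def]
      change 0 = ((p %ₘ g).coeff i : K) * y ^ i
      rw [h0, zero_mul]
  have hs : s.Nonempty := by
    rw [Finset.nonempty_iff_ne_empty]
    intro h0
    rw [h0, Finset.sum_empty] at hsum
    exact hf0 hsum.symm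
  have hne : ∀ i ∈ s, ((p %ₘ g).coeff i : K) * y ^ i ≠ 0 := fun i hi =>
    mul_ne_zero (Finset.mem_filter.1 hi).2 (pow_ne_zero _ hy0)
  have hval : ∀ i ∈ s, ∃ α : ℤ, (M : ℤ) * P.ord (((p %ₘ g).coeff i : K) * y ^ i) =
      t * (M * α + i * a') := by
    intro i hi
    have h0 := (Finset.mem_filter.1 hi).2
    obtain ⟨α, hα⟩ := hE2 _ ((p %ₘ g).coeff i).2 h0
    refine ⟨α, ?_⟩
    rw [P.ord_mul h0 (pow_ne_zero _ hy0), P.ord_pow, hα]
    linear_combination (i : ℤ) * hMy
  obtain ⟨h1, i, hi, h2⟩ := ord_sum_dist (P := P) s (fun i => ((p %ₘ g).coeff i : K) * y ^ i) hne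
    (by
      intro i hi j hj hij heq
      obtain ⟨α, hα⟩ := hval i hi
      obtain ⟨β, hβ⟩ := hval j hj
      rw [heq] at hα
      have h3 : t * (M * α + i * a') = t * (M * β + j * a') := hα.symm.trans hβ
      have h4 := mul_left_cancel₀ ht.ne' h3
      have h5 : (M : ℤ) ∣ (i - j) * a' := ⟨β - α, by linarith⟩
      have h6 : (M : ℤ) ∣ (i : ℤ) - j := hcop.dvd_of_dvd_mul_right h5
      have h7 := Finset.mem_range.1 (Finset.mem_filter.1 hi).1
      have h8 := Finset.mem_range.1 (Finset.mem_filter.1 hj).1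
      have h9 : (i : ℤ) - j = 0 := by
        refine Int.eq_zero_of_abs_lt_dvd h6 ?_
        rw [abs_lt]
        constructor <;> omega
      exact hij (by omega)) hs
  rw [hsum] at h2
  obtain ⟨α, hα⟩ := hval i hi
  rw [h2, hα]
  exact dvd_mul_right _ _

end

end Pool.Agent.Y191
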