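import Pool.Agent.Y191.Kum2

/-!
The ramification index in towers of radicals over a relative affine space.
-/

set_option autoImplicit false
set_option linter.overlappingInstances false
set_option linter.unusedSectionVars false

open FF Pool.Agent.W603.LV Pool.Agent.TH585.SV

namespace Pool.Agent.Y191

section

variable {K : Type} [Field K] [Algebra ℂ K] {P : Place ℂ K} {E0 : IntermediateField ℂ K} {t : ℤ}
variable {e : ℕ} {y u : Fin e → K} {m : Fin e → ℕ}

theorem VG.mono {E E' : IntermediateField ℂ K} (h : E ≤ E') (h' : VG P t E') : VG P t E :=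
  fun a ha => h' a (h ha)

/-- the field generated by `E0` and the `y i`, `i ∈ S` -/
noncomputable def ET (E0 : IntermediateField ℂ K) (y : Fin e → K) (S : Set (Fin e)) :
    IntermediateField ℂ K :=
  IntermediateField.adjoin ℂ ((E0 : Set K) ∪ y '' S)

theorem le_ET (S : Set (Fin e)) : E0 ≤ ET E0 y S := fun x hx =>
  IntermediateField.subset_adjoin ℂ ((E0 : Set K) ∪ y '' S) (Or.inl hx)

theorem ET_insert (S : Set (Fin e)) (i : Fin e) : ET E0 y (insert i S) ≤
    (IntermediateField.adjoin (ET E0 y S) {y i}).restrictScalars ℂ := by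
  refine IntermediateField.adjoin_le_iff.2 ?_
  have h1 : ∀ z ∈ ET E0 y S, z ∈ (IntermediateField.adjoin (ET E0 y S) {y i}).restrictScalars ℂ :=
    fun z hz => (IntermediateField.adjoin (ET E0 y S) {y i}).algebraMap_mem ⟨z, hz⟩
  rintro z (hz | ⟨l, hl, rfl⟩)
  · exact h1 z (le_ET S hz)
  · rcases Set.mem_insert_iff.1 hl with rfl | hl
    · exact IntermediateField.mem_adjoin_simple_self (ET E0 y S) (y l)
    · exact h1 _ (IntermediateField.subset_adjoin ℂ _ (Or.inr ⟨l, hl, rfl⟩))

/-- unramified radicals -/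
theorem tower_vg (ht : 0 < t) (hE : VG P t E0) {π : K} (hπ : π ∈ E0) (hπt : P.ord π = t)
    (hm : ∀ i, 0 < m i) (hu : ∀ i, u i ∈ E0) (hu0 : ∀ i, u i ≠ 0) (hy : ∀ i, y i ^ m i = u i)
    (S : Finset (Fin e)) (hS : ∀ i ∈ S, P.ord (u i) = 0) : VG P t (ET E0 y S) := by
  classical
  induction S using Finset.induction_on with
  | empty =>
    refine hE.mono ?_
    unfold ET
    rw [Finset.coe_empty, Set.image_empty, Set.union_empty]
    exact IntermediateField.adjoin_le_iff.2 fun z hz => hz
  | insert i S _ ih =>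
    have h1 := ih fun l hl => hS l (Finset.mem_insert_of_mem hl)
    have h2 := h1.adjoin ht (le_ET (y := y) (S : Set (Fin e)) hπ) hπt (hm i)
      (le_ET (y := y) (S : Set (Fin e)) (hu i)) (hu0 i) (hS i (Finset.mem_insert_self _ _)) (hy i)
    rw [Finset.coe_insert]
    exact h2.mono (ET_insert _ _)

/-- no ramification -/
theorem tower_one (ht : 0 < t) (hE : VG P t E0) {π : K} (hπ : π ∈ E0) (hπt : P.ord π = t)
    (hm : ∀ i, 0 < m i) (hu : ∀ i, u i ∈ E0) (hu0 : ∀ i, u i ≠ 0) (hy : ∀ i, y i ^ m i = u i)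
    (htop : ET E0 y Set.univ = ⊤) (h : ∀ i, P.ord (u i) = 0) : t = 1 := by
  have h1 := tower_vg ht hE hπ hπt hm hu hu0 hy Finset.univ fun i _ => h i
  rw [Finset.coe_univ, htop] at h1
  obtain ⟨f, hf0, hf⟩ := P.surj
  have h2 := h1 f (IntermediateField.mem_top) hf0
  rw [hf] at h2
  exact Int.eq_one_of_dvd_one ht.le h2

/-- the ramification index divides `m j / gcd (m j) a` -/
theorem tower_dvd (ht : 0 < t) (hE : VG P t E0) {π : K} (hπ : π ∈ E0) (hπt : P.ord π = t)
    (hm : ∀ i, 0 < m i) (hu : ∀ i, u i ∈ E0) (hu0 : ∀ i, u i ≠ 0) (hy : ∀ i, y i ^ m i = u i)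
    (htop : ET E0 y Set.univ = ⊤) (j : Fin e) {a : ℤ} (hj : P.ord (u j) = a * t)
    (h : ∀ i, i ≠ j → P.ord (u i) = 0) : t ∣ ((m j / (m j).gcd a.natAbs : ℕ) : ℤ) := by
  classical
  have h1 := tower_vg ht hE hπ hπt hm hu hu0 hy (Finset.univ.erase j)
    fun i hi => h i (Finset.ne_of_mem_erase hi)
  obtain ⟨f, hf0, hf⟩ := P.surj
  have h2 : f ∈ IntermediateField.adjoin (ET E0 y ((Finset.univ.erase j : Finset (Fin e)) :
      Set (Fin e))) {y j} := by
    have h3 := ET_insert (E0 := E0) (y := y) ((Finset.univ.erase j : Finset (Fin e)) :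
      Set (Fin e)) j
    rw [← Finset.coe_insert, Finset.insert_erase (Finset.mem_univ j), Finset.coe_univ, htop] at h3
    exact h3 IntermediateField.mem_top
  have h3 := h1.radical ht (le_ET _ hπ) hπt (hm j) (le_ET _ (hu j)) (hu0 j) hj (hy j) h2 hf0
  rw [hf, mul_one] at h3
  exact h3

end

section

open MvPolynomial

variable {K : Type} [Field K] [Algebra ℂ K] {P : Place ℂ K} {F : IntermediateField ℂ K}
variable {σ : Type} [Fintype σ] [DecidableEq σ] {U : σ → K}

/-- the value group of the rational functions at a place over a prime divisor -/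
theorem adic_vg {g : MvPolynomial σ F} (hg : Irreducible g) (hP : AdicF P U g) :
    VG P (P.ord (aeval U g)) (IntermediateField.adjoin ℂ ((F : Set K) ∪ Set.range U)) := by
  have h1 : IntermediateField.adjoin ℂ ((F : Set K) ∪ Set.range U) ≤
      (IntermediateField.adjoin F (Set.range U)).restrictScalars ℂ := by
    refine IntermediateField.adjoin_le_iff.2 ?_
    rintro z (hz | hz)
    · exact (IntermediateField.adjoin F (Set.range U)).algebraMap_mem ⟨z, hz⟩
    · exact IntermediateField.subset_adjoin F _ hz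
  have h2 : ∀ Q : MvPolynomial σ F, P.ord (aeval U g) ∣ P.ord (aeval U Q) := by
    intro Q
    by_cases hQ : Q = 0
    · rw [hQ, map_zero, P.ord_zero]
      exact dvd_zero _
    obtain ⟨n, R, hR, hQR⟩ := WfDvdMonoid.max_power_factor hQ hg
    have hR0 : R ≠ 0 := by
      rintro rfl
      exact hR (dvd_zero _)
    have h3 : P.ord (aeval U R) = 0 := (hP R hR0).2.2 hR
    by_cases h4 : aeval U g = 0
    · rw [hQR, map_mul, map_pow, h4]
      rcases Nat.eq_zero_or_pos n with rfl | hn
      · rw [pow_zero, one_mul, h3]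
        exact dvd_zero _
      · rw [zero_pow hn.ne', zero_mul, P.ord_zero]
    by_cases h5 : aeval U R = 0
    · rw [hQR, map_mul, h5, mul_zero, P.ord_zero]
      exact dvd_zero _
    rw [hQR, map_mul, map_pow, P.ord_mul (pow_ne_zero _ h4) h5, P.ord_pow, h3, add_zero]
    exact dvd_mul_left _ _
  intro f hf hf0
  have h3 : f ∈ IntermediateField.adjoin F (Set.range U) := h1 hf
  rw [IntermediateField.mem_adjoin_range_iff] at h3
  obtain ⟨Q, R, hQR⟩ := h3
  have hQ : aeval U Q ≠ 0 := by
    intro h0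
    rw [h0, zero_div] at hQR
    exact hf0 hQR
  have hR : aeval U R ≠ 0 := by
    intro h0
    rw [h0, div_zero] at hQR
    exact hf0 hQR
  rw [hQR, P.ord_div hQ hR]
  exact dvd_sub (h2 Q) (h2 R)

end

end Pool.Agent.Y191
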