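import Pool.Agent.TH486.LAC.Horn

/-!
Decomposition of weight vectors into bases (the Rado-Horn theorem for families of vectors).
-/

set_option autoImplicit false

namespace Pool.Agent.Y191

open Finset Module

section

variable {F V E : Type} [Field F] [AddCommGroup V] [Module F V] [FiniteDimensional F V] [Fintype E]

theorem fr_prod (A : Set (V × (E → F))) :
    finrank F ↥(LinearMap.ker (LinearMap.fst F V (E → F)) ⊔ Submodule.span F A) =
      finrank F ↥(LinearMap.ker (LinearMap.fst F V (E → F))) +
        finrank F ↥(Submodule.span F (Prod.fst '' A)) := by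
  obtain ⟨W, hW⟩ : ∃ W, W = LinearMap.ker (LinearMap.fst F V (E → F)) ⊔ Submodule.span F A :=
    ⟨_, rfl⟩
  have hle : LinearMap.ker (LinearMap.fst F V (E → F)) ≤ W := by
    rw [hW]
    exact le_sup_left
  rw [← hW]
  have h1 := LinearMap.finrank_range_add_finrank_ker ((LinearMap.fst F V (E → F)).domRestrict W)
  have h2 : LinearMap.range ((LinearMap.fst F V (E → F)).domRestrict W) =
      Submodule.span F (Prod.fst '' A) := by
    rw [LinearMap.range_domRestrict, hW, Submodule.map_sup, Submodule.map_span]
    have h3 : Submodule.map (LinearMap.fst F V (E → F))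
        (LinearMap.ker (LinearMap.fst F V (E → F))) = ⊥ := by
      rw [Submodule.eq_bot_iff]
      rintro _ ⟨x, hx, rfl⟩
      exact hx
    rw [h3, bot_sup_eq]
    rfl
  have h4 : finrank F ↥(LinearMap.ker ((LinearMap.fst F V (E → F)).domRestrict W)) =
      finrank F ↥(LinearMap.ker (LinearMap.fst F V (E → F))) := by
    rw [LinearMap.ker_domRestrict]
    exact LinearEquiv.finrank_eq (Submodule.comapSubtypeEquivOfLe hle)
  rw [h2, h4] at h1
  omega

/-- **The Rado-Horn theorem** for a family of vectors. -/
theorem rado_fam (a : E → V) {M : ℕ} (hM : 0 < M)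
    (h : ∀ S : Finset E, S.card ≤ M * finrank F ↥(Submodule.span F (a '' (S : Set E)))) :
    ∃ c : E → Fin M, ∀ t, (univ.filter fun e => c e = t).card ≤
      finrank F ↥(Submodule.span F (a '' ((univ.filter fun e => c e = t : Finset E) : Set E))) := by
  classical
  have : Nonempty (Fin M) := ⟨⟨0, hM⟩⟩
  obtain ⟨b, hb⟩ : ∃ b : E → V × (E → F), ∀ e, b e = (a e, Pi.single e 1) := ⟨_, fun _ => rfl⟩
  have hinj : Function.Injective b := by
    intro e e' hee
    rw [hb, hb] at hee
    have h1 := congrFun (congrArg Prod.snd hee) e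
    by_contra hne
    simp only [Pi.single_eq_same, Pi.single_eq_of_ne hne] at h1
    exact one_ne_zero h1
  have hfst : ∀ S : Set E, Prod.fst '' (b '' S) = a '' S := by
    intro S
    rw [Set.image_image]
    exact Set.image_congr fun e _ => by rw [hb]
  obtain ⟨c, hc⟩ := Pool.Agent.TH486.LAC.rado_horn (K := F) (κ := Fin M) _ (univ.image b)
    (fun _ => LinearMap.ker (LinearMap.fst F V (E → F))) rfl (by
      intro A hA
      obtain ⟨S, hS⟩ : ∃ S, S = univ.filter fun e => b e ∈ A := ⟨_, rfl⟩
      have h1 : A = S.image b := by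
        ext x
        rw [mem_image]
        constructor
        · intro hx
          obtain ⟨e, -, he⟩ := mem_image.1 (hA hx)
          exact ⟨e, by rw [hS, mem_filter]; exact ⟨mem_univ _, by rw [he]; exact hx⟩, he⟩
        · rintro ⟨e, he, rfl⟩
          rw [hS, mem_filter] at he
          exact he.2
      rw [h1, coe_image, card_image_of_injective _ hinj]
      simp only [fr_prod, sum_const, card_univ, Fintype.card_fin, smul_eq_mul]
      have h2 := h S
      rw [hfst]
      rw [mul_add]
      omega)
  refine ⟨fun e => c (b e), fun t => ?_⟩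
  change (univ.filter fun e => c (b e) = t).card ≤ finrank F ↥(Submodule.span F
    (a '' ((univ.filter fun e => c (b e) = t : Finset E) : Set E)))
  have h1 := hc t
  have h2 : (univ.image b).filter (fun x => c x = t) =
      (univ.filter fun e => c (b e) = t).image b := by
    ext x
    simp only [mem_filter, mem_image, mem_univ, true_and]
    constructor
    · rintro ⟨⟨e, rfl⟩, he⟩
      exact ⟨e, he, rfl⟩
    · rintro ⟨e, he, rfl⟩
      exact ⟨⟨e, rfl⟩, he⟩
  rw [h2, coe_image, fr_prod, hfst, card_image_of_injective _ hinj] at h1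
  omega

end

/-- **Decomposition into bases.** -/
theorem exists_bases {F : Type} [Field F] {q r M : ℕ} (hM : 0 < M) (a : Fin q → Fin (r + 1) → F)
    {s : Fin q → ℕ} (hs : ∑ i, s i = (r + 1) * M)
    (h : ∀ S : Finset (Fin q), ∑ i ∈ S, s i ≤ M * finrank F ↥(Submodule.span F (a '' (S : Set (Fin q))))) :
    ∃ I : Fin M → Fin (r + 1) → Fin q,
      (∀ t, (Matrix.of fun k b => a (I t k) b).det ≠ 0) ∧ ∀ (R : Type) [CommMonoid R] (f : Fin q → R),
        ∏ t, ∏ k, f (I t k) = ∏ i, f i ^ s i := by
  classical
  obtain ⟨c, hc⟩ := rado_fam (F := F) (E := Σ i, Fin (s i)) (fun e => a e.1) hM (by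
    intro S
    have h1 : S.card ≤ ∑ i ∈ S.image Sigma.fst, s i := by
      have h2 : S ⊆ (S.image Sigma.fst).sigma fun i => (univ : Finset (Fin (s i))) := by
        intro e he
        rw [mem_sigma]
        exact ⟨mem_image_of_mem _ he, mem_univ _⟩
      refine (card_le_card h2).trans (le_of_eq ?_)
      rw [card_sigma]
      exact sum_congr rfl fun i _ => by rw [card_univ, Fintype.card_fin]
    refine h1.trans ((h _).trans (le_of_eq ?_))
    rw [coe_image, Set.image_image])
  have hle : ∀ t, (univ.filter fun e => c e = t).card ≤ r + 1 := by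
    intro t
    refine (hc t).trans ((Submodule.finrank_le _).trans (le_of_eq ?_))
    rw [Module.finrank_fintype_fun_eq_card, Fintype.card_fin]
  have hsum : ∑ t, (univ.filter fun e => c e = t).card = (r + 1) * M := by
    rw [← card_eq_sum_card_fiberwise (f := c) (s := univ) (t := univ) (fun _ _ => mem_univ _),
      card_univ, Fintype.card_sigma]
    simpa using hs
  have heq : ∀ t, (univ.filter fun e => c e = t).card = r + 1 := by
    intro t
    refine le_antisymm (hle t) ?_
    by_contra hlt
    push Not at hlt
    have h1 : ∑ t, (univ.filter fun e => c e = t).card < ∑ _t : Fin M, (r + 1) :=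
      sum_lt_sum (fun t _ => hle t) ⟨t, mem_univ _, hlt⟩
    rw [hsum, sum_const, card_univ, Fintype.card_fin, smul_eq_mul, mul_comm] at h1
    exact lt_irrefl _ h1
  have hφ : ∀ t, Nonempty (Fin (r + 1) ≃ {e // e ∈ univ.filter fun e => c e = t}) := by
    intro t
    refine ⟨(Fintype.equivFinOfCardEq ?_).symm⟩
    rw [Fintype.card_coe, heq]
  refine ⟨fun t k => (hφ t).some k |>.1.1, fun t => ?_, ?_⟩
  · have h1 : LinearIndependent F fun k => a ((hφ t).some k).1.1 := by
      rw [linearIndependent_iff_card_le_finrank_span, Fintype.card_fin]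
      have h2 := hc t
      rw [heq t] at h2
      have h3 : (fun e : (Σ i, Fin (s i)) => a e.1) ''
          ((univ.filter fun e => c e = t : Finset (Σ i, Fin (s i))) : Set (Σ i, Fin (s i))) =
          Set.range fun k => a ((hφ t).some k).1.1 := by
        ext x
        constructor
        · rintro ⟨e, he, rfl⟩
          exact ⟨(hφ t).some.symm ⟨e, he⟩, by simp⟩
        · rintro ⟨k, rfl⟩
          exact ⟨((hφ t).some k).1, ((hφ t).some k).2, rfl⟩
      rw [h3] at h2
      exact h2
    intro h0
    have h2 := (Matrix.linearIndependent_rows_iff_isUnit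
      (A := Matrix.of fun k b => a ((hφ t).some k).1.1 b)).1 h1
    rw [Matrix.isUnit_iff_isUnit_det, h0] at h2
    exact not_isUnit_zero h2
  · intro R _ f
    have h1 : ∀ t, ∏ k, f ((hφ t).some k).1.1 =
        ∏ e ∈ univ.filter (fun e => c e = t), f e.1 := by
      intro t
      rw [← prod_coe_sort (univ.filter fun e => c e = t) fun e => f e.1]
      exact Fintype.prod_equiv (hφ t).some _ _ fun k => rfl
    rw [prod_congr rfl fun t _ => h1 t]
    rw [prod_fiberwise_of_maps_to (s := univ) (t := univ) (g := c) (fun _ _ => mem_univ _)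
      (fun e : (Σ i, Fin (s i)) => f e.1), Fintype.prod_sigma]
    exact prod_congr rfl fun i _ => by
      change ∏ _y : Fin (s i), f i = _
      rw [prod_const, card_univ, Fintype.card_fin]

end Pool.Agent.Y191
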