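import Pool.Agent.Y172.R1
import Pool.Agent.Y191.GenFib

/-!
Weak abundance for pairs with very affine fibres over images with many hyperplane sections of small
multiplicity.
-/

set_option autoImplicit false
set_option linter.unusedSectionVars false

open FF Pool.Agent.W602.GT Pool.Agent.W603.LV Pool.Agent.TH122.AB Pool.Agent.TH585.SV
open Pool.Agent.Y172

namespace Pool.Agent.Y191

variable {K : Type} [Field K] [Algebra ℂ K] {N : ℕ} {y : Fin (N + 1) → K} {n : ℕ}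

/-- **Weak abundance** from sections of the base: abstract form. -/
theorem weak_main {Δ : Place ℂ K → ℚ} {p r : ℕ}
    (hy : NormalModel y) (hn : Algebra.trdeg ℂ K = n) (hΔ : Effective y Δ)
    (hLC : LogCanonical y n Δ) {F : IntermediateField ℂ K}
    (hd : Algebra.trdeg ℂ F = p)
    (hbase : ∀ s : ℕ, n = p + s → ∀ δ₁ δ₂ : Place ℂ K → ℝ, ∀ lam : ℕ,
      (∀ P ∈ {P | IsPrimeDivisor y P}, δ₁ P + δ₂ P ≤ Δ P) →
      (∀ P ∈ {P | IsPrimeDivisor y P}, (¬ ∀ f ∈ F, f ≠ 0 → P.ord f = 0) → δ₁ P = Δ P) →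
      (∀ P ∈ {P | IsPrimeDivisor y P}, 0 ≤ δ₁ P) →
      ∀ m : ℕ, 0 < m → ∀ θ : Fin (lam + 1) → (Fin s → Derivation F K K) → K,
      (∀ j, FibSec n m {P | IsPrimeDivisor y P} δ₂ F (θ j)) →
      (∃ G, θ 0 G ≠ 0 ∧
        AlgebraicIndependent F (fun i : Fin lam => θ i.succ G / θ 0 G)) →
      KodairaGe n {P | IsPrimeDivisor y P} (fun P => (Δ P : ℝ)) (p + lam))
    {t : Fin r → K} (ht : ∀ j, t j ≠ 0)
    (hgen : IntermediateField.adjoin ℂ ({x : K | IsAlgebraic F x} ∪ Set.range t) = ⊤)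
    (h2 : ∀ P, IsPrimeDivisor y P → (∀ f ∈ F, f ≠ 0 → P.ord f = 0) →
      (∃ j, P.ord (t j) ≠ 0) → 1 ≤ Δ P) :
    ∃ κ : ℕ, kodairaDim y n Δ = (κ : WithBot ℕ) ∧
      ∀ A, Effective y A → Integral y A → numericalDim y n Δ A = (κ : EReal) := by
  classical
  have hess := hy.ess
  -- the fibres
  have hgen' : IntermediateField.adjoin ℂ ((acl ℂ (F : Set K) : Set K) ∪ Set.range t) = ⊤ := by
    rw [← top_le_iff, ← hgen, IntermediateField.adjoin_le_iff]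
    rintro x (hx | hx)
    · exact IntermediateField.subset_adjoin _ _ (Or.inl ((acl_closed (F : Set K)).mem_of_le
        (fun y hy => subset_acl _ hy) hx))
    · exact IntermediateField.subset_adjoin _ _ (Or.inr hx)
  obtain ⟨e, l, M, J, D, u, H, gs⟩ := exists_gs hn ht hgen'
  obtain ⟨B, hB⟩ : ∃ B : MvPolynomial (Fin l) M → Prop, ∀ g, B g ↔ (Irreducible g ∧
      ∀ P, IsPrimeDivisor y P → Adic P u g → 0 < Δ P) := ⟨_, fun _ => Iff.rfl⟩
  obtain ⟨M1, l', ρ, x, u', fb⟩ := exists_fb hn gs B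
  obtain ⟨μ, c, hc, hbas⟩ := full_basis hn gs fb
  -- the dimensions
  have hFe : Algebra.trdeg F K = e := by
    have h3 := gs.bas.cardinalMk_eq_trdeg
    rw [Cardinal.mk_fin] at h3
    exact h3.symm
  have hne : n = p + e := by
    have h3 := trdeg_add_eq ℂ F (A := K)
    rw [hd, hFe, hn] at h3
    exact_mod_cast h3.symm
  have hel : e = l' + (ρ + μ) := by
    have h3 := hbas.cardinalMk_eq_trdeg
    rw [hFe, Cardinal.mk_sum, Cardinal.mk_sum, Cardinal.mk_fin, Cardinal.mk_fin, Cardinal.mk_fin,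
      Cardinal.lift_natCast, Cardinal.lift_natCast, Cardinal.lift_natCast, ← Nat.cast_add,
      Cardinal.lift_natCast, ← Nat.cast_add] at h3
    exact_mod_cast h3.symm
  -- the upper bound
  obtain ⟨E, hE, hEM, hEu⟩ := exists_adapted hn gs.closed gs.ind gs.top
  have hup : ∀ A, Effective y A → ∃ C : ℕ, ∀ m : ℕ, 1 ≤ m → ∀ (r : ℕ) (f : Fin r → K),
      LinearIndependent ℂ f → (∀ i, ∃ ω, Y172.IsSection y n m (m • Δ + A) ω ∧ ω E = f i) →
      r ≤ C * m ^ (p + (ρ + μ)) := by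
    intro A hA
    refine upper hy hn hΔ hLC gs.ind gs.top fb (fun g hg hBg => ?_) hE hEM hEu (by omega) hA
    rw [hB] at hBg
    push Not at hBg
    obtain ⟨P, hP, hPg, hPΔ⟩ := hBg hg
    exact ⟨P, hP, hPg, hPΔ⟩
  -- the coefficients
  let X : Set (Place ℂ K) := {P | IsPrimeDivisor y P}
  have hX : ∀ P, P ∈ X ↔ IsPrimeDivisor y P := fun _ => Iff.rfl
  obtain ⟨tr, htr⟩ : ∃ tr : Place ℂ K → Prop, ∀ P, tr P ↔
      ∀ f ∈ F, f ≠ 0 → P.ord f = 0 := ⟨_, fun _ => Iff.rfl⟩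
  let δ₁ : Place ℂ K → ℝ := fun P => if tr P then 0 else (Δ P : ℝ)
  let δ₂ : Place ℂ K → ℝ := fun P => if tr P then (Δ P : ℝ) else 0
  have hΔ0 : ∀ P ∈ X, (0 : ℝ) ≤ Δ P := fun P hP => by exact_mod_cast hΔ.1 P hP
  have hδ₁ : ∀ P ∈ X, 0 ≤ δ₁ P := by
    intro P hP
    change 0 ≤ if tr P then 0 else (Δ P : ℝ)
    split_ifs
    · exact le_rfl
    · exact hΔ0 P hP
  have hδ₂ : ∀ P ∈ X, 0 ≤ δ₂ P := by
    intro P hP
    change 0 ≤ if tr P then (Δ P : ℝ) else 0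
    split_ifs
    · exact hΔ0 P hP
    · exact le_rfl
  have hδ : ∀ P ∈ X, δ₁ P + δ₂ P ≤ Δ P := by
    intro P _
    change (if tr P then 0 else (Δ P : ℝ)) + (if tr P then (Δ P : ℝ) else 0) ≤ Δ P
    split_ifs <;> simp
  have hδ₂' : ∀ P, (∀ f ∈ F, f ≠ 0 → P.ord f = 0) → δ₂ P = Δ P := fun P hP =>
    if_pos ((htr P).2 hP)
  -- the lower bound
  obtain ⟨m, hm, θ, hθ1, hθ2, hθ3, hθ4⟩ := lower gs fb (X := X) (δ := δ₂) hδ₂
    (by
      rintro P hP ⟨hPF, hPt⟩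
      rw [hδ₂' P hPF]
      exact_mod_cast h2 P hP hPF hPt)
    (by
      intro g hg
      rw [hB] at hg
      refine ⟨hg.1, fun P hP hPg => ?_⟩
      rw [hδ₂' P fun f hf hf0 => hPg.triv f (gs.le hf) hf0]
      exact_mod_cast hg.2 P hP hPg)
    (fun f hf => finite_ord hy hf) hc (by
      have h3 := hbas.1.comp (Sum.inr : Fin ρ ⊕ Fin μ → Fin l' ⊕ (Fin ρ ⊕ Fin μ))
        Sum.inr_injective
      exact h3)
  have hGD : ∀ i, ((Y172.liftD (D i) F (gs.dk i)).restrictScalars ℂ) = D i := by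
    intro i
    ext f
    rfl
  -- the sections
  obtain ⟨m0, hm0, ω, hω, E', h4, h5⟩ := hbase e hne δ₁ δ₂ (ρ + μ) hδ
    (fun P _ hP => if_neg fun h => hP ((htr P).1 h)) hδ₁ m hm
    (fun b G => θ b fun i => (G i).restrictScalars ℂ)
    (by
      intro b
      refine ⟨pluri_restrict (hθ1 b) _, fun P hP _ G hG => ?_⟩
      exact hθ2 b P hP _ (fun i f hf => by
        have : (G i) f = 0 := (G i).map_algebraMap (⟨f, hf⟩ : F)
        exact this) (fun i f hf => hG i f hf))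
    (by
      refine ⟨fun i => Y172.liftD (D i) F (gs.dk i), ?_, ?_⟩
      · simp only [hGD]
        exact hθ3
      · simp only [hGD]
        exact hθ4)
  refine ⟨p + (ρ + μ), dims hΔ hE hup hm0 (ω := ω) (fun j => ⟨(hω j).1, fun P hP G hG => ?_⟩)
    h4 h5⟩
  rcases (hω j).2 P hP (hP.divisorial hy hn) G hG with h6 | h6
  · exact Or.inl h6
  · right
    have e1 : (m0 • Δ) P = m0 * Δ P := by rw [Pi.smul_apply, nsmul_eq_mul]
    rw [e1]
    have h7 : ((-(m0 * Δ P) : ℚ) : ℝ) ≤ ((P.ord (ω j G) : ℚ) : ℝ) := by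
      push_cast
      exact h6
    exact_mod_cast h7

/-- at a place which is trivial on the field of the image all multiplicities are zero -/
theorem triv_ord {K : Type} [Field K] [Algebra ℂ K] {n' q : ℕ} {ℓ : Fin q → Fin (n' + 1) → ℂ}
    {b : Fin (n' + 1) → K} (hl : ∀ i, lf (ℓ i) b ≠ 0) {P : Place ℂ K} {c : ℤ} {e : Fin q → ℕ}
    (ho : OrdData P ℓ b c e) (h : ∀ f ∈ RF ℂ b, f ≠ 0 → P.ord f = 0) (i : Fin q) : e i = 0 := by
  obtain ⟨j, hj, hjc⟩ := ho.2.1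
  have h1 : lf (ℓ i) b / b j ∈ RF ℂ b := by
    have h2 : lf (ℓ i) b / b j = ∑ k, algebraMap ℂ K (ℓ i k) * (b k / b j) := by
      rw [lf, Finset.sum_div]
      exact Finset.sum_congr rfl fun k _ => by ring
    rw [h2]
    exact sum_mem fun k _ => mul_mem (IntermediateField.algebraMap_mem _ _)
      (IntermediateField.subset_adjoin ℂ _ ⟨k, j, hj, rfl⟩)
  have h2 := h _ h1 (div_ne_zero (hl i) hj)
  rw [P.ord_div (hl i) hj, ho.2.2 i, hjc] at h2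
  omega

/-- **Weak abundance**, small multiplicities. -/
theorem weak_small {Δ : Place ℂ K → ℚ} {n' q d p r : ℕ}
    (hy : NormalModel y) (hn : Algebra.trdeg ℂ K = n) (hΔ : Effective y Δ)
    (hLC : LogCanonical y n Δ) (hd : 0 < d) {ℓ : Fin q → Fin (n' + 1) → ℂ}
    (hI : Independent d ℓ) (hg : GeneralPosition ℓ) (hq : n' + 1 ≤ q) {b : Fin (n' + 1) → K}
    (hl : ∀ i, lf (ℓ i) b ≠ 0) (hb : ∃ j, b j ≠ 0) (htr : Algebra.trdeg ℂ (RF ℂ b) = p)
    {wt : Fin q → ℚ} (hwt0 : ∀ i, 0 ≤ wt i)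
    (hlt : (((p + 1) * gam (n' - p) (d + 1) : ℕ) : ℚ) < ∑ i, wt i)
    (hmult : ∀ P, IsPrimeDivisor y P → ∀ (c : ℤ) (e : Fin q → ℕ), OrdData P ℓ b c e →
      ((min (Finset.univ.filter fun i => e i ≠ 0).card (gam (n' - p) (d + 1)) : ℕ) : ℚ) ≤
        gam (n' - p) (d + 1) * Δ P + ∑ i, (1 - wt i) * e i)
    {t : Fin r → K} (ht : ∀ j, t j ≠ 0)
    (hgen : IntermediateField.adjoin ℂ ({x : K | IsAlgebraic (RF ℂ b) x} ∪ Set.range t) = ⊤)
    (h2 : ∀ P, IsPrimeDivisor y P → (∀ f ∈ RF ℂ b, f ≠ 0 → P.ord f = 0) →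
      (∃ j, P.ord (t j) ≠ 0) → 1 ≤ Δ P) :
    ∃ κ : ℕ, kodairaDim y n Δ = (κ : WithBot ℕ) ∧
      ∀ A, Effective y A → Integral y A → numericalDim y n Δ A = (κ : EReal) := by
  classical
  refine weak_main hy hn hΔ hLC htr ?_ ht hgen h2
  rintro s rfl δ₁ δ₂ lam hδ hδ1 hδ0 m hm θ hθ hne
  refine (small_fib hd hI hg hq hl hb htr hn hwt0 hlt.le hδ (fun P hP hPd c e ho => ?_) hm hθ
    hne).2 hlt
  by_cases htriv : ∀ f ∈ RF ℂ b, f ≠ 0 → P.ord f = 0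
  · have h3 := triv_ord hl ho htriv
    have h4 : (Finset.univ.filter fun i => e i ≠ 0).card = 0 := by
      rw [Finset.card_eq_zero, Finset.filter_eq_empty_iff]
      intro i _
      simp [h3 i]
    rw [h4, Nat.zero_min, Nat.cast_zero]
    have h5 : ∑ i, (1 - (wt i : ℝ)) * (e i : ℝ) = 0 :=
      Finset.sum_eq_zero fun i _ => by rw [h3 i]; simp
    rw [h5, add_zero]
    exact mul_nonneg (Nat.cast_nonneg _) (hδ0 P hP)
  · rw [hδ1 P hP htriv]
    have h3 := hmult P hP c e ho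
    have h4 : (((min (Finset.univ.filter fun i => e i ≠ 0).card
        (gam (n' - p) (d + 1)) : ℕ) : ℚ) : ℝ) ≤
        ((gam (n' - p) (d + 1) * Δ P + ∑ i, (1 - wt i) * e i : ℚ) : ℝ) := by exact_mod_cast h3
    push_cast at h4 ⊢
    exact h4

/-- **Weak abundance**, general hyperplanes. -/
theorem weak_general {n' q m Q : ℕ} (hn' : 1 ≤ n') (hm : 2 ≤ m) (hQ : 2 * n' * m ≤ Q * (m - 1))
    (hq : (n' + Q).choose n' < q) :
    ∃ Ψ : MvPolynomial (Fin q × Fin (n' + 1)) ℂ, Ψ ≠ 0 ∧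
      ∀ ℓ : Fin q → Fin (n' + 1) → ℂ, MvPolynomial.eval (fun x => ℓ x.1 x.2) Ψ ≠ 0 →
      ∀ (K : Type) [Field K] [Algebra ℂ K] (N n p r : ℕ) (y : Fin (N + 1) → K)
      (Δ : Place ℂ K → ℚ), 1 ≤ p → NormalModel y → Algebra.trdeg ℂ K = n → Effective y Δ →
      LogCanonical y n Δ → ∀ b : Fin (n' + 1) → K, (∀ i, lf (ℓ i) b ≠ 0) → (∃ j, b j ≠ 0) →
      Algebra.trdeg ℂ (RF ℂ b) = p →
      (∀ P, IsPrimeDivisor y P → ∀ (c : ℤ) (e : Fin q → ℕ), OrdData P ℓ b c e →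
        ∀ i, e i = 0 ∨ m * (1 - Δ P) ≤ e i) →
      ∀ t : Fin r → K, (∀ j, t j ≠ 0) →
      IntermediateField.adjoin ℂ ({x : K | IsAlgebraic (RF ℂ b) x} ∪ Set.range t) = ⊤ →
      (∀ P, IsPrimeDivisor y P → (∀ f ∈ RF ℂ b, f ≠ 0 → P.ord f = 0) →
        (∃ j, P.ord (t j) ≠ 0) → 1 ≤ Δ P) →
      ∃ κ : ℕ, kodairaDim y n Δ = (κ : WithBot ℕ) ∧
        ∀ A, Effective y A → Integral y A → numericalDim y n Δ A = (κ : EReal) := by
  obtain ⟨Ψ, hΨ, h⟩ := general_fib (n := n') (q := q) hn' hm hQ hq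
  refine ⟨Ψ, hΨ, ?_⟩
  intro ℓ hℓ K _ _ N n p r y Δ hp hy hn hΔ hLC b hl hb htr hmult t ht hgen h2
  refine weak_main hy hn hΔ hLC htr ?_ ht hgen h2
  rintro s rfl δ₁ δ₂ lam hδ hδ1 hδ0 m' hm' θ hθ hne
  refine h ℓ hℓ K p s lam hp hn b hl hb htr _ δ₁ δ₂ _ hδ0 hδ (fun P hP hPd c e ho i => ?_) m' hm'
    θ hθ hne
  by_cases htriv : ∀ f ∈ RF ℂ b, f ≠ 0 → P.ord f = 0
  · exact Or.inl (triv_ord hl ho htriv i)
  · rw [hδ1 P hP htriv]
    rcases hmult P hP c e ho i with h3 | h3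
    · exact Or.inl h3
    · right
      have h4 : (((m : ℚ) * (1 - Δ P) : ℚ) : ℝ) ≤ ((e i : ℚ) : ℝ) := by exact_mod_cast h3
      push_cast at h4
      exact h4

end Pool.Agent.Y191
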