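import Pool.Agent.Y191.MovAb
import Pool.Agent.Y191.Weak

/-!
Abundance for pairs which are generically finite and crepant over a relative product of projective
spaces with a moving arrangement of hyperplanes.
-/

set_option autoImplicit false
set_option linter.overlappingInstances false
set_option linter.unusedSectionVars false

open FF MvPolynomial Pool.Agent.W602.GT Pool.Agent.W603.LV Pool.Agent.W619.PQ
open Pool.Agent.Y172

namespace Pool.Agent.Y191

section

variable {K : Type} [Field K] [Algebra ℂ K] {c : ℕ} {r q : Fin c → ℕ} {N n : ℕ}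
variable {A : ∀ j, Fin (q j) → Fin (r j + 1) → K} {u : (Σ j, Fin (r j)) → K}
variable {L : IntermediateField ℂ K} {y : Fin (N + 1) → K} {Δ : Place ℂ K → ℚ}
  {w : ∀ j, Fin (q j) → ℚ}

theorem lmv_ne' (hA : MovArr L A) (hne : ∀ j i, ∃ k, A j i k ≠ 0) (hu : IsTranscendenceBasis L u)
    (j : Fin c) (i : Fin (q j)) : lmv A u j i ≠ 0 := by
  classical
  have hmem : ∀ k, A j i k ∈ acl ℂ (L : Set K) := by
    intro k
    refine (acl_closed (L : Set K)).mem_of_le (F := L) (fun x hx => subset_acl _ hx) (hA.1 j i k)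
  let a : Fin (r j + 1) → acl ℂ (L : Set K) := fun k => ⟨A j i k, hmem k⟩
  let Q : MvPolynomial (Σ j, Fin (r j)) (acl ℂ (L : Set K)) :=
    C (a 0) + ∑ k : Fin (r j), C (a k.succ) * X ⟨j, k⟩
  have h1 : aeval u Q = lmv A u j i := by
    rw [lmv_eq, map_add, map_sum, aeval_C]
    congr 1
    refine Finset.sum_congr rfl fun k _ => ?_
    rw [map_mul, aeval_C, aeval_X]
    rfl
  rw [← h1]
  intro h0
  have h2 : Q = 0 := (injective_iff_map_eq_zero _).1 (basis_acl hu).1 Q h0
  have hX : ∀ k : Fin (r j), coeff 0 (C (a k.succ) * X (⟨j, k⟩ : Σ j, Fin (r j))) = 0 := by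
    intro k
    rw [coeff_C_mul, coeff_zero_X, mul_zero]
  have h3 : a 0 = 0 := by
    have h4 := congrArg (coeff 0) h2
    rw [coeff_add, coeff_sum, Finset.sum_eq_zero fun k _ => hX k, coeff_C, if_pos rfl, add_zero,
      coeff_zero] at h4
    exact h4
  have h4 : ∀ k : Fin (r j), a k.succ = 0 := by
    intro k
    have h5 := congrArg (coeff (Finsupp.single (⟨j, k⟩ : Σ j, Fin (r j)) 1)) h2
    rw [coeff_add, coeff_sum, coeff_C, if_neg, coeff_zero, zero_add, Finset.sum_eq_single k] at h5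
    · rw [coeff_C_mul, coeff_X, if_pos rfl, mul_one] at h5
      exact h5
    · intro k' _ hk'
      rw [coeff_C_mul, coeff_X, if_neg, mul_zero]
      intro h6
      have h7 := (Finsupp.single_eq_single_iff _ _ _ _).1 h6
      rcases h7 with ⟨h8, -⟩ | ⟨h8, -⟩
      · exact hk' (by simpa using h8)
      · exact one_ne_zero h8
    · intro h6
      exact absurd (Finset.mem_univ _) h6
    · intro h6
      have h7 := congrArg (fun f => f (⟨j, k⟩ : Σ j, Fin (r j))) h6
      simp at h7
  obtain ⟨k, hk⟩ := hne j i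
  apply hk
  revert hk
  refine Fin.cases (fun _ => ?_) (fun k _ => ?_) k
  · exact congrArg Subtype.val h3
  · exact congrArg Subtype.val (h4 k)

/-- **Abundance**, abstract form. -/
theorem mov_ab (hy : NormalModel y) (hn : Algebra.trdeg ℂ K = n) (hΔ : Effective y Δ)
    (hA : MovArr L A) (hne : ∀ j i, ∃ k, A j i k ≠ 0) (hu : IsTranscendenceBasis L u)
    (hr : ∀ j, 1 ≤ r j) (hw0 : ∀ j i, 0 ≤ w j i) (hw1 : ∀ j i, w j i ≤ 1)
    (hC : Crep L A u w y Δ) :
    ((∃ j, ∑ i, w j i < r j + 1) → kodairaDim y n Δ = ⊥ ∧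
      ∀ A, Effective y A → numericalDim y n Δ A = ⊥) ∧
    ∀ a : ℕ, (∀ j, (r j + 1 : ℚ) ≤ ∑ i, w j i) →
      n = a + ∑ j, (if ∑ i, w j i = r j + 1 then r j else 0) →
      KodairaGe n {P | IsPrimeDivisor y P} (fun P => (Δ P : ℝ)) a →
      kodairaDim y n Δ = (a : WithBot ℕ) ∧
        ∀ A, Effective y A → Integral y A → numericalDim y n Δ A = (a : EReal) := by
  classical
  have hess := hy.ess
  have hl := lmv_ne' hA hne hu
  obtain ⟨p, z, e, D, hF⟩ := exists_FrF hn (acl_closed (L : Set K)) (basis_acl hu)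
  obtain ⟨Sφ, hSφ⟩ := phi_reg (A := A) (u := u) (w := w)
  constructor
  · rintro ⟨j0, hj0⟩
    have hmem : (⟨j0, ⟨0, hr j0⟩⟩ : Σ j, Fin (r j)) ∈ blk r j0 := by
      unfold blk
      rw [Finset.mem_filter]
      exact ⟨Finset.mem_univ _, rfl⟩
    have hz : ∀ A', Effective y A' → kodairaDim y n Δ = ⊥ ∧ numericalDim y n Δ A' = ⊥ := by
      intro A' hA'
      refine not_psef hA' fun h => ?_
      obtain ⟨m0, hm0⟩ := zero_sec (A := A') hy hn hA' hF (phi_ne (w := w) hl)
        (fun P g hg hPg => crep_fin hA hl hC hg hPg) hmem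
        (fun P => (∑ j, q j) * ∑ s, (P.ord (u s)).natAbs)
        (τ := (((r j0 + 1 : ℚ) - ∑ i, w j0 i : ℚ) : ℝ)) (by
          have : (0 : ℚ) < (r j0 + 1 : ℚ) - ∑ i, w j0 i := by linarith
          exact_mod_cast this)
        (fun P ρ hρ hP => crep_inf hA hl hw0 hC (hr j0) hρ hP)
      obtain ⟨m', hm', s', hs', hs'0⟩ := h m0
      exact hs'0 (hm0 m' hm' s' hs')
    exact ⟨(hz 0 ⟨fun _ _ => le_rfl, by simp⟩).1, fun A' hA' => (hz A' hA').2⟩
  · intro a hws hna hK
    obtain ⟨m0, hm0, ω, hω, E', h4, h5⟩ := hK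
    let ι := {j : Fin c // ∑ i, w j i = r j + 1}
    let T : Finset (Σ j, Fin (r j)) := Finset.univ.filter fun s => ∑ i, w s.1 i = r s.1 + 1
    have hT : T.card = ∑ j, (if ∑ i, w j i = r j + 1 then r j else 0) := by
      rw [Finset.card_filter, Fintype.sum_sigma]
      refine Finset.sum_congr rfl fun j _ => ?_
      change ∑ _k : Fin (r j), (if ∑ i, w j i = r j + 1 then 1 else 0) = _
      rw [Finset.sum_const, Finset.card_univ, Fintype.card_fin, smul_eq_mul, mul_ite, mul_one,
        mul_zero]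
    rw [← hT] at hna
    have hup : ∀ A, Effective y A → ∃ C : ℕ, ∀ m : ℕ, 1 ≤ m → ∀ (r : ℕ) (f : Fin r → K),
        LinearIndependent ℂ f →
        (∀ i, ∃ ω, Pool.Agent.Y172.IsSection y n m (m • Δ + A) ω ∧ ω D = f i) →
        r ≤ C * m ^ a := by
      intro A' hA'
      refine up_sec (ι := ι) (J := fun j => blk r j.1)
        (l := fun j => ⟨j.1, ⟨0, hr j.1⟩⟩) (T := T) hy hn hΔ hA' hF (phi_ne (w := w) hl)
        (phi_lin hl hw1) hSφ (fun P g hg hPg => crep_fin hA hl hC hg hPg)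
        (fun j => by
          unfold blk
          rw [Finset.mem_filter]
          exact ⟨Finset.mem_univ _, rfl⟩)
        (fun P => (∑ j, q j) * ∑ s, (P.ord (u s)).natAbs) (fun j P ρ hρ hP => ?_)
        (fun s hs => ?_) hna
      · obtain ⟨h6, h7⟩ := crep_inf hA hl hw0 hC (hr j.1) hρ hP
        refine ⟨h6, fun m hm => ?_⟩
        have h8 := h7 m hm
        have h9 : ((r j.1 + 1 : ℚ) - ∑ i, w j.1 i) = 0 := by
          rw [j.2]
          ring
        rw [h9, Rat.cast_zero, zero_mul, mul_zero, add_zero] at h8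
        exact h8
      · rw [Finset.mem_filter] at hs
        refine ⟨⟨s.1, hs.2⟩, ?_⟩
        unfold blk
        rw [Finset.mem_filter]
        exact ⟨Finset.mem_univ _, rfl⟩
    refine dims hΔ hF.frame hup hm0 (ω := ω) (fun j => ⟨(hω j).1, fun P hP G hG => ?_⟩) h4 h5
    rcases (hω j).2 P hP (hP.divisorial hy hn) G hG with h6 | h6
    · exact Or.inl h6
    · right
      have e1 : (m0 • Δ) P = m0 * Δ P := by rw [Pi.smul_apply, nsmul_eq_mul]
      rw [e1]
      have h7 : ((-(m0 * Δ P) : ℚ) : ℝ) ≤ ((P.ord (ω j G) : ℚ) : ℝ) := by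
        push_cast
        exact h6
      exact_mod_cast h7

end

end Pool.Agent.Y191
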