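import Pool.Agent.Y191.LcDec
import Pool.Agent.Y191.CorForm
import Pool.Agent.Y191.MovAb2

/-!
The forms along the fibres of a log canonical arrangement of hyperplanes, with any intersections.
-/

set_option autoImplicit false
set_option linter.overlappingInstances false
set_option linter.unusedSectionVars false

open FF MvPolynomial Pool.Agent.W602.GT Pool.Agent.W603.LV Pool.Agent.TH585.SV Pool.Agent.W619.PQ
open Pool.Agent.Y172

namespace Pool.Agent.Y191

section

variable {K : Type} [Field K] [Algebra ℂ K] {c : ℕ} {r q : Fin c → ℕ}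
variable {A : ∀ j, Fin (q j) → Fin (r j + 1) → K} {u : (Σ j, Fin (r j)) → K}
variable {L : IntermediateField ℂ K}

/-- The dimension of the span of the linear forms `A j i`, `i ∈ S`, which is the codimension of the
intersection of these hyperplanes. -/
noncomputable def rk (A : ∀ j, Fin (q j) → Fin (r j + 1) → K) (j : Fin c)
    (S : Finset (Fin (q j))) : ℕ :=
  Module.finrank K ↥(Submodule.span K (A j '' (S : Set (Fin (q j)))))

/-- The linear forms `A j i` of the `j`-th factor are different from `0`, with coefficients algebraic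
over `L`, and the arrangement of hyperplanes with the weights `w j i` is log canonical: for all sets
`S` of hyperplanes which have a common point the sum of the weights is at most the codimension of the
intersection. -/
def LcArr (L : IntermediateField ℂ K) (A : ∀ j, Fin (q j) → Fin (r j + 1) → K)
    (w : ∀ j, Fin (q j) → ℚ) : Prop :=
  (∀ j i, (∃ k, A j i k ≠ 0) ∧ ∀ k, IsAlgebraic L (A j i k)) ∧
    ∀ j (S : Finset (Fin (q j))), rk A j S ≤ r j → ∑ i ∈ S, w j i ≤ rk A j S

theorem rk_le (A : ∀ j, Fin (q j) → Fin (r j + 1) → K) (j : Fin c) (S : Finset (Fin (q j))) :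
    rk A j S ≤ r j + 1 := by
  refine (Submodule.finrank_le _).trans (le_of_eq ?_)
  rw [Module.finrank_fintype_fun_eq_card, Fintype.card_fin]

theorem LcArr.seq {w : ∀ j, Fin (q j) → ℚ} (hA : LcArr L A w) {M : ℕ} (hM : 0 < M)
    {s : ∀ j, Fin (q j) → ℕ} (h : Adm r q w M s) :
    ∃ I : Fin M → ∀ j, Fin (r j + 1) → Fin (q j),
      (∀ t j, (Matrix.of fun k a => A j (I t j k) a).det ≠ 0) ∧
      ∀ j (f : Fin (q j) → K), ∏ t, ∏ k, f (I t j k) = ∏ i, f i ^ s j i := by
  have h1 : ∀ j, ∃ I : Fin M → Fin (r j + 1) → Fin (q j),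
      (∀ t, (Matrix.of fun k b => A j (I t k) b).det ≠ 0) ∧
      ∀ (R : Type) [CommMonoid R] (f : Fin (q j) → R), ∏ t, ∏ k, f (I t k) = ∏ i, f i ^ s j i := by
    intro j
    refine exists_bases hM (A j) (h.1 j) fun S => ?_
    change _ ≤ M * rk A j S
    by_cases hS : rk A j S ≤ r j
    · have h2 := hA.2 j S hS
      have h3 : (∑ i ∈ S, (s j i : ℚ)) ≤ M * ∑ i ∈ S, w j i := by
        rw [Finset.mul_sum]
        exact Finset.sum_le_sum fun i _ => h.2 j i
      have h4 : ((∑ i ∈ S, s j i : ℕ) : ℚ) ≤ ((M * rk A j S : ℕ) : ℚ) := by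
        push_cast
        exact h3.trans (mul_le_mul_of_nonneg_left h2 (Nat.cast_nonneg _))
      exact_mod_cast h4
    · have h2 : rk A j S = r j + 1 := le_antisymm (rk_le A j S) (by omega)
      rw [h2, mul_comm M, ← h.1 j]
      exact Finset.sum_le_sum_of_subset (Finset.subset_univ S)
  choose I hI1 hI2 using h1
  exact ⟨fun t j => I j t, fun t j => hI1 j t, fun j f => hI2 j K f⟩

/-- a basis of hyperplanes with positive weights -/
theorem LcArr.pos_basis {w : ∀ j, Fin (q j) → ℚ} (hA : LcArr L A w) (hw0 : ∀ j i, 0 ≤ w j i)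
    (hws : ∀ j, (r j + 1 : ℚ) ≤ ∑ i, w j i) (j : Fin c) :
    ∃ I : Fin (r j + 1) → Fin (q j), (Matrix.of fun k a => A j (I k) a).det ≠ 0 ∧
      ∀ k, 0 < w j (I k) := by
  classical
  obtain ⟨S, hS⟩ : ∃ S, S = Finset.univ.filter fun i => 0 < w j i := ⟨_, rfl⟩
  have h1 : ∑ i ∈ S, w j i = ∑ i, w j i := by
    rw [hS, Finset.sum_filter]
    refine Finset.sum_congr rfl fun i _ => ?_
    split_ifs with h
    · rfl
    · exact (le_antisymm (hw0 j i) (not_lt.1 h))
  have h2 : rk A j S = r j + 1 := by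
    refine le_antisymm (rk_le A j S) ?_
    by_contra hcon
    push Not at hcon
    have h3 := hA.2 j S (by omega)
    rw [h1] at h3
    have h4 := (hws j).trans h3
    have h5 : (rk A j S : ℚ) + 1 ≤ r j + 1 := by exact_mod_cast hcon
    linarith
  obtain ⟨f, hf, -, hli⟩ := Submodule.exists_fun_fin_finrank_span_eq K
    (A j '' (S : Set (Fin (q j))))
  choose I hI hIf using hf
  have h3 : LinearIndependent K fun k : Fin (r j + 1) => A j (I (Fin.cast h2.symm k)) := by
    have h4 := hli.comp (Fin.cast h2.symm) (Fin.cast_injective _)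
    have h5 : (fun k : Fin (r j + 1) => A j (I (Fin.cast h2.symm k))) =
        f ∘ (Fin.cast h2.symm) := funext fun k => hIf _
    rw [h5]
    exact h4
  refine ⟨fun k => I (Fin.cast h2.symm k), ?_, fun k => ?_⟩
  · intro h0
    have h2 := (Matrix.linearIndependent_rows_iff_isUnit
      (A := Matrix.of fun k a => A j (I (Fin.cast h2.symm k)) a)).1 h3
    rw [Matrix.isUnit_iff_isUnit_det, h0] at h2
    exact not_isUnit_zero h2
  · have h5 : ∀ i ∈ S, 0 < w j i := by
      intro i hi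
      rw [hS] at hi
      exact (Finset.mem_filter.1 hi).2
    exact h5 _ (Finset.mem_coe.1 (hI (Fin.cast h2.symm k)))

theorem LcArr.alg_cdet {w : ∀ j, Fin (q j) → ℚ} (hA : LcArr L A w)
    (I : ∀ j, Fin (r j + 1) → Fin (q j)) : IsAlgebraic L (cdet A I) := by
  have h1 : cdet A I ∈ algebraicClosure L K := by
    unfold cdet
    exact prod_mem fun j _ => mem_algebraicClosure_iff.2 (alg_det fun k a => (hA.1 _ _).2 _)
  exact mem_algebraicClosure_iff.1 h1

theorem cdet_ne' {I : ∀ j, Fin (r j + 1) → Fin (q j)}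
    (hI : ∀ j, (Matrix.of fun k a => A j (I j k) a).det ≠ 0) : cdet A I ≠ 0 :=
  Finset.prod_ne_zero_iff.2 fun j _ => hI j

theorem inj_of_det {j : Fin c} {I : Fin (r j + 1) → Fin (q j)}
    (hI : (Matrix.of fun k a => A j (I k) a).det ≠ 0) : Function.Injective I := by
  intro a b hab
  by_contra hne
  exact hI (Matrix.det_zero_of_row_eq hne (by
    funext k
    rw [Matrix.of_apply, Matrix.of_apply, hab]))

/-- **The estimate at places which are trivial on the coefficients.** -/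
theorem movf_lc {e M : ℕ} {P : Place ℂ K} (σ : (Σ j, Fin (r j)) ≃ Fin e)
    {s : ∀ j, Fin (q j) → ℕ} (hs : ∀ j, ∑ i, s j i = (r j + 1) * M) {C : K} (hC : Ge P 0 C)
    {I : ∀ j, Fin (r j + 1) → Fin (q j)}
    (hdet : ∀ j, (Matrix.of fun k a => A j (I j k) a).det ≠ 0 ∧
      P.ord (Matrix.of fun k a => A j (I j k) a).det = 0)
    (hl : ∀ j i, lmv A u j i ≠ 0) {G : Fin e → Derivation ℂ K K}
    (hG : ∀ l j i k, G l (A j i k) = 0) {ν : ℤ}
    (hN : Ge P (-ν) (Matrix.of fun i l => G i (quo A u I (σ.symm l)) / quo A u I (σ.symm l)).det)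
    {c' : Fin c → ℤ} {ε : ∀ j, Fin (q j) → ℕ} (ho : ∀ j, MOrd P (A j) (hcd u j) (c' j) (ε j)) :
    Ge P (∑ j, ((M : ℤ) * ∑ k, (ε j (I j k) : ℤ) - ∑ i, (s j i : ℤ) * ε j i) - M * ν)
      (movf σ A u M s C G) := by
  classical
  have hlo : ∀ j i, P.ord (lmv A u j i) = c' j + ε j i := fun j i => (ho j).2.2 i
  have hcd0 : cdet A I ≠ 0 := Finset.prod_ne_zero_iff.2 fun j _ => (hdet j).1
  have hcdo : P.ord (cdet A I) = 0 := by
    unfold cdet
    rw [ord_prod P _ _ fun j => (hdet j).1]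
    exact Finset.sum_eq_zero fun j _ => (hdet j).2
  obtain ⟨Λ, hΛ⟩ : ∃ Λ, Λ = ∏ j, ∏ k, lmv A u j (I j k) := ⟨_, rfl⟩
  have hΛ0 : Λ ≠ 0 := by
    rw [hΛ]
    exact Finset.prod_ne_zero_iff.2 fun j _ => Finset.prod_ne_zero_iff.2 fun i _ => hl _ _
  obtain ⟨den, hden⟩ : ∃ den, den = ∏ j, ∏ i, lmv A u j i ^ s j i := ⟨_, rfl⟩
  have hden0 : den ≠ 0 := by
    rw [hden]
    exact Finset.prod_ne_zero_iff.2 fun j _ => Finset.prod_ne_zero_iff.2 fun i _ =>
      pow_ne_zero _ (hl j i)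
  have hΛo : P.ord Λ = ∑ j, ((r j + 1 : ℕ) * c' j + ∑ k, (ε j (I j k) : ℤ)) := by
    rw [hΛ, ord_prod P _ _ fun j => Finset.prod_ne_zero_iff.2 fun i _ => hl _ _]
    refine Finset.sum_congr rfl fun j _ => ?_
    rw [ord_prod P _ _ fun k => hl _ _]
    simp only [hlo]
    rw [Finset.sum_add_distrib, Finset.sum_const, Finset.card_univ, Fintype.card_fin, nsmul_eq_mul]
  have hdo : P.ord den = ∑ j, ((M : ℤ) * ((r j + 1 : ℕ) * c' j) + ∑ i, (s j i : ℤ) * ε j i) := by
    rw [hden, ord_prod P _ _ fun j => Finset.prod_ne_zero_iff.2 fun i _ =>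
      pow_ne_zero _ (hl j i)]
    refine Finset.sum_congr rfl fun j _ => ?_
    rw [ord_prod P _ _ fun i => pow_ne_zero _ (hl j i)]
    have h1 : ∀ i, P.ord (lmv A u j i ^ s j i) = s j i * c' j + s j i * ε j i := by
      intro i
      rw [P.ord_pow, hlo]
      ring
    simp only [h1]
    rw [Finset.sum_add_distrib, ← Finset.sum_mul]
    congr 1
    have h2 : ∑ i, (s j i : ℤ) = (r j + 1 : ℕ) * M := by exact_mod_cast hs j
    rw [h2]
    ring
  obtain ⟨N, hNe⟩ : ∃ N, N = (Matrix.of fun i l => G i (quo A u I (σ.symm l)) /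
    quo A u I (σ.symm l)).det := ⟨_, rfl⟩
  have hNge : Ge P (-ν) N := by
    rw [hNe]
    exact hN
  have hmain := det_quo σ hG hl I
  rw [← hNe, ← hΛ] at hmain
  obtain ⟨Dt, hDt⟩ : ∃ Dt, Dt = (Matrix.of fun i l => G i (u (σ.symm l))).det := ⟨_, rfl⟩
  rw [← hDt] at hmain
  have hD : Dt = N * Λ / cdet A I := by
    rw [hmain, mul_div_cancel_right₀ _ hcd0]
  have h1 : movf σ A u M s C G = C * (N ^ M * (Λ ^ M / (cdet A I ^ M * den))) := by
    unfold movf
    rw [← hDt, ← hden, hD, div_pow, mul_pow]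
    field_simp
  rw [h1]
  have h2 := hC.mul ((hNge.pow M).mul (Pool.Agent.W602.GT.ge_ord P (Λ ^ M / (cdet A I ^ M * den))))
  refine h2.mono (le_of_eq ?_)
  rw [P.ord_div (pow_ne_zero _ hΛ0) (mul_ne_zero (pow_ne_zero _ hcd0) hden0),
    P.ord_mul (pow_ne_zero _ hcd0) hden0, P.ord_pow, P.ord_pow, hcdo, hΛo, hdo, Finset.mul_sum]
  have h3 : ∑ j, ((M : ℤ) * ∑ k, (ε j (I j k) : ℤ) - ∑ i, (s j i : ℤ) * ε j i) =
      ∑ j, ((M : ℤ) * ((r j + 1 : ℕ) * c' j + ∑ k, (ε j (I j k) : ℤ))) -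
      ∑ j, ((M : ℤ) * ((r j + 1 : ℕ) * c' j) + ∑ i, (s j i : ℤ) * ε j i) := by
    rw [← Finset.sum_sub_distrib]
    refine Finset.sum_congr rfl fun j _ => ?_
    ring
  rw [h3]
  ring

theorem quo_basis_lc {w : ∀ j, Fin (q j) → ℚ} (hA : LcArr L A w) (hu : IsTranscendenceBasis L u)
    (hl : ∀ j i, lmv A u j i ≠ 0) {I : ∀ j, Fin (r j + 1) → Fin (q j)}
    (hI : ∀ j, (Matrix.of fun k a => A j (I j k) a).det ≠ 0) {κ : (Σ j, Fin (r j)) → K}
    (hκ : ∀ s, IsAlgebraic L (κ s)) (hκ0 : ∀ s, κ s ≠ 0) :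
    IsTranscendenceBasis L fun s => κ s * quo A u I s := by
  classical
  have hcL : CharZero L := charZero_of_injective_algebraMap (algebraMap ℂ L).injective
  refine basis_of_gen hu fun D hD h => ?_
  have hDA : ∀ j i k, D (A j i k) = 0 := fun j i k => kills_alg hD ((hA.1 j i).2 k)
  have hq0 : ∀ s, quo A u I s ≠ 0 := fun s => div_ne_zero (hl _ _) (hl _ _)
  have h1 : ∀ s, D (quo A u I s) / quo A u I s = 0 := by
    intro s
    have h2 := h s
    rw [D.leibniz, kills_alg hD (hκ s), smul_zero, add_zero, smul_eq_mul] at h2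
    rw [(mul_eq_zero.1 h2).resolve_left (hκ0 s), zero_div]
  have h2 : ∀ j a, D (u ⟨j, a⟩) = 0 := by
    intro j
    obtain ⟨T, hT⟩ : ∃ T : Matrix (Fin (r j)) (Fin (r j)) K, T = Matrix.of fun k a =>
      A j (I j k.succ) a.succ / lmv A u j (I j k.succ) -
        A j (I j 0) a.succ / lmv A u j (I j 0) := ⟨_, rfl⟩
    have h3 : T.mulVec (fun a => D (u ⟨j, a⟩)) = 0 := by
      funext k
      have h4 := h1 ⟨j, k⟩
      rw [der_quo hDA hl] at h4
      rw [Matrix.mulVec, dotProduct, hT]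
      exact h4
    have h4 : T.det ≠ 0 := by
      intro h0
      have h5 := det_lin (Matrix.of fun k a => A j (I j k) a) (x := hcd u j) (hcd_zero j)
        (lam := fun k => lmv A u j (I j k)) (fun k => rfl) fun k => hl j _
      apply hI j
      rw [← h5]
      have h6 : (Matrix.of fun k a : Fin (r j) =>
        (Matrix.of fun k a => A j (I j k) a) k.succ a.succ / lmv A u j (I j k.succ) -
        (Matrix.of fun k a => A j (I j k) a) 0 a.succ / lmv A u j (I j 0)) = T := by
        rw [hT]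
        rfl
      rw [h6, h0, zero_mul]
    have h5 := Matrix.eq_zero_of_mulVec_eq_zero h4 h3
    exact fun a => congrFun h5 a
  refine Pool.Agent.Y172.ext_over hu hD (fun x _ => rfl) fun s => ?_
  rw [h2 s.1 s.2]
  rfl

theorem lmv_lc (hA : ∀ j i, (∃ k, A j i k ≠ 0) ∧ ∀ k, IsAlgebraic L (A j i k))
    (hu : IsTranscendenceBasis L u)
    (j : Fin c) (i : Fin (q j)) : lmv A u j i ≠ 0 := by
  classical
  have hmem : ∀ k, A j i k ∈ acl ℂ (L : Set K) := by
    intro k
    refine (acl_closed (L : Set K)).mem_of_le (F := L) (fun x hx => subset_acl _ hx) ((hA j i).2 k)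
  let a : Fin (r j + 1) → acl ℂ (L : Set K) := fun k => ⟨A j i k, hmem k⟩
  let Q : MvPolynomial (Σ j, Fin (r j)) (acl ℂ (L : Set K)) :=
    C (a 0) + ∑ k : Fin (r j), C (a k.succ) * X ⟨j, k⟩
  have h1 : aeval u Q = lmv A u j i := by
    rw [lmv_eq, map_add, map_sum, aeval_C]
    congr 1
    refine Finset.sum_congr rfl fun k _ => ?_
    rw [map_mul, aeval_C, aeval_X]
    rfl
  rw [← h1]
  intro h0
  have h2 : Q = 0 := (injective_iff_map_eq_zero _).1 (basis_acl hu).1 Q h0
  have hX : ∀ k : Fin (r j), coeff 0 (C (a k.succ) * X (⟨j, k⟩ : Σ j, Fin (r j))) = 0 := by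
    intro k
    rw [coeff_C_mul, coeff_zero_X, mul_zero]
  have h3 : a 0 = 0 := by
    have h4 := congrArg (coeff 0) h2
    rw [coeff_add, coeff_sum, Finset.sum_eq_zero fun k _ => hX k, coeff_C, if_pos rfl, add_zero,
      coeff_zero] at h4
    exact h4
  have h4 : ∀ k : Fin (r j), a k.succ = 0 := by
    intro k
    have h5 := congrArg (coeff (Finsupp.single (⟨j, k⟩ : Σ j, Fin (r j)) 1)) h2
    rw [coeff_add, coeff_sum, coeff_C, if_neg, coeff_zero, zero_add, Finset.sum_eq_single k] at h5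
    · rw [coeff_C_mul, coeff_X, if_pos rfl, mul_one] at h5
      exact h5
    · intro k' _ hk'
      rw [coeff_C_mul, coeff_X, if_neg, mul_zero]
      intro h6
      have h7 := (Finsupp.single_eq_single_iff _ _ _ _).1 h6
      rcases h7 with ⟨h8, -⟩ | ⟨h8, -⟩
      · exact hk' (by simpa using h8)
      · exact one_ne_zero h8
    · intro h6
      exact absurd (Finset.mem_univ _) h6
    · intro h6
      have h7 := congrArg (fun f => f (⟨j, k⟩ : Σ j, Fin (r j))) h6
      simp at h7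
  obtain ⟨k, hk⟩ := (hA j i).1
  apply hk
  revert hk
  refine Fin.cases (fun _ => ?_) (fun k _ => ?_) k
  · exact congrArg Subtype.val h3
  · exact congrArg Subtype.val (h4 k)

/-- **The forms along the fibres.** -/
theorem lc_forms {e lam : ℕ} {w : ∀ j, Fin (q j) → ℚ} (hA : LcArr L A w)
    (σ : (Σ j, Fin (r j)) ≃ Fin e)
    (hu : IsTranscendenceBasis L u) (hw0 : ∀ j i, 0 ≤ w j i)
    (hws : ∀ j, (r j + 1 : ℚ) ≤ ∑ i, w j i)
    {κ : Fin lam → Σ j, Fin (r j)} (hκ : Function.Injective κ)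
    (hκs : ∀ i, (r (κ i).1 + 1 : ℚ) < ∑ i', w (κ i).1 i')
    :
    ∃ M : ℕ, 0 < M ∧ (∀ j i, lmv A u j i ≠ 0) ∧
      ∃ (v : Fin (lam + 1) → ∀ j, Fin (q j) → ℕ)
      (J : Fin (lam + 1) → Fin M → ∀ j, Fin (r j + 1) → Fin (q j)),
      (∀ b, Adm r q w M (v b)) ∧
      (∀ b j (f : Fin (q j) → K), ∏ t, ∏ k, f (J b t j k) = ∏ i, f i ^ v b j i) ∧
      ∃ G : Fin e → Derivation L K K,
        movf σ A u M (v 0) (∏ t, cdet A (J 0 t)) (fun i => (G i).restrictScalars ℂ) ≠ 0 ∧
        AlgebraicIndependent L (fun i : Fin lam =>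
          movf σ A u M (v i.succ) (∏ t, cdet A (J i.succ t)) (fun i => (G i).restrictScalars ℂ) /
          movf σ A u M (v 0) (∏ t, cdet A (J 0 t)) (fun i => (G i).restrictScalars ℂ)) := by
  classical
  have hcL : CharZero L := charZero_of_injective_algebraMap (algebraMap ℂ L).injective
  choose I hId hIw using fun j => hA.pos_basis hw0 hws j
  have hI : ∀ j, Function.Injective (I j) := fun j => inj_of_det (hId j)
  have hl := lmv_lc hA.1 hu
  obtain ⟨τ, hτ⟩ : ∃ τ : Fin c → ℚ, ∀ j, τ j = (r j + 1) / ∑ i, w j i := ⟨_, fun _ => rfl⟩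
  have hsum : ∀ j, 0 < ∑ i, w j i := fun j => lt_of_lt_of_le (by positivity) (hws j)
  have hτ0 : ∀ j, 0 < τ j := fun j => by
    rw [hτ]
    exact div_pos (by positivity) (hsum j)
  have hτ1 : ∀ j, τ j ≤ 1 := fun j => by
    rw [hτ, div_le_one (hsum j)]
    exact hws j
  have hτs : ∀ j, τ j * ∑ i, w j i = r j + 1 := fun j => by
    rw [hτ, div_mul_cancel₀ _ (hsum j).ne']
  obtain ⟨M, hM, hMf⟩ := exists_cden (ι := (Σ j, Fin (q j)) ⊕ (Σ j, Fin (q j)))
    (Sum.elim (fun x => τ x.1 * w x.1 x.2) fun x => w x.1 x.2) (by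
      rintro (x | x)
      · exact mul_nonneg (hτ0 _).le (hw0 _ _)
      · exact hw0 _ _)
  have hM' : (0 : ℚ) < M := by exact_mod_cast hM
  choose s hs using fun j i => hMf (Sum.inl ⟨j, i⟩)
  choose sw hsw using fun j i => hMf (Sum.inr ⟨j, i⟩)
  change ∀ j i, (s j i : ℚ) = M * (τ j * w j i) at hs
  change ∀ j i, (sw j i : ℚ) = M * w j i at hsw
  have hadm : Adm r q w M s := by
    constructor
    · intro j
      have h1 : ((∑ i, s j i : ℕ) : ℚ) = (((r j + 1) * M : ℕ) : ℚ) := by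
        push_cast
        simp only [hs]
        rw [← Finset.mul_sum, ← Finset.mul_sum, hτs]
        ring
      exact_mod_cast h1
    · intro j i
      rw [hs]
      exact mul_le_mul_of_nonneg_left (mul_le_of_le_one_left (hw0 j i) (hτ1 j)) hM'.le
  have hpos : ∀ j k, 1 ≤ s j (I j k) := by
    intro j k
    have h1 : (0 : ℚ) < s j (I j k) := by
      rw [hs]
      exact mul_pos hM' (mul_pos (hτ0 j) (hIw j k))
    exact_mod_cast h1
  have hgap : ∀ j k, (r j + 1 : ℚ) < ∑ i, w j i → (s j (I j k) + 1 : ℚ) ≤ M * w j (I j k) := by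
    intro j k hj
    have h1 : τ j < 1 := by
      rw [hτ, div_lt_one (hsum j)]
      exact hj
    have h2 : (s j (I j k) : ℚ) < sw j (I j k) := by
      rw [hs, hsw]
      refine mul_lt_mul_of_pos_left ?_ hM'
      have := hIw j k
      nlinarith
    have h3 : s j (I j k) + 1 ≤ sw j (I j k) := by exact_mod_cast h2
    rw [← hsw]
    exact_mod_cast h3
  -- the exponents
  obtain ⟨v, hv⟩ : ∃ v : Fin (lam + 1) → ∀ j, Fin (q j) → ℕ,
      v = Fin.cons s fun i => chg s I (κ i) := ⟨_, rfl⟩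
  have hv0 : v 0 = s := by rw [hv]; rfl
  have hvs : ∀ i : Fin lam, v i.succ = chg s I (κ i) := fun i => by rw [hv]; rfl
  have hvadm : ∀ b, Adm r q w M (v b) := by
    intro b
    refine Fin.cases ?_ (fun i => ?_) b
    · rw [hv0]
      exact hadm
    · rw [hvs]
      exact hadm.chg hI (hpos _ _) (hgap _ _ (hκs i))
  choose J hJ1 hJ2 using fun b => hA.seq hM (hvadm b)
  obtain ⟨C, hC⟩ : ∃ C : Fin (lam + 1) → K, ∀ b, C b = ∏ t, cdet A (J b t) := ⟨_, fun _ => rfl⟩
  have hC0 : ∀ b, C b ≠ 0 := fun b => by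
    rw [hC]
    exact Finset.prod_ne_zero_iff.2 fun t _ => cdet_ne' (hJ1 b t)
  have hCa : ∀ b, IsAlgebraic L (C b) := fun b => by
    rw [hC]
    have h1 : (∏ t, cdet A (J b t)) ∈ algebraicClosure L K :=
      prod_mem fun t _ => mem_algebraicClosure_iff.2 (hA.alg_cdet _)
    exact mem_algebraicClosure_iff.1 h1
  refine ⟨M, hM, hl, v, J, hvadm, hJ2, ?_⟩
  have hG : ∀ l : Fin e, ∃ D : Derivation L K K, ∀ x, D (u x) = if σ x = l then 1 else 0 :=
    fun l => exists_der (L := L) u hu _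
  choose G hG using hG
  have hval : ∀ b, movf σ A u M (v b) (∏ t, cdet A (J b t)) (fun i =>
      (G i).restrictScalars ℂ) = C b / ∏ j, ∏ i, lmv A u j i ^ v b j i := by
    intro b
    unfold movf
    have h1 : (Matrix.of fun i l => ((G i).restrictScalars ℂ) (u (σ.symm l))) = 1 := by
      ext i l
      rw [Matrix.of_apply, Matrix.one_apply]
      have h2 := hG i (σ.symm l)
      rw [Equiv.apply_symm_apply] at h2
      change (G i) (u (σ.symm l)) = _
      rw [h2]
      by_cases h : i = l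
      · rw [if_pos h, if_pos h.symm]
      · rw [if_neg h, if_neg (Ne.symm h)]
    rw [h1, Matrix.det_one, one_pow, mul_one, ← hC]
  have hden : ∀ b, ∏ j, ∏ i, lmv A u j i ^ v b j i ≠ 0 := fun b =>
    Finset.prod_ne_zero_iff.2 fun j _ => Finset.prod_ne_zero_iff.2 fun i _ => pow_ne_zero _ (hl j i)
  refine ⟨G, ?_, ?_⟩
  · change movf σ A u M (v 0) (∏ t, cdet A (J 0 t)) (fun i => (G i).restrictScalars ℂ) ≠ 0
    rw [hval]
    exact div_ne_zero (hC0 0) (hden 0)
  · simp only [hval]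
    have h1 : ∀ i : Fin lam, C i.succ / (∏ j, ∏ i', lmv A u j i' ^ v i.succ j i') /
        (C 0 / ∏ j, ∏ i', lmv A u j i' ^ v 0 j i') = (C i.succ / C 0) * quo A u I (κ i) := by
      intro i
      have h2 := chg_prod (s := s) hI (x := κ i) (hpos _ _) (lmv A u)
      rw [← hvs, ← hv0] at h2
      have h3 := hden i.succ
      have h4 := hden 0
      have h5 := hC0 0
      have h6 := hl (κ i).1 (I (κ i).1 0)
      change _ = (C i.succ / C 0) * (lmv A u (κ i).1 (I (κ i).1 (κ i).2.succ) /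
        lmv A u (κ i).1 (I (κ i).1 0))
      rw [div_div_div_eq, div_mul_div_comm, div_eq_div_iff (mul_ne_zero h3 h5)
        (mul_ne_zero h5 h6)]
      linear_combination (-(C i.succ * C 0)) * h2
    rw [funext h1]
    obtain ⟨κ', hκ'⟩ : ∃ κ' : (Σ j, Fin (r j)) → K, ∀ x, κ' x =
        if h : ∃ i, κ i = x then C h.choose.succ / C 0 else 1 := ⟨_, fun _ => rfl⟩
    have h2 : ∀ i, κ' (κ i) = C i.succ / C 0 := by
      intro i
      have h3 : ∃ i', κ i' = κ i := ⟨i, rfl⟩
      rw [hκ', dif_pos h3, hκ h3.choose_spec]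
    have h3 := quo_basis_lc hA hu hl hId (κ := κ') (fun x => by
        rw [hκ']
        split_ifs with h
        · exact mem_algebraicClosure_iff.1 (div_mem (mem_algebraicClosure_iff.2 (hCa _))
            (mem_algebraicClosure_iff.2 (hCa 0)))
        · exact isAlgebraic_one)
      (fun x => by
        rw [hκ']
        split_ifs with h
        · exact div_ne_zero (hC0 _) (hC0 0)
        · exact one_ne_zero)
    have h4 := h3.1.comp κ hκ
    have h5 : (fun i => (C i.succ / C 0) * quo A u I (κ i)) =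
        (fun x => κ' x * quo A u I x) ∘ κ := by
      funext i
      change _ = κ' (κ i) * quo A u I (κ i)
      rw [h2]
    rw [h5]
    exact h4

end

end Pool.Agent.Y191
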