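import Pool.Agent.Y191.LcForm
import Pool.Agent.Y191.CorMain

/-!
Sections along the fibres from a log canonical arrangement on a finite extension.
-/

set_option autoImplicit false
set_option linter.overlappingInstances false
set_option linter.unusedSectionVars false

open FF Pool.Agent.W602.GT Pool.Agent.W603.LV Pool.Agent.TH585.SV Pool.Agent.W619.PQ
open Pool.Agent.Y172

namespace Pool.Agent.Y191

section

variable {K K' : Type} [Field K] [Field K'] [Algebra ℂ K] [Algebra ℂ K'] [Algebra K K']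
  [IsScalarTower ℂ K K'] [FiniteDimensional K K'] {c : ℕ} {r q : Fin c → ℕ}
variable {A : ∀ j, Fin (q j) → Fin (r j + 1) → K'} {u : (Σ j, Fin (r j)) → K'}
variable {L : IntermediateField ℂ K} {w : ∀ j, Fin (q j) → ℚ}

open Classical in
/-- The greatest sum of multiplicities `e (I k)`, over all sets of `r j + 1` hyperplanes of the `j`-th
factor without a common point. -/
noncomputable def mx (A : ∀ j, Fin (q j) → Fin (r j + 1) → K') (j : Fin c) (e : Fin (q j) → ℕ) : ℕ :=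
  (Finset.univ.filter fun I : Fin (r j + 1) → Fin (q j) =>
    (Matrix.of fun k a => A j (I k) a).det ≠ 0).sup fun I => ∑ k, e (I k)

open Classical in
/-- The multiplicities at the places of the extension over the prime divisors which are trivial on
`L`: if `ε` is the ramification index, and `e j i` are the multiplicities of the hyperplanes, then
`ε (1 - δ) ≤ ∑ (mx (e j) - ∑ w j i * e j i)`, or `ε (1 - δ) ≤ 1` if all `e j i` are zero. -/
def LcHor (L : IntermediateField ℂ K) (A : ∀ j, Fin (q j) → Fin (r j + 1) → K')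
    (u : (Σ j, Fin (r j)) → K') (w : ∀ j, Fin (q j) → ℚ) (X : Set (Place ℂ K))
    (δ : Place ℂ K → ℝ) : Prop :=
  ∀ P ∈ X, (∀ f ∈ L, f ≠ 0 → P.ord f = 0) → ∀ (Q : Place ℂ K') (ε : ℕ), Over Q P ε →
    ∀ (c' : Fin c → ℤ) (e : ∀ j, Fin (q j) → ℕ),
      (∀ j, MOrd Q (A j) (hcd u j) (c' j) (e j)) → (ε : ℝ) * (1 - δ P) ≤
        if ∃ j i, e j i ≠ 0 then ∑ j, ((mx A j (e j) : ℝ) - ∑ i, (w j i : ℝ) * e j i) else 1

/-- **The forms along the fibres.** -/
theorem lc_low {N e lam : ℕ} (hL : Algebra.trdeg L K = e)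
    (hA : LcArr (upF K' L) A w) (σ : (Σ j, Fin (r j)) ≃ Fin e)
    (hu : IsTranscendenceBasis (upF K' L) u) (hw0 : ∀ j i, 0 ≤ w j i)
    (hws : ∀ j, (r j + 1 : ℚ) ≤ ∑ i, w j i)
    {κ : Fin lam → Σ j, Fin (r j)} (hκ : Function.Injective κ)
    (hκs : ∀ i, (r (κ i).1 + 1 : ℚ) < ∑ i', w (κ i).1 i') {X : Set (Place ℂ K)}
    {δ : Place ℂ K → ℝ} (hδ : ∀ P ∈ X, 0 ≤ δ P) (hH : LcHor L A u w X δ) :
    ∃ M : ℕ, 0 < M ∧ ∃ θ : Fin (lam + 1) → (Fin e → Derivation L K K) → K,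
      (∀ b, FibSec N M X δ L (θ b)) ∧ ∃ G, θ 0 G ≠ 0 ∧
        AlgebraicIndependent L (fun i : Fin lam => θ i.succ G / θ 0 G) := by
  classical
  obtain ⟨M, hM, hl, v, J, hadm, hJ, G0, hG0, hind⟩ := lc_forms hA σ hu hw0 hws hκ hκs
  refine push_gen (M := M) hM hL
    (θ' := fun b G => movf σ A u M (v b) (∏ t, cdet A (J b t)) fun i => (G i).restrictScalars ℂ)
    (fun b => movf_pluri σ _ _) ?_ ⟨G0, hG0, hind⟩
  intro P hP hPd G G' hG hG' Q ε hQ b
  change movf σ A u M (v b) (∏ t, cdet A (J b t)) (fun i => (G' i).restrictScalars ℂ) = 0 ∨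
    -((M : ℝ) * (ε * δ P)) ≤ (Q.ord (movf σ A u M (v b) (∏ t, cdet A (J b t))
      fun i => (G' i).restrictScalars ℂ) : ℝ)
  have hkA : ∀ l j i k, ((G' l).restrictScalars ℂ) (A j i k) = 0 := fun l j i k =>
    der_alg (G' l) ((hA.1 j i).2 k)
  have hM0 : (0 : ℝ) ≤ M := Nat.cast_nonneg _
  have hε0 : (0 : ℝ) ≤ ε := Nat.cast_nonneg _
  by_cases htr : ∀ f ∈ L, f ≠ 0 → P.ord f = 0
  · have hup : ∀ f ∈ upF K' L, f ≠ 0 → Q.ord f = 0 := by
      rintro f hf hf0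
      obtain ⟨a, ha, rfl⟩ := mem_upF.1 hf
      have ha0 : a ≠ 0 := fun h => hf0 (by rw [h, map_zero])
      rw [hQ.2, htr a ha ha0, mul_zero]
    have hAge : ∀ j i k, Ge Q 0 (A j i k) := fun j i k => triv_ge hup ((hA.1 j i).2 k)
    have hC : Ge Q 0 (∏ t, cdet A (J b t)) := by
      have := Ge.prod (P := Q) Finset.univ (fun t => cdet A (J b t)) (fun _ => 0)
        (fun t _ => triv_ge hup (hA.alg_cdet (J b t)))
      simpa using this
    have ho : ∀ j, ∃ c' ε, MOrd Q (A j) (hcd u j) c' ε := fun j =>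
      exists_mord (hAge j) ⟨0, by rw [hcd_zero]; exact one_ne_zero⟩ (hl j)
    choose c' e' ho using ho
    have hlo : ∀ j i, Q.ord (lmv A u j i) = c' j + e' j i := fun j i => (ho j).2.2 i
    have hH' := hH P hP htr Q ε hQ c' e' ho
    have hbas : ∀ j, ∃ I : Fin (r j + 1) → Fin (q j),
        (Matrix.of fun k a => A j (I k) a).det ≠ 0 ∧ mx A j (e' j) = ∑ k, e' j (I k) := by
      intro j
      obtain ⟨I, hI, -⟩ := hA.pos_basis hw0 hws j
      obtain ⟨I', hI', h2⟩ := Finset.exists_mem_eq_sup (Finset.univ.filter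
        fun I : Fin (r j + 1) → Fin (q j) => (Matrix.of fun k a => A j (I k) a).det ≠ 0)
        ⟨I, Finset.mem_filter.2 ⟨Finset.mem_univ _, hI⟩⟩ fun I => ∑ k, e' j (I k)
      exact ⟨I', (Finset.mem_filter.1 hI').2, h2⟩
    choose I hI hIm using hbas
    have hd : ∀ j, (Matrix.of fun k a => A j (I j k) a).det ≠ 0 ∧
        Q.ord (Matrix.of fun k a => A j (I j k) a).det = 0 := fun j =>
      ⟨hI j, triv_ord0 hup (alg_det fun k a => (hA.1 _ _).2 _) (hI j)⟩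
    by_cases he : ∃ j i, e' j i ≠ 0
    · rw [if_pos he] at hH'
      have h1 := movf_lc σ (hadm b).1 hC hd hl hkA (ν := ε)
        (lift_det (f := fun l => quo A u I (σ.symm l)) hL hQ hG hG').1 ho
      rcases h1 with h1 | h1
      · exact Or.inl h1
      right
      have h3 : ((∑ j, ((M : ℤ) * ∑ k, (e' j (I j k) : ℤ) - ∑ i, (v b j i : ℤ) * e' j i) -
          M * (ε : ℤ) : ℤ) : ℝ) ≤
          (Q.ord (movf σ A u M (v b) (∏ t, cdet A (J b t))
            fun i => (G' i).restrictScalars ℂ) : ℝ) := by exact_mod_cast h1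
      refine le_trans ?_ h3
      push_cast
      have h4 : (M : ℝ) * ∑ j, ((mx A j (e' j) : ℝ) - ∑ i, (w j i : ℝ) * e' j i) ≤
          ∑ j, ((M : ℝ) * ∑ k, (e' j (I j k) : ℝ) - ∑ i, (v b j i : ℝ) * e' j i) := by
        rw [Finset.mul_sum]
        refine Finset.sum_le_sum fun j _ => ?_
        rw [hIm j, mul_sub, Finset.mul_sum (f := fun i => (w j i : ℝ) * e' j i)]
        push_cast
        refine sub_le_sub_left (Finset.sum_le_sum fun i _ => ?_) _
        have h5 : (v b j i : ℝ) ≤ M * w j i := by exact_mod_cast (hadm b).2 j i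
        have h6 : (0 : ℝ) ≤ e' j i := Nat.cast_nonneg _
        nlinarith
      have h5 := mul_le_mul_of_nonneg_left hH' hM0
      nlinarith
    · rw [if_neg he] at hH'
      push Not at he
      have h1 := movf_lc σ (hadm b).1 hC hd hl hkA (ν := ε - 1) (by
        have h2 := (lift_det (f := fun l => quo A u I (σ.symm l)) hL hQ hG hG').2 htr
          (fun l => by
            change Q.ord (lmv A u _ _ / lmv A u _ _) = 0
            rw [Q.ord_div (hl _ _) (hl _ _), hlo, hlo, he, he, sub_self])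
        rw [neg_sub]
        exact h2) ho
      rcases h1 with h1 | h1
      · exact Or.inl h1
      right
      have h2 : ∑ j, ((M : ℤ) * ∑ k, (e' j (I j k) : ℤ) - ∑ i, (v b j i : ℤ) * e' j i) = 0 :=
        Finset.sum_eq_zero fun j _ => by simp [he]
      rw [h2, zero_sub] at h1
      have h3 : ((-(M * ((ε : ℤ) - 1)) : ℤ) : ℝ) ≤
          (Q.ord (movf σ A u M (v b) (∏ t, cdet A (J b t))
            fun i => (G' i).restrictScalars ℂ) : ℝ) := by exact_mod_cast h1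
      refine le_trans ?_ h3
      push_cast
      have h5 := mul_le_mul_of_nonneg_left hH' hM0
      nlinarith
  · push Not at htr
    obtain ⟨a, haL, ha0, hao⟩ := htr
    have h1 : ∀ l, DerLog Q ((G' l).restrictScalars ℂ) := by
      intro l
      have h2 : DerLog P ((G l).restrictScalars ℂ) := by
        intro f
        by_cases hf : f = 0
        · left
          rw [hf, div_zero]
        · exact log_of_const (a := a) (fun f hf => hG l f hf)
            ((G l).map_algebraMap (⟨a, haL⟩ : L)) hao hf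
      exact lift_log hQ h2 (fun f => hG' l f)
    have h2 := movf_log σ (hJ b) hl hkA (P := Q) fun l f hf => (reg_iff_ge _ _).1 (h1 l f)
    rcases h2 with h2 | h2
    · exact Or.inl h2
    · right
      have h3 : (0 : ℝ) ≤ (Q.ord (movf σ A u M (v b) (∏ t, cdet A (J b t))
          fun i => (G' i).restrictScalars ℂ) : ℝ) := by exact_mod_cast h2
      have h4 := mul_nonneg hM0 (mul_nonneg hε0 (hδ P hP))
      linarith

/-- **Small multiplicities over the base.** -/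
theorem lc_small {n q' d p e lam : ℕ} (hd : 0 < d) {ℓ : Fin q' → Fin (n + 1) → ℂ}
    (hI : Independent d ℓ) (hg : GeneralPosition ℓ) (hq : n + 1 ≤ q') {b : Fin (n + 1) → K}
    (hl : ∀ i, lf (ℓ i) b ≠ 0) (hb : ∃ j, b j ≠ 0) (htr : Algebra.trdeg ℂ (RF ℂ b) = p)
    (hK : Algebra.trdeg ℂ K = (p + e : ℕ)) {wt : Fin q' → ℚ} (hwt0 : ∀ i, 0 ≤ wt i)
    (hlt : (((p + 1) * gam (n - p) (d + 1) : ℕ) : ℚ) ≤ ∑ i, wt i)
    {X : Set (Place ℂ K)} {δ : Place ℂ K → ℝ} (hδ : ∀ P ∈ X, 0 ≤ δ P)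
    (hmult : ∀ P ∈ X, Divisorial (p + e) P → ∀ (c : ℤ) (e : Fin q' → ℕ), OrdData P ℓ b c e →
      ((min (Finset.univ.filter fun i => e i ≠ 0).card (gam (n - p) (d + 1)) : ℕ) : ℝ) ≤
        gam (n - p) (d + 1) * δ P + ∑ i, (1 - (wt i : ℝ)) * e i)
    (hA : LcArr (upF K' (RF ℂ b)) A w) (σ : (Σ j, Fin (r j)) ≃ Fin e)
    (hu : IsTranscendenceBasis (upF K' (RF ℂ b)) u)
    (hw0 : ∀ j i, 0 ≤ w j i) (hws : ∀ j, (r j + 1 : ℚ) ≤ ∑ i, w j i)
    {κ : Fin lam → Σ j, Fin (r j)} (hκ : Function.Injective κ)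
    (hκs : ∀ i, (r (κ i).1 + 1 : ℚ) < ∑ i', w (κ i).1 i') (hH : LcHor (RF ℂ b) A u w X δ) :
    KodairaGe (p + e) X δ lam ∧
      ((((p + 1) * gam (n - p) (d + 1) : ℕ) : ℚ) < ∑ i, wt i →
        KodairaGe (p + e) X δ (p + lam)) := by
  classical
  obtain ⟨δ₁, δ₂, h1, h2, h3, h4, h5⟩ := split_bd (RF ℂ b) hδ
  obtain ⟨M, hM, θ, hθ, hne⟩ := lc_low (N := p + e) (trdeg_RF hK htr) hA σ hu hw0 hws hκ hκs
    (X := X) (δ := δ₂) h3 (fun P hP htr' Q ε hQ c' e' ho => by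
      rw [h4 P htr']
      exact hH P hP htr' Q ε hQ c' e' ho)
  refine small_fib hd hI hg hq hl hb htr hK hwt0 hlt h1 (fun P hP hPd c e' ho => ?_) hM hθ hne
  by_cases htriv : ∀ f ∈ RF ℂ b, f ≠ 0 → P.ord f = 0
  · have h6 := triv_ord hl ho htriv
    have h7 : (Finset.univ.filter fun i => e' i ≠ 0).card = 0 := by
      rw [Finset.card_eq_zero, Finset.filter_eq_empty_iff]
      intro i _
      simp [h6 i]
    rw [h7, Nat.zero_min, Nat.cast_zero]
    have h8 : ∑ i, (1 - (wt i : ℝ)) * (e' i : ℝ) = 0 :=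
      Finset.sum_eq_zero fun i _ => by rw [h6 i]; simp
    rw [h8, add_zero]
    exact mul_nonneg (Nat.cast_nonneg _) (h2 P hP)
  · rw [h5 P htriv]
    exact hmult P hP hPd c e' ho

end

/-- **General hyperplanes over the base.** -/
theorem lc_general {n q' m Q : ℕ} (hn : 1 ≤ n) (hm : 2 ≤ m) (hQ : 2 * n * m ≤ Q * (m - 1))
    (hq : (n + Q).choose n < q') :
    ∃ Ψ : MvPolynomial (Fin q' × Fin (n + 1)) ℂ, Ψ ≠ 0 ∧
      ∀ ℓ : Fin q' → Fin (n + 1) → ℂ, MvPolynomial.eval (fun x => ℓ x.1 x.2) Ψ ≠ 0 →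
      ∀ (K : Type) [Field K] [Algebra ℂ K] (p e lam : ℕ), 1 ≤ p →
      Algebra.trdeg ℂ K = (p + e : ℕ) →
      ∀ b : Fin (n + 1) → K, (∀ i, lf (ℓ i) b ≠ 0) → (∃ j, b j ≠ 0) →
      Algebra.trdeg ℂ (RF ℂ b) = p →
      ∀ (X : Set (Place ℂ K)) (δ : Place ℂ K → ℝ), (∀ P ∈ X, 0 ≤ δ P) →
      (∀ P ∈ X, Divisorial (p + e) P → ∀ (c : ℤ) (e : Fin q' → ℕ), OrdData P ℓ b c e →
        ∀ i, e i = 0 ∨ m * (1 - δ P) ≤ e i) →
      ∀ (K' : Type) [Field K'] [Algebra ℂ K'] [Algebra K K'] [IsScalarTower ℂ K K']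
        [FiniteDimensional K K'] (c : ℕ) (r q : Fin c → ℕ)
        (A : ∀ j, Fin (q j) → Fin (r j + 1) → K')
        (u : (Σ j, Fin (r j)) → K') (w : ∀ j, Fin (q j) → ℚ),
      LcArr (upF K' (RF ℂ b)) A w → ((Σ j, Fin (r j)) ≃ Fin e) →
      IsTranscendenceBasis (upF K' (RF ℂ b)) u → (∀ j i, 0 ≤ w j i) →
      (∀ j, (r j + 1 : ℚ) ≤ ∑ i, w j i) →
      ∀ κ : Fin lam → Σ j, Fin (r j), Function.Injective κ →
      (∀ i, (r (κ i).1 + 1 : ℚ) < ∑ i', w (κ i).1 i') → LcHor (RF ℂ b) A u w X δ →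
      KodairaGe (p + e) X δ (p + lam) := by
  obtain ⟨Ψ, hΨ, h⟩ := general_fib (n := n) (q := q') hn hm hQ hq
  refine ⟨Ψ, hΨ, ?_⟩
  intro ℓ hℓ K _ _ p e lam hp hK b hl hb htr X δ hδ hmult K' _ _ _ _ _ c r q A u w hA σ hu hw0
    hws κ hκ hκs hH
  obtain ⟨δ₁, δ₂, h1, h2, h3, h4, h5⟩ := split_bd (RF ℂ b) hδ
  obtain ⟨M, hM, θ, hθ, hne⟩ := lc_low (N := p + e) (trdeg_RF hK htr) hA σ hu hw0 hws hκ hκs
    (X := X) (δ := δ₂) h3 (fun P hP htr' Q ε hQ c' e' ho => by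
      rw [h4 P htr']
      exact hH P hP htr' Q ε hQ c' e' ho)
  refine h ℓ hℓ K p e lam hp hK b hl hb htr X δ₁ δ₂ δ h2 h1 (fun P hP hPd c e' ho i => ?_) M hM θ
    hθ hne
  by_cases htriv : ∀ f ∈ RF ℂ b, f ≠ 0 → P.ord f = 0
  · exact Or.inl (triv_ord hl ho htriv i)
  · rw [h5 P htriv]
    exact hmult P hP hPd c e' ho i

end Pool.Agent.Y191
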