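import Pool.Agent.Y191.LcCan

/-!
Correspondences between varieties with canonical singularities and relative products of projective
spaces with arrangements of hyperplanes.
-/

set_option autoImplicit false
set_option linter.overlappingInstances false
set_option linter.unusedSectionVars false

open FF MvPolynomial Pool.Agent.W602.GT Pool.Agent.W603.LV Pool.Agent.W619.PQ
open Pool.Agent.Y172 Pool.Agent.TH585.SV

namespace Pool.Agent.Y191

section

variable {K : Type} [Field K] [Algebra ℂ K] {c : ℕ} {r : Fin c → ℕ} {u : (Σ j, Fin (r j)) → K}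
variable {L : IntermediateField ℂ K}

/-- the coordinates of the affine charts are transcendence bases -/
theorem chrt_basis (hu : IsTranscendenceBasis L u) (a : ∀ j, Option (Fin (r j))) :
    IsTranscendenceBasis L (chrt a u) := by
  classical
  have hcL : CharZero L := charZero_of_injective_algebraMap (algebraMap ℂ L).injective
  have hu0 : ∀ s, u s ≠ 0 := fun s => hu.1.ne_zero s
  refine basis_of_gen hu fun D hD h => ?_
  have h1 : ∀ s, D (u s) = 0 := by
    rintro ⟨j, k⟩
    rcases ha : a j with _ | l
    · have h2 := h ⟨j, k⟩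
      unfold chrt at h2
      simp only [ha] at h2
      exact h2
    · have h2 : D (u ⟨j, l⟩) = 0 := by
        have h3 := h ⟨j, l⟩
        unfold chrt at h3
        simp only [ha, if_true] at h3
        have h4 : D (u ⟨j, l⟩ * (u ⟨j, l⟩)⁻¹) = 0 := by
          rw [mul_inv_cancel₀ (hu0 _)]
          exact D.map_one_eq_zero
        rw [D.leibniz, h3, smul_zero, zero_add, smul_eq_mul] at h4
        exact (mul_eq_zero.1 h4).resolve_left (inv_ne_zero (hu0 _))
      by_cases hk : k = l
      · rw [hk]
        exact h2
      · have h3 := h ⟨j, k⟩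
        unfold chrt at h3
        simp only [ha, if_neg hk] at h3
        have h4 : D (u ⟨j, k⟩ / u ⟨j, l⟩ * u ⟨j, l⟩) = 0 := by
          rw [D.leibniz, h3, h2, smul_zero, smul_zero, add_zero]
        rwa [div_mul_cancel₀ _ (hu0 _)] at h4
  refine Pool.Agent.Y172.ext_over hu hD (fun x _ => rfl) fun s => ?_
  rw [h1 s]
  rfl

theorem adic_div {n : ℕ} (hn : Algebra.trdeg ℂ K = n) (hu : IsTranscendenceBasis L u)
    {a : ∀ j, Option (Fin (r j))} {P : Place ℂ K}
    {g : MvPolynomial (Σ j, Fin (r j)) (acl ℂ (L : Set K))} (hg : Irreducible g)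
    (hP : AdicF P (chrt a u) g) : Divisorial n P := by
  classical
  obtain ⟨p, z, e, D, hF⟩ := exists_FrF hn (acl_closed (L : Set K)) (basis_acl (chrt_basis hu a))
  exact hP.divisorial hF hg

end

section

variable {K K' : Type} [Field K] [Field K'] [Algebra ℂ K] [Algebra ℂ K'] [Algebra K K']
  [IsScalarTower ℂ K K'] [FiniteDimensional K K'] {c : ℕ} {r q : Fin c → ℕ} {N n : ℕ}
variable {A : ∀ j, Fin (q j) → Fin (r j + 1) → K'} {u : (Σ j, Fin (r j)) → K'}
variable {L : IntermediateField ℂ K'} {y : Fin (N + 1) → K} {Δ : Place ℂ K → ℚ}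
  {w : ∀ j, Fin (q j) → ℚ}

variable (K) in
/-- Ramification over the relative product of projective spaces: let `P` be a place of `K'` over the
prime divisor `g = 0` of an affine chart over the algebraic closure of `L`, with ramification index
`ρ`, and `ε` its ramification index over `K`, then `ρ - ε ≤ ∑ w j i * e j i`, where `e j i` is the
multiplicity of the `i`-th hyperplane of the `j`-th factor at `P`. -/
def RamK (L : IntermediateField ℂ K') (A : ∀ j, Fin (q j) → Fin (r j + 1) → K')
    (u : (Σ j, Fin (r j)) → K') (w : ∀ j, Fin (q j) → ℚ) : Prop :=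
  ∀ (a : ∀ j, Option (Fin (r j))) (P : Place ℂ K')
    (g : MvPolynomial (Σ j, Fin (r j)) (acl ℂ (L : Set K'))), Irreducible g →
    AdicF P (chrt a u) g → ∀ (c' : Fin c → ℤ) (e : ∀ j, Fin (q j) → ℕ),
        (∀ j, MOrd P (A j) (hcd u j) (c' j) (e j)) →
          (P.ord (aeval (chrt a u) g) - ram K P : ℚ) ≤ ∑ j, ∑ i, w j i * e j i

/-- varieties with canonical singularities -/
theorem RamK.cor (h : RamK K L A u w) (hn : Algebra.trdeg ℂ K = n) (hcan : Canonical y n)
    (hu : IsTranscendenceBasis L u) : Cor y n 0 L A u w := by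
  intro a P g hg hP
  have hn' : Algebra.trdeg ℂ K' = n := trdeg_up (K := K) hn
  have h1 : Divisorial n P := adic_div hn' hu hg hP
  have h2 : Divisorial n (bel K P) := divisorial_down (over_bel K P) h1
  refine ⟨1, hcan.disc (fun _ => rfl) h2, fun c' e ho => ?_⟩
  rw [mul_one]
  exact h a P g hg hP c' e ho

end

end Pool.Agent.Y191
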