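import Pool.Agent.Y191.Push

/-!
The regularity of the lifts of derivations along the fibres to extensions generated by elements
which are algebraic over the base.
-/

set_option autoImplicit false
set_option linter.overlappingInstances false
set_option linter.unusedSectionVars false

open FF Pool.Agent.W602.GT Pool.Agent.W603.LV Pool.Agent.W619.PQ Pool.Agent.W619.Y
open Pool.Agent.TH585.SV Pool.Agent.Y172

namespace Pool.Agent.Y191

section up

variable {K : Type} (K' : Type) [Field K] [Field K'] [Algebra ℂ K] [Algebra ℂ K'] [Algebra K K']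
  [IsScalarTower ℂ K K']

/-- the image of a subfield in an extension -/
noncomputable def upF (L : IntermediateField ℂ K) : IntermediateField ℂ K' :=
  L.map (IsScalarTower.toAlgHom ℂ K K')

variable {K'}

theorem mem_upF {L : IntermediateField ℂ K} {z : K'} :
    z ∈ upF K' L ↔ ∃ a ∈ L, algebraMap K K' a = z := by
  unfold upF
  rw [IntermediateField.mem_map]
  rfl

variable (K') in
/-- the isomorphism of the subfield with its image -/
noncomputable def upE (L : IntermediateField ℂ K) : L ≃+* upF K' L :=
  (L.equivMap (IsScalarTower.toAlgHom ℂ K K')).toRingEquiv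

end up

section lift

variable {K K' : Type} [Field K] [Field K'] [Algebra ℂ K] [Algebra ℂ K'] [Algebra K K']
  [IsScalarTower ℂ K K'] [FiniteDimensional K K']

theorem ge_of_unit {Q : Place ℂ K'} {z q : K'} (hq : q ≠ 0) (hq0 : Q.ord q = 0)
    (h : Ge Q 0 (z * q)) : Ge Q 0 z := by
  have h1 : Ge Q 0 q⁻¹ := Or.inr (by rw [Q.ord_inv, hq0, neg_zero])
  have h2 := h.mul h1
  rwa [mul_assoc, mul_inv_cancel₀ hq, mul_one, add_zero] at h2

/-- **The lifts of regular derivations along the fibres are regular.** -/
theorem lift_reg {L : IntermediateField ℂ K} {α : K'} (hα : IsAlgebraic (upF K' L) α)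
    (htop : ∀ z : K', ∃ p : Polynomial K, z = Polynomial.aeval α p)
    {P : Place ℂ K} {Q : Place ℂ K'} {ε : ℕ} (hQ : Over Q P ε) {G : Derivation ℂ K K}
    (hG : DerReg P G) (hk : Kills G L) {G' : Derivation ℂ K' K'}
    (hG' : ∀ f, G' (algebraMap K K' f) = algebraMap K K' (G f)) : DerReg Q G' := by
  classical
  have hε : (0 : ℤ) < ε := by exact_mod_cast hQ.1
  by_cases htr : ∀ f ∈ L, f ≠ 0 → P.ord f = 0
  · have hup : ∀ f ∈ upF K' L, f ≠ 0 → Q.ord f = 0 := by
      rintro f hf hf0
      obtain ⟨a, ha, rfl⟩ := mem_upF.1 hf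
      have ha0 : a ≠ 0 := fun h => hf0 (by rw [h, map_zero])
      rw [hQ.2, htr a ha ha0, mul_zero]
    have hk' : Kills G' (upF K' L) := by
      intro f hf
      obtain ⟨a, ha, rfl⟩ := mem_upF.1 hf
      rw [hG', hk a ha, map_zero]
    have hGα : G' α = 0 := kills_alg hk' hα
    obtain ⟨π0, hπ00, hπ01⟩ := P.surj
    obtain ⟨R, hR⟩ : ∃ R : Subring K', R = P.O.toSubring.map (algebraMap K K') := ⟨_, rfl⟩
    have hRm : ∀ z, z ∈ R ↔ ∃ f, P.Reg f ∧ algebraMap K K' f = z := by
      intro z
      rw [hR, Subring.mem_map]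
      rfl
    have hRge : ∀ a ∈ R, Ge Q 0 a := by
      intro a ha
      obtain ⟨f, hf, rfl⟩ := (hRm a).1 ha
      exact hQ.reg.2 hf
    have hinv : ∀ a ∈ R, a ≠ 0 → Q.ord a = 0 → a⁻¹ ∈ R := by
      intro a ha ha0 hao
      obtain ⟨f, hf, rfl⟩ := (hRm a).1 ha
      refine (hRm _).2 ⟨f⁻¹, Or.inr ?_, map_inv₀ _ _⟩
      rw [hQ.2] at hao
      rw [P.ord_inv]
      rcases mul_eq_zero.1 hao with h | h
      · omega
      · omega
    have hπm : algebraMap K K' π0 ∈ R := (hRm _).2 ⟨π0, Or.inr (by omega), rfl⟩
    have hπ0 : algebraMap K K' π0 ≠ 0 := by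
      rw [Ne, map_eq_zero]
      exact hπ00
    have hπo : Q.ord (algebraMap K K' π0) = ε := by rw [hQ.2, hπ01, mul_one]
    have hdiv : ∀ a ∈ R, Ge Q 1 a → ∃ s ∈ R, a = algebraMap K K' π0 * s := by
      intro a ha ha1
      obtain ⟨f, hf, rfl⟩ := (hRm a).1 ha
      refine ⟨algebraMap K K' (f / π0), (hRm _).2 ⟨_, ?_, rfl⟩, ?_⟩
      · by_cases hf0 : f = 0
        · left
          rw [hf0, zero_div]
        · right
          rw [P.ord_div hf0 hπ00, hπ01]
          rcases ha1 with h | h
          · rw [map_eq_zero] at h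
            exact absurd h hf0
          · rw [hQ.2] at h
            have : 0 < P.ord f := by
              by_contra hcon
              push Not at hcon
              nlinarith
            omega
      · rw [← map_mul, mul_div_cancel₀ _ hπ00]
    -- the polynomial
    have hint : IsIntegral (upF K' L) α := hα.isIntegral
    let φ : upF K' L →+* R := (algebraMap (upF K' L) K').codRestrict R (by
      rintro ⟨z, hz⟩
      obtain ⟨a, ha, rfl⟩ := mem_upF.1 hz
      refine (hRm _).2 ⟨a, ?_, rfl⟩
      by_cases h0 : a = 0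
      · exact Or.inl h0
      · exact Or.inr (htr a ha h0).ge)
    have hφ : (algebraMap R K').comp φ = algebraMap (upF K' L) K' := rfl
    have hae : ∀ p : Polynomial (upF K' L),
        Polynomial.aeval α (p.map φ) = Polynomial.aeval α p := by
      intro p
      rw [Polynomial.aeval_def, Polynomial.eval₂_map, hφ, Polynomial.aeval_def]
    obtain ⟨H, hH⟩ : ∃ H : Polynomial (upF K' L), H = minpoly (upF K' L) α := ⟨_, rfl⟩
    have hHm : H.Monic := by
      rw [hH]
      exact minpoly.monic hint
    have hHs : H.Separable := by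
      rw [hH]
      exact (minpoly.irreducible hint).separable
    have hH0 : Polynomial.aeval α H = 0 := by
      rw [hH]
      exact minpoly.aeval _ _
    have hH' : Polynomial.aeval α (Polynomial.derivative H) ≠ 0 := by
      intro h0
      obtain ⟨a, b, hab⟩ := hHs
      have h1 := congrArg (Polynomial.aeval α) hab
      rw [map_add, map_mul, map_mul, hH0, h0, mul_zero, mul_zero, add_zero, map_one] at h1
      exact zero_ne_one h1
    have hH'a : IsAlgebraic (upF K' L) (Polynomial.aeval α (Polynomial.derivative H)) := by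
      have h1 : Polynomial.aeval α (Polynomial.derivative H) ∈ algebraicClosure (upF K' L) K' := by
        rw [Polynomial.aeval_eq_sum_range]
        refine sum_mem fun i _ => ?_
        rw [Algebra.smul_def]
        exact mul_mem (algebraMap_mem _ _) (pow_mem (mem_algebraicClosure_iff.2 hα) _)
      exact mem_algebraicClosure_iff.1 h1
    have hαge : Ge Q 0 α := triv_ge hup hα
    obtain ⟨q, hq0, hqo, hq⟩ := unr_str hRge hinv hπm hdiv hπ0 (by rw [hπo]; omega) hαge
      (H := H.map φ) (hHm.map φ) (by rw [hae, hH0]) (by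
        rw [Polynomial.derivative_map, hae]
        exact not_ge_one hH' (triv_ord0 hup hH'a hH'))
    -- the derivatives of the polynomials
    have hder : ∀ A : Polynomial R, Ge Q 0 (G' (Polynomial.aeval α A)) := by
      intro A
      rw [Polynomial.aeval_eq_sum_range, map_sum]
      refine Ge.sum _ _ fun i _ => ?_
      obtain ⟨f, hf, hfa⟩ := (hRm _).1 (A.coeff i).2
      have h1 : A.coeff i • α ^ i = algebraMap K K' f * α ^ i := by
        rw [hfa]
        rfl
      rw [h1, G'.leibniz, G'.leibniz_pow, hGα, smul_zero, smul_zero, smul_zero, zero_add, hG',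
        smul_eq_mul]
      have h2 := (hαge.pow i).mul (hQ.reg.2 (hG f hf) : Ge Q 0 _)
      rwa [mul_zero, zero_add] at h2
    have hreg : ∀ A : Polynomial R, Ge Q 0 (Polynomial.aeval α A) := fun A =>
      aeval_ge hαge fun i => hRge _ (A.coeff i).2
    intro f hf
    obtain ⟨p, rfl⟩ := htop f
    obtain ⟨n, hn⟩ : ∃ n : ℕ, ∀ i ∈ Finset.range (p.natDegree + 1), P.Reg (π0 ^ n * p.coeff i) := by
      refine ⟨∑ i ∈ Finset.range (p.natDegree + 1), (P.ord (p.coeff i)).natAbs, fun i hi => ?_⟩
      by_cases h0 : p.coeff i = 0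
      · left
        rw [h0, mul_zero]
      · right
        rw [P.ord_mul (pow_ne_zero _ hπ00) h0, P.ord_pow, hπ01, mul_one]
        have h1 : (P.ord (p.coeff i)).natAbs ≤
            ∑ i ∈ Finset.range (p.natDegree + 1), (P.ord (p.coeff i)).natAbs :=
          Finset.single_le_sum (f := fun i => (P.ord (p.coeff i)).natAbs)
            (fun _ _ => Nat.zero_le _) hi
        omega
    have hmem : ∀ i, algebraMap K K' (π0 ^ n * p.coeff i) ∈ R := by
      intro i
      by_cases hi : i ∈ Finset.range (p.natDegree + 1)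
      · exact (hRm _).2 ⟨_, hn i hi, rfl⟩
      · rw [Finset.mem_range, not_lt] at hi
        rw [Polynomial.coeff_eq_zero_of_natDegree_lt (by omega), mul_zero, map_zero]
        exact zero_mem R
    obtain ⟨A, hA⟩ : ∃ A : Polynomial R, Polynomial.aeval α A =
        algebraMap K K' π0 ^ n * Polynomial.aeval α p := by
      refine ⟨∑ i ∈ Finset.range (p.natDegree + 1), Polynomial.monomial i
        (⟨_, hmem i⟩ : R), ?_⟩
      rw [map_sum, Polynomial.aeval_eq_sum_range, Finset.mul_sum]
      refine Finset.sum_congr rfl fun i _ => ?_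
      rw [Polynomial.aeval_monomial]
      change algebraMap K K' (π0 ^ n * p.coeff i) * α ^ i = _
      rw [map_mul, map_pow, Algebra.smul_def, mul_assoc]
    obtain ⟨C, hC⟩ := hq n A (by
      rw [hA, hπo]
      have h1 : Ge Q (ε : ℤ) (algebraMap K K' π0) := Or.inr hπo.ge
      have h2 := (h1.pow n).mul hf
      rwa [add_zero] at h2)
    rw [hA, mul_assoc] at hC
    have hC' := mul_left_cancel₀ (pow_ne_zero n hπ0) hC
    have h1 := congrArg G' hC'
    rw [G'.leibniz] at h1
    have h2 : Ge Q 0 (Polynomial.aeval α p * G' (Polynomial.aeval α q ^ n)) := by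
      rw [← map_pow]
      have h3 := Ge.mul (show Ge Q 0 (Polynomial.aeval α p) from hf) (hder (q ^ n))
      rwa [add_zero] at h3
    have h3 : G' (Polynomial.aeval α p) * Polynomial.aeval α q ^ n =
        G' (Polynomial.aeval α C) - Polynomial.aeval α p * G' (Polynomial.aeval α q ^ n) := by
      rw [← h1, smul_eq_mul, smul_eq_mul]
      ring
    have h4 : Ge Q 0 (G' (Polynomial.aeval α p) * Polynomial.aeval α q ^ n) := by
      rw [h3]
      exact (hder C).sub h2
    exact ge_of_unit (pow_ne_zero n hq0) (by rw [Q.ord_pow, hqo, mul_zero]) h4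
  · push Not at htr
    obtain ⟨a, haL, ha0, hao⟩ := htr
    have h1 : DerLog P G := by
      intro f
      by_cases hf : f = 0
      · left
        rw [hf, div_zero]
      · exact log_of_const hG (hk a haL) hao hf
    have h2 : DerLog Q G' := lift_log hQ h1 hG'
    intro f hf
    exact DerLog.ge h2 hf

end lift

end Pool.Agent.Y191
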