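import Pool.Agent.Y191.MovForm
import Pool.Agent.Y191.GenFib
import Pool.Agent.Y172.Alg

/-!
The forms of a family of arrangements of hyperplanes are sections along the fibres.
-/

set_option autoImplicit false
set_option linter.unusedSectionVars false

open FF Pool.Agent.W602.GT Pool.Agent.W603.LV Pool.Agent.TH585.SV
open Pool.Agent.Y172 (Kills kills_alg liftD)

namespace Pool.Agent.Y191

section

variable {K : Type} [Field K] [Algebra ℂ K]

/-- places which are trivial on `L` are trivial on the algebraic elements -/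
theorem triv_ge {P : Place ℂ K} {L : IntermediateField ℂ K} (hP : ∀ f ∈ L, f ≠ 0 → P.ord f = 0)
    {a : K} (ha : IsAlgebraic L a) : Ge P 0 a := by
  by_cases ha0 : a = 0
  · exact Or.inl ha0
  right
  by_contra hcon
  push Not at hcon
  obtain ⟨p, hp, he⟩ := ha.isIntegral
  rw [Polynomial.eval₂_eq_sum_range, Finset.sum_range_succ, hp.coeff_natDegree, map_one,
    one_mul] at he
  have hn : 0 < p.natDegree := by
    rw [Nat.pos_iff_ne_zero]
    intro h0
    rw [h0, Finset.sum_range_zero, zero_add, pow_zero] at he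
    exact one_ne_zero he
  have h1 : Ge P (((p.natDegree : ℤ) - 1) * P.ord a)
      (∑ i ∈ Finset.range p.natDegree, algebraMap L K (p.coeff i) * a ^ i) := by
    refine Ge.sum _ _ fun i hi => ?_
    have hi' : (i : ℤ) ≤ p.natDegree - 1 := by
      have := Finset.mem_range.1 hi
      omega
    have h2 : Ge P 0 (algebraMap L K (p.coeff i)) := by
      by_cases h0 : algebraMap L K (p.coeff i) = 0
      · exact Or.inl h0
      · exact Or.inr (hP _ (p.coeff i).2 h0).ge
    refine (h2.mul ((Pool.Agent.W602.GT.ge_ord P a).pow i)).mono ?_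
    nlinarith
  have h2 : a ^ p.natDegree =
      -(∑ i ∈ Finset.range p.natDegree, algebraMap L K (p.coeff i) * a ^ i) := by
    linear_combination he
  have h3 := h1.neg
  rw [← h2] at h3
  have h4 := h3.resolve_left (pow_ne_zero _ ha0)
  rw [P.ord_pow] at h4
  nlinarith

theorem triv_ord0 {P : Place ℂ K} {L : IntermediateField ℂ K}
    (hP : ∀ f ∈ L, f ≠ 0 → P.ord f = 0) {a : K} (ha : IsAlgebraic L a) (ha0 : a ≠ 0) :
    P.ord a = 0 := by
  have h1 := (triv_ge hP ha).resolve_left ha0
  have h2 := (triv_ge hP ha.inv).resolve_left (inv_ne_zero ha0)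
  rw [P.ord_inv] at h2
  omega

theorem alg_det {L : IntermediateField ℂ K} {ι : Type} [Fintype ι] [DecidableEq ι]
    {A : Matrix ι ι K} (hA : ∀ i j, IsAlgebraic L (A i j)) : IsAlgebraic L A.det := by
  have h1 : A.det ∈ algebraicClosure L K := by
    rw [Matrix.det_apply']
    refine sum_mem fun σ _ => mul_mem ?_ (prod_mem fun i _ => mem_algebraicClosure_iff.2 (hA _ _))
    exact intCast_mem _ _
  exact mem_algebraicClosure_iff.1 h1

end

section

variable {K : Type} [Field K] [Algebra ℂ K] {c : ℕ} {r q : Fin c → ℕ}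
variable {A : ∀ j, Fin (q j) → Fin (r j + 1) → K} {u : (Σ j, Fin (r j)) → K}
variable {L : IntermediateField ℂ K}

/-- The coefficients of the linear forms are algebraic over `L`, and the hyperplanes are in general
position. -/
def MovArr (L : IntermediateField ℂ K) (A : ∀ j, Fin (q j) → Fin (r j + 1) → K) : Prop :=
  (∀ j i k, IsAlgebraic L (A j i k)) ∧ ∀ j (I : Fin (r j + 1) → Fin (q j)), Function.Injective I →
    (Matrix.of fun k a => A j (I k) a).det ≠ 0

theorem MovArr.alg_cdet (hA : MovArr L A) (I : ∀ j, Fin (r j + 1) → Fin (q j)) :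
    IsAlgebraic L (cdet A I) := by
  have h1 : cdet A I ∈ algebraicClosure L K := by
    unfold cdet
    exact prod_mem fun j _ => mem_algebraicClosure_iff.2 (alg_det fun k a => hA.1 _ _ _)
  exact mem_algebraicClosure_iff.1 h1

theorem MovArr.cdet_ne (hA : MovArr L A) {I : ∀ j, Fin (r j + 1) → Fin (q j)}
    (hI : ∀ j, Function.Injective (I j)) : cdet A I ≠ 0 :=
  Finset.prod_ne_zero_iff.2 fun j _ => hA.2 j (I j) (hI j)

/-- **The forms are sections along the fibres.** -/
theorem mov_fib {N e M : ℕ} (hA : MovArr L A) (σ : (Σ j, Fin (r j)) ≃ Fin e)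
    (hq : ∀ j, r j + 1 ≤ q j) (hl : ∀ j i, lmv A u j i ≠ 0) {s : ∀ j, Fin (q j) → ℕ}
    (hs : ∀ j, ∑ i, s j i = (r j + 1) * M) {w : ∀ j, Fin (q j) → ℚ}
    (hsw : ∀ j i, (s j i : ℚ) ≤ M * w j i) {I : Fin M → ∀ j, Fin (r j + 1) → Fin (q j)}
    (hI : ∀ j (f : Fin (q j) → K), ∏ t, ∏ k, f (I t j k) = ∏ i, f i ^ s j i)
    {X : Set (Place ℂ K)} {δ : Place ℂ K → ℝ} (hδ : ∀ P ∈ X, 0 ≤ δ P)
    (hmult : ∀ P ∈ X, (∀ f ∈ L, f ≠ 0 → P.ord f = 0) → ∀ (c' : Fin c → ℤ)
      (ε : ∀ j, Fin (q j) → ℕ), (∀ j, MOrd P (A j) (hcd u j) (c' j) (ε j)) →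
      (∃ j i, ε j i ≠ 0) → 1 ≤ δ P + ∑ j, ∑ i, (1 - (w j i : ℝ)) * ε j i) :
    FibSec N M X δ L (fun G : Fin e → Derivation L K K =>
      movf σ A u M s (∏ t, cdet A (I t)) fun i => (G i).restrictScalars ℂ) := by
  classical
  refine ⟨fun B G => ?_, fun P hPX _ G hG => ?_⟩
  · have h1 : (Matrix.of fun i l => ((∑ l', B i l' • G l' : Derivation L K K).restrictScalars ℂ)
        (u (σ.symm l))) = B * Matrix.of fun i l => ((G i).restrictScalars ℂ) (u (σ.symm l)) := by
      ext i l
      rw [Matrix.mul_apply, Matrix.of_apply]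
      have h2 : (∑ l', B i l' • G l') (u (σ.symm l)) = ∑ l', B i l' * G l' (u (σ.symm l)) := by
        rw [← Derivation.coeFnAddMonoidHom_apply, map_sum, Finset.sum_apply]
        rfl
      exact h2
    change (∏ t, cdet A (I t)) * (Matrix.of fun i l =>
      ((∑ l', B i l' • G l' : Derivation L K K).restrictScalars ℂ) (u (σ.symm l))).det ^ M / _ =
      B.det ^ M * ((∏ t, cdet A (I t)) * (Matrix.of fun i l =>
        ((G i).restrictScalars ℂ) (u (σ.symm l))).det ^ M / _)
    rw [h1, Matrix.det_mul, mul_pow]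
    ring
  · have hG' : ∀ l j i k, ((G l).restrictScalars ℂ) (A j i k) = 0 := fun l j i k =>
      der_alg (G l) (hA.1 j i k)
    have hM0 : (0 : ℝ) ≤ M := Nat.cast_nonneg _
    have hfin : Ge P 0 (movf σ A u M s (∏ t, cdet A (I t)) fun i => (G i).restrictScalars ℂ) →
        movf σ A u M s (∏ t, cdet A (I t)) (fun i => (G i).restrictScalars ℂ) = 0 ∨
        -(M * δ P) ≤ (P.ord (movf σ A u M s (∏ t, cdet A (I t))
          fun i => (G i).restrictScalars ℂ) : ℝ) := by
      rintro (h | h)
      · exact Or.inl h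
      · right
        have h1 : (0 : ℝ) ≤ (P.ord (movf σ A u M s (∏ t, cdet A (I t))
          fun i => (G i).restrictScalars ℂ) : ℝ) := by exact_mod_cast h
        have h2 := mul_nonneg hM0 (hδ P hPX)
        linarith
    by_cases htr : ∀ f ∈ L, f ≠ 0 → P.ord f = 0
    · have hAge : ∀ j i k, Ge P 0 (A j i k) := fun j i k => triv_ge htr (hA.1 j i k)
      have hd : ∀ j (I : Fin (r j + 1) → Fin (q j)), Function.Injective I →
          (Matrix.of fun k a => A j (I k) a).det ≠ 0 ∧
          P.ord (Matrix.of fun k a => A j (I k) a).det = 0 := fun j I hI =>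
        ⟨hA.2 j I hI, triv_ord0 htr (alg_det fun k a => hA.1 _ _ _) (hA.2 j I hI)⟩
      have hC : Ge P 0 (∏ t, cdet A (I t)) := by
        have := Ge.prod (P := P) Finset.univ (fun t => cdet A (I t)) (fun _ => 0)
          (fun t _ => triv_ge htr (hA.alg_cdet (I t)))
        simpa using this
      have ho : ∀ j, ∃ c' ε, MOrd P (A j) (hcd u j) c' ε := fun j =>
        exists_mord (hAge j) ⟨0, by rw [hcd_zero]; exact one_ne_zero⟩ (hl j)
      choose c' ε ho using ho
      have h1 := movf_hor σ hs hq hC hAge hd hl hG' (fun l f hf => hG l f hf) ho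
      by_cases hε : ∃ j i, ε j i ≠ 0
      · rw [if_pos hε] at h1
        rcases h1 with h1 | h1
        · exact Or.inl h1
        right
        have h2 := hmult P hPX htr c' ε ho hε
        have h3 : ((∑ j, ∑ i, ((M : ℤ) - s j i) * ε j i - M * 1 : ℤ) : ℝ) ≤
            (P.ord (movf σ A u M s (∏ t, cdet A (I t))
              fun i => (G i).restrictScalars ℂ) : ℝ) := by exact_mod_cast h1
        refine le_trans ?_ h3
        push_cast
        have h4 : (M : ℝ) * ∑ j, ∑ i, (1 - (w j i : ℝ)) * ε j i ≤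
            ∑ j, ∑ i, ((M : ℝ) - s j i) * ε j i := by
          rw [Finset.mul_sum]
          refine Finset.sum_le_sum fun j _ => ?_
          rw [Finset.mul_sum]
          refine Finset.sum_le_sum fun i _ => ?_
          have h5 : (s j i : ℝ) ≤ M * w j i := by exact_mod_cast hsw j i
          have h6 : (0 : ℝ) ≤ ε j i := Nat.cast_nonneg _
          nlinarith
        have h5 := mul_le_mul_of_nonneg_left h2 hM0
        rw [mul_add] at h5
        linarith
      · refine hfin ?_
        rw [if_neg hε] at h1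
        push Not at hε
        refine h1.mono (le_of_eq ?_)
        rw [mul_zero, sub_zero]
        symm
        exact Finset.sum_eq_zero fun j _ => Finset.sum_eq_zero fun i _ => by rw [hε j i]; simp
    · push Not at htr
      obtain ⟨a, haL, ha0, hao⟩ := htr
      refine hfin (movf_log σ hI hl hG' fun l f hf => ?_)
      refine log_of_const (a := a) (fun f hf => hG l f hf) ?_ hao hf
      exact (G l).map_algebraMap (⟨a, haL⟩ : L)

/-- a transcendence basis from the derivations -/
theorem basis_of_gen {ι : Type} [Finite ι] {u t : ι → K} (hu : IsTranscendenceBasis L u)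
    (h : ∀ D : Derivation ℂ K K, Kills D L → (∀ i, D (t i) = 0) → D = 0) :
    IsTranscendenceBasis L t := by
  have : CharZero L := charZero_of_injective_algebraMap (algebraMap ℂ L).injective
  have hall : ∀ x : K, x ∈ Pool.Agent.Y172.acl L (Set.range t) := by
    intro x
    by_contra hcon
    obtain ⟨D, h1, h2⟩ := Pool.Agent.Y172.exists_der_ne
      (Pool.Agent.Y172.acl_closed (k := L) (Set.range t)) hcon
    have h3 := h (D.restrictScalars ℂ) (fun y hy => D.map_algebraMap (⟨y, hy⟩ : L))
      (fun i => h1 _ (Pool.Agent.Y172.subset_acl _ ⟨i, rfl⟩))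
    have h4 : (D.restrictScalars ℂ) x = 1 := h2
    rw [h3] at h4
    simp at h4
  have halg : Algebra.IsAlgebraic (IntermediateField.adjoin L (Set.range t)) K :=
    ⟨fun x => Pool.Agent.Y172.mem_acl.1 (hall x)⟩
  have := alg_adjoin halg
  refine Algebra.IsAlgebraic.isTranscendenceBasis_of_le_trdeg_of_finite L t ?_
  rw [← hu.cardinalMk_eq_trdeg]

/-- **The quotients of the linear forms are coordinates.** -/
theorem quo_basis (hA : MovArr L A) (hu : IsTranscendenceBasis L u)
    (hl : ∀ j i, lmv A u j i ≠ 0) {I : ∀ j, Fin (r j + 1) → Fin (q j)}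
    (hI : ∀ j, Function.Injective (I j)) {κ : (Σ j, Fin (r j)) → K}
    (hκ : ∀ s, IsAlgebraic L (κ s)) (hκ0 : ∀ s, κ s ≠ 0) :
    IsTranscendenceBasis L fun s => κ s * quo A u I s := by
  classical
  have hcL : CharZero L := charZero_of_injective_algebraMap (algebraMap ℂ L).injective
  refine basis_of_gen hu fun D hD h => ?_
  have hDA : ∀ j i k, D (A j i k) = 0 := fun j i k => kills_alg hD (hA.1 j i k)
  have hq0 : ∀ s, quo A u I s ≠ 0 := fun s => div_ne_zero (hl _ _) (hl _ _)
  have h1 : ∀ s, D (quo A u I s) / quo A u I s = 0 := by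
    intro s
    have h2 := h s
    rw [D.leibniz, kills_alg hD (hκ s), smul_zero, add_zero, smul_eq_mul] at h2
    rw [(mul_eq_zero.1 h2).resolve_left (hκ0 s), zero_div]
  have h2 : ∀ j a, D (u ⟨j, a⟩) = 0 := by
    intro j
    obtain ⟨T, hT⟩ : ∃ T : Matrix (Fin (r j)) (Fin (r j)) K, T = Matrix.of fun k a =>
      A j (I j k.succ) a.succ / lmv A u j (I j k.succ) -
        A j (I j 0) a.succ / lmv A u j (I j 0) := ⟨_, rfl⟩
    have h3 : T.mulVec (fun a => D (u ⟨j, a⟩)) = 0 := by
      funext k
      have h4 := h1 ⟨j, k⟩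
      rw [der_quo hDA hl] at h4
      rw [Matrix.mulVec, dotProduct, hT]
      exact h4
    have h4 : T.det ≠ 0 := by
      intro h0
      have h5 := det_lin (Matrix.of fun k a => A j (I j k) a) (x := hcd u j) (hcd_zero j)
        (lam := fun k => lmv A u j (I j k)) (fun k => rfl) fun k => hl j _
      apply hA.2 j (I j) (hI j)
      rw [← h5]
      have h6 : (Matrix.of fun k a : Fin (r j) =>
        (Matrix.of fun k a => A j (I j k) a) k.succ a.succ / lmv A u j (I j k.succ) -
        (Matrix.of fun k a => A j (I j k) a) 0 a.succ / lmv A u j (I j 0)) = T := by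
        rw [hT]
        rfl
      rw [h6, h0, zero_mul]
    have h5 := Matrix.eq_zero_of_mulVec_eq_zero h4 h3
    exact fun a => congrFun h5 a
  refine Pool.Agent.Y172.ext_over hu hD (fun x _ => rfl) fun s => ?_
  rw [h2 s.1 s.2]
  rfl

end

end Pool.Agent.Y191
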