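import Pool.Agent.Y191.UPlc
import Pool.Agent.Y191.MovFib

/-!
Determinants of logarithmic vector fields along the fibres and of units.
-/

set_option autoImplicit false
set_option linter.overlappingInstances false
set_option linter.unusedSectionVars false

open FF MvPolynomial Pool.Agent.W602.GT Pool.Agent.W603.LV Pool.Agent.TH585.SV
open Pool.Agent.Y172 (Kills kills_alg liftD)

namespace Pool.Agent.Y191

variable {K : Type} [Field K] [Algebra ℂ K] {L : IntermediateField ℂ K} {e : ℕ}

/-- the chain rule -/
theorem der_chain {D : Derivation ℂ K K} (hk : Kills D L) (f : Fin e → K)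
    (R : MvPolynomial (Fin e) L) : D (aeval f R) = ∑ l, aeval f (pderiv l R) * D (f l) := by
  classical
  induction R using MvPolynomial.induction_on with
  | C a =>
    rw [aeval_C]
    have h1 : D (algebraMap L K a) = 0 := hk _ a.2
    rw [h1]
    symm
    refine Finset.sum_eq_zero fun l _ => ?_
    rw [pderiv_C, map_zero, zero_mul]
  | add P Q hP hQ =>
    rw [map_add, map_add, hP, hQ, ← Finset.sum_add_distrib]
    refine Finset.sum_congr rfl fun l _ => ?_
    rw [map_add, map_add, add_mul]
  | mul_X P s hP =>
    rw [map_mul, aeval_X, D.leibniz, hP, smul_eq_mul, smul_eq_mul, Finset.mul_sum]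
    have h1 : ∀ l, aeval f (pderiv l (P * X s)) * D (f l) =
        f s * (aeval f (pderiv l P) * D (f l)) + (if l = s then aeval f P * D (f l) else 0) := by
      intro l
      rw [pderiv_mul, map_add, map_mul, map_mul, aeval_X]
      by_cases h : l = s
      · subst h
        rw [pderiv_X_self, map_one, if_pos rfl]
        ring
      · rw [pderiv_X_of_ne (Ne.symm h), map_zero, if_neg h]
        ring
    simp only [h1]
    rw [Finset.sum_add_distrib, Finset.sum_ite_eq', if_pos (Finset.mem_univ _)]
    ring

/-- **Logarithmic vector fields along the fibres are dependent along a divisor.** -/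
theorem det_log_unit (htr : Algebra.trdeg L K = e) {Q : Place ℂ K}
    (hQ : ∀ f ∈ L, f ≠ 0 → Q.ord f = 0) {E : Fin e → Derivation ℂ K K}
    (hE : ∀ i, DerLog Q (E i)) (hk : ∀ i, Kills (E i) L) {f : Fin e → K}
    (hf : ∀ l, Ge Q 0 (f l)) : Ge Q 1 (Matrix.of fun i l => E i (f l)).det := by
  classical
  have hpol : ∀ R : MvPolynomial (Fin e) L, Ge Q 0 (aeval f R) := by
    intro R
    induction R using MvPolynomial.induction_on with
    | C a =>
      rw [aeval_C]
      by_cases h0 : (a : K) = 0
      · exact Or.inl h0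
      · exact Or.inr (hQ _ a.2 h0).ge
    | add P Q hP hQ =>
      rw [map_add]
      exact hP.add hQ
    | mul_X P s hP =>
      rw [map_mul, aeval_X]
      have := hP.mul (hf s)
      rwa [add_zero] at this
  -- a relation along the divisor
  have hex : ∃ R : MvPolynomial (Fin e) L, R ≠ 0 ∧ Ge Q 1 (aeval f R) := by
    by_contra hcon
    push Not at hcon
    have hne : ∀ R : MvPolynomial (Fin e) L, R ≠ 0 → aeval f R ≠ 0 ∧ Q.ord (aeval f R) = 0 := by
      intro R hR
      have h1 := hcon R hR
      have h2 : aeval f R ≠ 0 := fun h => h1 (Or.inl h)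
      have h3 := (hpol R).resolve_left h2
      have h4 : ¬ 1 ≤ Q.ord (aeval f R) := fun h => h1 (Or.inr h)
      exact ⟨h2, by omega⟩
    have hind : AlgebraicIndependent L f := by
      rw [algebraicIndependent_iff]
      intro R hR
      by_contra h0
      exact (hne R h0).1 hR
    have hbas : IsTranscendenceBasis L f := by
      refine hind.isTranscendenceBasis_of_trdeg_le_of_finite ?_
      rw [htr, Cardinal.mk_fin]
    obtain ⟨t, ht0, ht⟩ := Q.surj
    have halg := hbas.isAlgebraic_field.isAlgebraic t⁻¹
    have h1 : Ge Q 0 t⁻¹ := by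
      refine triv_ge (L := (IntermediateField.adjoin L (Set.range f)).restrictScalars ℂ) ?_ halg
      intro z hz hz0
      have hz' : z ∈ IntermediateField.adjoin L (Set.range f) := hz
      rw [IntermediateField.mem_adjoin_range_iff] at hz'
      obtain ⟨r, s, rfl⟩ := hz'
      have hr : r ≠ 0 := by
        rintro rfl
        rw [map_zero, zero_div] at hz0
        exact hz0 rfl
      have hs : s ≠ 0 := by
        rintro rfl
        rw [map_zero, div_zero] at hz0
        exact hz0 rfl
      rw [Q.ord_div (hne r hr).1 (hne s hs).1, (hne r hr).2, (hne s hs).2, sub_zero]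
    have h2 := h1.resolve_left (inv_ne_zero ht0)
    rw [Q.ord_inv, ht] at h2
    omega
  obtain ⟨R, ⟨hR, hRQ⟩, hmin⟩ := WellFounded.has_min
    (measure (fun R : MvPolynomial (Fin e) L => R.totalDegree)).wf
    {R : MvPolynomial (Fin e) L | R ≠ 0 ∧ Ge Q 1 (aeval f R)} hex
  obtain ⟨b, hb⟩ : ∃ b : Fin e, pderiv b R ≠ 0 := by
    by_contra hcon
    push Not at hcon
    have hcL : CharZero L := charZero_of_injective_algebraMap (algebraMap ℂ L).injective
    have h1 : ∀ m ∈ R.support, m = 0 := by
      intro m hm
      ext b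
      by_contra hmb
      have hmb' : m b ≠ 0 := hmb
      have h3 : m - Finsupp.single b 1 + Finsupp.single b 1 = m := by
        ext b'
        by_cases hb' : b' = b
        · subst hb'
          simp
          omega
        · simp [Ne.symm hb']
      have h2 := congrArg (coeff (m - Finsupp.single b 1)) (hcon b)
      rw [coeff_zero, coeff_pderiv, h3] at h2
      rcases mul_eq_zero.1 h2 with h4 | h4
      · exact (mem_support_iff.1 hm) h4
      · have h5 : (((m - Finsupp.single b 1 : Fin e →₀ ℕ) b + 1 : ℕ) : L) = 0 := by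
          push_cast
          exact h4
        have h6 : ((m - Finsupp.single b 1 : Fin e →₀ ℕ) b + 1 : ℕ) = 0 := by exact_mod_cast h5
        omega
    have h2' : R.totalDegree = 0 := by
      rw [totalDegree_eq_zero_iff]
      intro m hm j
      rw [h1 m hm]
      rfl
    have h2 := totalDegree_eq_zero_iff_eq_C.1 h2'
    have h3 : coeff 0 R ≠ 0 := by
      intro h4
      rw [h4, C_0] at h2
      exact hR h2
    rw [h2, aeval_C] at hRQ
    have h4 : (algebraMap L K) (coeff 0 R) ≠ 0 := by
      rw [Ne, map_eq_zero]
      exact h3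
    have h5 := hRQ.resolve_left h4
    have h6 : Q.ord ((algebraMap L K) (coeff 0 R)) = 0 := hQ _ (coeff 0 R).2 h4
    omega
  have hbu : ¬ Ge Q 1 (aeval f (pderiv b R)) := by
    intro h
    refine hmin _ ⟨hb, h⟩ ?_
    have h1 := deg_pderivS hb
    change (pderiv b R).totalDegree < R.totalDegree
    omega
  have hb0 : aeval f (pderiv b R) ≠ 0 := fun h => hbu (Or.inl h)
  have hbo : Q.ord (aeval f (pderiv b R)) = 0 := by
    have h1 := (hpol (pderiv b R)).resolve_left hb0
    have h2 : ¬ 1 ≤ Q.ord (aeval f (pderiv b R)) := fun h => hbu (Or.inr h)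
    omega
  have hlogge : ∀ i (z : K) (a : ℤ), Ge Q a z → Ge Q a (E i z) := by
    intro i z a hz
    by_cases hz0 : z = 0
    · left
      rw [hz0, map_zero]
    · have h1 : Ge Q 0 (E i z / z) := (reg_iff_ge _ _).1 (hE i z)
      have h2 := h1.mul hz
      rwa [div_mul_cancel₀ _ hz0, zero_add] at h2
  obtain ⟨x, hx⟩ : ∃ x : Fin e → K, ∀ l, x l = aeval f (pderiv l R) := ⟨_, fun _ => rfl⟩
  have hcol := Matrix.det_updateCol_sum (Matrix.of fun i l => E i (f l)) b x
  have h2 : Ge Q 1 ((Matrix.of fun i l => E i (f l)).updateCol b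
      (fun k => ∑ i, (x i) • (Matrix.of fun i l => E i (f l)) k i)).det := by
    refine ge_det' Q _ 1 (fun _ c => if c = b then 1 else 0) (fun k c => ?_) fun σ => ?_
    · rw [Matrix.updateCol_apply]
      split_ifs with hc
      · have h3 : ∑ i, (x i) • (Matrix.of fun i l => E i (f l)) k i = E k (aeval f R) := by
          rw [der_chain (hk k)]
          refine Finset.sum_congr rfl fun i _ => ?_
          rw [smul_eq_mul, Matrix.of_apply, hx]
        rw [h3]
        exact hlogge k _ 1 hRQ
      · rw [Matrix.of_apply]
        exact hlogge k _ 0 (hf c)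
    · rw [Finset.sum_ite_eq' Finset.univ b fun _ => 1, if_pos (Finset.mem_univ _)]
  rw [hcol, smul_eq_mul, hx] at h2
  rcases h2 with h2 | h2
  · exact Or.inl ((mul_eq_zero.1 h2).resolve_left hb0)
  · by_cases h3 : (Matrix.of fun i l => E i (f l)).det = 0
    · exact Or.inl h3
    · right
      rw [Q.ord_mul hb0 h3, hbo, zero_add] at h2
      exact h2

end Pool.Agent.Y191
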