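import Pool.Agent.Y191.CorPush
import Pool.Agent.Y191.LogUnit

/-!
Determinants of the logarithmic derivatives with respect to the lifts of regular vector fields.
-/

set_option autoImplicit false
set_option linter.overlappingInstances false
set_option linter.unusedSectionVars false

open FF MvPolynomial Pool.Agent.W602.GT Pool.Agent.W603.LV Pool.Agent.TH585.SV Pool.Agent.Y172

namespace Pool.Agent.Y191

section

variable {k K : Type} [Field k] [Field K] [Algebra k K]

/-- regular vector fields in terms of logarithmic ones, which are combinations of them -/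
theorem reg_to_log2 {w : ℕ} {P : Place k K} {D : Fin w → Derivation k K K}
    (hD : ∀ i, DerReg P (D i)) : ∃ M N : Matrix (Fin w) (Fin w) K,
      (∀ i, DerLog P (∑ j, N i j • D j)) ∧ M * N = 1 ∧ Ge P (-1) M.det := by
  classical
  obtain ⟨t, ht0, ht⟩ := P.surj
  have htr : P.Reg t := Or.inr (by rw [ht]; norm_num)
  by_cases hall : ∀ i, Ge P 1 (D i t)
  · refine ⟨1, 1, fun i => ?_, Matrix.one_mul 1, ?_⟩
    · have h1 : ∑ j, (1 : Matrix (Fin w) (Fin w) K) i j • D j = D i := by
        rw [Finset.sum_eq_single i]
        · rw [Matrix.one_apply_eq, one_smul]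
        · intro j _ hj
          rw [Matrix.one_apply_ne hj.symm, zero_smul]
        · simp
      rw [h1]
      exact log_of_reg (hD i) ht0 ht (hall i)
    · rw [Matrix.det_one]
      right
      rw [P.ord_one]
      norm_num
  · push Not at hall
    obtain ⟨i0, hi0⟩ := hall
    have hne : D i0 t ≠ 0 := fun h => hi0 (Or.inl h)
    have ho : P.ord (D i0 t) = 0 := by
      have h1 := (hD i0 t htr).resolve_left hne
      have h2 : ¬ 1 ≤ P.ord (D i0 t) := fun h => hi0 (Or.inr h)
      omega
    obtain ⟨c, hc⟩ : ∃ c : Fin w → K, ∀ i, c i = D i t / D i0 t := ⟨_, fun _ => rfl⟩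
    have hcr : ∀ i, P.Reg (c i) := by
      intro i
      rw [hc, reg_iff_ge]
      have := ge_div hne (hD i t htr)
      rwa [ho, sub_zero] at this
    have hc0 : c i0 = 1 := by rw [hc, div_self hne]
    obtain ⟨N, hN⟩ : ∃ N : Matrix (Fin w) (Fin w) K,
      N = (1 : Matrix (Fin w) (Fin w) K).updateCol i0 fun i => if i = i0 then t else -c i :=
      ⟨_, rfl⟩
    obtain ⟨M, hM⟩ : ∃ M : Matrix (Fin w) (Fin w) K,
      M = (1 : Matrix (Fin w) (Fin w) K).updateCol i0 fun i => c i * t⁻¹ := ⟨_, rfl⟩
    have hsum : ∀ i, ∑ j, N i j • D j = if i = i0 then t • D i0 else D i - c i • D i0 := by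
      intro i
      rw [← Finset.add_sum_erase _ _ (Finset.mem_univ i0), hN, Matrix.updateCol_self]
      have h1 : ∀ j ∈ Finset.univ.erase i0, (1 : Matrix (Fin w) (Fin w) K).updateCol i0
          (fun i => if i = i0 then t else -c i) i j • D j = if i = j then D j else 0 := by
        intro j hj
        rw [Matrix.updateCol_ne (Finset.ne_of_mem_erase hj), Matrix.one_apply]
        split_ifs
        · rw [one_smul]
        · rw [zero_smul]
      rw [Finset.sum_congr rfl h1, Finset.sum_ite_eq]
      by_cases hi : i = i0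
      · rw [if_pos hi, if_pos hi, if_neg (by rw [hi]; exact Finset.notMem_erase _ _), add_zero]
      · rw [if_neg hi, if_neg hi, if_pos (Finset.mem_erase.mpr ⟨hi, Finset.mem_univ _⟩),
          neg_smul]
        abel
    refine ⟨M, N, fun i => ?_, ?_, ?_⟩
    · rw [hsum]
      split_ifs with hi
      · refine log_of_reg (derReg_smul (hD i0) htr) ht0 ht ?_
        rw [Derivation.smul_apply, smul_eq_mul]
        right
        rw [P.ord_mul ht0 hne, ht, ho]
        norm_num
      · refine log_of_reg (derReg_sub (hD i) (derReg_smul (hD i0) (hcr i))) ht0 ht (Or.inl ?_)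
        rw [Derivation.sub_apply, Derivation.smul_apply, smul_eq_mul, hc, div_mul_cancel₀ _ hne,
          sub_self]
    · ext i l
      rw [Matrix.mul_apply, ← Finset.add_sum_erase _ _ (Finset.mem_univ i0), hM,
        Matrix.updateCol_self]
      have h1 : ∀ j ∈ Finset.univ.erase i0, (1 : Matrix (Fin w) (Fin w) K).updateCol i0
          (fun i => c i * t⁻¹) i j * N j l = if i = j then N j l else 0 := by
        intro j hj
        rw [Matrix.updateCol_ne (Finset.ne_of_mem_erase hj), Matrix.one_apply]
        split_ifs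
        · rw [one_mul]
        · rw [zero_mul]
      rw [Finset.sum_congr rfl h1, Finset.sum_ite_eq]
      by_cases hl : l = i0
      · subst hl
        have h2 : N l l = t := by
          rw [hN, Matrix.updateCol_self, if_pos rfl]
        rw [h2]
        by_cases hi : i = l
        · rw [hi, if_neg (Finset.notMem_erase _ _), Matrix.one_apply_eq, hc0, one_mul, add_zero,
            inv_mul_cancel₀ ht0]
        · rw [if_pos (Finset.mem_erase.mpr ⟨hi, Finset.mem_univ _⟩), Matrix.one_apply_ne hi, hN,
            Matrix.updateCol_self, if_neg hi, mul_assoc, inv_mul_cancel₀ ht0, mul_one,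
            add_neg_cancel]
      · have h2 : N i0 l = 0 := by
          rw [hN, Matrix.updateCol_ne hl, Matrix.one_apply_ne (Ne.symm hl)]
        rw [h2, mul_zero, zero_add]
        by_cases hi : i = i0
        · rw [hi, if_neg (Finset.notMem_erase _ _), Matrix.one_apply_ne (Ne.symm hl)]
        · rw [if_pos (Finset.mem_erase.mpr ⟨hi, Finset.mem_univ _⟩), hN, Matrix.updateCol_ne hl]
    · have hdet : M.det = t⁻¹ := by
        rw [hM, ← Matrix.cramer_apply, Matrix.cramer_one]
        change c i0 * t⁻¹ = t⁻¹
        rw [hc0, one_mul]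
      rw [hdet]
      right
      rw [P.ord_inv, ht]

end

section

variable {K K' : Type} [Field K] [Field K'] [Algebra ℂ K] [Algebra ℂ K'] [Algebra K K']
  [IsScalarTower ℂ K K'] {L : IntermediateField ℂ K} [FiniteDimensional K K'] {e : ℕ}

theorem trdeg_upF (hL : Algebra.trdeg L K = e) : Algebra.trdeg (upF K' L) K' = e := by
  have hcL : CharZero L := charZero_of_injective_algebraMap (algebraMap ℂ L).injective
  obtain ⟨y, E, hy, hE⟩ := exists_crd hL
  have hyL : IsTranscendenceBasis (upF K' L) (fun j => algebraMap K K' (y j)) :=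
    tb_up (hy.algebraMap_comp (A := K'))
  rw [← hyL.cardinalMk_eq_trdeg, Cardinal.mk_fin]

/-- **The determinant of the logarithmic derivatives.** -/
theorem lift_det (hL : Algebra.trdeg L K = e) {P : Place ℂ K} {Q : Place ℂ K'} {ε : ℕ}
    (hQ : Over Q P ε) {G : Fin e → Derivation L K K} (hG : ∀ i f, P.Reg f → P.Reg (G i f))
    {G' : Fin e → Derivation (upF K' L) K' K'}
    (hG' : ∀ i f, G' i (algebraMap K K' f) = algebraMap K K' (G i f)) {f : Fin e → K'} :
    Ge Q (-ε) (Matrix.of fun i l => G' i (f l) / f l).det ∧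
      ((∀ z ∈ L, z ≠ 0 → P.ord z = 0) → (∀ l, Q.ord (f l) = 0) →
        Ge Q (1 - ε) (Matrix.of fun i l => G' i (f l) / f l).det) := by
  classical
  obtain ⟨M, N, hlog, hMN, hM⟩ := reg_to_log2 (D := fun i => (G i).restrictScalars ℂ)
    (P := P) (fun i f hf => hG i f hf)
  obtain ⟨E', hE'⟩ : ∃ E' : Fin e → Derivation ℂ K' K', E' = fun i =>
    ∑ j, algebraMap K K' (N i j) • (G' j).restrictScalars ℂ := ⟨_, rfl⟩
  have hEv : ∀ i z, E' i z = ∑ j, algebraMap K K' (N i j) * G' j z := by
    intro i z
    rw [hE', sum_smul_apply]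
    rfl
  have hElift : ∀ i z, E' i (algebraMap K K' z) =
      algebraMap K K' ((∑ j, N i j • (G j).restrictScalars ℂ : Derivation ℂ K K) z) := by
    intro i z
    rw [hEv, sum_smul_apply, map_sum]
    refine Finset.sum_congr rfl fun j _ => ?_
    rw [hG', map_mul]
    rfl
  have hElog : ∀ i, DerLog Q (E' i) := fun i => lift_log hQ (hlog i) (hElift i)
  have hkill : ∀ i, Kills (E' i) (upF K' L) := by
    intro i z hz
    rw [hEv]
    refine Finset.sum_eq_zero fun j _ => ?_
    have h1 : G' j z = 0 := (G' j).map_algebraMap (⟨z, hz⟩ : upF K' L)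
    rw [h1, mul_zero]
  have hGE : ∀ i z, G' i z = ∑ j, algebraMap K K' (M i j) * E' j z := by
    intro i z
    simp only [hEv, Finset.mul_sum]
    rw [Finset.sum_comm]
    have h1 : ∀ l, ∑ j, algebraMap K K' (M i j) * (algebraMap K K' (N j l) * G' l z) =
        (if i = l then 1 else 0) * G' l z := by
      intro l
      have h2 := congrFun (congrFun hMN i) l
      rw [Matrix.mul_apply, Matrix.one_apply] at h2
      have h3 := congrArg (algebraMap K K') h2
      rw [map_sum, apply_ite (algebraMap K K'), map_one, map_zero] at h3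
      rw [← h3, Finset.sum_mul]
      refine Finset.sum_congr rfl fun j _ => ?_
      rw [map_mul, mul_assoc]
    simp only [h1]
    simp
  have hdet : (Matrix.of fun i l => G' i (f l) / f l).det =
      algebraMap K K' M.det * (Matrix.of fun i l => E' i (f l) / f l).det := by
    rw [RingHom.map_det, ← Matrix.det_mul]
    congr 1
    ext i l
    rw [Matrix.mul_apply, Matrix.of_apply, hGE, Finset.sum_div]
    refine Finset.sum_congr rfl fun j _ => ?_
    rw [RingHom.mapMatrix_apply, Matrix.map_apply, Matrix.of_apply, mul_div_assoc]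
  have hMge : Ge Q (-ε) (algebraMap K K' M.det) := by
    have h1 := (over_ge hQ).2 hM
    rwa [mul_neg, mul_one] at h1
  rw [hdet]
  constructor
  · have h1 : Ge Q 0 (Matrix.of fun i l => E' i (f l) / f l).det := by
      refine ge_det' Q _ 0 (fun _ _ => 0) (fun i l => ?_) fun _ => by simp
      exact (reg_iff_ge _ _).1 (hElog i (f l))
    have h2 := hMge.mul h1
    rwa [add_zero] at h2
  · intro htr hu
    have hup : ∀ z ∈ upF K' L, z ≠ 0 → Q.ord z = 0 := by
      intro z hz hz0
      obtain ⟨a, ha, rfl⟩ := mem_upF.1 hz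
      have ha0 : a ≠ 0 := fun h => hz0 (by rw [h, map_zero])
      rw [hQ.2, htr a ha ha0, mul_zero]
    have h1 := det_log_unit (trdeg_upF (K' := K') hL) hup hElog hkill (f := f)
      fun l => Or.inr (hu l).ge
    have h2 : (Matrix.of fun i l => E' i (f l) / f l).det =
        (Matrix.of fun i l => E' i (f l)).det * ∏ l, (f l)⁻¹ := by
      have h3 : (Matrix.of fun i l => E' i (f l) / f l) =
          (Matrix.of fun i l => E' i (f l)) * Matrix.diagonal fun l => (f l)⁻¹ := by
        ext i l
        rw [Matrix.mul_diagonal, Matrix.of_apply, Matrix.of_apply, div_eq_mul_inv]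
      rw [h3, Matrix.det_mul, Matrix.det_diagonal]
    have h3 : Ge Q 0 (∏ l, (f l)⁻¹) := by
      have := Ge.prod (P := Q) Finset.univ (fun l => (f l)⁻¹) (fun _ => 0) (fun l _ =>
        Or.inr (by rw [Q.ord_inv, hu, neg_zero]))
      simpa using this
    rw [h2]
    have h4 := hMge.mul (h1.mul h3)
    refine h4.mono (le_of_eq ?_)
    ring

end

end Pool.Agent.Y191
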