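import Pool.Agent.Y191.Om
import Pool.Agent.W602.GT.Loc

/-!
The order of the determinant at a place.
-/

set_option autoImplicit false

open MvPolynomial Matrix FF Pool.Agent.W603.LV Pool.Agent.W602.GT

namespace Pool.Agent.Y191

variable {k K : Type} [Field k] [Field K] [Algebra k K]

/-- the coefficients are regular -/
def GeP {B : Type} (P : Place k K) (f : MvPolynomial B K) : Prop := ∀ m, Ge P 0 (coeff m f)

section gep

variable {B : Type} {P : Place k K}

theorem GeP.mul {f g : MvPolynomial B K} (hf : GeP P f) (hg : GeP P g) : GeP P (f * g) := by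
  classical
  intro m
  rw [coeff_mul]
  refine Ge.sum _ _ fun x _ => ?_
  have := (hf x.1).mul (hg x.2)
  rwa [zero_add] at this

theorem GeP.one : GeP P (1 : MvPolynomial B K) := by
  classical
  intro m
  rw [coeff_one]
  split_ifs
  · exact Ge.one
  · exact Ge.zero

theorem GeP.pow {f : MvPolynomial B K} (hf : GeP P f) (n : ℕ) : GeP P (f ^ n) := by
  induction n with
  | zero => rw [pow_zero]; exact GeP.one
  | succ n ih => rw [pow_succ]; exact ih.mul hf

theorem GeP.prod {ι : Type*} (s : Finset ι) {F : ι → MvPolynomial B K}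
    (h : ∀ i ∈ s, GeP P (F i)) : GeP P (∏ i ∈ s, F i) := by
  classical
  induction s using Finset.induction_on with
  | empty => rw [Finset.prod_empty]; exact GeP.one
  | insert a s ha ih =>
    rw [Finset.prod_insert ha]
    exact (h a (Finset.mem_insert_self a s)).mul (ih fun i hi => h i (Finset.mem_insert_of_mem hi))

theorem GeP.sum {ι : Type*} (s : Finset ι) {F : ι → MvPolynomial B K}
    (h : ∀ i ∈ s, GeP P (F i)) : GeP P (∑ i ∈ s, F i) := by
  intro m
  rw [coeff_sum]
  exact Ge.sum _ _ fun i hi => h i hi m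

theorem GeP.lin [Fintype B] {c : B → K} (hc : ∀ b, Ge P 0 (c b)) :
    GeP P (∑ b, C (c b) * X b : MvPolynomial B K) := by
  classical
  refine GeP.sum _ fun b _ m => ?_
  rw [coeff_C_mul, coeff_X]
  split_ifs
  · rw [mul_one]; exact hc b
  · rw [mul_zero]; exact Ge.zero

theorem GeP.sb_mon {ι : Type} [Fintype ι] [Fintype B] {G : Matrix B ι K}
    (hG : ∀ b i, Ge P 0 (G b i)) (α : ι →₀ ℕ) : GeP P (sb G (monomial α 1)) := by
  classical
  rw [sb_monomial]
  exact GeP.prod _ fun i _ => (GeP.lin fun b => hG b i).pow _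

end gep

theorem ge_det0 (P : Place k K) {ρ : Type*} [Fintype ρ] [DecidableEq ρ] {M : Matrix ρ ρ K}
    (hM : ∀ i j, Ge P 0 (M i j)) : Ge P 0 M.det := by
  rw [Matrix.det_apply']
  refine Ge.sum _ _ fun σ _ => ?_
  have h1 := (Ge.intCast (P := P) (Equiv.Perm.sign σ : ℤ)).mul
    (Ge.prod Finset.univ (fun i => M (σ i) i) (fun _ => 0) (fun i _ => hM _ _))
  simpa using h1

theorem ord_prod (P : Place k K) {ι : Type*} (s : Finset ι) (f : ι → K) (hf : ∀ i, f i ≠ 0) :
    P.ord (∏ i ∈ s, f i) = ∑ i ∈ s, P.ord (f i) := by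
  classical
  induction s using Finset.induction_on with
  | empty => simpa using P.ord_one
  | insert a s ha ih =>
    rw [Finset.prod_insert ha, Finset.sum_insert ha,
      P.ord_mul (hf a) (Finset.prod_ne_zero_iff.2 fun i _ => hf i), ih]

variable {A B : Type} [Fintype A] [DecidableEq A] [Fintype B] [DecidableEq B]

/-- The local estimate. -/
theorem Om_ge [CharZero K] (P : Place k K) {r : ℕ} (hr : 0 < r)
    {y : Mon B r → MvPolynomial (A ⊕ B) K} (hy : ∀ β, (y β).IsHomogeneous r)
    (hyi : ∀ β, GeP P (y β)) (a : A ⊕ B → ℕ)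
    (hya : ∀ β j, a j ≠ 0 → coeff (Finsupp.single j r) (y β) = 0)
    {v : Matrix A (A ⊕ B) K} (hv : ∀ i j, Ge P (a j) (v i j)) (c : Matrix B (A ⊕ B) K) :
    Ge P (∑ j, (a j : ℤ)) (Om y (fromRows v c)) := by
  classical
  by_cases hdet : (fromRows v c).det = 0
  · rw [Om_zero hr y hdet]
    exact Ge.zero
  obtain ⟨t, ht0, ht⟩ := P.surj
  obtain ⟨γ, hγ⟩ : ∃ γ, γ = gam (Fintype.card B) r := ⟨_, rfl⟩
  have htp : ∀ n : ℕ, t ^ n ≠ 0 := fun n => pow_ne_zero _ ht0
  set v' : Matrix A (A ⊕ B) K := Matrix.of fun i j => v i j / t ^ a j with hv'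
  have hv'0 : ∀ i j, Ge P 0 (v' i j) := by
    intro i j
    have h1 := ge_div (htp (a j)) (hv i j)
    rw [P.ord_pow, ht, mul_one, sub_self] at h1
    exact h1
  set D : Matrix (A ⊕ B) (A ⊕ B) K := diagonal fun j => t ^ a j with hD
  have hDdet : D.det = t ^ ∑ j, a j := by
    rw [hD, det_diagonal, Finset.prod_pow_eq_pow_sum]
  have hDne : D.det ≠ 0 := by rw [hDdet]; exact htp _
  have hDinv : D⁻¹ = diagonal fun j => (t ^ a j)⁻¹ := by
    apply Matrix.inv_eq_right_inv
    rw [hD, diagonal_mul_diagonal, ← diagonal_one]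
    congr 1
    funext j
    exact mul_inv_cancel₀ (htp _)
  have hvD : v' * D = v := by
    refine Matrix.ext fun i j => ?_
    rw [hD, Matrix.mul_diagonal]
    exact div_mul_cancel₀ _ (htp _)
  have hDD : D⁻¹ * D = 1 := Matrix.nonsing_inv_mul D (isUnit_iff_ne_zero.mpr hDne)
  have h1 : (fromRows v' (c * D⁻¹)).det ≠ 0 := by
    intro h0
    apply hdet
    have h2 : fromRows v c = fromRows v' (c * D⁻¹) * D := by
      rw [fromRows_mul, hvD, Matrix.mul_assoc, hDD, Matrix.mul_one]
    rw [h2, det_mul, h0, zero_mul]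
  obtain ⟨ψ0, hψ0⟩ := exists_er h1
  obtain ⟨ψ, hψ, hmin⟩ := Finset.exists_min_image
    (Finset.univ.filter fun ψ : B → A ⊕ B => (fromRows v' (er ψ)).det ≠ 0)
    (fun ψ => P.ord (fromRows v' (er ψ)).det) ⟨ψ0, by simpa using hψ0⟩
  rw [Finset.mem_filter] at hψ
  obtain ⟨H, hH⟩ : ∃ H, H = fromRows v' (er ψ) := ⟨_, rfl⟩
  have hHne : H.det ≠ 0 := by rw [hH]; exact hψ.2
  have hH0 : ∀ i j, Ge P 0 (H i j) := by
    intro i j
    rw [hH]
    rcases i with i | b
    · exact hv'0 i j
    · change Ge P 0 (Pi.single (M := fun _ => K) (ψ b) 1 j)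
      by_cases hj : j = ψ b
      · subst hj
        rw [Pi.single_eq_same]
        exact Ge.one
      · rw [Pi.single_eq_of_ne hj]
        exact Ge.zero
  have hHdet : Ge P 0 H.det := ge_det0 P hH0
  -- Cramer
  have hG : ∀ b i, Ge P 0 (pr H b i) := by
    intro b i
    have h2 : pr H b i = (fromRows v' (er (Function.update ψ b i))).det / H.det := by
      change H⁻¹ i (Sum.inr b) = _
      rw [Matrix.inv_def, Matrix.smul_apply, Matrix.adjugate_apply, Ring.inverse_eq_inv',
        smul_eq_mul, mul_comm, ← div_eq_mul_inv]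
      congr 2
      have h3 := fromRows_update v' (er ψ : Matrix B (A ⊕ B) K) b (Pi.single i 1)
      rw [hH, ← h3]
      congr 1
      refine Matrix.ext fun b' j => ?_
      by_cases hb : b' = b
      · subst hb
        change Function.update (fun b => er ψ b) b' (Pi.single i 1) b' j =
          Pi.single (M := fun _ => K) (Function.update ψ b' i b') 1 j
        rw [Function.update_self, Function.update_self]
      · change Function.update (fun b => er ψ b) b (Pi.single i 1) b' j =
          Pi.single (M := fun _ => K) (Function.update ψ b i b') 1 j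
        rw [Function.update_of_ne hb, Function.update_of_ne hb]
        rfl
    rw [h2]
    by_cases h3 : (fromRows v' (er (Function.update ψ b i))).det = 0
    · rw [h3, zero_div]
      exact Ge.zero
    · right
      rw [P.ord_div h3 hHne, hH]
      have := hmin (Function.update ψ b i) (by simpa using h3)
      linarith
  -- change of the completion and of the coordinates
  have h2 : fromRows v (er ψ * D) = H * D := by
    rw [hH, fromRows_mul, hvD]
    rfl
  have h3 : (fromRows v (er ψ * D)).det ≠ 0 := by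
    rw [h2, det_mul]
    exact mul_ne_zero hHne hDne
  rw [Om_compl hr hy hdet h3, h2, Om_right hr y H D hDne, hDinv, diagonal_transpose]
  unfold Om
  rw [← hγ]
  have h4 : ∀ β, sb (pr H) (sb (diagonal fun j => (t ^ a j)⁻¹) (y β)) =
      ∑ α : Mon (A ⊕ B) r, (coeff α.1 (y β) * ∏ j, ((t ^ a j)⁻¹) ^ α.1 j) •
        sb (pr H) (monomial α.1 1) := by
    intro β
    conv_lhs => rw [hom_eq_sum (hy β)]
    rw [map_sum, map_sum]
    refine Finset.sum_congr rfl fun α _ => ?_
    rw [map_smul, map_smul, sb_diag, mul_smul]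
    congr 1
    rw [← map_smul]
    congr 1
    rw [smul_monomial, smul_eq_mul, mul_one]
  simp only [h4]
  rw [det_cm_sum]
  have hsum : Ge P (-(((γ : ℤ) - 1) * ∑ j, (a j : ℤ)))
      (∑ φ : Mon B r → Mon (A ⊕ B) r,
        (∏ β, coeff (φ β).1 (y β) * ∏ j, ((t ^ a j)⁻¹) ^ (φ β).1 j) *
        (cm (fun β => sb (pr H) (monomial (φ β).1 1)) : Matrix (Mon B r) (Mon B r) K).det) := by
    refine Ge.sum _ _ fun φ _ => ?_
    by_cases hd : (cm (fun β => sb (pr H) (monomial (φ β).1 1)) :
        Matrix (Mon B r) (Mon B r) K).det = 0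
    · rw [hd, mul_zero]
      exact Ge.zero
    by_cases hc : ∀ β, coeff (φ β).1 (y β) ≠ 0
    swap
    · push Not at hc
      obtain ⟨β, hβ⟩ := hc
      rw [Finset.prod_eq_zero (Finset.mem_univ β) (by rw [hβ, zero_mul]), zero_mul]
      exact Ge.zero
    have h5 : Ge P 0 (cm (fun β => sb (pr H) (monomial (φ β).1 1)) :
        Matrix (Mon B r) (Mon B r) K).det :=
      ge_det0 P fun β β' => GeP.sb_mon hG (φ β').1 β.1
    have h6 : Ge P 0 (∏ β, coeff (φ β).1 (y β)) := by
      have := Ge.prod Finset.univ (fun β => coeff (φ β).1 (y β)) (fun _ => 0)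
        (fun β _ => hyi β (φ β).1)
      simpa using this
    have h7 : Ge P (-(((γ : ℤ) - 1) * ∑ j, (a j : ℤ)))
        (∏ β, ∏ j, ((t ^ a j)⁻¹) ^ (φ β).1 j) := by
      right
      have hne : ∀ (β : Mon B r) (j : A ⊕ B), ((t ^ a j)⁻¹) ^ (φ β).1 j ≠ 0 :=
        fun β j => pow_ne_zero _ (inv_ne_zero (htp _))
      rw [ord_prod P _ _ fun β => Finset.prod_ne_zero_iff.mpr fun j _ => hne β j]
      have h8 : ∀ β : Mon B r, P.ord (∏ j, ((t ^ a j)⁻¹) ^ (φ β).1 j) =
          ∑ j, -(((φ β).1 j : ℤ) * a j) := by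
        intro β
        rw [ord_prod P _ _ (hne β)]
        refine Finset.sum_congr rfl fun j _ => ?_
        rw [P.ord_pow, P.ord_inv, P.ord_pow, ht]
        ring
      simp only [h8]
      rw [Finset.sum_comm, Finset.mul_sum, ← Finset.sum_neg_distrib]
      refine Finset.sum_le_sum fun j _ => ?_
      rw [Finset.sum_neg_distrib, ← Finset.sum_mul]
      by_cases haj : a j = 0
      · rw [haj]
        simp
      · have h9 := exp_lt hr (pr H) φ hd j fun β hβ => hc β (by rw [hβ]; exact hya β j haj)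
        rw [← hγ] at h9
        have h10 : (∑ β, ((φ β).1 j : ℤ)) ≤ (γ : ℤ) - 1 := by
          have : ((∑ β, (φ β).1 j : ℕ) : ℤ) < γ := by exact_mod_cast h9
          push_cast at this
          linarith
        have h11 : (0 : ℤ) ≤ a j := by positivity
        have := mul_le_mul_of_nonneg_right h10 h11
        linarith
    rw [Finset.prod_mul_distrib]
    have h12 := (h6.mul h7).mul h5
    rwa [zero_add, add_zero] at h12
  have h13 : Ge P ((γ : ℤ) * ∑ j, (a j : ℤ)) (D.det ^ γ) := by
    right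
    rw [P.ord_pow, hDdet, P.ord_pow, ht, mul_one]
    push_cast
    exact le_rfl
  have h14 := h13.mul ((hHdet.pow γ).mul hsum)
  refine h14.mono (le_of_eq ?_)
  ring

end Pool.Agent.Y191
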