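import Pool.Agent.TH585.SV.Hyp2

/-!
Determinants of logarithmic derivatives of linear forms with variable coefficients.
-/

set_option autoImplicit false
set_option linter.unusedSectionVars false

open FF Pool.Agent.W602.GT

namespace Pool.Agent.Y191

section

variable {K : Type} [Field K]

/-- the logarithmic determinant of a basis of linear forms -/
theorem det_lin {r : ℕ} (A : Matrix (Fin (r + 1)) (Fin (r + 1)) K) {x : Fin (r + 1) → K}
    (hx : x 0 = 1) {lam : Fin (r + 1) → K} (hlam : ∀ k, lam k = ∑ a, A k a * x a)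
    (h0 : ∀ k, lam k ≠ 0) :
    (Matrix.of fun k a : Fin r => A k.succ a.succ / lam k.succ - A 0 a.succ / lam 0).det *
      ∏ k, lam k = A.det := by
  obtain ⟨C, hC⟩ : ∃ C : Matrix (Fin (r + 1)) (Fin (r + 1)) K,
      C = Matrix.of fun k b => if b = 0 then 1 else A k b / lam k := ⟨_, rfl⟩
  obtain ⟨B, hB⟩ : ∃ B : Matrix (Fin (r + 1)) (Fin (r + 1)) K,
      B = Matrix.of fun k b => if k = 0 then C 0 b else C k b - C 0 b := ⟨_, rfl⟩
  have h1 : (A.updateCol 0 lam).det = A.det := by
    have h2 := Matrix.det_updateCol_sum A 0 x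
    rw [hx, one_smul] at h2
    rw [← h2]
    congr 2
    funext k
    rw [hlam]
    exact Finset.sum_congr rfl fun i _ => by rw [smul_eq_mul, mul_comm]
  have h2 : A.updateCol 0 lam = Matrix.diagonal lam * C := by
    ext k b
    rw [Matrix.diagonal_mul, hC, Matrix.of_apply, Matrix.updateCol_apply]
    split_ifs with h
    · rw [mul_one]
    · rw [mul_div_cancel₀ _ (h0 k)]
  have h3 : C.det = B.det := by
    refine Matrix.det_eq_of_forall_row_eq_smul_add_const (fun k => if k = 0 then 0 else 1) 0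
      (if_pos rfl) fun k b => ?_
    rw [hB, Matrix.of_apply, Matrix.of_apply, if_pos rfl]
    by_cases hk : k = 0
    · rw [if_pos hk, if_pos hk, zero_mul, add_zero, hk]
    · rw [if_neg hk, if_neg hk, one_mul, sub_add_cancel]
  have h4 : B.det = (Matrix.of fun k a : Fin r => A k.succ a.succ / lam k.succ -
      A 0 a.succ / lam 0).det := by
    rw [Matrix.det_succ_column_zero, Fin.sum_univ_succ, Finset.sum_eq_zero, add_zero]
    · have h5 : B 0 0 = 1 := by
        rw [hB, Matrix.of_apply, if_pos rfl, hC, Matrix.of_apply, if_pos rfl]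
      rw [h5, Fin.val_zero, pow_zero, one_mul, one_mul]
      congr 1
      ext k a
      rw [Matrix.submatrix_apply, Matrix.of_apply, hB, Matrix.of_apply, Fin.succAbove_zero,
        if_neg (Fin.succ_ne_zero k), hC, Matrix.of_apply, Matrix.of_apply,
        if_neg (Fin.succ_ne_zero a), if_neg (Fin.succ_ne_zero a)]
    · intro k _
      have h5 : B k.succ 0 = 0 := by
        rw [hB, Matrix.of_apply, if_neg (Fin.succ_ne_zero k), hC, Matrix.of_apply,
          Matrix.of_apply, if_pos rfl, if_pos rfl, sub_self]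
      rw [h5, mul_zero, zero_mul]
  rw [← h4, ← h3, ← h1, h2, Matrix.det_mul, Matrix.det_diagonal, mul_comm]

theorem det_bd {c : ℕ} {r : Fin c → ℕ} (T : ∀ j, Matrix (Fin (r j)) (Fin (r j)) K) :
    (Matrix.blockDiagonal' T).det = ∏ j, (T j).det := by
  classical
  have h1 : (Matrix.blockDiagonal' T).BlockTriangular Sigma.fst := by
    rintro s s' h
    exact Matrix.blockDiagonal'_apply_ne T _ _ (ne_of_gt h)
  rw [h1.det_fintype]
  refine Finset.prod_congr rfl fun j _ => ?_
  let e : Fin (r j) ≃ {s : Σ j, Fin (r j) // s.1 = j} :=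
    { toFun := fun k => ⟨⟨j, k⟩, rfl⟩
      invFun := fun s => cast (congrArg (fun j => Fin (r j)) s.2) s.1.2
      left_inv := fun k => rfl
      right_inv := by
        rintro ⟨⟨j', k⟩, h⟩
        obtain rfl : j' = j := h
        rfl }
  rw [← Matrix.det_submatrix_equiv_self e]
  congr 1
  ext k k'
  change Matrix.blockDiagonal' T ⟨j, k⟩ ⟨j, k'⟩ = T j k k'
  rw [Matrix.blockDiagonal'_apply_eq]

end

section

variable {K : Type} [Field K] {c : ℕ} {r q : Fin c → ℕ}

/-- homogeneous coordinates -/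
def hcd (u : (Σ j, Fin (r j)) → K) (j : Fin c) : Fin (r j + 1) → K :=
  Fin.cons 1 fun k => u ⟨j, k⟩

/-- the values of the linear forms -/
def lmv (A : ∀ j, Fin (q j) → Fin (r j + 1) → K) (u : (Σ j, Fin (r j)) → K) (j : Fin c)
    (i : Fin (q j)) : K := ∑ k, A j i k * hcd u j k

/-- the quotients of the linear forms -/
def quo (A : ∀ j, Fin (q j) → Fin (r j + 1) → K) (u : (Σ j, Fin (r j)) → K)
    (I : ∀ j, Fin (r j + 1) → Fin (q j)) (s : Σ j, Fin (r j)) : K :=
  lmv A u s.1 (I s.1 s.2.succ) / lmv A u s.1 (I s.1 0)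

/-- the determinant of the coefficients -/
noncomputable def cdet (A : ∀ j, Fin (q j) → Fin (r j + 1) → K)
    (I : ∀ j, Fin (r j + 1) → Fin (q j)) : K :=
  ∏ j, (Matrix.of fun k a => A j (I j k) a).det

variable {A : ∀ j, Fin (q j) → Fin (r j + 1) → K} {u : (Σ j, Fin (r j)) → K}

theorem hcd_zero (j : Fin c) : hcd u j 0 = 1 := rfl

theorem hcd_succ (j : Fin c) (k : Fin (r j)) : hcd u j k.succ = u ⟨j, k⟩ := rfl

theorem lmv_eq (j : Fin c) (i : Fin (q j)) :
    lmv A u j i = A j i 0 + ∑ k, A j i k.succ * u ⟨j, k⟩ := by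
  unfold lmv
  rw [Fin.sum_univ_succ, hcd_zero, mul_one]
  rfl

variable [Algebra ℂ K]

theorem der_lmv {G : Derivation ℂ K K} (hG : ∀ j i k, G (A j i k) = 0) (j : Fin c)
    (i : Fin (q j)) : G (lmv A u j i) = ∑ k, A j i k.succ * G (u ⟨j, k⟩) := by
  rw [lmv_eq, map_add, hG, zero_add, map_sum]
  refine Finset.sum_congr rfl fun k _ => ?_
  rw [G.leibniz, hG, smul_zero, add_zero, smul_eq_mul]

theorem der_quo {G : Derivation ℂ K K} (hG : ∀ j i k, G (A j i k) = 0)
    (hl : ∀ j i, lmv A u j i ≠ 0) (I : ∀ j, Fin (r j + 1) → Fin (q j)) (j : Fin c)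
    (k : Fin (r j)) : G (quo A u I ⟨j, k⟩) / quo A u I ⟨j, k⟩ =
      ∑ a, (A j (I j k.succ) a.succ / lmv A u j (I j k.succ) -
        A j (I j 0) a.succ / lmv A u j (I j 0)) * G (u ⟨j, a⟩) := by
  have h1 : G (quo A u I ⟨j, k⟩) / quo A u I ⟨j, k⟩ =
      G (lmv A u j (I j k.succ)) / lmv A u j (I j k.succ) -
        G (lmv A u j (I j 0)) / lmv A u j (I j 0) := by
    change G (lmv A u j (I j k.succ) / lmv A u j (I j 0)) /
      (lmv A u j (I j k.succ) / lmv A u j (I j 0)) = _
    have h2 := hl j (I j k.succ)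
    have h3 := hl j (I j 0)
    rw [Derivation.leibniz_div]
    simp only [smul_eq_mul]
    field_simp
  rw [h1, der_lmv hG, der_lmv hG, Finset.sum_div, Finset.sum_div, ← Finset.sum_sub_distrib]
  refine Finset.sum_congr rfl fun a _ => ?_
  ring

/-- **The determinant of the logarithmic derivatives.** -/
theorem det_quo {e : ℕ} (σ : (Σ j, Fin (r j)) ≃ Fin e) {G : Fin e → Derivation ℂ K K}
    (hG : ∀ l j i k, G l (A j i k) = 0) (hl : ∀ j i, lmv A u j i ≠ 0)
    (I : ∀ j, Fin (r j + 1) → Fin (q j)) :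
    (Matrix.of fun i l => G i (quo A u I (σ.symm l)) / quo A u I (σ.symm l)).det *
      ∏ j, ∏ k, lmv A u j (I j k) =
    (Matrix.of fun i l => G i (u (σ.symm l))).det * cdet A I := by
  classical
  obtain ⟨T, hT⟩ : ∃ T : ∀ j, Matrix (Fin (r j)) (Fin (r j)) K, ∀ j, T j = Matrix.of fun k a =>
      A j (I j k.succ) a.succ / lmv A u j (I j k.succ) -
        A j (I j 0) a.succ / lmv A u j (I j 0) := ⟨fun _ => _, fun _ => rfl⟩
  have h1 : (Matrix.of fun i l => G i (quo A u I (σ.symm l)) / quo A u I (σ.symm l)) =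
      (Matrix.of fun i l => G i (u (σ.symm l))) *
        ((Matrix.blockDiagonal' T).submatrix σ.symm σ.symm).transpose := by
    ext i l
    rw [Matrix.mul_apply, Matrix.of_apply]
    obtain ⟨⟨j, k⟩, rfl⟩ := σ.surjective l
    rw [Equiv.symm_apply_apply, der_quo (hG i) hl]
    rw [← σ.sum_comp, Fintype.sum_sigma, Finset.sum_eq_single j]
    · refine Finset.sum_congr rfl fun a _ => ?_
      rw [Matrix.of_apply, Matrix.transpose_apply, Matrix.submatrix_apply,
        Equiv.symm_apply_apply, Equiv.symm_apply_apply, Matrix.blockDiagonal'_apply_eq, hT,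
        Matrix.of_apply]
      ring
    · intro j' _ hj'
      refine Finset.sum_eq_zero fun a _ => ?_
      rw [Matrix.of_apply, Matrix.transpose_apply, Matrix.submatrix_apply,
        Equiv.symm_apply_apply, Equiv.symm_apply_apply,
        Matrix.blockDiagonal'_apply_ne _ _ _ (Ne.symm hj'), mul_zero]
    · intro h
      exact absurd (Finset.mem_univ _) h
  rw [h1, Matrix.det_mul, Matrix.det_transpose, Matrix.det_submatrix_equiv_self, det_bd, mul_assoc,
    ← Finset.prod_mul_distrib]
  congr 1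
  unfold cdet
  refine Finset.prod_congr rfl fun j _ => ?_
  have h2 := det_lin (Matrix.of fun k a => A j (I j k) a) (x := hcd u j) (hcd_zero j)
    (lam := fun k => lmv A u j (I j k)) (fun k => rfl) fun k => hl j _
  rw [← h2, hT]
  rfl

end

end Pool.Agent.Y191
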