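import Pool.Agent.Y191.MovDet
import Pool.Agent.Y191.Loc

/-!
The forms of a family of arrangements of hyperplanes.
-/

set_option autoImplicit false
set_option linter.unusedSectionVars false

open FF Pool.Agent.W602.GT Pool.Agent.W603.LV Pool.Agent.TH585.SV

namespace Pool.Agent.Y191

/-- sequences of bases with given multiplicities -/
theorem exists_seq {q r M : ℕ} {s : Fin q → ℕ} (hs : ∑ i, s i = (r + 1) * M)
    (hsM : ∀ i, s i ≤ M) : ∃ I : Fin M → Fin (r + 1) → Fin q,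
      (∀ t, Function.Injective (I t)) ∧ ∀ (R : Type) [CommMonoid R] (f : Fin q → R),
        ∏ t, ∏ k, f (I t k) = ∏ i, f i ^ s i := by
  classical
  obtain ⟨ψ, hψ⟩ : ∃ ψ : (Σ i : Fin q, Fin (s i)) ≃ Fin (∑ i, s i), ψ = finSigmaFinEquiv :=
    ⟨_, rfl⟩
  obtain ⟨χ, hχ⟩ : ∃ χ : Fin (r + 1) × Fin M ≃ Fin (∑ i, s i),
      χ = finProdFinEquiv.trans (finCongr hs.symm) := ⟨_, rfl⟩
  refine ⟨fun t k => (ψ.symm (χ (k, t))).1, fun t k k' h => ?_, fun R _ f => ?_⟩
  · have h1 : ∀ a : Fin (∑ i, s i), (a : ℕ) =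
        ∑ j : Fin ((ψ.symm a).1 : ℕ), s (Fin.castLE (ψ.symm a).1.2.le j) + (ψ.symm a).2 := by
      intro a
      have h2 : ∀ b : (Σ i : Fin q, Fin (s i)), ((ψ b : Fin (∑ i, s i)) : ℕ) =
          ∑ j : Fin (b.1 : ℕ), s (Fin.castLE b.1.2.le j) + b.2 := by
        intro b
        rw [hψ]
        exact finSigmaFinEquiv_apply b
      have h3 := h2 (ψ.symm a)
      rwa [ψ.apply_symm_apply] at h3
    have h2 : ∀ k : Fin (r + 1), ((χ (k, t) : Fin (∑ i, s i)) : ℕ) = t + M * k := by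
      intro k
      rw [hχ]
      rfl
    have h3 := h1 (χ (k, t))
    have h4 := h1 (χ (k', t))
    rw [h2] at h3 h4
    have h5 : (ψ.symm (χ (k, t))).1 = (ψ.symm (χ (k', t))).1 := h
    have h6 : ∑ j : Fin ((ψ.symm (χ (k, t))).1 : ℕ),
        s (Fin.castLE (ψ.symm (χ (k, t))).1.2.le j) =
        ∑ j : Fin ((ψ.symm (χ (k', t))).1 : ℕ),
        s (Fin.castLE (ψ.symm (χ (k', t))).1.2.le j) := by
      rw [h5]
    have h7 := (ψ.symm (χ (k, t))).2.2
    have h8 := (ψ.symm (χ (k', t))).2.2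
    have h9 := hsM (ψ.symm (χ (k, t))).1
    have h10 := hsM (ψ.symm (χ (k', t))).1
    apply Fin.ext
    by_contra hne
    rcases lt_or_gt_of_ne hne with h11 | h11
    · have h12 : M * (k : ℕ) + M ≤ M * k' := by
        have : M * ((k : ℕ) + 1) ≤ M * k' := Nat.mul_le_mul_left _ h11
        linarith
      omega
    · have h12 : M * (k' : ℕ) + M ≤ M * k := by
        have : M * ((k' : ℕ) + 1) ≤ M * k := Nat.mul_le_mul_left _ h11
        linarith
      omega
  · rw [Finset.prod_comm, ← Fintype.prod_prod_type' (f := fun k t => f (ψ.symm (χ (k, t))).1)]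
    rw [χ.prod_comp (fun a => f (ψ.symm a).1), ψ.symm.prod_comp (fun x => f x.1),
      Fintype.prod_sigma]
    refine Finset.prod_congr rfl fun i _ => ?_
    change ∏ _y : Fin (s i), f i = _
    rw [Finset.prod_const, Finset.card_univ, Fintype.card_fin]

section

variable {K : Type} [Field K] [Algebra ℂ K] {c : ℕ} {r q : Fin c → ℕ}
variable {A : ∀ j, Fin (q j) → Fin (r j + 1) → K} {u : (Σ j, Fin (r j)) → K}

/-- `c` is the order of the point `x` and `e i` are the orders of the linear forms with the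
coefficients `A i` at the point, relative to `c` -/
def MOrd {q r : ℕ} (P : Place ℂ K) (A : Fin q → Fin (r + 1) → K) (x : Fin (r + 1) → K) (c : ℤ)
    (e : Fin q → ℕ) : Prop :=
  (∀ k, x k = 0 ∨ c ≤ P.ord (x k)) ∧ (∃ k, x k ≠ 0 ∧ P.ord (x k) = c) ∧
    ∀ i, P.ord (∑ k, A i k * x k) = c + e i

theorem exists_mord {q r : ℕ} {P : Place ℂ K} {A : Fin q → Fin (r + 1) → K}
    (hA : ∀ i k, Ge P 0 (A i k)) {x : Fin (r + 1) → K} (hx : ∃ k, x k ≠ 0)
    (hl : ∀ i, ∑ k, A i k * x k ≠ 0) : ∃ c e, MOrd P A x c e := by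
  classical
  obtain ⟨k0, hk0, hmin⟩ := Finset.exists_min_image (Finset.univ.filter fun k => x k ≠ 0)
    (fun k => P.ord (x k)) (by
      obtain ⟨k, hk⟩ := hx
      exact ⟨k, by simpa using hk⟩)
  have hk0' : x k0 ≠ 0 := by simpa using hk0
  have hge : ∀ k, Ge P (P.ord (x k0)) (x k) := by
    intro k
    by_cases h : x k = 0
    · exact Or.inl h
    · exact Or.inr (hmin k (by simpa using h))
  have h1 : ∀ i, P.ord (x k0) ≤ P.ord (∑ k, A i k * x k) := by
    intro i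
    have h2 : Ge P (P.ord (x k0)) (∑ k, A i k * x k) := by
      refine Ge.sum _ _ fun k _ => ?_
      have := (hA i k).mul (hge k)
      rwa [zero_add] at this
    exact h2.resolve_left (hl i)
  refine ⟨P.ord (x k0), fun i => (P.ord (∑ k, A i k * x k) - P.ord (x k0)).toNat, fun k => hge k,
    ⟨k0, hk0', rfl⟩, fun i => ?_⟩
  have := h1 i
  change P.ord (∑ k, A i k * x k) =
    P.ord (x k0) + (((P.ord (∑ k, A i k * x k) - P.ord (x k0)).toNat : ℕ) : ℤ)
  omega

/-- a point is not on `r + 1` hyperplanes in general position -/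
theorem gen_pos {q r : ℕ} {P : Place ℂ K} {A : Fin q → Fin (r + 1) → K}
    (hA : ∀ i k, Ge P 0 (A i k)) {x : Fin (r + 1) → K} {c : ℤ} {e : Fin q → ℕ}
    (ho : MOrd P A x c e) {I : Fin (r + 1) → Fin q}
    (hI : (Matrix.of fun k a => A (I k) a).det ≠ 0)
    (hI0 : P.ord (Matrix.of fun k a => A (I k) a).det = 0) : ∃ k, e (I k) = 0 := by
  classical
  by_contra hcon
  push Not at hcon
  obtain ⟨a, ha0, ha⟩ := ho.2.1
  have h1 := Matrix.det_updateCol_sum (Matrix.of fun k a => A (I k) a) a x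
  have h2 : Ge P (c + 1) ((Matrix.of fun k a => A (I k) a).updateCol a
      (fun k => ∑ i, (x i) • (Matrix.of fun k a => A (I k) a) k i)).det := by
    refine ge_det' P _ (c + 1) (fun _ b => if b = a then c + 1 else 0) (fun k b => ?_)
      fun σ => ?_
    · rw [Matrix.updateCol_apply]
      split_ifs with hb
      · have h3 : ∑ i, (x i) • (Matrix.of fun k a => A (I k) a) k i = ∑ i, A (I k) i * x i :=
          Finset.sum_congr rfl fun i _ => by rw [smul_eq_mul, Matrix.of_apply, mul_comm]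
        rw [h3]
        right
        rw [ho.2.2]
        have := hcon k
        omega
      · exact hA _ _
    · rw [Finset.sum_ite_eq' Finset.univ a fun _ => c + 1, if_pos (Finset.mem_univ _)]
  rw [h1, smul_eq_mul] at h2
  have h3 := h2.resolve_left (mul_ne_zero ha0 hI)
  rw [P.ord_mul ha0 hI, hI0, ha] at h3
  omega

/-- a basis which contains all hyperplanes through a point -/
theorem exists_basis {q r : ℕ} (hq : r + 1 ≤ q) {e : Fin q → ℕ}
    (h : ∀ I : Fin (r + 1) → Fin q, Function.Injective I → ∃ k, e (I k) = 0) :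
    ∃ I : Fin (r + 1) → Fin q, Function.Injective I ∧ e (I 0) = 0 ∧
      ∀ i, e i ≠ 0 → ∃ k, I k = i := by
  classical
  obtain ⟨S, hS⟩ : ∃ S : Finset (Fin q), S = Finset.univ.filter fun i => e i ≠ 0 := ⟨_, rfl⟩
  have hSc : S.card ≤ r := by
    by_contra hcon
    push Not at hcon
    obtain ⟨T, hTS, hT⟩ := Finset.exists_subset_card_eq (n := r + 1) (s := S) (by omega)
    obtain ⟨k, hk⟩ := h (fun k => ((T.equivFinOfCardEq hT).symm k : Fin q)) (by
      intro a b hab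
      exact (T.equivFinOfCardEq hT).symm.injective (Subtype.ext hab))
    have h1 : ((T.equivFinOfCardEq hT).symm k : Fin q) ∈ S := hTS (Subtype.coe_prop _)
    rw [hS, Finset.mem_filter] at h1
    exact h1.2 hk
  obtain ⟨T, hST, hT⟩ := Finset.exists_superset_card_eq (s := S) (n := r + 1) (by omega)
    (by rw [Fintype.card_fin]; exact hq)
  obtain ⟨i0, hi0, hi0S⟩ : ∃ i ∈ T, i ∉ S := by
    by_contra hcon
    push Not at hcon
    have := Finset.card_le_card hcon
    omega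
  let φ := T.equivFinOfCardEq hT
  let k0 := φ ⟨i0, hi0⟩
  refine ⟨fun k => (φ.symm (Equiv.swap 0 k0 k) : Fin q), ?_, ?_, ?_⟩
  · intro a b hab
    exact (Equiv.swap 0 k0).injective (φ.symm.injective (Subtype.ext hab))
  · change e (φ.symm (Equiv.swap 0 k0 0)) = 0
    rw [Equiv.swap_apply_left]
    change e (φ.symm (φ ⟨i0, hi0⟩)) = 0
    rw [Equiv.symm_apply_apply]
    by_contra h0
    apply hi0S
    rw [hS, Finset.mem_filter]
    exact ⟨Finset.mem_univ _, h0⟩
  · intro i hi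
    have hiT : i ∈ T := hST (by rw [hS, Finset.mem_filter]; exact ⟨Finset.mem_univ _, hi⟩)
    refine ⟨Equiv.swap 0 k0 (φ ⟨i, hiT⟩), ?_⟩
    change ((φ.symm (Equiv.swap 0 k0 (Equiv.swap 0 k0 (φ ⟨i, hiT⟩))) : T) : Fin q) = i
    rw [Equiv.swap_apply_self, Equiv.symm_apply_apply]

/-- the form of the arrangements -/
noncomputable def movf {e : ℕ} (σ : (Σ j, Fin (r j)) ≃ Fin e) (A : ∀ j, Fin (q j) → Fin (r j + 1) → K)
    (u : (Σ j, Fin (r j)) → K) (M : ℕ) (s : ∀ j, Fin (q j) → ℕ) (C : K)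
    (G : Fin e → Derivation ℂ K K) : K :=
  C * (Matrix.of fun i l => G i (u (σ.symm l))).det ^ M / ∏ j, ∏ i, lmv A u j i ^ s j i

/-- the form is a product of determinants of logarithmic derivatives -/
theorem movf_eq {e M : ℕ} (σ : (Σ j, Fin (r j)) ≃ Fin e) {s : ∀ j, Fin (q j) → ℕ}
    {I : Fin M → ∀ j, Fin (r j + 1) → Fin (q j)}
    (hI : ∀ j (f : Fin (q j) → K), ∏ t, ∏ k, f (I t j k) = ∏ i, f i ^ s j i)
    (hl : ∀ j i, lmv A u j i ≠ 0) {G : Fin e → Derivation ℂ K K}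
    (hG : ∀ l j i k, G l (A j i k) = 0) :
    movf σ A u M s (∏ t, cdet A (I t)) G =
      ∏ t, (Matrix.of fun i l => G i (quo A u (I t) (σ.symm l)) / quo A u (I t) (σ.symm l)).det := by
  have hden : ∏ j, ∏ i, lmv A u j i ^ s j i ≠ 0 :=
    Finset.prod_ne_zero_iff.2 fun j _ => Finset.prod_ne_zero_iff.2 fun i _ => pow_ne_zero _ (hl j i)
  have h1 : ∏ t : Fin M, ∏ j, ∏ k, lmv A u j (I t j k) = ∏ j, ∏ i, lmv A u j i ^ s j i := by
    rw [Finset.prod_comm]
    exact Finset.prod_congr rfl fun j _ => hI j _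
  unfold movf
  rw [div_eq_iff hden, ← h1, ← Finset.prod_mul_distrib]
  have h2 : ∀ t : Fin M, (Matrix.of fun i l => G i (quo A u (I t) (σ.symm l)) /
      quo A u (I t) (σ.symm l)).det * ∏ j, ∏ k, lmv A u j (I t j k) =
      (Matrix.of fun i l => G i (u (σ.symm l))).det * cdet A (I t) := fun t =>
    det_quo σ hG hl (I t)
  rw [Finset.prod_congr rfl fun t _ => h2 t, Finset.prod_mul_distrib, Finset.prod_const,
    Finset.card_univ, Fintype.card_fin, mul_comm]

/-- the estimate at places where the vector fields are logarithmic -/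
theorem movf_log {e M : ℕ} {P : Place ℂ K} (σ : (Σ j, Fin (r j)) ≃ Fin e)
    {s : ∀ j, Fin (q j) → ℕ} {I : Fin M → ∀ j, Fin (r j + 1) → Fin (q j)}
    (hI : ∀ j (f : Fin (q j) → K), ∏ t, ∏ k, f (I t j k) = ∏ i, f i ^ s j i)
    (hl : ∀ j i, lmv A u j i ≠ 0) {G : Fin e → Derivation ℂ K K}
    (hG : ∀ l j i k, G l (A j i k) = 0)
    (hlog : ∀ l (f : K), f ≠ 0 → Ge P 0 (G l f / f)) :
    Ge P 0 (movf σ A u M s (∏ t, cdet A (I t)) G) := by
  rw [movf_eq σ hI hl hG]
  have h1 := Ge.prod (P := P) Finset.univ (fun t : Fin M => (Matrix.of fun i l =>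
    G i (quo A u (I t) (σ.symm l)) / quo A u (I t) (σ.symm l)).det) (fun _ => 0) (fun t _ => by
      refine ge_det' P _ 0 (fun _ _ => 0) (fun i l => ?_) fun _ => by simp
      refine hlog i _ ?_
      exact div_ne_zero (hl _ _) (hl _ _))
  simpa using h1

/-- **The estimate at places which are trivial on the coefficients.** -/
theorem movf_hor {e M : ℕ} {P : Place ℂ K} (σ : (Σ j, Fin (r j)) ≃ Fin e)
    {s : ∀ j, Fin (q j) → ℕ} (hs : ∀ j, ∑ i, s j i = (r j + 1) * M)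
    (hq : ∀ j, r j + 1 ≤ q j) {C : K} (hC : Ge P 0 C)
    (hA : ∀ j i k, Ge P 0 (A j i k))
    (hdet : ∀ j (I : Fin (r j + 1) → Fin (q j)), Function.Injective I →
      (Matrix.of fun k a => A j (I k) a).det ≠ 0 ∧
      P.ord (Matrix.of fun k a => A j (I k) a).det = 0)
    (hl : ∀ j i, lmv A u j i ≠ 0) {G : Fin e → Derivation ℂ K K}
    (hG : ∀ l j i k, G l (A j i k) = 0) (hreg : ∀ l, DerReg P (G l))
    {c' : Fin c → ℤ} {ε : ∀ j, Fin (q j) → ℕ} (ho : ∀ j, MOrd P (A j) (hcd u j) (c' j) (ε j)) :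
    Ge P (∑ j, ∑ i, ((M : ℤ) - s j i) * ε j i - M * (if ∃ j i, ε j i ≠ 0 then 1 else 0))
      (movf σ A u M s C G) := by
  classical
  have hb : ∀ j, ∃ I : Fin (r j + 1) → Fin (q j), Function.Injective I ∧ ε j (I 0) = 0 ∧
      ∀ i, ε j i ≠ 0 → ∃ k, I k = i := fun j =>
    exists_basis (hq j) fun I hI => gen_pos (hA j) (ho j) (hdet j I hI).1 (hdet j I hI).2
  choose I hIi hI0 hIe using hb
  have hlo : ∀ j i, P.ord (lmv A u j i) = c' j + ε j i := fun j i => (ho j).2.2 i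
  have hcd0 : cdet A I ≠ 0 := Finset.prod_ne_zero_iff.2 fun j _ => (hdet j (I j) (hIi j)).1
  have hcdo : P.ord (cdet A I) = 0 := by
    unfold cdet
    rw [ord_prod P _ _ fun j => (hdet j (I j) (hIi j)).1]
    exact Finset.sum_eq_zero fun j _ => (hdet j (I j) (hIi j)).2
  obtain ⟨Λ, hΛ⟩ : ∃ Λ, Λ = ∏ j, ∏ k, lmv A u j (I j k) := ⟨_, rfl⟩
  have hΛ0 : Λ ≠ 0 := by
    rw [hΛ]
    exact Finset.prod_ne_zero_iff.2 fun j _ => Finset.prod_ne_zero_iff.2 fun i _ => hl _ _
  obtain ⟨den, hden⟩ : ∃ den, den = ∏ j, ∏ i, lmv A u j i ^ s j i := ⟨_, rfl⟩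
  have hden0 : den ≠ 0 := by
    rw [hden]
    exact Finset.prod_ne_zero_iff.2 fun j _ => Finset.prod_ne_zero_iff.2 fun i _ =>
      pow_ne_zero _ (hl j i)
  have hΛo : P.ord Λ = ∑ j, ((r j + 1 : ℕ) * c' j + ∑ i, (ε j i : ℤ)) := by
    rw [hΛ, ord_prod P _ _ fun j => Finset.prod_ne_zero_iff.2 fun i _ => hl _ _]
    refine Finset.sum_congr rfl fun j _ => ?_
    rw [ord_prod P _ _ fun k => hl _ _]
    simp only [hlo]
    rw [Finset.sum_add_distrib, Finset.sum_const, Finset.card_univ, Fintype.card_fin, nsmul_eq_mul]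
    congr 1
    have h1 : ∑ i, (ε j i : ℤ) = ∑ i ∈ Finset.univ.image (I j), (ε j i : ℤ) := by
      symm
      refine Finset.sum_subset (Finset.subset_univ _) fun i _ hi => ?_
      by_contra h0
      obtain ⟨k, hk⟩ := hIe j i (by exact_mod_cast h0)
      exact hi (Finset.mem_image.2 ⟨k, Finset.mem_univ _, hk⟩)
    rw [h1, Finset.sum_image fun a _ b _ hab => hIi j hab]
  have hdo : P.ord den = ∑ j, ((M : ℤ) * ((r j + 1 : ℕ) * c' j) + ∑ i, (s j i : ℤ) * ε j i) := by
    rw [hden, ord_prod P _ _ fun j => Finset.prod_ne_zero_iff.2 fun i _ =>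
      pow_ne_zero _ (hl j i)]
    refine Finset.sum_congr rfl fun j _ => ?_
    rw [ord_prod P _ _ fun i => pow_ne_zero _ (hl j i)]
    have h1 : ∀ i, P.ord (lmv A u j i ^ s j i) = s j i * c' j + s j i * ε j i := by
      intro i
      rw [P.ord_pow, hlo]
      ring
    simp only [h1]
    rw [Finset.sum_add_distrib, ← Finset.sum_mul]
    congr 1
    have h2 : ∑ i, (s j i : ℤ) = (r j + 1 : ℕ) * M := by exact_mod_cast hs j
    rw [h2]
    ring
  obtain ⟨N, hN⟩ : ∃ N, N = (Matrix.of fun i l => G i (quo A u I (σ.symm l)) /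
    quo A u I (σ.symm l)).det := ⟨_, rfl⟩
  have hquo0 : ∀ x, quo A u I x ≠ 0 := fun x => div_ne_zero (hl _ _) (hl _ _)
  have hNge : Ge P (-(if ∃ j i, ε j i ≠ 0 then 1 else 0)) N := by
    split_ifs with h0
    · rw [hN]
      exact det_log G hreg (fun l => quo A u I (σ.symm l)) fun l => hquo0 _
    · push Not at h0
      rw [hN, neg_zero]
      refine ge_det' P _ 0 (fun _ _ => 0) (fun i l => ?_) fun _ => by simp
      refine ge_logder_reg (hreg i) (hquo0 _) ?_
      change P.ord (lmv A u _ _ / lmv A u _ _) = 0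
      rw [P.ord_div (hl _ _) (hl _ _), hlo, hlo, h0, h0, sub_self]
  have hmain := det_quo σ hG hl I
  rw [← hN, ← hΛ] at hmain
  obtain ⟨Dt, hDt⟩ : ∃ Dt, Dt = (Matrix.of fun i l => G i (u (σ.symm l))).det := ⟨_, rfl⟩
  rw [← hDt] at hmain
  have hD : Dt = N * Λ / cdet A I := by
    rw [hmain, mul_div_cancel_right₀ _ hcd0]
  have h1 : movf σ A u M s C G = C * (N ^ M * (Λ ^ M / (cdet A I ^ M * den))) := by
    unfold movf
    rw [← hDt, ← hden, hD, div_pow, mul_pow]
    field_simp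
  rw [h1]
  have h2 := hC.mul ((hNge.pow M).mul (Pool.Agent.W602.GT.ge_ord P (Λ ^ M / (cdet A I ^ M * den))))
  refine h2.mono (le_of_eq ?_)
  rw [P.ord_div (pow_ne_zero _ hΛ0) (mul_ne_zero (pow_ne_zero _ hcd0) hden0),
    P.ord_mul (pow_ne_zero _ hcd0) hden0, P.ord_pow, P.ord_pow, hcdo, hΛo, hdo, Finset.mul_sum]
  have h3 : ∑ j, ∑ i, ((M : ℤ) - s j i) * ε j i =
      ∑ j, ((M : ℤ) * ((r j + 1 : ℕ) * c' j + ∑ i, (ε j i : ℤ))) -
      ∑ j, ((M : ℤ) * ((r j + 1 : ℕ) * c' j) + ∑ i, (s j i : ℤ) * ε j i) := by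
    rw [← Finset.sum_sub_distrib]
    refine Finset.sum_congr rfl fun j _ => ?_
    rw [mul_add, Finset.mul_sum, add_sub_add_left_eq_sub, ← Finset.sum_sub_distrib]
    refine Finset.sum_congr rfl fun i _ => ?_
    ring
  rw [h3]
  ring

end

end Pool.Agent.Y191
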