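import Pool.Agent.Y191.MovFib
import Pool.Agent.Y191.Weak

/-!
The Kodaira dimension of pairs with a family of arrangements of hyperplanes.
-/

set_option autoImplicit false
set_option linter.unusedSectionVars false

open FF Pool.Agent.W602.GT Pool.Agent.W603.LV Pool.Agent.TH585.SV
open Pool.Agent.Y172 (Kills kills_alg liftD)

namespace Pool.Agent.Y191

theorem exists_cden {ι : Type} [Fintype ι] (f : ι → ℚ) (hf : ∀ i, 0 ≤ f i) :
    ∃ N : ℕ, 0 < N ∧ ∀ i, ∃ m : ℕ, (m : ℚ) = N * f i := by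
  classical
  refine ⟨∏ i, (f i).den, Finset.prod_pos fun i _ => (f i).den_pos, fun i => ?_⟩
  refine ⟨(∏ i' ∈ Finset.univ.erase i, (f i').den) * (f i).num.toNat, ?_⟩
  rw [← Finset.prod_erase_mul _ _ (Finset.mem_univ i)]
  have h1 : ((f i).num.toNat : ℚ) = (f i).num := by
    have : ((f i).num.toNat : ℤ) = (f i).num := Int.toNat_of_nonneg (Rat.num_nonneg.2 (hf i))
    exact_mod_cast this
  have h2 : ((f i).den : ℚ) * f i = (f i).num := by
    rw [mul_comm]
    exact Rat.mul_den_eq_num (f i)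
  push_cast
  rw [h1, ← h2, mul_assoc]

theorem exists_pos_basis {q r : ℕ} {w : Fin q → ℚ} (hw0 : ∀ i, 0 ≤ w i) (hw1 : ∀ i, w i ≤ 1)
    (hws : (r + 1 : ℚ) ≤ ∑ i, w i) : ∃ I : Fin (r + 1) → Fin q, Function.Injective I ∧
      ∀ k, 0 < w (I k) := by
  classical
  obtain ⟨S, hS⟩ : ∃ S : Finset (Fin q), S = Finset.univ.filter fun i => 0 < w i := ⟨_, rfl⟩
  have h1 : (∑ i, w i) ≤ S.card := by
    have h2 : ∑ i, w i = ∑ i ∈ S, w i := by
      symm
      refine Finset.sum_subset (Finset.subset_univ _) fun i _ hi => ?_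
      by_contra h0
      apply hi
      rw [hS, Finset.mem_filter]
      exact ⟨Finset.mem_univ _, lt_of_le_of_ne (hw0 i) (Ne.symm h0)⟩
    rw [h2]
    calc ∑ i ∈ S, w i ≤ ∑ _i ∈ S, (1 : ℚ) := Finset.sum_le_sum fun i _ => hw1 i
      _ = S.card := by simp
  have h2 : r + 1 ≤ S.card := by
    have : ((r + 1 : ℕ) : ℚ) ≤ S.card := by
      push_cast
      exact hws.trans h1
    exact_mod_cast this
  obtain ⟨T, hTS, hT⟩ := Finset.exists_subset_card_eq h2
  refine ⟨fun k => ((T.equivFinOfCardEq hT).symm k : Fin q), fun a b hab =>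
    (T.equivFinOfCardEq hT).symm.injective (Subtype.ext hab), fun k => ?_⟩
  have h3 : ((T.equivFinOfCardEq hT).symm k : Fin q) ∈ S := hTS (Subtype.coe_prop _)
  rw [hS, Finset.mem_filter] at h3
  exact h3.2

section

variable {K : Type} [Field K] [Algebra ℂ K] {c : ℕ} {r q : Fin c → ℕ}
variable {A : ∀ j, Fin (q j) → Fin (r j + 1) → K} {u : (Σ j, Fin (r j)) → K}
variable {L : IntermediateField ℂ K}

theorem lmv_ne (hA : MovArr L A) (hu : IsTranscendenceBasis L u) (hq : ∀ j, r j + 1 ≤ q j)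
    (j : Fin c) (i : Fin (q j)) : lmv A u j i ≠ 0 := by
  classical
  have hcL : CharZero L := charZero_of_injective_algebraMap (algebraMap ℂ L).injective
  intro h0
  have h1 : ∀ a : Fin (r j), A j i a.succ = 0 := by
    intro a
    obtain ⟨D, hD⟩ := exists_der (L := L) u hu fun s => if s = ⟨j, a⟩ then 1 else 0
    have h2 := der_lmv (G := D.restrictScalars ℂ) (A := A) (u := u)
      (fun j i k => der_alg D (hA.1 j i k)) j i
    rw [h0, map_zero, Finset.sum_eq_single a] at h2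
    · have h3 : (D.restrictScalars ℂ) (u ⟨j, a⟩) = 1 := by
        have := hD ⟨j, a⟩
        rw [if_pos rfl] at this
        exact this
      rw [h3, mul_one] at h2
      exact h2.symm
    · intro b _ hb
      have h3 : (D.restrictScalars ℂ) (u ⟨j, b⟩) = 0 := by
        have := hD ⟨j, b⟩
        rw [if_neg] at this
        · exact this
        · intro h
          apply hb
          simpa using h
      rw [h3, mul_zero]
    · intro h
      exact absurd (Finset.mem_univ _) h
  have h2 : A j i 0 = 0 := by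
    rw [lmv_eq] at h0
    simp only [h1, zero_mul, Finset.sum_const_zero, add_zero] at h0
    exact h0
  have h3 : ∀ k, A j i k = 0 := by
    intro k
    refine Fin.cases h2 h1 k
  let I : Fin (r j + 1) → Fin (q j) := fun k =>
    Equiv.swap (Fin.castLE (hq j) 0) i (Fin.castLE (hq j) k)
  have hI : Function.Injective I := fun a b hab =>
    Fin.castLE_injective (hq j) ((Equiv.swap _ _).injective hab)
  apply hA.2 j I hI
  refine Matrix.det_eq_zero_of_row_eq_zero 0 fun a => ?_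
  have h4 : I 0 = i := Equiv.swap_apply_left _ _
  rw [Matrix.of_apply, h4]
  exact h3 a

/-- the admissible exponents -/
def Adm (r q : Fin c → ℕ) (w : ∀ j, Fin (q j) → ℚ) (M : ℕ) (s : ∀ j, Fin (q j) → ℕ) : Prop :=
  (∀ j, ∑ i, s j i = (r j + 1) * M) ∧ ∀ j i, (s j i : ℚ) ≤ M * w j i

theorem Adm.seq {w : ∀ j, Fin (q j) → ℚ} (hw1 : ∀ j i, w j i ≤ 1) {M : ℕ}
    {s : ∀ j, Fin (q j) → ℕ} (h : Adm r q w M s) :
    ∃ I : Fin M → ∀ j, Fin (r j + 1) → Fin (q j), (∀ t j, Function.Injective (I t j)) ∧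
      ∀ j (f : Fin (q j) → K), ∏ t, ∏ k, f (I t j k) = ∏ i, f i ^ s j i := by
  have h1 : ∀ j, ∃ I : Fin M → Fin (r j + 1) → Fin (q j), (∀ t, Function.Injective (I t)) ∧
      ∀ (R : Type) [CommMonoid R] (f : Fin (q j) → R),
        ∏ t, ∏ k, f (I t k) = ∏ i, f i ^ s j i := by
    intro j
    refine exists_seq (h.1 j) fun i => ?_
    have h2 : (s j i : ℚ) ≤ M := (h.2 j i).trans (mul_le_of_le_one_right (Nat.cast_nonneg _)
      (hw1 j i))
    exact_mod_cast h2
  choose I hI1 hI2 using h1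
  exact ⟨fun t j => I j t, fun t j => hI1 j t, fun j f => hI2 j K f⟩

/-- a change of the exponents -/
def chg (s : ∀ j, Fin (q j) → ℕ) (I : ∀ j, Fin (r j + 1) → Fin (q j)) (x : Σ j, Fin (r j)) :
    ∀ j, Fin (q j) → ℕ :=
  Function.update s x.1 fun i => s x.1 i + (if i = I x.1 0 then 1 else 0) -
    (if i = I x.1 x.2.succ then 1 else 0)

theorem chg_add {s : ∀ j, Fin (q j) → ℕ} {I : ∀ j, Fin (r j + 1) → Fin (q j)}
    (hI : ∀ j, Function.Injective (I j)) {x : Σ j, Fin (r j)} (h : 1 ≤ s x.1 (I x.1 x.2.succ))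
    (i : Fin (q x.1)) : chg s I x x.1 i + (if i = I x.1 x.2.succ then 1 else 0) =
      s x.1 i + (if i = I x.1 0 then 1 else 0) := by
  unfold chg
  rw [Function.update_self]
  have h0 : I x.1 x.2.succ ≠ I x.1 0 := fun h => Fin.succ_ne_zero _ (hI _ h)
  by_cases h1 : i = I x.1 x.2.succ
  · rw [if_pos h1, h1, if_neg h0]
    omega
  · rw [if_neg h1]
    rfl

theorem chg_prod {s : ∀ j, Fin (q j) → ℕ} {I : ∀ j, Fin (r j + 1) → Fin (q j)}
    (hI : ∀ j, Function.Injective (I j)) {x : Σ j, Fin (r j)} (h : 1 ≤ s x.1 (I x.1 x.2.succ))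
    (f : ∀ j, Fin (q j) → K) :
    (∏ j, ∏ i, f j i ^ chg s I x j i) * f x.1 (I x.1 x.2.succ) =
      (∏ j, ∏ i, f j i ^ s j i) * f x.1 (I x.1 0) := by
  classical
  have h1 : (∏ i, f x.1 i ^ chg s I x x.1 i) * f x.1 (I x.1 x.2.succ) =
      (∏ i, f x.1 i ^ s x.1 i) * f x.1 (I x.1 0) := by
    have h2 : ∀ b, f x.1 b = ∏ i, f x.1 i ^ (if i = b then 1 else 0) := by
      intro b
      rw [Finset.prod_eq_single b]
      · simp
      · intro i _ hi
        rw [if_neg hi, pow_zero]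
      · intro h
        exact absurd (Finset.mem_univ _) h
    rw [h2 (I x.1 x.2.succ), h2 (I x.1 0), ← Finset.prod_mul_distrib, ← Finset.prod_mul_distrib]
    refine Finset.prod_congr rfl fun i _ => ?_
    rw [← pow_add, ← pow_add, chg_add hI h i]
  rw [← Finset.mul_prod_erase _ _ (Finset.mem_univ x.1),
    ← Finset.mul_prod_erase Finset.univ (fun j => ∏ i, f j i ^ s j i) (Finset.mem_univ x.1)]
  have h2 : ∏ j ∈ Finset.univ.erase x.1, ∏ i, f j i ^ chg s I x j i =
      ∏ j ∈ Finset.univ.erase x.1, ∏ i, f j i ^ s j i := by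
    refine Finset.prod_congr rfl fun j hj => ?_
    have h3 : chg s I x j = s j := Function.update_of_ne (Finset.ne_of_mem_erase hj) _ _
    rw [h3]
  rw [h2, mul_right_comm, h1]
  ring

theorem Adm.chg {w : ∀ j, Fin (q j) → ℚ} {M : ℕ} {s : ∀ j, Fin (q j) → ℕ} (h : Adm r q w M s)
    {I : ∀ j, Fin (r j + 1) → Fin (q j)} (hI : ∀ j, Function.Injective (I j))
    {x : Σ j, Fin (r j)} (h1 : 1 ≤ s x.1 (I x.1 x.2.succ))
    (h2 : (s x.1 (I x.1 0) + 1 : ℚ) ≤ M * w x.1 (I x.1 0)) : Adm r q w M (chg s I x) := by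
  classical
  constructor
  · intro j
    by_cases hj : j = x.1
    · subst hj
      have h3 : ∑ i, (Pool.Agent.Y191.chg s I x x.1 i +
          (if i = I x.1 x.2.succ then 1 else 0)) =
          ∑ i, (s x.1 i + (if i = I x.1 0 then 1 else 0)) :=
        Finset.sum_congr rfl fun i _ => chg_add hI h1 i
      rw [Finset.sum_add_distrib, Finset.sum_add_distrib, Finset.sum_ite_eq',
        Finset.sum_ite_eq', if_pos (Finset.mem_univ _), if_pos (Finset.mem_univ _), h.1] at h3
      omega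
    · have h3 : Pool.Agent.Y191.chg s I x j = s j := Function.update_of_ne hj _ _
      rw [h3]
      exact h.1 j
  · intro j i
    by_cases hj : j = x.1
    · subst hj
      have h3 := chg_add hI h1 i
      by_cases h4 : i = I x.1 0
      · have h5 : Pool.Agent.Y191.chg s I x x.1 i ≤ s x.1 i + 1 := by
          rw [if_pos h4] at h3
          omega
        have h6 : (Pool.Agent.Y191.chg s I x x.1 i : ℚ) ≤ s x.1 i + 1 := by exact_mod_cast h5
        rw [h4] at h6 ⊢
        exact h6.trans h2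
      · have h5 : Pool.Agent.Y191.chg s I x x.1 i ≤ s x.1 i := by
          rw [if_neg h4] at h3
          omega
        have h6 : (Pool.Agent.Y191.chg s I x x.1 i : ℚ) ≤ s x.1 i := by exact_mod_cast h5
        exact h6.trans (h.2 _ _)
    · have h3 : Pool.Agent.Y191.chg s I x j = s j := Function.update_of_ne hj _ _
      rw [h3]
      exact h.2 j i

/-- **The forms along the fibres.** -/
theorem mov_low {N e lam : ℕ} (hA : MovArr L A) (σ : (Σ j, Fin (r j)) ≃ Fin e)
    (hu : IsTranscendenceBasis L u) {w : ∀ j, Fin (q j) → ℚ} (hw0 : ∀ j i, 0 ≤ w j i)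
    (hw1 : ∀ j i, w j i ≤ 1) (hws : ∀ j, (r j + 1 : ℚ) ≤ ∑ i, w j i)
    {κ : Fin lam → Σ j, Fin (r j)} (hκ : Function.Injective κ)
    (hκs : ∀ i, (r (κ i).1 + 1 : ℚ) < ∑ i', w (κ i).1 i')
    {X : Set (Place ℂ K)} {δ : Place ℂ K → ℝ} (hδ : ∀ P ∈ X, 0 ≤ δ P)
    (hmult : ∀ P ∈ X, (∀ f ∈ L, f ≠ 0 → P.ord f = 0) → ∀ (c' : Fin c → ℤ)
      (ε : ∀ j, Fin (q j) → ℕ), (∀ j, MOrd P (A j) (hcd u j) (c' j) (ε j)) →
      (∃ j i, ε j i ≠ 0) → 1 ≤ δ P + ∑ j, ∑ i, (1 - (w j i : ℝ)) * ε j i) :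
    ∃ M : ℕ, 0 < M ∧ ∃ θ : Fin (lam + 1) → (Fin e → Derivation L K K) → K,
      (∀ b, FibSec N M X δ L (θ b)) ∧ ∃ G, θ 0 G ≠ 0 ∧
        AlgebraicIndependent L (fun i : Fin lam => θ i.succ G / θ 0 G) := by
  classical
  have hcL : CharZero L := charZero_of_injective_algebraMap (algebraMap ℂ L).injective
  choose I hI hIw using fun j => exists_pos_basis (hw0 j) (hw1 j) (hws j)
  have hq : ∀ j, r j + 1 ≤ q j := by
    intro j
    have := Fintype.card_le_of_injective (I j) (hI j)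
    simpa using this
  have hl := lmv_ne hA hu hq
  obtain ⟨τ, hτ⟩ : ∃ τ : Fin c → ℚ, ∀ j, τ j = (r j + 1) / ∑ i, w j i := ⟨_, fun _ => rfl⟩
  have hsum : ∀ j, 0 < ∑ i, w j i := fun j => lt_of_lt_of_le (by positivity) (hws j)
  have hτ0 : ∀ j, 0 < τ j := fun j => by
    rw [hτ]
    exact div_pos (by positivity) (hsum j)
  have hτ1 : ∀ j, τ j ≤ 1 := fun j => by
    rw [hτ, div_le_one (hsum j)]
    exact hws j
  have hτs : ∀ j, τ j * ∑ i, w j i = r j + 1 := fun j => by
    rw [hτ, div_mul_cancel₀ _ (hsum j).ne']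
  obtain ⟨M, hM, hMf⟩ := exists_cden (ι := (Σ j, Fin (q j)) ⊕ (Σ j, Fin (q j)))
    (Sum.elim (fun x => τ x.1 * w x.1 x.2) fun x => w x.1 x.2) (by
      rintro (x | x)
      · exact mul_nonneg (hτ0 _).le (hw0 _ _)
      · exact hw0 _ _)
  have hM' : (0 : ℚ) < M := by exact_mod_cast hM
  choose s hs using fun j i => hMf (Sum.inl ⟨j, i⟩)
  choose sw hsw using fun j i => hMf (Sum.inr ⟨j, i⟩)
  change ∀ j i, (s j i : ℚ) = M * (τ j * w j i) at hs
  change ∀ j i, (sw j i : ℚ) = M * w j i at hsw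
  have hadm : Adm r q w M s := by
    constructor
    · intro j
      have h1 : ((∑ i, s j i : ℕ) : ℚ) = (((r j + 1) * M : ℕ) : ℚ) := by
        push_cast
        simp only [hs]
        rw [← Finset.mul_sum, ← Finset.mul_sum, hτs]
        ring
      exact_mod_cast h1
    · intro j i
      rw [hs]
      exact mul_le_mul_of_nonneg_left (mul_le_of_le_one_left (hw0 j i) (hτ1 j)) hM'.le
  have hpos : ∀ j k, 1 ≤ s j (I j k) := by
    intro j k
    have h1 : (0 : ℚ) < s j (I j k) := by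
      rw [hs]
      exact mul_pos hM' (mul_pos (hτ0 j) (hIw j k))
    exact_mod_cast h1
  have hgap : ∀ j k, (r j + 1 : ℚ) < ∑ i, w j i → (s j (I j k) + 1 : ℚ) ≤ M * w j (I j k) := by
    intro j k hj
    have h1 : τ j < 1 := by
      rw [hτ, div_lt_one (hsum j)]
      exact hj
    have h2 : (s j (I j k) : ℚ) < sw j (I j k) := by
      rw [hs, hsw]
      refine mul_lt_mul_of_pos_left ?_ hM'
      have := hIw j k
      nlinarith
    have h3 : s j (I j k) + 1 ≤ sw j (I j k) := by exact_mod_cast h2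
    rw [← hsw]
    exact_mod_cast h3
  -- the exponents
  obtain ⟨v, hv⟩ : ∃ v : Fin (lam + 1) → ∀ j, Fin (q j) → ℕ,
      v = Fin.cons s fun i => chg s I (κ i) := ⟨_, rfl⟩
  have hv0 : v 0 = s := by rw [hv]; rfl
  have hvs : ∀ i : Fin lam, v i.succ = chg s I (κ i) := fun i => by rw [hv]; rfl
  have hvadm : ∀ b, Adm r q w M (v b) := by
    intro b
    refine Fin.cases ?_ (fun i => ?_) b
    · rw [hv0]
      exact hadm
    · rw [hvs]
      exact hadm.chg hI (hpos _ _) (hgap _ _ (hκs i))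
  choose J hJ1 hJ2 using fun b => (hvadm b).seq (K := K) hw1
  obtain ⟨C, hC⟩ : ∃ C : Fin (lam + 1) → K, ∀ b, C b = ∏ t, cdet A (J b t) := ⟨_, fun _ => rfl⟩
  have hC0 : ∀ b, C b ≠ 0 := fun b => by
    rw [hC]
    exact Finset.prod_ne_zero_iff.2 fun t _ => hA.cdet_ne (hJ1 b t)
  have hCa : ∀ b, IsAlgebraic L (C b) := fun b => by
    rw [hC]
    have h1 : (∏ t, cdet A (J b t)) ∈ algebraicClosure L K :=
      prod_mem fun t _ => mem_algebraicClosure_iff.2 (hA.alg_cdet _)
    exact mem_algebraicClosure_iff.1 h1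
  refine ⟨M, hM, fun b G => movf σ A u M (v b) (∏ t, cdet A (J b t)) fun i =>
    (G i).restrictScalars ℂ, fun b => mov_fib hA σ hq hl (hvadm b).1 (hvadm b).2 (hJ2 b) hδ hmult, ?_⟩
  have hG : ∀ l : Fin e, ∃ D : Derivation L K K, ∀ x, D (u x) = if σ x = l then 1 else 0 :=
    fun l => exists_der (L := L) u hu _
  choose G hG using hG
  have hval : ∀ b, movf σ A u M (v b) (∏ t, cdet A (J b t)) (fun i =>
      (G i).restrictScalars ℂ) = C b / ∏ j, ∏ i, lmv A u j i ^ v b j i := by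
    intro b
    unfold movf
    have h1 : (Matrix.of fun i l => ((G i).restrictScalars ℂ) (u (σ.symm l))) = 1 := by
      ext i l
      rw [Matrix.of_apply, Matrix.one_apply]
      have h2 := hG i (σ.symm l)
      rw [Equiv.apply_symm_apply] at h2
      change (G i) (u (σ.symm l)) = _
      rw [h2]
      by_cases h : i = l
      · rw [if_pos h, if_pos h.symm]
      · rw [if_neg h, if_neg (Ne.symm h)]
    rw [h1, Matrix.det_one, one_pow, mul_one, ← hC]
  have hden : ∀ b, ∏ j, ∏ i, lmv A u j i ^ v b j i ≠ 0 := fun b =>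
    Finset.prod_ne_zero_iff.2 fun j _ => Finset.prod_ne_zero_iff.2 fun i _ => pow_ne_zero _ (hl j i)
  refine ⟨G, ?_, ?_⟩
  · change movf σ A u M (v 0) (∏ t, cdet A (J 0 t)) (fun i => (G i).restrictScalars ℂ) ≠ 0
    rw [hval]
    exact div_ne_zero (hC0 0) (hden 0)
  · simp only [hval]
    have h1 : ∀ i : Fin lam, C i.succ / (∏ j, ∏ i', lmv A u j i' ^ v i.succ j i') /
        (C 0 / ∏ j, ∏ i', lmv A u j i' ^ v 0 j i') = (C i.succ / C 0) * quo A u I (κ i) := by
      intro i
      have h2 := chg_prod (s := s) hI (x := κ i) (hpos _ _) (lmv A u)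
      rw [← hvs, ← hv0] at h2
      have h3 := hden i.succ
      have h4 := hden 0
      have h5 := hC0 0
      have h6 := hl (κ i).1 (I (κ i).1 0)
      change _ = (C i.succ / C 0) * (lmv A u (κ i).1 (I (κ i).1 (κ i).2.succ) /
        lmv A u (κ i).1 (I (κ i).1 0))
      rw [div_div_div_eq, div_mul_div_comm, div_eq_div_iff (mul_ne_zero h3 h5)
        (mul_ne_zero h5 h6)]
      linear_combination (-(C i.succ * C 0)) * h2
    rw [funext h1]
    obtain ⟨κ', hκ'⟩ : ∃ κ' : (Σ j, Fin (r j)) → K, ∀ x, κ' x =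
        if h : ∃ i, κ i = x then C h.choose.succ / C 0 else 1 := ⟨_, fun _ => rfl⟩
    have h2 : ∀ i, κ' (κ i) = C i.succ / C 0 := by
      intro i
      have h3 : ∃ i', κ i' = κ i := ⟨i, rfl⟩
      rw [hκ', dif_pos h3, hκ h3.choose_spec]
    have h3 := quo_basis hA hu hl hI (κ := κ') (fun x => by
        rw [hκ']
        split_ifs with h
        · exact mem_algebraicClosure_iff.1 (div_mem (mem_algebraicClosure_iff.2 (hCa _))
            (mem_algebraicClosure_iff.2 (hCa 0)))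
        · exact isAlgebraic_one)
      (fun x => by
        rw [hκ']
        split_ifs with h
        · exact div_ne_zero (hC0 _) (hC0 0)
        · exact one_ne_zero)
    have h4 := h3.1.comp κ hκ
    have h5 : (fun i => (C i.succ / C 0) * quo A u I (κ i)) =
        (fun x => κ' x * quo A u I x) ∘ κ := by
      funext i
      change _ = κ' (κ i) * quo A u I (κ i)
      rw [h2]
    rw [h5]
    exact h4

end

end Pool.Agent.Y191
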