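import Pool.Agent.Y191.Sym

/-!
The determinant attached to the first rows of a square matrix and a family of forms.
-/

set_option autoImplicit false

open MvPolynomial Matrix

namespace Pool.Agent.Y191

/-- a multilinear function which vanishes on generators vanishes -/
theorem multi_span {ι R M N : Type*} [Fintype ι] [DecidableEq ι] [CommRing R] [AddCommGroup M]
    [Module R M] [AddCommGroup N] [Module R N] (φ : (ι → M) → N)
    (hadd : ∀ (m : ι → M) (i : ι) (a b : M), φ (Function.update m i (a + b)) =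
      φ (Function.update m i a) + φ (Function.update m i b))
    (hsmul : ∀ (m : ι → M) (i : ι) (c : R) (a : M), φ (Function.update m i (c • a)) =
      c • φ (Function.update m i a)) (s : ι → Set M)
    (h : ∀ m, (∀ i, m i ∈ s i) → φ m = 0) (m : ι → M)
    (hm : ∀ i, m i ∈ Submodule.span R (s i)) : φ m = 0 := by
  have key : ∀ F : Finset ι, ∀ m : ι → M, (∀ i ∈ F, m i ∈ Submodule.span R (s i)) →
      (∀ i, i ∉ F → m i ∈ s i) → φ m = 0 := by
    intro F
    induction F using Finset.induction_on with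
    | empty => exact fun m _ h2 => h m fun i => h2 i (Finset.notMem_empty i)
    | insert i F hi ih =>
      intro m h1 h2
      have h3 : ∀ y ∈ Submodule.span R (s i), φ (Function.update m i y) = 0 := by
        intro y hy
        induction hy using Submodule.span_induction with
        | mem y hy =>
          refine ih _ (fun j hj => ?_) fun j hj => ?_
          · have hji : j ≠ i := fun e => hi (e ▸ hj)
            rw [Function.update_of_ne hji]
            exact h1 j (Finset.mem_insert_of_mem hj)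
          · by_cases hji : j = i
            · subst hji
              rw [Function.update_self]
              exact hy
            · rw [Function.update_of_ne hji]
              exact h2 j (by rw [Finset.mem_insert]; exact fun h => h.elim hji hj)
        | zero =>
          have := hsmul m i 0 0
          rwa [zero_smul, zero_smul] at this
        | add a b _ _ ha hb => rw [hadd, ha, hb, add_zero]
        | smul c a _ ha => rw [hsmul, ha, smul_zero]
      have h4 := h3 (m i) (h1 i (Finset.mem_insert_self i F))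
      rwa [Function.update_eq_self] at h4
  exact key Finset.univ m (fun i _ => hm i) fun i hi => absurd (Finset.mem_univ i) hi

variable {K : Type*} [Field K]

/-- a family of vectors spanning the space contains a basis -/
theorem exists_det {ρ : Type*} [Fintype ρ] [DecidableEq ρ] (s : Set (ρ → K))
    (hs : Submodule.span K s = ⊤) : ∃ m : ρ → ρ → K, (∀ i, m i ∈ s) ∧ (Matrix.of m).det ≠ 0 := by
  by_contra hcon
  push Not at hcon
  have h1 := multi_span (R := K) (fun m : ρ → ρ → K => (Matrix.of m).det)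
    (fun m i a b => Matrix.det_updateRow_add (Matrix.of m) i a b)
    (fun m i c a => Matrix.det_updateRow_smul (Matrix.of m) i c a) (fun _ => s) hcon
    (fun i => (1 : Matrix ρ ρ K) i) (fun i => by rw [hs]; trivial)
  have h2 : (Matrix.of fun i => (1 : Matrix ρ ρ K) i) = 1 := rfl
  rw [h2, det_one] at h1
  exact one_ne_zero h1

variable {A B : Type*} [Fintype A] [DecidableEq A] [Fintype B] [DecidableEq B]

/-- standard basis vectors as rows -/
def er (ψ : B → A ⊕ B) : Matrix B (A ⊕ B) K := Matrix.of fun b => Pi.single (ψ b) 1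

theorem fromRows_update (v : Matrix A (A ⊕ B) K) (c : Matrix B (A ⊕ B) K) (b : B)
    (x : A ⊕ B → K) : fromRows v (Matrix.of (Function.update (fun b => c b) b x)) =
      (fromRows v c).updateRow (Sum.inr b) x := by
  refine Matrix.ext fun i j => ?_
  rcases i with a | b'
  · rw [Matrix.updateRow_ne (by simp)]
    rfl
  · by_cases h : b' = b
    · subst h
      rw [Matrix.updateRow_self]
      change Function.update (fun b => c b) b' x b' j = _
      rw [Function.update_self]
    · rw [Matrix.updateRow_ne (by simpa using h)]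
      change Function.update (fun b => c b) b x b' j = _
      rw [Function.update_of_ne h]
      rfl

/-- completion by standard basis vectors -/
theorem exists_er {v : Matrix A (A ⊕ B) K} {c : Matrix B (A ⊕ B) K}
    (h : (fromRows v c).det ≠ 0) : ∃ ψ : B → A ⊕ B, (fromRows v (er ψ)).det ≠ 0 := by
  by_contra hcon
  push Not at hcon
  apply h
  refine multi_span (R := K) (fun m : B → (A ⊕ B) → K => (fromRows v (Matrix.of m)).det)
    (fun m i a b => ?_) (fun m i c a => ?_)
    (fun _ => Set.range fun j : A ⊕ B => Pi.single j 1) (fun m hm => ?_) (fun b => c b)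
    fun b => ?_
  · have h1 : ∀ x, fromRows v (Matrix.of (Function.update m i x)) =
        (fromRows v (Matrix.of m)).updateRow (Sum.inr i) x :=
      fun x => fromRows_update v (Matrix.of m) i x
    simp only [h1]
    exact Matrix.det_updateRow_add _ _ _ _
  · have h1 : ∀ x, fromRows v (Matrix.of (Function.update m i x)) =
        (fromRows v (Matrix.of m)).updateRow (Sum.inr i) x :=
      fun x => fromRows_update v (Matrix.of m) i x
    simp only [h1]
    exact Matrix.det_updateRow_smul _ _ _ _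
  · choose ψ hψ using hm
    have h1 : m = fun b => Pi.single (ψ b) 1 := funext fun b => (hψ b).symm
    rw [h1]
    exact hcon ψ
  · have h1 : (fun j => c b j) = ∑ j, c b j • (Pi.single j 1 : A ⊕ B → K) := by
      funext i
      rw [Finset.sum_apply, Finset.sum_eq_single i]
      · simp
      · intro j _ hj
        simp [Pi.single_eq_of_ne hj.symm]
      · simp
    change (fun j => c b j) ∈ _
    rw [h1]
    exact Submodule.sum_mem _ fun j _ => Submodule.smul_mem _ _ (Submodule.subset_span ⟨j, rfl⟩)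

/-- the projection along the first rows -/
noncomputable def pr (H : Matrix (A ⊕ B) (A ⊕ B) K) : Matrix B (A ⊕ B) K :=
  Matrix.of fun b i => H⁻¹ i (Sum.inr b)

theorem mul_pr {H : Matrix (A ⊕ B) (A ⊕ B) K} (hH : H.det ≠ 0) :
    H * (pr H)ᵀ = fromRows 0 1 := by
  have h1 : H * H⁻¹ = 1 := Matrix.mul_nonsing_inv H (isUnit_iff_ne_zero.mpr hH)
  refine Matrix.ext fun i b => ?_
  have h2 : (H * (pr H)ᵀ) i b = (H * H⁻¹) i (Sum.inr b) := by
    rw [Matrix.mul_apply, Matrix.mul_apply]
    rfl
  rw [h2, h1]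
  rcases i with a | b'
  · rw [Matrix.one_apply_ne (by simp)]
    rfl
  · by_cases h : b' = b
    · subst h
      rw [Matrix.one_apply_eq]
      change _ = (1 : Matrix B B K) b' b'
      rw [Matrix.one_apply_eq]
    · rw [Matrix.one_apply_ne (by simpa using h)]
      change _ = (1 : Matrix B B K) b' b
      rw [Matrix.one_apply_ne h]

theorem pr_eq {H : Matrix (A ⊕ B) (A ⊕ B) K} (hH : H.det ≠ 0) {F : Matrix B (A ⊕ B) K}
    (h : H * Fᵀ = fromRows 0 1) : pr H = F := by
  have h1 : H⁻¹ * (H * Fᵀ) = H⁻¹ * (H * (pr H)ᵀ) := by rw [h, mul_pr hH]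
  rw [← Matrix.mul_assoc, ← Matrix.mul_assoc,
    Matrix.nonsing_inv_mul H (isUnit_iff_ne_zero.mpr hH), Matrix.one_mul, Matrix.one_mul] at h1
  have h2 := congrArg Matrix.transpose h1
  rw [transpose_transpose, transpose_transpose] at h2
  exact h2.symm

/-- the determinant -/
noncomputable def Om {r : ℕ} (y : Mon B r → MvPolynomial (A ⊕ B) K)
    (H : Matrix (A ⊕ B) (A ⊕ B) K) : K :=
  H.det ^ gam (Fintype.card B) r *
    (cm (fun β => sb (pr H) (y β)) : Matrix (Mon B r) (Mon B r) K).det

theorem gam_pos (m : ℕ) {r : ℕ} (hr : 0 < r) : 0 < gam m r := Nat.choose_pos (by omega)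

theorem Om_zero {r : ℕ} (hr : 0 < r) (y : Mon B r → MvPolynomial (A ⊕ B) K)
    {H : Matrix (A ⊕ B) (A ⊕ B) K} (hH : H.det = 0) : Om y H = 0 := by
  unfold Om
  rw [hH, zero_pow (gam_pos _ hr).ne', zero_mul]

theorem Om_block [CharZero K] {r : ℕ} (hr : 0 < r) {y : Mon B r → MvPolynomial (A ⊕ B) K}
    (hy : ∀ β, (y β).IsHomogeneous r) (M : Matrix A A K) (P : Matrix B A K) (Q : Matrix B B K)
    (hQ : Q.det ≠ 0) (H : Matrix (A ⊕ B) (A ⊕ B) K) :
    Om y (fromBlocks M 0 P Q * H) = M.det ^ gam (Fintype.card B) r * Om y H := by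
  by_cases hM : M.det = 0
  · rw [hM, zero_pow (gam_pos _ hr).ne', zero_mul]
    apply Om_zero hr
    rw [det_mul, det_fromBlocks_zero₁₂, hM, zero_mul, zero_mul]
  by_cases hH : H.det = 0
  · rw [Om_zero hr y hH, mul_zero]
    apply Om_zero hr
    rw [det_mul, hH, mul_zero]
  have hR : (fromBlocks M 0 P Q * H).det ≠ 0 := by
    rw [det_mul, det_fromBlocks_zero₁₂]
    exact mul_ne_zero (mul_ne_zero hM hQ) hH
  have hQQ : Q * Q⁻¹ = 1 := Matrix.mul_nonsing_inv Q (isUnit_iff_ne_zero.mpr hQ)
  have hpr : pr (fromBlocks M 0 P Q * H) = (Q⁻¹)ᵀ * pr H := by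
    apply pr_eq hR
    rw [transpose_mul, transpose_transpose, Matrix.mul_assoc, ← Matrix.mul_assoc H,
      mul_pr hH, fromRows_mul, Matrix.zero_mul, Matrix.one_mul, fromBlocks_mul_fromRows,
      Matrix.mul_zero, Matrix.zero_mul, Matrix.mul_zero, zero_add, zero_add, hQQ]
  have hcm : (cm (fun β => sb (pr (fromBlocks M 0 P Q * H)) (y β)) :
      Matrix (Mon B r) (Mon B r) K) = Sm r (Q⁻¹)ᵀ * cm (fun β => sb (pr H) (y β)) := by
    rw [hpr]
    simp only [sb_mul]
    exact cm_sb (r := r) (Q⁻¹)ᵀ fun β => sb_hom (pr H) (hy β)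
  unfold Om
  rw [hcm, det_mul, det_mul, det_Sm r hr, det_transpose, det_fromBlocks_zero₁₂]
  have h1 : Q.det * (Q⁻¹).det = 1 := by rw [← det_mul, hQQ, det_one]
  have h2 : Q.det ^ gam (Fintype.card B) r * (Q⁻¹).det ^ gam (Fintype.card B) r = 1 := by
    rw [← mul_pow, h1, one_pow]
  simp only [mul_pow]
  linear_combination (M.det ^ gam (Fintype.card B) r * H.det ^ gam (Fintype.card B) r *
    (cm (fun β => sb (pr H) (y β)) : Matrix (Mon B r) (Mon B r) K).det) * h2

/-- independence of the completion -/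
theorem Om_compl [CharZero K] {r : ℕ} (hr : 0 < r) {y : Mon B r → MvPolynomial (A ⊕ B) K}
    (hy : ∀ β, (y β).IsHomogeneous r) {v : Matrix A (A ⊕ B) K} {c c' : Matrix B (A ⊕ B) K}
    (h : (fromRows v c).det ≠ 0) (h' : (fromRows v c').det ≠ 0) :
    Om y (fromRows v c) = Om y (fromRows v c') := by
  set H := fromRows v c with hH
  set H' := fromRows v c' with hH'
  have hHH : H * H⁻¹ = 1 := Matrix.mul_nonsing_inv H (isUnit_iff_ne_zero.mpr h)
  have hHH' : H⁻¹ * H = 1 := Matrix.nonsing_inv_mul H (isUnit_iff_ne_zero.mpr h)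
  set R := H' * H⁻¹ with hR
  have hRH : R * H = H' := by rw [hR, Matrix.mul_assoc, hHH', Matrix.mul_one]
  have htop : ∀ a j, R (Sum.inl a) j = (1 : Matrix (A ⊕ B) (A ⊕ B) K) (Sum.inl a) j := by
    intro a j
    rw [← hHH, hR, Matrix.mul_apply, Matrix.mul_apply]
    rfl
  have h11 : R.toBlocks₁₁ = 1 := by
    refine Matrix.ext fun a a' => ?_
    rw [toBlocks₁₁, Matrix.of_apply, htop]
    by_cases haa : a = a'
    · subst haa; rw [Matrix.one_apply_eq, Matrix.one_apply_eq]
    · rw [Matrix.one_apply_ne haa, Matrix.one_apply_ne (by simpa using haa)]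
  have h12 : R.toBlocks₁₂ = 0 := by
    refine Matrix.ext fun a b => ?_
    rw [toBlocks₁₂, Matrix.of_apply, htop, Matrix.one_apply_ne (by simp)]
    rfl
  have hRb : R = fromBlocks 1 0 R.toBlocks₂₁ R.toBlocks₂₂ := by
    conv_lhs => rw [← fromBlocks_toBlocks R, h11, h12]
  have hdet : R.det = R.toBlocks₂₂.det := by
    conv_lhs => rw [hRb, det_fromBlocks_zero₁₂, det_one, one_mul]
  have hQ : R.toBlocks₂₂.det ≠ 0 := by
    intro h0
    apply h'
    rw [← hRH, det_mul, hdet, h0, zero_mul]
  have h1 := Om_block hr hy 1 R.toBlocks₂₁ R.toBlocks₂₂ hQ H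
  rw [← hRb, hRH, det_one, one_pow, one_mul] at h1
  exact h1.symm

/-- change of coordinates -/
theorem Om_right {r : ℕ} (hr : 0 < r) (y : Mon B r → MvPolynomial (A ⊕ B) K)
    (H Θ : Matrix (A ⊕ B) (A ⊕ B) K) (hΘ : Θ.det ≠ 0) :
    Om y (H * Θ) = Θ.det ^ gam (Fintype.card B) r * Om (fun β => sb (Θ⁻¹)ᵀ (y β)) H := by
  by_cases hH : H.det = 0
  · rw [Om_zero hr _ hH, mul_zero]
    apply Om_zero hr
    rw [det_mul, hH, zero_mul]
  have hpr : pr (H * Θ) = pr H * (Θ⁻¹)ᵀ := by
    apply pr_eq (by rw [det_mul]; exact mul_ne_zero hH hΘ)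
    rw [transpose_mul, transpose_transpose, Matrix.mul_assoc, ← Matrix.mul_assoc Θ,
      Matrix.mul_nonsing_inv Θ (isUnit_iff_ne_zero.mpr hΘ), Matrix.one_mul, mul_pr hH]
  unfold Om
  rw [hpr, det_mul, mul_pow]
  simp only [sb_mul]
  ring

theorem sb_monomial {ι : Type*} [Fintype ι] (G : Matrix B ι K) (α : ι →₀ ℕ) :
    sb G (monomial α 1) = ∏ i, (∑ b, C (G b i) * X b) ^ α i := by
  rw [monomial_eq, C_1, one_mul, Finsupp.prod_fintype _ _ (by intro; simp), map_prod]
  simp only [map_pow, sb_X]

/-- a nonvanishing determinant has a nonvanishing term -/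
theorem exists_perm {ρ : Type*} [Fintype ρ] [DecidableEq ρ] {M : Matrix ρ ρ K} (h : M.det ≠ 0) :
    ∃ σ : Equiv.Perm ρ, ∀ i, M (σ i) i ≠ 0 := by
  rw [Matrix.det_apply'] at h
  obtain ⟨σ, -, hσ⟩ := Finset.exists_ne_zero_of_sum_ne_zero h
  exact ⟨σ, fun i => Finset.prod_ne_zero_iff.mp (right_ne_zero_of_mul hσ) i (Finset.mem_univ i)⟩

/-- The exponents in a nonvanishing determinant. -/
theorem exp_lt {ι : Type*} [Fintype ι] [DecidableEq ι] {r : ℕ} (hr : 0 < r) (G : Matrix B ι K)
    (φ : Mon B r → Mon ι r)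
    (hdet : (cm (fun β => sb G (monomial (φ β).1 1)) : Matrix (Mon B r) (Mon B r) K).det ≠ 0)
    (j : ι) (hj : ∀ β, (φ β).1 ≠ Finsupp.single j r) :
    ∑ β, (φ β).1 j < gam (Fintype.card B) r := by
  by_cases hG : ∀ b, G b j = 0
  · have h1 : ∀ β, (φ β).1 j = 0 := by
      intro β
      by_contra h0
      apply hdet
      refine Matrix.det_eq_zero_of_column_eq_zero β fun β' => ?_
      change coeff β'.1 (sb G (monomial (φ β).1 1)) = 0
      rw [sb_monomial, Finset.prod_eq_zero (Finset.mem_univ j), coeff_zero]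
      rw [Finset.sum_eq_zero fun b _ => by rw [hG b, C_0, zero_mul], zero_pow h0]
    rw [Finset.sum_eq_zero fun β _ => h1 β]
    exact gam_pos _ hr
  · push Not at hG
    obtain ⟨b1, hb1⟩ := hG
    obtain ⟨g, hg⟩ : ∃ g : B → K, g = fun b => G b j := ⟨_, rfl⟩
    obtain ⟨M, hM⟩ : ∃ M : Matrix B B K, M = (1 : Matrix B B K).updateCol b1 g := ⟨_, rfl⟩
    have hMdet : M.det = G b1 j := by
      rw [hM, ← Matrix.cramer_apply, Matrix.cramer_one]
      rw [hg]
      rfl
    have hMu : IsUnit M.det := isUnit_iff_ne_zero.mpr (by rw [hMdet]; exact hb1)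
    have hMe : M.mulVec (Pi.single b1 1) = g := by
      rw [Matrix.mulVec_single_one, hM]
      funext b
      change (1 : Matrix B B K).updateCol b1 g b b1 = g b
      rw [Matrix.updateCol_self]
    obtain ⟨G', hG'⟩ : ∃ G' : Matrix B ι K, G' = M⁻¹ * G := ⟨_, rfl⟩
    have hGG' : G = M * G' := by
      rw [hG', ← Matrix.mul_assoc, Matrix.mul_nonsing_inv M hMu, Matrix.one_mul]
    have hG'j : ∀ b, G' b j = if b = b1 then 1 else 0 := by
      intro b
      have h1 : G' b j = (M⁻¹.mulVec g) b := by
        rw [hG', Matrix.mul_apply, hg]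
        rfl
      rw [h1, ← hMe, Matrix.mulVec_mulVec, Matrix.nonsing_inv_mul M hMu, Matrix.one_mulVec,
        Pi.single_apply]
    have h2 : (cm (fun β => sb G (monomial (φ β).1 1)) : Matrix (Mon B r) (Mon B r) K) =
        Sm r M * cm (fun β => sb G' (monomial (φ β).1 1)) := by
      have h3 := cm_sb (r := r) M (y := fun β : Mon B r => sb G' (monomial (φ β).1 1)) fun β =>
        sb_hom _ (isHomogeneous_monomial _ (φ β).deg)
      refine Eq.trans ?_ h3
      simp only [← sb_mul, ← hGG']
    rw [h2, det_mul] at hdet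
    obtain ⟨σ, hσ⟩ := exists_perm (right_ne_zero_of_mul hdet)
    have h4 : ∀ β, (φ β).1 j ≤ (σ β).1 b1 := by
      intro β
      have h5 : coeff (σ β).1 (sb G' (monomial (φ β).1 1)) ≠ 0 := hσ β
      have h6 : (∑ b, C (G' b j) * X b : MvPolynomial B K) = X b1 := by
        rw [Finset.sum_eq_single b1]
        · rw [hG'j, if_pos rfl, C_1, one_mul]
        · intro b _ hb
          rw [hG'j, if_neg hb, C_0, zero_mul]
        · simp
      rw [sb_monomial, ← Finset.mul_prod_erase _ _ (Finset.mem_univ j), h6, X_pow_eq_monomial,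
        coeff_monomial_mul'] at h5
      by_contra hcon
      rw [if_neg] at h5
      · exact h5 rfl
      · intro h7
        apply hcon
        have := h7 b1
        rwa [Finsupp.single_eq_same] at this
    obtain ⟨β1, hβ1⟩ : ∃ β1 : Mon B r, β1.1 = Finsupp.single b1 r :=
      ⟨⟨_, mem_mon (Finsupp.degree_single b1 r)⟩, rfl⟩
    have h8 : (φ (σ.symm β1)).1 j < (σ (σ.symm β1)).1 b1 := by
      rw [Equiv.apply_symm_apply, hβ1, Finsupp.single_eq_same]
      set α := φ (σ.symm β1) with hα
      have h9 := α.deg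
      rw [Finsupp.degree_eq_sum, ← Finset.add_sum_erase _ _ (Finset.mem_univ j)] at h9
      by_contra hcon
      apply hj (σ.symm β1)
      rw [← hα]
      have h10 : ∑ i ∈ Finset.univ.erase j, α.1 i = 0 := by omega
      have h11 := Finset.sum_eq_zero_iff.mp h10
      ext i
      by_cases hi : i = j
      · subst hi
        rw [Finsupp.single_eq_same]
        omega
      · rw [Finsupp.single_eq_of_ne hi]
        exact h11 i (Finset.mem_erase.mpr ⟨hi, Finset.mem_univ i⟩)
    calc ∑ β, (φ β).1 j < ∑ β, (σ β).1 b1 :=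
          Finset.sum_lt_sum (fun β _ => h4 β) ⟨_, Finset.mem_univ _, h8⟩
      _ = ∑ β : Mon B r, β.1 b1 := Equiv.sum_comp σ fun β => β.1 b1
      _ = _ := sum_exp r hr b1

/-- expansion of the determinant -/
theorem det_cm_sum {σ : Type*} [Fintype σ] {r : ℕ} (c : Mon B r → σ → K)
    (g : σ → MvPolynomial B K) :
    (cm (fun β => ∑ s, c β s • g s) : Matrix (Mon B r) (Mon B r) K).det =
      ∑ φ : Mon B r → σ, (∏ β, c β (φ β)) *
        (cm (fun β => g (φ β)) : Matrix (Mon B r) (Mon B r) K).det := by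
  classical
  have h1 : ∀ y : Mon B r → MvPolynomial B K,
      (cm y : Matrix (Mon B r) (Mon B r) K).det =
        Matrix.detRowAlternating (R := K) fun β : Mon B r => fun β' : Mon B r => coeff β'.1 (y β) := by
    intro y
    rw [← Matrix.det_transpose]
    rfl
  rw [h1]
  have h2 : (fun β : Mon B r => fun β' : Mon B r => coeff β'.1 (∑ s, c β s • g s)) =
      fun β : Mon B r => ∑ s, c β s • fun β' : Mon B r => coeff β'.1 (g s) := by
    funext β β'
    rw [coeff_sum, Finset.sum_apply]
    rfl
  rw [h2]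
  have h3 := (Matrix.detRowAlternating (R := K) (n := Mon B r)).toMultilinearMap.map_sum
    (fun (β : Mon B r) (s : σ) => c β s • fun β' : Mon B r => coeff β'.1 (g s))
  refine h3.trans ?_
  refine Finset.sum_congr rfl fun φ _ => ?_
  rw [h1]
  have h4 := (Matrix.detRowAlternating (R := K) (n := Mon B r)).toMultilinearMap.map_smul_univ
    (fun β => c β (φ β)) fun (β : Mon B r) (β' : Mon B r) => coeff β'.1 (g (φ β))
  exact h4

end Pool.Agent.Y191
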