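import Pool.Agent.Y191.Cyc3
import Pool.Agent.Y172.Cov3

/-!
The descent of forms along the fibres from a finite extension.
-/

set_option autoImplicit false
set_option linter.overlappingInstances false
set_option linter.unusedSectionVars false

open FF Pool.Agent.W602.GT Pool.Agent.W603.LV Pool.Agent.W619.PQ Pool.Agent.W619.Y
open Pool.Agent.TH585.SV Pool.Agent.Y172

namespace Pool.Agent.Y191

section desc

variable {k K L : Type} [Field k] [CharZero k] [Field K] [Field L] [Algebra k K] [Algebra k L]
  [Algebra K L] [IsScalarTower k K L] [FiniteDimensional K L]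

/-- the descent of functions with ratios which are independent over a subfield -/
theorem desc_over (M : IntermediateField k K) {h : ℕ} {f : Fin (h + 1) → L} (hf : ∀ l, f l ≠ 0)
    (hind : AlgebraicIndependent M (fun l : Fin h => f l.succ / f 0)) :
    ∃ (R : ℕ) (s : Fin (h + 1) → K), 1 ≤ R ∧ (∀ j, s j ≠ 0) ∧
      AlgebraicIndependent M (fun j : Fin h => s j.succ / s 0) ∧
      ∀ (P : Place k K) (c : ℤ),
        (∀ (Q : Place k L) (e : ℕ), Over Q P e → ∀ l, Ge Q (e * c) (f l)) →
          ∀ j, Ge P (R * c) (s j) := by
  classical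
  have hcK : CharZero K := charZero_of_injective_algebraMap (algebraMap k K).injective
  have hcM : CharZero M := charZero_of_injective_algebraMap (algebraMap k M).injective
  let Ω := IntermediateField.normalClosure K L (AlgebraicClosure L)
  let ik : Algebra k Ω := ((algebraMap K Ω).comp (algebraMap k K)).toAlgebra
  have htow : IsScalarTower k K Ω := IsScalarTower.of_algebraMap_eq fun _ => rfl
  have hfin : FiniteDimensional K Ω := inferInstance
  have hnorm : Normal K Ω := inferInstance
  have hgal : IsGalois K Ω := IsGalois.mk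
  obtain ⟨i0⟩ : Nonempty (L →ₐ[K] Ω) := ⟨IsScalarTower.toAlgHom K L Ω⟩
  have hι : Fintype (L →ₐ[K] Ω) := Fintype.ofFinite _
  have htM : IsScalarTower M K Ω := inferInstance
  have htML : IsScalarTower M K L := inferInstance
  obtain ⟨R, t, r, q, hR, hrq, hne, hai⟩ := Pool.Agent.W513.PG.main M Ω (L →ₐ[K] Ω) i0 h
    (fun σ l => σ (f l)) (fun l => by
      rw [Ne, map_eq_zero]
      exact hf l) (by
      have h1 : AlgebraicIndependent M (fun l : Fin h => (i0.restrictScalars M)
          (f l.succ / f 0)) := hind.map' (f := i0.restrictScalars M) i0.injective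
      convert h1 using 1
      funext l
      rw [AlgHom.restrictScalars_apply, map_div₀])
  -- the elements are invariant
  have hfix : ∀ l r, ∃ z : K, algebraMap K Ω z = esy (fun σ : L →ₐ[K] Ω => σ (f l)) r := by
    intro l r
    refine (IsGalois.mem_range_algebraMap_iff_fixed _).2 fun g => ?_
    have h1 : g (esy (fun σ : L →ₐ[K] Ω => σ (f l)) r) =
        esy (fun σ : L →ₐ[K] Ω => g (σ (f l))) r := by
      unfold esy
      rw [map_sum]
      exact Finset.sum_congr rfl fun T _ => map_prod _ _ _
    let s : (L →ₐ[K] Ω) ≃ (L →ₐ[K] Ω) :=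
      { toFun := fun σ => (g : Ω →ₐ[K] Ω).comp σ
        invFun := fun σ => (g.symm : Ω →ₐ[K] Ω).comp σ
        left_inv := fun σ => by
          ext x
          simp
        right_inv := fun σ => by
          ext x
          simp }
    rw [h1]
    exact esy_equiv (L := Ω) s (fun σ => σ (f l)) r
  choose z hz using hfix
  refine ⟨R, fun j => z (t j) (r j) ^ q j, hR, fun j => ?_, ?_, fun P c hc j => ?_⟩
  · refine pow_ne_zero _ fun h0 => hne j ?_
    have h1 := hz (t j) (r j)
    rw [h0, map_zero] at h1
    exact h1.symm
  · have h1 : AlgebraicIndependent M (fun j : Fin h => (IsScalarTower.toAlgHom M K Ω)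
        (z (t j.succ) (r j.succ) ^ q j.succ / z (t 0) (r 0) ^ q 0)) := by
      convert hai using 1
      funext j
      change algebraMap K Ω _ = _
      rw [map_div₀, map_pow, map_pow, hz, hz]
    exact AlgebraicIndependent.of_comp (IsScalarTower.toAlgHom M K Ω) h1
  · obtain ⟨Q', e', hQ'⟩ := exists_above (k := k) (L := Ω) P
    rw [← over_ge hQ', map_pow, hz]
    have h1 : ∀ σ : L →ₐ[K] Ω, Ge Q' (e' * c) (σ (f (t j))) := by
      intro σ
      obtain ⟨Q, e, e1, hQ, he1, hee, hord⟩ := below_emb σ hQ'
      rcases hc Q e hQ (t j) with h2 | h2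
      · left
        rw [h2, map_zero]
      · right
        rw [hord, hee]
        push_cast
        have : (0 : ℤ) ≤ e1 := Int.natCast_nonneg _
        calc (e1 : ℤ) * e * c = e1 * (e * c) := by ring
          _ ≤ e1 * Q.ord (f (t j)) := mul_le_mul_of_nonneg_left h2 this
    have h2 := (ge_esy (L := Ω) h1 (r j)).pow (q j)
    refine h2.mono (le_of_eq ?_)
    rw [← hrq j]
    push_cast
    ring

end desc

end Pool.Agent.Y191
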