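import Pool.Agent.Y191.Lift

/-!
The descent of forms along the fibres from extensions generated by elements which are algebraic
over the base.
-/

set_option autoImplicit false
set_option linter.overlappingInstances false
set_option linter.unusedSectionVars false

open FF Pool.Agent.W602.GT Pool.Agent.W603.LV Pool.Agent.W619.PQ Pool.Agent.W619.Y
open Pool.Agent.TH585.SV Pool.Agent.Y172

namespace Pool.Agent.Y191

section

variable {K K' : Type} [Field K] [Field K'] [Algebra ℂ K] [Algebra ℂ K'] [Algebra K K']
  [IsScalarTower ℂ K K'] {L : IntermediateField ℂ K}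

theorem upE_comp : RingHom.comp (algebraMap (upF K' L) K') (upE K' L : L →+* upF K' L) =
    RingHom.comp (RingHom.id K') (algebraMap L K') := rfl

theorem ai_up {ι : Type} {u : ι → K'} : AlgebraicIndependent (upF K' L) u ↔
    AlgebraicIndependent L u :=
  algebraicIndependent_ringHom_iff_of_comp_eq (upE K' L) (RingHom.id K') Function.injective_id
    upE_comp

theorem tb_up {ι : Type} {u : ι → K'} (h : IsTranscendenceBasis L u) :
    IsTranscendenceBasis (upF K' L) u :=
  ⟨ai_up.2 h.1, fun s hs hr => h.2 s (ai_up.1 hs) hr⟩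

theorem alg_up {a : K'} (h : IsAlgebraic L a) : IsAlgebraic (upF K' L) a :=
  h.ringHom_of_comp_eq (upE K' L) (RingHom.id K') (upE K' L).injective upE_comp

variable [FiniteDimensional K K']

theorem exists_liftF {e : ℕ} (hL : Algebra.trdeg L K = e) (D : Derivation L K K) :
    ∃ D' : Derivation (upF K' L) K' K', ∀ f, D' (algebraMap K K' f) = algebraMap K K' (D f) := by
  have : CharZero L := charZero_of_injective_algebraMap (algebraMap ℂ L).injective
  obtain ⟨D1, hD1⟩ := exists_lift (L := K') hL D
  have hk : Kills (D1.restrictScalars ℂ) (upF K' L) := by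
    intro z hz
    obtain ⟨a, ha, rfl⟩ := mem_upF.1 hz
    have h1 : D1 (algebraMap K K' a) = 0 := by
      rw [hD1]
      have h2 : D a = 0 := D.map_algebraMap (⟨a, ha⟩ : L)
      rw [h2, map_zero]
    exact h1
  exact ⟨liftD _ _ hk, fun f => hD1 f⟩

/-- **The descent of the forms along the fibres.** -/
theorem push {N e lam M : ℕ} (hM : 0 < M)
    (hL : Algebra.trdeg L K = e) {α : K'}
    (hα : IsAlgebraic (upF K' L) α) (htop : ∀ z : K', ∃ p : Polynomial K, z = Polynomial.aeval α p)
    {X : Set (Place ℂ K)} {θ' : Fin (lam + 1) → (Fin e → Derivation (upF K' L) K' K') → K'}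
    (hθ' : ∀ b, FibSec N M {Q | ∃ P ∈ X, ∃ ε, Over Q P ε} (fun _ => 0) (upF K' L) (θ' b))
    (hne : ∃ G', θ' 0 G' ≠ 0 ∧
      AlgebraicIndependent (upF K' L) (fun i : Fin lam => θ' i.succ G' / θ' 0 G')) :
    ∃ M' : ℕ, 0 < M' ∧ ∃ θ : Fin (lam + 1) → (Fin e → Derivation L K K) → K,
      (∀ b, FibSec N M' X (fun _ => 0) L (θ b)) ∧ ∃ G, θ 0 G ≠ 0 ∧
        AlgebraicIndependent L (fun i : Fin lam => θ i.succ G / θ 0 G) := by
  classical
  have hcL : CharZero L := charZero_of_injective_algebraMap (algebraMap ℂ L).injective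
  have hcU : CharZero (upF K' L) :=
    charZero_of_injective_algebraMap (algebraMap ℂ (upF K' L)).injective
  obtain ⟨G0, hG0, hind⟩ := hne
  obtain ⟨y, E, hy, hE⟩ := exists_crd hL
  have hcK : CharZero K := charZero_of_injective_algebraMap (algebraMap ℂ K).injective
  choose E' hE' using fun i => exists_liftF (K' := K') hL (E i)
  have hyL : IsTranscendenceBasis (upF K' L) (fun j => algebraMap K K' (y j)) :=
    tb_up (hy.algebraMap_comp (A := K'))
  have hEL : ∀ i j, E' i (algebraMap K K' (y j)) = if i = j then 1 else 0 := by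
    intro i j
    rw [hE', hE, apply_ite (algebraMap K K'), map_one, map_zero]
  -- the values on the lifted frame
  have hval : ∀ j (G : Fin e → Derivation (upF K' L) K' K'), θ' j G =
      (Matrix.of fun i j => G i (algebraMap K K' (y j))).det ^ M * θ' j E' :=
    fun j G => pluri_coord hyL hEL (hθ' j).1 G
  have hd0 : (Matrix.of fun i j => G0 i (algebraMap K K' (y j))).det ^ M ≠ 0 := by
    intro h0
    apply hG0
    rw [hval, h0, zero_mul]
  have hW0 : θ' 0 E' ≠ 0 := by
    intro h0
    apply hG0
    rw [hval, h0, mul_zero]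
  have hind' : AlgebraicIndependent L (fun i : Fin lam => θ' i.succ E' / θ' 0 E') := by
    have e1 : (fun i : Fin lam => θ' i.succ G0 / θ' 0 G0) =
        fun i : Fin lam => θ' i.succ E' / θ' 0 E' := by
      funext i
      rw [hval i.succ G0, hval 0 G0, mul_div_mul_left _ _ hd0]
    rw [e1] at hind
    exact ai_up.1 hind
  have hne : ∀ j, θ' j E' ≠ 0 := by
    intro j
    refine Fin.cases hW0 (fun i => ?_) j
    intro h0
    have := hind'.ne_zero i
    rw [h0, zero_div] at this
    exact this rfl
  obtain ⟨R, s, hR, hs0, hsi, hs⟩ := desc_over (K := K) L (f := fun j => θ' j E') hne hind'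
  have hEv : (Matrix.of fun i j => E i (y j) : Matrix (Fin e) (Fin e) K).det = 1 := by
    have : (Matrix.of fun i j => E i (y j) : Matrix (Fin e) (Fin e) K) = 1 := by
      ext i j
      rw [Matrix.of_apply, hE, Matrix.one_apply]
    rw [this, Matrix.det_one]
  refine ⟨M * R, Nat.mul_pos hM (by omega), fun j G => (Matrix.of fun i j => G i (y j) :
    Matrix (Fin e) (Fin e) K).det ^ (M * R) * s j, fun j => ⟨?_, ?_⟩, E, ?_, ?_⟩
  · intro A D
    have e1 : (Matrix.of fun a b => (∑ j, A a j • D j) (y b)) =
        A * Matrix.of fun a b => D a (y b) := by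
      ext a b
      rw [Matrix.of_apply, Matrix.mul_apply, sum_smul_apply]
      rfl
    change (Matrix.of fun a b => (∑ j, A a j • D j) (y b)).det ^ (M * R) * s j = _
    rw [e1, Matrix.det_mul, mul_pow, mul_assoc]
  · -- the estimate
    intro P hP hPd G hG
    obtain ⟨d, hd⟩ : ∃ d, d = (Matrix.of fun i j => G i (y j) : Matrix (Fin e) (Fin e) K).det :=
      ⟨_, rfl⟩
    change (Matrix.of fun i j => G i (y j) : Matrix (Fin e) (Fin e) K).det ^ (M * R) * s j = 0 ∨
      -(((M * R : ℕ) : ℝ) * 0) ≤ ((P.ord ((Matrix.of fun i j => G i (y j) :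
        Matrix (Fin e) (Fin e) K).det ^ (M * R) * s j) : ℤ) : ℝ)
    rw [← hd, mul_zero, neg_zero]
    by_cases hd00 : d = 0
    · left
      rw [hd00, zero_pow (Nat.mul_pos hM (by omega)).ne', zero_mul]
    choose G' hG' using fun i => exists_liftF (K' := K') hL (G i)
    have hkey : ∀ (Q : Place ℂ K') (ε : ℕ), Over Q P ε → ∀ l,
        Ge Q (ε * (-(M * P.ord d))) (θ' l E') := by
      intro Q ε hQ l
      have hreg : ∀ i, ∀ f, Q.Reg f → Q.Reg (G' i f) := by
        intro i
        have h1 := lift_reg (L := L) hα htop hQ (G := (G i).restrictScalars ℂ) (fun f hf => hG i f hf)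
          (fun a ha => (G i).map_algebraMap (⟨a, ha⟩ : L)) (G' := (G' i).restrictScalars ℂ)
          (fun f => hG' i f)
        exact h1
      have hQd : Divisorial N Q := divisorial_up hQ hPd
      have h2 := (hθ' l).2 Q ⟨P, hP, ε, hQ⟩ hQd G' hreg
      have h3 : (Matrix.of fun i j => G' i (algebraMap K K' (y j))).det = algebraMap K K' d := by
        rw [hd, RingHom.map_det]
        congr 1
        ext i j
        rw [Matrix.of_apply, RingHom.mapMatrix_apply, Matrix.map_apply, Matrix.of_apply, hG']
      rw [hval l G', h3] at h2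
      have hd0' : algebraMap K K' d ≠ 0 := by
        rw [Ne, map_eq_zero]
        exact hd00
      rcases h2 with h2 | h2
      · exact absurd h2 (mul_ne_zero (pow_ne_zero _ hd0') (hne l))
      · right
        rw [mul_zero, neg_zero] at h2
        have h4 : 0 ≤ Q.ord (algebraMap K K' d ^ M * θ' l E') := by exact_mod_cast h2
        rw [Q.ord_mul (pow_ne_zero _ hd0') (hne l), Q.ord_pow, hQ.2] at h4
        linarith
    have h5 := hs P _ hkey j
    have h6 := ((ge_ord P d).pow (M * R)).mul h5
    have h7 : ((M * R : ℕ) : ℤ) * P.ord d + R * (-(M * P.ord d)) = 0 := by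
      push_cast
      ring
    rw [h7] at h6
    rcases h6 with h6 | h6
    · exact Or.inl h6
    · right
      exact_mod_cast h6
  · change (Matrix.of fun i j => E i (y j) : Matrix (Fin e) (Fin e) K).det ^ (M * R) * s 0 ≠ 0
    rw [hEv, one_pow, one_mul]
    exact hs0 0
  · change AlgebraicIndependent L (fun i : Fin lam => (Matrix.of fun i j => E i (y j) :
      Matrix (Fin e) (Fin e) K).det ^ (M * R) * s i.succ / ((Matrix.of fun i j => E i (y j) :
      Matrix (Fin e) (Fin e) K).det ^ (M * R) * s 0))
    simp only [hEv, one_pow, one_mul]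
    exact hsi

end

end Pool.Agent.Y191
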