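import Pool.Agent.TH152.DS.LangDefs
import Pool.Agent.Y191.Lf

/-!
Quasi-projective varieties over projective space, ramified over a hyperplane arrangement with
weights.
-/

set_option autoImplicit false

open MvPolynomial Pool.Agent.W602.Cov.R Pool.Agent.TH152.HY

namespace Pool.Agent.Y191

variable {N n q : ℕ}

/-- The morphism from `X - D` to `P^n` (the second projection) is ramified over the hyperplanes
`ℓ i = 0` with weights `1 - wt i`: for every point of `X` over a field `L` with a discrete
valuation `P` whose centre is in `X - D`, not over the hyperplanes, the contact orders `e i` with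
the hyperplanes satisfy: the number of the `i` with `e i ≠ 0` is at most the sum of the
`(1 - wt i) * e i`. If `wt i = 1 - 1 / m i` then this holds if each `e i` is `0` or at least
`m i`. -/
def RamifiedWt (X D : BiSet N n) (ℓ : Fin q → Fin (n + 1) → ℂ) (wt : Fin q → ℝ) : Prop :=
  ∀ (L : Type) [Field L] [Algebra ℂ L] (a : Fin (N + 1) → L) (b : Fin (n + 1) → L), X.Mem a b →
    (∀ i, lf (ℓ i) b ≠ 0) → ∀ P : FF.Place ℂ L, ¬ CentreIn D a b P →
    ∀ (c : ℤ) (e : Fin q → ℕ), Norm P b c → (∀ i, P.ord (lf (ℓ i) b) = c + e i) →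
    ((Finset.univ.filter fun i => e i ≠ 0).card : ℝ) ≤ ∑ i, (1 - wt i) * e i

/-- The points `ℓ i` impose independent conditions on the forms of degree `d`. -/
def Independent (d : ℕ) (ℓ : Fin q → Fin (n + 1) → ℂ) : Prop :=
  ∀ i, ∃ P : MvPolynomial (Fin (n + 1)) ℂ, P.IsHomogeneous d ∧ eval (ℓ i) P ≠ 0 ∧
    ∀ j, j ≠ i → eval (ℓ j) P = 0

/-- The hyperplanes are in general position: any `n + 1` of the `ℓ i` are linearly independent. -/
def GeneralPosition (ℓ : Fin q → Fin (n + 1) → ℂ) : Prop :=
  ∀ σ : Fin (n + 1) → Fin q, Function.Injective σ → LinearIndependent ℂ fun j => ℓ (σ j)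

end Pool.Agent.Y191
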