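import Pool.Agent.Y191.QDefs
import Pool.Agent.Y191.Field
import Pool.Agent.TH152.HY.Fib

/-!
The theorem for quasi-projective varieties.
-/

set_option autoImplicit false

open MvPolynomial

namespace Pool.Agent.Y191

open Pool.Agent.W602.Cov Pool.Agent.W602.Cov.Cover Pool.Agent.W602.Cov.R
open Pool.Agent.W602.GT Pool.Agent.TH152.HY Pool.Agent.TH152.DS

variable {N n q : ℕ}

/-- a linear form as a polynomial -/
noncomputable def lp (ℓ : Fin (n + 1) → ℂ) : MvPolynomial (Fin (n + 1)) ℂ :=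
  ∑ j, C (ℓ j) * MvPolynomial.X j

theorem lp_hom (ℓ : Fin (n + 1) → ℂ) : (lp ℓ).IsHomogeneous 1 :=
  IsHomogeneous.sum _ _ _ fun j _ => by
    simpa using (isHomogeneous_C _ (ℓ j)).mul (isHomogeneous_X ℂ j)

theorem aeval_lp {L : Type} [Field L] [Algebra ℂ L] (ℓ : Fin (n + 1) → ℂ) (b : Fin (n + 1) → L) :
    aeval b (lp ℓ) = lf ℓ b := by
  unfold lp lf
  rw [map_sum]
  refine Finset.sum_congr rfl fun j _ => ?_
  rw [map_mul, aeval_C, aeval_X]

theorem genPos_of {ℓ : Fin q → Fin (n + 1) → ℂ} (h : GeneralPosition ℓ) : GenPos ℓ := by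
  intro σ hσ h0
  have h1 := h σ hσ
  have h2 : LinearIndependent ℂ (Matrix.of fun j => ℓ (σ j)).row := h1
  rw [Matrix.linearIndependent_rows_iff_isUnit, Matrix.isUnit_iff_isUnit_det, h0] at h2
  exact not_isUnit_zero h2

/-- a form in the second group of variables at a point -/
theorem aeval_inr {L : Type} [Field L] [Algebra ℂ L] (P : MvPolynomial (Fin (n + 1)) ℂ)
    (a : Fin (N + 1) → L) (b : Fin (n + 1) → L) :
    aeval (Sum.elim a b) (rename Sum.inr P : BiPoly N n) = aeval b P := by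
  rw [aeval_rename]
  rfl

/-- **The main theorem.** -/
theorem main {d : ℕ} (hn : 1 ≤ n) {ℓ : Fin q → Fin (n + 1) → ℂ} (hI : Independent d ℓ)
    (hg : GeneralPosition ℓ) {wt : Fin q → ℝ} (hwt0 : ∀ i, 0 ≤ wt i) (hwt1 : ∀ i, wt i ≤ 1)
    (hlt : (2 * (n + d - 1).choose (n - 1) : ℕ) < ∑ i, wt i) :
    ∃ R : ℕ, 0 < R ∧ ∀ (N : ℕ) (X D : BiSet N n), RamifiedWt X D ℓ wt →
      ∀ (K : Type) [Field K] [Algebra ℂ K] (a : Fin (N + 1) → K) (b : Fin (n + 1) → K) (t : ℕ),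
      X.FunctionField K a b → ¬ D.Mem a b → (∀ i, lf (ℓ i) b ≠ 0) →
      Algebra.IsAlgebraic
        (IntermediateField.adjoin ℂ {f : K | ∃ i j, b j ≠ 0 ∧ f = b i / b j}) K →
      Algebra.trdeg ℂ K = t → 0 < t →
      LogGeneralType ℂ K t (CentreIn D a b) ∧
      ∃ (G : BiPoly N n) (E : ℕ), BiHom G 0 E ∧
        (∃ u v, QMem X D u v ∧ eval (Sum.elim u v) G ≠ 0) ∧
        LangOff X D G ∧ UniformOverPn X D G R := by
  classical
  obtain ⟨R, hR, hmain⟩ := eff_uniform (k := ℂ) hn hI (genPos_of hg) hwt0 hwt1 hlt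
  refine ⟨R, hR, fun N X D hram K _ _ a b t hK hD hlb halg htr ht => ?_⟩
  choose Dg mm c hrel using fun i j => exists_rel hK halg i j
  let Q0 : MvPolynomial (Fin (n + 1)) ℂ :=
    ∏ i : Fin (N + 1), ∏ j : Fin (N + 1), c i j (mm i j)
  let Q : MvPolynomial (Fin (n + 1)) ℂ := Q0 * ∏ i, lp (ℓ i)
  obtain ⟨E, hQh⟩ : ∃ E, Q.IsHomogeneous E :=
    ⟨_, (IsHomogeneous.prod _ _ _ fun i _ => IsHomogeneous.prod _ _ _ fun j _ =>
      (hrel i j).1.hom _ le_rfl).mul (IsHomogeneous.prod _ _ _ fun i _ => lp_hom _)⟩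
  have hsplit : ∀ {L : Type} [Field L] [Algebra ℂ L] (y : Fin (n + 1) → L), aeval y Q ≠ 0 →
      (∀ i j, aeval y (c i j (mm i j)) ≠ 0) ∧ ∀ i, lf (ℓ i) y ≠ 0 := by
    intro L _ _ y hy
    simp only [Q, Q0, map_mul, map_prod, aeval_lp] at hy
    refine ⟨fun i j h0 => hy ?_, fun i h0 => hy ?_⟩
    · rw [Finset.prod_eq_zero (Finset.mem_univ i) (Finset.prod_eq_zero (Finset.mem_univ j) h0),
        zero_mul]
    · rw [Finset.prod_eq_zero (f := fun i => lf (ℓ i) y) (Finset.mem_univ i) h0, mul_zero]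
  have hbQ : aeval b Q ≠ 0 := by
    simp only [Q, Q0, map_mul, map_prod, aeval_lp]
    exact mul_ne_zero (Finset.prod_ne_zero_iff.mpr fun i _ =>
      Finset.prod_ne_zero_iff.mpr fun j _ => (hrel i j).2)
      (Finset.prod_ne_zero_iff.mpr fun i _ => hlb i)
  have hboth : ∀ (L : Type) [Field L] [Algebra ℂ L] (a' : Fin (N + 1) → L) (b' : Fin (n + 1) → L)
      (d' : ℕ), X.Mem a' b' → aeval (Sum.elim a' b') (rename Sum.inr Q : BiPoly N n) ≠ 0 →
      IntermediateField.adjoin ℂ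
        ({f : L | ∃ i j, a' j ≠ 0 ∧ f = a' i / a' j} ∪
          {f : L | ∃ i j, b' j ≠ 0 ∧ f = b' i / b' j}) = ⊤ →
      Algebra.trdeg ℂ L = d' → 0 < d' →
      Effective L R d' (CentreIn D a' b') b' ∧ LogGeneralType ℂ L d' (CentreIn D a' b') := by
    intro L _ _ a' b' d' hmem hne hgen htr' hd'
    rw [aeval_inr] at hne
    obtain ⟨h1, h2⟩ := hsplit b' hne
    refine hmain L d' b' hd' htr' (alg_sub (fun i j => (hrel i j).1) hmem h1 hgen)
      (Function.ne_iff.mp hmem.2.1) h2 (CentreIn D a' b') fun P _ hPB c0 e hc1 hc2 hord => ?_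
    exact hram L a' b' hmem h2 P hPB c0 e ⟨hc1, hc2⟩ hord
  refine ⟨(hboth K a b t hK.mem (by rw [aeval_inr]; exact hbQ) hK.gen htr ht).2,
    rename Sum.inr Q, E, biHom_rename hQh, ?_, ?_, ?_⟩
  · have h1 : ∃ F ∈ D.eqs, aeval (Sum.elim a b) F ≠ 0 := by
      by_contra hcon
      push Not at hcon
      exact hD ⟨hK.mem.1, hK.mem.2.1, hcon⟩
    obtain ⟨F, hF, hFab⟩ := h1
    obtain ⟨e, e', he⟩ := D.hom F hF
    have h2 : BiHom (F * rename Sum.inr Q : BiPoly N n) (e + 0) (e' + E) := by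
      have := IsWeightedHomogeneous.mul he (biHom_rename (N := N) hQh)
      exact this
    by_contra hcon
    push Not at hcon
    have h3 := (hK.van _ _ _ h2).2 (fun u v huv => by
      rw [map_mul]
      by_cases hFv : eval (Sum.elim u v) F = 0
      · rw [hFv, zero_mul]
      · rw [hcon u v ⟨huv, fun hd => hFv (hd.2.2 F hF)⟩, mul_zero])
    rw [map_mul, aeval_inr] at h3
    exact mul_ne_zero hFab hbQ h3
  · intro L _ _ a' b' d' hmem _ hne hgen htr' hd'
    exact (hboth L a' b' d' hmem hne hgen htr' hd').2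
  · intro L _ _ a' b' d' hmem _ hne hgen htr' hd'
    exact (hboth L a' b' d' hmem hne hgen htr' hd').1

end Pool.Agent.Y191
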