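import Pool.Agent.Y191.BaseFin
import Pool.Agent.W602.GT.SpecDefs

/-!
The sections which come from the base: Bogomolov sheaves.
-/

set_option autoImplicit false

open MvPolynomial Matrix FF Pool.Agent.W603.LV Pool.Agent.W602.GT

namespace Pool.Agent.Y191

/-- rational approximation of the weights -/
theorem exists_Nm {q A : ℕ} {wt : Fin q → ℝ} (h0 : ∀ i, 0 ≤ wt i) (h : (A : ℝ) < ∑ i, wt i) :
    ∃ (N : ℕ) (m : Fin q → ℕ), 0 < N ∧ (∀ i, (m i : ℝ) ≤ N * wt i) ∧ N * A < ∑ i, m i := by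
  obtain ⟨δ, hδ⟩ : ∃ δ, δ = ∑ i, wt i - A := ⟨_, rfl⟩
  have hδ0 : 0 < δ := by rw [hδ]; linarith
  obtain ⟨N, hN⟩ := exists_nat_gt ((q + 1 : ℝ) / δ)
  have hN' : (q + 1 : ℝ) < N * δ := (div_lt_iff₀ hδ0).mp hN
  have hNpos : 0 < N := by
    by_contra h
    have h1 : N = 0 := by omega
    rw [h1] at hN'
    simp at hN'
    have : (0 : ℝ) ≤ q := by positivity
    linarith
  refine ⟨N, fun i => ⌊(N : ℝ) * wt i⌋₊, hNpos, fun i => Nat.floor_le
    (mul_nonneg (by positivity) (h0 i)), ?_⟩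
  have h3 : (N : ℝ) * ∑ i, wt i - q ≤ ((∑ i, ⌊(N : ℝ) * wt i⌋₊ : ℕ) : ℝ) := by
    push_cast
    have h4 : ∀ i, (N : ℝ) * wt i - 1 ≤ (⌊(N : ℝ) * wt i⌋₊ : ℝ) := fun i =>
      (Nat.sub_one_lt_floor _).le
    have h5 := Finset.sum_le_sum fun i (_ : i ∈ Finset.univ) => h4 i
    rw [Finset.sum_sub_distrib, ← Finset.mul_sum] at h5
    simpa using h5
  have h6 : (N : ℝ) * ∑ i, wt i = N * A + N * δ := by
    rw [hδ]; ring
  have h7 : ((N * A : ℕ) : ℝ) < ((∑ i, ⌊(N : ℝ) * wt i⌋₊ : ℕ) : ℝ) := by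
    push_cast at h3 ⊢
    linarith
  exact_mod_cast h7

variable {k K : Type} [Field k] [Field K] [Algebra k K]

/-- the order of the sections -/
theorem sec_ge {n q A : ℕ} {P : Place k K} {ℓ : Fin q → Fin (n + 1) → k} {b : Fin (n + 1) → K}
    (hl : ∀ i, lf (ℓ i) b ≠ 0) {c : ℤ} {e : Fin q → ℕ} (ho : OrdData P ℓ b c e) {v : K} {L : ℤ}
    (hv : Ge P (c * (A : ℕ) + ∑ i, (e i : ℤ) - L) v) {N S : ℕ} {m : Fin q → ℕ}
    (hS : ∑ i, m i = N * A + S) {g : K} (hg : Ge P (S * c) g) :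
    Ge P (∑ i, ((N : ℤ) - m i) * e i - N * L) (v ^ N * (g / ∏ i, lf (ℓ i) b ^ m i)) := by
  have hden : ∏ i, lf (ℓ i) b ^ m i ≠ 0 :=
    Finset.prod_ne_zero_iff.mpr fun i _ => pow_ne_zero _ (hl i)
  have h11 : P.ord (∏ i, lf (ℓ i) b ^ m i) = ∑ i, (m i : ℤ) * (c + e i) := by
    rw [ord_prod P _ _ fun i => pow_ne_zero _ (hl i)]
    refine Finset.sum_congr rfl fun i _ => ?_
    rw [P.ord_pow, ho.2.2 i]
  have h12 : ∑ i, (m i : ℤ) * (c + e i) = (∑ i, (m i : ℤ)) * c + ∑ i, (m i : ℤ) * e i := by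
    rw [Finset.sum_mul, ← Finset.sum_add_distrib]
    exact Finset.sum_congr rfl fun i _ => by ring
  have h13 : (∑ i, (m i : ℤ)) = N * A + S := by exact_mod_cast hS
  have h14 : ∑ i, ((N : ℤ) - m i) * e i = N * ∑ i, (e i : ℤ) - ∑ i, (m i : ℤ) * e i := by
    rw [Finset.mul_sum, ← Finset.sum_sub_distrib]
    exact Finset.sum_congr rfl fun i _ => by ring
  have h2 := ge_div hden hg
  rw [h11, h12, h13] at h2
  have h3 := (hv.pow N).mul h2
  refine h3.mono ?_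
  rw [h14]
  apply le_of_eq
  ring

/-- coordinates have the expected order -/
theorem ge_coord {n q : ℕ} {P : Place k K} {ℓ : Fin q → Fin (n + 1) → k} {b : Fin (n + 1) → K}
    {c : ℤ} {e : Fin q → ℕ} (ho : OrdData P ℓ b c e) (j : Fin (n + 1)) : Ge P c (b j) := by
  by_cases hj : b j = 0
  · exact Or.inl hj
  · exact Or.inr (ho.1 j hj)

/-- the Jacobian as an alternating form -/
noncomputable def jform {p : ℕ} (x : Fin p → K) : (Derivation k K K) [⋀^Fin p]→ₗ[K] K :=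
  (Matrix.detRowAlternating (n := Fin p) (R := K)).compLinearMap
    { toFun := fun D j => D (x j)
      map_add' := fun _ _ => rfl
      map_smul' := fun _ _ => rfl }

theorem jform_apply {p : ℕ} (x : Fin p → K) (D : Fin p → Derivation k K K) :
    jform x D = (jac x D).det := rfl

/-- the condition on the multiplicities, with weights -/
def OrbW {n q : ℕ} (wt : Fin q → ℝ) (ℓ : Fin q → Fin (n + 1) → k) (b : Fin (n + 1) → K)
    (γ : ℕ) (P : Place k K) : Prop :=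
  ∀ (c : ℤ) (e : Fin q → ℕ), OrdData P ℓ b c e →
    ((min (Finset.univ.filter fun i => e i ≠ 0).card γ : ℕ) : ℝ) ≤ ∑ i, (1 - wt i) * e i

variable [CharZero k]

/-- **The sections of the base.** -/
theorem base_sec {n d q p : ℕ} (hd : 0 < d) {ℓ : Fin q → Fin (n + 1) → k} (hI : IndT d ℓ)
    (hg : GenPos ℓ) (hq : n + 1 ≤ q) {b : Fin (n + 1) → K} (hl : ∀ i, lf (ℓ i) b ≠ 0)
    (hb : ∃ j, b j ≠ 0) (htr : Algebra.trdeg k (RF k b) = p) {wt : Fin q → ℝ}
    (hwt0 : ∀ i, 0 ≤ wt i) (hwt1 : ∀ i, wt i ≤ 1)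
    (hlt : ((p + 1) * gam (n - p) (d + 1) : ℕ) < ∑ i, wt i) :
    ∃ (x : Fin p → K) (N : ℕ) (f : Fin (p + 1) → K), 0 < N ∧ AlgebraicIndependent k x ∧
      f 0 ≠ 0 ∧ (∀ j : Fin p, f j.succ / f 0 = x j) ∧
      (∀ (P : Place k K) (D : Fin p → Derivation k K K), (∀ i, DerLog P (D i)) → ∀ j,
        P.Reg (f j * (jac x D).det ^ (N * gam (n - p) (d + 1)))) ∧
      ∀ (P : Place k K) (D : Fin p → Derivation k K K), OrbW wt ℓ b (gam (n - p) (d + 1)) P →
        (∀ i, DerReg P (D i)) → ∀ j, P.Reg (f j * (jac x D).det ^ (N * gam (n - p) (d + 1))) := by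
  classical
  obtain ⟨σ, x, D0, G, -, hb0, hx, hind, -, -, hG0, hG, hlog, hreg⟩ :=
    base_fin hd hI hg hq hl hb htr
  obtain ⟨N, m, hN, hm, hNm⟩ := exists_Nm hwt0 hlt
  obtain ⟨S, hS⟩ : ∃ S, ∑ i, m i = N * ((p + 1) * gam (n - p) (d + 1)) + (S + 1) :=
    ⟨∑ i, m i - N * ((p + 1) * gam (n - p) (d + 1)) - 1, by omega⟩
  have hden : ∏ i, lf (ℓ i) b ^ m i ≠ 0 :=
    Finset.prod_ne_zero_iff.mpr fun i _ => pow_ne_zero _ (hl i)
  have hgs : ∀ (P : Place k K) (c : ℤ) (e : Fin q → ℕ), OrdData P ℓ b c e → ∀ j,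
      Ge P ((S + 1 : ℕ) * c) (b (σ 0) ^ S * b (σ j)) := by
    intro P c e ho j
    have := ((ge_coord ho (σ 0)).pow S).mul (ge_coord ho (σ j))
    exact this.mono (by push_cast; linarith)
  have hform : ∀ (D : Fin p → Derivation k K K) (j : Fin (p + 1)),
      G D0 ^ N * (b (σ 0) ^ S * b (σ j) / ∏ i, lf (ℓ i) b ^ m i) *
        (jac x D).det ^ (N * gam (n - p) (d + 1)) =
      G D ^ N * (b (σ 0) ^ S * b (σ j) / ∏ i, lf (ℓ i) b ^ m i) := by
    intro D j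
    rw [hG D, mul_pow, ← pow_mul, mul_comm N]
    ring
  refine ⟨x, N, fun j => G D0 ^ N * (b (σ 0) ^ S * b (σ j) / ∏ i, lf (ℓ i) b ^ m i), hN, hind,
    ?_, fun j => ?_, fun P D hD j => ?_, fun P D hP hD j => ?_⟩
  · exact mul_ne_zero (pow_ne_zero _ hG0)
      (div_ne_zero (mul_ne_zero (pow_ne_zero _ hb0) hb0) hden)
  · have h1 := pow_ne_zero N hG0
    have h2 := pow_ne_zero S hb0
    rw [hx]
    field_simp
  · obtain ⟨c, e, ho⟩ := exists_ordData P hb0 hl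
    change P.Reg (G D0 ^ N * (b (σ 0) ^ S * b (σ j) / ∏ i, lf (ℓ i) b ^ m i) *
        (jac x D).det ^ (N * gam (n - p) (d + 1)))
    rw [hform, reg_iff_ge]
    have h1 := hlog P c e ho D hD
    rw [← sub_zero (∑ i, (e i : ℤ)), ← add_sub_assoc] at h1
    refine (sec_ge hl ho h1 hS (hgs P c e ho j)).mono ?_
    rw [mul_zero, sub_zero]
    refine Finset.sum_nonneg fun i _ => mul_nonneg ?_ (by positivity)
    have h2 : (m i : ℝ) ≤ N := (hm i).trans (by nlinarith [hwt1 i, hwt0 i])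
    have h3 : m i ≤ N := by exact_mod_cast h2
    omega
  · obtain ⟨c, e, ho⟩ := exists_ordData P hb0 hl
    change P.Reg (G D0 ^ N * (b (σ 0) ^ S * b (σ j) / ∏ i, lf (ℓ i) b ^ m i) *
        (jac x D).det ^ (N * gam (n - p) (d + 1)))
    rw [hform, reg_iff_ge]
    refine (sec_ge hl ho (hreg P c e ho D hD) hS (hgs P c e ho j)).mono ?_
    have h1 := hP c e ho
    have h2 : (N : ℝ) * ((min (Finset.univ.filter fun i => e i ≠ 0).card
        (gam (n - p) (d + 1)) : ℕ) : ℝ) ≤ ∑ i, ((N : ℝ) - m i) * e i := by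
      calc (N : ℝ) * ((min (Finset.univ.filter fun i => e i ≠ 0).card
            (gam (n - p) (d + 1)) : ℕ) : ℝ) ≤ N * ∑ i, (1 - wt i) * e i :=
            mul_le_mul_of_nonneg_left h1 (by positivity)
        _ = ∑ i, ((N : ℝ) - N * wt i) * e i := by
            rw [Finset.mul_sum]
            exact Finset.sum_congr rfl fun i _ => by ring
        _ ≤ _ := Finset.sum_le_sum fun i _ =>
            mul_le_mul_of_nonneg_right (by linarith [hm i]) (by positivity)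
    have h3 : (N : ℤ) * ((min (Finset.univ.filter fun i => e i ≠ 0).card
        (gam (n - p) (d + 1)) : ℕ) : ℤ) ≤ ∑ i, ((N : ℤ) - m i) * e i := by
      exact_mod_cast h2
    linarith

/-- **Bogomolov sheaves.** -/
theorem bog {n d q p w : ℕ} (hd : 0 < d) {ℓ : Fin q → Fin (n + 1) → k} (hI : IndT d ℓ)
    (hg : GenPos ℓ) (hq : n + 1 ≤ q) {b : Fin (n + 1) → K} (hl : ∀ i, lf (ℓ i) b ≠ 0)
    (hb : ∃ j, b j ≠ 0) (htr : Algebra.trdeg k (RF k b) = p) {wt : Fin q → ℝ}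
    (hwt0 : ∀ i, 0 ≤ wt i) (hwt1 : ∀ i, wt i ≤ 1)
    (hlt : ((p + 1) * gam (n - p) (d + 1) : ℕ) < ∑ i, wt i) (Bd : Place k K → Prop)
    (hP : ∀ P : Place k K, Divisorial w P → ¬ Bd P → OrbW wt ℓ b (gam (n - p) (d + 1)) P) :
    BogSheaf k K w Bd p := by
  classical
  obtain ⟨x, N, f, hN, hind, hf0, hfx, h1, h2⟩ :=
    base_sec hd hI hg hq hl hb htr hwt0 hwt1 hlt
  have hγ : 0 < gam (n - p) (d + 1) := gam_pos _ (by omega)
  obtain ⟨D, hD⟩ := exists_dual hind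
  refine ⟨jform x, fun h0 => ?_, N * gam (n - p) (d + 1), Nat.mul_pos hN hγ, f,
    fun P _ D hD j => h1 P D hD j, fun P hPd hPB D hD j => h2 P D (hP P hPd hPB) hD j, hf0, ?_⟩
  · have h3 : jform x D = 1 := by
      rw [jform_apply]
      have h4 : jac x D = 1 := by
        refine Matrix.ext fun i j => ?_
        rw [Matrix.one_apply]
        exact hD i j
      rw [h4, det_one]
    rw [h0] at h3
    exact zero_ne_one h3
  · have h3 : (fun i : Fin p => f i.succ / f 0) = x := funext hfx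
    rw [h3]
    exact hind

end Pool.Agent.Y191
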