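import Pool.Agent.Y191.Tens
import Pool.Agent.TH585.SV.Fib9
import Pool.Agent.Y191.Quasi

/-!
Sections of `N (K_X + Δ)` for pairs with a map to projective space, many members of small
multiplicity, and pluricanonical forms along the fibres.
-/

set_option autoImplicit false

open MvPolynomial Matrix FF Pool.Agent.W603.LV Pool.Agent.W602.GT Pool.Agent.TH585.SV
open Pool.Agent.TH766.MC

namespace Pool.Agent.Y191

/-- The Kodaira dimension of `K_X + Δ` is at least `κ`: some positive multiple has sections with `κ`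
algebraically independent ratios (a nonzero section, if `κ = 0`). -/
def KodairaGe {K : Type} [Field K] [Algebra ℂ K] (d : ℕ) (X : Set (Place ℂ K))
    (δ : Place ℂ K → ℝ) (κ : ℕ) : Prop :=
  ∃ N : ℕ, 0 < N ∧ ∃ ω : Fin (κ + 1) → (Fin d → Derivation ℂ K K) → K,
    (∀ j, PairSec d X δ N (ω j)) ∧
    ∃ D, ω 0 D ≠ 0 ∧ AlgebraicIndependent ℂ (fun i : Fin κ => ω i.succ D / ω 0 D)

variable {K : Type} [Field K] [Algebra ℂ K] {n q d p s lam : ℕ}

/-- a frame adapted to a transcendence basis of the field of the image -/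
theorem exists_frame_RF {b : Fin (n + 1) → K} (hK : Algebra.trdeg ℂ K = (p + s : ℕ))
    (htr : Algebra.trdeg ℂ (RF ℂ b) = p) {x : Fin p → K} (hx : AlgebraicIndependent ℂ x)
    (hxL : ∀ j, x j ∈ RF ℂ b)
    (halg : ∀ f ∈ RF ℂ b, IsAlgebraic (IntermediateField.adjoin ℂ (Set.range x)) f) :
    ∃ (u : Fin s → K) (Dt : Fin p → Derivation ℂ K K) (Du : Fin s → Derivation ℂ K K),
      Frame x u Dt Du ∧ ∀ f ∈ RF ℂ b, Hz Du f := by
  classical
  obtain ⟨xL, hxL'⟩ : ∃ xL : Fin p → RF ℂ b, ∀ j, (xL j : K) = x j :=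
    ⟨fun j => ⟨x j, hxL j⟩, fun _ => rfl⟩
  have hindL : AlgebraicIndependent ℂ xL := by
    refine AlgebraicIndependent.of_comp (RF ℂ b).val ?_
    have : ((RF ℂ b).val ∘ xL) = x := funext hxL'
    rw [this]
    exact hx
  have htrs : Algebra.trdeg (RF ℂ b) K = s := by
    have h1 := trdeg_add_eq ℂ (RF ℂ b) (A := K)
    rw [htr, hK] at h1
    push_cast at h1
    rw [add_comm, add_comm (p : Cardinal)] at h1
    exact (Cardinal.add_right_inj_of_lt_aleph0 (Cardinal.natCast_lt_aleph0 (n := p))).mp h1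
  obtain ⟨t, ht⟩ := exists_isTranscendenceBasis (RF ℂ b) K
  have h1 := ht.cardinalMk_eq_trdeg
  rw [htrs] at h1
  obtain ⟨φ⟩ : Nonempty (Fin s ≃ t) := by
    rw [← Cardinal.eq, Cardinal.mk_fin]
    exact h1.symm
  obtain ⟨u, hu⟩ : ∃ u : Fin s → K, IsTranscendenceBasis (RF ℂ b) u :=
    ⟨fun i => (φ i : K), ht.comp_equiv φ⟩
  have h2 := hindL.sumElim_comp hu.1
  have h3 : (algebraMap (RF ℂ b) K ∘ xL) = x := funext hxL'
  rw [h3] at h2
  have h4 : AlgebraicIndependent ℂ (Sum.elim x u) := by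
    have := h2.comp (Equiv.sumComm (Fin p) (Fin s)) (Equiv.injective _)
    have h5 : (Sum.elim u x) ∘ (Equiv.sumComm (Fin p) (Fin s)) = Sum.elim x u := by
      funext i
      rcases i with i | i <;> rfl
    rwa [h5] at this
  have h6 : IsTranscendenceBasis ℂ (Sum.elim x u) := by
    refine h4.isTranscendenceBasis_of_trdeg_le ?_ ?_
    · rw [hK]
      exact Cardinal.natCast_lt_aleph0
    · rw [hK, Cardinal.mk_sum, Cardinal.mk_fin, Cardinal.mk_fin]
      push_cast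
      simp
  obtain ⟨Dt, Du, F⟩ := exists_frame h6
  exact ⟨u, Dt, Du, F, fun f hf l => der_alg0 (Du l) (S := Set.range x) (by
    rintro _ ⟨j, rfl⟩
    exact F.ut l j) (halg f hf)⟩

/-- **Small multiplicities and forms along the fibres.** -/
theorem small_fib (hd : 0 < d) {ℓ : Fin q → Fin (n + 1) → ℂ} (hI : Independent d ℓ)
    (hg : GeneralPosition ℓ) (hq : n + 1 ≤ q) {b : Fin (n + 1) → K} (hl : ∀ i, lf (ℓ i) b ≠ 0)
    (hb : ∃ j, b j ≠ 0) (htr : Algebra.trdeg ℂ (RF ℂ b) = p)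
    (hK : Algebra.trdeg ℂ K = (p + s : ℕ)) {wt : Fin q → ℚ}
    (hwt0 : ∀ i, 0 ≤ wt i)
    (hlt : (((p + 1) * gam (n - p) (d + 1) : ℕ) : ℚ) ≤ ∑ i, wt i)
    {X : Set (Place ℂ K)} {δ₁ δ₂ δ : Place ℂ K → ℝ} (hδ : ∀ P ∈ X, δ₁ P + δ₂ P ≤ δ P)
    (hmult : ∀ P ∈ X, Divisorial (p + s) P → ∀ (c : ℤ) (e : Fin q → ℕ), OrdData P ℓ b c e →
      ((min (Finset.univ.filter fun i => e i ≠ 0).card (gam (n - p) (d + 1)) : ℕ) : ℝ) ≤
        gam (n - p) (d + 1) * δ₁ P + ∑ i, (1 - (wt i : ℝ)) * e i)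
    {m : ℕ} (hm : 0 < m) {θ : Fin (lam + 1) → (Fin s → Derivation (RF ℂ b) K K) → K}
    (hθ : ∀ j, FibSec (p + s) m X δ₂ (RF ℂ b) (θ j))
    (hne : ∃ G, θ 0 G ≠ 0 ∧
      AlgebraicIndependent (RF ℂ b) (fun i : Fin lam => θ i.succ G / θ 0 G)) :
    KodairaGe (p + s) X δ lam ∧
      ((((p + 1) * gam (n - p) (d + 1) : ℕ) : ℚ) < ∑ i, wt i →
        KodairaGe (p + s) X δ (p + lam)) := by
  classical
  obtain ⟨σ, x, D0, G, -, hb0, hx, hind, halg, -, hG0, hG, -, hreg⟩ :=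
    base_fin hd hI (genPos_of hg) hq hl hb htr
  obtain ⟨γ, hγ⟩ : ∃ γ, γ = gam (n - p) (d + 1) := ⟨_, rfl⟩
  have hγ0 : 0 < γ := by rw [hγ]; exact gam_pos _ (by omega)
  rw [← hγ] at hlt hmult hG hreg ⊢
  have hxL : ∀ j, x j ∈ RF ℂ b := fun j => by
    rw [hx]
    exact IntermediateField.subset_adjoin ℂ _ ⟨_, _, hb0, rfl⟩
  obtain ⟨u, Dt, Du, F, hHz⟩ := exists_frame_RF hK htr hind hxL halg
  obtain ⟨N, mu, hN, hmu, hNm⟩ := exists_Nm_rat hwt0 hlt
  obtain ⟨S, hS⟩ : ∃ S, ∑ i, mu i = N * ((p + 1) * γ) + S :=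
    ⟨∑ i, mu i - N * ((p + 1) * γ), by omega⟩
  have hden : ∏ i, lf (ℓ i) b ^ mu i ≠ 0 :=
    Finset.prod_ne_zero_iff.mpr fun i _ => pow_ne_zero _ (hl i)
  -- the estimate
  have hest : ∀ g : K, (∀ (P : Place ℂ K) (c : ℤ) (e : Fin q → ℕ), OrdData P ℓ b c e →
      Ge P (S * c) g) → ∀ P ∈ X, Divisorial (p + s) P → ∀ E : Fin p → Derivation ℂ K K,
      (∀ i, DerReg P (E i)) → ∃ c' : ℤ,
        Ge P c' ((mtx x E).det ^ (N * γ) * (G D0 ^ N * (g / ∏ i, lf (ℓ i) b ^ mu i))) ∧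
          -(((N * γ : ℕ) : ℝ) * δ₁ P) ≤ (c' : ℝ) := by
    intro g hgs P hPX hPd E hE
    obtain ⟨c, e, ho⟩ := exists_ordData P hb0 hl
    have h1 := sec_ge hl ho (hreg P c e ho E hE) hS (hgs P c e ho)
    refine ⟨∑ i, ((N : ℤ) - mu i) * e i - N * ((min
          (Finset.univ.filter fun i => e i ≠ 0).card γ : ℕ) : ℤ), ?_, ?_⟩
    · have h2 : (mtx x E).det ^ (N * γ) * (G D0 ^ N * (g / ∏ i, lf (ℓ i) b ^ mu i)) =
          G E ^ N * (g / ∏ i, lf (ℓ i) b ^ mu i) := by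
        rw [hG E, mul_pow, ← pow_mul, mul_comm γ N]
        change (mtx x E).det ^ (N * γ) * _ = (mtx x E).det ^ (N * γ) * _ * _
        ring
      rw [h2]
      exact h1
    · have h2 := hmult P hPX hPd c e ho
      have h4 : ((∑ i, ((N : ℤ) - mu i) * e i - N * ((min
          (Finset.univ.filter fun i => e i ≠ 0).card γ : ℕ) : ℤ) : ℤ) : ℝ) =
          N * (∑ i, (1 - (wt i : ℝ)) * e i) - N * ((min
          (Finset.univ.filter fun i => e i ≠ 0).card γ : ℕ) : ℝ) := by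
        push_cast
        rw [Finset.mul_sum]
        congr 1
        refine Finset.sum_congr rfl fun i _ => ?_
        have h5 : (mu i : ℝ) = N * (wt i : ℝ) := by
          exact_mod_cast congrArg (Rat.cast (K := ℝ)) (hmu i)
        rw [h5]
        ring
      rw [h4]
      have h6 := mul_le_mul_of_nonneg_left h2 (Nat.cast_nonneg (α := ℝ) N)
      push_cast at h6 ⊢
      linarith
  constructor
  · obtain ⟨ω, h1, D, h2, h3⟩ := F.pairs (κ := 0) (w := fun _ => 1) hHz hxL hδ hm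
      (fun b => (hθ b).1) (fun P hPX hPd G hG b => (hθ b).2 P hPX hPd G hG) hne
      (M := N * γ) (Nat.mul_pos hN hγ0)
      (f := G D0 ^ N * (b (σ 0) ^ S / ∏ i, lf (ℓ i) b ^ mu i))
      (mul_ne_zero (pow_ne_zero _ hG0) (div_ne_zero (pow_ne_zero _ hb0) hden)) rfl
      (by
        rw [algebraicIndependent_empty_type_iff]
        exact (algebraMap ℂ K).injective) (fun _ => one_mem _)
      (fun P hPX hPd E hE _ => by
        obtain ⟨c', h3, h4⟩ := hest (b (σ 0) ^ S) (fun P c e ho => (ge_coord ho (σ 0)).pow S)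
          P hPX hPd E hE
        exact ⟨c', by rwa [mul_one], h4⟩)
    have e0 : 0 + lam + 1 = lam + 1 := by omega
    refine ⟨N * γ * m, Nat.mul_pos (Nat.mul_pos hN hγ0) hm, fun j => ω (Fin.cast e0.symm j),
      fun j => h1 _, D, h2, ?_⟩
    have hl : lam = 0 + lam := by omega
    have h4 := h3.comp (Fin.cast hl) (Fin.cast_injective hl)
    exact h4
  · intro hlt'
    have hS1 : 1 ≤ S := by
      by_contra h0
      obtain rfl : S = 0 := by omega
      have h1 : ((∑ i, mu i : ℕ) : ℚ) = N * ∑ i, wt i := by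
        push_cast
        rw [Finset.mul_sum]
        exact Finset.sum_congr rfl fun i _ => hmu i
      rw [hS] at h1
      push_cast at h1 hlt'
      have hN' : (0 : ℚ) < N := by exact_mod_cast hN
      have h2 := mul_lt_mul_of_pos_left hlt' hN'
      linarith
    obtain ⟨S', rfl⟩ : ∃ S', S = S' + 1 := ⟨S - 1, by omega⟩
    obtain ⟨w, hw⟩ : ∃ w : Fin (p + 1) → K, ∀ j, w j = b (σ j) / b (σ 0) := ⟨_, fun _ => rfl⟩
    have hw0 : w 0 = 1 := by rw [hw, div_self hb0]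
    have hwx : (fun i : Fin p => w i.succ) = x := by
      funext i
      rw [hw, hx]
    obtain ⟨ω, h1, D, h2, h3⟩ := F.pairs (κ := p) (w := w) hHz hxL hδ hm
      (fun b => (hθ b).1) (fun P hPX hPd G hG b => (hθ b).2 P hPX hPd G hG) hne
      (M := N * γ) (Nat.mul_pos hN hγ0)
      (f := G D0 ^ N * (b (σ 0) ^ (S' + 1) / ∏ i, lf (ℓ i) b ^ mu i))
      (mul_ne_zero (pow_ne_zero _ hG0) (div_ne_zero (pow_ne_zero _ hb0) hden)) hw0
      (by rw [hwx]; exact hind)
      (fun j => by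
        rw [hw]
        exact IntermediateField.subset_adjoin ℂ _ ⟨_, _, hb0, rfl⟩)
      (fun P hPX hPd E hE j => by
        obtain ⟨c', h3, h4⟩ := hest (b (σ 0) ^ S' * b (σ j)) (fun P c e ho => by
          have := ((ge_coord ho (σ 0)).pow S').mul (ge_coord ho (σ j))
          exact this.mono (by push_cast; linarith)) P hPX hPd E hE
        refine ⟨c', ?_, h4⟩
        have h5 : G D0 ^ N * (b (σ 0) ^ (S' + 1) / ∏ i, lf (ℓ i) b ^ mu i) * w j =
            G D0 ^ N * (b (σ 0) ^ S' * b (σ j) / ∏ i, lf (ℓ i) b ^ mu i) := by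
          rw [hw]
          have h6 := hden
          rw [pow_succ, mul_assoc]
          congr 1
          rw [div_mul_div_comm, div_eq_div_iff (mul_ne_zero hden hb0) hden]
          ring
        rw [h5]
        exact h3)
    exact ⟨N * γ * m, Nat.mul_pos (Nat.mul_pos hN hγ0) hm, ω, h1, D, h2, h3⟩

end Pool.Agent.Y191
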