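import Mathlib

/-!
Symmetric powers of matrices: linear substitutions in forms of a given degree, and the determinant
of the induced map on the forms.
-/

set_option autoImplicit false

open MvPolynomial Matrix

namespace Pool.Agent.Y191

variable {K : Type*} [Field K]

/-- exponents of the monomials of degree `r` in variables indexed by `B` -/
abbrev Mon (B : Type*) [Fintype B] [DecidableEq B] (r : ℕ) : Type _ :=
  {β : B →₀ ℕ // β ∈ (Finset.univ : Finset B).finsuppAntidiag r}

theorem Mon.deg {B : Type*} [Fintype B] [DecidableEq B] {r : ℕ} (β : Mon B r) :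
    β.1.degree = r := by
  have := (Finset.mem_finsuppAntidiag.mp β.2).1
  rw [Finsupp.degree_eq_sum]
  exact this

theorem mem_mon {B : Type*} [Fintype B] [DecidableEq B] {r : ℕ} {β : B →₀ ℕ} (h : β.degree = r) :
    β ∈ (Finset.univ : Finset B).finsuppAntidiag r := by
  rw [Finset.mem_finsuppAntidiag]
  rw [Finsupp.degree_eq_sum] at h
  exact ⟨h, fun _ _ => Finset.mem_univ _⟩

/-- the exponent of the determinant -/
def gam (m r : ℕ) : ℕ := (m + r - 1).choose m

theorem card_mon (B : Type*) [Fintype B] [DecidableEq B] (r : ℕ) :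
    Fintype.card (Mon B r) = (Fintype.card B + r - 1).choose r := by
  rw [Fintype.card_coe, Finset.card_finsuppAntidiag_nat_eq_choose, Finset.card_univ]

section

variable {B : Type*} [Fintype B] [DecidableEq B]

/-- permutation of the variables -/
noncomputable def Mon.perm {r : ℕ} (e : Equiv.Perm B) : Mon B r ≃ Mon B r where
  toFun β := ⟨Finsupp.equivMapDomain e β.1, mem_mon (by
    have h := β.deg
    rw [Finsupp.degree_eq_sum] at h ⊢
    simp only [Finsupp.equivMapDomain_apply]
    exact (Equiv.sum_comp e.symm _).trans h)⟩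
  invFun β := ⟨Finsupp.equivMapDomain e.symm β.1, mem_mon (by
    have h := β.deg
    rw [Finsupp.degree_eq_sum] at h ⊢
    simp only [Finsupp.equivMapDomain_apply]
    exact (Equiv.sum_comp e.symm.symm _).trans h)⟩
  left_inv β := by
    apply Subtype.ext
    ext b
    simp
  right_inv β := by
    apply Subtype.ext
    ext b
    simp

theorem sum_exp (r : ℕ) (hr : 0 < r) (b : B) :
    ∑ β : Mon B r, β.1 b = gam (Fintype.card B) r := by
  have hsym : ∀ b' : B, ∑ β : Mon B r, β.1 b' = ∑ β : Mon B r, β.1 b := by
    intro b'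
    rw [← Equiv.sum_comp (Mon.perm (r := r) (Equiv.swap b b')) (fun β => β.1 b')]
    refine Finset.sum_congr rfl fun β _ => ?_
    simp [Mon.perm]
  have h1 : ∑ b' : B, ∑ β : Mon B r, β.1 b' = Fintype.card B * ∑ β : Mon B r, β.1 b := by
    rw [Finset.sum_congr rfl fun b' _ => hsym b']
    simp
  rw [Finset.sum_comm] at h1
  have h2 : ∀ β : Mon B r, ∑ b' : B, β.1 b' = r := by
    intro β
    have h := β.deg
    rwa [Finsupp.degree_eq_sum] at h
  rw [Finset.sum_congr rfl fun β _ => h2 β] at h1
  simp only [Finset.sum_const, Finset.card_univ, smul_eq_mul] at h1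
  rw [card_mon] at h1
  have hc : 0 < Fintype.card B := Fintype.card_pos_iff.mpr ⟨b⟩
  have h3 : (Fintype.card B + r - 1).choose r * r = Fintype.card B * gam (Fintype.card B) r := by
    obtain ⟨s, rfl⟩ : ∃ s, r = s + 1 := ⟨r - 1, by omega⟩
    unfold gam
    have e : Fintype.card B + (s + 1) - 1 = s + Fintype.card B := by omega
    rw [e, Nat.choose_succ_right_eq, mul_comm]
    congr 1
    · omega
    · rw [Nat.choose_symm_add]
  rw [h3] at h1
  exact (Nat.eq_of_mul_eq_mul_left hc h1).symm

end

/-- linear substitution -/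
noncomputable def sb {ι B : Type*} [Fintype B] (F : Matrix B ι K) :
    MvPolynomial ι K →ₐ[K] MvPolynomial B K :=
  aeval fun i => ∑ b, C (F b i) * X b

theorem sb_X {ι B : Type*} [Fintype B] (F : Matrix B ι K) (i : ι) :
    sb F (X i) = ∑ b, C (F b i) * X b := by
  unfold sb
  rw [aeval_X]

theorem sb_lin_hom {ι B : Type*} [Fintype B] (F : Matrix B ι K) (i : ι) :
    (∑ b, C (F b i) * X b : MvPolynomial B K).IsHomogeneous 1 :=
  IsHomogeneous.sum _ _ _ fun b _ => by
    simpa using (isHomogeneous_C B (F b i)).mul (isHomogeneous_X K b)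

theorem sb_hom {ι B : Type*} [Fintype B] (F : Matrix B ι K) {y : MvPolynomial ι K} {r : ℕ}
    (hy : y.IsHomogeneous r) : (sb F y).IsHomogeneous r := by
  classical
  have h1 := hy.aeval (fun i => (∑ b, C (F b i) * X b : MvPolynomial B K)) (n := 1)
    (fun i => sb_lin_hom F i)
  rw [one_mul] at h1
  exact h1

theorem sb_mul {ι B B' : Type*} [Fintype B] [Fintype B'] (M : Matrix B' B K) (F : Matrix B ι K)
    (y : MvPolynomial ι K) : sb (M * F) y = sb M (sb F y) := by
  have h : sb (M * F) = (sb M).comp (sb F) := by
    apply algHom_ext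
    intro i
    rw [AlgHom.comp_apply, sb_X, sb_X, map_sum]
    simp only [map_mul, sb_X, Matrix.mul_apply, map_sum, Finset.sum_mul, Finset.mul_sum]
    rw [Finset.sum_comm]
    refine Finset.sum_congr rfl fun b _ => Finset.sum_congr rfl fun b' _ => ?_
    have : sb M (C (F b i)) = C (F b i) := by
      rw [← algebraMap_eq, AlgHom.commutes]; rfl
    rw [this]
    ring
  rw [h]
  rfl

theorem sb_one {B : Type*} [Fintype B] [DecidableEq B] (y : MvPolynomial B K) :
    sb (1 : Matrix B B K) y = y := by
  have h : sb (1 : Matrix B B K) = AlgHom.id K _ := by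
    apply algHom_ext
    intro i
    rw [sb_X, Finset.sum_eq_single i]
    · simp
    · intro b _ hb
      rw [Matrix.one_apply_ne hb]
      simp
    · simp
  rw [h]
  rfl

section

variable {B : Type*} [Fintype B] [DecidableEq B]

/-- the matrix of the coefficients of a family of forms of degree `r` -/
noncomputable def cm {r : ℕ} {σ : Type*} (y : σ → MvPolynomial B K) : Matrix (Mon B r) σ K :=
  Matrix.of fun β s => coeff β.1 (y s)

/-- the symmetric power of a square matrix -/
noncomputable def Sm (r : ℕ) (M : Matrix B B K) : Matrix (Mon B r) (Mon B r) K :=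
  cm fun β : Mon B r => sb M (monomial β.1 1)

theorem hom_eq_sum {r : ℕ} {g : MvPolynomial B K} (hg : g.IsHomogeneous r) :
    g = ∑ β : Mon B r, coeff β.1 g • monomial β.1 (1 : K) := by
  ext α
  rw [coeff_sum]
  simp only [coeff_smul, coeff_monomial, smul_eq_mul, mul_ite, mul_one, mul_zero]
  by_cases hα : α.degree = r
  · rw [Finset.sum_eq_single ⟨α, mem_mon hα⟩]
    · simp
    · intro β _ hβ
      rw [if_neg fun h => hβ (Subtype.ext h)]
    · simp
  · rw [hg.coeff_eq_zero hα, Finset.sum_eq_zero]
    intro β _
    rw [if_neg]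
    rintro rfl
    exact hα β.deg

theorem cm_sb {r : ℕ} {σ : Type*} (M : Matrix B B K) {y : σ → MvPolynomial B K}
    (hy : ∀ s, (y s).IsHomogeneous r) :
    (cm fun s => sb M (y s) : Matrix (Mon B r) σ K) = Sm r M * cm y := by
  refine Matrix.ext fun β s => Eq.trans ?_ (Matrix.mul_apply (M := Sm r M) (N := cm y)).symm
  change coeff β.1 (sb M (y s)) =
    ∑ β' : Mon B r, coeff β.1 (sb M (monomial β'.1 1)) * coeff β'.1 (y s)
  conv_lhs => rw [hom_eq_sum (hy s), map_sum, coeff_sum]
  refine Finset.sum_congr rfl fun β' _ => ?_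
  rw [map_smul, coeff_smul, smul_eq_mul, mul_comm]

theorem Sm_mul (r : ℕ) (M M' : Matrix B B K) : Sm r (M * M') = Sm r M * Sm r M' := by
  have h := cm_sb (r := r) M (y := fun β : Mon B r => sb M' (monomial β.1 1)) fun β =>
    sb_hom _ (isHomogeneous_monomial _ β.deg)
  refine Eq.trans ?_ h
  unfold Sm
  simp only [sb_mul]

theorem Sm_one (r : ℕ) : Sm r (1 : Matrix B B K) = 1 := by
  ext β β'
  simp only [Sm, cm, Matrix.of_apply, sb_one, coeff_monomial, Matrix.one_apply]
  by_cases h : β = β'
  · subst h; simp
  · rw [if_neg h, if_neg fun h' => h (Subtype.ext h'.symm)]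

theorem sb_diag (t : B → K) (β : B →₀ ℕ) :
    sb (diagonal t) (monomial β 1) = monomial β (∏ b, t b ^ β b) := by
  have h1 : (monomial β (1 : K)) = ∏ b, X b ^ β b := by
    rw [monomial_eq, C_1, one_mul, Finsupp.prod_fintype _ _ (by intro; simp)]
  have h2 : ∀ b, sb (diagonal t) (X b) = C (t b) * X b := by
    intro b
    rw [sb_X, Finset.sum_eq_single b]
    · simp
    · intro b' _ hb'
      rw [Matrix.diagonal_apply_ne _ hb']
      simp
    · simp
  rw [h1, map_prod]
  simp only [map_pow, h2, mul_pow, Finset.prod_mul_distrib]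
  rw [← h1, ← C_mul_monomial_one_aux (∏ b, t b ^ β b) β]
  simp
where
  C_mul_monomial_one_aux (c : K) (β : B →₀ ℕ) : C c * monomial β (1 : K) = monomial β c := by
    rw [C_mul_monomial, mul_one]

theorem det_Sm_diag (r : ℕ) (hr : 0 < r) (t : B → K) :
    (Sm r (diagonal t)).det = (diagonal t).det ^ gam (Fintype.card B) r := by
  have h1 : Sm r (diagonal t) = diagonal fun β : Mon B r => ∏ b, t b ^ β.1 b := by
    ext β β'
    simp only [Sm, cm, Matrix.of_apply, sb_diag, coeff_monomial]
    by_cases h : β = β'
    · subst h; simp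
    · rw [if_neg fun h' => h (Subtype.ext h'.symm), Matrix.diagonal_apply_ne _ h]
  rw [h1, det_diagonal, det_diagonal, Finset.prod_comm, ← Finset.prod_pow]
  refine Finset.prod_congr rfl fun b _ => ?_
  rw [Finset.prod_pow_eq_pow_sum, sum_exp r hr b]

theorem det_Sm_transvec [CharZero K] (r : ℕ) {i j : B} (hij : i ≠ j) (c : K) :
    (Sm r (transvection i j c)).det = 1 := by
  set f : K → K := fun c => (Sm r (transvection i j c)).det with hf
  have hadd : ∀ c c', f (c + c') = f c * f c' := by
    intro c c'
    simp only [hf]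
    rw [← transvection_mul_transvection_same i j hij, Sm_mul, det_mul]
  have h0 : f 0 = 1 := by
    simp only [hf]
    rw [transvection_zero, Sm_one, det_one]
  have hne : ∀ c, f c ≠ 0 := by
    intro c hc
    have h1 := hadd c (-c)
    rw [hc, zero_mul, add_neg_cancel, h0] at h1
    exact one_ne_zero h1
  have hconj : ∀ c, f (2 * c) = f c := by
    intro c
    set D : B → K := fun b => if b = i then 2 else 1 with hD
    have h1 : transvection i j (2 * c) * diagonal D = diagonal D * transvection i j c := by
      ext a b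
      simp only [Matrix.mul_diagonal, Matrix.diagonal_mul, transvection, Matrix.add_apply,
        Matrix.one_apply, Matrix.single_apply, hD]
      by_cases hai : i = a
      · subst hai
        by_cases hjb : j = b
        · subst hjb
          simp [hij, hij.symm]
        · by_cases hib : i = b
          · subst hib
            simp [hjb]
          · simp [hjb, hib]
      · by_cases hab : a = b
        · subst hab
          simp [hai]
        · simp [hai, hab]
    have h2 := congrArg (fun M => (Sm r M).det) h1
    simp only [Sm_mul, det_mul] at h2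
    have h3 : (Sm r (diagonal D)).det ≠ 0 := by
      set D' : B → K := fun b => if b = i then 2⁻¹ else 1 with hD'
      have h4 : diagonal D * diagonal D' = 1 := by
        rw [diagonal_mul_diagonal, ← diagonal_one]
        congr 1
        funext b
        simp only [hD, hD']
        split_ifs <;> simp
      intro h5
      have h6 := congrArg (fun M => (Sm r M).det) h4
      simp only [Sm_mul, det_mul, h5, zero_mul, Sm_one, det_one] at h6
      exact one_ne_zero h6.symm
    have h7 : f (2 * c) * (Sm r (diagonal D)).det = f c * (Sm r (diagonal D)).det := by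
      rw [h2, mul_comm]
    exact mul_right_cancel₀ h3 h7
  have h8 := hconj c
  rw [two_mul, hadd] at h8
  exact mul_right_cancel₀ (hne c) (by rw [h8, one_mul])

theorem det_Sm [CharZero K] (r : ℕ) (hr : 0 < r) (M : Matrix B B K) :
    (Sm r M).det = M.det ^ gam (Fintype.card B) r := by
  refine diagonal_transvection_induction
    (fun M => (Sm r M).det = M.det ^ gam (Fintype.card B) r) M
    (fun D _ => det_Sm_diag r hr D) (fun t => ?_) fun M M' h h' => ?_
  · change (Sm r (transvection t.i t.j t.c)).det = (transvection t.i t.j t.c).det ^ _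
    rw [det_Sm_transvec r t.hij, det_transvection_of_ne _ _ t.hij, one_pow]
  · change (Sm r (M * M')).det = (M * M').det ^ _
    rw [Sm_mul, det_mul, det_mul, mul_pow, h, h']

end

end Pool.Agent.Y191
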