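import Pool.Agent.Y191.Sec
import Pool.Agent.TH585.SV.Fib4

/-!
The sections which come from the base, for rational weights: tensor differentials.
-/

set_option autoImplicit false

open MvPolynomial Matrix FF Pool.Agent.W603.LV Pool.Agent.W602.GT

namespace Pool.Agent.Y191

/-- a common denominator of the weights -/
theorem exists_Nm_rat {q A : ℕ} {wt : Fin q → ℚ} (h0 : ∀ i, 0 ≤ wt i) (h : (A : ℚ) ≤ ∑ i, wt i) :
    ∃ (N : ℕ) (m : Fin q → ℕ), 0 < N ∧ (∀ i, (m i : ℚ) = N * wt i) ∧ N * A ≤ ∑ i, m i := by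
  obtain ⟨N, hN⟩ : ∃ N, N = ∏ i, (wt i).den := ⟨_, rfl⟩
  have hNpos : 0 < N := by
    rw [hN]
    exact Finset.prod_pos fun i _ => (wt i).den_pos
  have hm : ∀ i, ∃ m : ℕ, (m : ℚ) = N * wt i := by
    intro i
    obtain ⟨c, hc⟩ : (wt i).den ∣ N := by
      rw [hN]
      exact Finset.dvd_prod_of_mem _ (Finset.mem_univ i)
    refine ⟨c * (wt i).num.toNat, ?_⟩
    have h1 : (((wt i).num.toNat : ℕ) : ℚ) = (wt i).num := by
      exact_mod_cast Int.toNat_of_nonneg (Rat.num_nonneg.mpr (h0 i))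
    have h2 : (wt i) * (wt i).den = (wt i).num := Rat.mul_den_eq_num _
    rw [hc]
    push_cast
    rw [h1, ← h2]
    ring
  choose m hm using hm
  refine ⟨N, m, hNpos, hm, ?_⟩
  have h1 : ((N * A : ℕ) : ℚ) ≤ ((∑ i, m i : ℕ) : ℚ) := by
    push_cast
    rw [Finset.sum_congr rfl fun i _ => hm i, ← Finset.mul_sum]
    exact mul_le_mul_of_nonneg_left h (by positivity)
  exact_mod_cast h1

variable {k K : Type} [Field k] [Field K] [Algebra k K] [CharZero k]

/-- **The sections of the base**, rational weights. -/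
theorem base_sec0 {n d q p : ℕ} (hd : 0 < d) {ℓ : Fin q → Fin (n + 1) → k} (hI : IndT d ℓ)
    (hg : GenPos ℓ) (hq : n + 1 ≤ q) {b : Fin (n + 1) → K} (hl : ∀ i, lf (ℓ i) b ≠ 0)
    (hb : ∃ j, b j ≠ 0) (htr : Algebra.trdeg k (RF k b) = p) {wt : Fin q → ℚ}
    (hwt0 : ∀ i, 0 ≤ wt i) (hwt1 : ∀ i, wt i ≤ 1)
    (hlt : (((p + 1) * gam (n - p) (d + 1) : ℕ) : ℚ) ≤ ∑ i, wt i) :
    ∃ (x : Fin p → K) (N : ℕ) (f : K), 0 < N ∧ AlgebraicIndependent k x ∧ f ≠ 0 ∧
      (∀ (P : Place k K) (D : Fin p → Derivation k K K), (∀ i, DerLog P (D i)) →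
        P.Reg (f * (jac x D).det ^ (N * gam (n - p) (d + 1)))) ∧
      ∀ (P : Place k K) (D : Fin p → Derivation k K K),
        (∀ (c : ℤ) (e : Fin q → ℕ), OrdData P ℓ b c e →
          ((min (Finset.univ.filter fun i => e i ≠ 0).card (gam (n - p) (d + 1)) : ℕ) : ℚ) ≤
            ∑ i, (1 - wt i) * e i) →
        (∀ i, DerReg P (D i)) → P.Reg (f * (jac x D).det ^ (N * gam (n - p) (d + 1))) := by
  classical
  obtain ⟨σ, x, D0, G, -, hb0, hx, hind, -, -, hG0, hG, hlog, hreg⟩ :=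
    base_fin hd hI hg hq hl hb htr
  obtain ⟨N, m, hN, hm, hNm⟩ := exists_Nm_rat hwt0 hlt
  obtain ⟨S, hS⟩ : ∃ S, ∑ i, m i = N * ((p + 1) * gam (n - p) (d + 1)) + S :=
    ⟨∑ i, m i - N * ((p + 1) * gam (n - p) (d + 1)), by omega⟩
  have hden : ∏ i, lf (ℓ i) b ^ m i ≠ 0 :=
    Finset.prod_ne_zero_iff.mpr fun i _ => pow_ne_zero _ (hl i)
  have hgs : ∀ (P : Place k K) (c : ℤ) (e : Fin q → ℕ), OrdData P ℓ b c e →
      Ge P (S * c) (b (σ 0) ^ S) := fun P c e ho => (ge_coord ho (σ 0)).pow S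
  have hform : ∀ (D : Fin p → Derivation k K K),
      G D0 ^ N * (b (σ 0) ^ S / ∏ i, lf (ℓ i) b ^ m i) *
        (jac x D).det ^ (N * gam (n - p) (d + 1)) =
      G D ^ N * (b (σ 0) ^ S / ∏ i, lf (ℓ i) b ^ m i) := by
    intro D
    rw [hG D, mul_pow, ← pow_mul, mul_comm N]
    ring
  refine ⟨x, N, G D0 ^ N * (b (σ 0) ^ S / ∏ i, lf (ℓ i) b ^ m i), hN, hind,
    ?_, fun P D hD => ?_, fun P D hP hD => ?_⟩
  · exact mul_ne_zero (pow_ne_zero _ hG0) (div_ne_zero (pow_ne_zero _ hb0) hden)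
  · obtain ⟨c, e, ho⟩ := exists_ordData P hb0 hl
    rw [hform, reg_iff_ge]
    have h1 := hlog P c e ho D hD
    rw [← sub_zero (∑ i, (e i : ℤ)), ← add_sub_assoc] at h1
    refine (sec_ge hl ho h1 hS (hgs P c e ho)).mono ?_
    rw [mul_zero, sub_zero]
    refine Finset.sum_nonneg fun i _ => mul_nonneg ?_ (by positivity)
    have h2 : (m i : ℚ) ≤ N := by
      rw [hm i]
      have : (0 : ℚ) ≤ N := by positivity
      nlinarith [hwt1 i, hwt0 i]
    have h3 : m i ≤ N := by exact_mod_cast h2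
    omega
  · obtain ⟨c, e, ho⟩ := exists_ordData P hb0 hl
    rw [hform, reg_iff_ge]
    refine (sec_ge hl ho (hreg P c e ho D hD) hS (hgs P c e ho)).mono ?_
    have h1 := hP c e ho
    have h2 : (N : ℚ) * ((min (Finset.univ.filter fun i => e i ≠ 0).card
        (gam (n - p) (d + 1)) : ℕ) : ℚ) ≤ ∑ i, ((N : ℚ) - m i) * e i := by
      calc (N : ℚ) * ((min (Finset.univ.filter fun i => e i ≠ 0).card
            (gam (n - p) (d + 1)) : ℕ) : ℚ) ≤ N * ∑ i, (1 - wt i) * e i :=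
            mul_le_mul_of_nonneg_left h1 (by positivity)
        _ = ∑ i, ((N : ℚ) - N * wt i) * e i := by
            rw [Finset.mul_sum]
            exact Finset.sum_congr rfl fun i _ => by ring
        _ = _ := Finset.sum_congr rfl fun i _ => by rw [hm i]
    have h3 : (N : ℤ) * ((min (Finset.univ.filter fun i => e i ≠ 0).card
        (gam (n - p) (d + 1)) : ℕ) : ℤ) ≤ ∑ i, ((N : ℤ) - m i) * e i := by
      exact_mod_cast h2
    linarith

/-- **Tensor differentials.** -/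
theorem tens {K : Type} [Field K] [Algebra ℂ K] {n d q p : ℕ} (hd : 0 < d)
    {ℓ : Fin q → Fin (n + 1) → ℂ} (hI : IndT d ℓ)
    (hg : GenPos ℓ) (hq : n + 1 ≤ q) {b : Fin (n + 1) → K} (hl : ∀ i, lf (ℓ i) b ≠ 0)
    (hb : ∃ j, b j ≠ 0) (htr : Algebra.trdeg ℂ (RF ℂ b) = p) {wt : Fin q → ℚ}
    (hwt0 : ∀ i, 0 ≤ wt i) (hwt1 : ∀ i, wt i ≤ 1)
    (hlt : (((p + 1) * gam (n - p) (d + 1) : ℕ) : ℚ) ≤ ∑ i, wt i) :
    ∃ (M : ℕ), 0 < M ∧ ∃ ω : MultilinearMap K (fun _ : Fin (M * p) => Derivation ℂ K K) K,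
      ω ≠ 0 ∧ ∀ P : Place ℂ K,
        (∀ (c : ℤ) (e : Fin q → ℕ), OrdData P ℓ b c e →
          ((min (Finset.univ.filter fun i => e i ≠ 0).card (gam (n - p) (d + 1)) : ℕ) : ℚ) ≤
            ∑ i, (1 - wt i) * e i) →
        ∀ D : Fin (M * p) → Derivation ℂ K K, (∀ j, DerReg P (D j)) → P.Reg (ω D) := by
  classical
  obtain ⟨x, N, f, hN, hind, hf, -, hreg⟩ := base_sec0 hd hI hg hq hl hb htr hwt0 hwt1 hlt
  obtain ⟨D0, hD0⟩ := exists_dual hind
  have hM : 0 < N * gam (n - p) (d + 1) := Nat.mul_pos hN (gam_pos _ (by omega))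
  refine ⟨N * gam (n - p) (d + 1), hM, Pool.Agent.TH585.SV.tns x f _, fun h0 => ?_,
    fun P hP D hD => Pool.Agent.TH585.SV.tns_reg hM (fun E hE _ => ?_) D hD⟩
  · have h1 : Pool.Agent.TH585.SV.tns x f (N * gam (n - p) (d + 1))
        (fun j => D0 (finProdFinEquiv.symm j).2) = f := by
      rw [Pool.Agent.TH585.SV.tns_apply, Finset.prod_eq_one, mul_one]
      intro c _
      have h2 : Pool.Agent.TH585.SV.mtx x
          (fun j => D0 (finProdFinEquiv.symm (finProdFinEquiv (c, j))).2) = 1 := by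
        refine Matrix.ext fun i j => ?_
        rw [Matrix.one_apply]
        change D0 (finProdFinEquiv.symm (finProdFinEquiv (c, i))).2 (x j) = _
        rw [Equiv.symm_apply_apply]
        exact hD0 i j
      rw [h2, det_one]
    rw [h0] at h1
    exact hf h1.symm
  · have h1 := hreg P E hP hE
    rw [reg_iff_ge, mul_comm] at h1
    exact h1

end Pool.Agent.Y191
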