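import Pool.Agent.Y191.Tens
import Pool.Agent.Y191.Fibs
import Pool.Agent.Y191.Final1

/-!
Varieties without tensor differentials and maps to projective space.
-/

set_option autoImplicit false

open MvPolynomial Matrix FF Pool.Agent.W603.LV Pool.Agent.W602.GT

namespace Pool.Agent.Y191

variable {K : Type} [Field K] [Algebra ℂ K] {n q : ℕ}

theorem tens_place {M d p : ℕ} (hd : 0 < d) {ℓ : Fin q → Fin (n + 1) → ℂ}
    (hI : Independent d ℓ) (hg : GeneralPosition ℓ) (hq : n + 1 ≤ q) {b : Fin (n + 1) → K}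
    (hl : ∀ i, lf (ℓ i) b ≠ 0) (hb : ∃ j, b j ≠ 0) (hp1 : 1 ≤ p)
    (htr : Algebra.trdeg ℂ (RF ℂ b) = p) {wt : Fin q → ℚ}
    (hwt0 : ∀ i, 0 ≤ wt i) (hwt1 : ∀ i, wt i ≤ 1)
    (hlt : (((p + 1) * (n - p + d).choose (n - p) : ℕ) : ℚ) ≤ ∑ i, wt i)
    {X : Set (Place ℂ K)} (hX : ∀ m : ℕ, 1 ≤ m →
      ∀ ω : MultilinearMap K (fun _ : Fin m => Derivation ℂ K K) K,
      (∀ P ∈ X, Divisorial M P → ∀ D : Fin m → Derivation ℂ K K, (∀ j, DerReg P (D j)) →
        P.Reg (ω D)) → ω = 0) :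
    ∃ P ∈ X, Divisorial M P ∧ ∃ (c : ℤ) (e : Fin q → ℕ), OrdData P ℓ b c e ∧
      ∑ i, (1 - wt i) * e i <
        ((min (Finset.univ.filter fun i => e i ≠ 0).card ((n - p + d).choose (n - p)) : ℕ) : ℚ) := by
  have hgam : gam (n - p) (d + 1) = (n - p + d).choose (n - p) := by
    unfold gam
    congr 1
  by_contra hcon
  push Not at hcon
  rw [← hgam] at hlt hcon
  obtain ⟨N, hN, ω, hω, hreg⟩ := tens hd hI (genPos_of hg) hq hl hb htr hwt0 hwt1 hlt
  exact hω (hX _ (Nat.mul_pos hN hp1) ω fun P hP hPd D hD =>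
    hreg P (fun c e ho => hcon P hP hPd c e ho) D hD)

/-- general arrangements, equal multiplicities -/
theorem general_tens {m Q : ℕ} (hn : 1 ≤ n) (hm : 2 ≤ m) (hQ : 2 * n * m ≤ Q * (m - 1))
    (hq : (n + Q).choose n < q) :
    ∃ Ψ : MvPolynomial (Fin q × Fin (n + 1)) ℂ, Ψ ≠ 0 ∧
      ∀ ℓ : Fin q → Fin (n + 1) → ℂ, eval (fun x => ℓ x.1 x.2) Ψ ≠ 0 →
      ∀ (K : Type) [Field K] [Algebra ℂ K] (M : ℕ) (b : Fin (n + 1) → K),
      Algebra.trdeg ℂ K = M → (∀ i, lf (ℓ i) b ≠ 0) →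
      (∃ i j, b j ≠ 0 ∧ ∀ c : ℂ, b i ≠ c • b j) → ∀ X : Set (Place ℂ K),
      (∀ m : ℕ, 1 ≤ m → ∀ ω : MultilinearMap K (fun _ : Fin m => Derivation ℂ K K) K,
        (∀ P ∈ X, Divisorial M P → ∀ D : Fin m → Derivation ℂ K K, (∀ j, DerReg P (D j)) →
          P.Reg (ω D)) → ω = 0) →
      ∃ P ∈ X, Divisorial M P ∧ ∃ (c : ℤ) (e : Fin q → ℕ), OrdData P ℓ b c e ∧
        ∃ i, 0 < e i ∧ e i < m := by
  obtain ⟨s, hs⟩ : ∃ s : ℝ, s = 1 - 1 / m := ⟨_, rfl⟩
  have hm0 : (0 : ℝ) < m := by positivity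
  have hm2 : (2 : ℝ) ≤ m := by exact_mod_cast hm
  have hs' : s * m = m - 1 := by
    rw [hs]
    field_simp
  have hs0 : 0 < s := by
    by_contra h
    push Not at h
    nlinarith
  have hs1 : s ≤ 1 := by
    rw [hs]
    have : (0 : ℝ) < 1 / m := by positivity
    linarith
  have hQ' : (2 * n : ℝ) ≤ Q * s := by
    have h1 : ((2 * n * m : ℕ) : ℝ) ≤ ((Q * (m - 1) : ℕ) : ℝ) := by exact_mod_cast hQ
    rw [Nat.cast_mul Q, Nat.cast_sub (by omega), Nat.cast_one] at h1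
    push_cast at h1
    have h2 : (2 * n : ℝ) * m ≤ (Q * s) * m := by
      calc (2 * n : ℝ) * m ≤ Q * (m - 1) := h1
        _ = (Q * s) * m := by rw [mul_assoc, hs']
    exact le_of_mul_le_mul_right h2 hm0
  obtain ⟨d, hd, Ψ, hΨ, hgen⟩ := general_arrangements (n := n) (q := q) hn hs0 hQ' hq
  refine ⟨Ψ, hΨ, fun ℓ hℓ K _ _ M b htrK hl hpos X hX => ?_⟩
  obtain ⟨hI, hg⟩ := hgen ℓ hℓ
  have hqd := le_of_ind (κ := ℂ) (ℓ := ℓ) hI
  have hlt' : 2 * (n + d - 1).choose (n - 1) < q := by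
    have : ((2 * (n + d - 1).choose (n - 1) : ℕ) : ℝ) < q := lt_of_lt_of_le hd (by nlinarith)
    exact_mod_cast this
  have hnd : n < d := deg_lt hn (hlt'.trans_le hqd)
  have hq' : n + 1 ≤ q := by
    have h1 : n.choose (n - 1) ≤ (n + d - 1).choose (n - 1) :=
      Nat.choose_le_choose (n - 1) (by omega)
    have h2 : n.choose (n - 1) = n := by
      obtain ⟨m, rfl⟩ : ∃ m, n = m + 1 := ⟨n - 1, by omega⟩
      simp
    omega
  obtain ⟨p, hp, hp1, -⟩ := pos_dim htrK hpos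
  have hb : ∃ j, b j ≠ 0 := by
    obtain ⟨_, j, hj, _⟩ := hpos
    exact ⟨j, hj⟩
  have hpn : p ≤ n := by
    obtain ⟨_, _, _, _, h, _⟩ := base_fin (k := ℂ) (by omega) hI (genPos_of hg) hq' hl hb hp
    exact h
  have hgam : gam (n - p) (d + 1) = (n - p + d).choose (n - p) := by
    unfold gam
    congr 1
  have hsum : ((∑ _i : Fin q, (1 - 1 / (m : ℚ)) : ℚ) : ℝ) = q * s := by
    rw [hs]
    push_cast
    simp
    ring
  obtain ⟨P, hPX, hPd, c, e, ho, hlt⟩ := tens_place (by omega) hI hg hq' hl hb hp1 hp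
    (wt := fun _ => 1 - 1 / (m : ℚ))
    (fun _ => by
      have : (1 : ℚ) / m ≤ 1 := by
        rw [div_le_one (by positivity)]
        exact_mod_cast (by omega : 1 ≤ m)
      linarith)
    (fun _ => by
      have : (0 : ℚ) ≤ 1 / m := by positivity
      linarith)
    (by
      rw [← hgam]
      have h1 := gam_le hnd.le p hp1 hpn
      have h2 : (((p + 1) * gam (n - p) (d + 1) : ℕ) : ℝ) <
          ((∑ _i : Fin q, (1 - 1 / (m : ℚ)) : ℚ) : ℝ) := by
        rw [hsum]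
        exact lt_of_le_of_lt (by exact_mod_cast h1) hd
      have h3 : (((p + 1) * gam (n - p) (d + 1) : ℕ) : ℚ) <
          ∑ _i : Fin q, (1 - 1 / (m : ℚ)) := by exact_mod_cast h2
      exact h3.le) hX
  refine ⟨P, hPX, hPd, c, e, ho, ?_⟩
  by_contra hcon
  push Not at hcon
  apply absurd hlt
  push Not
  have h1 : (((Finset.univ.filter fun i => e i ≠ 0).card : ℕ) : ℚ) ≤
      ∑ i, (1 - (1 - 1 / (m : ℚ))) * e i := by
    rw [Finset.card_filter]
    push_cast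
    refine Finset.sum_le_sum fun i _ => ?_
    by_cases h : e i = 0
    · rw [h]
      simp
    · rw [if_pos h]
      have h2 := hcon i (by omega)
      have h3 : (m : ℚ) ≤ e i := by exact_mod_cast h2
      have h4 : (0 : ℚ) < m := by positivity
      rw [sub_sub_cancel, one_div, inv_mul_eq_div, one_le_div h4]
      exact h3
  exact le_trans (by exact_mod_cast min_le_left _ _) h1

end Pool.Agent.Y191
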