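import Pool.Agent.Y191.UPlc
import Pool.Agent.Y172.UpA
import Pool.Agent.Y172.Grow

/-!
Traces of functions with bounded poles over the divisors of an affine space are polynomials up to a
fixed denominator, and their degrees in a block of variables are bounded.
-/

set_option autoImplicit false
set_option linter.overlappingInstances false
set_option linter.unusedSectionVars false

open FF MvPolynomial Pool.Agent.W603.LV Pool.Agent.W619.PQ

namespace Pool.Agent.Y191

section

variable {k K : Type} [Field k] [CharZero k] [Field K] [Algebra k K] {σ : Type}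

/-- the place `P` is over the divisor `g = 0` of the affine space with coordinates `U` -/
def AdicS (P : Place k K) (U : σ → K) (g : MvPolynomial σ k) : Prop :=
  ∀ Q : MvPolynomial σ k, Q ≠ 0 → 0 ≤ P.ord (aeval U Q) ∧ (P.ord (aeval U Q) = 0 ↔ ¬ g ∣ Q)

theorem gens_ofS {Z : σ → K} (hZ : AlgebraicIndependent k Z)
    {E : IntermediateField k K} (hE : E = IntermediateField.adjoin k (Set.range Z))
    {X : σ → E} (hX : ∀ j, (X j : K) = Z j) : GensS (k := k) X := by
  have hcoe : ∀ P : MvPolynomial σ k,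
      ((MvPolynomial.aeval X P : E) : K) = MvPolynomial.aeval Z P := by
    intro P
    have h1 := (MvPolynomial.aeval_algebraMap_apply K X P).symm
    have h2 : (fun j => algebraMap E K (X j)) = Z := funext hX
    change (algebraMap E K) (MvPolynomial.aeval X P) = _
    rw [h1]
    congr 1
    exact congrArg _ h2
  have hind : AlgebraicIndependent k X := by
    refine (injective_iff_map_eq_zero _).2 fun P hP => ?_
    apply (injective_iff_map_eq_zero _).1 hZ
    change MvPolynomial.aeval Z P = 0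
    rw [← hcoe]
    have : (MvPolynomial.aeval X P : E) = 0 := hP
    rw [this]
    rfl
  refine ⟨hind, fun z => ?_⟩
  have hz : (z : K) ∈ IntermediateField.adjoin k (Set.range Z) := by
    rw [← hE]
    exact z.2
  rw [IntermediateField.mem_adjoin_range_iff] at hz
  obtain ⟨P, Q, hPQ⟩ := hz
  by_cases hQ : Q = 0
  · refine ⟨0, 1, one_ne_zero, Subtype.ext ?_⟩
    rw [hPQ, hQ, map_zero, div_zero, map_zero, zero_div]
    rfl
  · refine ⟨P, Q, hQ, Subtype.ext ?_⟩
    rw [hPQ, ← hcoe, ← hcoe]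
    rfl

/-- an element of `K` is integral over the polynomials after multiplication by a polynomial -/
theorem exists_multS {Z : σ → K} (hZ : IsTranscendenceBasis k Z) (z : K) :
    ∃ Q : MvPolynomial σ k, Q ≠ 0 ∧
      IsIntegral (Algebra.adjoin k (Set.range Z)) (aeval Z Q * z) := by
  have halg := hZ.isAlgebraic
  obtain ⟨y, hy0, hy⟩ := (halg.isAlgebraic z).exists_integral_multiple
  have hy' : (y : K) ∈ (aeval Z : MvPolynomial σ k →ₐ[k] K).range := by
    rw [← Algebra.adjoin_range_eq_range_aeval]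
    exact y.2
  obtain ⟨Q, hQ⟩ := hy'
  refine ⟨Q, ?_, ?_⟩
  · rintro rfl
    apply hy0
    apply Subtype.ext
    rw [← hQ]
    simp
  · have h1 : (aeval Z : MvPolynomial σ k →ₐ[k] K) Q = (y : K) := hQ
    rw [h1]
    exact hy

theorem reg_of_intS {Z : σ → K} {w : Place k K} (hw : ∀ P : MvPolynomial σ k,
    w.Reg (aeval Z P)) {z : K} (hz : IsIntegral (Algebra.adjoin k (Set.range Z)) z) : w.Reg z := by
  refine w.reg_of_isIntegral (A := Algebra.adjoin k (Set.range Z)) (fun a => ?_) hz
  have ha : (a : K) ∈ (aeval Z : MvPolynomial σ k →ₐ[k] K).range := by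
    rw [← Algebra.adjoin_range_eq_range_aeval]
    exact a.2
  obtain ⟨P, hP⟩ := ha
  have h1 : algebraMap (Algebra.adjoin k (Set.range Z)) K a = aeval Z P := hP.symm
  rw [h1]
  exact hw P

theorem AdicS.pos {P : Place k K} {U : σ → K} {g : MvPolynomial σ k} (h : AdicS P U g)
    (hg : g ≠ 0) : 0 < P.ord (aeval U g) := by
  have h5 := h g hg
  rcases lt_or_eq_of_le h5.1 with h6 | h6
  · exact h6
  · exact absurd dvd_rfl (h5.2.1 h6.symm)

/-- the coordinates as elements of the rational field -/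
noncomputable def crd (U : σ → K) : σ → IntermediateField.adjoin k (Set.range U) :=
  fun i => ⟨U i, IntermediateField.subset_adjoin k _ ⟨i, rfl⟩⟩

theorem crd_coe (U : σ → K) (P : MvPolynomial σ k) :
    ((aeval (crd (k := k) U) P : IntermediateField.adjoin k (Set.range U)) : K) = aeval U P :=
  (MvPolynomial.aeval_algebraMap_apply K (crd (k := k) U) P).symm

theorem crd_gens {U : σ → K} (hU : AlgebraicIndependent k U) : GensS (k := k) (crd (k := k) U) :=
  gens_ofS hU rfl fun _ => rfl

/-- a place over the divisor `g = 0` is over the place of `g` -/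
theorem AdicS.over {P : Place k K} {U : σ → K} (hU : AlgebraicIndependent k U)
    {g : MvPolynomial σ k} (hg : Irreducible g) (h : AdicS P U g)
    {v : Place k (IntermediateField.adjoin k (Set.range U))}
    (hv1 : v.ord (aeval (crd (k := k) U) g) = 1)
    (hv : ∀ Q, Q ≠ 0 → 0 ≤ v.ord (aeval (crd (k := k) U) Q) ∧
      (v.ord (aeval (crd (k := k) U) Q) = 0 ↔ ¬ g ∣ Q)) :
    Over P v (P.ord (aeval U g)).toNat := by
  have hG := crd_gens (k := k) hU
  have hpos := h.pos hg.ne_zero
  have hU0 : ∀ Q : MvPolynomial σ k, Q ≠ 0 → aeval U Q ≠ 0 := fun Q hQ h0 =>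
    hQ ((injective_iff_map_eq_zero _).1 hU Q h0)
  have h1 : ∀ Q : MvPolynomial σ k, Q ≠ 0 →
      P.ord (aeval U Q) = P.ord (aeval U g) * v.ord (aeval (crd (k := k) U) Q) := by
    intro Q hQ
    obtain ⟨m, Q', hQ', hQQ'⟩ : ∃ (m : ℕ) (Q' : MvPolynomial σ k), ¬ g ∣ Q' ∧
        Q = g ^ m * Q' := by
      have hfin : FiniteMultiplicity g Q := FiniteMultiplicity.of_not_isUnit hg.not_isUnit hQ
      obtain ⟨c, hc, hc'⟩ := hfin.exists_eq_pow_mul_and_not_dvd
      exact ⟨_, c, hc', hc⟩
    have hQ'0 : Q' ≠ 0 := by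
      rintro rfl
      exact hQ' (dvd_zero _)
    have h2 := ((h Q' hQ'0).2).2 hQ'
    have h3 := ((hv Q' hQ'0).2).2 hQ'
    rw [hQQ', map_mul, map_pow, map_mul, map_pow,
      P.ord_mul (pow_ne_zero _ (hU0 g hg.ne_zero)) (hU0 Q' hQ'0),
      v.ord_mul (pow_ne_zero _ (hG.ne hg.ne_zero)) (hG.ne hQ'0), P.ord_pow, v.ord_pow, hv1, h2, h3]
    ring
  have h2 : ((P.ord (aeval U g)).toNat : ℤ) = P.ord (aeval U g) := Int.toNat_of_nonneg hpos.le
  refine ⟨by omega, fun f => ?_⟩
  rw [h2]
  by_cases hf : f = 0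
  · rw [hf, map_zero, P.ord_zero, v.ord_zero, mul_zero]
  obtain ⟨A, B, hB, hAB⟩ := hG.gen f
  have hA : A ≠ 0 := by
    rintro rfl
    apply hf
    rw [hAB, map_zero, zero_div]
  have h3 : algebraMap (IntermediateField.adjoin k (Set.range U)) K f =
      aeval U A / aeval U B := by
    rw [hAB, map_div₀]
    change ((aeval (crd (k := k) U) A : IntermediateField.adjoin k (Set.range U)) : K) /
      ((aeval (crd (k := k) U) B : IntermediateField.adjoin k (Set.range U)) : K) = _
    rw [crd_coe, crd_coe]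
  rw [h3, P.ord_div (hU0 A hA) (hU0 B hB), h1 A hA, h1 B hB, hAB,
    v.ord_div (hG.ne hA) (hG.ne hB)]
  ring

theorem adic_of_over {U : σ → K} {g : MvPolynomial σ k}
    {v : Place k (IntermediateField.adjoin k (Set.range U))}
    (hv : ∀ Q, Q ≠ 0 → 0 ≤ v.ord (aeval (crd (k := k) U) Q) ∧
      (v.ord (aeval (crd (k := k) U) Q) = 0 ↔ ¬ g ∣ Q)) {w : Place k K} {e : ℕ}
    (h : Over w v e) : AdicS w U g := by
  intro Q hQ
  have h1 : w.ord (aeval U Q) = e * v.ord (aeval (crd (k := k) U) Q) := by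
    rw [← h.2, ← crd_coe]
    rfl
  have h2 := hv Q hQ
  have h3 : (0 : ℤ) < e := by exact_mod_cast h.1
  rw [h1]
  refine ⟨mul_nonneg h3.le h2.1, ?_⟩
  rw [← h2.2, mul_eq_zero]
  constructor
  · rintro (h4 | h4)
    · omega
    · exact h4
  · exact fun h4 => Or.inr h4

/-- **Traces are polynomials up to a fixed denominator.** -/
theorem exists_clear {ι : Type} [Fintype ι] {U : σ → K} (hU : IsTranscendenceBasis k U)
    [FiniteDimensional (IntermediateField.adjoin k (Set.range U)) K] (β : ι → K)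
    (A : Place k K → ℕ) (hA : {P | A P ≠ 0 ∧ ∃ g, Irreducible g ∧ AdicS P U g}.Finite) :
    ∃ p : MvPolynomial σ k, p ≠ 0 ∧ ∀ f : K,
      (∀ P g, Irreducible g → AdicS P U g → Ge P (-(A P : ℤ)) f) →
      ∀ i, ∃ Q : MvPolynomial σ k,
        ((Algebra.trace (IntermediateField.adjoin k (Set.range U)) K (f * β i) :
          IntermediateField.adjoin k (Set.range U)) : K) * aeval U p = aeval U Q := by
  classical
  have hG := crd_gens (k := k) hU.1
  have hU0 : ∀ Q : MvPolynomial σ k, Q ≠ 0 → aeval U Q ≠ 0 := fun Q hQ h0 =>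
    hQ ((injective_iff_map_eq_zero _).1 hU.1 Q h0)
  choose q hq0 hq using fun i => exists_multS hU (β i)
  let SA := hA.toFinset
  let gP : Place k K → MvPolynomial σ k := fun P =>
    if h : ∃ g : MvPolynomial σ k, Irreducible g ∧ AdicS P U g then h.choose else 1
  have hgP : ∀ P, (∃ g : MvPolynomial σ k, Irreducible g ∧ AdicS P U g) →
      Irreducible (gP P) ∧ AdicS P U (gP P) := by
    intro P h
    have h1 : gP P = h.choose := dif_pos h
    rw [h1]
    exact h.choose_spec
  have hgP0 : ∀ P, gP P ≠ 0 := by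
    intro P
    by_cases h : ∃ g : MvPolynomial σ k, Irreducible g ∧ AdicS P U g
    · exact (hgP P h).1.ne_zero
    · have h1 : gP P = 1 := dif_neg h
      rw [h1]
      exact one_ne_zero
  obtain ⟨p1, hp1⟩ : ∃ p1, p1 = ∏ P ∈ SA, gP P ^ A P := ⟨_, rfl⟩
  obtain ⟨p2, hp2⟩ : ∃ p2, p2 = ∏ i, q i := ⟨_, rfl⟩
  have hp10 : p1 ≠ 0 := by
    rw [hp1]
    exact Finset.prod_ne_zero_iff.2 fun P _ => pow_ne_zero _ (hgP0 P)
  have hp20 : p2 ≠ 0 := by
    rw [hp2]
    exact Finset.prod_ne_zero_iff.2 fun i _ => hq0 i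
  have hp1A : ∀ P, (∃ g : MvPolynomial σ k, Irreducible g ∧ AdicS P U g) →
      Ge P (A P : ℤ) (aeval U p1) := by
    intro P hg
    obtain ⟨g, hg1, hg2⟩ := hg
    right
    by_cases hAP : A P = 0
    · rw [hAP]
      exact_mod_cast (hg2 p1 hp10).1
    have hPS : P ∈ SA := by
      rw [Set.Finite.mem_toFinset]
      exact ⟨hAP, g, hg1, hg2⟩
    have h1 : gP P ^ A P ∣ p1 := by
      rw [hp1]
      exact Finset.dvd_prod_of_mem (fun P => gP P ^ A P) hPS
    obtain ⟨r, hr⟩ := h1
    have hr0 : r ≠ 0 := by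
      rintro rfl
      rw [mul_zero] at hr
      exact hp10 hr
    have h3 := hgP P ⟨g, hg1, hg2⟩
    have h4 := h3.2.pos h3.1.ne_zero
    have h5 := (hg2 r hr0).1
    rw [hr, map_mul, map_pow, P.ord_mul (pow_ne_zero _ (hU0 _ (hgP0 P))) (hU0 r hr0),
      P.ord_pow]
    have : (A P : ℤ) * 1 ≤ A P * P.ord (aeval U (gP P)) :=
      mul_le_mul_of_nonneg_left (by omega) (Int.natCast_nonneg _)
    omega
  refine ⟨p1 * p2, mul_ne_zero hp10 hp20, fun f hf i => ?_⟩
  have key : ∀ g : MvPolynomial σ k, Irreducible g →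
      ∀ v : Place k (IntermediateField.adjoin k (Set.range U)),
      v.ord (aeval (crd (k := k) U) g) = 1 →
      (∀ P, P ≠ 0 → 0 ≤ v.ord (aeval (crd (k := k) U) P) ∧
        (v.ord (aeval (crd (k := k) U) P) = 0 ↔ ¬ g ∣ P)) →
      v.Reg (Algebra.trace (IntermediateField.adjoin k (Set.range U)) K
        (f * β i * aeval U (p1 * p2))) := by
    intro g hg v hv1 hv
    refine Pool.Agent.Y172.trace_reg v _ fun w e hw => ?_
    have hwg : AdicS w U g := adic_of_over hv hw
    have hreg : ∀ P : MvPolynomial σ k, w.Reg (aeval U P) := by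
      intro P
      by_cases hP : P = 0
      · rw [hP, map_zero]
        exact w.reg_zero
      · exact Or.inr (hwg P hP).1
    have h1 := hf w g hg hwg
    have h2 := hp1A w ⟨g, hg, hwg⟩
    have h3 : Ge w 0 (aeval U (q i) * β i) := reg_of_intS hreg (hq i)
    have h4 : Ge w 0 (aeval U (∏ j ∈ Finset.univ.erase i, q j)) := hreg _
    have h5 : f * β i * aeval U (p1 * p2) = (f * aeval U p1) * ((aeval U (q i) * β i) *
        aeval U (∏ j ∈ Finset.univ.erase i, q j)) := by
      rw [hp2, ← Finset.mul_prod_erase Finset.univ q (Finset.mem_univ i), map_mul, map_mul]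
      ring
    rw [h5]
    have h6 := (h1.mul h2).mul (h3.mul h4)
    refine h6.mono (le_of_eq ?_)
    ring
  obtain ⟨Q, hQ⟩ := poly_of_regS hG key
  refine ⟨Q, ?_⟩
  have h7 : Algebra.trace (IntermediateField.adjoin k (Set.range U)) K
      (f * β i * aeval U (p1 * p2)) = aeval (crd (k := k) U) (p1 * p2) *
      Algebra.trace (IntermediateField.adjoin k (Set.range U)) K (f * β i) := by
    have h8 : f * β i * aeval U (p1 * p2) = (aeval (crd (k := k) U) (p1 * p2)) • (f * β i) := by
      rw [Algebra.smul_def, mul_comm]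
      congr 1
      exact (crd_coe U (p1 * p2)).symm
    rw [h8, map_smul, smul_eq_mul]
  rw [← crd_coe U Q, ← hQ, h7, mul_comm, ← crd_coe U (p1 * p2)]
  rfl

end

section deg

variable {k K : Type} [Field k] [CharZero k] [Field K] [Algebra k K] {σ : Type}
  [Fintype σ] [DecidableEq σ]

/-- the degree in a block of variables, as the degree of a polynomial -/
noncomputable def bdeg (J : Finset σ) :
    MvPolynomial σ k →ₐ[k] Polynomial (MvPolynomial σ k) :=
  aeval fun i => if i ∈ J then Polynomial.X * Polynomial.C (X i) else Polynomial.C (X i)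

theorem bdeg_inj (J : Finset σ) : Function.Injective (bdeg (k := k) J) := by
  have h : ∀ Q : MvPolynomial σ k, Polynomial.eval 1 (bdeg J Q) = Q := by
    intro Q
    induction Q using MvPolynomial.induction_on with
    | C a =>
      have : bdeg J (C a : MvPolynomial σ k) = Polynomial.C (C a) := by
        rw [bdeg, aeval_C]
        rfl
      rw [this, Polynomial.eval_C]
    | add P Q hP hQ => rw [map_add, Polynomial.eval_add, hP, hQ]
    | mul_X P i hP =>
      rw [map_mul, Polynomial.eval_mul, hP]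
      congr 1
      rw [bdeg, aeval_X]
      split_ifs <;> simp
  exact fun a b hab => by rw [← h a, ← h b, hab]

theorem bdeg_monomial (J : Finset σ) (m : σ →₀ ℕ) (c : k) :
    bdeg J (monomial m c) = Polynomial.monomial (∑ i ∈ J, m i) (monomial m c) := by
  rw [bdeg, aeval_monomial, Finsupp.prod_fintype _ _ fun _ => pow_zero _]
  have h1 : ∀ i, (if i ∈ J then Polynomial.X * Polynomial.C (X i) else
      Polynomial.C (X i : MvPolynomial σ k)) ^ m i =
      Polynomial.X ^ (if i ∈ J then m i else 0) * Polynomial.C (X i ^ m i) := by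
    intro i
    split_ifs
    · rw [mul_pow, map_pow]
    · rw [pow_zero, one_mul, map_pow]
  rw [Finset.prod_congr rfl fun i _ => h1 i, Finset.prod_mul_distrib, Finset.prod_pow_eq_pow_sum,
    Finset.sum_ite_mem, Finset.univ_inter, ← map_prod, ← Polynomial.C_mul_X_pow_eq_monomial,
    monomial_eq, Finsupp.prod_fintype _ _ fun _ => pow_zero _, map_mul]
  have h2 : (algebraMap k (Polynomial (MvPolynomial σ k))) c = Polynomial.C (C c) := rfl
  rw [h2]
  ring

theorem bdeg_coeff (J : Finset σ) (Q : MvPolynomial σ k) (m : σ →₀ ℕ) :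
    coeff m ((bdeg J Q).coeff (∑ i ∈ J, m i)) = coeff m Q := by
  conv_lhs => rw [Q.as_sum, map_sum, Polynomial.finsetSum_coeff, coeff_sum]
  have h1 : ∀ x ∈ Q.support, coeff m ((bdeg J (monomial x (coeff x Q))).coeff (∑ i ∈ J, m i)) =
      if x = m then coeff x Q else 0 := by
    intro x _
    rw [bdeg_monomial, Polynomial.coeff_monomial]
    split_ifs with h2 h3 h3
    · rw [h3, coeff_monomial, if_pos rfl]
    · rw [coeff_monomial, if_neg h3]
    · exact absurd (by rw [h3]) h2
    · rw [coeff_zero]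
  rw [Finset.sum_congr rfl h1, Finset.sum_ite_eq']
  split_ifs with h2
  · rfl
  · exact (notMem_support_iff.1 h2).symm

/-- the degree in the variables in `J` -/
noncomputable def bd (J : Finset σ) (Q : MvPolynomial σ k) : ℕ := (bdeg J Q).natDegree

theorem le_bd (J : Finset σ) {Q : MvPolynomial σ k} {m : σ →₀ ℕ} (hm : m ∈ Q.support) :
    ∑ i ∈ J, m i ≤ bd J Q := by
  refine Polynomial.le_natDegree_of_ne_zero fun h0 => mem_support_iff.1 hm ?_
  rw [← bdeg_coeff J Q m, h0, coeff_zero]

theorem bd_le (J : Finset σ) {Q : MvPolynomial σ k} {N : ℕ}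
    (h : ∀ m ∈ Q.support, ∑ i ∈ J, m i ≤ N) : bd J Q ≤ N := by
  rw [bd, Q.as_sum, map_sum]
  refine Polynomial.natDegree_sum_le_of_forall_le _ _ fun m hm => ?_
  rw [bdeg_monomial]
  exact (Polynomial.natDegree_monomial_le _).trans (h m hm)

theorem exists_bplace (J : Finset σ) (hJ : J.Nonempty) {F : Type} [Field F] [Algebra k F]
    {X : σ → F} (h : GensS (k := k) X) :
    ∃ v : Place k F, ∀ Q : MvPolynomial σ k, Q ≠ 0 → v.ord (aeval X Q) = -(bd J Q : ℤ) := by
  obtain ⟨j, hj⟩ := hJ
  have h0 : ∀ Q : MvPolynomial σ k, Q ≠ 0 → bdeg J Q ≠ 0 := fun Q hQ h1 =>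
    hQ (bdeg_inj J (by rw [h1, map_zero]))
  refine exists_placeS h (ν := fun Q => -(bd J Q : ℤ)) ⟨?_, ?_, ?_⟩
    ⟨1, MvPolynomial.X j, one_ne_zero, X_ne_zero _, ?_⟩
  · intro P Q hP hQ
    have h1 : bd J (P * Q) = bd J P + bd J Q := by
      unfold bd
      rw [map_mul, Polynomial.natDegree_mul (h0 P hP) (h0 Q hQ)]
    rw [h1]
    push_cast
    ring
  · intro P Q hP hQ hPQ
    have h1 : bd J (P + Q) ≤ max (bd J P) (bd J Q) := by
      unfold bd
      rw [map_add]
      exact Polynomial.natDegree_add_le _ _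
    rcases le_max_iff.1 h1 with h2 | h2
    · exact le_trans (min_le_left _ _) (by omega)
    · exact le_trans (min_le_right _ _) (by omega)
  · intro c hc
    have h1 : bd J (C c : MvPolynomial σ k) = 0 := by
      have : bdeg J (C c : MvPolynomial σ k) = Polynomial.C (C c) := by
        rw [bdeg, aeval_C]
        rfl
      rw [bd, this, Polynomial.natDegree_C]
    rw [h1]
    simp
  · have h1 : bd J (1 : MvPolynomial σ k) = 0 := by
      rw [bd, map_one, Polynomial.natDegree_one]
    have h2 : bd J (MvPolynomial.X j : MvPolynomial σ k) = 1 := by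
      rw [bd, bdeg, aeval_X, if_pos hj]
      rw [mul_comm, Polynomial.natDegree_C_mul_X _ (X_ne_zero _)]
    rw [h1, h2]
    norm_num

/-- **The degrees of the traces are bounded.** -/
theorem exists_degb {ι : Type} [Fintype ι] {U : σ → K} (hU : IsTranscendenceBasis k U)
    [FiniteDimensional (IntermediateField.adjoin k (Set.range U)) K] (β : ι → K)
    (J : Finset σ) (hJ : J.Nonempty) (B : Place k K → ℕ) :
    ∃ C : ℕ, ∀ (t : ℤ) (f : K), (∀ (P : Place k K) (ρ : ℕ), 1 ≤ ρ →
      (∀ Q : MvPolynomial σ k, Q ≠ 0 → P.ord (aeval U Q) = -((ρ : ℤ) * bd J Q)) →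
      Ge P (t * ρ - B P) f) → ∀ (i : ι) (p Q : MvPolynomial σ k), p ≠ 0 →
      ((Algebra.trace (IntermediateField.adjoin k (Set.range U)) K (f * β i) :
          IntermediateField.adjoin k (Set.range U)) : K) * aeval U p = aeval U Q →
      Q = 0 ∨ t + bd J Q ≤ C + bd J p := by
  classical
  have hG := crd_gens (k := k) hU.1
  have hU0 : ∀ Q : MvPolynomial σ k, Q ≠ 0 → aeval U Q ≠ 0 := fun Q hQ h0 =>
    hQ ((injective_iff_map_eq_zero _).1 hU.1 Q h0)
  obtain ⟨v, hv⟩ := exists_bplace J hJ hG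
  obtain ⟨j, hj⟩ := hJ
  have : CharZero K := charZero_of_injective_algebraMap (algebraMap k K).injective
  have hfin := Pool.Agent.Y172.finite_over (K' := K) v
  let T := hfin.toFinset
  obtain ⟨C, hC⟩ : ∃ C : ℕ, C = ∑ w ∈ T, (B w + ∑ i, (w.ord (β i)).natAbs) := ⟨_, rfl⟩
  have hCw : ∀ w ∈ T, ∀ i, B w + (w.ord (β i)).natAbs ≤ C := by
    intro w hw i
    have h1 := Finset.single_le_sum (f := fun w : Place k K => B w + ∑ i, (w.ord (β i)).natAbs)
      (fun _ _ => Nat.zero_le _) hw
    have h2 := Finset.single_le_sum (f := fun i => (w.ord (β i)).natAbs)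
      (fun _ _ => Nat.zero_le _) (Finset.mem_univ i)
    rw [hC]
    exact (Nat.add_le_add_left h2 _).trans h1
  have hXj : v.ord (crd (k := k) U j) = -1 := by
    have h1 := hv (MvPolynomial.X j) (X_ne_zero _)
    rw [aeval_X] at h1
    rw [h1, bd, bdeg, aeval_X, if_pos hj, mul_comm, Polynomial.natDegree_C_mul_X _ (X_ne_zero _)]
    norm_num
  have hXj0 : crd (k := k) U j ≠ 0 := by
    intro h0
    rw [h0, v.ord_zero] at hXj
    omega
  refine ⟨C, fun t f hf i p Q hp hQ => ?_⟩
  by_cases hQ0 : Q = 0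
  · exact Or.inl hQ0
  right
  obtain ⟨τ, hτ⟩ : ∃ τ, τ = Algebra.trace (IntermediateField.adjoin k (Set.range U)) K
    (f * β i) := ⟨_, rfl⟩
  rw [← hτ] at hQ
  have hτ0 : τ ≠ 0 := by
    rintro h0
    apply hU0 Q hQ0
    rw [← hQ, h0]
    simp
  have h1 : v.Reg (crd (k := k) U j ^ (t - C) * τ) := by
    have h2 : crd (k := k) U j ^ (t - C) * τ =
        Algebra.trace (IntermediateField.adjoin k (Set.range U)) K
          ((crd (k := k) U j ^ (t - C)) • (f * β i)) := by
      rw [map_smul, smul_eq_mul, hτ]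
    rw [h2]
    refine Pool.Agent.Y172.trace_reg v _ fun w e hw => ?_
    have h3 : w ∈ T := by
      rw [Set.Finite.mem_toFinset]
      exact ⟨e, hw⟩
    have h4 := hf w e hw.1 fun Q hQ => by
      rw [← crd_coe]
      change w.ord (algebraMap _ K (aeval (crd (k := k) U) Q)) = _
      rw [hw.2, hv Q hQ]
      ring
    have h5 := hCw w h3 i
    rw [Algebra.smul_def]
    have h6 : Ge w (-(e : ℤ) * (t - C)) (algebraMap (IntermediateField.adjoin k (Set.range U)) K
        (crd (k := k) U j ^ (t - C))) := by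
      right
      rw [hw.2, v.ord_zpow, hXj]
      apply le_of_eq
      ring
    have h7 : Ge w (w.ord (β i)) (β i) := Or.inr le_rfl
    have h8 := h6.mul (h4.mul h7)
    refine h8.mono ?_
    have h9 : (1 : ℤ) ≤ e := by exact_mod_cast hw.1
    have h10 : (C : ℤ) * 1 ≤ C * e := mul_le_mul_of_nonneg_left h9 (Int.natCast_nonneg _)
    have h11 : ((B w : ℤ) + ((w.ord (β i)).natAbs : ℤ)) ≤ C := by exact_mod_cast h5
    have h12 : -((w.ord (β i)).natAbs : ℤ) ≤ w.ord (β i) := by omega
    nlinarith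
  have h2 := (v.reg_iff (mul_ne_zero (zpow_ne_zero _ hXj0) hτ0)).1 h1
  rw [v.ord_mul (zpow_ne_zero _ hXj0) hτ0, v.ord_zpow, hXj] at h2
  have h3 : τ * aeval (crd (k := k) U) p = aeval (crd (k := k) U) Q := by
    apply Subtype.ext
    rw [crd_coe, ← hQ, ← crd_coe U p]
    rfl
  have h4 := congrArg v.ord h3
  rw [v.ord_mul hτ0 (hG.ne hp), hv p hp, hv Q hQ0] at h4
  omega

end deg

end Pool.Agent.Y191
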