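import Pool.Agent.Y191.UGrow

/-!
Upper bounds for families of functions on a variety which is generically finite over a relative
affine space.
-/

set_option autoImplicit false
set_option linter.overlappingInstances false
set_option linter.unusedSectionVars false

open FF MvPolynomial Pool.Agent.W603.LV Pool.Agent.W619.PQ

namespace Pool.Agent.Y191

section

variable {k K : Type} [Field k] [CharZero k] [Field K] [Algebra k K] {σ : Type}

/-- the place `P` is over the prime divisor `g = 0` of the affine space over `F` with the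
coordinates `U` -/
def AdicF {F : IntermediateField k K} (P : Place k K) (U : σ → K) (g : MvPolynomial σ F) : Prop :=
  ∀ Q : MvPolynomial σ F, Q ≠ 0 → 0 ≤ P.ord (aeval U Q) ∧ (P.ord (aeval U Q) = 0 ↔ ¬ g ∣ Q)

theorem AdicF.triv {F : IntermediateField k K} {P : Place k K} {U : σ → K} {g : MvPolynomial σ F}
    (hg : ¬ IsUnit g) (h : AdicF P U g) : ∀ x ∈ F, x ≠ 0 → P.ord x = 0 := by
  intro x hx hx0
  have h1 : (C (⟨x, hx⟩ : F) : MvPolynomial σ F) ≠ 0 := by
    rw [Ne, C_eq_zero]
    exact fun h => hx0 (congrArg Subtype.val h)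
  have h2 := (h _ h1).2
  rw [aeval_C] at h2
  refine h2.2 fun hd => hg (isUnit_of_dvd_unit hd ?_)
  refine (isUnit_iff_ne_zero.2 ?_).map C
  exact fun h => hx0 (congrArg Subtype.val h)

variable [Fintype σ] [DecidableEq σ]

/-- `P` is over the place given by the degree in the variables in `J`, with ramification index `ρ` -/
def DegF (F : IntermediateField k K) (P : Place k K) (U : σ → K) (J : Finset σ) (ρ : ℕ) : Prop :=
  ∀ Q : MvPolynomial σ F, Q ≠ 0 → P.ord (aeval U Q) = -((ρ : ℤ) * bd J Q)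

theorem fd_basisF [Algebra.EssFiniteType k K] {F : IntermediateField k K} {U : σ → K}
    (hU : IsTranscendenceBasis F U) :
    FiniteDimensional (IntermediateField.adjoin F (Set.range U)) K := by
  have h1 : Algebra.EssFiniteType F K := Algebra.EssFiniteType.of_comp k F K
  let e := Fintype.equivFin σ
  have h2 : IsTranscendenceBasis F (U ∘ e.symm) := hU.comp_equiv e.symm
  have h3 := Pool.Agent.Y172.fd_basis h2
  rwa [e.symm.surjective.range_comp] at h3

/-- **The upper bound for families of functions.** -/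
theorem fam_bound [Algebra.EssFiniteType k K] {n a : ℕ} (hn : Algebra.trdeg k K = n)
    {F : IntermediateField k K} {U : σ → K} (hU : IsTranscendenceBasis F U)
    (S : Finset K) (𝓕 : ℕ → Set K)
    (hlin : ∀ P : Place k K, ∃ C : ℕ, ∀ m, 1 ≤ m → ∀ f ∈ 𝓕 m, Ge P (-((C * m : ℕ) : ℤ)) f)
    (hreg : ∀ P : Place k K, (∀ s ∈ S, P.Reg s) → ∀ m, 1 ≤ m → ∀ f ∈ 𝓕 m, P.Reg f)
    (A B : Place k K → ℕ) (hA : {P | A P ≠ 0}.Finite)
    (hfin : ∀ P (g : MvPolynomial σ F), Irreducible g → AdicF P U g → ∀ m, 1 ≤ m → ∀ f ∈ 𝓕 m,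
      Ge P (-(A P : ℤ)) f)
    {ι : Type} [Fintype ι] (J : ι → Finset σ) (hJ : ∀ i, (J i).Nonempty)
    (hinf : ∀ i P ρ, 1 ≤ ρ → DegF F P U (J i) ρ → ∀ m, 1 ≤ m → ∀ f ∈ 𝓕 m, Ge P (-(B P : ℤ)) f)
    {T : Finset σ} (hT : ∀ j ∈ T, ∃ i, j ∈ J i) (hna : n = a + T.card) :
    ∃ C : ℕ, ∀ m, 1 ≤ m → ∀ (N : ℕ) (f : Fin N → K), LinearIndependent k f →
      (∀ i, f i ∈ 𝓕 m) → N ≤ C * m ^ a := by
  classical
  have hfd := fd_basisF hU
  have : CharZero F := charZero_of_injective_algebraMap (algebraMap k F).injective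
  have : CharZero (IntermediateField.adjoin F (Set.range U)) :=
    charZero_of_injective_algebraMap (algebraMap F _).injective
  obtain ⟨δ, e, β, he, hβ⟩ := exists_dualT (K := K) (E := IntermediateField.adjoin F (Set.range U))
  let A' : Place F K → ℕ := fun P => A (Pool.Agent.Y172.dropP F P)
  let B' : Place F K → ℕ := fun P => B (Pool.Agent.Y172.dropP F P)
  have hdrop : Function.Injective (Pool.Agent.Y172.dropP (k := k) F (K := K)) := by
    intro P P' h
    apply Place.ext
    exact congrArg (Place.ord (k := k)) h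
  have hA' : {P | A' P ≠ 0 ∧ ∃ g, Irreducible g ∧ AdicS P U g}.Finite := by
    refine (hA.preimage (f := Pool.Agent.Y172.dropP (k := k) F (K := K))
      hdrop.injOn).subset ?_
    rintro P ⟨hP, -⟩
    exact hP
  obtain ⟨p, hp, hpf⟩ := exists_clear hU β A' hA'
  choose C hC using fun i => exists_degb hU β (J i) (hJ i) B'
  obtain ⟨B0, hB0⟩ : ∃ B0 : ℕ, B0 = ∑ i, (C i + bd (J i) p) := ⟨_, rfl⟩
  have hpU : aeval U p ≠ 0 := fun h0 => hp ((injective_iff_map_eq_zero _).1 hU.1 p h0)
  refine growthS hn S 𝓕 hlin hreg hU.1 he hpU hna B0 fun m hm f hf => ?_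
  have h1 := hpf f fun P g hg hPg =>
    hfin (Pool.Agent.Y172.dropP F P) g hg hPg m hm f hf
  choose Q hQ using h1
  refine ⟨Q, fun s x hx j hj => ?_, ?_⟩
  · obtain ⟨i, hi⟩ := hT j hj
    have h2 := hC i 0 f (fun P ρ hρ hP => by
      have h3 := hinf i (Pool.Agent.Y172.dropP F P) ρ hρ hP m hm f hf
      refine h3.mono (le_of_eq ?_)
      rw [zero_mul, zero_sub]) s p (Q s) hp (hQ s)
    have hQ0 : Q s ≠ 0 := by
      rintro h0
      rw [h0] at hx
      simp at hx
    have h3 := h2.resolve_left hQ0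
    have h4 := le_bd (J i) hx
    have h5 : x j ≤ ∑ j ∈ J i, x j := Finset.single_le_sum (fun _ _ => Nat.zero_le _) hi
    have h6 := Finset.single_le_sum (f := fun i => C i + bd (J i) p) (fun _ _ => Nat.zero_le _)
      (Finset.mem_univ i)
    change C i + bd (J i) p ≤ _ at h6
    omega
  · conv_lhs => rw [hβ f]
    rw [Finset.sum_mul]
    refine Finset.sum_congr rfl fun s _ => ?_
    rw [← hQ s]
    change (((Algebra.trace (IntermediateField.adjoin F (Set.range U)) K (f * β s) :
      IntermediateField.adjoin F (Set.range U)) : K)) * e s * aeval U p = _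
    ring

/-- **Vanishing for families of functions.** -/
theorem fam_zero [Algebra.EssFiniteType k K] {F : IntermediateField k K} {U : σ → K}
    (hU : IsTranscendenceBasis F U) (A B : Place k K → ℕ) (hA : {P | A P ≠ 0}.Finite)
    (J : Finset σ) (hJ : J.Nonempty) :
    ∃ C : ℕ, ∀ (t : ℤ) (f : K), (C : ℤ) < t →
      (∀ P (g : MvPolynomial σ F), Irreducible g → AdicF P U g → Ge P (-(A P : ℤ)) f) →
      (∀ P ρ, 1 ≤ ρ → DegF F P U J ρ → Ge P (t * ρ - B P) f) → f = 0 := by
  classical
  have hfd := fd_basisF hU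
  have : CharZero F := charZero_of_injective_algebraMap (algebraMap k F).injective
  have : CharZero (IntermediateField.adjoin F (Set.range U)) :=
    charZero_of_injective_algebraMap (algebraMap F _).injective
  obtain ⟨δ, e, β, he, hβ⟩ := exists_dualT (K := K) (E := IntermediateField.adjoin F (Set.range U))
  let A' : Place F K → ℕ := fun P => A (Pool.Agent.Y172.dropP F P)
  let B' : Place F K → ℕ := fun P => B (Pool.Agent.Y172.dropP F P)
  have hdrop : Function.Injective (Pool.Agent.Y172.dropP (k := k) F (K := K)) := by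
    intro P P' h
    apply Place.ext
    exact congrArg (Place.ord (k := k)) h
  have hA' : {P | A' P ≠ 0 ∧ ∃ g, Irreducible g ∧ AdicS P U g}.Finite := by
    refine (hA.preimage (f := Pool.Agent.Y172.dropP (k := k) F (K := K))
      hdrop.injOn).subset ?_
    rintro P ⟨hP, -⟩
    exact hP
  obtain ⟨p, hp, hpf⟩ := exists_clear hU β A' hA'
  obtain ⟨C, hC⟩ := exists_degb hU β J hJ B'
  have hpU : aeval U p ≠ 0 := fun h0 => hp ((injective_iff_map_eq_zero _).1 hU.1 p h0)
  refine ⟨C + bd J p, fun t f ht hf1 hf2 => ?_⟩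
  choose Q hQ using hpf f fun P g hg hPg =>
    hf1 (Pool.Agent.Y172.dropP F P) g hg hPg
  have h1 : ∀ s, Algebra.trace (IntermediateField.adjoin F (Set.range U)) K (f * β s) = 0 := by
    intro s
    have h2 := hC t f (fun P ρ hρ hP => hf2 (Pool.Agent.Y172.dropP F P) ρ hρ hP) s p (Q s) hp (hQ s)
    have h3 : Q s = 0 := by
      refine h2.resolve_right fun h3 => ?_
      push_cast at ht
      omega
    have h4 := hQ s
    rw [h3, map_zero] at h4
    exact Subtype.ext ((mul_eq_zero.1 h4).resolve_right hpU)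
  rw [hβ f]
  exact Finset.sum_eq_zero fun s _ => by rw [h1 s, map_zero, zero_mul]

end

end Pool.Agent.Y191
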