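import Pool.Agent.Y191.UJac

/-!
The affine chart at infinity of a block of coordinates, and the orders of pluricanonical forms at
the places over the hyperplane at infinity.
-/

set_option autoImplicit false
set_option linter.overlappingInstances false
set_option linter.unusedSectionVars false

open FF MvPolynomial Pool.Agent.W602.GT Pool.Agent.W603.LV Pool.Agent.W619.PQ
open Pool.Agent.Y172 (Kills Closed acl)

namespace Pool.Agent.Y191

section

variable {k K : Type} [Field k] [CharZero k] [Field K] [Algebra k K] {σ : Type} [Fintype σ]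
  [DecidableEq σ]

/-- the coordinates of the chart where the `l`-th coordinate of the block `J` is not zero -/
def flp (U : σ → K) (J : Finset σ) (l : σ) : σ → K :=
  fun i => if i = l then (U l)⁻¹ else if i ∈ J then U i / U l else U i

noncomputable def fxJ (J : Finset σ) (l : σ) (N : ℕ) (m : σ →₀ ℕ) : σ →₀ ℕ :=
  Finsupp.equivFunOnFinite.symm fun i => if i = l then N - ∑ i ∈ J, m i else m i

theorem fxJ_self (J : Finset σ) (l : σ) (N : ℕ) (m : σ →₀ ℕ) :
    fxJ J l N m l = N - ∑ i ∈ J, m i := if_pos rfl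

theorem fxJ_ne (J : Finset σ) {l i : σ} (h : i ≠ l) (N : ℕ) (m : σ →₀ ℕ) :
    fxJ J l N m i = m i := if_neg h

theorem fxJ_inj {J : Finset σ} {l : σ} (hl : l ∈ J) {N : ℕ} {m m' : σ →₀ ℕ}
    (h : ∑ i ∈ J, m i ≤ N) (h' : ∑ i ∈ J, m' i ≤ N) (hm : fxJ J l N m = fxJ J l N m') :
    m = m' := by
  have h1 : ∀ i, i ≠ l → m i = m' i := by
    intro i hi
    rw [← fxJ_ne J hi N m, hm, fxJ_ne J hi]
  have h2 : N - ∑ i ∈ J, m i = N - ∑ i ∈ J, m' i := by
    rw [← fxJ_self J l N m, hm, fxJ_self]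
  rw [← Finset.add_sum_erase J _ hl] at h h2
  rw [← Finset.add_sum_erase J _ hl] at h' h2
  have h3 : ∑ i ∈ J.erase l, m i = ∑ i ∈ J.erase l, m' i :=
    Finset.sum_congr rfl fun i hi => h1 i (Finset.ne_of_mem_erase hi)
  ext i
  by_cases hi : i = l
  · rw [hi]
    omega
  · exact h1 i hi

theorem fxJ_sum {J : Finset σ} {l : σ} (hl : l ∈ J) {N : ℕ} {m : σ →₀ ℕ}
    (h : ∑ i ∈ J, m i ≤ N) : ∑ i ∈ J, fxJ J l N m i + m l = N := by
  have h1 : ∑ i ∈ J.erase l, fxJ J l N m i = ∑ i ∈ J.erase l, m i :=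
    Finset.sum_congr rfl fun i hi => fxJ_ne J (Finset.ne_of_mem_erase hi) N m
  have h2 := Finset.add_sum_erase J (fun i => m i) hl
  have h3 := Finset.add_sum_erase J (fun i => fxJ J l N m i) hl
  have h4 := fxJ_self J l N m
  omega

noncomputable def fpJ (J : Finset σ) (l : σ) (N : ℕ) (R : MvPolynomial σ k) : MvPolynomial σ k :=
  ∑ m ∈ R.support, monomial (fxJ J l N m) (coeff m R)

theorem coeff_fpJ {J : Finset σ} {l : σ} (hl : l ∈ J) {N : ℕ} {R : MvPolynomial σ k}
    (hN : ∀ m ∈ R.support, ∑ i ∈ J, m i ≤ N) {m : σ →₀ ℕ} (hm : m ∈ R.support) :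
    coeff (fxJ J l N m) (fpJ J l N R) = coeff m R := by
  rw [fpJ, coeff_sum, Finset.sum_eq_single m]
  · rw [coeff_monomial, if_pos rfl]
  · intro m' hm' hne
    rw [coeff_monomial, if_neg fun h => hne (fxJ_inj hl (hN m' hm') (hN m hm) h)]
  · exact fun h => absurd hm h

theorem bd_fpJ_le {J : Finset σ} {l : σ} (hl : l ∈ J) {N : ℕ} {R : MvPolynomial σ k}
    (hN : ∀ m ∈ R.support, ∑ i ∈ J, m i ≤ N) : bd J (fpJ J l N R) ≤ N := by
  refine bd_le J fun x hx => ?_
  have h1 : x ∈ R.support.biUnion fun m => (monomial (fxJ J l N m) (coeff m R)).support :=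
    support_sum hx
  obtain ⟨m, hm, hxm⟩ := Finset.mem_biUnion.1 h1
  have h2 : x = fxJ J l N m := by
    have h3 := support_monomial_subset hxm
    exact Finset.mem_singleton.1 h3
  have h3 := fxJ_sum hl (hN m hm)
  rw [h2]
  omega

theorem aeval_fpJ {F : IntermediateField k K} {U : σ → K} {J : Finset σ} {l : σ} (hl : l ∈ J)
    (hU : U l ≠ 0) {N : ℕ} {R : MvPolynomial σ F} (hN : ∀ m ∈ R.support, ∑ i ∈ J, m i ≤ N) :
    aeval (flp U J l) R * U l ^ N = aeval U (fpJ J l N R) := by
  have h1 : aeval (flp U J l) R = ∑ m ∈ R.support, ((coeff m R : F) : K) *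
      ∏ i, flp U J l i ^ m i := by
    rw [aeval_def, eval₂_eq']
    rfl
  rw [h1, fpJ, map_sum, Finset.sum_mul]
  refine Finset.sum_congr rfl fun m hm => ?_
  rw [aeval_monomial, Finsupp.prod_fintype _ _ fun _ => pow_zero _]
  change ((coeff m R : F) : K) * _ * _ = ((coeff m R : F) : K) * _
  rw [mul_assoc]
  congr 1
  have h2 : (∏ i, flp U J l i ^ m i) * U l ^ (∑ i ∈ J, m i) =
      ∏ i, (if i = l then 1 else U i ^ m i) := by
    have h5 : ∏ i ∈ J, U l ^ m i = ∏ i, if i ∈ J then U l ^ m i else 1 := by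
      rw [Finset.prod_ite_mem, Finset.univ_inter]
    rw [← Finset.prod_pow_eq_pow_sum, h5, ← Finset.prod_mul_distrib]
    refine Finset.prod_congr rfl fun i _ => ?_
    unfold flp
    by_cases h3 : i = l
    · rw [if_pos h3, if_pos h3, h3, if_pos hl, ← mul_pow, inv_mul_cancel₀ hU, one_pow]
    · rw [if_neg h3, if_neg h3]
      by_cases h4 : i ∈ J
      · rw [if_pos h4, if_pos h4, ← mul_pow, div_mul_cancel₀ _ hU]
      · rw [if_neg h4, if_neg h4, mul_one]
  have h3 : ∏ i, U i ^ fxJ J l N m i = U l ^ (N - ∑ i ∈ J, m i) *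
      ∏ i, (if i = l then 1 else U i ^ m i) := by
    rw [← Finset.mul_prod_erase Finset.univ _ (Finset.mem_univ l), fxJ_self]
    congr 1
    rw [← Finset.mul_prod_erase Finset.univ (fun i => if i = l then 1 else U i ^ m i)
      (Finset.mem_univ l), if_pos rfl, one_mul]
    refine Finset.prod_congr rfl fun i hi => ?_
    rw [fxJ_ne J (Finset.ne_of_mem_erase hi), if_neg (Finset.ne_of_mem_erase hi)]
  rw [h3, ← h2]
  have h4 : U l ^ N = U l ^ (∑ i ∈ J, m i) * U l ^ (N - ∑ i ∈ J, m i) := by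
    rw [← pow_add, Nat.add_sub_cancel' (hN m hm)]
  rw [h4]
  ring

theorem bd_mul {J : Finset σ} {P Q : MvPolynomial σ k} (hP : P ≠ 0) (hQ : Q ≠ 0) :
    bd J (P * Q) = bd J P + bd J Q := by
  unfold bd
  rw [map_mul, Polynomial.natDegree_mul]
  · exact fun h8 => hP (bdeg_inj J (by rw [h8, map_zero]))
  · exact fun h8 => hQ (bdeg_inj J (by rw [h8, map_zero]))

theorem bd_X {J : Finset σ} {l : σ} (hl : l ∈ J) : bd J (X l : MvPolynomial σ k) = 1 := by
  rw [bd, bdeg, aeval_X, if_pos hl, mul_comm, Polynomial.natDegree_C_mul_X _ (X_ne_zero _)]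

variable {F : IntermediateField k K} {U : σ → K} {J : Finset σ} {l : σ} {P : Place k K} {ρ : ℕ}

theorem DegF.ord_U (h : DegF F P U J ρ) (hl : l ∈ J) : P.ord (U l) = -(ρ : ℤ) := by
  have h1 := h (X l) (X_ne_zero _)
  rw [aeval_X, bd_X hl] at h1
  simpa using h1

theorem DegF.adic (h : DegF F P U J ρ) (hρ : 1 ≤ ρ) (hl : l ∈ J) :
    P.ord (flp U J l l) = ρ ∧ AdicF P (flp U J l) (X l : MvPolynomial σ F) := by
  have hUl := h.ord_U hl
  have hUl0 : U l ≠ 0 := by
    intro h0
    rw [h0, P.ord_zero] at hUl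
    omega
  have h0 : P.ord (flp U J l l) = ρ := by
    unfold flp
    rw [if_pos rfl, P.ord_inv, hUl, neg_neg]
  refine ⟨h0, ?_⟩
  have key : ∀ R : MvPolynomial σ F, R ≠ 0 → aeval (flp U J l) R ≠ 0 ∧
      P.ord (aeval (flp U J l) R) = ρ * ((bd J R : ℤ) - bd J (fpJ J l (bd J R) R)) := by
    intro R hR
    have hN : ∀ m ∈ R.support, ∑ i ∈ J, m i ≤ bd J R := fun m hm => le_bd J hm
    obtain ⟨m, hm⟩ := support_nonempty.2 hR
    have h1 : fpJ J l (bd J R) R ≠ 0 := by
      intro h1
      have h2 := coeff_fpJ hl hN hm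
      rw [h1, coeff_zero] at h2
      exact mem_support_iff.1 hm h2.symm
    have h2 := h _ h1
    have h3 := aeval_fpJ (U := U) hl hUl0 hN
    have h4 : aeval U (fpJ J l (bd J R) R) ≠ 0 := by
      intro h4
      have hpos : bd J (fpJ J l (bd J R) R) = 0 := by
        rw [h4, P.ord_zero] at h2
        have : (ρ : ℤ) * bd J (fpJ J l (bd J R) R) = 0 := by omega
        rcases mul_eq_zero.1 this with h5 | h5 <;> omega
      -- multiply by a variable
      have h5 := h (fpJ J l (bd J R) R * X l) (mul_ne_zero h1 (X_ne_zero _))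
      rw [map_mul, h4, zero_mul, P.ord_zero] at h5
      have h6 : bd J (fpJ J l (bd J R) R * X l) = bd J (fpJ J l (bd J R) R) + 1 := by
        rw [bd_mul h1 (X_ne_zero _), bd_X hl]
      rw [h6, hpos] at h5
      push_cast at h5
      omega
    have h5 : aeval (flp U J l) R ≠ 0 := by
      intro h5
      rw [h5, zero_mul] at h3
      exact h4 h3.symm
    refine ⟨h5, ?_⟩
    have h6 := congrArg P.ord h3
    rw [P.ord_mul h5 (pow_ne_zero _ hUl0), P.ord_pow, hUl, h2] at h6
    linarith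
  intro R hR
  have hN : ∀ m ∈ R.support, ∑ i ∈ J, m i ≤ bd J R := fun m hm => le_bd J hm
  have h1 := (key R hR).2
  have h2 := bd_fpJ_le hl hN
  have h2' : (bd J (fpJ J l (bd J R) R) : ℤ) ≤ bd J R := by exact_mod_cast h2
  have hge : 0 ≤ P.ord (aeval (flp U J l) R) := by
    rw [h1]
    exact mul_nonneg (by positivity) (by linarith)
  refine ⟨hge, ?_⟩
  constructor
  · rintro h3 ⟨R', rfl⟩
    have hR' : R' ≠ 0 := by
      rintro rfl
      exact hR (mul_zero _)
    have h4 := key R' hR'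
    have h5 : (bd J (fpJ J l (bd J R') R') : ℤ) ≤ bd J R' := by
      exact_mod_cast bd_fpJ_le hl fun m hm => le_bd J hm
    have h6 : 0 ≤ P.ord (aeval (flp U J l) R') := by
      rw [h4.2]
      exact mul_nonneg (by positivity) (by linarith)
    have h7 : flp U J l l ≠ 0 := by
      intro h7
      rw [h7, P.ord_zero] at h0
      omega
    rw [map_mul, aeval_X, P.ord_mul h7 h4.1, h0] at h3
    omega
  · intro h3
    obtain ⟨m, hm, hm0⟩ : ∃ m ∈ R.support, m l = 0 := by
      by_contra hcon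
      push Not at hcon
      apply h3
      rw [R.as_sum]
      exact Finset.dvd_sum fun m hm => X_dvd_monomial.2 (Or.inr (hcon m hm))
    have h4 : fxJ J l (bd J R) m ∈ (fpJ J l (bd J R) R).support := by
      rw [mem_support_iff, coeff_fpJ hl hN hm]
      exact mem_support_iff.1 hm
    have h5 := le_bd J h4
    have h6 := fxJ_sum hl (hN m hm)
    rw [hm0, add_zero] at h6
    have h7 : bd J (fpJ J l (bd J R) R) = bd J R := by omega
    rw [h1, h7, sub_self, mul_zero]

/-- the order of a determinant is at least the sum of the orders of the columns -/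
theorem ge_det_col {n : ℕ} {P : Place k K} (M : Matrix (Fin n) (Fin n) K) (c : Fin n → ℤ)
    (h : ∀ i j, Ge P (c j) (M i j)) : Ge P (∑ j, c j) M.det := by
  rw [Matrix.det_apply]
  refine Ge.sum _ _ fun τ _ => ?_
  have h1 : Ge P (∑ j, c j) (∏ i, M (τ i) i) := Ge.prod _ _ _ fun j _ => h _ _
  rw [Units.smul_def, zsmul_eq_mul]
  have h2 := (Ge.intCast (P := P) ((Equiv.Perm.sign τ : ℤˣ) : ℤ)).mul h1
  rwa [zero_add] at h2

end

section

variable {K : Type} [Field K] [Algebra ℂ K] {σ : Type} [Fintype σ] [DecidableEq σ] {n p : ℕ}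
variable {F : IntermediateField ℂ K} {z : Fin p → K} {e : Fin n ≃ Fin p ⊕ σ} {U : σ → K}
  {D : Fin n → Derivation ℂ K K}

theorem flp_basis (hU : IsTranscendenceBasis F U) (J : Finset σ) (l : σ) :
    IsTranscendenceBasis F (flp U J l) := by
  have hl0 : U l ≠ 0 := hU.1.ne_zero l
  refine basis_of_gen hU fun E hE h => ?_
  have h1 : E (U l) = 0 := by
    have h2 := h l
    unfold flp at h2
    rw [if_pos rfl, E.leibniz_inv] at h2
    have h3 : (U l)⁻¹ ^ 2 * E (U l) = 0 := by
      have h4 : -((U l)⁻¹ ^ 2 * E (U l)) = 0 := by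
        rw [← h2, smul_eq_mul]
        ring
      linear_combination -h4
    exact (mul_eq_zero.1 h3).resolve_left (pow_ne_zero _ (inv_ne_zero hl0))
  refine Pool.Agent.Y172.ext_over hU hE (fun x _ => rfl) fun i => ?_
  change E (U i) = 0
  by_cases hi : i = l
  · rw [hi, h1]
  have h2 := h i
  unfold flp at h2
  rw [if_neg hi] at h2
  by_cases hJ : i ∈ J
  · rw [if_pos hJ, Derivation.leibniz_div, h1, smul_zero, sub_zero, smul_eq_mul, smul_eq_mul] at h2
    have h3 := (mul_eq_zero.1 h2).resolve_left (pow_ne_zero _ (inv_ne_zero hl0))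
    exact (mul_eq_zero.1 h3).resolve_left hl0
  · rwa [if_neg hJ] at h2

/-- the dual frame in other coordinates of the fibres -/
theorem FrF.chg (h : FrF F z e U D) {V : σ → K} (hV : IsTranscendenceBasis F V) :
    ∃ D', FrF F z e V D' := by
  have h1 : IsTranscendenceBasis ℂ fun i => Sum.elim z V (e i) := (h.ext V hV).comp_equiv e
  choose D' hD' using fun i : Fin n => Pool.Agent.W602.GT.exists_der _ h1
    fun j => if i = j then 1 else 0
  exact ⟨D', h.Fz, hV, h1, hD', h.ext⟩

/-- **The order at a place over the hyperplane at infinity.** -/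
theorem FrF.deg_ge [Algebra.EssFiniteType ℂ K] (hn : Algebra.trdeg ℂ K = n)
    (h : FrF F z e U D) {P : Place ℂ K} (hPd : Divisorial n P) {J : Finset σ} {l : σ} (hl : l ∈ J)
    {ρ : ℕ} (hρ : 1 ≤ ρ) (hP : DegF F P U J ρ) {m : ℕ} {ω : (Fin n → Derivation ℂ K K) → K}
    (hω : IsPluri m ω) {c : ℝ} (hc : ∀ E : Fin n → Derivation ℂ K K, (∀ i, DerReg P (E i)) →
      ω E = 0 ∨ c ≤ P.ord (ω E)) :
    ω D = 0 ∨ c - m * (ρ - 1) + m * (ρ * (J.card + 1)) ≤ P.ord (ω D) := by
  classical
  obtain ⟨hl1, hl2⟩ := hP.adic hρ hl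
  have hUl := hP.ord_U hl
  have hUl0 : U l ≠ 0 := h.bas.1.ne_zero l
  obtain ⟨D', h'⟩ := h.chg (flp_basis h.bas J l)
  have h1 := h'.adic_ge hn hPd (X_prime.irreducible) hl2 hω hc
  rw [aeval_X, hl1] at h1
  let M : Matrix (Fin n) (Fin n) K := Matrix.of fun i b =>
    D i (Sum.elim z (flp U J l) (e b))
  have hD : D = fun i => ∑ b, M i b • D' b := by
    funext i
    apply Pool.Agent.TH122.AB.der_ext' h'.bas0
    intro j
    rw [Pool.Agent.TH122.AB.sum_der, Finset.sum_eq_single j]
    · rw [h'.dual, if_pos rfl, mul_one]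
      rfl
    · intro b _ hb
      rw [h'.dual, if_neg hb, mul_zero]
    · intro hj
      exact absurd (Finset.mem_univ _) hj
  have h2 : ω D = M.det ^ m * ω D' := by
    conv_lhs => rw [hD]
    exact hω M D'
  let cc : Fin p ⊕ σ → ℤ := Sum.elim (fun _ => 0)
    fun i => if i ∈ J then (ρ : ℤ) + (if i = l then (ρ : ℤ) else 0) else 0
  have h01 : ∀ i x, Ge P 0 (D i (Sum.elim z U x)) := by
    intro i x
    rcases x with a | a
    · rw [Sum.elim_inl, h.dz]
      split_ifs
      · exact Ge.one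
      · exact Ge.zero
    · rw [Sum.elim_inr, h.dU]
      split_ifs
      · exact Ge.one
      · exact Ge.zero
  have hUi : ∀ i ∈ J, Ge P (-(ρ : ℤ)) (U i) := fun i hi => Or.inr (hP.ord_U hi).ge
  have hUinv : Ge P (ρ : ℤ) (U l)⁻¹ := by
    right
    rw [P.ord_inv, hUl, neg_neg]
  have hM : ∀ i b, Ge P (cc (e b)) (M i b) := by
    intro i b
    change Ge P (cc (e b)) (D i (Sum.elim z (flp U J l) (e b)))
    rcases e b with a | a
    · exact h01 i (Sum.inl a)
    · rw [Sum.elim_inr]
      change Ge P (if a ∈ J then (ρ : ℤ) + (if a = l then (ρ : ℤ) else 0) else 0) _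
      unfold flp
      by_cases ha : a = l
      · rw [if_pos ha, ha, if_pos hl, if_pos rfl, (D i).leibniz_inv, smul_eq_mul]
        have h3 := (hUinv.pow 2).neg.mul (h01 i (Sum.inr l))
        refine h3.mono (le_of_eq ?_)
        push_cast
        ring
      · rw [if_neg ha, if_neg ha, add_zero]
        by_cases hJ : a ∈ J
        · rw [if_pos hJ, if_pos hJ, Derivation.leibniz_div]
          simp only [smul_eq_mul]
          have h3 := (hUi l hl).mul (h01 i (Sum.inr a))
          have h4 := (hUi a hJ).mul (h01 i (Sum.inr l))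
          have h5 := (hUinv.pow 2).mul (h3.sub h4)
          refine h5.mono (le_of_eq ?_)
          push_cast
          ring
        · rw [if_neg hJ, if_neg hJ]
          exact h01 i (Sum.inr a)
  have hdet := ge_det_col M (fun b => cc (e b)) hM
  have hsum : ∑ b, cc (e b) = ρ * (J.card + 1) := by
    rw [Equiv.sum_comp e cc, Fintype.sum_sum_type]
    simp only [cc, Sum.elim_inl, Sum.elim_inr, Finset.sum_const_zero, zero_add]
    rw [Finset.sum_ite_mem, Finset.univ_inter, Finset.sum_add_distrib, Finset.sum_ite_eq',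
      if_pos hl, Finset.sum_const, nsmul_eq_mul]
    ring
  rw [hsum] at hdet
  by_cases h0 : ω D = 0
  · exact Or.inl h0
  right
  rw [h2] at h0
  have h3 : ω D' ≠ 0 := right_ne_zero_of_mul h0
  have h4 := h1.resolve_left h3
  rcases Nat.eq_zero_or_pos m with hm | hm
  · subst hm
    rw [h2, pow_zero, one_mul]
    push_cast at h4 ⊢
    linarith
  have h5 : M.det ≠ 0 := by
    intro h5
    rw [h5, zero_pow hm.ne', zero_mul] at h0
    exact h0 rfl
  have h6 := hdet.resolve_left h5
  rw [h2, P.ord_mul (pow_ne_zero _ h5) h3, P.ord_pow]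
  have h7 : (m : ℤ) * (ρ * (J.card + 1)) ≤ m * P.ord M.det :=
    mul_le_mul_of_nonneg_left h6 (by positivity)
  have h8 : (m : ℝ) * (ρ * (J.card + 1)) ≤ m * (P.ord M.det : ℝ) := by exact_mod_cast h7
  push_cast at h4 ⊢
  linarith

end

end Pool.Agent.Y191
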