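import Pool.Agent.Y191.UCore
import Pool.Agent.Y172.Rel
import Pool.Agent.Y172.Cov3

/-!
Polynomial growth of spaces of functions which have bounded poles over the divisors of a relative
affine space and bounded degrees in some of its coordinates.
-/

set_option autoImplicit false
set_option linter.overlappingInstances false
set_option linter.unusedSectionVars false

open FF MvPolynomial Pool.Agent.W603.LV Pool.Agent.W619.PQ

namespace Pool.Agent.Y191

section poly

variable {F : Type} [Field F] {σ : Type} [Fintype σ] [DecidableEq σ]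

/-- the exponent with the entries `c` in `T` -/
noncomputable def exT {T : Finset σ} (c : T → ℕ) : σ →₀ ℕ :=
  Finsupp.equivFunOnFinite.symm fun i => if h : i ∈ T then c ⟨i, h⟩ else 0

theorem exT_mem {T : Finset σ} (c : T → ℕ) {i : σ} (h : i ∈ T) : exT c i = c ⟨i, h⟩ :=
  dif_pos h

/-- shifted polynomials of small degree in the variables in `T` are independent -/
theorem shift_poly {T : Finset σ} {B : ℕ} {ι : Type} [Fintype ι] (c : ι → T → ℕ)
    (hc : Function.Injective c) (R : ι → MvPolynomial σ F)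
    (hR : ∀ i, ∀ m ∈ (R i).support, ∀ j ∈ T, m j ≤ B)
    (h : ∑ i, monomial (exT fun j => (B + 1) * c i j) (1 : F) * R i = 0) (i : ι) : R i = 0 := by
  classical
  by_contra h0
  obtain ⟨m, hm⟩ := support_nonempty.2 h0
  have h1 := congrArg (coeff (exT (fun j => (B + 1) * c i j) + m)) h
  rw [coeff_zero, coeff_sum, Finset.sum_eq_single i] at h1
  · rw [coeff_monomial_mul, one_mul] at h1
    exact mem_support_iff.1 hm h1
  · intro i' _ hi'
    rw [coeff_monomial_mul']
    split_ifs with h2
    · rw [one_mul]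
      by_contra h3
      have h4 := mem_support_iff.2 h3
      apply hi'
      apply hc
      funext j
      have h5 := hR i' _ h4 j j.2
      have h6 := hR i m hm j j.2
      have h7 := h2 j
      rw [Finsupp.add_apply, exT_mem _ j.2, exT_mem _ j.2] at h7
      rw [Finsupp.tsub_apply, Finsupp.add_apply, exT_mem _ j.2, exT_mem _ j.2] at h5
      change (B + 1) * c i' j ≤ (B + 1) * c i j + m j at h7
      change (B + 1) * c i j + m j - (B + 1) * c i' j ≤ B at h5
      by_contra h8
      rcases lt_or_gt_of_ne h8 with h9 | h9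
      · have h10 : (B + 1) * c i' j + (B + 1) ≤ (B + 1) * c i j := by
          rw [← Nat.mul_succ]
          exact Nat.mul_le_mul_left _ h9
        omega
      · have h10 : (B + 1) * c i j + (B + 1) ≤ (B + 1) * c i' j := by
          rw [← Nat.mul_succ]
          exact Nat.mul_le_mul_left _ h9
        omega
    · rfl
  · intro hi
    exact absurd (Finset.mem_univ _) hi

end poly

section

variable {k K : Type} [Field k] [CharZero k] [Field K] [Algebra k K] {σ : Type} [Fintype σ]
  [DecidableEq σ]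

theorem aeval_exT (F : IntermediateField k K) {T : Finset σ} (U : σ → K) (c : T → ℕ) :
    aeval U (monomial (exT c) (1 : F)) = ∏ j : T, U j ^ c j := by
  classical
  rw [aeval_monomial, map_one, one_mul, Finsupp.prod_fintype _ _ fun _ => pow_zero _]
  have h1 : ∀ i, U i ^ exT c i = if h : i ∈ T then U i ^ c ⟨i, h⟩ else 1 := by
    intro i
    by_cases h : i ∈ T
    · rw [exT_mem c h, dif_pos h]
    · rw [dif_neg h]
      have : exT c i = 0 := dif_neg h
      rw [this, pow_zero]
  rw [Finset.prod_congr rfl fun i _ => h1 i]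
  rw [← Finset.prod_subset (Finset.subset_univ T) fun i _ hi => dif_neg hi, ← Finset.prod_attach T]
  exact Finset.prod_congr rfl fun j _ => dif_pos j.2

/-- shifted copies of a space of functions are independent -/
theorem shift_indepS {F : IntermediateField k K} {U : σ → K} (hU : AlgebraicIndependent F U)
    {T : Finset σ} {δ : ℕ} {e : Fin δ → K}
    (he : LinearIndependent (IntermediateField.adjoin F (Set.range U)) e)
    {p : K} (hp : p ≠ 0) {N B m : ℕ} {f : Fin N → K} (hf : LinearIndependent k f)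
    (hbox : ∀ i, ∃ Q : Fin δ → MvPolynomial σ F, (∀ s, ∀ m ∈ (Q s).support, ∀ j ∈ T, m j ≤ B) ∧
      f i * p = ∑ s, aeval U (Q s) * e s) :
    LinearIndependent k fun x : (T → Fin (m + 1)) × Fin N =>
      (∏ j : T, U j ^ ((B + 1) * (x.1 j : ℕ))) * f x.2 := by
  classical
  choose Q hQB hQ using hbox
  rw [Fintype.linearIndependent_iff]
  intro α hα
  obtain ⟨R, hR⟩ : ∃ R : (T → Fin (m + 1)) → Fin δ → MvPolynomial σ F,
      R = fun c s => ∑ i, C (algebraMap k F (α (c, i))) * Q i s := ⟨_, rfl⟩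
  have hRB : ∀ c s, ∀ m ∈ (R c s).support, ∀ j ∈ T, m j ≤ B := by
    intro c s m hm j hj
    rw [hR] at hm
    have h1 : m ∈ Finset.univ.biUnion fun i => (C (algebraMap k F (α (c, i))) * Q i s).support :=
      support_sum hm
    obtain ⟨i, -, hi⟩ := Finset.mem_biUnion.1 h1
    refine hQB i s m ?_ j hj
    rw [mem_support_iff] at hi ⊢
    intro h2
    apply hi
    rw [coeff_C_mul, h2, mul_zero]
  have hRf : ∀ c, (∑ i, α (c, i) • f i) * p = ∑ s, aeval U (R c s) * e s := by
    intro c
    have h1 : ∀ s, aeval U (R c s) * e s = ∑ i, algebraMap k K (α (c, i)) *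
        (aeval U (Q i s) * e s) := by
      intro s
      rw [hR]
      simp only
      rw [map_sum, Finset.sum_mul]
      refine Finset.sum_congr rfl fun i _ => ?_
      rw [map_mul, aeval_C, mul_assoc]
      rfl
    rw [Finset.sum_congr rfl fun s _ => h1 s, Finset.sum_comm, Finset.sum_mul]
    refine Finset.sum_congr rfl fun i _ => ?_
    rw [← Finset.mul_sum, ← hQ i, Algebra.smul_def, mul_assoc]
  have h0 : ∀ s, ∑ c : T → Fin (m + 1), (∏ j : T, U j ^ ((B + 1) * (c j : ℕ))) *
      aeval U (R c s) = 0 := by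
    have h1 : ∑ s, (∑ c : T → Fin (m + 1), (∏ j : T, U j ^ ((B + 1) * (c j : ℕ))) *
        aeval U (R c s)) * e s = 0 := by
      have h2 : (∑ x : (T → Fin (m + 1)) × Fin N,
          α x • ((∏ j : T, U j ^ ((B + 1) * (x.1 j : ℕ))) * f x.2)) * p = 0 := by
        rw [hα, zero_mul]
      rw [← h2, Finset.sum_mul, Fintype.sum_prod_type]
      simp only [Finset.sum_mul]
      rw [Finset.sum_comm]
      refine Finset.sum_congr rfl fun c _ => ?_
      have h3 : ∑ s, (∏ j : T, U j ^ ((B + 1) * (c j : ℕ))) * aeval U (R c s) * e s =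
          (∏ j : T, U j ^ ((B + 1) * (c j : ℕ))) * ((∑ i, α (c, i) • f i) * p) := by
        rw [hRf, Finset.mul_sum]
        exact Finset.sum_congr rfl fun s _ => mul_assoc _ _ _
      rw [h3, Finset.sum_mul, Finset.mul_sum]
      refine Finset.sum_congr rfl fun i _ => ?_
      rw [Algebra.smul_def, Algebra.smul_def]
      ring
    have hmem : ∀ s, (∑ c : T → Fin (m + 1), (∏ j : T, U j ^ ((B + 1) * (c j : ℕ))) *
        aeval U (R c s)) ∈ IntermediateField.adjoin F (Set.range U) := by
      intro s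
      refine sum_mem fun c _ => mul_mem (prod_mem fun j _ => pow_mem
        (IntermediateField.subset_adjoin F _ (Set.mem_range_self (j : σ))) _) ?_
      rw [← crd_coe]
      exact SetLike.coe_mem _
    have h2 := Fintype.linearIndependent_iff.1 he (fun s =>
      (⟨∑ c : T → Fin (m + 1), (∏ j : T, U j ^ ((B + 1) * (c j : ℕ))) * aeval U (R c s),
        hmem s⟩ : IntermediateField.adjoin F (Set.range U))) h1
    intro s
    exact congrArg Subtype.val (h2 s)
  have hR0 : ∀ c s, R c s = 0 := by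
    intro c s
    refine shift_poly (T := T) (B := B) (ι := T → Fin (m + 1)) (fun c j => (c j : ℕ))
      (fun a b hab => funext fun j => Fin.ext (congrFun hab j)) (fun c => R c s)
      (fun c => hRB c s) ?_ c
    apply (injective_iff_map_eq_zero _).1 hU
    rw [map_sum, ← h0 s]
    refine Finset.sum_congr rfl fun c _ => ?_
    rw [map_mul, ← aeval_exT F]
  have hc : ∀ c, ∑ i, α (c, i) • f i = 0 := by
    intro c
    have h1 : (∑ i, α (c, i) • f i) * p = 0 := by
      rw [hRf]
      exact Finset.sum_eq_zero fun s _ => by rw [hR0, map_zero, zero_mul]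
    exact (mul_eq_zero.1 h1).resolve_right hp
  rintro ⟨c, i⟩
  exact Fintype.linearIndependent_iff.1 hf (fun i => α (c, i)) (hc c) i

/-- **Growth with respect to coordinates of bounded degree.** -/
theorem growthS [Algebra.EssFiniteType k K] {n a : ℕ} (hn : Algebra.trdeg k K = n)
    (S : Finset K) (𝓕 : ℕ → Set K)
    (hA : ∀ P : Place k K, ∃ C : ℕ, ∀ m, 1 ≤ m → ∀ f ∈ 𝓕 m, Ge P (-((C * m : ℕ) : ℤ)) f)
    (hB : ∀ P : Place k K, (∀ s ∈ S, P.Reg s) → ∀ m, 1 ≤ m → ∀ f ∈ 𝓕 m, P.Reg f)
    {F : IntermediateField k K} {U : σ → K} (hU : AlgebraicIndependent F U)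
    {T : Finset σ} {δ : ℕ} {e : Fin δ → K}
    (he : LinearIndependent (IntermediateField.adjoin F (Set.range U)) e)
    {p : K} (hp : p ≠ 0) (hna : n = a + T.card) (B : ℕ)
    (hbox : ∀ m, 1 ≤ m → ∀ f ∈ 𝓕 m, ∃ Q : Fin δ → MvPolynomial σ F,
      (∀ s, ∀ m ∈ (Q s).support, ∀ j ∈ T, m j ≤ B) ∧ f * p = ∑ s, aeval U (Q s) * e s) :
    ∃ C : ℕ, ∀ m, 1 ≤ m → ∀ (N : ℕ) (f : Fin N → K), LinearIndependent k f →
      (∀ i, f i ∈ 𝓕 m) → N ≤ C * m ^ a := by
  classical
  obtain ⟨Z, -, hZ, -⟩ := Pool.Agent.Y172.exists_crd hn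
  have hu0 : ∀ j, U j ≠ 0 := fun j => hU.ne_zero j
  let 𝓖 : ℕ → Set K := fun m => {g | ∃ c : T → Fin (m + 1), ∃ f ∈ 𝓕 m,
    g = (∏ j : T, U j ^ ((B + 1) * (c j : ℕ))) * f}
  obtain ⟨C, hC⟩ := Pool.Agent.Y172.growth hZ (Pool.Agent.Y172.fd_basis hZ)
    (S ∪ Finset.univ.image U) 𝓖 (by
    intro P
    obtain ⟨C, hC⟩ := hA P
    refine ⟨C + (B + 1) * ∑ j : T, (P.ord (U j)).natAbs, ?_⟩
    rintro m hm _ ⟨c, f, hf, rfl⟩
    have h1 := hC m hm f hf
    have h2 : Ge P (∑ j : T, -(((B + 1) * m * (P.ord (U j)).natAbs : ℕ) : ℤ))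
        (∏ j : T, U j ^ ((B + 1) * (c j : ℕ))) := by
      refine Ge.prod _ _ _ fun j _ => Or.inr ?_
      rw [P.ord_pow]
      have h4 : (c j : ℕ) ≤ m := Nat.lt_succ_iff.1 (c j).2
      have h5 : (((B + 1) * (c j : ℕ) : ℕ) : ℤ) ≤ (((B + 1) * m : ℕ) : ℤ) := by
        exact_mod_cast Nat.mul_le_mul_left _ h4
      have h6 : -((P.ord (U j)).natAbs : ℤ) ≤ P.ord (U j) := by omega
      have h7 : (0 : ℤ) ≤ (((B + 1) * (c j : ℕ) : ℕ) : ℤ) := Int.natCast_nonneg _
      have h8 : (0 : ℤ) ≤ ((P.ord (U j)).natAbs : ℤ) := Int.natCast_nonneg _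
      have h9 := mul_le_mul_of_nonneg_left h6 h7
      have h10 := mul_le_mul_of_nonneg_right h5 h8
      have h11 : (((B + 1) * m * (P.ord (U j)).natAbs : ℕ) : ℤ) = (((B + 1) * m : ℕ) : ℤ) *
          ((P.ord (U j)).natAbs : ℤ) := by push_cast; ring
      rw [h11]
      linarith
    have h3 := h2.mul h1
    refine h3.mono (le_of_eq ?_)
    rw [Finset.sum_neg_distrib, ← Nat.cast_sum, ← Finset.mul_sum]
    push_cast
    ring) (by
    rintro P hP m hm _ ⟨c, f, hf, rfl⟩
    refine P.reg_mul ?_ (hB P (fun s hs => hP s (Finset.mem_union_left _ hs)) m hm f hf)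
    have h1 : Ge P (∑ j : T, (0 : ℤ)) (∏ j : T, U j ^ ((B + 1) * (c j : ℕ))) := by
      refine Ge.prod _ _ _ fun j _ => Or.inr ?_
      have h1 := (P.reg_iff (hu0 j)).1 (hP _ (Finset.mem_union_right _
        (Finset.mem_image_of_mem _ (Finset.mem_univ (j : σ)))))
      rw [P.ord_pow]
      positivity
    rw [Finset.sum_const_zero] at h1
    exact h1)
  refine ⟨C, fun m hm N f hf hmem => ?_⟩
  have h1 := shift_indepS (m := m) hU he hp hf fun i => hbox m hm _ (hmem i)
  let e' := (Fintype.equivFin ((T → Fin (m + 1)) × Fin N))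
  have h2 := h1.comp e'.symm e'.symm.injective
  have h3 := hC m hm _ _ h2 fun i => ⟨(e'.symm i).1, f (e'.symm i).2, hmem _, rfl⟩
  rw [Fintype.card_prod, Fintype.card_fun, Fintype.card_fin, Fintype.card_fin,
    Fintype.card_coe, hna, pow_add, ← mul_assoc] at h3
  have h4 : m ^ T.card ≤ (m + 1) ^ T.card := Nat.pow_le_pow_left (Nat.le_succ m) _
  have h5 : m ^ T.card * N ≤ C * m ^ a * m ^ T.card := (Nat.mul_le_mul_right N h4).trans h3
  rw [mul_comm] at h5
  exact Nat.le_of_mul_le_mul_right h5 (pow_pos hm _)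

/-- dual bases for the trace -/
theorem exists_dualT {E : Type} [Field E] [CharZero E] [Algebra E K] [FiniteDimensional E K] :
    ∃ (δ : ℕ) (e β : Fin δ → K), LinearIndependent E e ∧
      ∀ f : K, f = ∑ s, algebraMap E K (Algebra.trace E K (f * β s)) * e s := by
  classical
  let b := Module.finBasis E K
  have hnd := traceForm_nondegenerate E K
  refine ⟨Module.finrank E K, b, fun s => (LinearMap.BilinForm.dualBasis (Algebra.traceForm E K)
    hnd b) s, b.linearIndependent, fun f => ?_⟩
  have h1 : ∀ s, Algebra.trace E K (f * (LinearMap.BilinForm.dualBasis (Algebra.traceForm E K)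
      hnd b) s) = b.repr f s := by
    intro s
    conv_lhs => rw [← b.sum_repr f, Finset.sum_mul, map_sum]
    rw [Finset.sum_eq_single s]
    · rw [smul_mul_assoc, map_smul, mul_comm]
      have h2 := LinearMap.BilinForm.apply_dualBasis_left hnd b s s
      rw [if_pos rfl, Algebra.traceForm_apply] at h2
      rw [h2, smul_eq_mul, mul_one]
    · intro j _ hj
      rw [smul_mul_assoc, map_smul, mul_comm]
      have h2 := LinearMap.BilinForm.apply_dualBasis_left hnd b s j
      rw [if_neg hj, Algebra.traceForm_apply] at h2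
      rw [h2, smul_zero]
    · intro hs
      exact absurd (Finset.mem_univ _) hs
  conv_lhs => rw [← b.sum_repr f]
  refine Finset.sum_congr rfl fun s _ => ?_
  rw [h1, Algebra.smul_def]

end

end Pool.Agent.Y191
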