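import Pool.Agent.Y191.UFam
import Pool.Agent.Y191.MovFib
import Pool.Agent.Y172.Cov2
import Pool.Agent.TH122.AB.Jac

/-!
The orders of pluricanonical forms on the coordinate vector fields of a relative affine space at the
places over its prime divisors.
-/

set_option autoImplicit false
set_option linter.overlappingInstances false
set_option linter.unusedSectionVars false

open FF MvPolynomial Pool.Agent.W602.GT Pool.Agent.W603.LV Pool.Agent.W619.PQ
open Pool.Agent.Y172 (Kills Closed acl)

namespace Pool.Agent.Y191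

section

variable {k : Type} [Field k] [CharZero k] {K0 K : Type} [Field K0] [Field K] [Algebra k K0]
  [Algebra k K] [Algebra K0 K] [IsScalarTower k K0 K] [FiniteDimensional K0 K] {n : ℕ}

/-- The order on the coordinate vector fields is at least the order of the form minus
`m (e - 1)`. -/
theorem jac1 [Algebra.EssFiniteType k K] (htr : Algebra.trdeg k K = n)
    {v : Place k K0} {w : Place k K} {e : ℕ} (h : Over w v e) (hw : Divisorial n w)
    (dd : Fin n → Derivation k K K) (Z : Fin n → K) (hZ : IsTranscendenceBasis k Z)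
    (hdual : ∀ i j, dd i (Z j) = if i = j then 1 else 0)
    (hpres : ∀ i, ∀ x : K0, v.Reg x → w.Reg (dd i (algebraMap K0 K x))) {π : K0}
    (hπ : v.ord π = 1) (b0 : Fin n) (hb0 : dd b0 (algebraMap K0 K π) ≠ 0)
    (hb1 : w.ord (dd b0 (algebraMap K0 K π)) = 0) {m : ℕ}
    {ω : (Fin n → Derivation k K K) → K} (hω : IsPluri m ω) {c : ℝ}
    (hc : ∀ E : Fin n → Derivation k K K, (∀ i, DerReg w (E i)) → ω E = 0 ∨ c ≤ w.ord (ω E)) :
    ω dd = 0 ∨ c - m * (e - 1) ≤ w.ord (ω dd) := by
  classical
  obtain ⟨y, E', i0, hl⟩ := Pool.Agent.Y172.exists_loc htr hw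
  have hπ0 : π ≠ 0 := by
    intro h0
    rw [h0, v.ord_zero] at hπ
    omega
  have hπK : algebraMap K0 K π ≠ 0 := by simpa using hπ0
  have hwπ : w.ord (algebraMap K0 K π) = e := by rw [h.2, hπ, mul_one]
  let J : Matrix (Fin n) (Fin n) K := Matrix.of fun a b => E' a (Z b)
  let M : Matrix (Fin n) (Fin n) K := Matrix.of fun b c => dd b (y c)
  have hEdd : ∀ a, E' a = ∑ b, J a b • dd b := by
    intro a
    apply Pool.Agent.TH122.AB.der_ext' hZ
    intro j
    rw [Pool.Agent.TH122.AB.sum_der, Finset.sum_eq_single j]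
    · rw [hdual, if_pos rfl, mul_one]
      rfl
    · intro b _ hb
      rw [hdual, if_neg hb, mul_zero]
    · intro hj
      exact absurd (Finset.mem_univ _) hj
  have hJM : J * M = 1 := by
    ext a c
    rw [Matrix.mul_apply, Matrix.one_apply]
    have h1 := hl.dual a c
    rw [hEdd a, Pool.Agent.TH122.AB.sum_der] at h1
    exact h1
  have hdet : J.det * M.det = 1 := by rw [← Matrix.det_mul, hJM, Matrix.det_one]
  have hM0 : M.det ≠ 0 := right_ne_zero_of_mul (by rw [hdet]; exact one_ne_zero)
  have hJ0 : J.det ≠ 0 := left_ne_zero_of_mul (by rw [hdet]; exact one_ne_zero)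
  have hy0 : ∀ c, y c ≠ 0 := by
    intro c h0
    have h1 := hl.dual c c
    rw [h0, map_zero, if_pos rfl] at h1
    exact zero_ne_one h1
  -- the adapted derivations
  let cc : Fin n → K := fun b => dd b (algebraMap K0 K π) / dd b0 (algebraMap K0 K π)
  have hccreg : ∀ b, w.Reg (cc b) := by
    intro b
    simp only [cc]
    rw [div_eq_mul_inv]
    refine w.reg_mul (hpres b π (Or.inr (by omega))) (Or.inr ?_)
    rw [w.ord_inv, hb1]
    simp
  let D' : Fin n → Derivation k K K := fun b =>
    if b = b0 then algebraMap K0 K π • dd b0 else dd b - cc b • dd b0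
  have hD'b0 : D' b0 = algebraMap K0 K π • dd b0 := by simp only [D', if_true]
  have hD'b : ∀ b, b ≠ b0 → D' b = dd b - cc b • dd b0 := by
    intro b hb
    simp only [D', if_neg hb]
  have hlog : ∀ b, ∀ z : K, w.Reg (D' b z / z) := by
    intro b
    by_cases hb : b = b0
    · rw [hb, hD'b0]
      refine Pool.Agent.TH122.AB.log_of h hπ (fun x hx => ?_) ?_
      · rw [Derivation.smul_apply, smul_eq_mul]
        refine w.reg_mul (Or.inr ?_) (hpres b0 x hx)
        rw [hwπ]
        positivity
      · rw [Derivation.smul_apply, smul_eq_mul, mul_div_assoc, mul_div_cancel₀ _ hπK]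
        exact hpres b0 π (Or.inr (by omega))
    · rw [hD'b b hb]
      refine Pool.Agent.TH122.AB.log_of h hπ (fun x hx => ?_) ?_
      · rw [Derivation.sub_apply, Derivation.smul_apply, smul_eq_mul]
        exact Ge.sub (hpres b x hx) (w.reg_mul (hccreg b) (hpres b0 x hx))
      · rw [Derivation.sub_apply, Derivation.smul_apply, smul_eq_mul]
        simp only [cc]
        rw [div_mul_cancel₀ _ hb0, sub_self, zero_div]
        exact w.reg_zero
  -- the determinant
  have hdetD : (Matrix.of fun b c => D' b (y c)).det = algebraMap K0 K π * M.det := by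
    have h1 : (Matrix.of fun b c => D' b (y c)) =
        Matrix.updateRow (Matrix.of fun b c => dd b (y c) -
          (if b = b0 then 0 else cc b) * dd b0 (y c)) b0
          (algebraMap K0 K π • fun c => dd b0 (y c)) := by
      ext b c
      by_cases hb : b = b0
      · subst hb
        rw [Matrix.updateRow_self, Matrix.of_apply, hD'b0, Derivation.smul_apply, Pi.smul_apply]
      · rw [Matrix.updateRow_ne hb, Matrix.of_apply, Matrix.of_apply, hD'b b hb, if_neg hb,
          Derivation.sub_apply, Derivation.smul_apply, smul_eq_mul]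
    rw [h1, Matrix.det_updateRow_smul]
    congr 1
    have h2 : Matrix.updateRow (Matrix.of fun b c => dd b (y c) -
          (if b = b0 then 0 else cc b) * dd b0 (y c)) b0 (fun c => dd b0 (y c)) =
        Matrix.of fun b c => dd b (y c) - (if b = b0 then 0 else cc b) * dd b0 (y c) := by
      ext b c
      by_cases hb : b = b0
      · subst hb
        rw [Matrix.updateRow_self, Matrix.of_apply, if_pos rfl, zero_mul, sub_zero]
      · rw [Matrix.updateRow_ne hb]
    rw [h2]
    symm
    refine Matrix.det_eq_of_forall_row_eq_smul_add_const (fun b => if b = b0 then 0 else cc b) b0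
      (by simp) (fun b c => ?_)
    rw [Matrix.of_apply, Matrix.of_apply, if_pos rfl, zero_mul, sub_zero]
    simp only [M, Matrix.of_apply]
    ring
  have hge : Ge w 1 (Matrix.of fun b c => D' b (y c)).det := by
    have h1 : (Matrix.of fun b c => D' b (y c)).det =
        (∏ c, y c) * (Matrix.of fun b c => D' b (y c) / y c).det := by
      rw [← Matrix.det_mul_row]
      congr 1
      ext b c
      rw [Matrix.of_apply, Matrix.of_apply, Matrix.of_apply, mul_div_cancel₀ _ (hy0 c)]
    rw [h1]
    have h2 : Ge w 0 (Matrix.of fun b c => D' b (y c) / y c).det :=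
      Pool.Agent.W619.PQ.ge_det w _ fun b c => hlog b (y c)
    have h3 : Ge w 1 (∏ c, y c) := by
      rw [← Finset.mul_prod_erase Finset.univ y (Finset.mem_univ i0)]
      have h4 : Ge w 0 (∏ c ∈ Finset.univ.erase i0, y c) := by
        refine Finset.prod_induction _ (fun z => Ge w 0 z) (fun a b ha hb => ?_) Ge.one
          fun c _ => hl.reg c
        simpa using ha.mul hb
      have h5 : Ge w 1 (y i0) := Or.inr hl.unif.ge
      simpa using h5.mul h4
    simpa using h3.mul h2
  have hordM : 1 - (e : ℤ) ≤ w.ord M.det := by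
    rw [hdetD] at hge
    have h1 := hge.resolve_left (mul_ne_zero hπK hM0)
    rw [w.ord_mul hπK hM0, hwπ] at h1
    linarith
  -- the form
  have hpl := hω J dd
  have hE : E' = fun a => ∑ b, J a b • dd b := funext hEdd
  rw [← hE] at hpl
  by_cases h0 : ω dd = 0
  · exact Or.inl h0
  right
  have h1 : ω E' ≠ 0 := by
    rw [hpl]
    exact mul_ne_zero (pow_ne_zero _ hJ0) h0
  have hle := (hc E' hl.pres).resolve_left h1
  rw [hpl, w.ord_mul (pow_ne_zero _ hJ0) h0, w.ord_pow] at hle
  have h2 : w.ord J.det = - w.ord M.det := by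
    have h3 := congrArg w.ord hdet
    rw [w.ord_mul hJ0 hM0, w.ord_one] at h3
    linarith
  rw [h2] at hle
  have h4 : (m : ℤ) * (1 - e) ≤ m * w.ord M.det := mul_le_mul_of_nonneg_left hordM (by positivity)
  have h5 : (m : ℝ) * (1 - e) ≤ m * (w.ord M.det : ℝ) := by exact_mod_cast h4
  push_cast at hle
  linarith

end

section

variable {K : Type} [Field K] [Algebra ℂ K] {σ : Type} [Fintype σ] [DecidableEq σ] {n p : ℕ}

/-- coordinates `z` of the base, whose function field is `F`, and `U` of the fibres, with the dual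
vector fields -/
structure FrF (F : IntermediateField ℂ K) (z : Fin p → K) (e : Fin n ≃ Fin p ⊕ σ) (U : σ → K)
    (D : Fin n → Derivation ℂ K K) : Prop where
  Fz : F = acl ℂ (Set.range z)
  bas : IsTranscendenceBasis F U
  bas0 : IsTranscendenceBasis ℂ fun i => Sum.elim z U (e i)
  dual : ∀ i j, D i (Sum.elim z U (e j)) = if i = j then 1 else 0
  ext : ∀ V : σ → K, IsTranscendenceBasis F V → IsTranscendenceBasis ℂ (Sum.elim z V)

/-- coordinates of a closed subfield -/
theorem exists_zF (hn : Algebra.trdeg ℂ K = n) {F : IntermediateField ℂ K} (hF : Closed F) :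
    ∃ (p : ℕ) (z : Fin p → K), F = acl ℂ (Set.range z) ∧ AlgebraicIndependent ℂ z ∧
      (∀ i, z i ∈ F) ∧
      ∀ {σ : Type} [Fintype σ] (U : σ → K), IsTranscendenceBasis F U →
        IsTranscendenceBasis ℂ (Sum.elim z U) := by
  obtain ⟨p, z, hzF, hz, hFz, hext⟩ := Pool.Agent.Y172.exists_coord hn hF
  refine ⟨p, z, hFz, hz, hzF, fun {σ} _ U hU => ?_⟩
  let e := Fintype.equivFin σ
  have h1 := hext _ (U ∘ e.symm) (hU.1.comp e.symm e.symm.injective)
  have h2 : AlgebraicIndependent ℂ (Sum.elim z U) := by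
    have h3 := h1.comp (Sum.elim Sum.inr (fun s => Sum.inl (e s)) : Fin p ⊕ σ → _) (by
      rintro (a | a) (b | b) hab
      · simpa using hab
      · simp at hab
      · simp at hab
      · simpa using hab)
    have h4 : Sum.elim z U = Sum.elim (U ∘ e.symm) z ∘
        Sum.elim Sum.inr (fun s => Sum.inl (e s)) := by
      funext x
      rcases x with a | a
      · rfl
      · simp
    rw [h4]
    exact h3
  refine Pool.Agent.Y172.basis_of_kill₀ h2 fun D hD => ?_
  have hk : Kills D F := by
    rw [hFz]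
    refine Pool.Agent.Y172.kills_acl ?_
    rintro _ ⟨i, rfl⟩
    exact hD (Sum.inl i)
  refine Pool.Agent.Y172.ext_over hU hk (fun x _ => rfl) fun i => ?_
  have h5 : D (U i) = 0 := hD (Sum.inr i)
  rw [h5]
  rfl

variable {F : IntermediateField ℂ K} {z : Fin p → K} {e : Fin n ≃ Fin p ⊕ σ} {U : σ → K}
  {D : Fin n → Derivation ℂ K K}

theorem FrF.dz (h : FrF F z e U D) (i : Fin n) (a : Fin p) :
    D i (z a) = if e i = Sum.inl a then 1 else 0 := by
  have h1 := h.dual i (e.symm (Sum.inl a))
  rw [e.apply_symm_apply] at h1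
  change D i (z a) = _ at h1
  rw [h1]
  by_cases h2 : e i = Sum.inl a
  · rw [if_pos h2, if_pos (by rw [← h2, e.symm_apply_apply])]
  · rw [if_neg h2, if_neg fun h3 => h2 (by rw [h3, e.apply_symm_apply])]

theorem FrF.dU (h : FrF F z e U D) (i : Fin n) (s : σ) :
    D i (U s) = if e i = Sum.inr s then 1 else 0 := by
  have h1 := h.dual i (e.symm (Sum.inr s))
  rw [e.apply_symm_apply] at h1
  change D i (U s) = _ at h1
  rw [h1]
  by_cases h2 : e i = Sum.inr s
  · rw [if_pos h2, if_pos (by rw [← h2, e.symm_apply_apply])]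
  · rw [if_neg h2, if_neg fun h3 => h2 (by rw [h3, e.apply_symm_apply])]

theorem FrF.memF (h : FrF F z e U D) (i : Fin n) : ∀ x ∈ F, D i x ∈ F := by
  rw [h.Fz]
  refine Pool.Agent.Y172.stab_acl ?_
  rintro _ ⟨a, rfl⟩
  rw [h.dz]
  split_ifs
  · exact one_mem _
  · exact zero_mem _

theorem FrF.kill (h : FrF F z e U D) {i : Fin n} {s : σ} (hi : e i = Sum.inr s) :
    Kills (D i) F := by
  have h1 : Kills (D i) (acl ℂ (Set.range z)) := by
    refine Pool.Agent.Y172.kills_acl ?_
    rintro _ ⟨a, rfl⟩
    rw [h.dz, if_neg (by rw [hi]; exact fun h => by cases h)]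
  rw [h.Fz]
  exact h1

/-- the coordinate vector fields preserve the polynomials -/
theorem FrF.poly (h : FrF F z e U D) (i : Fin n) (P : MvPolynomial σ F) :
    ∃ P' : MvPolynomial σ F, D i (aeval U P) = aeval U P' := by
  induction P using MvPolynomial.induction_on with
  | C a =>
    refine ⟨C ⟨D i a, h.memF i a a.2⟩, ?_⟩
    rw [aeval_C, aeval_C]
    rfl
  | add P Q hP hQ =>
    obtain ⟨P', hP⟩ := hP
    obtain ⟨Q', hQ⟩ := hQ
    exact ⟨P' + Q', by rw [map_add, map_add, hP, hQ, map_add]⟩
  | mul_X P s hP =>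
    obtain ⟨P', hP⟩ := hP
    refine ⟨P' * X s + P * (if e i = Sum.inr s then 1 else 0), ?_⟩
    rw [map_mul, aeval_X, (D i).leibniz, hP, h.dU, map_add, map_mul, map_mul, aeval_X,
      smul_eq_mul, smul_eq_mul]
    have h1 : aeval U (if e i = Sum.inr s then (1 : MvPolynomial σ F) else 0) =
        (if e i = Sum.inr s then (1 : K) else 0) := by
      split_ifs <;> simp
    rw [h1]
    ring

theorem FrF.pder (h : FrF F z e U D) {i : Fin n} {s : σ} (hi : e i = Sum.inr s)
    (P : MvPolynomial σ F) : D i (aeval U P) = aeval U (pderiv s P) := by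
  have hk := h.kill hi
  have h1 := der_aevalS (D := Pool.Agent.Y172.liftD (D i) F hk) (Z := U) (i := s) (fun j => by
    change D i (U j) = _
    rw [h.dU, hi]
    by_cases h2 : s = j
    · rw [if_pos h2, if_pos (by rw [h2])]
    · rw [if_neg h2, if_neg fun h3 => h2 (Sum.inr_injective h3)]) P
  exact h1

/-- **The order at a place over a prime divisor of the affine space.** -/
theorem FrF.adic_ge [Algebra.EssFiniteType ℂ K] (hn : Algebra.trdeg ℂ K = n)
    (h : FrF F z e U D) {P : Place ℂ K} (hPd : Divisorial n P) {g : MvPolynomial σ F}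
    (hg : Irreducible g) (hP : AdicF P U g) {m : ℕ} {ω : (Fin n → Derivation ℂ K K) → K}
    (hω : IsPluri m ω) {c : ℝ} (hc : ∀ E : Fin n → Derivation ℂ K K, (∀ i, DerReg P (E i)) →
      ω E = 0 ∨ c ≤ P.ord (ω E)) :
    ω D = 0 ∨ c - m * (P.ord (aeval U g) - 1) ≤ P.ord (ω D) := by
  classical
  have hfd := fd_basisF h.bas
  have htr := hP.triv hg.not_isUnit
  let P' : Place F K := Pool.Agent.Y172.liftP P F htr
  have hP' : AdicS P' U g := hP
  have hG := crd_gens (k := F) h.bas.1
  obtain ⟨v, hv1, hv⟩ := exists_adicS hG hg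
  have hov := hP'.over h.bas.1 hg hv1 hv
  have hpos : 0 < P.ord (aeval U g) := hP'.pos hg.ne_zero
  obtain ⟨ρ, hρ⟩ : ∃ ρ : ℕ, ρ = (P'.ord (aeval U g)).toNat := ⟨_, rfl⟩
  have hρ' : (ρ : ℤ) = P.ord (aeval U g) := by
    rw [hρ]
    exact Int.toNat_of_nonneg hpos.le
  rw [← hρ] at hov
  let K0 := IntermediateField.adjoin F (Set.range U)
  have : FiniteDimensional K0 K := hfd
  let v' : Place ℂ K0 :=
    { ord := v.ord
      ord_zero := v.ord_zero
      ord_mul := v.ord_mul
      ord_add := v.ord_add
      ord_const := fun {c} hc => by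
        have h1 := v.ord_const (c := algebraMap ℂ F c) (by rwa [Ne, map_eq_zero])
        rwa [← IsScalarTower.algebraMap_apply] at h1
      surj := v.surj }
  have hov' : Over P v' ρ := hov
  have hst : IsScalarTower ℂ K0 K := IsScalarTower.of_algebraMap_eq fun c => by
    rw [IsScalarTower.algebraMap_apply ℂ F K, IsScalarTower.algebraMap_apply ℂ F K0]
    rfl
  obtain ⟨b, hb, hbg⟩ := exists_pderivS hg
  have hU0 : ∀ Q : MvPolynomial σ F, Q ≠ 0 → aeval U Q ≠ 0 := fun Q hQ h0 =>
    hQ ((injective_iff_map_eq_zero _).1 h.bas.1 Q h0)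
  have hib : e (e.symm (Sum.inr b)) = Sum.inr b := e.apply_symm_apply _
  have hcoe : ∀ Q : MvPolynomial σ F, algebraMap K0 K (aeval (crd (k := F) U) Q) = aeval U Q :=
    crd_coe U
  have hpres : ∀ i, ∀ x : K0, v'.Reg x → P.Reg (D i (algebraMap K0 K x)) := by
    intro i x hx
    obtain ⟨A, B, hB, hgB, rfl⟩ := frac_of_regS hG hg hv hx
    obtain ⟨A', hA'⟩ := h.poly i A
    obtain ⟨B', hB'⟩ := h.poly i B
    rw [map_div₀, hcoe, hcoe, Derivation.leibniz_div, hA', hB']
    have h1 : (aeval U B)⁻¹ ^ 2 • (aeval U B • aeval U A' - aeval U A • aeval U B') =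
        aeval U (B * A' - A * B') / aeval U (B ^ 2) := by
      rw [smul_eq_mul, smul_eq_mul, smul_eq_mul, map_sub, map_mul, map_mul, map_pow]
      ring
    rw [h1, div_eq_mul_inv]
    refine P.reg_mul ?_ (Or.inr ?_)
    · by_cases h2 : B * A' - A * B' = 0
      · rw [h2, map_zero]
        exact P.reg_zero
      · exact Or.inr (hP _ h2).1
    · rw [P.ord_inv, map_pow, P.ord_pow, (hP B hB).2.2 hgB]
      simp
  have hDb : D (e.symm (Sum.inr b)) (algebraMap K0 K (aeval (crd (k := F) U) g)) =
      aeval U (pderiv b g) := by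
    rw [hcoe, h.pder hib]
  have hfin := jac1 hn hov' hPd D _ h.bas0 h.dual hpres hv1 (e.symm (Sum.inr b))
    (by
      rw [hDb]
      exact hU0 _ hb)
    (by
      rw [hDb]
      exact (hP _ hb).2.2 hbg) hω hc
  rcases hfin with h1 | h1
  · exact Or.inl h1
  · right
    have h2 : ((ρ : ℤ) : ℝ) = ((P.ord (aeval U g) : ℤ) : ℝ) := by rw [hρ']
    rw [← h2]
    push_cast
    exact h1

end

end Pool.Agent.Y191
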