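import Pool.Agent.Y191.UFlip
import Pool.Agent.Y172.Sec
import Pool.Agent.Y172.Dim3

/-!
Upper bounds for the number of sections of multiples of `K + Δ` on a variety which is generically
finite over a relative product of projective spaces.
-/

set_option autoImplicit false
set_option linter.overlappingInstances false
set_option linter.unusedSectionVars false

open FF MvPolynomial Pool.Agent.W602.GT Pool.Agent.W603.LV Pool.Agent.W619.PQ
open Pool.Agent.Y172

namespace Pool.Agent.Y191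

section

variable {K : Type} [Field K] [Algebra ℂ K] {σ : Type} [Fintype σ] [DecidableEq σ] {n p N : ℕ}
variable {F : IntermediateField ℂ K} {z : Fin p → K} {e : Fin n ≃ Fin p ⊕ σ} {U : σ → K}
  {D : Fin n → Derivation ℂ K K} {y : Fin (N + 1) → K} {Δ A : Place ℂ K → ℚ}

theorem FrF.frame (h : FrF F z e U D) : IsFrame D := fun E =>
  ⟨fun j => E (Sum.elim z U (e j)), (Pool.Agent.W73.PG.PULL.expand _ h.bas0 D h.dual E).symm⟩

/-- a section at a place over a prime divisor of the affine space -/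
theorem sec_adic (hy : NormalModel y) (hn : Algebra.trdeg ℂ K = n) (h : FrF F z e U D)
    {P : Place ℂ K} (hP : IsPrimeDivisor y P) {g : MvPolynomial σ F} (hg : Irreducible g)
    (hPg : AdicF P U g) {m : ℕ} {ω : (Fin n → Derivation ℂ K K) → K}
    (hω : IsSection y n m (m • Δ + A) ω) :
    ω D = 0 ∨ -((m : ℝ) * Δ P + A P) - m * (P.ord (aeval U g) - 1) ≤ P.ord (ω D) := by
  have hess := hy.ess
  refine h.adic_ge hn (hP.divisorial hy hn) hg hPg hω.1 fun E hE => ?_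
  rcases hω.2 P hP E hE with h1 | h1
  · exact Or.inl h1
  · right
    have h2 : ((-((m • Δ + A) P) : ℚ) : ℝ) ≤ (((P.ord (ω E) : ℤ) : ℚ) : ℝ) := by exact_mod_cast h1
    rw [Pi.add_apply, Pi.smul_apply, nsmul_eq_mul] at h2
    push_cast at h2
    linarith

/-- a section at a place over the hyperplane at infinity of a block -/
theorem sec_deg (hy : NormalModel y) (hn : Algebra.trdeg ℂ K = n) (h : FrF F z e U D)
    {P : Place ℂ K} (hP : IsPrimeDivisor y P) {J : Finset σ} {l : σ} (hl : l ∈ J) {ρ : ℕ}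
    (hρ : 1 ≤ ρ) (hPJ : DegF F P U J ρ) {m : ℕ} {ω : (Fin n → Derivation ℂ K K) → K}
    (hω : IsSection y n m (m • Δ + A) ω) :
    ω D = 0 ∨ -((m : ℝ) * Δ P + A P) - m * (ρ - 1) + m * (ρ * (J.card + 1)) ≤ P.ord (ω D) := by
  have hess := hy.ess
  refine h.deg_ge hn (hP.divisorial hy hn) hl hρ hPJ hω.1 fun E hE => ?_
  rcases hω.2 P hP E hE with h1 | h1
  · exact Or.inl h1
  · right
    have h2 : ((-((m • Δ + A) P) : ℚ) : ℝ) ≤ (((P.ord (ω E) : ℤ) : ℚ) : ℝ) := by exact_mod_cast h1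
    rw [Pi.add_apply, Pi.smul_apply, nsmul_eq_mul] at h2
    push_cast at h2
    linarith

open Classical in
/-- the coefficients of `A`, rounded up -/
noncomputable def rup (y : Fin (N + 1) → K) (A : Place ℂ K → ℚ) (P : Place ℂ K) : ℕ :=
  if IsPrimeDivisor y P then ⌈A P⌉₊ else 0

theorem rup_ge {P : Place ℂ K} (hP : IsPrimeDivisor y P) : (A P : ℝ) ≤ rup y A P := by
  unfold rup
  rw [if_pos hP]
  have := Nat.le_ceil (A P)
  exact_mod_cast this

theorem rup_fin (hA : Effective y A) : {P | rup y A P ≠ 0}.Finite := by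
  refine hA.2.subset fun P hP => ?_
  by_cases h : IsPrimeDivisor y P
  · refine ⟨h, fun h0 => hP ?_⟩
    unfold rup
    rw [if_pos h, h0, Nat.ceil_zero]
  · exact absurd (if_neg h) hP

theorem int_ge_of_real {a : ℤ} {b : ℤ} {c : ℝ} (h1 : c ≤ (b : ℝ)) (h2 : (a : ℝ) ≤ c) : a ≤ b := by
  have h3 := h2.trans h1
  exact_mod_cast h3

/-- **The upper bound for sections.** -/
theorem up_sec (hy : NormalModel y) (hn : Algebra.trdeg ℂ K = n) (hΔ : Effective y Δ)
    (hA : Effective y A) (h : FrF F z e U D) {φ : ℕ → K} (hφ0 : ∀ m, φ m ≠ 0)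
    (hφlin : ∀ P : Place ℂ K, ∃ C : ℕ, ∀ m, 1 ≤ m → Ge P (-((C * m : ℕ) : ℤ)) (φ m))
    {Sφ : Finset K} (hφS : ∀ P : Place ℂ K, (∀ s ∈ Sφ, P.Reg s) → ∀ m, 1 ≤ m → P.Reg (φ m))
    (hfin : ∀ P (g : MvPolynomial σ F), Irreducible g → AdicF P U g → IsPrimeDivisor y P ∧
      ∀ m : ℕ, 1 ≤ m → (m : ℝ) * (Δ P + (P.ord (aeval U g) - 1)) ≤ P.ord (φ m))
    {ι : Type} [Fintype ι] {J : ι → Finset σ} {l : ι → σ} (hl : ∀ i, l i ∈ J i)
    (B : Place ℂ K → ℕ)
    (hinf : ∀ i P (ρ : ℕ), 1 ≤ ρ → DegF F P U (J i) ρ → IsPrimeDivisor y P ∧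
      ∀ m : ℕ, 1 ≤ m → (m : ℝ) * (Δ P + (ρ - 1)) ≤
        P.ord (φ m) + m * (ρ * ((J i).card + 1)) + B P)
    {T : Finset σ} (hT : ∀ j ∈ T, ∃ i, j ∈ J i) {a : ℕ} (hna : n = a + T.card) :
    ∃ C : ℕ, ∀ m : ℕ, 1 ≤ m → ∀ (r : ℕ) (f : Fin r → K), LinearIndependent ℂ f →
      (∀ i, ∃ ω, IsSection y n m (m • Δ + A) ω ∧ ω D = f i) → r ≤ C * m ^ a := by
  classical
  have hess := hy.ess
  obtain ⟨S0, hS0⟩ := sec_fin (n := n) hy hΔ hA D
  let 𝓕 : ℕ → Set K := fun m => {g | ∃ ω, IsSection y n m (m • Δ + A) ω ∧ g = ω D * φ m}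
  obtain ⟨C, hC⟩ := fam_bound (F := F) (U := U) hn h.bas (S0 ∪ Sφ) 𝓕 (by
      intro P
      obtain ⟨C1, hC1⟩ := sec_all (n := n) hy hΔ hA D P
      obtain ⟨C2, hC2⟩ := hφlin P
      refine ⟨C1 + C2, ?_⟩
      rintro m hm _ ⟨ω, hω, rfl⟩
      refine ((hC1 m hm ω hω).mul (hC2 m hm)).mono (le_of_eq ?_)
      push_cast
      ring)
    (by
      rintro P hP m hm _ ⟨ω, hω, rfl⟩
      exact P.reg_mul (hS0 P (fun s hs => hP s (Finset.mem_union_left _ hs)) m hm ω hω)
        (hφS P (fun s hs => hP s (Finset.mem_union_right _ hs)) m hm))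
    (rup y A) (fun P => rup y A P + B P) (rup_fin hA)
    (by
      rintro P g hg hPg m hm _ ⟨ω, hω, rfl⟩
      obtain ⟨hP, hφ⟩ := hfin P g hg hPg
      rcases sec_adic hy hn h hP hg hPg hω with h1 | h1
      · left
        rw [h1, zero_mul]
      by_cases h0 : ω D = 0
      · left
        rw [h0, zero_mul]
      right
      rw [P.ord_mul h0 (hφ0 m)]
      refine int_ge_of_real (c := -((m : ℝ) * Δ P + A P) - m * (P.ord (aeval U g) - 1) +
        P.ord (φ m)) ?_ ?_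
      · push_cast
        linarith
      · have h2 := hφ m hm
        have h3 := rup_ge (A := A) hP
        push_cast
        nlinarith)
    J (fun i => ⟨l i, hl i⟩)
    (by
      rintro i P ρ hρ hPJ m hm _ ⟨ω, hω, rfl⟩
      obtain ⟨hP, hφ⟩ := hinf i P ρ hρ hPJ
      rcases sec_deg hy hn h hP (hl i) hρ hPJ hω with h1 | h1
      · left
        rw [h1, zero_mul]
      by_cases h0 : ω D = 0
      · left
        rw [h0, zero_mul]
      right
      rw [P.ord_mul h0 (hφ0 m)]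
      refine int_ge_of_real (c := -((m : ℝ) * Δ P + A P) - m * (ρ - 1) +
        m * (ρ * ((J i).card + 1)) + P.ord (φ m)) ?_ ?_
      · push_cast
        linarith
      · have h2 := hφ m hm
        have h3 := rup_ge (A := A) hP
        push_cast
        nlinarith)
    hT hna
  refine ⟨C, fun m hm r f hf hω => ?_⟩
  refine hC m hm r (fun i => f i * φ m) ?_ fun i => ?_
  · have h1 : LinearIndependent ℂ ((LinearMap.mulRight ℂ (φ m)) ∘ f) :=
      hf.map' _ (LinearMap.ker_eq_bot.2 fun a b hab => mul_right_cancel₀ (hφ0 m) hab)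
    exact h1
  · obtain ⟨ω, h1, h2⟩ := hω i
    exact ⟨ω, h1, by rw [h2]⟩

/-- **Vanishing of sections.** -/
theorem zero_sec (hy : NormalModel y) (hn : Algebra.trdeg ℂ K = n)
    (hA : Effective y A) (h : FrF F z e U D) {φ : ℕ → K} (hφ0 : ∀ m, φ m ≠ 0)
    (hfin : ∀ P (g : MvPolynomial σ F), Irreducible g → AdicF P U g → IsPrimeDivisor y P ∧
      ∀ m : ℕ, 1 ≤ m → (m : ℝ) * (Δ P + (P.ord (aeval U g) - 1)) ≤ P.ord (φ m))
    {J : Finset σ} {l : σ} (hl : l ∈ J) (B : Place ℂ K → ℕ) {τ : ℝ} (hτ : 0 < τ)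
    (hinf : ∀ P (ρ : ℕ), 1 ≤ ρ → DegF F P U J ρ → IsPrimeDivisor y P ∧
      ∀ m : ℕ, 1 ≤ m → (m : ℝ) * (Δ P + (ρ - 1)) + m * (τ * ρ) ≤
        P.ord (φ m) + m * (ρ * (J.card + 1)) + B P) :
    ∃ m0 : ℕ, ∀ m : ℕ, m0 ≤ m → ∀ ω, IsSection y n m (m • Δ + A) ω → ω = 0 := by
  classical
  have hess := hy.ess
  obtain ⟨C, hC⟩ := fam_zero (F := F) (U := U) h.bas (rup y A) (fun P => rup y A P + B P)
    (rup_fin hA) J ⟨l, hl⟩
  refine ⟨⌈((C : ℝ) + 2) / τ⌉₊ + 1, fun m hm ω hω => ?_⟩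
  have hm1 : 1 ≤ m := by omega
  have hm2 : ((C : ℝ) + 2) ≤ m * τ := by
    have h1 := Nat.le_ceil (((C : ℝ) + 2) / τ)
    have h2 : ((⌈((C : ℝ) + 2) / τ⌉₊ : ℕ) : ℝ) ≤ m := by
      have : ⌈((C : ℝ) + 2) / τ⌉₊ ≤ m := by omega
      exact_mod_cast this
    have h3 := h1.trans h2
    rwa [div_le_iff₀ hτ] at h3
  have ht : (C : ℤ) < ⌊(m : ℝ) * τ⌋ := by
    have h1 : ((C + 1 : ℤ)) ≤ ⌊(m : ℝ) * τ⌋ := by
      rw [Int.le_floor]
      push_cast
      linarith
    omega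
  refine pluri_zero h.frame hω.1 ?_
  have h1 := hC ⌊(m : ℝ) * τ⌋ (ω D * φ m) ht
    (by
      intro P g hg hPg
      obtain ⟨hP, hφ⟩ := hfin P g hg hPg
      rcases sec_adic hy hn h hP hg hPg hω with h1 | h1
      · left
        rw [h1, zero_mul]
      by_cases h0 : ω D = 0
      · left
        rw [h0, zero_mul]
      right
      rw [P.ord_mul h0 (hφ0 m)]
      refine int_ge_of_real (c := -((m : ℝ) * Δ P + A P) - m * (P.ord (aeval U g) - 1) +
        P.ord (φ m)) ?_ ?_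
      · push_cast
        linarith
      · have h2 := hφ m hm1
        have h3 := rup_ge (A := A) hP
        push_cast
        nlinarith)
    (by
      intro P ρ hρ hPJ
      obtain ⟨hP, hφ⟩ := hinf P ρ hρ hPJ
      rcases sec_deg hy hn h hP hl hρ hPJ hω with h1 | h1
      · left
        rw [h1, zero_mul]
      by_cases h0 : ω D = 0
      · left
        rw [h0, zero_mul]
      right
      rw [P.ord_mul h0 (hφ0 m)]
      refine int_ge_of_real (c := -((m : ℝ) * Δ P + A P) - m * (ρ - 1) +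
        m * (ρ * (J.card + 1)) + P.ord (φ m)) ?_ ?_
      · push_cast
        linarith
      · have h2 := hφ m hm1
        have h3 := rup_ge (A := A) hP
        have h4 := Int.floor_le ((m : ℝ) * τ)
        have h5 : ((⌊(m : ℝ) * τ⌋ : ℤ) : ℝ) * ρ ≤ (m * τ) * ρ :=
          mul_le_mul_of_nonneg_right h4 (Nat.cast_nonneg _)
        push_cast
        nlinarith)
  exact (mul_eq_zero.1 h1).resolve_right (hφ0 m)

end

end Pool.Agent.Y191
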